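import Pool.Agent.Zk31.QVoc
import Pool.Agent.H391R2.WrRes
import Pool.Agent.TH59.WX.UG

/-! The equivalence. -/

set_option autoImplicit false
set_option linter.unusedSectionVars false

namespace Pool.Agent.Zk31.QJ

open AlgebraicGeometry CategoryTheory W560.HP IntermediateField
open Nfff32c05
open Pool.Agent.TH178.HI (HasFunctionField)
open Pool.Agent.H391R2.T4 (HilbField RegSol)
open Pool.Agent.N600.UK (ProperSol)
open Pool.Agent.Zk31.QVoc Pool.Agent.Zk31.QC Pool.Agent.Zk31.QD Pool.Agent.Zk31.QI
  Pool.Agent.Zk31.QG Pool.Agent.Zk31.QH Pool.Agent.Zk31.QE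

theorem allHilbert_of_hpf (k K : Type) [Field k] [Field K] [Algebra k K] (h : HPF k K) :
    AllHilbert k K := by
  intro M _ _ φ hφ X p _ _ ⟨e, he⟩
  have h1 : HilbertProperty k X p :=
    Pool.Agent.W253.HP.sch k X p M e he (hpf_relcl φ hφ h)
  exact ⟨h1, fun hn => iso_of_hp Pool.Agent.W376.HP.nrm k X p hn h1⟩

section main

variable {k L B F ι : Type} [Field k] [CharZero k] [Field L] [Field F] [Algebra k L]
  [FiniteDimensional k L] [IsGalois k L] [Algebra k F] [Algebra L F]
  [IsScalarTower k L F] [Group B] [Finite B] [MulSemiringAction B F] [SMulCommClass B k F]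
  [Finite ι]

theorem main_tfae (hk : HilbField k) (α : B →* (L ≃ₐ[k] L)) (x : ι → F)
    (h : SemilinearRep k α x) :
    [HilbertProperty k (affineQuotient k L B x) (quotientStr k L B x),
      AllHilbert k (FixedPoints.intermediateField B : IntermediateField k F),
      Sols k L B α,
      ∀ m, ProperSol k L (FibPow α m) (fibPr α m)].TFAE := by
  have hf := h.faithful
  have hN : HilbNR k := Pool.Agent.W405.HP.hit k hk
  tfae_have 2 → 1 := by
    intro h1
    have h2 : IsIntegral (affineQuotient k L B x) :=
      inferInstanceAs (IsIntegral (Spec (CommRingCat.of (invRing k L B x))))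
    have h3 : LocallyOfFiniteType (quotientStr k L B x) :=
      lft_inv α h.semilinear x h.stable
    have h4 : HasFunctionField k (affineQuotient k L B x) (quotientStr k L B x)
        (FixedPoints.intermediateField B : IntermediateField k F) :=
      hasFF_inv α h.semilinear x h.generates h.stable
    exact (h1 _ (AlgHom.id k _) (fun z _ => ⟨z, rfl⟩) _ _ h4).1
  tfae_have 1 → 4 := by
    intro h1
    exact powers_of_fpsols k L B α
      (fpsols_of_hp α h.semilinear x h.indep h.generates h.stable h1)
  tfae_have 4 → 3 := sols_of_powers k L B α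
  tfae_have 3 → 2 := fun h1 => allHilbert_of_hpf _ _
    (hpf_of_sols α h.semilinear x h.indep h.generates h.stable h1 hN)
  tfae_finish

/-- Regularly solvable embedding problems. -/
theorem allHilbert_of_reg (hk : HilbField k) (α : B →* (L ≃ₐ[k] L)) (x : ι → F)
    (h : SemilinearRep k α x) (hα : RegSol k L B α) :
    HilbertProperty k (affineQuotient k L B x) (quotientStr k L B x) ∧
      AllHilbert k (FixedPoints.intermediateField B : IntermediateField k F) := by
  have h1 : Sols k L B α := sols_of_fpsols k L B α (fpsols_of_reg k L B α hk hα)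
  have h2 := main_tfae hk α x h
  exact ⟨(h2.out 2 0).1 h1, (h2.out 2 1).1 h1⟩

end main

section triv

theorem proper_triv_iff (k G : Type) [Field k] [Group G] [Finite G] (m : ℕ) :
    ProperSol k k (FibPow (1 : G →* (k ≃ₐ[k] k)) m) (fibPr (1 : G →* (k ≃ₐ[k] k)) m) ↔
      IsRealizable k (Fin m → G) := by
  have hsub : ∀ g : k ≃ₐ[k] k, g = 1 := fun g => AlgEquiv.ext fun c => g.commutes c
  let e : FibPow (1 : G →* (k ≃ₐ[k] k)) m ≃* (Fin m → G) :=
    { toFun := fun z => z.1.1
      invFun := fun z => ⟨(z, 1), fun _ => rfl⟩
      left_inv := fun z => Subtype.ext (Prod.ext rfl (hsub _).symm)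
      right_inv := fun z => rfl
      map_mul' := fun _ _ => rfl }
  constructor
  · rintro ⟨F, i1, i2, i3, i4, i5, i6, γ, -⟩
    exact @Pool.Agent.H391R2.isRealizable_of k (Fin m → G) _ _ F i1 i2 i6 (γ.trans e).symm
  · intro h
    obtain ⟨L, i1, i2, i3, i4, ⟨f⟩⟩ := Pool.Agent.TH59.WX.exists_gal_of k (Fin m → G) h
    refine ⟨L, i1, i2, i2, inferInstance, i3, i4, f.symm.trans e.symm, fun σ => ?_⟩
    exact (hsub _).trans (hsub _).symm

/-- The regular representation. -/
theorem exists_regular (k G : Type) [Field k] [Group G] : ∃ (F : Type) (_ : Field F)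
    (_ : Algebra k F) (_ : MulSemiringAction G F) (_ : SMulCommClass G k F) (x : G → F),
    SemilinearRep k (1 : G →* (k ≃ₐ[k] k)) x := by
  let R := MvPolynomial G k
  let F := FractionRing R
  let f1 : G →* (R ≃ₐ[k] R) :=
    { toFun := fun g => MvPolynomial.renameEquiv k (Equiv.mulLeft g)
      map_one' := by
        apply AlgEquiv.ext
        intro p
        change MvPolynomial.rename (fun h : G => 1 * h) p = p
        simp only [one_mul]
        exact MvPolynomial.rename_id_apply p
      map_mul' := fun g h => by
        apply AlgEquiv.ext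
        intro p
        change MvPolynomial.rename (fun z : G => g * h * z) p =
          MvPolynomial.rename (fun z : G => g * z) (MvPolynomial.rename (fun z : G => h * z) p)
        rw [MvPolynomial.rename_rename]
        congr 1
        congr 1
        funext z
        exact mul_assoc g h z }
  let f2 : (R ≃ₐ[k] R) →* (F ≃ₐ[k] F) := IsFractionRing.fieldEquivOfAlgEquivHom k F
  let f := f2.comp f1
  let act : MulSemiringAction G F := MulSemiringAction.compHom F f
  have hact : ∀ (g : G) (z : F), g • z = f g z := fun g z => rfl
  have hX : ∀ (g : G) (p : R), g • algebraMap R F p = algebraMap R F (f1 g p) := fun g p =>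
    IsFractionRing.fieldEquivOfAlgEquiv_algebraMap k F F (f1 g) p
  have hcomm : SMulCommClass G k F := ⟨fun g c z => by
    rw [hact, hact, map_smul]⟩
  refine ⟨F, inferInstance, inferInstance, act, hcomm,
    fun g => algebraMap R F (MvPolynomial.X g), ?_⟩
  refine ⟨?_, ?_, ?_, ?_, ?_⟩
  · intro g c
    rw [hact, AlgEquiv.commutes]
    rfl
  · exact (MvPolynomial.algebraicIndependent_X G k).map'
      (f := IsScalarTower.toAlgHom k R F) (IsFractionRing.injective R F)
  · rw [eq_top_iff]
    rintro z -
    obtain ⟨a, d, -, rfl⟩ := IsFractionRing.div_surjective (A := R) (K := F) z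
    have hmem : ∀ a : R, algebraMap R F a ∈
        adjoin k (Set.range fun g : G => algebraMap R F (MvPolynomial.X g)) := by
      intro a
      induction a using MvPolynomial.induction_on with
      | C c =>
        have h1 : algebraMap R F (MvPolynomial.C c) = algebraMap k F c :=
          (IsScalarTower.algebraMap_apply k R F c).symm
        rw [h1]
        exact IntermediateField.algebraMap_mem _ c
      | add p q hp hq => rw [map_add]; exact add_mem hp hq
      | mul_X p g hp =>
        rw [map_mul]
        exact mul_mem hp (subset_adjoin _ _ ⟨g, rfl⟩)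
    exact IntermediateField.div_mem _ (hmem a) (hmem d)
  · intro g h
    rw [hX]
    refine Submodule.subset_span ⟨g * h, ?_⟩
    change algebraMap R F (MvPolynomial.X (g * h)) =
      algebraMap R F (MvPolynomial.rename (fun z : G => g * z) (MvPolynomial.X h))
    rw [MvPolynomial.rename_X]
  · refine ⟨fun {g h} hgh => ?_⟩
    have h1 := hgh (algebraMap R F (MvPolynomial.X 1))
    rw [hX, hX] at h1
    have h2 := IsFractionRing.injective R F h1
    have h3 : MvPolynomial.rename (fun z : G => g * z) (MvPolynomial.X 1 : R) =
      MvPolynomial.rename (fun z : G => h * z) (MvPolynomial.X 1 : R) := h2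
    rw [MvPolynomial.rename_X, MvPolynomial.rename_X, mul_one, mul_one] at h3
    exact MvPolynomial.X_injective h3

end triv

end Pool.Agent.Zk31.QJ
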