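import Pool.Agent.Zk31.DL

/-! Assembly: the function field of a symmetric power of a norm variety is realizable. -/

set_option autoImplicit false
set_option linter.unusedSectionVars false
set_option linter.unusedVariables false

namespace Pool.Agent.Zk31.DM

open Polynomial IntermediateField Pool.Agent.Zk31.DA Pool.Agent.Zk31.DE Pool.Agent.Zk31.DD
  Pool.Agent.Zk31.DVoc Pool.Agent.Zk31.DF Pool.Agent.Zk31.DG Pool.Agent.Zk31.DH Pool.Agent.Zk31.DI
  Pool.Agent.Zk31.DJ Pool.Agent.Zk31.DK Pool.Agent.Zk31.DL Pool.Agent.TH178.HI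

theorem exists_big (C J : Type) [Field C] : ∃ (D : Type) (_ : Field D) (_ : IsAlgClosed D)
    (_ : Algebra C D) (v : J → D), AlgebraicIndependent C v ∧
      ∀ z : D, IsAlgebraic (adjoin C (Set.range v)) z := by
  let R := MvPolynomial J C
  let F := FractionRing R
  let D := AlgebraicClosure F
  let v : J → D := fun j => algebraMap F D (algebraMap R F (MvPolynomial.X j))
  have hv : AlgebraicIndependent C v := by
    have h1 := (MvPolynomial.algebraicIndependent_X J C).map'
      (f := IsScalarTower.toAlgHom C R F) (IsFractionRing.injective R F)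
    exact h1.map' (f := IsScalarTower.toAlgHom C F D) (algebraMap F D).injective
  refine ⟨D, inferInstance, inferInstance, inferInstance, v, hv, fun z => ?_⟩
  have hmem : ∀ a : R, algebraMap F D (algebraMap R F a) ∈ adjoin C (Set.range v) := by
    intro a
    induction a using MvPolynomial.induction_on with
    | C c =>
      have h1 : algebraMap F D (algebraMap R F (MvPolynomial.C c)) = algebraMap C D c := by
        rw [IsScalarTower.algebraMap_apply C F D, IsScalarTower.algebraMap_apply C R F]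
        rfl
      rw [h1]
      exact IntermediateField.algebraMap_mem _ c
    | add p q hp hq => rw [map_add, map_add]; exact add_mem hp hq
    | mul_X p g hp =>
      rw [map_mul, map_mul]
      exact mul_mem hp (subset_adjoin _ _ ⟨g, rfl⟩)
  have hF : ∀ y : F, algebraMap F D y ∈ adjoin C (Set.range v) := by
    intro y
    obtain ⟨a, d, -, rfl⟩ := IsFractionRing.div_surjective (A := R) (K := F) y
    rw [map_div₀]
    exact IntermediateField.div_mem _ (hmem a) (hmem d)
  obtain ⟨q, hq0, hq⟩ := Algebra.IsAlgebraic.isAlgebraic (R := F) z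
  let g : F →+* adjoin C (Set.range v) := (algebraMap F D).codRestrict _ hF
  refine ⟨q.map g, ?_, ?_⟩
  · rwa [Ne, Polynomial.map_eq_zero]
  · rw [aeval_def, eval₂_map]
    exact hq

theorem realizable {K E κ 𝔽 : Type} [Field K] [CharZero K] [Field E] [Algebra K E]
    [FiniteDimensional K E] [Fintype κ] [DecidableEq κ] {ε : Module.Basis κ K E} {P : K[X]}
    {n : ℕ} [Field 𝔽] [Algebra K 𝔽] [MulSemiringAction (Equiv.Perm (Fin n)) 𝔽]
    [SMulCommClass (Equiv.Perm (Fin n)) K 𝔽] {t : Fin n → 𝔽} {x : Fin n → κ → 𝔽}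
    (h : PowerField ε P n t x) (hP0 : P ≠ 0) (m : ℕ) (hm : 2 ≤ m)
    (hn : n = Module.finrank K E * m) (h5 : 5 ≤ n) (hP : P.natDegree < n) :
    Realizable K (FixedPoints.intermediateField (Equiv.Perm (Fin n)) : IntermediateField K 𝔽) := by
  classical
  obtain ⟨Cf, _, _, f, X₀, hpure, hmon, hdeg, hci, hrel, hdvd⟩ :=
    main_lemma K E ε P hP0 m hm n hn h5 hP
  have hne : Nonempty κ := ε.index_nonempty
  obtain ⟨k₀⟩ := hne
  -- the Galois closure
  let L := normalClosure K E (AlgebraicClosure E)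
  have hsepE : Algebra.IsSeparable K E := inferInstance
  have hLn : Normal K L := normalClosure.normal K E (AlgebraicClosure E)
  have hLfin : FiniteDimensional K L := inferInstance
  have hspl : ∀ x : E, ((minpoly K x).map (algebraMap K L)).Splits := by
    intro x
    have h1 : minpoly K (algebraMap E L x) = minpoly K x :=
      minpoly.algebraMap_eq (algebraMap E L).injective x
    rw [← h1]
    exact Normal.splits inferInstance _
  obtain ⟨e⟩ := exists_equiv (L := L) ε hspl
  let σ₁ : E →ₐ[K] L := IsScalarTower.toAlgHom K E L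
  -- the first algebraically closed field
  obtain ⟨D, _, _, _, v, hv, hvD⟩ := exists_big Cf ({k : κ // k ≠ k₀} × Fin n)
  let _ : Algebra K D := ((algebraMap Cf D).comp (algebraMap K Cf)).toAlgebra
  have ht1 : IsScalarTower K Cf D := IsScalarTower.of_algebraMap_eq fun c => rfl
  let vv : Fin n ⊕ ({k : κ // k ≠ k₀} × Fin n) → D :=
    Sum.elim (fun j => algebraMap Cf D (f.coeff j)) v
  have hvv : AlgebraicIndependent K vv := by
    have h1 := hci.sumElim_comp hv
    have h2 := h1.comp (Equiv.sumComm _ _) (Equiv.injective _)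
    have h3 : (Sum.elim v (algebraMap Cf D ∘ fun j : Fin n => f.coeff j)) ∘
        (Equiv.sumComm (Fin n) ({k : κ // k ≠ k₀} × Fin n)) = vv := by
      funext z
      rcases z with j | z <;> rfl
    rw [← h3]
    exact h2
  obtain ⟨φ, hφ⟩ := exists_emb (uu t x k₀) (indep_uu h k₀) (alg_uu h k₀) vv hvv
  have hc : ∀ j : Fin n, φ (uu t x k₀ (Sum.inl j)) = algebraMap Cf D (f.coeff j) := fun j =>
    hφ (Sum.inl j)
  have hφv : (fun z : {k : κ // k ≠ k₀} × Fin n => φ (uu t x k₀ (Sum.inr z))) = v :=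
    funext fun z => hφ (Sum.inr z)
  have hη : AlgebraicIndependent Cf
      (fun z : {k : κ // k ≠ k₀} × Fin n => φ (uu t x k₀ (Sum.inr z))) := by rw [hφv]; exact hv
  have hD : ∀ z : D, IsAlgebraic (adjoin Cf
      (Set.range fun z : {k : κ // k ≠ k₀} × Fin n => φ (uu t x k₀ (Sum.inr z)))) z := by
    rw [hφv]; exact hvD
  have hf := root_t h k₀ φ hmon hdeg hc
  let jL : L →ₐ[K] D := IsAlgClosed.lift
  let _ : Algebra L D := jL.toRingHom.toAlgebra
  have ht2 : IsScalarTower K L D := IsScalarTower.of_algebraMap_eq fun c => (jL.commutes c).symm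
  -- the second algebraically closed field
  obtain ⟨Ω, _, _, _, V, hV, hVΩ⟩ := exists_big D (JV σ₁ n)
  let _ : Algebra Cf Ω := ((algebraMap D Ω).comp (algebraMap Cf D)).toAlgebra
  let _ : Algebra K Ω := ((algebraMap D Ω).comp (algebraMap K D)).toAlgebra
  let _ : Algebra L Ω := ((algebraMap D Ω).comp (algebraMap L D)).toAlgebra
  have ht3 : IsScalarTower Cf D Ω := IsScalarTower.of_algebraMap_eq fun c => rfl
  have ht4 : IsScalarTower K D Ω := IsScalarTower.of_algebraMap_eq fun c => rfl
  have ht5 : IsScalarTower L D Ω := IsScalarTower.of_algebraMap_eq fun c => rfl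
  have ht6 : IsScalarTower K Cf Ω := IsScalarTower.of_algebraMap_eq fun c => rfl
  have ht7 : IsScalarTower K L Ω := IsScalarTower.of_algebraMap_eq fun c =>
    congrArg (algebraMap D Ω) (IsScalarTower.algebraMap_apply K L D c)
  have hV0 : ∀ z, V z ≠ 0 := fun z => hV.ne_zero z
  obtain ⟨ω, hω⟩ := exists_Ev2 (F := Ω) ε e (inj_θ h k₀ (Ω := Ω) φ)
    (fun σ σ' i => U3 ε x σ₁ φ X₀ V t σ σ' i)
  have hS1 := S1 h k₀ e σ₁ φ X₀ V hf hdvd hP0 hV0 ω hω hD hVΩ
  have hS2 := S2 k₀ e σ₁ φ V ω hη hV hS1
  let B : IntermediateField K 𝔽 := FixedPoints.intermediateField (Equiv.Perm (Fin n))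
  let j : 𝔽 →ₐ[K] Ω := (IsScalarTower.toAlgHom K D Ω).comp φ
  let T : IntermediateField K Ω := (adjoin Cf (Set.range ω)).restrictScalars K
  have hT : Pure T := by
    obtain ⟨ι, hι, ξ, hξ1, hξ2⟩ := hpure
    refine ⟨(κ × κ × Fin n) ⊕ ι, inferInstance, Sum.elim ω (algebraMap Cf Ω ∘ ξ),
      hξ1.sumElim_comp hS2, ?_⟩
    apply le_antisymm
    · rw [adjoin_le_iff]
      rintro _ ⟨z | i, rfl⟩
      · exact subset_adjoin Cf _ ⟨z, rfl⟩
      · exact (adjoin Cf (Set.range ω)).algebraMap_mem (ξ i)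
    · have hC : ∀ c : Cf, algebraMap Cf Ω c ∈
          adjoin K (Set.range (Sum.elim ω (algebraMap Cf Ω ∘ ξ))) := by
        intro c
        have h1 : (⊤ : IntermediateField K Cf) ≤
            (adjoin K (Set.range (Sum.elim ω (algebraMap Cf Ω ∘ ξ)))).comap
              (IsScalarTower.toAlgHom K Cf Ω) := by
          rw [← hξ2, adjoin_le_iff]
          rintro _ ⟨i, rfl⟩
          exact subset_adjoin _ _ ⟨Sum.inr i, rfl⟩
        exact h1 trivial
      intro y hy
      have hy' : y ∈ adjoin Cf (Set.range ω) := hy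
      induction hy' using IntermediateField.adjoin_induction with
      | mem a h1 => obtain ⟨z, rfl⟩ := h1; exact subset_adjoin _ _ ⟨Sum.inl z, rfl⟩
      | algebraMap c => exact hC c
      | add a b h3 h4 h1 h2 => exact add_mem (h1 h3) (h2 h4)
      | inv a h3 h1 => exact inv_mem (h1 h3)
      | mul a b h3 h4 h1 h2 => exact mul_mem (h1 h3) (h2 h4)
  have hfr : (j.comp B.val).fieldRange = B.map j := by
    ext y
    constructor
    · rintro ⟨b, rfl⟩
      exact ⟨b, b.2, rfl⟩
    · rintro ⟨b, hb, rfl⟩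
      exact ⟨⟨b, hb⟩, rfl⟩
  refine ⟨Ω, inferInstance, inferInstance, T, j.comp B.val, hT, ?_, ?_⟩
  · rw [hfr]
    rintro _ ⟨b, hb, rfl⟩
    exact S4 h k₀ e σ₁ φ X₀ V hf hdvd hP0 hV0 ω hω hS1 b hb
  · rw [hfr]
    intro z hz ha
    exact S5 h k₀ e σ₁ φ X₀ V hf hdvd hP0 hV0 ω hω hrel hc hη hD hV hS1 hS2 z hz ha

end Pool.Agent.Zk31.DM
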