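import Pool.Agent.Zk31.QG
import Pool.Agent.W376.HP.NRM
import Pool.Agent.W405.HP.Hit

/-! The affine quotient of a semilinear action: finite type, function field. -/

set_option autoImplicit false
set_option linter.unusedSectionVars false

namespace Pool.Agent.Zk31.QH

open AlgebraicGeometry CategoryTheory W560.HP IntermediateField
open Pool.Agent.TH178.HI
open Pool.Agent.Zk31.QC Pool.Agent.Zk31.QD Pool.Agent.Zk31.QE Pool.Agent.Zk31.QG

/-- The function field of an affine scheme. -/
theorem hasFF_spec (k A K : Type) [Field k] [CommRing A] [IsDomain A] [Algebra k A] [Field K]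
    [Algebra k K] [Algebra A K] [IsScalarTower k A K] [IsFractionRing A K] :
    HasFunctionField k (Spec (CommRingCat.of A)) (strMap k A) K := by
  have hdom : IsDomain (CommRingCat.of A) := inferInstanceAs (IsDomain A)
  let X : Scheme.{0} := Spec (CommRingCat.of A)
  let _ : Algebra A X.functionField := instAlgebraCarrierFunctionFieldSpec (CommRingCat.of A)
  have hfr : IsFractionRing A X.functionField :=
    functionField_isFractionRing_of_affine (CommRingCat.of A)
  let e : X.functionField ≃ₐ[A] K :=
    IsLocalization.algEquiv (nonZeroDivisors A) X.functionField K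
  refine ⟨e.toRingEquiv, fun a => ?_⟩
  have h1 : toFF k X (strMap k A) a = algebraMap A X.functionField (algebraMap k A a) := by
    have h2 := Scheme.ΓSpecIso_inv_naturality (CommRingCat.ofHom (algebraMap k A))
    have h3 : (strMap k A).appTop.hom ((Scheme.ΓSpecIso (CommRingCat.of k)).inv.hom a) =
        (Scheme.ΓSpecIso (CommRingCat.of A)).inv.hom (algebraMap k A a) :=
      (congrArg (fun g => g.hom a) h2).symm
    change (X.presheaf.germ ⊤ (genericPoint X) trivial).hom
      ((strMap k A).appTop.hom ((Scheme.ΓSpecIso (CommRingCat.of k)).inv.hom a)) = _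
    rw [h3]
    rfl
  change e (toFF k X (strMap k A) a) = _
  rw [h1, e.commutes, ← IsScalarTower.algebraMap_apply]

variable {k L F B ι : Type} [Field k] [Field L] [Field F] [Algebra k L] [Algebra k F] [Algebra L F]
  [IsScalarTower k L F] [Group B] [MulSemiringAction B F] [SMulCommClass B k F]

theorem smul_mem_adjoin (α : B →* (L ≃ₐ[k] L))
    (hα : ∀ (b : B) (l : L), b • algebraMap L F l = algebraMap L F (α b l)) (x : ι → F)
    (hst : ∀ (b : B) (i : ι), b • x i ∈ Submodule.span L (Set.range x)) (b : B) {z : F}
    (hz : z ∈ Algebra.adjoin L (Set.range x)) : b • z ∈ Algebra.adjoin L (Set.range x) := by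
  have hspan : ∀ v ∈ Submodule.span L (Set.range x), v ∈ Algebra.adjoin L (Set.range x) := by
    intro v hv
    have h1 : Submodule.span L (Set.range x) ≤
        Subalgebra.toSubmodule (Algebra.adjoin L (Set.range x)) :=
      Submodule.span_le.mpr Algebra.subset_adjoin
    exact h1 hv
  induction hz using Algebra.adjoin_induction with
  | mem y hy =>
    obtain ⟨i, rfl⟩ := hy
    exact hspan _ (hst b i)
  | algebraMap l => rw [hα]; exact Subalgebra.algebraMap_mem _ _
  | add y z _ _ hy hz => rw [smul_add]; exact add_mem hy hz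
  | mul y z _ _ hy hz => rw [smul_mul']; exact mul_mem hy hz

section fin

variable [Finite B]

/-- Fractions of invariants. -/
theorem exists_frac (α : B →* (L ≃ₐ[k] L))
    (hα : ∀ (b : B) (l : L), b • algebraMap L F l = algebraMap L F (α b l)) (x : ι → F)
    (hxt : adjoin L (Set.range x) = ⊤)
    (hst : ∀ (b : B) (i : ι), b • x i ∈ Submodule.span L (Set.range x)) (z : F)
    (hz : ∀ b : B, b • z = z) : ∃ a ∈ invRing k L B x, ∃ d ∈ invRing k L B x, d ≠ 0 ∧
      z = a / d := by
  classical
  cases nonempty_fintype B
  have h1 : z ∈ adjoin L (Set.range x) := by rw [hxt]; trivial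
  rw [mem_adjoin_iff_div] at h1
  obtain ⟨r, hr, s, hs, h⟩ := h1
  by_cases hs0 : s = 0
  · refine ⟨0, zero_mem _, 1, one_mem _, one_ne_zero, ?_⟩
    rw [h, hs0, div_zero, zero_div]
  let d : F := ∏ b : B, b • s
  have hd0 : d ≠ 0 := Finset.prod_ne_zero_iff.2 fun b _ => (smul_ne_zero_iff_ne b).2 hs0
  have hdfix : ∀ b : B, b • d = d := by
    intro g
    change g • (∏ b : B, b • s) = _
    rw [Finset.smul_prod']
    simp only [smul_smul]
    exact Fintype.prod_bijective (fun h => g * h) (Group.mulLeft_bijective g) _ _ fun _ => rfl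
  have hdR : d ∈ Algebra.adjoin L (Set.range x) :=
    Subalgebra.prod_mem _ fun b _ => smul_mem_adjoin α hα x hst b hs
  have hdz : z * d = r * ∏ b ∈ Finset.univ.erase (1 : B), b • s := by
    change z * (∏ b : B, b • s) = _
    rw [← Finset.mul_prod_erase _ _ (Finset.mem_univ (1 : B)), one_smul, h]
    field_simp
  refine ⟨z * d, mem_invRing.mpr ⟨?_, fun b => ?_⟩, d, mem_invRing.mpr ⟨hdR, hdfix⟩, hd0, ?_⟩
  · rw [hdz]
    exact mul_mem hr (Subalgebra.prod_mem _ fun b _ => smul_mem_adjoin α hα x hst b hs)
  · rw [smul_mul', hz, hdfix]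
  · rw [mul_div_cancel_right₀ _ hd0]

theorem hasFF_inv (α : B →* (L ≃ₐ[k] L))
    (hα : ∀ (b : B) (l : L), b • algebraMap L F l = algebraMap L F (α b l)) (x : ι → F)
    (hxt : adjoin L (Set.range x) = ⊤)
    (hst : ∀ (b : B) (i : ι), b • x i ∈ Submodule.span L (Set.range x)) :
    HasFunctionField k (Spec (CommRingCat.of (invRing k L B x))) (strMap k (invRing k L B x))
      (FixedPoints.intermediateField B : IntermediateField k F) := by
  let K : IntermediateField k F := FixedPoints.intermediateField B
  let A := invRing k L B x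
  let _ : Algebra A K :=
    (Subalgebra.inclusion (show A ≤ K.toSubalgebra from fun a ha => ha.2)).toRingHom.toAlgebra
  have hmap : ∀ a : A, ((algebraMap A K a : K) : F) = a := fun a => rfl
  have t : IsScalarTower k A K := IsScalarTower.of_algebraMap_eq fun c => rfl
  have hfaith : FaithfulSMul A K := (faithfulSMul_iff_algebraMap_injective A K).2
    fun a b hab => Subtype.ext (congrArg (fun z : K => (z : F)) hab)
  have hfr : IsFractionRing A K := by
    refine IsFractionRing.of_field _ _ fun z => ?_
    obtain ⟨a, ha, d, hd, hd0, h⟩ := exists_frac α hα x hxt hst (z : F)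
      (FixedPoints.mem_intermediateField_iff.mp z.2)
    refine ⟨⟨a, ha⟩, ⟨d, hd⟩, ?_⟩
    apply Subtype.ext
    exact h
  exact hasFF_spec k A K

theorem finiteType_inv [FiniteDimensional k L] [Finite ι] (α : B →* (L ≃ₐ[k] L))
    (hα : ∀ (b : B) (l : L), b • algebraMap L F l = algebraMap L F (α b l)) (x : ι → F)
    (hst : ∀ (b : B) (i : ι), b • x i ∈ Submodule.span L (Set.range x)) :
    Algebra.FiniteType k (invRing k L B x) := by
  classical
  let C := Algebra.adjoin L (Set.range x)
  let A := invRing k L B x
  let act : MulSemiringAction B C :=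
    { smul := fun b z => ⟨b • (z : F), smul_mem_adjoin α hα x hst b z.2⟩
      one_smul := fun z => Subtype.ext (one_smul B (z : F))
      mul_smul := fun g h z => Subtype.ext (mul_smul g h (z : F))
      smul_zero := fun g => Subtype.ext (smul_zero g)
      smul_add := fun g y z => Subtype.ext (smul_add g (y : F) z)
      smul_one := fun g => Subtype.ext (smul_one g)
      smul_mul := fun g y z => Subtype.ext (smul_mul' g (y : F) z) }
  let _ : Algebra A C := (A.val.toRingHom.codRestrict C fun a => (mem_invRing.mp a.2).1).toAlgebra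
  have tkC : IsScalarTower k A C := IsScalarTower.of_algebraMap_eq fun c => rfl
  have hinv : Algebra.IsInvariant A C B := ⟨fun c hc =>
    ⟨⟨(c : F), mem_invRing.mpr ⟨c.2, fun b => congrArg (fun z : C => (z : F)) (hc b)⟩⟩,
      Subtype.ext rfl⟩⟩
  have hint : Algebra.IsIntegral A C := Algebra.IsInvariant.isIntegral A C B
  have hft : Algebra.FiniteType k C := by
    have h1 : Algebra.FiniteType L C := Algebra.FiniteType.adjoin_of_finite (Set.finite_range x)
    have h2 : Algebra.FiniteType k L := inferInstance
    exact Algebra.FiniteType.trans h2 h1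
  have hftA : Algebra.FiniteType A C := Algebra.FiniteType.of_restrictScalars_finiteType k A C
  have hfin : Module.Finite A C := Algebra.finite_iff_isIntegral_and_finiteType.mpr ⟨hint, hftA⟩
  refine ⟨fg_of_fg_of_fg k A C hft.1 hfin.1 ?_⟩
  intro a b hab
  exact Subtype.ext (congrArg (fun z : C => (z : F)) hab)

theorem lft_inv [FiniteDimensional k L] [Finite ι] (α : B →* (L ≃ₐ[k] L))
    (hα : ∀ (b : B) (l : L), b • algebraMap L F l = algebraMap L F (α b l)) (x : ι → F)
    (hst : ∀ (b : B) (i : ι), b • x i ∈ Submodule.span L (Set.range x)) :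
    LocallyOfFiniteType (strMap k (invRing k L B x)) := by
  rw [strMap, HasRingHomProperty.Spec_iff (P := @LocallyOfFiniteType)]
  have h := finiteType_inv α hα x hst
  exact (RingHom.finiteType_algebraMap).mpr h

end fin

end Pool.Agent.Zk31.QH
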