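import Pool.Agent.Zk31.QI
import Pool.Agent.Zk31.QH
import Pool.Agent.W560.HP.Fin2

/-! Vocabulary: semilinear representations, their quotients, the Hilbert property of all varieties
dominated by a field. -/

set_option autoImplicit false

namespace Pool.Agent.Zk31.QVoc

open AlgebraicGeometry CategoryTheory W560.HP
open Pool.Agent.TH178.HI (HasFunctionField)

/-- Let `L/k` be a Galois extension and `α : B → Gal(L/k)` a homomorphism. The finite group `B` acts
on the field `F = L(x_1, ..., x_n)` of rational functions by automorphisms, on `L` through `α`, and
the `L`-span of the `x_i` is stable under `B`; the action is faithful. In other words: `B` acts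
faithfully on an `L`-vector space `V` (with coordinate functions `x_i`), semilinearly with respect
to `α`, and `F = L(V)`. If `L = k`, this is a faithful linear representation of `B` over `k`. -/
structure SemilinearRep (k : Type) {L B F ι : Type} [Field k] [Field L] [Field F] [Algebra k L]
    [Algebra L F] [Group B] [MulSemiringAction B F] (α : B →* (L ≃ₐ[k] L)) (x : ι → F) :
    Prop where
  semilinear : ∀ (b : B) (l : L), b • algebraMap L F l = algebraMap L F (α b l)
  indep : AlgebraicIndependent L x
  generates : IntermediateField.adjoin L (Set.range x) = ⊤
  stable : ∀ (b : B) (i : ι), b • x i ∈ Submodule.span L (Set.range x)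
  faithful : FaithfulSMul B F

/-- The affine quotient `V/B`: the spectrum of the ring of `B`-invariants in `L[V]`, a `k`-algebra.
-/
noncomputable def affineQuotient (k L B : Type) {F ι : Type} [Field k] [Field L] [Field F]
    [Algebra k L] [Algebra k F] [Algebra L F] [IsScalarTower k L F] [Group B]
    [MulSemiringAction B F] [SMulCommClass B k F] (x : ι → F) : Scheme.{0} :=
  Spec (CommRingCat.of (QG.invRing k L B x))

/-- The structure morphism of the affine quotient. -/
noncomputable def quotientStr (k L B : Type) {F ι : Type} [Field k] [Field L] [Field F]
    [Algebra k L] [Algebra k F] [Algebra L F] [IsScalarTower k L F] [Group B]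
    [MulSemiringAction B F] [SMulCommClass B k F] (x : ι → F) :
    affineQuotient k L B x ⟶ Spec (CommRingCat.of k) :=
  QE.strMap k (QG.invRing k L B x)

/-- All varieties `X` over `k` whose function field `M` is `K`, or can be embedded in `K` such that
`M` is algebraically closed in `K` (there is a dominant rational map, with geometrically integral
generic fibre, from a variety with function field `K` to `X`), have the Hilbert property. For normal
`X` covers are the finite surjective morphisms which are not isomorphisms. -/
def AllHilbert (k K : Type) [Field k] [Field K] [Algebra k K] : Prop :=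
  ∀ (M : Type) [Field M] [Algebra k M] (φ : M →ₐ[k] K),
    (∀ z : K, IsAlgebraic φ.fieldRange z → z ∈ φ.fieldRange) →
    ∀ (X : Scheme.{0}) (p : X ⟶ Spec (CommRingCat.of k)) [IsIntegral X] [LocallyOfFiniteType p],
      HasFunctionField k X p M → HilbertProperty k X p ∧
        ((∀ x : X, IsIntegrallyClosed (X.presheaf.stalk x)) → HilbertPropertyIso k X p)

end Pool.Agent.Zk31.QVoc
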