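import Pool.Agent.Zk31.FI

/-! Points of odd degree on conic bundles in general position. -/

set_option autoImplicit false
set_option linter.unusedSectionVars false
set_option linter.unusedVariables false

namespace Pool.Agent.Zk31.FJ

open Polynomial Pool.Agent.Zk31.EN Pool.Agent.Zk31.FI

section fld

variable {F : Type} [Field F] [CharZero F]

theorem exists_s {α β : F} (hb : β ≠ 0) : ∃ s : F, s ≠ 0 ∧ α + β * s ^ 2 ≠ 0 ∧
    α - β * s ^ 2 ≠ 0 := by
  by_contra hall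
  push Not at hall
  have key : ∀ s : F, s ≠ 0 → α + β * s ^ 2 = 0 ∨ α - β * s ^ 2 = 0 := by
    intro s hs
    by_cases h : α + β * s ^ 2 = 0
    · exact Or.inl h
    · exact Or.inr (hall s hs h)
  have k1 := key 1 one_ne_zero
  have k2 := key 2 two_ne_zero
  have k3 := key 3 three_ne_zero
  have z3 : ∀ c : F, c ≠ 0 → c * β = 0 → False := fun c hc h =>
    hb ((mul_eq_zero.mp h).resolve_left hc)
  rcases k1 with h1 | h1 <;> rcases k2 with h2 | h2 <;> rcases k3 with h3 | h3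
  · exact z3 3 (by norm_num) (by linear_combination h2 - h1)
  · exact z3 3 (by norm_num) (by linear_combination h2 - h1)
  · exact z3 8 (by norm_num) (by linear_combination h3 - h1)
  · exact z3 5 (by norm_num) (by linear_combination h2 - h3)
  · exact z3 5 (by norm_num) (by linear_combination h3 - h2)
  · exact z3 8 (by norm_num) (by linear_combination h1 - h3)
  · exact z3 3 (by norm_num) (by linear_combination h1 - h2)
  · exact z3 3 (by norm_num) (by linear_combination h1 - h2)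

theorem coords0 {α β γ Y Z : F} (hb : β ≠ 0) (hY : Y ≠ 0) (hZ : Z ≠ 0)
    (h : β * Y ^ 2 + γ * Z ^ 2 = 0) :
    ∃ X' Y' Z' : F, X' ≠ 0 ∧ Y' ≠ 0 ∧ Z' ≠ 0 ∧ α * X' ^ 2 + β * Y' ^ 2 + γ * Z' ^ 2 = 0 := by
  obtain ⟨s, hs, h1, h2⟩ := exists_s (α := α) hb
  have h20 : (2 : F) ≠ 0 := two_ne_zero
  refine ⟨-2 * β * Y * s / (α + β * s ^ 2), Y * (α - β * s ^ 2) / (α + β * s ^ 2), Z, ?_, ?_, hZ, ?_⟩
  · exact div_ne_zero (mul_ne_zero (mul_ne_zero (mul_ne_zero (neg_ne_zero.mpr h20) hb) hY) hs) h1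
  · exact div_ne_zero (mul_ne_zero hY h2) h1
  · field_simp
    linear_combination (α + β * s ^ 2) ^ 2 * h

theorem coords {α β γ X Y Z : F} (ha : α ≠ 0) (hb : β ≠ 0) (hc : γ ≠ 0)
    (hne : ¬ (X = 0 ∧ Y = 0 ∧ Z = 0)) (h : α * X ^ 2 + β * Y ^ 2 + γ * Z ^ 2 = 0) :
    ∃ X' Y' Z' : F, X' ≠ 0 ∧ Y' ≠ 0 ∧ Z' ≠ 0 ∧ α * X' ^ 2 + β * Y' ^ 2 + γ * Z' ^ 2 = 0 := by
  have sq0 : ∀ {c w : F}, c ≠ 0 → c * w ^ 2 = 0 → w = 0 := fun hc h =>
    pow_eq_zero_iff (two_ne_zero) |>.mp ((mul_eq_zero.mp h).resolve_left hc)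
  by_cases hX : X = 0
  · subst hX
    have hY : Y ≠ 0 := by
      rintro rfl
      exact hne ⟨rfl, rfl, sq0 hc (by linear_combination h)⟩
    have hZ : Z ≠ 0 := by
      rintro rfl
      exact hY (sq0 hb (by linear_combination h))
    exact coords0 hb hY hZ (by linear_combination h)
  · by_cases hY : Y = 0
    · subst hY
      have hZ : Z ≠ 0 := by
        rintro rfl
        exact hX (sq0 ha (by linear_combination h))
      obtain ⟨Y', Z', X', h1, h2, h3, h4⟩ := coords0 (α := β) (β := γ) (γ := α) hc hZ hX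
        (by linear_combination h)
      exact ⟨X', Y', Z', h3, h1, h2, by linear_combination h4⟩
    · by_cases hZ : Z = 0
      · subst hZ
        obtain ⟨Z', X', Y', h1, h2, h3, h4⟩ := coords0 (α := γ) (β := α) (γ := β) ha hX hY
          (by linear_combination h)
        exact ⟨X', Y', Z', h2, h3, h1, by linear_combination h4⟩
      · exact ⟨X, Y, Z, hX, hY, hZ, h⟩

end fld

section poly

variable {K : Type} [Field K] [CharZero K]

theorem good_point {al be ga f' P1 P2 P3 : K[X]} (hirr : Irreducible f')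
    (hfa : IsCoprime f' al) (hfb : IsCoprime f' be) (hfg : IsCoprime f' ga)
    (hne : ¬ (f' ∣ P1 ∧ f' ∣ P2 ∧ f' ∣ P3))
    (hP : f' ∣ al * P1 ^ 2 + be * P2 ^ 2 + ga * P3 ^ 2) :
    ∃ Q1 Q2 Q3 : K[X], IsCoprime Q1 f' ∧ IsCoprime Q2 f' ∧ IsCoprime Q3 f' ∧
      f' ∣ al * Q1 ^ 2 + be * Q2 ^ 2 + ga * Q3 ^ 2 := by
  have : Fact (Irreducible f') := ⟨hirr⟩
  have hch2 : CharZero (AdjoinRoot f') :=
    charZero_of_injective_algebraMap (algebraMap K (AdjoinRoot f')).injective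
  have hn : ∀ {w : K[X]}, IsCoprime f' w → AdjoinRoot.mk f' w ≠ 0 := by
    intro w hw h0
    exact hirr.not_isUnit (hw.isUnit_of_dvd' dvd_rfl (AdjoinRoot.mk_eq_zero.mp h0))
  have hc : ∀ {w : K[X]}, AdjoinRoot.mk f' w ≠ 0 → IsCoprime w f' := by
    intro w hw
    exact ((hirr.coprime_iff_not_dvd).mpr fun h => hw (AdjoinRoot.mk_eq_zero.mpr h)).symm
  obtain ⟨X', Y', Z', h1, h2, h3, h4⟩ := coords (hn hfa) (hn hfb) (hn hfg)
    (X := AdjoinRoot.mk f' P1) (Y := AdjoinRoot.mk f' P2) (Z := AdjoinRoot.mk f' P3)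
    (by simpa only [AdjoinRoot.mk_eq_zero] using hne)
    (by
      rw [← map_pow, ← map_pow, ← map_pow, ← map_mul, ← map_mul, ← map_mul, ← map_add, ← map_add,
        AdjoinRoot.mk_eq_zero]
      exact hP)
  obtain ⟨Q1, rfl⟩ := AdjoinRoot.mk_surjective X'
  obtain ⟨Q2, rfl⟩ := AdjoinRoot.mk_surjective Y'
  obtain ⟨Q3, rfl⟩ := AdjoinRoot.mk_surjective Z'
  refine ⟨Q1, Q2, Q3, hc h1, hc h2, hc h3, ?_⟩
  rw [← map_pow, ← map_pow, ← map_pow, ← map_mul, ← map_mul, ← map_mul, ← map_add, ← map_add,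
        AdjoinRoot.mk_eq_zero] at h4
  exact h4

theorem exists_odd_factor : ∀ (N : ℕ) (p : K[X]), p.natDegree ≤ N → p ≠ 0 → Odd p.natDegree →
    ∃ g : K[X], Irreducible g ∧ g.Monic ∧ Odd g.natDegree ∧ g ∣ p := by
  intro N
  induction N with
  | zero =>
    intro p hp hp0 hodd
    obtain ⟨c, hc⟩ := hodd
    omega
  | succ N ih =>
    intro p hp hp0 hodd
    have hnu : ¬ IsUnit p := by
      intro h
      have := natDegree_eq_zero_of_isUnit h
      obtain ⟨c, hc⟩ := hodd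
      omega
    obtain ⟨g, hg, hgp⟩ := WfDvdMonoid.exists_irreducible_factor hnu hp0
    obtain ⟨h, rfl⟩ := hgp
    have hg0 : g ≠ 0 := hg.ne_zero
    have hh0 : h ≠ 0 := right_ne_zero_of_mul hp0
    have hdeg : (g * h).natDegree = g.natDegree + h.natDegree := natDegree_mul hg0 hh0
    have hgd : 0 < g.natDegree := hg.natDegree_pos
    by_cases ho : Odd g.natDegree
    · have hu : IsUnit (C g.leadingCoeff⁻¹) := isUnit_C.mpr
        (isUnit_iff_ne_zero.mpr (inv_ne_zero (leadingCoeff_ne_zero.mpr hg0)))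
      refine ⟨g * C g.leadingCoeff⁻¹, ?_, monic_mul_leadingCoeff_inv hg0, ?_, ?_⟩
      · exact (irreducible_mul_isUnit hu).mpr hg
      · rw [natDegree_mul_C (inv_ne_zero (leadingCoeff_ne_zero.mpr hg0))]
        exact ho
      · exact (hu.mul_right_dvd.mpr dvd_rfl).trans (dvd_mul_right _ _)
    · rw [Nat.not_odd_iff_even] at ho
      have ho2 : Odd h.natDegree := by
        obtain ⟨c, hc⟩ := hodd
        obtain ⟨e, he⟩ := ho
        exact ⟨c - e, by omega⟩
      obtain ⟨g', h1, h2, h3, h4⟩ := ih h (by omega) hh0 ho2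
      exact ⟨g', h1, h2, h3, h4.mul_left _⟩

/-- Degenerate fibres of odd degree. -/
theorem degenerate {al be ga f' : K[X]} (hal : al ≠ 0) (hbe : be ≠ 0) (hga : ga ≠ 0)
    (sc : Squarefree ga) (cab : IsCoprime al be) (cbc : IsCoprime be ga) (cca : IsCoprime ga al)
    (hf : f'.Monic) (hirr : Irreducible f') (hodd : Odd f'.natDegree) (hd : f' ∣ ga) :
    ∃ f'' P1 P2 P3 : K[X], f''.Monic ∧ Irreducible f'' ∧ Odd f''.natDegree ∧ IsCoprime f'' al ∧
      IsCoprime f'' be ∧ IsCoprime f'' ga ∧ ¬ (f'' ∣ P1 ∧ f'' ∣ P2 ∧ f'' ∣ P3) ∧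
      f'' ∣ al * P1 ^ 2 + be * P2 ^ 2 + ga * P3 ^ 2 := by
  obtain ⟨g', rfl⟩ := hd
  have hg'0 : g' ≠ 0 := right_ne_zero_of_mul hga
  have hcg : IsCoprime f' g' := (squarefree_mul_iff.mp sc).1.isCoprime
  have hca : IsCoprime f' al := IsCoprime.of_mul_left_left cca
  have hcb : IsCoprime f' be := (IsCoprime.of_mul_right_left cbc).symm
  let W := al * be * g'
  have hW0 : W ≠ 0 := mul_ne_zero (mul_ne_zero hal hbe) hg'0
  have hcW : IsCoprime f' W := (hca.mul_right hcb).mul_right hcg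
  let N := be.natDegree + g'.natDegree + 1
  let x₀ : K[X] := W * X ^ N + 1
  let F : K[X] := f' * x₀ ^ 2 + be * g' * W ^ 2
  have hx₀ : x₀.natDegree = W.natDegree + N := by
    have h1 : (W * X ^ N).natDegree = W.natDegree + N := natDegree_mul_X_pow N hW0
    rw [natDegree_add_eq_left_of_natDegree_lt, h1]
    rw [natDegree_one, h1]; omega
  have hx₀0 : x₀ ≠ 0 := by
    intro h
    rw [h, natDegree_zero] at hx₀
    omega
  have h1 : (f' * x₀ ^ 2).natDegree = f'.natDegree + 2 * (W.natDegree + N) := by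
    rw [natDegree_mul hf.ne_zero (pow_ne_zero 2 hx₀0), natDegree_pow, hx₀]
  have h2 : (be * g' * W ^ 2).natDegree = be.natDegree + g'.natDegree + 2 * W.natDegree := by
    rw [natDegree_mul (mul_ne_zero hbe hg'0) (pow_ne_zero 2 hW0), natDegree_pow,
      natDegree_mul hbe hg'0]
  have hFd : F.natDegree = f'.natDegree + 2 * (W.natDegree + N) := by
    rw [natDegree_add_eq_left_of_natDegree_lt, h1]
    rw [h1, h2]; omega
  have hFo : Odd F.natDegree := by
    obtain ⟨c, hc⟩ := hodd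
    exact ⟨c + (W.natDegree + N), by rw [hFd]; omega⟩
  have hF0 : F ≠ 0 := by
    intro h
    rw [h, natDegree_zero] at hFo
    exact absurd hFo (by decide)
  have hFW : IsCoprime F W := by
    have e : F = f' + W * (f' * (W * X ^ N * X ^ N + 2 * X ^ N) + be * g' * W) := by
      simp only [F, x₀]; ring
    rw [e]
    exact hcW.add_mul_left_left _
  have hFf : IsCoprime F f' := by
    have e : F = be * g' * W ^ 2 + f' * x₀ ^ 2 := by simp only [F]; ring
    rw [e]
    refine IsCoprime.add_mul_left_left ?_ _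
    exact ((hcb.mul_right hcg).mul_right hcW.pow_right).symm
  obtain ⟨f'', hi, hm, ho, hdv⟩ := exists_odd_factor F.natDegree F le_rfl hF0 hFo
  have hc1 : IsCoprime f'' W := IsCoprime.of_isCoprime_of_dvd_left hFW hdv
  have hc2 : IsCoprime f'' f' := IsCoprime.of_isCoprime_of_dvd_left hFf hdv
  have hcab : IsCoprime f'' (al * be) := IsCoprime.of_mul_right_left hc1
  have hcg' : IsCoprime f'' g' := IsCoprime.of_mul_right_right hc1
  refine ⟨f'', 0, g' * W, x₀, hm, hi, ho, IsCoprime.of_mul_right_left hcab,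
    IsCoprime.of_mul_right_right hcab, hc2.mul_right hcg', ?_, ?_⟩
  · rintro ⟨-, h3, -⟩
    exact hi.not_isUnit ((hcg'.mul_right hc1).isUnit_of_dvd' dvd_rfl h3)
  · have e : al * 0 ^ 2 + be * (g' * W) ^ 2 + f' * g' * x₀ ^ 2 = F * g' := by
      simp only [F]; ring
    rw [e]
    exact hdv.mul_right _

/-- The main lemma for a conic with a point of odd degree. -/
theorem ml_odd (a b : K[X]) (ha : a ≠ 0) (hb : b ≠ 0) (f' : K[X]) (hf : f'.Monic)
    (hirr : Irreducible f') (hodd : Odd f'.natDegree) (hfa : f' ∣ a - 1) :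
    ∃ M : ℕ, ∀ n : ℕ, M ≤ n → Odd n → Concl K a b n := by
  obtain ⟨al, be, ga, h0, h1, hal, hbe, hga, sa, sb, sc, cab, cbc, cca, hh0, hh1, hae, hbe'⟩ :=
    norm_data a b ha hb
  have hcoa : IsCoprime f' a := by
    obtain ⟨w, hw⟩ := hfa
    exact ⟨-w, 1, by linear_combination hw⟩
  have hcoa' : IsCoprime f' (ga * al * h0 ^ 2) := by
    rw [hae] at hcoa
    have := hcoa.neg_right
    rwa [neg_neg] at this
  have hfg : IsCoprime f' ga := IsCoprime.of_mul_right_left (IsCoprime.of_mul_right_left hcoa')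
  have hfal : IsCoprime f' al := IsCoprime.of_mul_right_right (IsCoprime.of_mul_right_left hcoa')
  by_cases hfb : IsCoprime f' be
  · obtain ⟨Q1, Q2, Q3, q1, q2, q3, hq⟩ := good_point (P1 := ga * h0) (P2 := 0) (P3 := 1) hirr hfal
      hfb hfg (fun h => hirr.not_isUnit (isUnit_of_dvd_one h.2.2)) (by
        have e : al * (ga * h0) ^ 2 + be * 0 ^ 2 + ga * 1 ^ 2 = (a - 1) * (-ga) := by
          rw [hae]; ring
        rw [e]
        exact hfa.mul_right _)
    exact mlO K a b al be ga h0 h1 ha hb hal hbe hga sa sb sc cab cbc cca hh0 hh1 hae hbe' f' hf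
      hirr hodd hfal hfb hfg Q1 Q2 Q3 q1 q2 q3 hq
  · have hdb : f' ∣ be := by
      by_contra h
      exact hfb ((hirr.coprime_iff_not_dvd).mpr h)
    obtain ⟨f'', P3, P1, P2, hm, hi, ho, c3, c1, c2, hne, hP⟩ := degenerate (al := ga) (be := al)
      (ga := be) hga hal hbe sb cca cab cbc hf hirr hodd hdb
    obtain ⟨Q1, Q2, Q3, q1, q2, q3, hq⟩ := good_point (P1 := P1) (P2 := P2) (P3 := P3) hi c1
      c2 c3 (fun h => hne ⟨h.2.2, h.1, h.2.1⟩) (by
        have e : al * P1 ^ 2 + be * P2 ^ 2 + ga * P3 ^ 2 =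
          ga * P3 ^ 2 + al * P1 ^ 2 + be * P2 ^ 2 := by ring
        rw [e]; exact hP)
    exact mlO K a b al be ga h0 h1 ha hb hal hbe hga sa sb sc cab cbc cca hh0 hh1 hae hbe' f'' hm
      hi ho c1 c2 c3 Q1 Q2 Q3 q1 q2 q3 hq

end poly

end Pool.Agent.Zk31.FJ
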