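import Mathlib

/-! Vocabulary: the index of `∑ a_j(t) x_j ^ 2 = 1`, and schemes with dense rational points. -/

set_option autoImplicit false

namespace Pool.Agent.Zk31.FVoc

open AlgebraicGeometry CategoryTheory Polynomial

/-- The index of the affine variety `∑ a_j(t) x_j ^ 2 = 1` over `k` divides `n`. The index is the
greatest common divisor of the degrees `[E : k]` of the finite extensions `E/k` over which the
variety has a point. -/
def IndexDvd {k κ : Type} [Field k] [Fintype κ] (a : κ → k[X]) (n : ℕ) : Prop :=
  ∀ d : ℕ, (∀ (E : Type) [Field E] [Algebra k E] [FiniteDimensional k E] (τ : E) (y : κ → E),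
    ∑ j, aeval τ (a j) * y j ^ 2 = 1 → d ∣ Module.finrank k E) → d ∣ n

/-- The `k`-points of the `k`-scheme `X` (structure morphism `p`) are Zariski-dense in `X`. -/
def DensePoints (k : Type) [Field k] (X : Scheme.{0}) (p : X ⟶ Spec (CommRingCat.of k)) : Prop :=
  Dense {x : X | ∃ s : Spec (CommRingCat.of k) ⟶ X, s ≫ p = 𝟙 _ ∧ x ∈ Set.range s.base}

end Pool.Agent.Zk31.FVoc
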