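import Pool.Agent.Zk31.EP
import Pool.Agent.Zk31.FJ
import Pool.Agent.Zk31.FVoc

/-! The converse: algebra. -/

set_option autoImplicit false
set_option linter.unusedSectionVars false
set_option linter.unusedVariables false

namespace Pool.Agent.Zk31.FP

open Polynomial IntermediateField Pool.Agent.Zk31.EVoc Pool.Agent.Zk31.DE Pool.Agent.Zk31.EP
  Pool.Agent.Zk31.FVoc
open Pool.Agent.Zk31.DF (uu pt)

/-- Specialization of the generic zero-cycle of degree `n`. -/
theorem poly_of_hom {k R κ 𝔽 : Type} [Field k] [CharZero k] [Fintype κ] [DecidableEq κ]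
    {a : κ → k[X]} {n : ℕ} [Field 𝔽] [Algebra k 𝔽] [MulSemiringAction (Equiv.Perm (Fin n)) 𝔽]
    [SMulCommClass (Equiv.Perm (Fin n)) k 𝔽] {t : Fin n → 𝔽} {x : Fin n → κ → 𝔽}
    (h : BundlePower a n t x) [CommRing R] (ι : k →+* R) (Ψ : R →+* k) (hΨ : ∀ c, Ψ (ι c) = c)
    (j : R →+* 𝔽) (hj : Function.Injective j) (hι : ∀ c, j (ι c) = algebraMap k 𝔽 c)
    (hc : ∀ m : Fin n, ∃ r, j r = (pt t).coeff m)
    (hu : ∀ (l : κ) (m : Fin n), ∃ r, j r = co t (fun i => x i l) m) :
    ∃ (f : k[X]) (U : κ → k[X]), f.Monic ∧ f.natDegree = n ∧ f ∣ ∑ l, a l * U l ^ 2 - 1 := by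
  have hti := inj_t h
  have hmon : (pt t).Monic := monic_prod_of_monic _ _ fun i _ => monic_X_sub_C _
  have hdeg : (pt t).natDegree = n := by
    rw [pt, natDegree_prod_of_monic _ _ fun i _ => monic_X_sub_C _]
    simp
  have h1 : pt t ∈ lifts j := by
    rw [lifts_iff_coeff_lifts]
    intro m
    by_cases hm : m < n
    · exact hc ⟨m, hm⟩
    · by_cases hm2 : m = n
      · refine ⟨1, ?_⟩
        have h2 : (pt t).coeff n = 1 := by
          have h3 := hmon.coeff_natDegree
          rwa [hdeg] at h3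
        rw [map_one, hm2, h2]
      · refine ⟨0, ?_⟩
        rw [map_zero, coeff_eq_zero_of_natDegree_lt]
        rw [hdeg]; omega
  obtain ⟨f, hf1, hf2, hf3⟩ := lifts_and_natDegree_eq_and_monic h1 hmon
  choose r hr using hu
  let U : κ → R[X] := fun l => ∑ m : Fin n, C (r l m) * X ^ (m : ℕ)
  have hU : ∀ l i, ((U l).map j).eval (t i) = x i l := by
    intro l i
    rw [← co_spec hti (fun i => x i l) i, Polynomial.map_sum, eval_finsetSum]
    refine Finset.sum_congr rfl fun m _ => ?_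
    rw [Polynomial.map_mul, Polynomial.map_pow, map_X, map_C, eval_mul, eval_pow, eval_X, eval_C,
      hr]
  let G : R[X] := ∑ l, (a l).map ι * U l ^ 2 - 1
  have hjι : j.comp ι = algebraMap k 𝔽 := RingHom.ext hι
  have hG : pt t ∣ G.map j := by
    refine Finset.prod_dvd_of_coprime
      (fun i _ i' _ hii => pairwise_coprime_X_sub_C hti hii) fun i _ => ?_
    rw [dvd_iff_isRoot, IsRoot.def]
    change (((∑ l, (a l).map ι * U l ^ 2 - 1 : R[X])).map j).eval (t i) = 0
    rw [Polynomial.map_sub, Polynomial.map_one, Polynomial.map_sum, eval_sub, eval_one,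
      eval_finsetSum, sub_eq_zero, ← h.equation i]
    refine Finset.sum_congr rfl fun l _ => ?_
    rw [Polynomial.map_mul, Polynomial.map_pow, eval_mul, eval_pow, hU, Polynomial.map_map, hjι,
      eval_map_algebraMap]
  rw [← hf1, map_dvd_map j hj hf3] at hG
  have hG2 := Polynomial.map_dvd Ψ hG
  have hid : Ψ.comp ι = RingHom.id k := RingHom.ext hΨ
  refine ⟨f.map Ψ, fun l => (U l).map Ψ, hf3.map Ψ, ?_, ?_⟩
  · rw [hf3.natDegree_map, hf2, hdeg]
  · have e : G.map Ψ = ∑ l, a l * ((U l).map Ψ) ^ 2 - 1 := by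
      change ((∑ l, (a l).map ι * U l ^ 2 - 1 : R[X])).map Ψ = _
      rw [Polynomial.map_sub, Polynomial.map_one, Polynomial.map_sum]
      congr 1
      refine Finset.sum_congr rfl fun l _ => ?_
      rw [Polynomial.map_mul, Polynomial.map_pow, Polynomial.map_map, hid, Polynomial.map_id]
    rw [← e]
    exact hG2

/-- A point of odd degree from a zero-cycle of odd degree. -/
theorem point_of_poly {k κ : Type} [Field k] [CharZero k] [Fintype κ] (a : κ → k[X]) (f : k[X])
    (U : κ → k[X]) (hf : f.Monic) (hodd : Odd f.natDegree) (hdvd : f ∣ ∑ l, a l * U l ^ 2 - 1) :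
    ∃ (E : Type) (_ : Field E) (_ : Algebra k E) (τ : E) (y : κ → E), FiniteDimensional k E ∧
      Odd (Module.finrank k E) ∧ ∑ l, aeval τ (a l) * y l ^ 2 = 1 := by
  obtain ⟨g, hirr, hmon, hgodd, hgf⟩ :=
    Pool.Agent.Zk31.FJ.exists_odd_factor f.natDegree f le_rfl hf.ne_zero hodd
  have _ : Fact (Irreducible g) := ⟨hirr⟩
  let pb := AdjoinRoot.powerBasis hirr.ne_zero
  refine ⟨AdjoinRoot g, inferInstance, inferInstance, AdjoinRoot.root g,
    fun l => aeval (AdjoinRoot.root g) (U l), pb.finite, ?_, ?_⟩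
  · rw [pb.finrank, AdjoinRoot.powerBasis_dim]
    exact hgodd
  · have h1 : aeval (AdjoinRoot.root g) (∑ l, a l * U l ^ 2 - 1) = 0 := by
      rw [AdjoinRoot.aeval_eq, AdjoinRoot.mk_eq_zero]
      exact hgf.trans hdvd
    rw [map_sub, map_one, map_sum, sub_eq_zero] at h1
    rw [← h1]
    refine Finset.sum_congr rfl fun l _ => ?_
    rw [map_mul, map_pow]

/-- There are points of degree at most two. -/
theorem exists_quadratic {k κ : Type} [Field k] [CharZero k] [Fintype κ] [DecidableEq κ]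
    (a : κ → k[X]) (k₀ : κ) (ha : a k₀ ≠ 0) :
    ∃ (E : Type) (_ : Field E) (_ : Algebra k E) (τ : E) (y : κ → E), FiniteDimensional k E ∧
      Module.finrank k E ∣ 2 ∧ ∑ l, aeval τ (a l) * y l ^ 2 = 1 := by
  have hinf : Infinite k := inferInstance
  obtain ⟨τ, hτ⟩ : ∃ τ : k, (a k₀).eval τ ≠ 0 := by
    by_contra hcon
    push Not at hcon
    exact ha (Polynomial.funext fun z => by rw [hcon z, eval_zero])
  have key : ∀ (E : Type) [Field E] [Algebra k E] (c : E),
      c ^ 2 = algebraMap k E ((a k₀).eval τ)⁻¹ →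
      ∑ l, aeval (algebraMap k E τ) (a l) * (Pi.single k₀ c : κ → E) l ^ 2 = 1 := by
    intro E _ _ c hc
    rw [Finset.sum_eq_single k₀]
    · rw [Pi.single_eq_same, hc, aeval_algebraMap_apply, ← map_mul, coe_aeval_eq_eval,
        mul_inv_cancel₀ hτ, map_one]
    · intro b _ hb
      rw [Pi.single_eq_of_ne hb]; ring
    · intro h; exact absurd (Finset.mem_univ _) h
  by_cases hsq : ∃ c : k, c ^ 2 = ((a k₀).eval τ)⁻¹
  · obtain ⟨c, hc⟩ := hsq
    refine ⟨k, inferInstance, inferInstance, _, _, inferInstance, ?_, key k c hc⟩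
    rw [Module.finrank_self]
    exact one_dvd _
  · push Not at hsq
    have hirr : Irreducible (X ^ 2 - C ((a k₀).eval τ)⁻¹ : k[X]) :=
      X_pow_sub_C_irreducible_of_prime Nat.prime_two hsq
    have _ : Fact (Irreducible (X ^ 2 - C ((a k₀).eval τ)⁻¹ : k[X])) := ⟨hirr⟩
    let pb := AdjoinRoot.powerBasis hirr.ne_zero
    refine ⟨AdjoinRoot (X ^ 2 - C ((a k₀).eval τ)⁻¹ : k[X]), inferInstance, inferInstance, _, _,
      pb.finite, ?_, key _ (AdjoinRoot.root _) ?_⟩
    · rw [pb.finrank, AdjoinRoot.powerBasis_dim, natDegree_X_pow_sub_C]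
    · have h1 := AdjoinRoot.eval₂_root (X ^ 2 - C ((a k₀).eval τ)⁻¹ : k[X])
      rw [eval₂_sub, eval₂_X_pow, eval₂_C, sub_eq_zero] at h1
      exact h1

theorem indexDvd_iff {k κ : Type} [Field k] [CharZero k] [Fintype κ] [DecidableEq κ]
    (a : κ → k[X]) (k₀ : κ) (ha : a k₀ ≠ 0) (n : ℕ) :
    IndexDvd a n ↔ (Even n ∨ ∃ (E : Type) (_ : Field E) (_ : Algebra k E) (τ : E) (y : κ → E),
      FiniteDimensional k E ∧ Odd (Module.finrank k E) ∧ ∑ l, aeval τ (a l) * y l ^ 2 = 1) := by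
  constructor
  · intro h
    by_contra hcon
    push Not at hcon
    obtain ⟨h1, h2⟩ := hcon
    apply h1
    rw [even_iff_two_dvd]
    refine h 2 fun E _ _ hfin τ y hy => ?_
    rw [← even_iff_two_dvd, ← Nat.not_odd_iff_even]
    intro ho
    exact h2 E inferInstance inferInstance τ y hfin ho hy
  · intro h d hd
    obtain ⟨E₂, _, _, τ₂, y₂, hfin₂, h2, hy₂⟩ := exists_quadratic a k₀ ha
    have hd2 : d ∣ 2 := (hd E₂ τ₂ y₂ hy₂).trans h2
    rcases h with he | ⟨E, _, _, τ, y, hfin, hodd, hy⟩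
    · exact hd2.trans (even_iff_two_dvd.mp he)
    · have h3 := hd E τ y hy
      have h4 : d ∣ 1 := by
        have h5 : Nat.gcd 2 (Module.finrank k E) = 1 := by
          rw [← Nat.coprime_iff_gcd_eq_one]
          exact (Nat.coprime_two_left).mpr hodd
        rw [← h5]
        exact Nat.dvd_gcd hd2 h3
      exact h4.trans (one_dvd n)

end Pool.Agent.Zk31.FP
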