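import Pool.Agent.Zk31.QJ
import Pool.Agent.Zk31.FVoc

/-! The converse: schemes. -/

set_option autoImplicit false
set_option linter.unusedSectionVars false
set_option linter.unusedVariables false

namespace Pool.Agent.Zk31.FQ

open AlgebraicGeometry CategoryTheory W560.HP IntermediateField Opposite TopologicalSpace
open Pool.Agent.Zk31.QH Pool.Agent.Zk31.QE Pool.Agent.Zk31.FVoc
open Pool.Agent.TH178.HI (HasFunctionField)

/-- Finitely many rational functions are sections over a common open set. -/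
theorem exists_open (X : Scheme.{0}) [IsIntegral X] (S : Finset X.functionField) :
    ∃ (U : X.Opens) (hU : genericPoint X ∈ U), ∀ g ∈ S, ∃ s : Γ(X, U),
      X.presheaf.germ U (genericPoint X) hU s = g := by
  classical
  induction S using Finset.induction_on with
  | empty => exact ⟨⊤, trivial, fun g hg => absurd hg (Finset.notMem_empty g)⟩
  | insert g S hg ih =>
    obtain ⟨U, hU, h1⟩ := ih
    obtain ⟨V, hV, s, hs⟩ := TopCat.Presheaf.exists_germ_eq X.presheaf (x := genericPoint X) g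
    refine ⟨U ⊓ V, ⟨hU, hV⟩, ?_⟩
    intro g' hg'
    rcases Finset.mem_insert.mp hg' with rfl | h2
    · refine ⟨X.presheaf.map (homOfLE inf_le_right : U ⊓ V ⟶ V).op s, ?_⟩
      rw [← hs]
      exact TopCat.Presheaf.germ_res_apply X.presheaf (homOfLE inf_le_right : U ⊓ V ⟶ V)
        (genericPoint X) ⟨hU, hV⟩ s
    · obtain ⟨s', hs'⟩ := h1 g' h2
      refine ⟨X.presheaf.map (homOfLE inf_le_left : U ⊓ V ⟶ U).op s', ?_⟩
      rw [← hs']
      exact TopCat.Presheaf.germ_res_apply X.presheaf (homOfLE inf_le_left : U ⊓ V ⟶ U)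
        (genericPoint X) ⟨hU, hV⟩ s'

/-- Specialization at a rational point in a given open set. -/
theorem spec_of_dense (k : Type) [Field k] (X : Scheme.{0}) [IsIntegral X]
    (p : X ⟶ Spec (CommRingCat.of k)) (hd : DensePoints k X p) (S : Finset X.functionField) :
    ∃ (R : Type) (_ : CommRing R) (ι : k →+* R) (Ψ : R →+* k) (j : R →+* X.functionField),
      (∀ c, Ψ (ι c) = c) ∧ Function.Injective j ∧ (∀ c, j (ι c) = toFF k X p c) ∧
        ∀ g ∈ S, ∃ r, j r = g := by
  obtain ⟨U, hU, h1⟩ := exists_open X S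
  rw [DensePoints, dense_iff_inter_open] at hd
  obtain ⟨x, hxU, s, hs, y, hy⟩ := hd U U.isOpen ⟨_, hU⟩
  have hV : (⊤ : (Spec (CommRingCat.of k)).Opens) ≤ s ⁻¹ᵁ U := by
    intro z _
    have hz : z = y := Subsingleton.elim (α := PrimeSpectrum k) z y
    rw [hz]
    change s.base y ∈ U
    rw [hy]
    exact hxU
  let ι : k →+* Γ(X, U) := (X.presheaf.map (homOfLE le_top : U ⟶ ⊤).op).hom.comp
    (p.appTop.hom.comp (Scheme.ΓSpecIso (CommRingCat.of k)).inv.hom)
  let Ψ : Γ(X, U) →+* k := (Scheme.ΓSpecIso (CommRingCat.of k)).hom.hom.comp (s.appLE U ⊤ hV).hom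
  let j : Γ(X, U) →+* X.functionField := (X.presheaf.germ U (genericPoint X) hU).hom
  refine ⟨Γ(X, U), inferInstance, ι, Ψ, j, ?_, ?_, ?_, h1⟩
  · have e1 : X.presheaf.map (homOfLE le_top : U ⟶ ⊤).op ≫ s.appLE U ⊤ hV = s.appTop := by
      rw [Scheme.Hom.map_appLE]
      exact Scheme.Hom.appLE_eq_app s
    have e2 : p.appTop ≫ s.appTop = 𝟙 _ := by
      rw [← Scheme.Hom.comp_appTop, hs, Scheme.Hom.id_appTop]
    intro c
    have e3 : (Scheme.ΓSpecIso (CommRingCat.of k)).inv ≫ p.appTop ≫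
        X.presheaf.map (homOfLE le_top : U ⟶ ⊤).op ≫ s.appLE U ⊤ hV ≫
        (Scheme.ΓSpecIso (CommRingCat.of k)).hom = 𝟙 _ := by
      rw [reassoc_of% e1, reassoc_of% e2, Iso.inv_hom_id]
    exact congrArg (fun g : CommRingCat.of k ⟶ CommRingCat.of k => g.hom c) e3
  · exact germ_injective_of_isIntegral X (U := U) (genericPoint X) hU
  · intro c
    exact TopCat.Presheaf.germ_res_apply X.presheaf (homOfLE le_top : U ⟶ ⊤)
        (genericPoint X) hU _

/-- A model of a finitely generated field. -/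
theorem exists_model (k 𝔽 : Type) [Field k] [Field 𝔽] [Algebra k 𝔽] (B : IntermediateField k 𝔽)
    (S : Finset 𝔽) (hS : B = adjoin k (S : Set 𝔽)) :
    ∃ (X : Scheme.{0}) (p : X ⟶ Spec (CommRingCat.of k)) (_ : IsIntegral X),
      LocallyOfFiniteType p ∧ HasFunctionField k X p B := by
  subst hS
  let A : Subalgebra k 𝔽 := Algebra.adjoin k (S : Set 𝔽)
  let B : IntermediateField k 𝔽 := adjoin k (S : Set 𝔽)
  have hAB : A ≤ B.toSubalgebra := algebra_adjoin_le_adjoin k (S : Set 𝔽)
  let _ : Algebra A B := (Subalgebra.inclusion hAB).toRingHom.toAlgebra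
  have hmap : ∀ a : A, ((algebraMap A B a : B) : 𝔽) = a := fun a => rfl
  have t : IsScalarTower k A B := IsScalarTower.of_algebraMap_eq fun c => rfl
  have hfaith : FaithfulSMul A B := (faithfulSMul_iff_algebraMap_injective A B).2
    fun a b hab => Subtype.ext (congrArg (fun z : B => (z : 𝔽)) hab)
  have hfr : IsFractionRing A B := by
    refine IsFractionRing.of_field _ _ fun z => ?_
    have h1 : (z : 𝔽) ∈ adjoin k (S : Set 𝔽) := z.2
    rw [mem_adjoin_iff_div] at h1
    obtain ⟨r, hr, s, hs, h⟩ := h1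
    refine ⟨⟨r, hr⟩, ⟨s, hs⟩, ?_⟩
    apply Subtype.ext
    exact h
  have hft : Algebra.FiniteType k A := Algebra.FiniteType.adjoin_of_finite S.finite_toSet
  refine ⟨Spec (CommRingCat.of A), strMap k A, inferInstance, ?_, hasFF_spec k A B⟩
  rw [strMap, HasRingHomProperty.Spec_iff (P := @LocallyOfFiniteType)]
  exact (RingHom.finiteType_algebraMap).mpr hft

/-- The Hilbert property implies density. -/
theorem dense_of_hp (k : Type) [Field k] (X : Scheme.{0}) (p : X ⟶ Spec (CommRingCat.of k))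
    (h : HilbertProperty k X p) : DensePoints k X p := by
  have h1 := h 0 Fin.elim0 (fun i => i.elim0) (fun i => i.elim0) (fun i => i.elim0)
    (fun i => i.elim0) (fun i => i.elim0)
  refine h1.mono ?_
  rintro x ⟨s, hs, hx, -⟩
  exact ⟨s, hs, hx⟩

end Pool.Agent.Zk31.FQ
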