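import Pool.Agent.Zk31.FO
import Pool.Agent.Zk31.FP
import Pool.Agent.Zk31.FQ

/-! The equivalence for symmetric powers of quadric bundles. -/

set_option autoImplicit false
set_option linter.unusedSectionVars false
set_option linter.unusedVariables false

namespace Pool.Agent.Zk31.FR

open AlgebraicGeometry CategoryTheory W560.HP
open Polynomial IntermediateField Pool.Agent.Zk31.EVoc Pool.Agent.Zk31.DE Pool.Agent.Zk31.EP
  Pool.Agent.Zk31.EQ Pool.Agent.Zk31.FVoc Pool.Agent.Zk31.FP Pool.Agent.Zk31.FQ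
open Pool.Agent.Zk31.DF (uu pt)
open Pool.Agent.TH178.HI (HasFunctionField Realizable)
open Pool.Agent.Zk31.QVoc (AllHilbert)
open Pool.Agent.H391R2.T4 (HilbField)

/-- Dense points of one model give the divisibility by the index. -/
theorem indexDvd_of_dense {k κ 𝔽 : Type} [Field k] [CharZero k] [Fintype κ] [DecidableEq κ]
    {a : κ → k[X]} {n : ℕ} [Field 𝔽] [Algebra k 𝔽] [MulSemiringAction (Equiv.Perm (Fin n)) 𝔽]
    [SMulCommClass (Equiv.Perm (Fin n)) k 𝔽] {t : Fin n → 𝔽} {x : Fin n → κ → 𝔽}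
    (h : BundlePower a n t x) (ha : ∀ l, a l ≠ 0) (k₀ k₁ : κ) (hk : k₁ ≠ k₀)
    (X : Scheme.{0}) (p : X ⟶ Spec (CommRingCat.of k)) [IsIntegral X]
    (hX : HasFunctionField k X p
      (FixedPoints.intermediateField (Equiv.Perm (Fin n)) : IntermediateField k 𝔽))
    (hd : DensePoints k X p) : IndexDvd a n := by
  classical
  rw [indexDvd_iff a k₀ (ha k₀)]
  by_cases he : Even n
  · exact Or.inl he
  right
  have hodd : Odd n := Nat.not_even_iff_odd.mp he
  obtain ⟨e, he⟩ := hX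
  let B : IntermediateField k 𝔽 := FixedPoints.intermediateField (Equiv.Perm (Fin n))
  have h1 : ∀ m : Fin n, ∃ b : B, (b : 𝔽) = (pt t).coeff m := fun m =>
    ⟨⟨(pt t).coeff m, fun π => fixed_uu h k₀ π (Sum.inl m)⟩, rfl⟩
  have h2 : ∀ (l : κ) (m : Fin n), ∃ b : B, (b : 𝔽) = co t (fun i => x i l) m := by
    intro l m
    by_cases hl : l = k₀
    · have h3 : l ≠ k₁ := by rw [hl]; exact hk.symm
      exact ⟨⟨co t (fun i => x i l) m, fun π => fixed_uu h k₁ π (Sum.inr (⟨l, h3⟩, m))⟩, rfl⟩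
    · exact ⟨⟨co t (fun i => x i l) m, fun π => fixed_uu h k₀ π (Sum.inr (⟨l, hl⟩, m))⟩, rfl⟩
  choose b1 hb1 using h1
  choose b2 hb2 using h2
  let S : Finset X.functionField :=
    (Finset.univ.image fun m : Fin n => e.symm (b1 m)) ∪
    (Finset.univ.image fun z : κ × Fin n => e.symm (b2 z.1 z.2))
  obtain ⟨R, _, ι, Ψ, j, hΨ, hj, hjι, hS⟩ := spec_of_dense k X p hd S
  let j' : R →+* 𝔽 := (B.val : B →+* 𝔽).comp ((e : X.functionField →+* B).comp j)
  have hval : ∀ r, j' r = (e (j r) : 𝔽) := fun r => rfl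
  have c1 : ∀ r r', j' r = j' r' → r = r' := by
    intro r r' hrr
    rw [hval, hval] at hrr
    exact hj (e.injective (Subtype.ext hrr))
  have c2 : ∀ c, j' (ι c) = algebraMap k 𝔽 c := by
    intro c
    rw [hval, hjι, he]
    rfl
  have c3 : ∀ m : Fin n, ∃ r, j' r = (pt t).coeff m := by
    intro m
    obtain ⟨r, hr⟩ := hS (e.symm (b1 m))
      (Finset.mem_union_left _ (Finset.mem_image_of_mem _ (Finset.mem_univ m)))
    refine ⟨r, ?_⟩
    rw [hval, hr, e.apply_symm_apply, hb1]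
  have c4 : ∀ (l : κ) (m : Fin n), ∃ r, j' r = co t (fun i => x i l) m := by
    intro l m
    obtain ⟨r, hr⟩ := hS (e.symm (b2 l m))
      (Finset.mem_union_right _ (Finset.mem_image_of_mem
        (fun z : κ × Fin n => e.symm (b2 z.1 z.2)) (Finset.mem_univ (l, m))))
    refine ⟨r, ?_⟩
    rw [hval, hr, e.apply_symm_apply, hb2]
  clear_value j'
  obtain ⟨f, U, hf1, hf2, hf3⟩ := poly_of_hom h ι Ψ hΨ j' (fun r r' hrr => c1 r r' hrr) c2 c3 c4
  exact point_of_poly a f U hf1 (by rw [hf2]; exact hodd) hf3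

theorem main_tfae (k κ : Type) [Field k] [CharZero k] (hk : HilbField k) [Fintype κ]
    [DecidableEq κ] (a : κ → k[X]) (ha : ∀ l, a l ≠ 0) (hκ : 2 ≤ Fintype.card κ) :
    ∃ M : ℕ, ∀ n : ℕ, M ≤ n → ∀ (𝔽 : Type) [Field 𝔽] [Algebra k 𝔽]
      [MulSemiringAction (Equiv.Perm (Fin n)) 𝔽] [SMulCommClass (Equiv.Perm (Fin n)) k 𝔽]
      (t : Fin n → 𝔽) (x : Fin n → κ → 𝔽), BundlePower a n t x →
    [IndexDvd a n,
      ∃ (X : Scheme.{0}) (p : X ⟶ Spec (CommRingCat.of k)) (_ : IsIntegral X),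
        LocallyOfFiniteType p ∧ HasFunctionField k X p
          (FixedPoints.intermediateField (Equiv.Perm (Fin n)) : IntermediateField k 𝔽) ∧
        DensePoints k X p,
      AllHilbert k
        (FixedPoints.intermediateField (Equiv.Perm (Fin n)) : IntermediateField k 𝔽),
      Realizable k
        (FixedPoints.intermediateField (Equiv.Perm (Fin n)) : IntermediateField k 𝔽)].TFAE := by
  obtain ⟨k₁, k₀, hk01⟩ := Fintype.exists_pair_of_one_lt_card (α := κ) (by omega)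
  obtain ⟨M, hM⟩ := Pool.Agent.Zk31.FO.realizable_all k κ a ha hκ
  refine ⟨M, ?_⟩
  intro n hn 𝔽 _ _ _ _ t x h
  tfae_have 1 → 4 := fun h1 =>
    hM n hn ((indexDvd_iff a k₀ (ha k₀) n).mp h1) 𝔽 t x h
  tfae_have 4 → 3 := fun h1 =>
    Pool.Agent.Zk31.QJ.allHilbert_of_hpf _ _ (h1.hpf (Pool.Agent.W405.HP.hit k hk))
  tfae_have 3 → 2 := by
    intro h1
    obtain ⟨S, hS⟩ := exists_gens h ha k₀
    obtain ⟨X, p, hX, hp, hff⟩ := exists_model k 𝔽 _ S hS
    refine ⟨X, p, hX, hp, hff, dense_of_hp k X p ?_⟩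
    exact (h1 _ (AlgHom.id k _) (fun z _ => ⟨z, rfl⟩) X p hff).1
  tfae_have 2 → 1 := by
    rintro ⟨X, p, hX, hp, hff, hd⟩
    exact indexDvd_of_dense h ha k₀ k₁ hk01 X p hff hd
  tfae_finish

end Pool.Agent.Zk31.FR
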