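import Pool.Agent.Zk31.QJ
import Pool.Agent.N600.NS.Main

/-! The symmetric powers of quotients. -/

set_option autoImplicit false
set_option linter.unusedSectionVars false

namespace Pool.Agent.Zk31.QS

open AlgebraicGeometry W560.HP IntermediateField
open Pool.Agent.H391R2 Pool.Agent.H391R2.T4
open Pool.Agent.N600.UK (ProperSol)
open Pool.Agent.N600.NS (IdxDvd)
open Pool.Agent.Zk31.QVoc Pool.Agent.Zk31.QC

/-- Let the finite group `B` act on `F = L(W)`, semilinearly over `L` through `α : B → Gal(L/k)`.
`Fn` is the function field of `W^n`: there are `L`-embeddings `τ_i : F → Fn`, `i < n`, such that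
the elements `τ_i(x_j)` are algebraically independent over `L` and generate `Fn`; the symmetric
fibre power `SymEP α n` of `α` (the group of all `((b_1, ..., b_n), π, ρ)` with `b_i ∈ B`,
`π ∈ S_n`, `ρ ∈ Gal(L/k)`, `α(b_i) = ρ` for all `i`) acts on `Fn` by
`((b_i), π, ρ) τ_i(f) = τ_{π(i)}(b_{π(i)} f)`, that is, on `W^n` by acting with `b_i` on the `i`-th
factor and permuting the factors. -/
structure NaturalPower {k L B F ι Fn : Type} [Field k] [Field L] [Algebra k L] [Group B]
    (α : B →* (L ≃ₐ[k] L)) [Field F] [Algebra L F] [MulSemiringAction B F] (x : ι → F) (n : ℕ)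
    [Field Fn] [Algebra L Fn] [MulSemiringAction (SymEP α n) Fn] (τ : Fin n → F →ₐ[L] Fn) :
    Prop where
  indep : AlgebraicIndependent L (fun z : Fin n × ι => τ z.1 (x z.2))
  generates : IntermediateField.adjoin L (Set.range fun z : Fin n × ι => τ z.1 (x z.2)) = ⊤
  smul_τ : ∀ (z : SymEP α n) (i : Fin n) (f : F),
    z • τ i f = τ (z.1.1.right i) (z.1.1.left (z.1.1.right i) • f)

section

variable {k L B F ι Fn : Type} [Field k] [Field L] [Algebra k L] [Group B]
  (α : B →* (L ≃ₐ[k] L)) [Field F] [Algebra L F] [MulSemiringAction B F] (x : ι → F) (n : ℕ)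
  [Field Fn] [Algebra L Fn] [MulSemiringAction (SymEP α n) Fn] (τ : Fin n → F →ₐ[L] Fn)

theorem NaturalPower.semilinearRep [Nonempty ι] (hn : 0 < n) (h : SemilinearRep k α x)
    (hN : NaturalPower α x n τ) :
    SemilinearRep k (symProj α n) (fun z : Fin n × ι => τ z.1 (x z.2)) := by
  classical
  have hL : ∀ (z : SymEP α n) (l : L), z • algebraMap L Fn l = algebraMap L Fn (z.1.2 l) := by
    intro z l
    let i₀ : Fin n := ⟨0, hn⟩
    have h1 := hN.smul_τ z i₀ (algebraMap L F l)
    rw [AlgHom.commutes, h.semilinear, AlgHom.commutes, z.2] at h1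
    exact h1
  refine ⟨fun z l => ?_, hN.indep, hN.generates, ?_, ?_⟩
  · rw [hL]; rfl
  · rintro z ⟨i, j⟩
    change z • τ i (x j) ∈ _
    rw [hN.smul_τ]
    have h1 : Submodule.map (τ (z.1.1.right i)).toLinearMap (Submodule.span L (Set.range x)) ≤
        Submodule.span L (Set.range fun z : Fin n × ι => τ z.1 (x z.2)) := by
      rw [Submodule.map_span, Submodule.span_le]
      rintro _ ⟨_, ⟨j, rfl⟩, rfl⟩
      exact Submodule.subset_span ⟨(z.1.1.right i, j), rfl⟩
    exact h1 ⟨_, h.stable _ _, rfl⟩
  · have hf := h.faithful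
    refine ⟨fun {a b} hab => ?_⟩
    have h0 : ∀ f : Fn, (b⁻¹ * a) • f = f := by
      intro f
      rw [mul_smul, hab f, inv_smul_smul]
    set z := b⁻¹ * a with hz
    suffices hz1 : z = 1 by
      rw [hz] at hz1
      exact (inv_mul_eq_one.mp hz1).symm
    have hlin : LinearIndependent L (fun z : Fin n × ι => τ z.1 (x z.2)) :=
      hN.indep.linearIndependent
    obtain ⟨j₀⟩ := ‹Nonempty ι›
    -- the permutation is trivial
    have hπ : ∀ i, z.1.1.right i = i := by
      intro i
      by_contra hne
      have h1 : τ i (x j₀) ∈ Submodule.span L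
          ((fun z : Fin n × ι => τ z.1 (x z.2)) '' {w | w.1 = z.1.1.right i}) := by
        rw [← h0 (τ i (x j₀)), hN.smul_τ]
        have h2 : Submodule.map (τ (z.1.1.right i)).toLinearMap
            (Submodule.span L (Set.range x)) ≤ Submodule.span L
            ((fun z : Fin n × ι => τ z.1 (x z.2)) '' {w | w.1 = z.1.1.right i}) := by
          rw [Submodule.map_span, Submodule.span_le]
          rintro _ ⟨_, ⟨j, rfl⟩, rfl⟩
          exact Submodule.subset_span ⟨(z.1.1.right i, j), rfl, rfl⟩
        exact h2 ⟨_, h.stable _ _, rfl⟩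
      exact hlin.notMem_span_image (s := {w | w.1 = z.1.1.right i}) (x := (i, j₀))
        (fun h3 => hne h3.symm) h1
    have hb : ∀ i, z.1.1.left i = 1 := by
      intro i
      apply hf.eq_of_smul_eq_smul
      intro f
      have h1 := hN.smul_τ z i f
      rw [h0, hπ] at h1
      rw [one_smul]
      exact ((τ i).injective h1).symm
    apply Subtype.ext
    apply Prod.ext
    · apply SemidirectProduct.ext
      · funext i; exact hb i
      · exact Equiv.ext hπ
    · change z.1.2 = 1
      rw [← z.2 ⟨0, hn⟩, hb, map_one]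

end

section main

variable {k L B : Type} [Field k] [CharZero k] [Field L] [Algebra k L]
  [FiniteDimensional k L] [IsGalois k L] [Group B] [Finite B]

theorem proper_of_sols (α : B →* (L ≃ₐ[k] L)) (h : Sols k L B α) : ProperSol k L B α := by
  obtain ⟨N, -, h1, h2, γ, hγ⟩ := h ⊥ inferInstance
  refine ⟨N, inferInstance, inferInstance, inferInstance, inferInstance, h1, h2, γ, fun σ => ?_⟩
  apply AlgEquiv.ext
  intro l
  apply (algebraMap L N).injective
  rw [← hγ, ← AlgEquiv.restrictNormal_commutes]

/-- All quotients `V/B` of faithful semilinear representations `V` of `B` with respect to `α` have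
the Hilbert property, and so do all the varieties in `AllHilbert k (L(V)^B)`. -/
def EveryQuotient (k L B : Type) [Field k] [Field L] [Algebra k L] [Group B]
    (α : B →* (L ≃ₐ[k] L)) : Prop :=
  ∀ (F ι : Type) [Field F] [Algebra k F] [Algebra L F] [IsScalarTower k L F]
    [MulSemiringAction B F] [SMulCommClass B k F] [Finite ι] (x : ι → F), SemilinearRep k α x →
    HilbertProperty k (affineQuotient k L B x) (quotientStr k L B x) ∧
      AllHilbert k (FixedPoints.intermediateField B : IntermediateField k F)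

/-- No quotient `V/B` of a faithful semilinear representation `V` of `B` with respect to `α` has the
Hilbert property. -/
def NoQuotient (k L B : Type) [Field k] [Field L] [Algebra k L] [Group B]
    (α : B →* (L ≃ₐ[k] L)) : Prop :=
  ∀ (F ι : Type) [Field F] [Algebra k F] [Algebra L F] [IsScalarTower k L F]
    [MulSemiringAction B F] [SMulCommClass B k F] [Finite ι] (x : ι → F), SemilinearRep k α x →
    ¬ HilbertProperty k (affineQuotient k L B x) (quotientStr k L B x)

theorem sym_main (hk : HilbField k) (α : B →* (L ≃ₐ[k] L)) (hα : Function.Surjective α) :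
    (∃ n₀ : ℕ, ∀ n ≥ n₀,
      (IdxDvd k L B α n → EveryQuotient k L (SymEP α n) (symProj α n)) ∧
      (¬ IdxDvd k L B α n → NoQuotient k L (SymEP α n) (symProj α n))) ∧
    (∀ n : ℕ, ((3 * Nat.card B + 2).factorial) ^ 3 ≤ n → Nat.card (L ≃ₐ[k] L) ∣ n →
      EveryQuotient k L (SymEP α n) (symProj α n)) := by
  have hfin : ∀ n, Finite (SymEP α n) := fun n => inferInstance
  constructor
  · obtain ⟨n₀, hn₀⟩ := Pool.Agent.N600.NS.index_main k L B α hα
    refine ⟨n₀, fun n hn => ⟨fun h F ι _ _ _ _ _ _ _ x hx =>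
      Pool.Agent.Zk31.QJ.allHilbert_of_reg hk (symProj α n) x hx ((hn₀ n hn).1.2 h), ?_⟩⟩
    intro h F ι _ _ _ _ _ _ _ x hx h1
    have h4 := Pool.Agent.Zk31.QJ.main_tfae hk (symProj α n) x hx
    exact h (((hn₀ n hn).2.2 hk).1 (proper_of_sols _ ((h4.out 0 2).1 h1)))
  · intro n hn hd F ι _ _ _ _ _ _ _ x hx
    exact Pool.Agent.Zk31.QJ.allHilbert_of_reg hk (symProj α n) x hx
      (Pool.Agent.N600.NS.uniform_main k L B α hα n hn hd)

end main

end Pool.Agent.Zk31.QS
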