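import Mathlib
import Pool.Agent.W333.HP.BC0

/-! The generic polynomial plus a multiple of a fixed polynomial: the coefficients generate an
algebraically closed subfield, up to transpositions of the roots. -/

set_option autoImplicit false
set_option linter.unusedSectionVars false

namespace Pool.Agent.Zk31.CA

open Polynomial IntermediateField

open scoped IntermediateField.algebraAdjoinAdjoin

/-- A small enough family over which the field is algebraic is algebraically independent. -/
theorem indep_of_alg {k E ι κ : Type} [Field k] [Field E] [Algebra k E] [Finite κ] {x : ι → E}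
    (hx : AlgebraicIndependent k x) (y : κ → E) (hcard : Cardinal.mk κ ≤ Cardinal.mk ι)
    (halg : ∀ z : E, IsAlgebraic (adjoin k (Set.range y)) z) : AlgebraicIndependent k y := by
  have h1 : Algebra.IsAlgebraic (adjoin k (Set.range y)) E := ⟨halg⟩
  have h2 : Algebra.IsAlgebraic (Algebra.adjoin k (Set.range y)) E :=
    (IsFractionRing.comap_isAlgebraic_iff (A := Algebra.adjoin k (Set.range y))
      (K := adjoin k (Set.range y)) (C := E)).mpr h1
  refine (Algebra.IsAlgebraic.isTranscendenceBasis_of_le_trdeg_of_finite k y ?_).1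
  exact hcard.trans hx.cardinalMk_le_trdeg

section perm

variable {ι : Type} [Fintype ι] [DecidableEq ι]

theorem alt_le_of_normal (h5 : 5 ≤ Nat.card ι) (N : Subgroup (Equiv.Perm ι)) [hNn : N.Normal]
    (hN : N ≠ ⊥) : alternatingGroup ι ≤ N := by
  have hs : IsSimpleGroup (alternatingGroup ι) := alternatingGroup.isSimpleGroup h5
  have hnor : (N.subgroupOf (alternatingGroup ι)).Normal := inferInstance
  rcases hnor.eq_bot_or_eq_top with h1 | h1
  · exfalso
    apply hN
    rw [Subgroup.eq_bot_iff_forall]
    intro g hg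
    have hcomm : ∀ x : Equiv.Perm ι, g * x * g⁻¹ * x⁻¹ = 1 := by
      intro x
      have h2 : g * x * g⁻¹ * x⁻¹ ∈ N := by
        have h3 : x * g⁻¹ * x⁻¹ ∈ N := hNn.conj_mem _ (N.inv_mem hg) x
        have h4 := N.mul_mem hg h3
        rwa [← mul_assoc, ← mul_assoc] at h4
      have h3 : g * x * g⁻¹ * x⁻¹ ∈ alternatingGroup ι := by
        rw [Equiv.Perm.mem_alternatingGroup]
        simp only [map_mul, map_inv]
        rw [mul_comm (Equiv.Perm.sign g) (Equiv.Perm.sign x), mul_assoc (Equiv.Perm.sign x),
          mul_inv_cancel, mul_one, mul_inv_cancel]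
      have h4 : (⟨_, h3⟩ : alternatingGroup ι) ∈ N.subgroupOf (alternatingGroup ι) := h2
      rw [h1, Subgroup.mem_bot] at h4
      exact congrArg Subtype.val h4
    apply Equiv.ext
    intro a
    by_contra hne
    rw [Equiv.Perm.one_apply] at hne
    obtain ⟨c, hc⟩ : ∃ c : ι, c ∉ ({a, g a} : Finset ι) := by
      by_contra hall
      push Not at hall
      have h6 : Finset.univ ⊆ ({a, g a} : Finset ι) := fun x _ => hall x
      have h7 := Finset.card_le_card h6
      have h8 : ({a, g a} : Finset ι).card ≤ 2 := Finset.card_le_two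
      rw [Finset.card_univ, ← Nat.card_eq_fintype_card] at h7
      omega
    rw [Finset.mem_insert, Finset.mem_singleton, not_or] at hc
    have h6 := hcomm (Equiv.swap (g a) c)
    have h7 : g * Equiv.swap (g a) c = Equiv.swap (g a) c * g := by
      rw [mul_inv_eq_one, mul_inv_eq_iff_eq_mul] at h6
      exact h6
    have h8 := congrArg (fun x : Equiv.Perm ι => x a) h7
    simp only [Equiv.Perm.mul_apply, Equiv.swap_apply_left] at h8
    rw [Equiv.swap_apply_of_ne_of_ne (Ne.symm hne) (Ne.symm hc.1)] at h8
    exact hc.2 h8.symm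
  · exact Subgroup.subgroupOf_eq_top.mp h1

theorem eq_top_of_alt_le (N : Subgroup (Equiv.Perm ι)) (h : alternatingGroup ι ≤ N) {i j : ι}
    (hij : i ≠ j) (hs : Equiv.swap i j ∈ N) : N = ⊤ := by
  rw [eq_top_iff]
  intro σ _
  rcases Int.units_eq_one_or (Equiv.Perm.sign σ) with h1 | h1
  · exact h (Equiv.Perm.mem_alternatingGroup.mpr h1)
  · have h2 : σ * Equiv.swap i j ∈ N := by
      apply h
      rw [Equiv.Perm.mem_alternatingGroup, map_mul, h1, Equiv.Perm.sign_swap hij]
      rfl
    have h3 := N.mul_mem h2 hs
    rwa [mul_assoc, Equiv.swap_mul_self, mul_one] at h3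

end perm

section root

variable {L R : Type} [Field L] [CharZero L] [Field R] [Algebra L R] {ι : Type} [Fintype ι]
  [DecidableEq ι] (r : ι → R) (h : R) (B : L[X])

/-- The polynomial `∏ (X - r_i) + h B`. -/
noncomputable def fB : R[X] := ∏ i, (X - C (r i)) + C h * B.map (algebraMap L R)

/-- The field generated by its coefficients. -/
noncomputable def AB : IntermediateField L R := adjoin L (Set.range (fB r h B).coeff)

variable (hB : B ≠ 0) (hd : B.natDegree < Fintype.card ι)
  (hind : AlgebraicIndependent L (fun o : Option ι => o.elim h r))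
  (hgen : adjoin L (Set.range (fun o : Option ι => o.elim h r)) = ⊤)

include hd in
theorem degree_hB : (C h * B.map (algebraMap L R)).degree < ((Fintype.card ι : ℕ) : WithBot ℕ) := by
  have h1 : (C h * B.map (algebraMap L R)).natDegree ≤ B.natDegree :=
    (natDegree_C_mul_le _ _).trans natDegree_map_le
  refine lt_of_le_of_lt degree_le_natDegree ?_
  exact_mod_cast lt_of_le_of_lt h1 hd

include hd in
theorem monic_fB : (fB r h B).Monic ∧ (fB r h B).natDegree = Fintype.card ι := by
  have h1 : (∏ i, (X - C (r i))).Monic := monic_prod_of_monic _ _ fun i _ => monic_X_sub_C _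
  have h2 : (∏ i, (X - C (r i))).natDegree = Fintype.card ι := by
    rw [natDegree_prod_of_monic _ _ fun i _ => monic_X_sub_C _]
    simp
  have h3 : (∏ i, (X - C (r i))).degree = ((Fintype.card ι : ℕ) : WithBot ℕ) := by
    rw [degree_eq_natDegree h1.ne_zero, h2]
  have h4 : (C h * B.map (algebraMap L R)).degree < (∏ i, (X - C (r i))).degree := by
    rw [h3]; exact degree_hB h B hd
  refine ⟨h1.add_of_left h4, ?_⟩
  rw [fB, natDegree_add_eq_left_of_degree_lt h4, h2]

theorem coeff_mem (j : ℕ) : (fB r h B).coeff j ∈ AB r h B := subset_adjoin _ _ ⟨j, rfl⟩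

/-- `f` over `AB`. -/
theorem exists_fB {M : IntermediateField L R} (hM : AB r h B ≤ M) :
    ∃ p : M[X], p.map (algebraMap M R) = fB r h B := by
  have h1 : fB r h B ∈ lifts (algebraMap M R) := by
    rw [lifts_iff_coeff_lifts]
    intro j
    exact ⟨⟨_, hM (coeff_mem r h B j)⟩, rfl⟩
  exact h1

/-- the product over a field which contains `AB` and `h` -/
theorem exists_prod {M : IntermediateField L R} (hM : AB r h B ≤ M) (hh : h ∈ M) :
    ∃ p : M[X], p.map (algebraMap M R) = ∏ i, (X - C (r i)) := by
  obtain ⟨p, hp⟩ := exists_fB r h B hM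
  refine ⟨p - C ⟨h, hh⟩ * B.map (algebraMap L M), ?_⟩
  rw [Polynomial.map_sub, Polynomial.map_mul, hp, Polynomial.map_map, map_C,
    ← IsScalarTower.algebraMap_eq L M R]
  change fB r h B - C h * _ = _
  rw [fB]; ring

theorem root_algebraic {M : IntermediateField L R} (hM : AB r h B ≤ M) (hh : h ∈ M) (i : ι) :
    IsAlgebraic M (r i) := by
  obtain ⟨p, hp⟩ := exists_prod r h B hM hh
  have h1 : (∏ i, (X - C (r i)) : R[X]).Monic :=
    monic_prod_of_monic _ _ fun i _ => monic_X_sub_C _
  refine ⟨p, ?_, ?_⟩
  · rintro rfl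
    rw [Polynomial.map_zero] at hp
    exact h1.ne_zero hp.symm
  · rw [← Polynomial.eval_map_algebraMap, hp, eval_prod]
    exact Finset.prod_eq_zero (Finset.mem_univ i) (by simp)

include hgen in
theorem top_of_mem {M : IntermediateField L R} (hh : h ∈ M) (hr : ∀ i, r i ∈ M) : M = ⊤ := by
  rw [eq_top_iff, ← hgen, adjoin_le_iff]
  rintro _ ⟨o, rfl⟩
  cases o with
  | none => exact hh
  | some i => exact hr i

include hgen in
theorem algebraic_of {M : IntermediateField L R} (hM : AB r h B ≤ M) (hh : IsAlgebraic M h)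
    (z : R) : IsAlgebraic M z := by
  let M₁ : IntermediateField L R := (algebraicClosure M R).restrictScalars L
  have hcl : ∀ z, z ∈ M₁ ↔ IsAlgebraic M z := fun z => by
    rw [IntermediateField.mem_restrictScalars, mem_algebraicClosure_iff]
  have hMM : M ≤ M₁ := fun x hx => (hcl x).2 (isAlgebraic_algebraMap (⟨x, hx⟩ : M))
  have h1 : M₁ = ⊤ := by
    refine top_of_mem r h hgen ((hcl h).2 hh) fun i => ?_
    have h2 := root_algebraic r h B (hM.trans hMM) ((hcl h).2 hh) i
    rw [hcl]
    have h3 : IsAlgebraic (algebraicClosure M R) (r i) := h2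
    exact h3.restrictScalars M
  rw [← hcl, h1]
  trivial

include hd hind hgen in
/-- The coefficients together with `h` are algebraically independent. -/
theorem indep_coeff : AlgebraicIndependent L
    (fun o : Option (Fin (Fintype.card ι)) => o.elim h (fun j => (fB r h B).coeff j)) := by
  refine indep_of_alg hind _ ?_ ?_
  · rw [Cardinal.mk_option, Cardinal.mk_option, Cardinal.mk_fin, Cardinal.mk_fintype]
  · intro z
    have hh : h ∈ adjoin L (Set.range
        (fun o : Option (Fin (Fintype.card ι)) => o.elim h (fun j => (fB r h B).coeff j))) :=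
      subset_adjoin _ _ ⟨none, rfl⟩
    refine algebraic_of r h B hgen ?_ (isAlgebraic_algebraMap (⟨h, hh⟩ : adjoin L (Set.range
        (fun o : Option (Fin (Fintype.card ι)) => o.elim h (fun j => (fB r h B).coeff j))))) z
    rw [AB, adjoin_le_iff]
    rintro _ ⟨j, rfl⟩
    rcases lt_or_ge j (Fintype.card ι) with hj | hj
    · exact subset_adjoin _ _ ⟨some ⟨j, hj⟩, rfl⟩
    · obtain ⟨h1, h2⟩ := monic_fB r h B hd
      rcases eq_or_lt_of_le hj with h3 | h3
      · have h4 : (fB r h B).coeff j = 1 := by
          rw [← h3, ← h2]; exact h1.coeff_natDegree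
        rw [SetLike.mem_coe, h4]; exact one_mem _
      · rw [SetLike.mem_coe, coeff_eq_zero_of_natDegree_lt (by omega)]; exact zero_mem _

include hd in
theorem AB_eq : AB r h B = adjoin L (Set.range
    (fun j : Fin (Fintype.card ι) => (fB r h B).coeff j)) := by
  apply le_antisymm
  · rw [AB, adjoin_le_iff]
    rintro _ ⟨j, rfl⟩
    rcases lt_or_ge j (Fintype.card ι) with hj | hj
    · exact subset_adjoin _ _ ⟨⟨j, hj⟩, rfl⟩
    · obtain ⟨h1, h2⟩ := monic_fB r h B hd
      rcases eq_or_lt_of_le hj with h3 | h3
      · have h4 : (fB r h B).coeff j = 1 := by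
          rw [← h3, ← h2]; exact h1.coeff_natDegree
        rw [SetLike.mem_coe, h4]; exact one_mem _
      · rw [SetLike.mem_coe, coeff_eq_zero_of_natDegree_lt (by omega)]; exact zero_mem _
  · rw [adjoin_le_iff]
    rintro _ ⟨j, rfl⟩
    exact coeff_mem r h B j

include hd hind hgen in
theorem transcendental_h : Transcendental (AB r h B) h := by
  have h1 := indep_coeff r h B hd hind hgen
  have h2 : AlgebraicIndependent L (fun j : Fin (Fintype.card ι) => (fB r h B).coeff j) :=
    h1.comp some (Option.some_injective _)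
  have h3 := (h2.option_iff_transcendental h).mp h1
  rw [← IntermediateField.transcendental_adjoin_iff] at h3
  rw [AB_eq r h B hd]
  exact h3

end root

end Pool.Agent.Zk31.CA
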