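import Pool.Agent.Zk31.CA

/-! The main lemma on `∏ (X - r_i) + h B`. -/

set_option autoImplicit false
set_option linter.unusedSectionVars false

namespace Pool.Agent.Zk31.CB

open Polynomial IntermediateField Pool.Agent.Zk31.CA

theorem hom_agree {k E E' : Type} [Field k] [Field E] [Field E'] [Algebra k E] [Algebra k E']
    (φ ψ : E →ₐ[k] E') {S : Set E} (h : ∀ x ∈ S, φ x = ψ x) {z : E} (hz : z ∈ adjoin k S) :
    φ z = ψ z := by
  induction hz using IntermediateField.adjoin_induction with
  | mem x hx => exact h x hx
  | algebraMap n => rw [φ.commutes, ψ.commutes]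
  | add x y _ _ hx hy => rw [map_add, map_add, hx, hy]
  | inv x _ hx => rw [map_inv₀, map_inv₀, hx]
  | mul x y _ _ hx hy => rw [map_mul, map_mul, hx, hy]

variable {L R : Type} [Field L] [CharZero L] [Field R] [Algebra L R] {ι : Type} [Fintype ι]
  [DecidableEq ι] (r : ι → R) (h : R) (B : L[X])
  [MulSemiringAction (Equiv.Perm ι) R] [SMulCommClass (Equiv.Perm ι) L R]
  (hB : B ≠ 0) (hd : B.natDegree < Fintype.card ι)
  (hind : AlgebraicIndependent L (fun o : Option ι => o.elim h r))
  (hgen : adjoin L (Set.range (fun o : Option ι => o.elim h r)) = ⊤)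
  (hr : ∀ (σ : Equiv.Perm ι) (i : ι), σ • r i = r (σ i)) (hh : ∀ σ : Equiv.Perm ι, σ • h = h)

include hind in
theorem r_injective : Function.Injective r := by
  intro i j hij
  have h1 := hind.injective (a₁ := some i) (a₂ := some j) hij
  exact Option.some_injective _ h1

variable (L) in
/-- the action as automorphisms -/
def act (σ : Equiv.Perm ι) : R →ₐ[L] R :=
  { MulSemiringAction.toRingHom (Equiv.Perm ι) R σ with
    commutes' := fun c => by
      change σ • algebraMap L R c = algebraMap L R c
      rw [Algebra.algebraMap_eq_smul_one, smul_comm, smul_one] }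

theorem act_apply (σ : Equiv.Perm ι) (z : R) : act L σ z = σ • z := rfl

include hr hh in
theorem smul_fB (σ : Equiv.Perm ι) (j : ℕ) : σ • (fB r h B).coeff j = (fB r h B).coeff j := by
  have h1 : (fB r h B).map (act (R := R) L σ : R →+* R) = fB r h B := by
    rw [fB, Polynomial.map_add, Polynomial.map_mul, map_C, Polynomial.map_prod]
    congr 1
    · simp only [Polynomial.map_sub, map_X, map_C]
      rw [← Equiv.prod_comp σ (fun i => X - C (r i))]
      refine Finset.prod_congr rfl fun i _ => ?_
      rw [← hr]; rfl
    · rw [Polynomial.map_map]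
      congr 1
      · congr 1
        exact hh σ
      · congr 1
        ext c
        exact (act L σ).commutes c
  have h2 := congrArg (fun p : R[X] => p.coeff j) h1
  simp only [coeff_map] at h2
  exact h2

include hr hh in
theorem smul_AB (σ : Equiv.Perm ι) {z : R} (hz : z ∈ AB r h B) : σ • z = z := by
  rw [AB] at hz
  refine hom_agree (act L σ) (AlgHom.id L R) ?_ hz
  rintro _ ⟨j, rfl⟩
  exact smul_fB r h B hr hh σ j

include hind hgen hr hh in
/-- Galois theory over fields which contain the coefficients and `h`. -/
theorem mem_of_fixed {M : IntermediateField L R} (hM : AB r h B ≤ M) (hhM : h ∈ M) (z : R)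
    (hz : ∀ σ : Equiv.Perm ι, (∀ y ∈ M, σ • y = y) → σ • z = z) : z ∈ M := by
  obtain ⟨p, hp⟩ := exists_prod r h B hM hhM
  have hinj := r_injective r h hind
  have hp0 : p ≠ 0 := by
    rintro rfl
    rw [Polynomial.map_zero] at hp
    exact (monic_prod_of_monic Finset.univ (fun i => X - C (r i))
      fun i _ => monic_X_sub_C _).ne_zero hp.symm
  have hroot : ∀ y : R, aeval y p = 0 → ∃ i, y = r i := by
    intro y hy
    rw [← Polynomial.eval_map_algebraMap, hp, eval_prod, Finset.prod_eq_zero_iff] at hy
    obtain ⟨i, -, hi⟩ := hy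
    refine ⟨i, ?_⟩
    rw [eval_sub, eval_X, eval_C, sub_eq_zero] at hi
    exact hi
  have hmem : ∀ i, r i ∈ p.rootSet R := by
    intro i
    rw [mem_rootSet]
    refine ⟨hp0, ?_⟩
    rw [← Polynomial.eval_map_algebraMap, hp, eval_prod]
    exact Finset.prod_eq_zero (Finset.mem_univ i) (by simp)
  have halg : Algebra.IsAlgebraic M R := ⟨fun z => algebraic_of r h B hgen hM
    (isAlgebraic_algebraMap (⟨h, hhM⟩ : M)) z⟩
  have hspl : p.IsSplittingField M R := by
    refine ⟨?_, ?_⟩
    · rw [hp]
      exact Splits.prod fun i _ => Splits.X_sub_C _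
    · rw [eq_top_iff]
      rintro y -
      have h1 : (adjoin M (p.rootSet R)).restrictScalars L = ⊤ := by
        refine top_of_mem r h hgen ?_ fun i => ?_
        · exact IntermediateField.algebraMap_mem (adjoin M (p.rootSet R)) (⟨h, hhM⟩ : M)
        · exact subset_adjoin M _ (hmem i)
      have h2 : y ∈ adjoin M (p.rootSet R) := by
        rw [← IntermediateField.mem_restrictScalars (K := L), h1]
        trivial
      have h3 : (adjoin M (p.rootSet R)).toSubalgebra = Algebra.adjoin M (p.rootSet R) :=
        adjoin_toSubalgebra _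
      rw [← h3]
      exact h2
  have hnor : Normal M R := Normal.of_isSplittingField p
  have hgal : IsGalois M R := { to_isSeparable := inferInstance, to_normal := hnor }
  have h1 : z ∈ Set.range (algebraMap M R) := by
    rw [InfiniteGalois.mem_range_algebraMap_iff_fixed]
    intro τ
    have h2 : ∀ i, ∃ j, τ (r i) = r j := by
      intro i
      apply hroot
      have h3 := (mem_rootSet.1 (hmem i)).2
      have h4 := Polynomial.aeval_algHom_apply τ.toAlgHom (r i) p
      rw [h3, map_zero] at h4
      exact h4
    choose s hs using h2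
    have hsinj : Function.Injective s := by
      intro i j hij
      apply hinj
      apply τ.injective
      rw [hs, hs, hij]
    let σ : Equiv.Perm ι := Equiv.ofBijective s (Finite.injective_iff_bijective.mp hsinj)
    have hτσ : ∀ y : R, τ y = σ • y := by
      intro y
      have h3 : y ∈ adjoin L (Set.range (fun o : Option ι => o.elim h r)) := by
        rw [hgen]; trivial
      refine hom_agree (τ.toAlgHom.restrictScalars L) (act L σ) ?_ h3
      rintro _ ⟨o, rfl⟩
      cases o with
      | none =>
        change τ h = σ • h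
        rw [hh]
        exact τ.commutes ⟨h, hhM⟩
      | some i =>
        change τ (r i) = σ • r i
        rw [hr, hs]
        rfl
    rw [hτσ]
    apply hz
    intro y hy
    rw [← hτσ]
    exact τ.commutes ⟨y, hy⟩
  obtain ⟨w, rfl⟩ := h1
  exact w.2

end Pool.Agent.Zk31.CB
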