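import Pool.Agent.Zk31.CB

/-! The main lemma on `∏ (X - r_i) + h B`, second part. -/

set_option autoImplicit false
set_option linter.unusedSectionVars false

namespace Pool.Agent.Zk31.CC

open Polynomial IntermediateField Pool.Agent.Zk31.CA Pool.Agent.Zk31.CB

variable {L R : Type} [Field L] [CharZero L] [Field R] [Algebra L R] {ι : Type} [Fintype ι]
  [DecidableEq ι] (r : ι → R) (h : R) (B : L[X])
  [MulSemiringAction (Equiv.Perm ι) R] [SMulCommClass (Equiv.Perm ι) L R]
  (hB : B ≠ 0) (hd : B.natDegree < Fintype.card ι)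
  (hind : AlgebraicIndependent L (fun o : Option ι => o.elim h r))
  (hgen : adjoin L (Set.range (fun o : Option ι => o.elim h r)) = ⊤)
  (hr : ∀ (σ : Equiv.Perm ι) (i : ι), σ • r i = r (σ i)) (hh : ∀ σ : Equiv.Perm ι, σ • h = h)

/-- the algebraic closure of `AB` -/
noncomputable def Lam : IntermediateField L R := (algebraicClosure (AB r h B) R).restrictScalars L

theorem mem_Lam {z : R} : z ∈ Lam r h B ↔ IsAlgebraic (AB r h B) z := by
  rw [Lam, IntermediateField.mem_restrictScalars, mem_algebraicClosure_iff]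

theorem AB_le : AB r h B ≤ Lam r h B := fun x hx =>
  (mem_Lam r h B).2 (isAlgebraic_algebraMap (⟨x, hx⟩ : AB r h B))

theorem Lam_closed {z : R} (hz : IsAlgebraic (Lam r h B) z) : z ∈ Lam r h B := by
  rw [mem_Lam]
  have h1 : IsAlgebraic (algebraicClosure (AB r h B) R) z := hz
  exact h1.restrictScalars (AB r h B)

include hr hh in
theorem smul_Lam (σ : Equiv.Perm ι) {z : R} (hz : z ∈ Lam r h B) : σ • z ∈ Lam r h B := by
  rw [mem_Lam] at hz ⊢
  let f : R →ₐ[AB r h B] R :=
    { MulSemiringAction.toRingHom (Equiv.Perm ι) R σ with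
      commutes' := fun c => smul_AB r h B hr hh σ c.2 }
  exact hz.algHom f

include hind hd hgen in
theorem transcendental_Lam : Transcendental (Lam r h B) h := by
  intro h1
  exact transcendental_h r h B hd hind hgen ((mem_Lam r h B).1 (Lam_closed r h B h1))

/-- the permutations which act trivially on `Lam` -/
def HH : Subgroup (Equiv.Perm ι) where
  carrier := {σ | ∀ z ∈ Lam r h B, σ • z = z}
  one_mem' := fun z _ => one_smul _ z
  mul_mem' := fun {a b} ha hb z hz => by rw [mul_smul, hb z hz, ha z hz]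
  inv_mem' := fun {a} ha z hz => by rw [inv_smul_eq_iff, ha z hz]

include hr hh in
theorem HH_normal : (HH r h B).Normal := by
  refine ⟨fun σ hσ τ z hz => ?_⟩
  rw [mul_smul, mul_smul, hσ _ (smul_Lam r h B hr hh τ⁻¹ hz), smul_inv_smul]

include hB hd hind hgen hr hh in
theorem HH_ne_bot (hn : 2 ≤ Fintype.card ι) : HH r h B ≠ ⊥ := by
  intro hbot
  have ht := transcendental_Lam r h B hd hind hgen
  set Λ := Lam r h B with hΛ
  -- `R = Λ(h)`
  have htop : ∀ z : R, z ∈ (adjoin Λ {h}).restrictScalars L := by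
    intro z
    have hΛle : ∀ y ∈ Λ, y ∈ (adjoin Λ {h}).restrictScalars L := fun y hy =>
      IntermediateField.algebraMap_mem (adjoin Λ {h}) (⟨y, hy⟩ : Λ)
    refine mem_of_fixed r h B hind hgen hr hh
      (fun y hy => hΛle y (AB_le r h B hy)) (subset_adjoin Λ _ rfl) z fun σ hσ => ?_
    have h1 : σ ∈ HH r h B := fun y hy => hσ y (hΛle y hy)
    rw [hbot, Subgroup.mem_bot] at h1
    rw [h1, one_smul]
  let e : RatFunc Λ ≃ₐ[Λ] Λ⟮h⟯ := RatFunc.algEquivOfTranscendental h ht
  have hmem : ∀ z : R, z ∈ Λ⟮h⟯ := htop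
  let w : ι → RatFunc Λ := fun i => e.symm ⟨r i, hmem _⟩
  have hw : ∀ i, ((e (w i) : Λ⟮h⟯) : R) = r i := fun i => by
    change ((e (e.symm ⟨r i, hmem _⟩) : Λ⟮h⟯) : R) = r i
    rw [AlgEquiv.apply_symm_apply]
  let E : RatFunc Λ →+* R := (algebraMap Λ⟮h⟯ R).comp (e : RatFunc Λ →+* Λ⟮h⟯)
  have hEinj : Function.Injective E := E.injective
  have hEw : ∀ i, E (w i) = r i := hw
  have hEX : E RatFunc.X = h := RatFunc.algEquivOfTranscendental_X h ht
  have hEΛ : ∀ c : Λ, E (algebraMap Λ (RatFunc Λ) c) = c := fun c => by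
    change algebraMap Λ⟮h⟯ R (e (algebraMap Λ (RatFunc Λ) c)) = c
    rw [AlgEquiv.commutes]; rfl
  obtain ⟨f', hf'⟩ := exists_fB r h B (AB_le r h B)
  obtain ⟨hmon, hdeg⟩ := monic_fB r h B hd
  have hf'mon : f'.Monic := by
    have h1 : (f'.map (algebraMap Λ R)).Monic := by rw [hf']; exact hmon
    exact Polynomial.monic_of_injective (algebraMap Λ R).injective h1
  have hf'deg : f'.natDegree = Fintype.card ι := by
    rw [← hdeg, ← hf', natDegree_map]
  -- the polynomial over `Λ[X]`
  let p₂ : Λ[X][X] := f'.map C - C X * B.map (algebraMap L Λ[X])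
  have hp₂ : p₂.Monic := by
    have h1 : (f'.map (C : Λ →+* Λ[X])).Monic := hf'mon.map _
    have h2 : (f'.map (C : Λ →+* Λ[X])).degree = ((Fintype.card ι : ℕ) : WithBot ℕ) := by
      rw [degree_eq_natDegree h1.ne_zero, hf'mon.natDegree_map, hf'deg]
    refine h1.sub_of_left ?_
    rw [h2]
    have h3 : (C (X : Λ[X]) * B.map (algebraMap L Λ[X])).natDegree ≤ B.natDegree :=
      (natDegree_C_mul_le _ _).trans natDegree_map_le
    refine lt_of_le_of_lt degree_le_natDegree ?_
    exact_mod_cast lt_of_le_of_lt h3 hd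
  have hroot : ∀ i, (fB r h B).eval (r i) = h * (B.map (algebraMap L R)).eval (r i) := by
    intro i
    rw [fB, eval_add, eval_mul, eval_C, eval_prod,
      Finset.prod_eq_zero (Finset.mem_univ i) (by simp), zero_add]
  have hint : ∀ i, IsIntegral Λ[X] (w i) := by
    intro i
    refine ⟨p₂, hp₂, ?_⟩
    apply hEinj
    rw [map_zero, Polynomial.hom_eval₂, hEw, eval₂_sub, eval₂_mul, eval₂_C, eval₂_map, eval₂_map]
    have h1 : (E.comp (algebraMap Λ[X] (RatFunc Λ))).comp C = algebraMap Λ R := by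
      ext c
      change E (algebraMap Λ[X] (RatFunc Λ) (C c)) = c
      rw [← hEΛ c, RatFunc.algebraMap_C]
      rfl
    have h2 : (E.comp (algebraMap Λ[X] (RatFunc Λ))) X = h := by
      rw [RingHom.comp_apply, RatFunc.algebraMap_X, hEX]
    have h3 : (E.comp (algebraMap Λ[X] (RatFunc Λ))).comp (algebraMap L Λ[X]) =
        algebraMap L R := by
      rw [IsScalarTower.algebraMap_eq L Λ Λ[X], ← RingHom.comp_assoc]
      rw [show algebraMap Λ Λ[X] = C from rfl, h1, ← IsScalarTower.algebraMap_eq]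
    rw [h1, h2, h3, ← eval_map, ← eval_map, hf', hroot, sub_self]
  have hex : ∀ i, ∃ ρ : Λ[X], algebraMap Λ[X] (RatFunc Λ) ρ = w i := fun i =>
    IsIntegrallyClosed.isIntegral_iff.1 (hint i)
  choose ρ hρ using hex
  -- a point where `B` does not vanish
  obtain ⟨τ, hτ⟩ : ∃ τ : L, B.eval τ ≠ 0 := by
    by_contra hall
    push Not at hall
    exact hB (Polynomial.funext fun x => by rw [hall, eval_zero])
  have hprod : ∏ i, (C (algebraMap L Λ τ) - ρ i) =
      C (f'.eval (algebraMap L Λ τ)) - X * C (algebraMap L Λ (B.eval τ)) := by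
    have hE2 : Function.Injective (E.comp (algebraMap Λ[X] (RatFunc Λ))) :=
      hEinj.comp (RatFunc.algebraMap_injective Λ)
    apply hE2
    have hC : ∀ c : Λ, (E.comp (algebraMap Λ[X] (RatFunc Λ))) (C c) = c := by
      intro c
      change E (algebraMap Λ[X] (RatFunc Λ) (C c)) = c
      rw [← hEΛ c, RatFunc.algebraMap_C]
      rfl
    have hX : (E.comp (algebraMap Λ[X] (RatFunc Λ))) X = h := by
      rw [RingHom.comp_apply, RatFunc.algebraMap_X, hEX]
    have hρ' : ∀ i, (E.comp (algebraMap Λ[X] (RatFunc Λ))) (ρ i) = r i := fun i => by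
      rw [RingHom.comp_apply, hρ, hEw]
    rw [map_prod, map_sub, map_mul, hX, hC, hC]
    simp only [map_sub, hC, hρ']
    have h1 : ((f'.eval (algebraMap L Λ τ) : Λ) : R) = (fB r h B).eval (algebraMap L R τ) := by
      rw [← hf', IsScalarTower.algebraMap_apply L Λ R τ, eval_map_algebraMap,
        aeval_algebraMap_apply_eq_algebraMap_eval]
      rfl
    have h2 : ((algebraMap L Λ (B.eval τ) : Λ) : R) =
        (B.map (algebraMap L R)).eval (algebraMap L R τ) := by
      rw [eval_map_algebraMap, aeval_algebraMap_apply_eq_algebraMap_eval]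
      rfl
    rw [h1, h2, fB, eval_add, eval_mul, eval_C, eval_prod, add_sub_cancel_right]
    refine Finset.prod_congr rfl fun i _ => ?_
    rw [eval_sub, eval_X, eval_C]
    rfl
  -- degrees
  have hBτ : algebraMap L Λ (B.eval τ) ≠ 0 := by
    rw [Ne, map_eq_zero_iff _ (algebraMap L Λ).injective]
    exact hτ
  have hdegR : (C (f'.eval (algebraMap L Λ τ)) - X * C (algebraMap L Λ (B.eval τ))).natDegree
      = 1 := by
    have h1 : C (f'.eval (algebraMap L Λ τ)) - X * C (algebraMap L Λ (B.eval τ)) =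
        C (-algebraMap L Λ (B.eval τ)) * X + C (f'.eval (algebraMap L Λ τ)) := by
      rw [C_neg]; ring
    rw [h1]
    exact natDegree_linear (neg_ne_zero.mpr hBτ)
  obtain ⟨i, hi⟩ : ∃ i, (C (algebraMap L Λ τ) - ρ i).natDegree = 0 := by
    by_contra hall
    push Not at hall
    have h0 : ∏ i, (C (algebraMap L Λ τ) - ρ i) ≠ 0 := by
      intro h0
      rw [hprod] at h0
      rw [h0, natDegree_zero] at hdegR
      exact zero_ne_one hdegR
    have h1 : (∏ i, (C (algebraMap L Λ τ) - ρ i)).natDegree =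
        ∑ i, (C (algebraMap L Λ τ) - ρ i).natDegree :=
      natDegree_prod _ _ fun i _ => (Finset.prod_ne_zero_iff.mp h0) i (Finset.mem_univ i)
    rw [hprod, hdegR] at h1
    have h2 : ∑ i : ι, 1 ≤ ∑ i, (C (algebraMap L Λ τ) - ρ i).natDegree :=
      Finset.sum_le_sum fun i _ => Nat.one_le_iff_ne_zero.mpr (hall i)
    rw [← h1, Finset.sum_const, Finset.card_univ, smul_eq_mul, mul_one] at h2
    omega
  have hri : r i ∈ Λ := by
    obtain ⟨c, hc⟩ := natDegree_eq_zero.mp hi
    have h1 : ρ i = C (algebraMap L Λ τ - c) := by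
      rw [C_sub, hc]; ring
    rw [← hEw i, ← hρ i, h1]
    have h2 : E (algebraMap Λ[X] (RatFunc Λ) (C (algebraMap L Λ τ - c))) =
        ((algebraMap L Λ τ - c : Λ) : R) := by
      rw [← hEΛ, RatFunc.algebraMap_C]
      rfl
    rw [h2]
    exact (algebraMap L Λ τ - c : Λ).2
  -- `h` would be algebraic
  apply ht
  have h1 : (B.map (algebraMap L R)).eval (r i) ≠ 0 := by
    intro h0
    have h2 : Transcendental L (r i) := hind.transcendental (some i)
    apply h2
    refine ⟨B, hB, ?_⟩
    rw [← eval_map_algebraMap]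
    exact h0
  have h2 : h = (fB r h B).eval (r i) * ((B.map (algebraMap L R)).eval (r i))⁻¹ := by
    rw [hroot, mul_assoc, mul_inv_cancel₀ h1, mul_one]
  have h3 : (fB r h B).eval (r i) ∈ Λ := by
    rw [← hf']
    have : (f'.map (algebraMap Λ R)).eval (r i) = ((f'.eval (⟨r i, hri⟩ : Λ) : Λ) : R) := by
      rw [eval_map_algebraMap]
      exact aeval_algebraMap_apply_eq_algebraMap_eval (⟨r i, hri⟩ : Λ) f'
    rw [this]
    exact (f'.eval (⟨r i, hri⟩ : Λ)).2
  have h4 : (B.map (algebraMap L R)).eval (r i) ∈ Λ := by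
    have : (B.map (algebraMap L R)).eval (r i) =
        (((B.map (algebraMap L Λ)).eval (⟨r i, hri⟩ : Λ) : Λ) : R) := by
      rw [eval_map_algebraMap, eval_map_algebraMap]
      exact aeval_algebraMap_apply R (⟨r i, hri⟩ : Λ) B
    rw [this]
    exact ((B.map (algebraMap L Λ)).eval (⟨r i, hri⟩ : Λ)).2
  have h5 : h ∈ Λ := by
    rw [h2]
    exact mul_mem h3 (inv_mem h4)
  exact isAlgebraic_algebraMap (⟨h, h5⟩ : Λ)

include hB hd hind hgen hr hh in
/-- Elements algebraic over the field of coefficients and fixed by a transposition belong to it. -/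
theorem root_main (h5 : 5 ≤ Fintype.card ι) {i j : ι} (hij : i ≠ j) (z : R)
    (hz : IsAlgebraic (AB r h B) z) (hzs : Equiv.swap i j • z = z) : z ∈ AB r h B := by
  have hnor := HH_normal r h B hr hh
  have h1 : alternatingGroup ι ≤ HH r h B := by
    refine alt_le_of_normal ?_ _ (HH_ne_bot r h B hB hd hind hgen hr hh (by omega))
    rwa [Nat.card_eq_fintype_card]
  let St : Subgroup (Equiv.Perm ι) :=
    { carrier := {σ | σ • z = z}
      one_mem' := one_smul _ z
      mul_mem' := fun {a b} ha hb => by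
        change (a * b) • z = z
        rw [mul_smul, hb, ha]
      inv_mem' := fun {a} ha => by
        change a⁻¹ • z = z
        rw [inv_smul_eq_iff, ha] }
  have h2 : St = ⊤ := eq_top_of_alt_le St
    (fun σ hσ => h1 hσ z ((mem_Lam r h B).2 hz)) hij hzs
  have h3 : ∀ σ : Equiv.Perm ι, σ • z = z := fun σ => by
    have : σ ∈ St := by rw [h2]; trivial
    exact this
  let MM : IntermediateField (AB r h B) R := adjoin (AB r h B) (Set.range fun _ : Unit => h)
  have hhM : h ∈ MM := subset_adjoin (AB r h B) (Set.range fun _ : Unit => h) ⟨(), rfl⟩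
  have h4 : z ∈ MM.restrictScalars L :=
    mem_of_fixed r h B hind hgen hr hh (M := MM.restrictScalars L)
      (fun y hy => IntermediateField.algebraMap_mem MM (⟨y, hy⟩ : AB r h B)) hhM z
      (fun σ _ => h3 σ)
  obtain ⟨c, hc⟩ := Pool.Agent.W333.HP.bc0 (AB r h B) R Unit (fun _ => h)
    (algebraicIndependent_unique_type_iff.mpr (transcendental_h r h B hd hind hgen)) z h4 hz
  rw [← hc]
  exact c.2

end Pool.Agent.Zk31.CC
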