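import Pool.Agent.Zk31.CC

/-! A specialisation lemma for relatively algebraically closed fields. -/

set_option autoImplicit false
set_option linter.unusedSectionVars false

namespace Pool.Agent.Zk31.CD

open Polynomial IntermediateField

open scoped IntermediateField.algebraAdjoinAdjoin

/-- If the field generated by the images of `c` is algebraically closed, for the elements in the
image of a specialisation `ψ`, then the field generated by `c` is algebraically closed. -/
theorem spec {L RW W R : Type} [Field L] [CommRing RW] [IsDomain RW] [IsIntegrallyClosed RW]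
    [Algebra L RW] [Field W] [Algebra RW W] [IsFractionRing RW W] [Algebra L W]
    [IsScalarTower L RW W] [Field R] [Algebra L R] (ψ : RW →ₐ[L] R) {n : ℕ} (c : Fin n → RW)
    (h1 : AlgebraicIndependent L (fun i => ψ (c i)))
    (h2 : ∀ w : RW, IsAlgebraic (adjoin L (Set.range fun i => ψ (c i))) (ψ w) →
      ψ w ∈ adjoin L (Set.range fun i => ψ (c i))) (z : W)
    (hz : IsAlgebraic (adjoin L (Set.range fun i => algebraMap RW W (c i))) z) :
    z ∈ adjoin L (Set.range fun i => algebraMap RW W (c i)) := by
  classical
  let P := MvPolynomial (Fin n) L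
  let aRW : P →ₐ[L] RW := MvPolynomial.aeval c
  let aR : P →ₐ[L] R := ψ.comp aRW
  have haR' : aR = MvPolynomial.aeval (fun i => ψ (c i)) := by
    apply MvPolynomial.algHom_ext
    intro i
    simp [aR, aRW]
  have haR : Function.Injective aR := by rw [haR']; exact h1
  have haRW : Function.Injective aRW := fun x y hxy => haR (congrArg ψ hxy)
  have hinjW : Function.Injective (algebraMap RW W) := IsFractionRing.injective RW W
  let aW : P →ₐ[L] W := (IsScalarTower.toAlgHom L RW W).comp aRW
  have haW' : aW = MvPolynomial.aeval (fun i => algebraMap RW W (c i)) := by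
    apply MvPolynomial.algHom_ext
    intro i
    simp [aW, aRW]
  have haW : AlgebraicIndependent L (fun i => algebraMap RW W (c i)) := by
    change Function.Injective (MvPolynomial.aeval (fun i => algebraMap RW W (c i)))
    rw [← haW']
    exact hinjW.comp haRW
  let _ : Algebra P RW := aRW.toRingHom.toAlgebra
  let _ : Algebra P W := aW.toRingHom.toAlgebra
  let _ : Algebra P R := aR.toRingHom.toAlgebra
  have ht1 : IsScalarTower P RW W := IsScalarTower.of_algebraMap_eq fun _ => rfl
  let ψP : RW →ₐ[P] R := { ψ.toRingHom with commutes' := fun _ => rfl }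
  -- the range of `P`
  have hrange : ∀ p : P, algebraMap P W p ∈ adjoin L (Set.range fun i => algebraMap RW W (c i)) := by
    intro p
    apply IntermediateField.algebra_adjoin_le_adjoin
    rw [Algebra.adjoin_range_eq_range_aeval, ← haW']
    exact ⟨p, rfl⟩
  -- `z` is algebraic over `P`
  have hzP : IsAlgebraic P z := by
    have h3 : IsAlgebraic (Algebra.adjoin L (Set.range fun i => algebraMap RW W (c i))) z :=
      (IsFractionRing.isAlgebraic_iff (Algebra.adjoin L (Set.range fun i => algebraMap RW W (c i)))
        (adjoin L (Set.range fun i => algebraMap RW W (c i))) W).mpr hz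
    obtain ⟨p, hp0, hp⟩ := h3
    let e := haW.aevalEquiv
    refine ⟨p.map (e.symm : _ →+* P), ?_, ?_⟩
    · rw [Ne, Polynomial.map_eq_zero_iff e.symm.injective]
      exact hp0
    · rw [aeval_def, eval₂_map]
      have hcomp : (algebraMap P W).comp (e.symm : _ →+* P) = algebraMap (Algebra.adjoin L
          (Set.range fun i => algebraMap RW W (c i))) W := by
        ext y
        obtain ⟨q, rfl⟩ := e.surjective y
        change aW (e.symm (e q)) = _
        rw [AlgEquiv.symm_apply_apply, haW']
        exact (haW.algebraMap_aevalEquiv q).symm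
      rw [hcomp]
      exact hp
  obtain ⟨y, hy0, hy⟩ := hzP.exists_integral_multiple
  have hy1 : IsIntegral RW (y • z) := hy.tower_top
  obtain ⟨w, hw⟩ := IsIntegrallyClosed.isIntegral_iff.1 hy1
  have hwP : IsIntegral P w := by
    rw [← isIntegral_algebraMap_iff (B := W) hinjW, hw]
    exact hy
  -- the image of `w`
  have hψw : IsIntegral P (ψ w) := hwP.map ψP
  have hψalg : IsAlgebraic (adjoin L (Set.range fun i => ψ (c i))) (ψ w) := by
    obtain ⟨p, hp0, hp⟩ := hψw
    have hr : ∀ q : P, aR q ∈ adjoin L (Set.range fun i => ψ (c i)) := by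
      intro q
      apply IntermediateField.algebra_adjoin_le_adjoin
      rw [Algebra.adjoin_range_eq_range_aeval, ← haR']
      exact ⟨q, rfl⟩
    let j : P →+* adjoin L (Set.range fun i => ψ (c i)) := aR.toRingHom.codRestrict _ hr
    refine ⟨p.map j, (hp0.map j).ne_zero, ?_⟩
    rw [aeval_def, eval₂_map]
    exact hp
  have hψmem := h2 w hψalg
  obtain ⟨q, hq⟩ : ∃ q : P, aR q = ψ w := by
    let S := Algebra.adjoin L (Set.range fun i => ψ (c i))
    let K := adjoin L (Set.range fun i => ψ (c i))
    have hic : IsIntegrallyClosed S := IsIntegrallyClosed.of_equiv (h1.aevalEquiv : P ≃+* _)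
    have h3 : IsIntegral S (ψ w) := by
      obtain ⟨p, hp0, hp⟩ := hψw
      refine ⟨p.map (h1.aevalEquiv : P →+* S), hp0.map _, ?_⟩
      rw [eval₂_map]
      have hcomp : (algebraMap S R).comp (h1.aevalEquiv : P →+* S) = algebraMap P R := by
        apply RingHom.ext
        intro q
        change algebraMap S R (h1.aevalEquiv q) = aR q
        rw [h1.algebraMap_aevalEquiv, haR']
      rw [hcomp]
      exact hp
    have h4 : IsIntegral S (⟨ψ w, hψmem⟩ : K) := by
      rw [← isIntegral_algebraMap_iff (B := R) (FaithfulSMul.algebraMap_injective K R)]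
      exact h3
    obtain ⟨s, hs⟩ := IsIntegrallyClosed.isIntegral_iff.1 h4
    obtain ⟨q, hq⟩ := h1.aevalEquiv.surjective s
    refine ⟨q, ?_⟩
    rw [haR', ← h1.algebraMap_aevalEquiv, hq]
    exact congrArg Subtype.val hs
  -- `w` comes from `P`
  have hwq : w = aRW q := by
    by_contra hne
    have h3 : w - aRW q ≠ 0 := sub_ne_zero.mpr hne
    have h4 : IsAlgebraic P (w - aRW q) :=
      (hwP.sub (isIntegral_algebraMap (R := P) (A := RW) (x := q))).isAlgebraic
    obtain ⟨g, hg0, hg⟩ := h4.exists_nonzero_coeff_and_aeval_eq_zero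
      (mem_nonZeroDivisors_of_ne_zero h3)
    apply hg0
    apply haR
    have h5 := congrArg ψP hg
    rw [map_zero, ← aeval_algHom_apply] at h5
    have h6 : ψP (w - aRW q) = 0 := by
      change ψ (w - aRW q) = 0
      rw [map_sub, ← hq]
      exact sub_self _
    rw [h6, aeval_def, eval₂_at_zero] at h5
    rw [map_zero]
    exact h5
  have h3 : z = algebraMap P W q * (algebraMap P W y)⁻¹ := by
    have hy' : algebraMap P W y ≠ 0 := by
      have h4 : Function.Injective (algebraMap P W) := hinjW.comp haRW
      rw [Ne, map_eq_zero_iff _ h4]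
      exact hy0
    rw [eq_mul_inv_iff_mul_eq₀ hy', mul_comm, ← Algebra.smul_def, ← hw, hwq]
    rfl
  rw [h3]
  exact mul_mem (hrange q) (inv_mem (hrange y))

end Pool.Agent.Zk31.CD
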