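import Pool.Agent.Zk31.CD

/-! Determinants of matrices of polynomials. -/

set_option autoImplicit false
set_option linter.unusedSectionVars false

namespace Pool.Agent.Zk31.CE

open Polynomial

section det

variable {G S : Type} [Fintype G] [DecidableEq G] [CommRing S]

/-- determinant of a matrix supported on the diagonal and a cycle. -/
theorem det_cycle (π : Equiv.Perm G) (hπ1 : π ≠ 1)
    (hπ : ∀ σ : Equiv.Perm G, (∀ g, σ g = g ∨ σ g = π g) → σ = 1 ∨ σ = π) (M : Matrix G G S)
    (hM : ∀ g g', g' ≠ g → g' ≠ π g → M g g' = 0) :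
    M.det = ∏ g, M g g + (Equiv.Perm.sign π : ℤ) • ∏ g, M g (π g) := by
  rw [← Matrix.det_transpose, Matrix.det_apply]
  rw [Finset.sum_eq_add 1 π (Ne.symm hπ1)]
  · congr 1
    simp [Matrix.transpose_apply]
  · rintro σ - ⟨h1, h2⟩
    have h3 : ¬ ∀ g, σ g = g ∨ σ g = π g := fun h => (hπ σ h).elim h1 h2
    push Not at h3
    obtain ⟨g, hg1, hg2⟩ := h3
    rw [Finset.prod_eq_zero (Finset.mem_univ g), smul_zero]
    exact hM g (σ g) hg1 hg2
  · intro h; exact absurd (Finset.mem_univ _) h
  · intro h; exact absurd (Finset.mem_univ _) h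

theorem det_monic [Nontrivial S] (m : ℕ) (M : Matrix G G S[X]) (hm : 0 < m)
    (hd : ∀ g, (M g g).Monic ∧ (M g g).natDegree = m)
    (ho : ∀ g g', g ≠ g' → (M g g').natDegree < m) :
    M.det.Monic ∧ M.det.natDegree = Fintype.card G * m := by
  have hle : ∀ g g', (M g g').natDegree ≤ m := by
    intro g g'
    by_cases h : g = g'
    · subst h; exact (hd g).2.le
    · exact (ho g g' h).le
  have h1 : (∏ g, M g g).Monic := monic_prod_of_monic _ _ fun g _ => (hd g).1
  have h2 : (∏ g, M g g).natDegree = Fintype.card G * m := by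
    rw [natDegree_prod_of_monic _ _ fun g _ => (hd g).1]
    simp only [(hd _).2, Finset.sum_const, Finset.card_univ, smul_eq_mul]
  have h3 : (∏ g, M g g).degree = ((Fintype.card G * m : ℕ) : WithBot ℕ) := by
    rw [degree_eq_natDegree h1.ne_zero, h2]
  have h4 : M.det = ∏ g, M g g + ∑ σ ∈ Finset.univ.erase (1 : Equiv.Perm G),
      Equiv.Perm.sign σ • ∏ g, M (σ g) g := by
    rw [Matrix.det_apply, ← Finset.add_sum_erase _ _ (Finset.mem_univ (1 : Equiv.Perm G))]
    simp
  have h5 : (∑ σ ∈ Finset.univ.erase (1 : Equiv.Perm G),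
      Equiv.Perm.sign σ • ∏ g, M (σ g) g) ∈ degreeLT S (Fintype.card G * m) := by
    refine Submodule.sum_mem _ fun σ hσ => ?_
    have hσ1 : σ ≠ 1 := Finset.ne_of_mem_erase hσ
    have h6 : (∏ g, M (σ g) g) ∈ degreeLT S (Fintype.card G * m) := by
      rw [mem_degreeLT]
      refine lt_of_le_of_lt degree_le_natDegree ?_
      have h7 : (∏ g, M (σ g) g).natDegree < Fintype.card G * m := by
        refine lt_of_le_of_lt (natDegree_prod_le _ _) ?_
        obtain ⟨g₀, hg₀⟩ : ∃ g, σ g ≠ g := by
          by_contra hall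
          push Not at hall
          exact hσ1 (Equiv.ext hall)
        calc ∑ g, (M (σ g) g).natDegree < ∑ _g : G, m :=
              Finset.sum_lt_sum (fun g _ => hle _ _) ⟨g₀, Finset.mem_univ _, ho _ _ hg₀⟩
          _ = Fintype.card G * m := by simp
      exact_mod_cast h7
    rcases Int.units_eq_one_or (Equiv.Perm.sign σ) with h8 | h8
    · rw [h8, one_smul]; exact h6
    · rw [h8, Units.neg_smul, one_smul]; exact Submodule.neg_mem _ h6
  rw [mem_degreeLT] at h5
  rw [h4]
  refine ⟨h1.add_of_left (by rw [h3]; exact h5), ?_⟩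
  rw [natDegree_add_eq_left_of_degree_lt (by rw [h3]; exact h5), h2]

theorem exists_cycle (h2 : 2 ≤ Fintype.card G) : ∃ π : Equiv.Perm G, π ≠ 1 ∧ (∀ g, π g ≠ g) ∧
    ∀ σ : Equiv.Perm G, (∀ g, σ g = g ∨ σ g = π g) → σ = 1 ∨ σ = π := by
  let l : List G := Finset.univ.toList
  have hl : l.Nodup := Finset.nodup_toList _
  have hlen : 2 ≤ l.length := by
    rw [Finset.length_toList, Finset.card_univ]; exact h2
  have hcyc : l.formPerm.IsCycle := List.isCycle_formPerm hl hlen
  have hsupp : l.formPerm.support = Finset.univ := by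
    rw [List.support_formPerm_of_nodup l hl (fun x hx => by
      rw [hx] at hlen; simp at hlen), Finset.toList_toFinset]
  have hne : ∀ g, l.formPerm g ≠ g := by
    intro g
    have h3 : g ∈ l.formPerm.support := by rw [hsupp]; exact Finset.mem_univ g
    exact Equiv.Perm.mem_support.mp h3
  refine ⟨l.formPerm, hcyc.ne_one, hne, ?_⟩
  intro σ hσ
  by_cases h1 : ∀ g, σ g = g
  · left; exact Equiv.ext h1
  right
  push Not at h1
  obtain ⟨g, hg⟩ := h1
  have h3 : ∀ k : ℕ, σ ((l.formPerm ^ k) g) = l.formPerm ((l.formPerm ^ k) g) := by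
    intro k
    induction k with
    | zero => exact (hσ g).resolve_left hg
    | succ k ih =>
      refine (hσ _).resolve_left fun h4 => ?_
      rw [pow_succ', Equiv.Perm.mul_apply] at h4
      rw [← ih] at h4
      have h5 := σ.injective h4
      rw [ih] at h5
      exact hne _ h5
  apply Equiv.ext
  intro x
  obtain ⟨k, hk⟩ := hcyc.exists_pow_eq (hne g) (hne x)
  rw [← hk]
  exact h3 k

end det

end Pool.Agent.Zk31.CE
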