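import Pool.Agent.Zk31.CE

/-! The generic element of a crossed product and its reduced norm. -/

set_option autoImplicit false
set_option linter.unusedSectionVars false

namespace Pool.Agent.Zk31.CF

open Polynomial IntermediateField Pool.Agent.Zk31.CA Pool.Agent.Zk31.CB Pool.Agent.Zk31.CC
  Pool.Agent.Zk31.CD Pool.Agent.Zk31.CE

/-- the variables -/
abbrev VV (G : Type) (m : ℕ) : Type := (G × Fin m) ⊕ (G × G)

/-- the polynomial ring -/
abbrev RW (L G : Type) [Field L] (m : ℕ) : Type := MvPolynomial (VV G m) L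

section

variable {L G : Type} [Field L] [CharZero L] [Fintype G] [DecidableEq G] (m : ℕ)
  (u : G → G → L[X])

variable (L) in
/-- the diagonal entries -/
noncomputable def xx (g : G) : (RW L G m)[X] :=
  X ^ m + ∑ i : Fin m, C (MvPolynomial.X (Sum.inl (g, i))) * X ^ (i : ℕ)

/-- the matrix -/
noncomputable def MM : Matrix G G (RW L G m)[X] := fun g g' =>
  if g = g' then xx L m g
  else (u g g').map (algebraMap L (RW L G m)) * C (MvPolynomial.X (Sum.inr (g, g')))

/-- its determinant -/
noncomputable def ff : (RW L G m)[X] := (MM m u).det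

theorem xx_monic (g : G) : (xx L m g).Monic ∧ (xx L m g).natDegree = m := by
  have h1 : (∑ i : Fin m, C (MvPolynomial.X (Sum.inl (g, i)) : RW L G m) * X ^ (i : ℕ)).degree <
      ((m : ℕ) : WithBot ℕ) := by
    rw [← mem_degreeLT]
    refine Submodule.sum_mem _ fun i _ => ?_
    rw [mem_degreeLT]
    refine lt_of_le_of_lt (degree_C_mul_X_pow_le _ _) ?_
    exact_mod_cast i.2
  refine ⟨monic_X_pow_add h1, ?_⟩
  rw [xx, natDegree_add_eq_left_of_degree_lt, natDegree_X_pow]
  rw [degree_X_pow]
  exact h1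

theorem ff_monic (hm : 0 < m) (hu : ∀ g g', g ≠ g' → (u g g').natDegree < m) :
    (ff m u).Monic ∧ (ff m u).natDegree = Fintype.card G * m := by
  refine det_monic m _ hm (fun g => ?_) fun g g' hg => ?_
  · rw [MM, if_pos rfl]; exact xx_monic m g
  · rw [MM, if_neg hg]
    refine lt_of_le_of_lt (natDegree_mul_C_le _ _) ?_
    exact lt_of_le_of_lt natDegree_map_le (hu g g' hg)

section psi

variable {R : Type} [Field R] [Algebra L R] (r : G × Fin m → R) (h : R) (π : Equiv.Perm G) (g₀ : G)

/-- the specialisation -/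
noncomputable def psi : RW L G m →ₐ[L] R :=
  MvPolynomial.aeval (Sum.elim (fun z => (∏ l, (X - C (r (z.1, l)))).coeff z.2)
    (fun z => if z.2 = π z.1 then (if z.1 = g₀ then h else 1) else 0))

theorem psi_inl (g : G) (i : Fin m) : psi (L := L) m r h π g₀ (MvPolynomial.X (Sum.inl (g, i))) =
    (∏ l, (X - C (r (g, l)))).coeff i := by
  rw [psi, MvPolynomial.aeval_X]; rfl

theorem psi_inr (g g' : G) : psi (L := L) m r h π g₀ (MvPolynomial.X (Sum.inr (g, g'))) =
    if g' = π g then (if g = g₀ then h else 1) else 0 := by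
  rw [psi, MvPolynomial.aeval_X]; rfl

/-- the fixed polynomial -/
noncomputable def BB : L[X] := C ((Equiv.Perm.sign π : ℤ) : L) * ∏ g, u g (π g)

theorem map_xx (g : G) : (xx L m g).map (psi (L := L) m r h π g₀ : RW L G m →+* R) =
    ∏ l, (X - C (r (g, l))) := by
  have h1 : (∏ l : Fin m, (X - C (r (g, l)))).Monic := monic_prod_of_monic _ _ fun i _ =>
    monic_X_sub_C _
  have h2 : (∏ l : Fin m, (X - C (r (g, l)))).natDegree = m := by
    rw [natDegree_prod_of_monic _ _ fun i _ => monic_X_sub_C _]
    simp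
  rw [h1.as_sum, h2, xx, Polynomial.map_add, Polynomial.map_pow, map_X, Polynomial.map_sum,
    Finset.sum_range]
  congr 1
  refine Finset.sum_congr rfl fun i _ => ?_
  rw [Polynomial.map_mul, map_C, Polynomial.map_pow, map_X]
  congr 2
  exact psi_inl m r h π g₀ g i

variable (hπ1 : π ≠ 1) (hπ0 : ∀ g, π g ≠ g)
  (hπ : ∀ σ : Equiv.Perm G, (∀ g, σ g = g ∨ σ g = π g) → σ = 1 ∨ σ = π)

include hπ1 hπ0 hπ in
theorem map_ff : (ff m u).map (psi (L := L) m r h π g₀ : RW L G m →+* R) =
    fB r h (BB u π) := by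
  have h1 : (ff m u).map (psi (L := L) m r h π g₀ : RW L G m →+* R) =
      ((mapRingHom (psi (L := L) m r h π g₀ : RW L G m →+* R)).mapMatrix (MM m u)).det := by
    rw [← RingHom.map_det]; rfl
  rw [h1, det_cycle π hπ1 hπ]
  · rw [fB]
    congr 1
    · rw [Fintype.prod_prod_type]
      refine Finset.prod_congr rfl fun g _ => ?_
      rw [RingHom.mapMatrix_apply, Matrix.map_apply, MM, if_pos rfl]
      exact map_xx m r h π g₀ g
    · have h2 : ∀ g, ((mapRingHom (psi (L := L) m r h π g₀ : RW L G m →+* R)).mapMatrix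
          (MM m u)) g (π g) = (u g (π g)).map (algebraMap L R) * C (if g = g₀ then h else 1) := by
        intro g
        rw [RingHom.mapMatrix_apply, Matrix.map_apply, MM, if_neg (Ne.symm (hπ0 g)),
          coe_mapRingHom, Polynomial.map_mul, map_C, Polynomial.map_map]
        congr 2
        · ext c
          exact (psi (L := L) m r h π g₀).commutes c
        · exact (psi_inr m r h π g₀ g (π g)).trans (if_pos rfl)
      simp only [h2]
      rw [Finset.prod_mul_distrib, ← Polynomial.map_prod, ← map_prod, Finset.prod_ite_eq' Finset.univ,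
        if_pos (Finset.mem_univ _), BB, Polynomial.map_mul, map_C, map_intCast]
      rw [zsmul_eq_mul, show ((Equiv.Perm.sign π : ℤ) : R[X]) = C ((Equiv.Perm.sign π : ℤ) : R)
        from (map_intCast (C : R →+* R[X]) _).symm]
      ring
  · intro g g' h2 h3
    rw [RingHom.mapMatrix_apply, Matrix.map_apply, MM, if_neg (Ne.symm h2), coe_mapRingHom,
      Polynomial.map_mul, map_C]
    have h4 : (psi (L := L) m r h π g₀ : RW L G m →+* R) (MvPolynomial.X (Sum.inr (g, g'))) = 0 :=
      (psi_inr m r h π g₀ g g').trans (if_neg h3)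
    rw [h4, C_0, mul_zero]

end psi

end

end Pool.Agent.Zk31.CF
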