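import Pool.Agent.Zk31.CF

/-! The coefficients of the reduced norm generate an algebraically closed subfield. -/

set_option autoImplicit false
set_option linter.unusedSectionVars false

namespace Pool.Agent.Zk31.CG

open Polynomial IntermediateField Pool.Agent.Zk31.CA Pool.Agent.Zk31.CB Pool.Agent.Zk31.CC
  Pool.Agent.Zk31.CD Pool.Agent.Zk31.CE Pool.Agent.Zk31.CF

/-- A field of rational functions in `r_i`, `h` with the action of the permutations. -/
theorem exists_perm_field (L ι : Type) [Field L] [Fintype ι] [DecidableEq ι] :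
    ∃ (R : Type) (_ : Field R) (_ : Algebra L R) (_ : MulSemiringAction (Equiv.Perm ι) R)
      (_ : SMulCommClass (Equiv.Perm ι) L R) (r : ι → R) (h : R),
      AlgebraicIndependent L (fun o : Option ι => o.elim h r) ∧
      adjoin L (Set.range (fun o : Option ι => o.elim h r)) = ⊤ ∧
      (∀ (σ : Equiv.Perm ι) (i : ι), σ • r i = r (σ i)) ∧ ∀ σ : Equiv.Perm ι, σ • h = h := by
  let P := MvPolynomial (Option ι) L
  let F := FractionRing P
  let f1 : Equiv.Perm ι →* (P ≃ₐ[L] P) :=
    { toFun := fun g => MvPolynomial.renameEquiv L (Equiv.optionCongr g)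
      map_one' := by
        apply AlgEquiv.ext
        intro p
        change MvPolynomial.rename (Equiv.optionCongr (1 : Equiv.Perm ι)) p = p
        have h1 : ((Equiv.optionCongr (1 : Equiv.Perm ι) : Option ι ≃ Option ι) :
            Option ι → Option ι) = id := by
          funext o
          cases o <;> rfl
        rw [h1]
        exact MvPolynomial.rename_id_apply p
      map_mul' := fun g h => by
        apply AlgEquiv.ext
        intro p
        change MvPolynomial.rename (Equiv.optionCongr (g * h)) p =
          MvPolynomial.rename (Equiv.optionCongr g) (MvPolynomial.rename (Equiv.optionCongr h) p)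
        rw [MvPolynomial.rename_rename]
        congr 1
        congr 1
        funext o
        cases o <;> rfl }
  let f2 : (P ≃ₐ[L] P) →* (F ≃ₐ[L] F) := IsFractionRing.fieldEquivOfAlgEquivHom L F
  let f := f2.comp f1
  let act : MulSemiringAction (Equiv.Perm ι) F := MulSemiringAction.compHom F f
  have hact : ∀ (g : Equiv.Perm ι) (z : F), g • z = f g z := fun g z => rfl
  have hX : ∀ (g : Equiv.Perm ι) (p : P), g • algebraMap P F p = algebraMap P F (f1 g p) :=
    fun g p => IsFractionRing.fieldEquivOfAlgEquiv_algebraMap L F F (f1 g) p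
  have hcomm : SMulCommClass (Equiv.Perm ι) L F := ⟨fun g c z => by
    rw [hact, hact, map_smul]⟩
  have hfam : (fun o : Option ι => o.elim (algebraMap P F (MvPolynomial.X none))
      (fun i => algebraMap P F (MvPolynomial.X (some i)))) =
      fun o => algebraMap P F (MvPolynomial.X o) := by
    funext o
    cases o <;> rfl
  refine ⟨F, inferInstance, inferInstance, act, hcomm,
    fun i => algebraMap P F (MvPolynomial.X (some i)), algebraMap P F (MvPolynomial.X none),
    ?_, ?_, ?_, ?_⟩
  · rw [hfam]
    exact (MvPolynomial.algebraicIndependent_X (Option ι) L).map'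
      (f := IsScalarTower.toAlgHom L P F) (IsFractionRing.injective P F)
  · rw [hfam, eq_top_iff]
    rintro z -
    obtain ⟨a, d, -, rfl⟩ := IsFractionRing.div_surjective (A := P) (K := F) z
    have hmem : ∀ a : P, algebraMap P F a ∈
        adjoin L (Set.range fun g : Option ι => algebraMap P F (MvPolynomial.X g)) := by
      intro a
      induction a using MvPolynomial.induction_on with
      | C c =>
        have h1 : algebraMap P F (MvPolynomial.C c) = algebraMap L F c :=
          (IsScalarTower.algebraMap_apply L P F c).symm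
        rw [h1]
        exact IntermediateField.algebraMap_mem _ c
      | add p q hp hq => rw [map_add]; exact add_mem hp hq
      | mul_X p g hp =>
        rw [map_mul]
        exact mul_mem hp (subset_adjoin _ _ ⟨g, rfl⟩)
    exact IntermediateField.div_mem _ (hmem a) (hmem d)
  · intro σ i
    rw [hX]
    congr 1
    change MvPolynomial.rename (Equiv.optionCongr σ) (MvPolynomial.X (some i) : P) = _
    rw [MvPolynomial.rename_X]
    rfl
  · intro σ
    rw [hX]
    congr 1
    change MvPolynomial.rename (Equiv.optionCongr σ) (MvPolynomial.X none : P) = _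
    rw [MvPolynomial.rename_X]
    rfl

section

variable {L G : Type} [Field L] [CharZero L] [Fintype G] [DecidableEq G] (m : ℕ)
  (u : G → G → L[X])

theorem BB_ne (π : Equiv.Perm G) (hπ0 : ∀ g, π g ≠ g) (hu0 : ∀ g g', g ≠ g' → u g g' ≠ 0) :
    BB u π ≠ 0 := by
  refine mul_ne_zero ?_ ?_
  · rw [Ne, C_eq_zero, Int.cast_eq_zero]
    exact Units.ne_zero _
  · exact Finset.prod_ne_zero_iff.mpr fun g _ => hu0 _ _ (Ne.symm (hπ0 g))

theorem BB_deg (π : Equiv.Perm G) (hπ0 : ∀ g, π g ≠ g) [Nonempty G]
    (hu : ∀ g g', g ≠ g' → (u g g').natDegree < m) :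
    (BB u π).natDegree < Fintype.card (G × Fin m) := by
  refine lt_of_le_of_lt (natDegree_C_mul_le _ _) ?_
  refine lt_of_le_of_lt (natDegree_prod_le _ _) ?_
  rw [Fintype.card_prod, Fintype.card_fin]
  calc ∑ g, (u g (π g)).natDegree < ∑ _g : G, m :=
        Finset.sum_lt_sum_of_nonempty Finset.univ_nonempty fun g _ => hu _ _ (Ne.symm (hπ0 g))
    _ = Fintype.card G * m := by simp

variable (W : Type) [Field W] [Algebra (RW L G m) W] [IsFractionRing (RW L G m) W] [Algebra L W]
  [IsScalarTower L (RW L G m) W]

/-- **The coefficients of the generic reduced norm generate an algebraically closed subfield.** -/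
theorem relL (h2 : 2 ≤ Fintype.card G) (hm : 2 ≤ m) (h5 : 5 ≤ Fintype.card G * m)
    (hu0 : ∀ g g', g ≠ g' → u g g' ≠ 0) (hu : ∀ g g', g ≠ g' → (u g g').natDegree < m) :
    AlgebraicIndependent L
      (fun j : Fin (Fintype.card (G × Fin m)) => algebraMap (RW L G m) W ((ff m u).coeff j)) ∧
    ∀ z : W, IsAlgebraic (adjoin L (Set.range fun j : Fin (Fintype.card (G × Fin m)) =>
        algebraMap (RW L G m) W ((ff m u).coeff j))) z →
      z ∈ adjoin L (Set.range fun j : Fin (Fintype.card (G × Fin m)) =>
        algebraMap (RW L G m) W ((ff m u).coeff j)) := by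
  classical
  have hne : Nonempty G := Fintype.card_pos_iff.mp (by omega)
  obtain ⟨g₀⟩ := hne
  have hne : Nonempty G := ⟨g₀⟩
  obtain ⟨π, hπ1, hπ0, hπ⟩ := exists_cycle (G := G) h2
  obtain ⟨R, _, _, _, _, r, h, hind, hgen, hr, hh⟩ := exists_perm_field L (G × Fin m)
  let ψ : RW L G m →ₐ[L] R := psi m r h π g₀
  have hB : BB u π ≠ 0 := BB_ne u π hπ0 hu0
  have hd : (BB u π).natDegree < Fintype.card (G × Fin m) := BB_deg m u π hπ0 hu
  have hmap : (ff m u).map (ψ : RW L G m →+* R) = fB r h (BB u π) :=
    map_ff m u r h π g₀ hπ1 hπ0 hπ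
  have hc : ∀ j : ℕ, ψ ((ff m u).coeff j) = (fB r h (BB u π)).coeff j := by
    intro j
    rw [← hmap, coeff_map]
    rfl
  have hAB : adjoin L (Set.range fun j : Fin (Fintype.card (G × Fin m)) =>
      ψ ((ff m u).coeff j)) = AB r h (BB u π) := by
    rw [AB_eq r h (BB u π) hd]
    congr 2
    funext j
    exact hc j
  have hci : AlgebraicIndependent L (fun j : Fin (Fintype.card (G × Fin m)) =>
      ψ ((ff m u).coeff j)) := by
    have h3 := (indep_coeff r h (BB u π) hd hind hgen).comp some (Option.some_injective _)
    convert h3 using 2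
    rename_i j
    exact hc j
  -- invariance under a transposition
  let i₀ : Fin m := ⟨0, by omega⟩
  let i₁ : Fin m := ⟨1, by omega⟩
  have hi : i₀ ≠ i₁ := fun h => by simpa [i₀, i₁] using congrArg Fin.val h
  have hinv : ∀ w, Equiv.swap (g₀, i₀) (g₀, i₁) • ψ w = ψ w := by
    intro w
    have h3 : (act L (Equiv.swap (g₀, i₀) (g₀, i₁))).comp ψ = ψ := by
      apply MvPolynomial.algHom_ext
      rintro (⟨g, i⟩ | ⟨g, g'⟩)
      · rw [AlgHom.comp_apply]
        change Equiv.swap (g₀, i₀) (g₀, i₁) • psi (L := L) m r h π g₀ (MvPolynomial.X (Sum.inl (g, i))) =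
          psi (L := L) m r h π g₀ (MvPolynomial.X (Sum.inl (g, i)))
        rw [psi_inl]
        have h4 : (∏ l, (X - C (r (g, l)))).map
            (act (R := R) L (Equiv.swap (g₀, i₀) (g₀, i₁)) : R →+* R) =
            ∏ l, (X - C (r (g, l))) := by
          rw [Polynomial.map_prod]
          simp only [Polynomial.map_sub, map_X, map_C]
          by_cases hg : g = g₀
          · subst hg
            rw [← Equiv.prod_comp (Equiv.swap i₀ i₁) (fun l => X - C (r (g, l)))]
            refine Finset.prod_congr rfl fun l _ => ?_
            have h5 : (act (R := R) L (Equiv.swap (g, i₀) (g, i₁)) : R →+* R) (r (g, l)) =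
                r (Equiv.swap (g, i₀) (g, i₁) (g, l)) := hr _ _
            rw [h5]
            congr 3
            by_cases h6 : l = i₀
            · rw [h6, Equiv.swap_apply_left, Equiv.swap_apply_left]
            · by_cases h7 : l = i₁
              · rw [h7, Equiv.swap_apply_right, Equiv.swap_apply_right]
              · rw [Equiv.swap_apply_of_ne_of_ne, Equiv.swap_apply_of_ne_of_ne h6 h7]
                · exact fun h => h6 (congrArg Prod.snd h)
                · exact fun h => h7 (congrArg Prod.snd h)
          · refine Finset.prod_congr rfl fun l _ => ?_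
            have h5 : (act (R := R) L (Equiv.swap (g₀, i₀) (g₀, i₁)) : R →+* R) (r (g, l)) =
                r (Equiv.swap (g₀, i₀) (g₀, i₁) (g, l)) := hr _ _
            rw [h5, Equiv.swap_apply_of_ne_of_ne]
            · exact fun h => hg (congrArg Prod.fst h)
            · exact fun h => hg (congrArg Prod.fst h)
        have h5 := congrArg (fun p : R[X] => p.coeff i) h4
        simp only [coeff_map] at h5
        exact h5
      · rw [AlgHom.comp_apply]
        change Equiv.swap (g₀, i₀) (g₀, i₁) • psi (L := L) m r h π g₀ (MvPolynomial.X (Sum.inr (g, g'))) =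
          psi (L := L) m r h π g₀ (MvPolynomial.X (Sum.inr (g, g')))
        rw [psi_inr]
        split_ifs
        · exact hh _
        · exact smul_one _
        · exact smul_zero _
    exact congrArg (fun φ : RW L G m →ₐ[L] R => φ w) h3
  have hspec := spec (W := W) ψ (fun j : Fin (Fintype.card (G × Fin m)) => (ff m u).coeff j)
    hci (by
      intro w hw
      rw [hAB] at hw ⊢
      refine root_main r h (BB u π) hB hd hind hgen hr hh ?_ (i := (g₀, i₀)) (j := (g₀, i₁))
        (fun h => hi (congrArg Prod.snd h)) _ hw (hinv w)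
      rw [Fintype.card_prod, Fintype.card_fin]
      exact h5)
  refine ⟨?_, hspec⟩
  have h3 : AlgebraicIndependent L (fun j : Fin (Fintype.card (G × Fin m)) =>
      (ff m u).coeff j) := AlgebraicIndependent.of_comp ψ hci
  exact h3.map' (f := IsScalarTower.toAlgHom L (RW L G m) W) (IsFractionRing.injective _ W)

end

end Pool.Agent.Zk31.CG
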