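import Mathlib

/-! The norm form of a finite extension. -/

set_option autoImplicit false
set_option linter.unusedSectionVars false

namespace Pool.Agent.Zk31.DA

open Matrix

/-- The norm form `N_{E/K}(∑ x_k ε_k)` of a finite extension `E` of `K` with basis `ε`, in variables
`x_k` in any commutative `K`-algebra `R`: the determinant of the matrix of the multiplication by
`∑ x_k ε_k`. -/
noncomputable def normForm {K E κ R : Type} [Field K] [Field E] [Algebra K E] [Fintype κ]
    [DecidableEq κ] (ε : Module.Basis κ K E) [CommRing R] [Algebra K R] (x : κ → R) : R :=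
  (∑ k, x k • (Algebra.leftMulMatrix ε (ε k)).map (algebraMap K R)).det

variable {K E κ : Type} [Field K] [Field E] [Algebra K E] [Fintype κ] [DecidableEq κ]
  (ε : Module.Basis κ K E)

theorem normForm_map {R S : Type} [CommRing R] [Algebra K R] [CommRing S] [Algebra K S]
    (φ : R →+* S) (hφ : ∀ c : K, φ (algebraMap K R c) = algebraMap K S c) (x : κ → R) :
    φ (normForm ε x) = normForm ε (fun k => φ (x k)) := by
  rw [normForm, RingHom.map_det, normForm]
  congr 1
  rw [map_sum]
  refine Finset.sum_congr rfl fun k _ => ?_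
  ext i j
  simp only [RingHom.mapMatrix_apply, Matrix.map_apply, Matrix.smul_apply, smul_eq_mul, map_mul, hφ]

variable {L : Type} [Field L] [Algebra K L]

/-- The value of a linear form `∑ x_k σ(ε_k)`. -/
noncomputable def ev {R : Type} [CommRing R] [Algebra L R] (σ : E →ₐ[K] L) (x : κ → R) : R :=
  ∑ k, x k * algebraMap L R (σ (ε k))

theorem ev_map {R S : Type} [CommRing R] [Algebra L R] [CommRing S] [Algebra L S]
    (φ : R →+* S) (γ : L ≃ₐ[K] L) (hφ : ∀ l : L, φ (algebraMap L R l) = algebraMap L S (γ l))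
    (σ : E →ₐ[K] L) (x : κ → R) :
    φ (ev ε σ x) = ev ε ((γ : L →ₐ[K] L).comp σ) (fun k => φ (x k)) := by
  rw [ev, map_sum, ev]
  refine Finset.sum_congr rfl fun k _ => ?_
  rw [map_mul, hφ]
  rfl

theorem ev_map' {R S : Type} [CommRing R] [Algebra L R] [CommRing S] [Algebra L S]
    (φ : R →+* S) (hφ : ∀ l : L, φ (algebraMap L R l) = algebraMap L S l)
    (σ : E →ₐ[K] L) (x : κ → R) :
    φ (ev ε σ x) = ev ε σ (fun k => φ (x k)) := by
  rw [ev, map_sum, ev]
  refine Finset.sum_congr rfl fun k _ => ?_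
  rw [map_mul, hφ]

theorem det_ne (e : κ ≃ (E →ₐ[K] L)) : (Matrix.of fun j k => e j (ε k)).det ≠ 0 := by
  intro h
  obtain ⟨v, hv0, hv⟩ := Matrix.exists_vecMul_eq_zero_iff.mpr h
  apply hv0
  have h1 : LinearIndependent L (fun s : (E →ₐ[K] L) => (fun x : E => s x)) := by
    have h2 := (linearIndependent_monoidHom E L).comp
      (fun s : (E →ₐ[K] L) => ((s : E →+* L) : E →* L)) (by
        intro s t hst
        apply AlgHom.ext
        intro l
        exact congrArg (fun g : E →* L => g l) hst)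
    exact h2
  have h3 : LinearIndependent L (fun j : κ => (fun x : E => e j x)) := h1.comp e e.injective
  rw [Fintype.linearIndependent_iff] at h3
  funext j
  refine h3 v ?_ j
  funext x
  rw [Finset.sum_apply, Pi.zero_apply]
  have h4 : ∀ k, ∑ j, v j * e j (ε k) = 0 := fun k => congrFun hv k
  have h5 : ∀ j, e j x = ∑ k, e j (ε k) * algebraMap K L (ε.repr x k) := by
    intro j
    conv_lhs => rw [← ε.sum_repr x]
    rw [map_sum]
    refine Finset.sum_congr rfl fun k _ => ?_
    rw [map_smul, Algebra.smul_def, mul_comm]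
  calc ∑ j, (v j • fun x => (e j) x) x = ∑ j, ∑ k, v j * (e j (ε k)) * algebraMap K L (ε.repr x k) := by
        refine Finset.sum_congr rfl fun j _ => ?_
        change v j * e j x = _
        rw [h5, Finset.mul_sum]
        exact Finset.sum_congr rfl fun k _ => (mul_assoc _ _ _).symm
    _ = ∑ k, (∑ j, v j * (e j (ε k))) * algebraMap K L (ε.repr x k) := by
        rw [Finset.sum_comm]
        exact Finset.sum_congr rfl fun k _ => (Finset.sum_mul _ _ _).symm
    _ = 0 := Finset.sum_eq_zero fun k _ => by rw [h4 k, zero_mul]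

/-- The matrix of the linear forms over an `L`-algebra. -/
noncomputable def AA (R : Type) [CommRing R] [Algebra L R] (e : κ ≃ (E →ₐ[K] L)) : Matrix κ κ R :=
  (Matrix.of fun j k => e j (ε k)).map (algebraMap L R)

theorem AA_unit (R : Type) [CommRing R] [Algebra L R] (e : κ ≃ (E →ₐ[K] L)) :
    IsUnit (AA ε R e).det := by
  have h : (AA ε R e).det = algebraMap L R (Matrix.of fun j k => e j (ε k)).det := by
    rw [AA, RingHom.map_det]; rfl
  rw [h]
  exact (isUnit_iff_ne_zero.mpr (det_ne ε e)).map _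

theorem AA_mulVec (R : Type) [CommRing R] [Algebra L R] (e : κ ≃ (E →ₐ[K] L)) (x : κ → R) (j : κ) :
    (AA ε R e *ᵥ x) j = ev ε (e j) x := by
  rw [Matrix.mulVec, dotProduct, ev]
  exact Finset.sum_congr rfl fun k _ => mul_comm _ _

theorem ev_injective {R : Type} [CommRing R] [Algebra L R] (e : κ ≃ (E →ₐ[K] L)) {x y : κ → R}
    (h : ∀ σ : E →ₐ[K] L, ev ε σ x = ev ε σ y) : x = y := by
  have h1 : AA ε R e *ᵥ x = AA ε R e *ᵥ y := by
    funext j
    rw [AA_mulVec, AA_mulVec, h]
  exact Matrix.mulVec_injective_of_isUnit ((Matrix.isUnit_iff_isUnit_det _).mpr (AA_unit ε R e)) h1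

theorem exists_ev {R : Type} [CommRing R] [Algebra L R] (e : κ ≃ (E →ₐ[K] L))
    (z : (E →ₐ[K] L) → R) : ∃ x : κ → R, (∀ σ, ev ε σ x = z σ) ∧
      x = (AA ε R e)⁻¹ *ᵥ fun j => z (e j) := by
  refine ⟨(AA ε R e)⁻¹ *ᵥ fun j => z (e j), fun σ => ?_, rfl⟩
  obtain ⟨j, rfl⟩ := e.surjective σ
  rw [← AA_mulVec, Matrix.mulVec_mulVec, Matrix.mul_nonsing_inv _ (AA_unit ε R e),
    Matrix.one_mulVec]

/-- The norm form is the product of the conjugate linear forms. -/
theorem normForm_eq {R : Type} [CommRing R] [Algebra K R] [Algebra L R] [IsScalarTower K L R]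
    [Fintype (E →ₐ[K] L)] (e : κ ≃ (E →ₐ[K] L)) (x : κ → R) :
    normForm ε x = ∏ σ : E →ₐ[K] L, ev ε σ x := by
  have h1 : AA ε R e * (∑ k, x k • (Algebra.leftMulMatrix ε (ε k)).map (algebraMap K R)) =
      Matrix.diagonal (fun j => ev ε (e j) x) * AA ε R e := by
    ext j k
    rw [Matrix.diagonal_mul, Matrix.mul_sum, Matrix.sum_apply, ev, Finset.sum_mul]
    refine Finset.sum_congr rfl fun l _ => ?_
    rw [Matrix.mul_smul, Matrix.smul_apply, smul_eq_mul, mul_assoc]
    congr 1
    rw [Matrix.mul_apply]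
    have h2 : ∀ i, AA ε R e j i * ((Algebra.leftMulMatrix ε (ε l)).map (algebraMap K R)) i k =
        algebraMap L R (e j ((ε.repr (ε l * ε k) i) • ε i)) := by
      intro i
      rw [Matrix.map_apply, Algebra.leftMulMatrix_eq_repr_mul, map_smul, Algebra.smul_def,
        (algebraMap L R).map_mul, mul_comm, ← IsScalarTower.algebraMap_apply K L R]
      rfl
    simp only [h2]
    rw [← map_sum, ← map_sum, ε.sum_repr, map_mul, map_mul]
    rfl
  have h2 := congrArg Matrix.det h1
  rw [Matrix.det_mul, Matrix.det_mul, Matrix.det_diagonal, mul_comm] at h2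
  have h3 := (AA_unit ε R e).mul_right_cancel h2
  rw [normForm, h3]
  exact Equiv.prod_comp e (fun σ => ev ε σ x)

include ε in
theorem exists_equiv [FiniteDimensional K E] [Algebra.IsSeparable K E]
    (hE : ∀ x : E, ((minpoly K x).map (algebraMap K L)).Splits) : Nonempty (κ ≃ (E →ₐ[K] L)) := by
  classical
  have h1 : Fintype.card (E →ₐ[K] L) = Module.finrank K E := AlgHom.card_of_splits K E L hE
  have h2 : Fintype.card κ = Module.finrank K E := (Module.finrank_eq_card_basis ε).symm
  exact ⟨Fintype.equivOfCardEq (h2.trans h1.symm)⟩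

end Pool.Agent.Zk31.DA
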