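import Pool.Agent.Zk31.CG

/-! The coefficients of `∏ x_σ - P ∏ g_σ` generate an algebraically closed subfield. -/

set_option autoImplicit false
set_option linter.unusedSectionVars false

namespace Pool.Agent.Zk31.DB

open Polynomial IntermediateField Pool.Agent.Zk31.CA Pool.Agent.Zk31.CB Pool.Agent.Zk31.CC
  Pool.Agent.Zk31.CD Pool.Agent.Zk31.CG

/-- the variables -/
abbrev V2 (S : Type) (m : ℕ) : Type := (S × Fin m) ⊕ S

/-- the polynomial ring -/
abbrev R2 (L S : Type) [Field L] (m : ℕ) : Type := MvPolynomial (V2 S m) L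

section

variable {L S : Type} [Field L] [CharZero L] [Fintype S] [DecidableEq S] (m : ℕ) (P : L[X])

variable (L) in
/-- the generic monic polynomials -/
noncomputable def x2 (g : S) : (R2 L S m)[X] :=
  X ^ m + ∑ i : Fin m, C (MvPolynomial.X (Sum.inl (g, i))) * X ^ (i : ℕ)

/-- the generic norm -/
noncomputable def f2 : (R2 L S m)[X] :=
  ∏ g : S, x2 L m g - P.map (algebraMap L (R2 L S m)) * C (∏ g : S, MvPolynomial.X (Sum.inr g))

theorem x2_monic (g : S) : (x2 L m g).Monic ∧ (x2 L m g).natDegree = m := by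
  have h1 : (∑ i : Fin m, C (MvPolynomial.X (Sum.inl (g, i)) : R2 L S m) * X ^ (i : ℕ)).degree <
      ((m : ℕ) : WithBot ℕ) := by
    rw [← mem_degreeLT]
    refine Submodule.sum_mem _ fun i _ => ?_
    rw [mem_degreeLT]
    refine lt_of_le_of_lt (degree_C_mul_X_pow_le _ _) ?_
    exact_mod_cast i.2
  refine ⟨monic_X_pow_add h1, ?_⟩
  rw [x2, natDegree_add_eq_left_of_degree_lt, natDegree_X_pow]
  rw [degree_X_pow]
  exact h1

theorem f2_monic (hP : P.natDegree < Fintype.card (S × Fin m)) :
    (f2 (S := S) m P).Monic ∧ (f2 (S := S) m P).natDegree = Fintype.card (S × Fin m) := by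
  have h1 : (∏ g : S, x2 L m g).Monic := monic_prod_of_monic _ _ fun g _ => (x2_monic m g).1
  have h2 : (∏ g : S, x2 L m g).natDegree = Fintype.card (S × Fin m) := by
    rw [natDegree_prod_of_monic _ _ fun g _ => (x2_monic m g).1]
    simp only [(x2_monic m _).2]
    simp [Fintype.card_prod]
  have h3 : (P.map (algebraMap L (R2 L S m)) *
      C (∏ g : S, MvPolynomial.X (Sum.inr g) : R2 L S m)).degree < (∏ g : S, x2 L m g).degree := by
    refine lt_of_le_of_lt degree_le_natDegree ?_
    rw [degree_eq_natDegree h1.ne_zero, h2]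
    refine lt_of_le_of_lt (Nat.cast_le.mpr ((natDegree_mul_C_le _ _).trans natDegree_map_le)) ?_
    exact_mod_cast hP
  refine ⟨h1.sub_of_left h3, ?_⟩
  rw [f2, natDegree_sub_eq_left_of_natDegree_lt, h2]
  rw [h2]
  refine lt_of_le_of_lt ((natDegree_mul_C_le _ _).trans natDegree_map_le) hP

variable {R : Type} [Field R] [Algebra L R] (r : S × Fin m → R) (h : R) (g₀ : S)

/-- the specialisation -/
noncomputable def psi2 : R2 L S m →ₐ[L] R :=
  MvPolynomial.aeval (Sum.elim (fun z => (∏ l, (X - C (r (z.1, l)))).coeff z.2)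
    (fun z => if z = g₀ then h else 1))

theorem psi2_inl (g : S) (i : Fin m) :
    psi2 (L := L) m r h g₀ (MvPolynomial.X (Sum.inl (g, i))) =
      (∏ l, (X - C (r (g, l)))).coeff i := by
  rw [psi2, MvPolynomial.aeval_X]; rfl

theorem psi2_inr (g : S) : psi2 (L := L) m r h g₀ (MvPolynomial.X (Sum.inr g)) =
    if g = g₀ then h else 1 := by
  rw [psi2, MvPolynomial.aeval_X]; rfl

theorem map_x2 (g : S) : (x2 L m g).map (psi2 (L := L) m r h g₀ : R2 L S m →+* R) =
    ∏ l, (X - C (r (g, l))) := by
  have h1 : (∏ l : Fin m, (X - C (r (g, l)))).Monic := monic_prod_of_monic _ _ fun i _ =>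
    monic_X_sub_C _
  have h2 : (∏ l : Fin m, (X - C (r (g, l)))).natDegree = m := by
    rw [natDegree_prod_of_monic _ _ fun i _ => monic_X_sub_C _]
    simp
  rw [h1.as_sum, h2, x2, Polynomial.map_add, Polynomial.map_pow, map_X, Polynomial.map_sum,
    Finset.sum_range]
  congr 1
  refine Finset.sum_congr rfl fun i _ => ?_
  rw [Polynomial.map_mul, map_C, Polynomial.map_pow, map_X]
  congr 2
  exact psi2_inl m r h g₀ g i

theorem map_f2 : (f2 (S := S) m P).map (psi2 (L := L) m r h g₀ : R2 L S m →+* R) =
    fB r h (-P) := by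
  rw [f2, Polynomial.map_sub, Polynomial.map_prod, Polynomial.map_mul, map_C, map_prod,
    Polynomial.map_map, fB]
  have h1 : (psi2 (L := L) m r h g₀ : R2 L S m →+* R).comp (algebraMap L (R2 L S m)) =
      algebraMap L R := by
    ext c
    exact (psi2 (L := L) m r h g₀).commutes c
  have h2 : ∏ x : S, (psi2 (L := L) m r h g₀ : R2 L S m →+* R) (MvPolynomial.X (Sum.inr x)) = h := by
    have h3 : ∀ x : S, (psi2 (L := L) m r h g₀ : R2 L S m →+* R) (MvPolynomial.X (Sum.inr x)) =
        if x = g₀ then h else 1 := fun x => psi2_inr m r h g₀ x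
    simp only [h3]
    rw [Finset.prod_ite_eq' Finset.univ, if_pos (Finset.mem_univ _)]
  rw [h1, h2, Fintype.prod_prod_type, sub_eq_add_neg, Polynomial.map_neg]
  congr 1
  · exact Finset.prod_congr rfl fun g _ => map_x2 m r h g₀ g
  · ring

variable (W : Type) [Field W] [Algebra (R2 L S m) W] [IsFractionRing (R2 L S m) W] [Algebra L W]
  [IsScalarTower L (R2 L S m) W]

/-- **The coefficients of the generic norm generate an algebraically closed subfield.** -/
theorem relB [Nonempty S] (hm : 2 ≤ m) (h5 : 5 ≤ Fintype.card (S × Fin m)) (hP0 : P ≠ 0)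
    (hP : P.natDegree < Fintype.card (S × Fin m)) :
    AlgebraicIndependent L
      (fun j : Fin (Fintype.card (S × Fin m)) => algebraMap (R2 L S m) W ((f2 m P).coeff j)) ∧
    ∀ z : W, IsAlgebraic (adjoin L (Set.range fun j : Fin (Fintype.card (S × Fin m)) =>
        algebraMap (R2 L S m) W ((f2 m P).coeff j))) z →
      z ∈ adjoin L (Set.range fun j : Fin (Fintype.card (S × Fin m)) =>
        algebraMap (R2 L S m) W ((f2 m P).coeff j)) := by
  classical
  obtain ⟨g₀⟩ := (inferInstance : Nonempty S)
  obtain ⟨R, _, _, _, _, r, h, hind, hgen, hr, hh⟩ := exists_perm_field L (S × Fin m)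
  let ψ : R2 L S m →ₐ[L] R := psi2 m r h g₀
  have hB : -P ≠ 0 := neg_ne_zero.mpr hP0
  have hd : (-P).natDegree < Fintype.card (S × Fin m) := by rwa [natDegree_neg]
  have hmap : (f2 m P).map (ψ : R2 L S m →+* R) = fB r h (-P) := map_f2 m P r h g₀
  have hc : ∀ j : ℕ, ψ ((f2 m P).coeff j) = (fB r h (-P)).coeff j := by
    intro j
    rw [← hmap, coeff_map]
    rfl
  have hAB : adjoin L (Set.range fun j : Fin (Fintype.card (S × Fin m)) =>
      ψ ((f2 m P).coeff j)) = AB r h (-P) := by
    rw [AB_eq r h (-P) hd]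
    congr 2
    funext j
    exact hc j
  have hci : AlgebraicIndependent L (fun j : Fin (Fintype.card (S × Fin m)) =>
      ψ ((f2 m P).coeff j)) := by
    have h3 := (indep_coeff r h (-P) hd hind hgen).comp some (Option.some_injective _)
    convert h3 using 2
    rename_i j
    exact hc j
  -- invariance under a transposition
  let i₀ : Fin m := ⟨0, by omega⟩
  let i₁ : Fin m := ⟨1, by omega⟩
  have hi : i₀ ≠ i₁ := fun h => by simpa [i₀, i₁] using congrArg Fin.val h
  have hinv : ∀ w, Equiv.swap (g₀, i₀) (g₀, i₁) • ψ w = ψ w := by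
    intro w
    have h3 : (act L (Equiv.swap (g₀, i₀) (g₀, i₁))).comp ψ = ψ := by
      apply MvPolynomial.algHom_ext
      rintro (⟨g, i⟩ | g)
      · rw [AlgHom.comp_apply]
        change Equiv.swap (g₀, i₀) (g₀, i₁) • psi2 (L := L) m r h g₀ (MvPolynomial.X (Sum.inl (g, i))) =
          psi2 (L := L) m r h g₀ (MvPolynomial.X (Sum.inl (g, i)))
        rw [psi2_inl]
        have h4 : (∏ l, (X - C (r (g, l)))).map
            (act (R := R) L (Equiv.swap (g₀, i₀) (g₀, i₁)) : R →+* R) =
            ∏ l, (X - C (r (g, l))) := by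
          rw [Polynomial.map_prod]
          simp only [Polynomial.map_sub, map_X, map_C]
          by_cases hg : g = g₀
          · subst hg
            rw [← Equiv.prod_comp (Equiv.swap i₀ i₁) (fun l => X - C (r (g, l)))]
            refine Finset.prod_congr rfl fun l _ => ?_
            have h5 : (act (R := R) L (Equiv.swap (g, i₀) (g, i₁)) : R →+* R) (r (g, l)) =
                r (Equiv.swap (g, i₀) (g, i₁) (g, l)) := hr _ _
            rw [h5]
            congr 3
            by_cases h6 : l = i₀
            · rw [h6, Equiv.swap_apply_left, Equiv.swap_apply_left]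
            · by_cases h7 : l = i₁
              · rw [h7, Equiv.swap_apply_right, Equiv.swap_apply_right]
              · rw [Equiv.swap_apply_of_ne_of_ne, Equiv.swap_apply_of_ne_of_ne h6 h7]
                · exact fun h => h6 (congrArg Prod.snd h)
                · exact fun h => h7 (congrArg Prod.snd h)
          · refine Finset.prod_congr rfl fun l _ => ?_
            have h5 : (act (R := R) L (Equiv.swap (g₀, i₀) (g₀, i₁)) : R →+* R) (r (g, l)) =
                r (Equiv.swap (g₀, i₀) (g₀, i₁) (g, l)) := hr _ _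
            rw [h5, Equiv.swap_apply_of_ne_of_ne]
            · exact fun h => hg (congrArg Prod.fst h)
            · exact fun h => hg (congrArg Prod.fst h)
        have h5 := congrArg (fun p : R[X] => p.coeff i) h4
        simp only [coeff_map] at h5
        exact h5
      · rw [AlgHom.comp_apply]
        change Equiv.swap (g₀, i₀) (g₀, i₁) • psi2 (L := L) m r h g₀ (MvPolynomial.X (Sum.inr g)) =
          psi2 (L := L) m r h g₀ (MvPolynomial.X (Sum.inr g))
        rw [psi2_inr]
        split_ifs
        · exact hh _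
        · exact smul_one _
    exact congrArg (fun φ : R2 L S m →ₐ[L] R => φ w) h3
  have hspec := spec (W := W) ψ (fun j : Fin (Fintype.card (S × Fin m)) => (f2 m P).coeff j)
    hci (by
      intro w hw
      rw [hAB] at hw ⊢
      exact root_main r h (-P) hB hd hind hgen hr hh h5 (i := (g₀, i₀)) (j := (g₀, i₁))
        (fun h => hi (congrArg Prod.snd h)) _ hw (hinv w))
  refine ⟨?_, hspec⟩
  have h3 : AlgebraicIndependent L (fun j : Fin (Fintype.card (S × Fin m)) =>
      (f2 m P).coeff j) := AlgebraicIndependent.of_comp ψ hci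
  exact h3.map' (f := IsScalarTower.toAlgHom L (R2 L S m) W) (IsFractionRing.injective _ W)

end

end Pool.Agent.Zk31.DB
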