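import Pool.Agent.Zk31.QB
import Pool.Agent.TH178.HI.CritFin
import Pool.Agent.W333.HP.BC0

/-! From proper solutions of an embedding problem to the Hilbert property of the quotient. -/

set_option autoImplicit false
set_option linter.unusedSectionVars false

namespace Pool.Agent.Zk31.QC

open IntermediateField Pool.Agent.TH178.HI Pool.Agent.Zk31.QA Pool.Agent.Zk31.QB
open Polynomial W560.HP

/-- The conclusion of `HPF` for polynomials which have no roots in an extension with `HPF`. -/
theorem hpf_pull {k K T : Type} [Field k] [Field K] [Algebra k K] [Field T] [Algebra k T]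
    (κ : K →ₐ[k] T) (hT : HPF k T) (q : ℕ) (P : Fin q → K[X])
    (hP : ∀ (j : Fin q) (x : T), ((P j).map (κ : K →+* T)).eval x ≠ 0) (S : Finset K) :
    ∃ (B : Subalgebra k K) (φ : B →ₐ[k] k) (P' : Fin q → B[X]),
      (S : Set K) ⊆ B ∧ (∀ j, (P' j).map (algebraMap B K) = P j) ∧
      ∀ (j : Fin q) (x : k), ((P' j).map (φ : B →+* k)).eval x ≠ 0 := by
  classical
  obtain ⟨Bs, φ, P', hS, hP', hφ⟩ := hT q (fun j => (P j).map (κ : K →+* T)) hP (S.image κ)
  let B₀ : Subalgebra k K := Bs.comap κ
  let κ₀ : B₀ →ₐ[k] Bs := (κ.comp B₀.val).codRestrict Bs fun x => x.2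
  have hcoef : ∀ j (m : ℕ), (P j).coeff m ∈ B₀ := by
    intro j m
    change κ ((P j).coeff m) ∈ Bs
    have h1 := congrArg (fun p : T[X] => p.coeff m) (hP' j)
    simp only [coeff_map] at h1
    rw [show κ ((P j).coeff m) = algebraMap Bs T ((P' j).coeff m) from h1.symm]
    exact ((P' j).coeff m).2
  have hex : ∀ j, ∃ p : B₀[X], p.map (algebraMap B₀ K) = P j := by
    intro j
    have h1 : P j ∈ lifts (algebraMap B₀ K) := by
      rw [lifts_iff_coeff_lifts]
      intro m
      exact ⟨⟨_, hcoef j m⟩, rfl⟩
    exact h1
  choose P₀ hP₀ using hex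
  refine ⟨B₀, φ.comp κ₀, P₀, ?_, hP₀, ?_⟩
  · intro s hs
    change κ s ∈ Bs
    apply hS
    rw [Finset.coe_image]
    exact ⟨s, hs, rfl⟩
  · intro j x
    have h1 : (P₀ j).map (κ₀ : B₀ →+* Bs) = P' j := by
      apply map_injective (algebraMap Bs T) Subtype.val_injective
      rw [hP', ← hP₀ j, Polynomial.map_map, Polynomial.map_map]
      rfl
    have h2 : ((P₀ j).map ((φ.comp κ₀ : B₀ →ₐ[k] k) : B₀ →+* k)) =
        (P' j).map (φ : Bs →+* k) := by
      rw [← h1, Polynomial.map_map]
      rfl
    rw [h2]
    exact hφ j x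

/-- `HPF` descends to relatively algebraically closed subfields. -/
theorem hpf_relcl {k K T : Type} [Field k] [Field K] [Algebra k K] [Field T] [Algebra k T]
    (κ : K →ₐ[k] T) (hκ : ∀ z : T, IsAlgebraic κ.fieldRange z → z ∈ κ.fieldRange)
    (hT : HPF k T) : HPF k K := by
  intro q P hP S
  refine hpf_pull κ hT q P ?_ S
  intro j x hx
  have hP0 : P j ≠ 0 := by
    intro h
    apply hP j 0
    rw [h, eval_zero]
  have h1 : IsAlgebraic κ.fieldRange x := by
    let κr : K →+* κ.fieldRange := (κ : K →+* T).codRestrict κ.fieldRange (fun y => ⟨y, rfl⟩)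
    refine ⟨(P j).map κr, ?_, ?_⟩
    · rwa [Ne, Polynomial.map_eq_zero]
    · rw [aeval_def, eval₂_map, ← eval_map]
      exact hx
  obtain ⟨y, hy⟩ := hκ x h1
  apply hP j y
  apply κ.injective
  rw [map_zero, ← hx, ← hy]
  exact (eval_map_apply (κ : K →+* T) y).symm

/-- The extension `N` of `L` is a solution field of the embedding problem `α : B → Gal(L/k)`: it is
a finite Galois extension of `k` with an isomorphism `Gal(N/k) ≃ B` which transforms `α` into the
restriction to `L`. -/
def SolField (k L B N : Type) [Field k] [Field L] [Field N] [Algebra k L] [Algebra k N]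
    [Algebra L N] [Group B] (α : B →* (L ≃ₐ[k] L)) : Prop :=
  FiniteDimensional k N ∧ IsGalois k N ∧ ∃ γ : (N ≃ₐ[k] N) ≃* B,
    ∀ (σ : N ≃ₐ[k] N) (l : L), σ (algebraMap L N l) = algebraMap L N (α (γ σ) l)

/-- The embedding problem `α : B → Gal(L/k)` has solution fields `N` linearly disjoint over `L`
from every given finite extension `E` of `L`. -/
def Sols (k L B : Type) [Field k] [Field L] [Algebra k L] [Group B] (α : B →* (L ≃ₐ[k] L)) :
    Prop :=
  ∀ E : IntermediateField L (AlgebraicClosure L), FiniteDimensional L E →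
    ∃ N : IntermediateField L (AlgebraicClosure L), N ⊓ E = ⊥ ∧ SolField k L B N α

section

variable {k F L B : Type} [Field k] [Field F] [Field L] [CharZero k]
  [Algebra k F] [Algebra k L] [Algebra L F] [IsScalarTower k L F] [FiniteDimensional k L]
  [Group B] [MulSemiringAction B F] [SMulCommClass B k F]

/-- The general twisting principle: let the finite group `B` act on `F` over `k`, semilinearly over
`L`; assume that for every finite extension `E` of `L` there is a proper solution `N` of
`α : B → Gal(L/k)`, disjoint from `E`, such that the twist of `F` by `N` has the property `HPF`.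
Then the field of invariants of `B` has the property `HPF`. -/
theorem hpf_twist [Algebra.EssFiniteType k F] (α : B →* (L ≃ₐ[k] L))
    (hα : ∀ (b : B) (l : L), b • algebraMap L F l = algebraMap L F (α b l))
    (hLF : ∀ y : F, IsAlgebraic L y → y ∈ Set.range (algebraMap L F))
    {Ω : Type} [Field Ω] [Algebra F Ω] [IsAlgClosed Ω] [Algebra.IsAlgebraic F Ω]
    [Algebra k Ω] [IsScalarTower k F Ω] [Algebra L Ω] [IsScalarTower L F Ω]
    (j : AlgebraicClosure L →ₐ[L] Ω)
    (hsol : ∀ E : IntermediateField L (AlgebraicClosure L), FiniteDimensional L E →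
      ∃ N : IntermediateField L (AlgebraicClosure L), ∃ _ : FiniteDimensional k N,
        ∃ _ : IsGalois k N, N ⊓ E = ⊥ ∧ ∃ γ : (N ≃ₐ[k] N) ≃* B,
        (∀ (σ : N ≃ₐ[k] N) (l : L), σ (algebraMap L N l) = algebraMap L N (α (γ σ) l)) ∧
        letI : Algebra N Ω := (j.comp N.val).toRingHom.toAlgebra
        HPF k (fixedField (DD (F := F) (Ω := Ω) k γ))) :
    HPF k (FixedPoints.intermediateField B : IntermediateField k F) := by
  classical
  obtain ⟨K, hK⟩ : ∃ K : IntermediateField k F, K = FixedPoints.intermediateField B := ⟨_, rfl⟩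
  rw [← hK]
  intro q P hP S
  have hP0 : ∀ j, P j ≠ 0 := fun j h => hP j 0 (by rw [h, eval_zero])
  let iK : K →+* Ω := (algebraMap F Ω).comp (algebraMap K F)
  let Rts : Finset Ω := Finset.univ.biUnion fun i => ((P i).map iK).roots.toFinset
  let R : IntermediateField F Ω := adjoin F (Rts : Set Ω)
  have hRfin : FiniteDimensional F R :=
    IntermediateField.finiteDimensional_adjoin fun x _ =>
      (Algebra.IsAlgebraic.isAlgebraic (R := F) x).isIntegral
  have htkR : IsScalarTower k F R := IsScalarTower.of_algebraMap_eq fun x => by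
    apply (algebraMap R Ω).injective
    change algebraMap k Ω x = algebraMap F Ω (algebraMap k F x)
    rw [← IsScalarTower.algebraMap_apply]
  have htkR2 : IsScalarTower k R Ω := IsScalarTower.of_algebraMap_eq fun x => rfl
  have hRess : Algebra.EssFiniteType k R := Algebra.EssFiniteType.comp k F R
  have hC : FiniteDimensional k (algebraicClosure k R) := finite_closure k R
  have htk : IsScalarTower k L Ω := IsScalarTower.of_algebraMap_eq fun x => by
    rw [IsScalarTower.algebraMap_apply k F Ω, IsScalarTower.algebraMap_apply L F Ω,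
      ← IsScalarTower.algebraMap_apply k L F]
  let RL : IntermediateField L Ω := R.restrictScalars L
  let E : IntermediateField L (AlgebraicClosure L) := RL.comap j
  have hEk : FiniteDimensional k E := by
    let g : E →ₗ[k] algebraicClosure k R :=
      { toFun := fun c => ⟨⟨j c, c.2⟩, by
          rw [mem_algebraicClosure_iff]
          have h1 : IsAlgebraic L ((c : AlgebraicClosure L)) :=
            Algebra.IsAlgebraic.isAlgebraic _
          have h2 : IsAlgebraic k ((c : AlgebraicClosure L)) := h1.restrictScalars k
          have h3 : IsAlgebraic k (j c) := h2.algHom (j.restrictScalars k)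
          exact (isAlgebraic_algebraMap_iff (A := Ω) (algebraMap R Ω).injective).mp h3⟩
        map_add' := fun a b => by
          apply Subtype.ext
          apply Subtype.ext
          exact map_add j (a : AlgebraicClosure L) b
        map_smul' := fun a b => by
          apply Subtype.ext
          apply Subtype.ext
          exact map_smul (j.restrictScalars k) a (b : AlgebraicClosure L) }
    refine Module.Finite.of_injective g ?_
    intro a b hab
    apply Subtype.ext
    apply j.injective
    exact congrArg (fun z : algebraicClosure k R => ((z : R) : Ω)) hab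
  have hEL : FiniteDimensional L E := Module.Finite.of_restrictScalars_finite k L E
  obtain ⟨N, hN1, hN2, hNE, γ, hγ, hHPF⟩ := hsol E hEL
  let _ : Algebra N Ω := (j.comp N.val).toRingHom.toAlgebra
  have ht1 : IsScalarTower L N Ω := IsScalarTower.of_algebraMap_eq fun l =>
    ((j.comp N.val).commutes l).symm
  have ht2 : IsScalarTower k N Ω := IsScalarTower.of_algebraMap_eq fun l => by
    rw [IsScalarTower.algebraMap_apply k L Ω, IsScalarTower.algebraMap_apply L N Ω,
      ← IsScalarTower.algebraMap_apply k L N]
  let T : IntermediateField k Ω := fixedField (DD (F := F) (Ω := Ω) k γ)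
  have hHPF' : HPF k T := hHPF
  have hγ' : ∀ (σ : N ≃ₐ[k] N) (l : L), algebraMap L N (α (γ σ) l) = σ (algebraMap L N l) :=
    fun σ l => (hγ σ l).symm
  have hKT : ∀ c : K, iK c ∈ T := by
    intro c
    rw [mem_fixedField_iff]
    rintro σ ⟨s, -, h2⟩
    change σ (algebraMap F Ω (c : F)) = algebraMap F Ω (c : F)
    have h3 : (c : F) ∈ (FixedPoints.intermediateField B : IntermediateField k F) := by
      rw [← hK]; exact c.2
    rw [h2, (FixedPoints.mem_intermediateField_iff).mp h3]
  let κ : K →ₐ[k] T :=
    { toFun := fun c => ⟨iK c, hKT c⟩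
      map_one' := Subtype.ext (map_one iK)
      map_mul' := fun a b => Subtype.ext (map_mul iK a b)
      map_zero' := Subtype.ext (map_zero iK)
      map_add' := fun a b => Subtype.ext (map_add iK a b)
      commutes' := fun a => Subtype.ext (by
        change algebraMap F Ω (algebraMap k F a) = algebraMap k Ω a
        rw [← IsScalarTower.algebraMap_apply]) }
  refine hpf_pull κ hHPF' q P ?_ S
  intro i θ hθ
  have hroot : ((P i).map iK).eval (θ : Ω) = 0 := by
    have h1 := congrArg (algebraMap T Ω) hθ
    rw [map_zero, ← eval_map_apply, Polynomial.map_map] at h1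
    exact h1
  have hθR : (θ : Ω) ∈ R := by
    apply subset_adjoin
    rw [Finset.mem_coe, Finset.mem_biUnion]
    refine ⟨i, Finset.mem_univ i, ?_⟩
    rw [Multiset.mem_toFinset, mem_roots]
    · exact hroot
    · rw [Ne, Polynomial.map_eq_zero]
      exact hP0 i
  obtain ⟨f, hf⟩ := mem_F_of_disjoint (k := k) (L := L) (N := N) (γ := γ) R (fun n hn => by
    have h1 : (n : AlgebraicClosure L) ∈ N ⊓ E := ⟨n.2, hn⟩
    rw [hNE, IntermediateField.mem_bot] at h1
    obtain ⟨l, hl⟩ := h1
    exact ⟨l, Subtype.ext hl⟩) (θ : Ω) hθR θ.2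
  have hfT : algebraMap F Ω f ∈ T := hf ▸ θ.2
  have hfK : f ∈ K := by
    rw [hK, FixedPoints.mem_intermediateField_iff]
    exact fixed_F α hα hγ' hLF f hfT
  apply hP i ⟨f, hfK⟩
  apply iK.injective
  rw [map_zero, ← eval_map_apply, ← hroot, ← hf]
  rfl

variable [Finite B] {ι : Type} [Finite ι]

/-- From disjoint proper solutions to the Hilbert property of the field of invariants of a
semilinear action. -/
theorem hpf_of_sols (α : B →* (L ≃ₐ[k] L))
    (hα : ∀ (b : B) (l : L), b • algebraMap L F l = algebraMap L F (α b l))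
    (x : ι → F) (hx : AlgebraicIndependent L x) (hxt : adjoin L (Set.range x) = ⊤)
    (hst : ∀ (b : B) (i : ι), b • x i ∈ Submodule.span L (Set.range x))
    (hsol : Sols k L B α) (hN : HilbNR k) :
    HPF k (FixedPoints.intermediateField B : IntermediateField k F) := by
  have hess : Algebra.EssFiniteType k F := by
    have h1 : Algebra.EssFiniteType L F := by
      have h2 : (⊤ : IntermediateField L F).FG := by
        rw [← hxt]
        exact IntermediateField.fg_adjoin_of_finite (Set.finite_range x)
      exact IntermediateField.fg_top_iff.mp h2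
    exact Algebra.EssFiniteType.comp k L F
  have hLF : ∀ y : F, IsAlgebraic L y → y ∈ Set.range (algebraMap L F) := fun y hy =>
    Pool.Agent.W333.HP.bc0 L F ι x hx y (by rw [hxt]; trivial) hy
  let j : AlgebraicClosure L →ₐ[L] AlgebraicClosure F := IsAlgClosed.lift
  refine hpf_twist α hα hLF j fun E hE => ?_
  obtain ⟨N, h3, h1, h2, γ, h4⟩ := hsol E hE
  refine ⟨N, h1, h2, h3, γ, h4, ?_⟩
  let _ : Algebra N (AlgebraicClosure F) := (j.comp N.val).toRingHom.toAlgebra
  have ht1 : IsScalarTower L N (AlgebraicClosure F) := IsScalarTower.of_algebraMap_eq fun l =>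
    ((j.comp N.val).commutes l).symm
  have ht2 : IsScalarTower k N (AlgebraicClosure F) := IsScalarTower.of_algebraMap_eq fun l => by
    rw [IsScalarTower.algebraMap_apply k L (AlgebraicClosure F),
      IsScalarTower.algebraMap_apply L N (AlgebraicClosure F),
      ← IsScalarTower.algebraMap_apply k L N]
  have hp := pure_twist (Ω := AlgebraicClosure F) α hα (fun σ l => (h4 σ l).symm) hLF x
    (hx.restrictScalars (algebraMap k L).injective) hxt hst
  have hR : Realizable k (fixedField (DD (F := F) (Ω := AlgebraicClosure F) k γ)) := by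
    refine ⟨AlgebraicClosure F, inferInstance, inferInstance, _, IntermediateField.val _, hp,
      ?_, ?_⟩
    · rw [IntermediateField.fieldRange_val]
    · rw [IntermediateField.fieldRange_val]
      exact fun z hz _ => hz
  exact hR.hpf hN

end

end Pool.Agent.Zk31.QC
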