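import Pool.Agent.Zk31.QB
import Pool.Agent.Zk31.QC

/-! Semilinear permutation actions on fields of rational functions. -/

set_option autoImplicit false
set_option linter.unusedSectionVars false

namespace Pool.Agent.Zk31.DC

open IntermediateField Pool.Agent.TH178.HI Pool.Agent.Zk31.QA Pool.Agent.Zk31.QB

/-- The field of rational functions over `L` in variables permuted by `Gal(L/K)`, with the
semilinear action. -/
theorem exists_W (K L V : Type) [Field K] [Field L] [Algebra K L]
    (p : (L ≃ₐ[K] L) →* Equiv.Perm V) :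
    ∃ (W : Type) (_ : Field W) (_ : Algebra L W) (_ : Algebra K W) (_ : IsScalarTower K L W)
      (_ : Algebra (MvPolynomial V L) W) (_ : IsFractionRing (MvPolynomial V L) W)
      (_ : IsScalarTower L (MvPolynomial V L) W) (_ : MulSemiringAction (L ≃ₐ[K] L) W)
      (_ : SMulCommClass (L ≃ₐ[K] L) K W),
      (∀ (σ : L ≃ₐ[K] L) (l : L), σ • algebraMap L W l = algebraMap L W (σ l)) ∧
      ∀ (σ : L ≃ₐ[K] L) (v : V), σ • algebraMap (MvPolynomial V L) W (MvPolynomial.X v) =
        algebraMap (MvPolynomial V L) W (MvPolynomial.X (p σ v)) := by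
  let R := MvPolynomial V L
  let W := FractionRing R
  let g0 : (L ≃ₐ[K] L) → (R →ₐ[K] R) := fun σ =>
    ((MvPolynomial.rename (p σ) : R →ₐ[L] R).restrictScalars K).comp
      (MvPolynomial.mapAlgHom (σ : L →ₐ[K] L))
  have g0C : ∀ (σ : L ≃ₐ[K] L) (c : L), g0 σ (MvPolynomial.C c) = MvPolynomial.C (σ c) := by
    intro σ c
    change MvPolynomial.rename (p σ) (MvPolynomial.map ((σ : L →ₐ[K] L) : L →+* L)
      (MvPolynomial.C c)) = _
    rw [MvPolynomial.map_C, MvPolynomial.rename_C]
    rfl
  have g0X : ∀ (σ : L ≃ₐ[K] L) (v : V), g0 σ (MvPolynomial.X v) = MvPolynomial.X (p σ v) := by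
    intro σ v
    change MvPolynomial.rename (p σ) (MvPolynomial.map ((σ : L →ₐ[K] L) : L →+* L)
      (MvPolynomial.X v)) = _
    rw [MvPolynomial.map_X, MvPolynomial.rename_X]
  have hext : ∀ φ χ : R →ₐ[K] R, (∀ c, φ (MvPolynomial.C c) = χ (MvPolynomial.C c)) →
      (∀ v, φ (MvPolynomial.X v) = χ (MvPolynomial.X v)) → φ = χ := by
    intro φ χ h1 h2
    apply AlgHom.coe_ringHom_injective
    apply MvPolynomial.ringHom_ext
    · exact h1
    · exact h2
  have g0mul : ∀ σ τ, g0 (σ * τ) = (g0 σ).comp (g0 τ) := by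
    intro σ τ
    apply hext
    · intro c
      change g0 (σ * τ) (MvPolynomial.C c) = g0 σ (g0 τ (MvPolynomial.C c))
      rw [g0C, g0C, g0C]
      rfl
    · intro v
      change g0 (σ * τ) (MvPolynomial.X v) = g0 σ (g0 τ (MvPolynomial.X v))
      rw [g0X, g0X, g0X, map_mul]
      rfl
  have g0one : g0 1 = AlgHom.id K R := by
    apply hext
    · intro c
      rw [g0C]
      rfl
    · intro v
      rw [g0X, map_one]
      rfl
  let f1 : (L ≃ₐ[K] L) →* (R ≃ₐ[K] R) :=
    { toFun := fun σ => AlgEquiv.ofAlgHom (g0 σ) (g0 σ⁻¹)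
        (by rw [← g0mul, mul_inv_cancel, g0one]) (by rw [← g0mul, inv_mul_cancel, g0one])
      map_one' := by
        apply AlgEquiv.ext
        intro z
        change g0 1 z = z
        rw [g0one]
        rfl
      map_mul' := fun σ τ => by
        apply AlgEquiv.ext
        intro z
        change g0 (σ * τ) z = g0 σ (g0 τ z)
        rw [g0mul]
        rfl }
  let f2 : (R ≃ₐ[K] R) →* (W ≃ₐ[K] W) := IsFractionRing.fieldEquivOfAlgEquivHom K W
  let f := f2.comp f1
  let act : MulSemiringAction (L ≃ₐ[K] L) W := MulSemiringAction.compHom W f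
  have hact : ∀ (g : L ≃ₐ[K] L) (z : W), g • z = f g z := fun g z => rfl
  have hX : ∀ (g : L ≃ₐ[K] L) (q : R), g • algebraMap R W q = algebraMap R W (f1 g q) :=
    fun g q => IsFractionRing.fieldEquivOfAlgEquiv_algebraMap K W W (f1 g) q
  have hcomm : SMulCommClass (L ≃ₐ[K] L) K W := ⟨fun g c z => by
    rw [hact, hact, map_smul]⟩
  refine ⟨W, inferInstance, inferInstance, inferInstance, inferInstance, inferInstance,
    inferInstance, inferInstance, act, hcomm, ?_, ?_⟩
  · intro σ l
    have h1 : ∀ c : L, algebraMap L W c = algebraMap R W (MvPolynomial.C c) := fun c =>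
      IsScalarTower.algebraMap_apply L R W c
    rw [h1, hX, h1]
    congr 1
    exact g0C σ l
  · intro σ v
    rw [hX]
    congr 1
    exact g0X σ v

section

variable {K L V : Type} [Field K] [CharZero K] [Field L] [Algebra K L] [FiniteDimensional K L]
  [IsGalois K L] [Finite V]
  {W : Type} [Field W] [Algebra L W] [Algebra K W] [IsScalarTower K L W]
  [Algebra (MvPolynomial V L) W] [IsFractionRing (MvPolynomial V L) W]
  [IsScalarTower L (MvPolynomial V L) W] [MulSemiringAction (L ≃ₐ[K] L) W]
  [SMulCommClass (L ≃ₐ[K] L) K W] (p : (L ≃ₐ[K] L) →* Equiv.Perm V)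
  (hL : ∀ (σ : L ≃ₐ[K] L) (l : L), σ • algebraMap L W l = algebraMap L W (σ l))
  (hX : ∀ (σ : L ≃ₐ[K] L) (v : V), σ • algebraMap (MvPolynomial V L) W (MvPolynomial.X v) =
    algebraMap (MvPolynomial V L) W (MvPolynomial.X (p σ v)))

include hL hX in
/-- The field of invariants is purely transcendental. -/
theorem pure_inv : Pure (FixedPoints.intermediateField (L ≃ₐ[K] L) : IntermediateField K W) := by
  classical
  let x : V → W := fun v => algebraMap (MvPolynomial V L) W (MvPolynomial.X v)
  have hx : AlgebraicIndependent L x :=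
    (MvPolynomial.algebraicIndependent_X V L).map'
      (f := IsScalarTower.toAlgHom L (MvPolynomial V L) W) (IsFractionRing.injective _ W)
  have hxt : adjoin L (Set.range x) = ⊤ := by
    rw [eq_top_iff]
    rintro z -
    obtain ⟨a, d, -, rfl⟩ := IsFractionRing.div_surjective (A := MvPolynomial V L) (K := W) z
    have hmem : ∀ a : MvPolynomial V L, algebraMap (MvPolynomial V L) W a ∈
        adjoin L (Set.range x) := by
      intro a
      induction a using MvPolynomial.induction_on with
      | C c =>
        have h1 : algebraMap (MvPolynomial V L) W (MvPolynomial.C c) = algebraMap L W c :=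
          (IsScalarTower.algebraMap_apply L (MvPolynomial V L) W c).symm
        rw [h1]
        exact IntermediateField.algebraMap_mem _ c
      | add p q hp hq => rw [map_add]; exact add_mem hp hq
      | mul_X p g hp =>
        rw [map_mul]
        exact mul_mem hp (subset_adjoin _ _ ⟨g, rfl⟩)
    exact IntermediateField.div_mem _ (hmem a) (hmem d)
  have hLF : ∀ y : W, IsAlgebraic L y → y ∈ Set.range (algebraMap L W) := fun y hy =>
    Pool.Agent.W333.HP.bc0 L W V x hx y (by rw [hxt]; trivial) hy
  let Ω := AlgebraicClosure W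
  have hst : ∀ (b : L ≃ₐ[K] L) (i : V), b • x i ∈ Submodule.span L (Set.range x) := fun b i => by
    rw [show b • x i = x (p b i) from hX b i]
    exact Submodule.subset_span ⟨_, rfl⟩
  have hp := pure_twist (Ω := Ω) (B := L ≃ₐ[K] L) (N := L) (L := L) (γ := MulEquiv.refl _)
    (MonoidHom.id _) hL (fun σ l => rfl) hLF x (hx.restrictScalars (algebraMap K L).injective)
    hxt hst
  have hmap : fixedField (DD (F := W) (Ω := Ω) K (MulEquiv.refl (L ≃ₐ[K] L))) =
      (FixedPoints.intermediateField (L ≃ₐ[K] L) : IntermediateField K W).map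
        (IsScalarTower.toAlgHom K W Ω) := by
    have hgal : IsGalois W Ω := 
      { to_isSeparable := by
          have : CharZero W := charZero_of_injective_algebraMap (algebraMap K W).injective
          infer_instance
        to_normal := IsAlgClosure.normal W Ω }
    apply le_antisymm
    · intro z hz
      rw [mem_fixedField_iff] at hz
      have h1 : z ∈ Set.range (algebraMap W Ω) := by
        rw [InfiniteGalois.mem_range_algebraMap_iff_fixed]
        intro τ
        refine hz (τ.restrictScalars K) ⟨1, fun n => ?_, fun w => ?_⟩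
        · change τ (algebraMap L Ω n) = algebraMap L Ω n
          rw [IsScalarTower.algebraMap_apply L W Ω]
          exact τ.commutes _
        · change τ (algebraMap W Ω w) = algebraMap W Ω ((1 : L ≃ₐ[K] L) • w)
          rw [one_smul]
          exact τ.commutes w
      obtain ⟨w, rfl⟩ := h1
      refine ⟨w, ?_, rfl⟩
      intro σ
      obtain ⟨τ, hτ1, hτ2⟩ := exists_lift W Ω (N := L) (L := L) (γ := MulEquiv.refl (L ≃ₐ[K] L))
        (MonoidHom.id _) hL (fun σ l => rfl) hLF σ
      have h2 := hz τ ⟨σ, hτ1, hτ2⟩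
      change τ (algebraMap W Ω w) = algebraMap W Ω w at h2
      rw [hτ2] at h2
      exact (algebraMap W Ω).injective h2
    · rintro _ ⟨w, hw, rfl⟩
      rw [mem_fixedField_iff]
      rintro τ ⟨σ, h1, h2⟩
      change τ (algebraMap W Ω w) = algebraMap W Ω w
      rw [h2]
      congr 1
      exact hw _
  rw [hmap] at hp
  obtain ⟨ι, hι, y, hy1, hy2⟩ := hp
  have h1 : ∀ i, ∃ w : W, algebraMap W Ω w = y i ∧
      w ∈ (FixedPoints.intermediateField (L ≃ₐ[K] L) : IntermediateField K W) := by
    intro i
    have h2 : y i ∈ (FixedPoints.intermediateField (L ≃ₐ[K] L) : IntermediateField K W).map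
        (IsScalarTower.toAlgHom K W Ω) := by
      rw [← hy2]
      exact subset_adjoin _ _ ⟨i, rfl⟩
    obtain ⟨w, hw, h3⟩ := h2
    exact ⟨w, h3, hw⟩
  choose w hw1 hw2 using h1
  refine ⟨ι, hι, w, ?_, ?_⟩
  · have h3 : (fun i => IsScalarTower.toAlgHom K W Ω (w i)) = y := funext hw1
    apply AlgebraicIndependent.of_comp (IsScalarTower.toAlgHom K W Ω)
    change AlgebraicIndependent K (fun i => IsScalarTower.toAlgHom K W Ω (w i))
    rw [h3]
    exact hy1
  · apply IntermediateField.map_injective (IsScalarTower.toAlgHom K W Ω)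
    rw [← hy2, IntermediateField.adjoin_map]
    congr 1
    ext z
    constructor
    · rintro ⟨_, ⟨i, rfl⟩, rfl⟩
      exact ⟨i, (hw1 i).symm⟩
    · rintro ⟨i, rfl⟩
      exact ⟨w i, ⟨i, rfl⟩, hw1 i⟩

end

end Pool.Agent.Zk31.DC
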