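import Pool.Agent.Zk31.DA
import Pool.Agent.Zk31.DB
import Pool.Agent.Zk31.DC

/-! Descent of relative algebraic closedness, and the main lemma on norm forms. -/

set_option autoImplicit false
set_option linter.unusedSectionVars false

namespace Pool.Agent.Zk31.DD

open Polynomial IntermediateField Pool.Agent.TH178.HI Pool.Agent.Zk31.DA Pool.Agent.Zk31.DB
  Pool.Agent.Zk31.DC

section desc

variable {K L W : Type} [Field K] [CharZero K] [Field L] [Algebra K L] [FiniteDimensional K L]
  [IsGalois K L] [Field W] [Algebra L W] [Algebra K W] [IsScalarTower K L W]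
  [MulSemiringAction (L ≃ₐ[K] L) W] [SMulCommClass (L ≃ₐ[K] L) K W]

theorem desc (hL : ∀ (σ : L ≃ₐ[K] L) (l : L), σ • algebraMap L W l = algebraMap L W (σ l))
    {ι : Type} (c : ι → W) (hc : ∀ (σ : L ≃ₐ[K] L) i, σ • c i = c i)
    (hrel : ∀ z : W, IsAlgebraic (adjoin L (Set.range c)) z → z ∈ adjoin L (Set.range c))
    (z : W) (hz : ∀ σ : L ≃ₐ[K] L, σ • z = z) (ha : IsAlgebraic (adjoin K (Set.range c)) z) :
    z ∈ adjoin K (Set.range c) := by
  classical
  set F := adjoin K (Set.range c) with hF
  have hfix : ∀ (σ : L ≃ₐ[K] L), ∀ x ∈ F, σ • x = x := by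
    intro σ x hx
    induction hx using IntermediateField.adjoin_induction with
    | mem x hx => obtain ⟨i, rfl⟩ := hx; exact hc σ i
    | algebraMap n => exact smul_algebraMap σ n
    | add x y _ _ hx hy => rw [smul_add, hx, hy]
    | inv x _ hx => rw [smul_inv'', hx]
    | mul x y _ _ hx hy => rw [smul_mul', hx, hy]
  let S : Set W := Set.range (algebraMap L W)
  have hle : ∀ x ∈ adjoin L (Set.range c), x ∈ adjoin F S := by
    intro x hx
    induction hx using IntermediateField.adjoin_induction with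
    | mem x hx =>
      exact IntermediateField.algebraMap_mem (adjoin F S) (⟨x, subset_adjoin K _ hx⟩ : F)
    | algebraMap n => exact subset_adjoin _ _ ⟨n, rfl⟩
    | add x y _ _ hx hy => exact add_mem hx hy
    | inv x _ hx => exact inv_mem hx
    | mul x y _ _ hx hy => exact mul_mem hx hy
  have hzL : z ∈ adjoin L (Set.range c) := by
    apply hrel
    have h1 : ∀ x ∈ F, x ∈ adjoin L (Set.range c) := by
      intro x hx
      induction hx using IntermediateField.adjoin_induction with
      | mem x hx => exact subset_adjoin _ _ hx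
      | algebraMap n =>
        rw [IsScalarTower.algebraMap_apply K L W]
        exact IntermediateField.algebraMap_mem _ _
      | add x y _ _ hx hy => exact add_mem hx hy
      | inv x _ hx => exact inv_mem hx
      | mul x y _ _ hx hy => exact mul_mem hx hy
    let j : F →+* adjoin L (Set.range c) :=
      { toFun := fun x => ⟨x, h1 x x.2⟩
        map_one' := rfl
        map_mul' := fun _ _ => rfl
        map_zero' := rfl
        map_add' := fun _ _ => rfl }
    obtain ⟨q, hq0, hq⟩ := ha
    refine ⟨q.map j, ?_, ?_⟩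
    · rwa [Ne, Polynomial.map_eq_zero]
    · rw [aeval_def, eval₂_map]
      exact hq
  have hzM : z ∈ adjoin F S := hle z hzL
  have hSalg : ∀ x ∈ S, IsAlgebraic F x := by
    rintro _ ⟨l, rfl⟩
    have h1 : IsAlgebraic K l := Algebra.IsAlgebraic.isAlgebraic l
    have h2 : IsAlgebraic K (algebraMap L W l) := h1.algebraMap
    exact h2.tower_top F
  have hzA : z ∈ Algebra.adjoin F S := by
    rw [← adjoin_toSubalgebra_of_isAlgebraic hSalg]
    exact hzM
  have htr' : ∀ x ∈ Submodule.span F S, ∑ σ : L ≃ₐ[K] L, σ • x ∈ F := by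
    intro x hx'
    induction hx' using Submodule.span_induction with
    | mem x hx =>
      obtain ⟨l, rfl⟩ := hx
      simp only [hL]
      rw [← map_sum, ← trace_eq_sum_automorphisms, ← IsScalarTower.algebraMap_apply]
      exact IntermediateField.algebraMap_mem _ _
    | zero => simp
    | add x y _ _ hx hy =>
      simp only [smul_add, Finset.sum_add_distrib]
      exact add_mem hx hy
    | smul a x _ hx =>
      have h1 : ∀ σ : L ≃ₐ[K] L, σ • (a • x) = (a : W) * σ • x := by
        intro σ
        rw [Algebra.smul_def, smul_mul']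
        congr 1
        exact hfix σ _ a.2
      simp only [h1]
      rw [← Finset.mul_sum]
      exact mul_mem a.2 hx
  have htr : ∀ x ∈ Algebra.adjoin F S, ∑ σ : L ≃ₐ[K] L, σ • x ∈ F := by
    intro x hx
    apply htr'
    have h1 : x ∈ Subalgebra.toSubmodule (Algebra.adjoin F S) := hx
    rw [Algebra.adjoin_eq_span] at h1
    have h2 : (Submonoid.closure S : Set W) = S := by
      have h3 : Submonoid.closure S = MonoidHom.mrange (algebraMap L W : L →* W) := by
        have h4 : S = ((MonoidHom.mrange (algebraMap L W : L →* W) : Submonoid W) : Set W) := by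
          rw [MonoidHom.coe_mrange]; rfl
        rw [h4, Submonoid.closure_eq]
      rw [h3, MonoidHom.coe_mrange]; rfl
    rwa [h2] at h1
  have h1 := htr z hzA
  simp only [hz] at h1
  rw [Finset.sum_const, nsmul_eq_mul] at h1
  have h2 : ((Finset.univ : Finset (L ≃ₐ[K] L)).card : W) ≠ 0 := by
    have hch : CharZero W := charZero_of_injective_algebraMap (algebraMap K W).injective
    rw [Nat.cast_ne_zero]
    exact Finset.card_ne_zero_of_mem (Finset.mem_univ 1)
  have h3 := mul_mem (inv_mem (IntermediateField.natCast_mem F (Finset.univ : Finset (L ≃ₐ[K] L)).card)) h1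
  rwa [inv_mul_cancel_left₀ h2] at h3

end desc

/-- A polynomial with invariant coefficients descends to the field of invariants. -/
theorem exists_descent {K L W : Type} [Field K] [Field L] [Algebra K L] [Field W] [Algebra K W]
    [MulSemiringAction (L ≃ₐ[K] L) W] [SMulCommClass (L ≃ₐ[K] L) K W] (F : W[X])
    (hF : ∀ σ : L ≃ₐ[K] L, F.map (MulSemiringAction.toRingHom (L ≃ₐ[K] L) W σ) = F) :
    ∃ f : (FixedPoints.intermediateField (L ≃ₐ[K] L) : IntermediateField K W)[X],
      f.map (algebraMap _ W) = F := by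
  have h1 : F ∈ lifts (algebraMap
      (FixedPoints.intermediateField (L ≃ₐ[K] L) : IntermediateField K W) W) := by
    rw [lifts_iff_coeff_lifts]
    intro j
    refine ⟨⟨F.coeff j, fun σ => ?_⟩, rfl⟩
    have h2 := congrArg (fun p : W[X] => p.coeff j) (hF σ)
    simp only [coeff_map] at h2
    exact h2
  rwa [mem_lifts] at h1

/-- The action on the embeddings. -/
def qq (K E L : Type) [Field K] [Field E] [Algebra K E] [Field L] [Algebra K L] :
    (L ≃ₐ[K] L) →* Equiv.Perm (E →ₐ[K] L) where
  toFun γ :=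
    { toFun := fun σ => (γ : L →ₐ[K] L).comp σ
      invFun := fun σ => ((γ⁻¹ : L ≃ₐ[K] L) : L →ₐ[K] L).comp σ
      left_inv := fun σ => AlgHom.ext fun x => by
        change (γ⁻¹ * γ) (σ x) = σ x
        rw [inv_mul_cancel]
        rfl
      right_inv := fun σ => AlgHom.ext fun x => by
        change (γ * γ⁻¹) (σ x) = σ x
        rw [mul_inv_cancel]
        rfl }
  map_one' := Equiv.ext fun σ => AlgHom.ext fun x => rfl
  map_mul' γ δ := Equiv.ext fun σ => AlgHom.ext fun x => rfl

/-- The action on the variables. -/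
def pp (K E L : Type) [Field K] [Field E] [Algebra K E] [Field L] [Algebra K L] (m : ℕ) :
    (L ≃ₐ[K] L) →* Equiv.Perm (V2 (E →ₐ[K] L) m) where
  toFun γ := Equiv.sumCongr (Equiv.prodCongr (qq K E L γ) (Equiv.refl _)) (qq K E L γ)
  map_one' := Equiv.ext fun v => by
    rcases v with ⟨σ, i⟩ | σ
    · change Sum.inl (qq K E L 1 σ, i) = _
      rw [map_one]; rfl
    · change Sum.inr (qq K E L 1 σ) = _
      rw [map_one]; rfl
  map_mul' γ δ := Equiv.ext fun v => by
    rcases v with ⟨σ, i⟩ | σ
    · change Sum.inl (qq K E L (γ * δ) σ, i) = _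
      rw [map_mul]; rfl
    · change Sum.inr (qq K E L (γ * δ) σ) = _
      rw [map_mul]; rfl

theorem main_aux (K E L : Type) [Field K] [CharZero K] [Field E] [Algebra K E]
    [FiniteDimensional K E] [Field L] [Algebra K L] [FiniteDimensional K L] [IsGalois K L]
    {κ : Type} [Fintype κ] [DecidableEq κ] (ε : Module.Basis κ K E)
    [Fintype (E →ₐ[K] L)] [DecidableEq (E →ₐ[K] L)] [Nonempty (E →ₐ[K] L)]
    (e : κ ≃ (E →ₐ[K] L))
    (P : K[X]) (hP0 : P ≠ 0) (m : ℕ) (hm : 2 ≤ m) (n : ℕ)
    (hcard : Fintype.card ((E →ₐ[K] L) × Fin m) = n) (h5 : 5 ≤ n) (hP : P.natDegree < n) :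
    ∃ (C : Type) (_ : Field C) (_ : Algebra K C) (f : C[X]) (X₀ : κ → C[X]),
      Pure (⊤ : IntermediateField K C) ∧ f.Monic ∧ f.natDegree = n ∧
      AlgebraicIndependent K (fun j : Fin n => f.coeff j) ∧
      (∀ z : C, IsAlgebraic (adjoin K (Set.range fun j : Fin n => f.coeff j)) z →
        z ∈ adjoin K (Set.range fun j : Fin n => f.coeff j)) ∧
      f ∣ normForm ε X₀ - P.map (algebraMap K C) := by
  subst hcard
  obtain ⟨W, _, _, _, _, _, _, _, _, _, hL, hX⟩ := exists_W K L (V2 (E →ₐ[K] L) m) (pp K E L m)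
  have hpure := pure_inv (K := K) (L := L) (W := W) (pp K E L m) hL hX
  have hcW : CharZero W := charZero_of_injective_algebraMap (algebraMap K W).injective
  have hcL : CharZero L := charZero_of_injective_algebraMap (algebraMap K L).injective
  let CC : IntermediateField K W := FixedPoints.intermediateField (L ≃ₐ[K] L)
  let PL : L[X] := P.map (algebraMap K L)
  have hPL0 : PL ≠ 0 := (Polynomial.map_ne_zero_iff (algebraMap K L).injective).mpr hP0
  have hPLd : PL.natDegree < Fintype.card ((E →ₐ[K] L) × Fin m) := by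
    rwa [natDegree_map]
  obtain ⟨hind, hrel⟩ := relB (S := E →ₐ[K] L) m PL W hm h5 hPL0 hPLd
  obtain ⟨hmon, hdeg⟩ := f2_monic (S := E →ₐ[K] L) m PL hPLd
  let ι : R2 L (E →ₐ[K] L) m →+* W := algebraMap _ W
  let F : W[X] := (f2 m PL).map ι
  let xW : (E →ₐ[K] L) → W[X] := fun σ => (x2 L m σ).map ι
  let gW : (E →ₐ[K] L) → W := fun σ => ι (MvPolynomial.X (Sum.inr σ))
  have hg0 : ∀ σ, gW σ ≠ 0 := fun σ h => by
    have h1 := IsFractionRing.injective (R2 L (E →ₐ[K] L) m) W (h.trans (map_zero _).symm)
    exact MvPolynomial.X_ne_zero _ h1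
  have hxW : ∀ σ, xW σ = X ^ m + ∑ i : Fin m, C (ι (MvPolynomial.X (Sum.inl (σ, i)))) *
      X ^ (i : ℕ) := by
    intro σ
    change (x2 L m σ).map ι = _
    rw [x2, Polynomial.map_add, Polynomial.map_pow, map_X, Polynomial.map_sum]
    congr 1
    refine Finset.sum_congr rfl fun i _ => ?_
    rw [Polynomial.map_mul, map_C, Polynomial.map_pow, map_X]
  have hPW : PL.map (algebraMap L W) = P.map (algebraMap K W) := by
    change (P.map (algebraMap K L)).map (algebraMap L W) = _
    rw [Polynomial.map_map, ← IsScalarTower.algebraMap_eq]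
  have hFW : F = ∏ σ, xW σ - P.map (algebraMap K W) * C (∏ σ, gW σ) := by
    change (f2 m PL).map ι = _
    rw [f2, Polynomial.map_sub, Polynomial.map_prod, Polynomial.map_mul, map_C, map_prod,
      Polynomial.map_map]
    congr 2
    rw [← hPW]
    congr 1
    exact (IsScalarTower.algebraMap_eq L _ W).symm
  let ac : (L ≃ₐ[K] L) → (W →+* W) := MulSemiringAction.toRingHom (L ≃ₐ[K] L) W
  have hacK : ∀ (γ : L ≃ₐ[K] L) (c : K), ac γ (algebraMap K W c) = algebraMap K W c := fun γ c =>
    smul_algebraMap γ c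
  have hacx : ∀ (γ : L ≃ₐ[K] L) (σ : E →ₐ[K] L), (xW σ).map (ac γ) = xW (qq K E L γ σ) := by
    intro γ σ
    rw [hxW, hxW, Polynomial.map_add, Polynomial.map_pow, map_X, Polynomial.map_sum]
    congr 1
    refine Finset.sum_congr rfl fun i _ => ?_
    rw [Polynomial.map_mul, map_C, Polynomial.map_pow, map_X]
    congr 2
    exact hX γ (Sum.inl (σ, i))
  have hacg : ∀ (γ : L ≃ₐ[K] L) (σ : E →ₐ[K] L), ac γ (gW σ) = gW (qq K E L γ σ) := fun γ σ =>
    hX γ (Sum.inr σ)
  have hFinv : ∀ γ : L ≃ₐ[K] L, F.map (ac γ) = F := by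
    intro γ
    rw [hFW, Polynomial.map_sub, Polynomial.map_prod, Polynomial.map_mul, map_C, map_prod,
      Polynomial.map_map]
    simp only [hacx, hacg]
    rw [Equiv.prod_comp (qq K E L γ) xW, Equiv.prod_comp (qq K E L γ) gW]
    congr 3
    ext c
    exact hacK γ c
  obtain ⟨f, hf⟩ := exists_descent F hFinv
  -- the point
  let y : (E →ₐ[K] L) → W[X] := fun σ => xW σ * C (gW σ)⁻¹
  obtain ⟨X₀, hX₀, -⟩ := exists_ev (R := W[X]) ε e y
  have hX₀inv : ∀ (γ : L ≃ₐ[K] L) (k : κ), (X₀ k).map (ac γ) = X₀ k := by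
    intro γ
    have h1 : (fun k => mapRingHom (ac γ) (X₀ k)) = X₀ := by
      apply ev_injective ε e
      intro σ
      obtain ⟨σ', rfl⟩ := (qq K E L γ).surjective σ
      have h2 := ev_map ε (mapRingHom (ac γ)) γ (fun l => by
        rw [Polynomial.algebraMap_apply, Polynomial.algebraMap_apply, coe_mapRingHom, map_C]
        congr 1
        exact hL γ l) σ' X₀
      rw [hX₀] at h2
      change _ = ev ε (qq K E L γ σ') (fun k => mapRingHom (ac γ) (X₀ k)) at h2
      rw [← h2, hX₀]
      change (xW σ' * C (gW σ')⁻¹).map (ac γ) = xW (qq K E L γ σ') * C (gW (qq K E L γ σ'))⁻¹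
      rw [Polynomial.map_mul, map_C, hacx, map_inv₀, hacg]
    exact fun k => congrFun h1 k
  have hex : ∀ k, ∃ q : CC[X], q.map (algebraMap CC W) = X₀ k := fun k =>
    exists_descent (X₀ k) fun γ => hX₀inv γ k
  choose Y₀ hY₀ using hex
  have hfdeg : f.natDegree = Fintype.card ((E →ₐ[K] L) × Fin m) := by
    have h1 : (f.map (algebraMap CC W)).natDegree = f.natDegree := natDegree_map _
    rw [← h1, hf]
    change ((f2 m PL).map ι).natDegree = _
    rw [hmon.natDegree_map, hdeg]
  have hfc : ∀ j : ℕ, ((f.coeff j : CC) : W) = ι ((f2 m PL).coeff j) := by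
    intro j
    have h1 := congrArg (fun p : W[X] => p.coeff j) hf
    change (f.map (algebraMap CC W)).coeff j = ((f2 m PL).map ι).coeff j at h1
    rw [coeff_map, coeff_map] at h1
    exact h1
  refine ⟨CC, inferInstance, inferInstance, f, Y₀, ?_, ?_, hfdeg, ?_, ?_, ?_⟩
  · obtain ⟨τ, hτ, x, hx1, hx2⟩ := hpure
    have h1 : ∀ i, x i ∈ CC := fun i => by
      change x i ∈ (FixedPoints.intermediateField (L ≃ₐ[K] L) : IntermediateField K W)
      rw [← hx2]
      exact subset_adjoin _ _ ⟨i, rfl⟩
    refine ⟨τ, hτ, fun i => ⟨x i, h1 i⟩, ?_, ?_⟩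
    · apply AlgebraicIndependent.of_comp CC.val
      exact hx1
    · apply IntermediateField.map_injective CC.val
      rw [IntermediateField.adjoin_map]
      have h2 : CC.val '' Set.range (fun i => (⟨x i, h1 i⟩ : CC)) = Set.range x := by
        rw [← Set.range_comp]
        rfl
      rw [h2, hx2]
      ext z
      constructor
      · intro hz
        exact ⟨⟨z, hz⟩, trivial, rfl⟩
      · rintro ⟨w, -, rfl⟩
        exact w.2
  · apply (algebraMap CC W).injective.monic_map_iff.mpr
    rw [hf]
    exact hmon.map ι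
  · apply AlgebraicIndependent.of_comp CC.val
    have h1 : (fun j : Fin (Fintype.card ((E →ₐ[K] L) × Fin m)) => CC.val (f.coeff j)) =
        fun j : Fin (Fintype.card ((E →ₐ[K] L) × Fin m)) => ι ((f2 m PL).coeff j) :=
      funext fun j => hfc j
    change AlgebraicIndependent K (fun j : Fin (Fintype.card ((E →ₐ[K] L) × Fin m)) =>
      CC.val (f.coeff j))
    rw [h1]
    exact hind.restrictScalars (algebraMap K L).injective
  · intro z hz
    have h1 := desc hL (fun j : Fin (Fintype.card ((E →ₐ[K] L) × Fin m)) =>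
      ι ((f2 m PL).coeff j)) (fun γ j => by
        have h2 := (f.coeff j).2 γ
        rw [hfc] at h2
        exact h2) hrel (z : W) (fun γ => z.2 γ)
    have hadj : (adjoin K (Set.range fun j : Fin (Fintype.card ((E →ₐ[K] L) × Fin m)) =>
        f.coeff j)).map CC.val = adjoin K (Set.range
          fun j : Fin (Fintype.card ((E →ₐ[K] L) × Fin m)) => ι ((f2 m PL).coeff j)) := by
      rw [IntermediateField.adjoin_map, ← Set.range_comp]
      congr 2
      funext j
      exact hfc j
    have h3 : (z : W) ∈ (adjoin K (Set.range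
        fun j : Fin (Fintype.card ((E →ₐ[K] L) × Fin m)) => f.coeff j)).map CC.val := by
      rw [hadj]
      apply h1
      obtain ⟨q, hq0, hq⟩ := hz
      let i : (adjoin K (Set.range fun j : Fin (Fintype.card ((E →ₐ[K] L) × Fin m)) =>
          f.coeff j)) →+* (adjoin K (Set.range
          fun j : Fin (Fintype.card ((E →ₐ[K] L) × Fin m)) => ι ((f2 m PL).coeff j))) :=
        { toFun := fun w => ⟨(w : CC), by rw [← hadj]; exact ⟨w, w.2, rfl⟩⟩
          map_one' := rfl
          map_mul' := fun _ _ => rfl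
          map_zero' := rfl
          map_add' := fun _ _ => rfl }
      refine ⟨q.map i, ?_, ?_⟩
      · rwa [Ne, Polynomial.map_eq_zero]
      · rw [aeval_def, eval₂_map]
        have h4 := congrArg (algebraMap CC W) hq
        rw [map_zero, aeval_def, hom_eval₂] at h4
        exact h4
    obtain ⟨w, hw, hwz⟩ := h3
    have h4 : w = z := Subtype.ext hwz
    rw [← h4]
    exact hw
  · rw [← map_dvd_map' (algebraMap CC W), hf, Polynomial.map_sub, Polynomial.map_map]
    have h1 : (normForm ε Y₀).map (algebraMap CC W) = normForm ε X₀ := by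
      have h2 := normForm_map ε (mapRingHom (algebraMap CC W)) (fun c => by
        rw [Polynomial.algebraMap_apply, Polynomial.algebraMap_apply, coe_mapRingHom, map_C]
        rfl) Y₀
      rw [coe_mapRingHom] at h2
      rw [h2]
      congr 1
      funext k
      exact hY₀ k
    rw [h1, normForm_eq ε e]
    simp only [hX₀]
    have h3 : ∏ σ, y σ = (∏ σ, xW σ) * C (∏ σ, gW σ)⁻¹ := by
      change ∏ σ, xW σ * C (gW σ)⁻¹ = _
      rw [Finset.prod_mul_distrib, ← map_prod, Finset.prod_inv_distrib]
    rw [h3, hFW]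
    refine ⟨C (∏ σ, gW σ)⁻¹, ?_⟩
    have h4 : (∏ σ, gW σ) ≠ 0 := Finset.prod_ne_zero_iff.mpr fun σ _ => hg0 σ
    have h5 : (C (∏ σ, gW σ) : W[X]) * C (∏ σ, gW σ)⁻¹ = 1 := by
      rw [← C_mul, mul_inv_cancel₀ h4, C_1]
    rw [sub_mul, mul_assoc, h5, mul_one]
    rfl

/-- **Main lemma.** -/
theorem main_lemma (K E : Type) [Field K] [CharZero K] [Field E] [Algebra K E]
    [FiniteDimensional K E] {κ : Type} [Fintype κ] [DecidableEq κ] (ε : Module.Basis κ K E)
    (P : K[X]) (hP0 : P ≠ 0) (m : ℕ) (hm : 2 ≤ m) (n : ℕ) (hn : n = Module.finrank K E * m)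
    (h5 : 5 ≤ n) (hP : P.natDegree < n) :
    ∃ (C : Type) (_ : Field C) (_ : Algebra K C) (f : C[X]) (X₀ : κ → C[X]),
      Pure (⊤ : IntermediateField K C) ∧ f.Monic ∧ f.natDegree = n ∧
      AlgebraicIndependent K (fun j : Fin n => f.coeff j) ∧
      (∀ z : C, IsAlgebraic (adjoin K (Set.range fun j : Fin n => f.coeff j)) z →
        z ∈ adjoin K (Set.range fun j : Fin n => f.coeff j)) ∧
      f ∣ normForm ε X₀ - P.map (algebraMap K C) := by
  classical
  let L := normalClosure K E (AlgebraicClosure E)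
  have hsepE : Algebra.IsSeparable K E := inferInstance
  have hgal : IsGalois K L :=
    { to_isSeparable := inferInstance
      to_normal := normalClosure.normal K E (AlgebraicClosure E) }
  have hLfin : FiniteDimensional K L := inferInstance
  have hspl : ∀ x : E, ((minpoly K x).map (algebraMap K L)).Splits := by
    intro x
    have h1 : minpoly K (algebraMap E L x) = minpoly K x :=
      minpoly.algebraMap_eq (algebraMap E L).injective x
    rw [← h1]
    exact Normal.splits inferInstance _
  obtain ⟨e⟩ := exists_equiv (L := L) ε hspl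
  have hne : Nonempty (E →ₐ[K] L) := ⟨IsScalarTower.toAlgHom K E L⟩
  have hcS : Fintype.card (E →ₐ[K] L) = Module.finrank K E := AlgHom.card_of_splits K E L hspl
  refine main_aux K E L ε e P hP0 m hm n ?_ h5 hP
  rw [Fintype.card_prod, Fintype.card_fin, hcS, hn]

end Pool.Agent.Zk31.DD
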