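import Pool.Agent.Zk31.DVoc
import Pool.Agent.Zk31.CA

/-! Interpolation, and the transcendence basis of the function field of a power. -/

set_option autoImplicit false
set_option linter.unusedSectionVars false

namespace Pool.Agent.Zk31.DE

open Polynomial IntermediateField Matrix Pool.Agent.Zk31.DA Pool.Agent.Zk31.DVoc Pool.Agent.Zk31.CA

section interp

variable {F : Type} [Field F] {n : ℕ}

/-- The coefficients of the interpolation polynomial. -/
noncomputable def co (t v : Fin n → F) : Fin n → F := (vandermonde t)⁻¹ *ᵥ v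

theorem vand_unit {t : Fin n → F} (ht : Function.Injective t) : IsUnit (vandermonde t).det :=
  isUnit_iff_ne_zero.mpr (det_vandermonde_ne_zero_iff.mpr ht)

theorem vand_mulVec (t c : Fin n → F) (i : Fin n) :
    (vandermonde t *ᵥ c) i = ∑ j, c j * t i ^ (j : ℕ) := by
  rw [mulVec, dotProduct]
  exact Finset.sum_congr rfl fun j _ => by rw [vandermonde_apply, mul_comm]

theorem co_spec {t : Fin n → F} (ht : Function.Injective t) (v : Fin n → F) (i : Fin n) :
    ∑ j, co t v j * t i ^ (j : ℕ) = v i := by
  rw [← vand_mulVec, co, mulVec_mulVec, mul_nonsing_inv _ (vand_unit ht), one_mulVec]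

theorem co_unique {t : Fin n → F} (ht : Function.Injective t) {v c : Fin n → F}
    (h : ∀ i, ∑ j, c j * t i ^ (j : ℕ) = v i) : c = co t v := by
  have h1 : vandermonde t *ᵥ c = v := funext fun i => by rw [vand_mulVec, h]
  rw [co, ← h1, mulVec_mulVec, nonsing_inv_mul _ (vand_unit ht), one_mulVec]

theorem co_map {F' : Type} [Field F'] (φ : F →+* F') {t : Fin n → F} (ht : Function.Injective t)
    (v : Fin n → F) (j : Fin n) : φ (co t v j) = co (fun i => φ (t i)) (fun i => φ (v i)) j := by
  have h1 : (fun j => φ (co t v j)) = co (fun i => φ (t i)) (fun i => φ (v i)) := by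
    refine co_unique (φ.injective.comp ht) fun i => ?_
    rw [← co_spec ht v i, map_sum]
    exact Finset.sum_congr rfl fun j _ => by rw [map_mul, map_pow]; rfl
  exact congrFun h1 j

theorem co_perm {t : Fin n → F} (ht : Function.Injective t) (v : Fin n → F)
    (π : Equiv.Perm (Fin n)) : co (fun i => t (π i)) (fun i => v (π i)) = co t v :=
  (co_unique (ht.comp π.injective) fun i => co_spec ht v (π i)).symm

end interp

section alg

variable {K E κ F : Type} [Field K] [CharZero K] [Field E] [Algebra K E] [FiniteDimensional K E]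
  [Fintype κ] [DecidableEq κ] (ε : Module.Basis κ K E) [Field F] [Algebra K F]

/-- In a norm equation every coordinate is algebraic over the others and the value. -/
theorem coord_alg (B : IntermediateField K F) (x : κ → F) (k₀ : κ) (hx : normForm ε x ∈ B)
    (hk : ∀ k, k ≠ k₀ → x k ∈ B) : IsAlgebraic B (x k₀) := by
  classical
  let Ω := AlgebraicClosure F
  have hsepE : Algebra.IsSeparable K E := inferInstance
  obtain ⟨e⟩ := exists_equiv (L := Ω) ε fun x => IsAlgClosed.splits _
  let xB : κ → B[X] := fun k => if h : k = k₀ then X else C ⟨x k, hk k h⟩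
  let G : B[X] := normForm ε xB - C ⟨_, hx⟩
  have hev : aeval (x k₀) G = 0 := by
    have h1 : aeval (x k₀) (normForm ε xB) = normForm ε x := by
      have h2 := normForm_map ε (aeval (x k₀) : B[X] →ₐ[B] F).toRingHom (fun c => by
        change aeval (x k₀) (algebraMap K B[X] c) = algebraMap K F c
        rw [IsScalarTower.algebraMap_apply K B B[X], AlgHom.commutes]
        rfl) xB
      refine h2.trans ?_
      congr 1
      funext k
      change aeval (x k₀) (xB k) = x k
      by_cases h : k = k₀
      · change aeval (x k₀) (if h : k = k₀ then X else C ⟨x k, hk k h⟩ : B[X]) = _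
        rw [dif_pos h, aeval_X, h]
      · change aeval (x k₀) (if h : k = k₀ then X else C ⟨x k, hk k h⟩ : B[X]) = _
        rw [dif_neg h, aeval_C]
        rfl
    change aeval (x k₀) (normForm ε xB - C ⟨_, hx⟩) = 0
    rw [map_sub, h1, aeval_C]
    exact sub_self _
  refine ⟨G, ?_, hev⟩
  intro hG
  -- pass to the algebraic closure
  let j : B →+* Ω := (algebraMap F Ω).comp (algebraMap B F)
  have h1 : (normForm ε xB).map j = C (j ⟨normForm ε x, hx⟩) := by
    have h2 := congrArg (Polynomial.map j) hG
    change (normForm ε xB - C (⟨normForm ε x, hx⟩ : B) : B[X]).map j = _ at h2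
    rw [Polynomial.map_sub, Polynomial.map_zero, sub_eq_zero, map_C] at h2
    exact h2
  have h2 : (normForm ε xB).map j = normForm ε (fun k => (xB k).map j) := by
    have h3 := normForm_map ε (mapRingHom j) (fun c => by
      rw [IsScalarTower.algebraMap_apply K B B[X], Polynomial.algebraMap_apply,
        Algebra.algebraMap_self, RingHom.id_apply,
        coe_mapRingHom, map_C, Polynomial.algebraMap_apply]
      rfl) xB
    exact h3
  rw [h2, normForm_eq (L := Ω) ε e] at h1
  have h3 : ∀ σ : E →ₐ[K] Ω, (ev ε σ fun k => (xB k).map j).natDegree = 1 := by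
    intro σ
    have h4 : (ev ε σ fun k => (xB k).map j) = C (∑ k ∈ Finset.univ.erase k₀,
        algebraMap F Ω (x k) * σ (ε k)) + C (σ (ε k₀)) * X := by
      rw [ev, ← Finset.add_sum_erase _ _ (Finset.mem_univ k₀), add_comm]
      congr 1
      · rw [map_sum]
        refine Finset.sum_congr rfl fun k hk' => ?_
        have h5 : k ≠ k₀ := (Finset.mem_erase.mp hk').1
        change (if h : k = k₀ then X else C ⟨x k, hk k h⟩ : B[X]).map j * _ = _
        rw [dif_neg h5, map_C, C_mul]
        rfl
      · change (if h : k₀ = k₀ then X else C ⟨x k₀, hk k₀ h⟩ : B[X]).map j * _ = _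
        rw [dif_pos rfl, map_X, mul_comm]
        rfl
    rw [h4, add_comm, natDegree_add_C, natDegree_C_mul_X]
    intro h5
    exact ε.ne_zero k₀ ((map_eq_zero σ).mp h5)
  have h4 : (∏ σ : E →ₐ[K] Ω, ev ε σ fun k => (xB k).map j).natDegree =
      Fintype.card (E →ₐ[K] Ω) := by
    rw [natDegree_prod]
    · simp only [h3]
      simp
    · intro σ _ h5
      have h6 := h3 σ
      rw [h5, natDegree_zero] at h6
      exact absurd h6 (by norm_num)
  rw [h1, natDegree_C] at h4
  have h5 : Fintype.card κ = Fintype.card (E →ₐ[K] Ω) := Fintype.card_congr e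
  have h6 : 0 < Fintype.card κ := Fintype.card_pos_iff.mpr ⟨k₀⟩
  omega

end alg

end Pool.Agent.Zk31.DE
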