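import Pool.Agent.Zk31.DE

/-! The transcendence basis of invariants of the function field of a power. -/

set_option autoImplicit false
set_option linter.unusedSectionVars false

namespace Pool.Agent.Zk31.DF

open Polynomial IntermediateField Pool.Agent.Zk31.DA Pool.Agent.Zk31.DVoc Pool.Agent.Zk31.CA
  Pool.Agent.Zk31.DE

/-- Embedding of a field algebraic over a field of rational functions. -/
theorem exists_emb {K F Ω ι : Type} [Field K] [Field F] [Algebra K F] [Field Ω] [Algebra K Ω]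
    [IsAlgClosed Ω] (u : ι → F) (hu : AlgebraicIndependent K u)
    (halg : ∀ z : F, IsAlgebraic (adjoin K (Set.range u)) z) (v : ι → Ω)
    (hv : AlgebraicIndependent K v) : ∃ φ : F →ₐ[K] Ω, ∀ i, φ (u i) = v i := by
  let e1 := hu.aevalEquivField
  let e2 := hv.aevalEquivField
  let g : adjoin K (Set.range u) →ₐ[K] Ω := (IntermediateField.val _).comp
    (e2.toAlgHom.comp e1.symm.toAlgHom)
  have hg : ∀ i, g ⟨u i, subset_adjoin _ _ ⟨i, rfl⟩⟩ = v i := by
    intro i
    have h1 : e1 (algebraMap (MvPolynomial ι K) _ (MvPolynomial.X i)) =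
        ⟨u i, subset_adjoin _ _ ⟨i, rfl⟩⟩ := by
      apply Subtype.ext
      rw [AlgebraicIndependent.aevalEquivField_algebraMap_apply_coe, MvPolynomial.aeval_X]
    change ((e2 (e1.symm ⟨u i, subset_adjoin _ _ ⟨i, rfl⟩⟩) : adjoin K (Set.range v)) : Ω) = v i
    rw [← h1, AlgEquiv.symm_apply_apply,
      AlgebraicIndependent.aevalEquivField_algebraMap_apply_coe, MvPolynomial.aeval_X]
  let _ : Algebra (adjoin K (Set.range u)) Ω := g.toRingHom.toAlgebra
  have h1 : Algebra.IsAlgebraic (adjoin K (Set.range u)) F := ⟨halg⟩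
  let φ : F →ₐ[adjoin K (Set.range u)] Ω := IsAlgClosed.lift
  have htow : IsScalarTower K (adjoin K (Set.range u)) Ω := IsScalarTower.of_algebraMap_eq fun c =>
    (g.commutes c).symm
  refine ⟨φ.restrictScalars K, fun i => ?_⟩
  have h2 := φ.commutes ⟨u i, subset_adjoin _ _ ⟨i, rfl⟩⟩
  exact h2.trans (hg i)

section

variable {K E κ 𝔽 : Type} [Field K] [CharZero K] [Field E] [Algebra K E] [FiniteDimensional K E]
  [Fintype κ] [DecidableEq κ] {ε : Module.Basis κ K E} {P : K[X]} {n : ℕ} [Field 𝔽] [Algebra K 𝔽]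
  [MulSemiringAction (Equiv.Perm (Fin n)) 𝔽] [SMulCommClass (Equiv.Perm (Fin n)) K 𝔽]
  {t : Fin n → 𝔽} {x : Fin n → κ → 𝔽} (h : PowerField ε P n t x) (k₀ : κ)

include h

theorem alg_of_gens (B : IntermediateField K 𝔽) (ht : ∀ i, IsAlgebraic B (t i))
    (hx : ∀ i k, k ≠ k₀ → IsAlgebraic B (x i k)) (z : 𝔽) : IsAlgebraic B z := by
  let D : IntermediateField K 𝔽 := (algebraicClosure B 𝔽).restrictScalars K
  have hD : ∀ y : 𝔽, y ∈ D ↔ IsAlgebraic B y := fun y => by
    change y ∈ algebraicClosure B 𝔽 ↔ _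
    rw [mem_algebraicClosure_iff]
  have hDD : ∀ y : 𝔽, IsAlgebraic D y → y ∈ D := by
    intro y hy
    rw [hD]
    have h1 : IsAlgebraic (algebraicClosure B 𝔽) y := hy
    exact h1.restrictScalars B
  have hk₀ : ∀ i, x i k₀ ∈ D := by
    intro i
    apply hDD
    apply coord_alg ε D (x i) k₀
    · rw [h.equation]
      have h1 : aeval (t i) P = aeval (⟨t i, (hD _).mpr (ht i)⟩ : D) P := by
        have h2 := aeval_algebraMap_apply 𝔽 (⟨t i, (hD _).mpr (ht i)⟩ : D) P
        exact h2
      rw [h1]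
      exact SetLike.coe_mem _
    · intro k hk
      exact (hD _).mpr (hx i k hk)
  have htop : (⊤ : IntermediateField K 𝔽) ≤ D := by
    rw [← h.generates, adjoin_le_iff]
    rintro y (⟨i, rfl⟩ | ⟨⟨i, k⟩, rfl⟩)
    · exact (hD _).mpr (ht i)
    · by_cases hk : k = k₀
      · subst hk; exact hk₀ i
      · exact (hD _).mpr (hx i k hk)
  exact (hD z).mp (htop trivial)

theorem indep_of_card {ι : Type} [Finite ι] (u : ι → 𝔽)
    (hcard : Nat.card ι = n * Module.finrank K E)
    (halg : ∀ z : 𝔽, IsAlgebraic (adjoin K (Set.range u)) z) : AlgebraicIndependent K u := by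
  obtain ⟨β, b, hb⟩ := exists_isTranscendenceBasis' K 𝔽
  refine indep_of_alg hb.1 u ?_ halg
  rw [hb.cardinalMk_eq_trdeg, h.dimension, ← hcard]
  exact (Nat.cast_card (α := ι)).symm.le

theorem card_idx : Nat.card (Fin n ⊕ ({k : κ // k ≠ k₀} × Fin n)) = n * Module.finrank K E := by
  rw [Nat.card_eq_fintype_card, Fintype.card_sum, Fintype.card_prod, Fintype.card_fin,
    Module.finrank_eq_card_basis ε]
  have h1 : Fintype.card {k : κ // k ≠ k₀} = Fintype.card κ - 1 := by
    rw [Fintype.card_subtype_compl, Fintype.card_subtype_eq]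
  have h2 : 0 < Fintype.card κ := Fintype.card_pos_iff.mpr ⟨k₀⟩
  rw [h1]
  obtain ⟨c, hc⟩ : ∃ c, Fintype.card κ = c + 1 := ⟨Fintype.card κ - 1, by omega⟩
  rw [hc]
  simp only [Nat.add_sub_cancel]
  ring

include k₀ in
theorem indep_t : AlgebraicIndependent K t := by
  let s : Fin n ⊕ ({k : κ // k ≠ k₀} × Fin n) → 𝔽 := Sum.elim t fun z => x z.2 z.1
  have h1 : AlgebraicIndependent K s := by
    refine indep_of_card h s (card_idx h k₀) ?_
    refine alg_of_gens h k₀ _ (fun i => ?_) fun i k hk => ?_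
    · exact isAlgebraic_algebraMap (⟨t i, subset_adjoin _ _ ⟨Sum.inl i, rfl⟩⟩ :
        adjoin K (Set.range s))
    · exact isAlgebraic_algebraMap (⟨x i k, subset_adjoin _ _ ⟨Sum.inr (⟨k, hk⟩, i), rfl⟩⟩ :
        adjoin K (Set.range s))
  exact h1.comp Sum.inl Sum.inl_injective

include k₀ in
theorem inj_t : Function.Injective t := (indep_t h k₀).injective

omit h in
/-- The polynomial with the roots `t_i`. -/
noncomputable def pt (t : Fin n → 𝔽) : 𝔽[X] := ∏ i, (X - C (t i))

omit h in
variable (t x) in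
/-- The transcendence basis. -/
noncomputable def uu (k₀ : κ) : Fin n ⊕ ({k : κ // k ≠ k₀} × Fin n) → 𝔽 :=
  Sum.elim (fun j => (pt t).coeff j) fun z => co t (fun i => x i z.1) z.2

theorem alg_uu (z : 𝔽) : IsAlgebraic (adjoin K (Set.range (uu t x k₀))) z := by
  set B := adjoin K (Set.range (uu t x k₀)) with hB
  have hmon : (pt t).Monic := monic_prod_of_monic _ _ fun i _ => monic_X_sub_C _
  have hdeg : (pt t).natDegree = n := by
    rw [pt, natDegree_prod_of_monic _ _ fun i _ => monic_X_sub_C _]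
    simp
  have ht : ∀ i, IsAlgebraic B (t i) := by
    intro i
    have h1 : pt t ∈ lifts (algebraMap B 𝔽) := by
      rw [lifts_iff_coeff_lifts]
      intro j
      by_cases hj : j < n
      · exact ⟨⟨_, subset_adjoin _ _ ⟨Sum.inl ⟨j, hj⟩, rfl⟩⟩, rfl⟩
      · by_cases hj2 : j = n
        · refine ⟨1, ?_⟩
          have h2 : (pt t).coeff n = 1 := by
            have h3 := hmon.coeff_natDegree
            rwa [hdeg] at h3
          rw [map_one, hj2, h2]
        · refine ⟨0, ?_⟩
          rw [map_zero, coeff_eq_zero_of_natDegree_lt]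
          rw [hdeg]; omega
    obtain ⟨q, hq⟩ := (mem_lifts _).mp h1
    refine ⟨q, ?_, ?_⟩
    · intro h2
      rw [h2, Polynomial.map_zero] at hq
      exact hmon.ne_zero hq.symm
    · rw [aeval_def, ← eval_map, hq, pt, eval_prod]
      exact Finset.prod_eq_zero (Finset.mem_univ i) (by rw [eval_sub, eval_X, eval_C, sub_self])
  refine alg_of_gens h k₀ B ht (fun i k hk => ?_) z
  rw [← co_spec (inj_t h k₀) (fun i => x i k) i]
  have h1 : ∀ j : Fin n, IsAlgebraic B (co t (fun i => x i k) j * t i ^ (j : ℕ)) := by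
    intro j
    refine IsAlgebraic.mul ?_ ((ht i).pow _)
    exact isAlgebraic_algebraMap (⟨_, subset_adjoin _ _ ⟨Sum.inr (⟨k, hk⟩, j), rfl⟩⟩ : B)
  exact Finset.sum_induction _ (IsAlgebraic B) (fun _ _ ha hb => ha.add hb) isAlgebraic_zero
    fun j _ => h1 j

theorem indep_uu : AlgebraicIndependent K (uu t x k₀) :=
  indep_of_card h _ (card_idx h k₀) (alg_uu h k₀)

theorem fixed_uu (π : Equiv.Perm (Fin n)) (v : Fin n ⊕ ({k : κ // k ≠ k₀} × Fin n)) :
    π • uu t x k₀ v = uu t x k₀ v := by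
  let φ : 𝔽 →+* 𝔽 := MulSemiringAction.toRingHom (Equiv.Perm (Fin n)) 𝔽 π
  rcases v with j | ⟨k, j⟩
  · have h1 : (pt t).map φ = pt t := by
      rw [pt, Polynomial.map_prod, ← Equiv.prod_comp π (fun i => X - C (t i))]
      refine Finset.prod_congr rfl fun i _ => ?_
      rw [Polynomial.map_sub, map_X, map_C]
      congr 2
      exact h.perm_t π i
    have h2 := congrArg (fun p : 𝔽[X] => p.coeff j) h1
    simp only [coeff_map] at h2
    exact h2
  · have h1 := co_map φ (inj_t h k₀) (fun i => x i k) j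
    have h2 : (fun i => φ (t i)) = fun i => t (π i) := funext fun i => h.perm_t π i
    have h3 : (fun i => φ (x i k)) = fun i => x (π i) k := funext fun i => h.perm_x π i k
    rw [h2, h3, co_perm (inj_t h k₀) (fun i => x i k) π] at h1
    exact h1

end

end Pool.Agent.Zk31.DF
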