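import Pool.Agent.Zk31.DF
import Pool.Agent.W21.HP.Bc
import Pool.Agent.W417.HP.BC1
import Pool.Agent.W803.HP.Bc2

/-! Base change: the field of invariants is algebraically closed in its compositum with `C`. -/

set_option autoImplicit false
set_option linter.unusedSectionVars false

namespace Pool.Agent.Zk31.DG

open Polynomial IntermediateField Pool.Agent.Zk31.DA Pool.Agent.Zk31.DVoc Pool.Agent.Zk31.CA
  Pool.Agent.Zk31.DE Pool.Agent.Zk31.DF

section

variable {K E κ 𝔽 : Type} [Field K] [CharZero K] [Field E] [Algebra K E] [FiniteDimensional K E]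
  [Fintype κ] [DecidableEq κ] {ε : Module.Basis κ K E} {P : K[X]} {n : ℕ} [Field 𝔽] [Algebra K 𝔽]
  [MulSemiringAction (Equiv.Perm (Fin n)) 𝔽] [SMulCommClass (Equiv.Perm (Fin n)) K 𝔽]
  {t : Fin n → 𝔽} {x : Fin n → κ → 𝔽} (h : PowerField ε P n t x) (k₀ : κ)

include h

include k₀ in
/-- The field of invariants is finitely generated. -/
theorem exists_gens : ∃ S : Finset 𝔽, (FixedPoints.intermediateField (Equiv.Perm (Fin n)) :
    IntermediateField K 𝔽) = adjoin K (S : Set 𝔽) := by
  classical
  set B : IntermediateField K 𝔽 := FixedPoints.intermediateField (Equiv.Perm (Fin n)) with hB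
  let A := adjoin K (Set.range (uu t x k₀))
  have hAB : A ≤ B := by
    rw [adjoin_le_iff]
    rintro _ ⟨v, rfl⟩ π
    exact fixed_uu h k₀ π v
  let gens : Set 𝔽 := Set.range t ∪ Set.range fun z : Fin n × κ => x z.1 z.2
  have hfing : gens.Finite := (Set.finite_range _).union (Set.finite_range _)
  have hfin : FiniteDimensional A 𝔽 := by
    have h1 : FiniteDimensional A (adjoin A gens) := by
      have : Finite gens := hfing
      exact finiteDimensional_adjoin fun y _ => (alg_uu h k₀ y).isIntegral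
    have h2 : adjoin A gens = ⊤ := by
      rw [eq_top_iff]
      have h3 : (⊤ : IntermediateField K 𝔽) ≤ (adjoin A gens).restrictScalars K := by
        rw [← h.generates, adjoin_le_iff]
        exact subset_adjoin A gens
      intro y _
      exact h3 trivial
    rw [h2] at h1
    exact (topEquiv (F := A) (E := 𝔽)).toLinearEquiv.finiteDimensional
  obtain ⟨T, hT⟩ := (IntermediateField.fg_of_noetherian (extendScalars hAB))
  let Su : Finset 𝔽 := Finset.univ.image (uu t x k₀)
  have hSu : ∀ v, uu t x k₀ v ∈ adjoin K ((Su ∪ T : Finset 𝔽) : Set 𝔽) := by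
    intro v
    apply subset_adjoin
    rw [Finset.coe_union]
    exact Or.inl (Finset.mem_coe.mpr (Finset.mem_image_of_mem _ (Finset.mem_univ v)))
  have hAD : A ≤ adjoin K ((Su ∪ T : Finset 𝔽) : Set 𝔽) := by
    change adjoin K (Set.range (uu t x k₀)) ≤ _
    rw [adjoin_le_iff]
    rintro _ ⟨v, rfl⟩
    exact hSu v
  have h2 : (adjoin A (T : Set 𝔽)) ≤ extendScalars hAD := by
    rw [adjoin_le_iff]
    intro z hz
    change z ∈ adjoin K ((Su ∪ T : Finset 𝔽) : Set 𝔽)
    apply subset_adjoin
    rw [Finset.coe_union]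
    exact Or.inr hz
  have hmT : ∀ y : 𝔽, y ∈ adjoin A (T : Set 𝔽) ↔ y ∈ B := fun y => by rw [hT]; rfl
  refine ⟨Su ∪ T, ?_⟩
  apply le_antisymm
  · intro y hy
    exact h2 ((hmT y).mpr hy)
  · rw [adjoin_le_iff]
    intro y hy
    rw [Finset.coe_union] at hy
    rcases hy with hy | hy
    · obtain ⟨v, -, rfl⟩ := Finset.mem_image.mp (Finset.mem_coe.mp hy)
      exact hAB (subset_adjoin _ _ ⟨v, rfl⟩)
    · exact (hmT y).mp (subset_adjoin _ _ hy)

omit h in
/-- Algebraic independence over the image of a field. -/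
theorem indep_fieldRange {K C Ω ι : Type} [Field K] [Field C] [Algebra K C] [Field Ω]
    [Algebra C Ω] [Algebra K Ω] [IsScalarTower K C Ω] {u : ι → Ω} (hu : AlgebraicIndependent C u) :
    AlgebraicIndependent (IsScalarTower.toAlgHom K C Ω).fieldRange u := by
  let g : C →+* (IsScalarTower.toAlgHom K C Ω).fieldRange :=
    (algebraMap C Ω).codRestrict _ fun c => ⟨c, rfl⟩
  let _ : Algebra C (IsScalarTower.toAlgHom K C Ω).fieldRange := g.toAlgebra
  have htow : IsScalarTower C (IsScalarTower.toAlgHom K C Ω).fieldRange Ω :=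
    IsScalarTower.of_algebraMap_eq fun c => rfl
  have halg : Algebra.IsAlgebraic C (IsScalarTower.toAlgHom K C Ω).fieldRange := ⟨fun z => by
    obtain ⟨_, c, rfl⟩ := z
    exact isAlgebraic_algebraMap c⟩
  exact hu.extendScalars _

variable {C Ω : Type} [Field C] [Algebra K C] [Field Ω] [Algebra C Ω] [Algebra K Ω]
  [IsScalarTower K C Ω]

theorem closed_T1 (f : C[X])
    (hrel : ∀ z : C, IsAlgebraic (adjoin K (Set.range fun j : Fin n => f.coeff j)) z →
      z ∈ adjoin K (Set.range fun j : Fin n => f.coeff j))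
    (φ : 𝔽 →ₐ[K] Ω)
    (hc : ∀ j : Fin n, φ (uu t x k₀ (Sum.inl j)) = algebraMap C Ω (f.coeff j))
    (hη : AlgebraicIndependent C fun z : {k : κ // k ≠ k₀} × Fin n => φ (uu t x k₀ (Sum.inr z)))
    (z : Ω)
    (hz : z ∈ (IsScalarTower.toAlgHom K C Ω).fieldRange ⊔
      (FixedPoints.intermediateField (Equiv.Perm (Fin n)) : IntermediateField K 𝔽).map φ)
    (ha : IsAlgebraic ((FixedPoints.intermediateField (Equiv.Perm (Fin n)) :
      IntermediateField K 𝔽).map φ) z) :
    z ∈ (FixedPoints.intermediateField (Equiv.Perm (Fin n)) : IntermediateField K 𝔽).map φ := by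
  classical
  set B : IntermediateField K 𝔽 := FixedPoints.intermediateField (Equiv.Perm (Fin n)) with hB
  let ιC := IsScalarTower.toAlgHom K C Ω
  let K₀ : IntermediateField K Ω := (adjoin K (Set.range fun j : Fin n => f.coeff j)).map ιC
  have hK₀ : K₀ = adjoin K (Set.range fun j : Fin n => φ (uu t x k₀ (Sum.inl j))) := by
    change (adjoin K (Set.range fun j : Fin n => f.coeff j)).map ιC = _
    rw [IntermediateField.adjoin_map, ← Set.range_comp]
    congr 2
    funext j
    exact (hc j).symm
  have huB : ∀ v, uu t x k₀ v ∈ B := fun v π => fixed_uu h k₀ π v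
  have hK₀B : K₀ ≤ B.map φ := by
    rw [hK₀, adjoin_le_iff]
    rintro _ ⟨j, rfl⟩
    exact ⟨_, huB _, rfl⟩
  have hK₀C : K₀ ≤ ιC.fieldRange := by
    rintro _ ⟨w, -, rfl⟩
    exact ⟨w, rfl⟩
  obtain ⟨S, hS⟩ := exists_gens h k₀
  refine Pool.Agent.W21.HP.bc Pool.Agent.W417.HP.bc1 Pool.Agent.W803.HP.bc2 K Ω K₀ ιC.fieldRange
    (B.map φ) hK₀C hK₀B ?_ ⟨S.image φ, ?_⟩
    ⟨Finset.univ.image fun z : {k : κ // k ≠ k₀} × Fin n => φ (uu t x k₀ (Sum.inr z)), ?_, ?_, ?_⟩
    z hz ha
  · rintro _ ⟨w, rfl⟩ hw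
    refine ⟨w, ?_, rfl⟩
    apply hrel
    obtain ⟨q, hq0, hq⟩ := hw
    -- transport the equation to `C`
    have e : ∀ y : K₀, ∃ c : adjoin K (Set.range fun j : Fin n => f.coeff j), ιC c = y := by
      rintro ⟨_, c, hc, rfl⟩
      exact ⟨⟨c, hc⟩, rfl⟩
    choose g hg using e
    let gr : K₀ →+* adjoin K (Set.range fun j : Fin n => f.coeff j) :=
      { toFun := g
        map_one' := Subtype.ext (ιC.injective ((hg 1).trans (map_one ιC).symm))
        map_mul' := fun a b => Subtype.ext (ιC.injective ((hg (a * b)).trans (by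
          change ((a : Ω) * b) = ιC ((g a : C) * (g b : C))
          rw [map_mul, hg, hg])))
        map_zero' := Subtype.ext (ιC.injective ((hg 0).trans (map_zero ιC).symm))
        map_add' := fun a b => Subtype.ext (ιC.injective ((hg (a + b)).trans (by
          change ((a : Ω) + b) = ιC ((g a : C) + (g b : C))
          rw [map_add, hg, hg]))) }
    refine ⟨q.map gr, ?_, ?_⟩
    · rwa [Ne, Polynomial.map_eq_zero]
    · apply ιC.injective
      rw [map_zero, ← hq, aeval_def, aeval_def, eval₂_map]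
      change (ιC : C →+* Ω) (eval₂ _ w q) = _
      rw [hom_eval₂]
      congr 1
      ext y
      exact hg y
  · have h1 : B.map φ = adjoin K ((S.image φ : Finset Ω) : Set Ω) := by
      rw [hB, hS, IntermediateField.adjoin_map, Finset.coe_image]
    rw [← h1]
    exact (sup_eq_right.mpr hK₀B).symm
  · intro y hy
    obtain ⟨v, -, rfl⟩ := Finset.mem_image.mp (Finset.mem_coe.mp hy)
    exact ⟨_, huB _, rfl⟩
  · -- algebraic independence over the image of `C`
    have h1 := (indep_fieldRange (K := K) hη).coe_range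
    have h2 : ((Finset.univ.image fun z : {k : κ // k ≠ k₀} × Fin n =>
        φ (uu t x k₀ (Sum.inr z)) : Finset Ω) : Set Ω) =
        Set.range fun z : {k : κ // k ≠ k₀} × Fin n => φ (uu t x k₀ (Sum.inr z)) := by
      rw [Finset.coe_image, Finset.coe_univ, Set.image_univ]
    have h3 : AlgebraicIndependent ιC.fieldRange (fun y : ((Finset.univ.image
        fun z : {k : κ // k ≠ k₀} × Fin n => φ (uu t x k₀ (Sum.inr z)) : Finset Ω) : Set Ω) =>
        (y : Ω)) := by
      rw [h2]
      exact h1
    exact h3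
  · rintro _ ⟨w, hw, rfl⟩
    obtain ⟨q, hq0, hq⟩ := alg_uu h k₀ w
    let TT : Set Ω := ((Finset.univ.image fun z : {k : κ // k ≠ k₀} × Fin n =>
        φ (uu t x k₀ (Sum.inr z)) : Finset Ω) : Set Ω)
    have hmem : ∀ y ∈ adjoin K (Set.range (uu t x k₀)), φ y ∈ adjoin K₀ TT := by
      intro y hy
      induction hy using IntermediateField.adjoin_induction with
      | mem y hy =>
        obtain ⟨v, rfl⟩ := hy
        rcases v with j | v
        · exact IntermediateField.algebraMap_mem (adjoin K₀ TT)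
            (⟨_, by rw [hK₀]; exact subset_adjoin _ _ ⟨j, rfl⟩⟩ : K₀)
        · apply subset_adjoin
          exact Finset.mem_coe.mpr (Finset.mem_image_of_mem
            (fun z : {k : κ // k ≠ k₀} × Fin n => φ (uu t x k₀ (Sum.inr z))) (Finset.mem_univ v))
      | algebraMap c =>
        rw [AlgHom.commutes]
        exact IntermediateField.algebraMap_mem (adjoin K₀ TT) (algebraMap K K₀ c)
      | add a b _ _ ha hb => rw [map_add]; exact add_mem ha hb
      | inv a _ ha => rw [map_inv₀]; exact inv_mem ha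
      | mul a b _ _ ha hb => rw [map_mul]; exact mul_mem ha hb
    let j : adjoin K (Set.range (uu t x k₀)) →+* adjoin K₀ TT :=
      { toFun := fun y => ⟨φ y, hmem y y.2⟩
        map_one' := Subtype.ext (map_one φ)
        map_mul' := fun a b => Subtype.ext (map_mul φ _ _)
        map_zero' := Subtype.ext (map_zero φ)
        map_add' := fun a b => Subtype.ext (map_add φ _ _) }
    have h5 : IsAlgebraic (adjoin K₀ TT) (φ w) := by
      refine ⟨q.map j, ?_, ?_⟩
      · rwa [Ne, Polynomial.map_eq_zero]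
      · have h6 := congrArg (φ : 𝔽 →+* Ω) hq
        rw [map_zero, aeval_def, hom_eval₂] at h6
        rw [aeval_def, eval₂_map]
        exact h6
    exact h5

end

end Pool.Agent.Zk31.DG
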