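import Pool.Agent.Zk31.DG
import Pool.Agent.Zk31.DD

/-! Interpolation with two embeddings, and the parametrization of the norm one elements. -/

set_option autoImplicit false
set_option linter.unusedSectionVars false

namespace Pool.Agent.Zk31.DH

open Polynomial IntermediateField Pool.Agent.Zk31.DA Pool.Agent.Zk31.DE Pool.Agent.Zk31.DD

section

variable {K E κ L : Type} [Field K] [Field E] [Algebra K E] [Fintype κ] [DecidableEq κ]
  (ε : Module.Basis κ K E) [Field L] [Algebra K L] (e : κ ≃ (E →ₐ[K] L)) {n : ℕ}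

/-- The value at `τ` of the polynomial with coefficients in `E ⊗ E`. -/
noncomputable def Ev2 {F : Type} [Field F] [Algebra L F] (ω : κ × κ × Fin n → F)
    (σ σ' : E →ₐ[K] L) (τ : F) : F :=
  ∑ j, ev ε σ' (fun l => ev ε σ (fun k => ω (k, l, j))) * τ ^ (j : ℕ)

include e in
theorem exists_Ev2 {F : Type} [Field F] [Algebra L F] {θ : Fin n → F}
    (hθ : Function.Injective θ) (U : (E →ₐ[K] L) → (E →ₐ[K] L) → Fin n → F) :
    ∃ ω : κ × κ × Fin n → F, ∀ σ σ' i, Ev2 ε ω σ σ' (θ i) = U σ σ' i := by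
  have h1 : ∀ (σ : E →ₐ[K] L) (j : Fin n), ∃ a : κ → F, ∀ σ', ev ε σ' a = co θ (U σ σ') j := by
    intro σ j
    obtain ⟨a, ha, -⟩ := exists_ev (R := F) ε e fun σ' => co θ (U σ σ') j
    exact ⟨a, ha⟩
  choose a ha using h1
  have h2 : ∀ (l : κ) (j : Fin n), ∃ b : κ → F, ∀ σ, ev ε σ b = a σ j l := by
    intro l j
    obtain ⟨b, hb, -⟩ := exists_ev (R := F) ε e fun σ => a σ j l
    exact ⟨b, hb⟩
  choose b hb using h2
  refine ⟨fun z => b z.2.1 z.2.2 z.1, fun σ σ' i => ?_⟩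
  rw [Ev2, ← co_spec hθ (U σ σ') i]
  refine Finset.sum_congr rfl fun j _ => ?_
  congr 1
  have h3 : (fun l => ev ε σ fun k => b l j k) = a σ j := funext fun l => hb l j σ
  exact (congrArg (ev ε σ') h3).trans (ha σ j σ')

include e in
theorem Ev2_unique {F : Type} [Field F] [Algebra L F] {θ : Fin n → F}
    (hθ : Function.Injective θ) {ω ω' : κ × κ × Fin n → F}
    (h : ∀ (σ σ' : E →ₐ[K] L) (i : Fin n), Ev2 ε ω σ σ' (θ i) = Ev2 ε ω' σ σ' (θ i)) :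
    ω = ω' := by
  have h1 : ∀ (σ σ' : E →ₐ[K] L) (j : Fin n),
      ev ε σ' (fun l => ev ε σ (fun k => ω (k, l, j))) =
      ev ε σ' (fun l => ev ε σ (fun k => ω' (k, l, j))) := by
    intro σ σ'
    have h2 := co_unique hθ (fun i => h σ σ' i)
    have h3 := co_unique (v := fun i => Ev2 ε ω' σ σ' (θ i)) (c := fun j =>
      ev ε σ' (fun l => ev ε σ (fun k => ω' (k, l, j)))) hθ (fun i => rfl)
    exact congrFun (h2.trans h3.symm)
  funext z
  obtain ⟨k, l, j⟩ := z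
  have h2 : ∀ σ : E →ₐ[K] L, (fun l => ev ε σ (fun k => ω (k, l, j))) =
      fun l => ev ε σ (fun k => ω' (k, l, j)) := fun σ => ev_injective ε e fun σ' => h1 σ σ' j
  have h3 : (fun k => ω (k, l, j)) = fun k => ω' (k, l, j) := ev_injective ε e fun σ =>
    congrFun (h2 σ) l
  exact congrFun h3 k

theorem Ev2_map {F F' : Type} [Field F] [Algebra L F] [Field F'] [Algebra L F'] (ρ : F →+* F')
    (γ : L ≃ₐ[K] L) (hρ : ∀ l : L, ρ (algebraMap L F l) = algebraMap L F' (γ l))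
    (ω : κ × κ × Fin n → F) (σ σ' : E →ₐ[K] L) (τ : F) :
    ρ (Ev2 ε ω σ σ' τ) = Ev2 ε (fun z => ρ (ω z)) (qq K E L γ σ) (qq K E L γ σ') (ρ τ) := by
  rw [Ev2, map_sum, Ev2]
  refine Finset.sum_congr rfl fun j _ => ?_
  rw [map_mul, map_pow, ev_map ε ρ γ hρ]
  congr 1
  have h1 : (fun l => ρ (ev ε σ fun k => ω (k, l, j))) =
      fun l => ev ε (qq K E L γ σ) fun k => ρ (ω (k, l, j)) := funext fun l =>
    ev_map ε ρ γ hρ σ _
  exact congrArg (ev ε (qq K E L γ σ')) h1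

end

section yy

variable {Q F : Type} [Fintype Q] [DecidableEq Q] [Field F]

/-- The norm one elements. -/
noncomputable def yy (U : Q → Q → F) (σ : Q) : F := ∏ σ', U σ σ' * (U σ' σ)⁻¹

theorem prod_yy {U : Q → Q → F} (hU : ∀ σ σ', U σ σ' ≠ 0) : ∏ σ, yy U σ = 1 := by
  have h1 : ∏ σ, yy U σ = (∏ σ, ∏ σ', U σ σ') * (∏ σ, ∏ σ', U σ' σ)⁻¹ := by
    rw [← Finset.prod_inv_distrib, ← Finset.prod_mul_distrib]
    refine Finset.prod_congr rfl fun σ _ => ?_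
    rw [yy, Finset.prod_mul_distrib, Finset.prod_inv_distrib]
  rw [h1, Finset.prod_comm (f := fun σ σ' => U σ' σ)]
  apply mul_inv_cancel₀
  exact Finset.prod_ne_zero_iff.mpr fun σ _ => Finset.prod_ne_zero_iff.mpr fun σ' _ => hU _ _

theorem yy_ne {U : Q → Q → F} (hU : ∀ σ σ', U σ σ' ≠ 0) (σ : Q) : yy U σ ≠ 0 :=
  Finset.prod_ne_zero_iff.mpr fun σ' _ => mul_ne_zero (hU _ _) (inv_ne_zero (hU _ _))

/-- The solution of `yy U = y` with given free entries. -/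
noncomputable def UU (σ₁ : Q) (V : Q → Q → F) (y : Q → F) (σ σ' : Q) : F :=
  if σ' = σ₁ ∧ σ ≠ σ₁ then V σ σ' * (y σ * (yy V σ)⁻¹) else V σ σ'

theorem UU_ne (σ₁ : Q) {V : Q → Q → F} {y : Q → F} (hV : ∀ σ σ', V σ σ' ≠ 0)
    (hy : ∀ σ, y σ ≠ 0) (σ σ' : Q) : UU σ₁ V y σ σ' ≠ 0 := by
  rw [UU]
  split_ifs
  · exact mul_ne_zero (hV _ _) (mul_ne_zero (hy _) (inv_ne_zero (yy_ne hV _)))
  · exact hV _ _

theorem yy_UU (σ₁ : Q) {V : Q → Q → F} {y : Q → F} (hV : ∀ σ σ', V σ σ' ≠ 0)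
    (hy : ∀ σ, y σ ≠ 0) (hy1 : ∏ σ, y σ = 1) (σ : Q) : yy (UU σ₁ V y) σ = y σ := by
  have h1 : ∀ σ, σ ≠ σ₁ → yy (UU σ₁ V y) σ = y σ := by
    intro σ hσ
    have h2 : ∀ σ', UU σ₁ V y σ σ' * (UU σ₁ V y σ' σ)⁻¹ =
        (V σ σ' * (V σ' σ)⁻¹) * (if σ' = σ₁ then y σ * (yy V σ)⁻¹ else 1) := by
      intro σ'
      have h3 : UU σ₁ V y σ' σ = V σ' σ := by
        rw [UU, if_neg]
        exact fun h => hσ h.1
      rw [h3, UU]
      by_cases h4 : σ' = σ₁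
      · rw [if_pos ⟨h4, hσ⟩, if_pos h4]; ring
      · rw [if_neg (fun h => h4 h.1), if_neg h4, mul_one]
    rw [yy]
    simp only [h2]
    rw [Finset.prod_mul_distrib, Finset.prod_ite_eq' Finset.univ, if_pos (Finset.mem_univ _)]
    change yy V σ * (y σ * (yy V σ)⁻¹) = y σ
    rw [mul_comm (y σ), ← mul_assoc, mul_inv_cancel₀ (yy_ne hV σ), one_mul]
  by_cases hσ : σ = σ₁
  · subst hσ
    have h2 := prod_yy (UU_ne σ hV hy)
    rw [← Finset.mul_prod_erase Finset.univ _ (Finset.mem_univ σ)] at h2 hy1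
    have h3 : ∏ x ∈ Finset.univ.erase σ, yy (UU σ V y) x = ∏ x ∈ Finset.univ.erase σ, y x :=
      Finset.prod_congr rfl fun x hx => h1 x (Finset.mem_erase.mp hx).1
    rw [h3, ← hy1] at h2
    have h4 : ∏ x ∈ Finset.univ.erase σ, y x ≠ 0 := Finset.prod_ne_zero_iff.mpr fun x _ => hy x
    exact mul_right_cancel₀ h4 h2
  · exact h1 σ hσ

end yy

end Pool.Agent.Zk31.DH
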