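import Pool.Agent.Zk31.DH

/-! Automorphisms and the values of a point of a power. -/

set_option autoImplicit false
set_option linter.unusedSectionVars false

namespace Pool.Agent.Zk31.DI

open Polynomial IntermediateField Pool.Agent.Zk31.DA Pool.Agent.Zk31.DE Pool.Agent.Zk31.DD
  Pool.Agent.Zk31.DVoc Pool.Agent.Zk31.DF Pool.Agent.Zk31.DG Pool.Agent.Zk31.DH

/-- Algebraicity under homomorphisms. -/
theorem alg_map {k F F' : Type} [Field k] [Field F] [Algebra k F] [Field F'] [Algebra k F']
    (j : F →+* F') (A : IntermediateField k F) (B : IntermediateField k F')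
    (hAB : ∀ a ∈ A, j a ∈ B) {z : F} (hz : IsAlgebraic A z) : IsAlgebraic B (j z) := by
  obtain ⟨q, hq0, hq⟩ := hz
  let g : A →+* B :=
    { toFun := fun y => ⟨j y, hAB y y.2⟩
      map_one' := Subtype.ext (map_one j)
      map_mul' := fun a b => Subtype.ext (map_mul j _ _)
      map_zero' := Subtype.ext (map_zero j)
      map_add' := fun a b => Subtype.ext (map_add j _ _) }
  refine ⟨q.map g, ?_, ?_⟩
  · rwa [Ne, Polynomial.map_eq_zero]
  · have h6 := congrArg j hq
    rw [map_zero, aeval_def, hom_eval₂] at h6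
    rw [aeval_def, eval₂_map]
    exact h6

/-- The same with two base fields. -/
theorem alg_map' {k k' F F' : Type} [Field k] [Field k'] [Field F] [Algebra k F] [Field F']
    [Algebra k' F'] (j : F →+* F') (A : IntermediateField k F) (B : IntermediateField k' F')
    (hAB : ∀ a ∈ A, j a ∈ B) {z : F} (hz : IsAlgebraic A z) : IsAlgebraic B (j z) := by
  obtain ⟨q, hq0, hq⟩ := hz
  let g : A →+* B :=
    { toFun := fun y => ⟨j y, hAB y y.2⟩
      map_one' := Subtype.ext (map_one j)
      map_mul' := fun a b => Subtype.ext (map_mul j _ _)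
      map_zero' := Subtype.ext (map_zero j)
      map_add' := fun a b => Subtype.ext (map_add j _ _) }
  refine ⟨q.map g, ?_, ?_⟩
  · rwa [Ne, Polynomial.map_eq_zero]
  · have h6 := congrArg j hq
    rw [map_zero, aeval_def, hom_eval₂] at h6
    rw [aeval_def, eval₂_map]
    exact h6

/-- An automorphism fixing the image of the field of invariants of a finite group acts on the image
of the field as an element of the group. -/
theorem aut_of_fix {G F D : Type} [Group G] [Finite G] [Field F] [MulSemiringAction G F] [Field D]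
    (φ : F →+* D) (ρ : D ≃+* D) (h : ∀ b : F, (∀ g : G, g • b = b) → ρ (φ b) = φ b) :
    ∃ g : G, ∀ z, ρ (φ z) = φ (g • z) := by
  let B := FixedPoints.subfield G F
  let _ : Algebra F D := φ.toAlgebra
  let ρ' : D ≃ₐ[B] D := { ρ with
    commutes' := fun b => h b b.2 }
  have hn : Normal B F := FixedPoints.normal G F
  let g' : F ≃ₐ[B] F := ρ'.restrictNormal F
  obtain ⟨g, hg⟩ := FixedPoints.toAlgAut_surjective G F g'
  refine ⟨g, fun z => ?_⟩
  have h1 : algebraMap F D (g' z) = ρ' (algebraMap F D z) := ρ'.restrictNormal_commutes F z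
  have h2 : g • z = g' z := congrArg (fun f : F ≃ₐ[B] F => f z) hg
  rw [h2]
  exact h1.symm

section

variable {K L Cf F : Type} [Field K] [Field L] [Algebra K L] [Normal K L] [Field Cf]
  [Algebra K Cf] [Field F] [Algebra Cf F] [Algebra K F] [IsScalarTower K Cf F] [Algebra L F]
  [IsScalarTower K L F]

/-- An automorphism over `Cf` permutes the roots and acts on `L`. -/
theorem exists_pi_gamma {n : ℕ} {θ : Fin n → F} (hθ : Function.Injective θ) {f : Cf[X]}
    (hf : f.map (algebraMap Cf F) = ∏ i, (X - C (θ i))) (ρ : F ≃ₐ[Cf] F) :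
    ∃ (π : Equiv.Perm (Fin n)) (γ : L ≃ₐ[K] L), (∀ i, ρ (θ i) = θ (π i)) ∧
      ∀ l : L, ρ (algebraMap L F l) = algebraMap L F (γ l) := by
  have h1 : ∀ i, ∃ j, ρ (θ i) = θ j := by
    intro i
    have h2 : (f.map (algebraMap Cf F)).eval (ρ (θ i)) = 0 := by
      have h3 : (f.map (algebraMap Cf F)).eval (θ i) = 0 := by
        rw [hf, eval_prod]
        exact Finset.prod_eq_zero (Finset.mem_univ i) (by rw [eval_sub, eval_X, eval_C, sub_self])
      rw [eval_map_algebraMap] at h3 ⊢
      have h4 := congrArg ρ h3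
      rw [map_zero] at h4
      rw [← h4]
      exact (aeval_algHom_apply (ρ : F →ₐ[Cf] F) (θ i) f)
    rw [hf, eval_prod, Finset.prod_eq_zero_iff] at h2
    obtain ⟨j, -, hj⟩ := h2
    rw [eval_sub, eval_X, eval_C, sub_eq_zero] at hj
    exact ⟨j, hj⟩
  choose p hp using h1
  have hpi : Function.Injective p := by
    intro i j hij
    apply hθ
    apply ρ.injective
    rw [hp, hp, hij]
  let π : Equiv.Perm (Fin n) := Equiv.ofBijective p (Finite.injective_iff_bijective.mp hpi)
  let ρK : F ≃ₐ[K] F := ρ.restrictScalars K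
  refine ⟨π, ρK.restrictNormal L, hp, fun l => ?_⟩
  exact (ρK.restrictNormal_commutes L l).symm

end

end Pool.Agent.Zk31.DI
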