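import Pool.Agent.Zk31.DI

/-! The core: the field of invariants of a power inside a field of rational functions. -/

set_option autoImplicit false
set_option linter.unusedSectionVars false

namespace Pool.Agent.Zk31.DJ

open Polynomial IntermediateField Pool.Agent.Zk31.DA Pool.Agent.Zk31.DE Pool.Agent.Zk31.DD
  Pool.Agent.Zk31.DVoc Pool.Agent.Zk31.DF Pool.Agent.Zk31.DG Pool.Agent.Zk31.DH Pool.Agent.Zk31.DI

section mem

variable {K E κ L : Type} [Field K] [Field E] [Algebra K E] [Fintype κ] [DecidableEq κ]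
  (ε : Module.Basis κ K E) [Field L] [Algebra K L] (e : κ ≃ (E →ₐ[K] L)) {n : ℕ}
  {F : Type} [Field F] [Algebra L F]

theorem ev_in (A : Subfield F) (hL : ∀ l : L, algebraMap L F l ∈ A) {x : κ → F}
    (hx : ∀ k, x k ∈ A) (σ : E →ₐ[K] L) : ev ε σ x ∈ A :=
  A.sum_mem fun k _ => A.mul_mem (hx k) (hL _)


theorem Ev2_in (A : Subfield F) (hL : ∀ l : L, algebraMap L F l ∈ A) {ω : κ × κ × Fin n → F}
    (hω : ∀ z, ω z ∈ A) {τ : F} (hτ : τ ∈ A) (σ σ' : E →ₐ[K] L) : Ev2 ε ω σ σ' τ ∈ A :=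
  A.sum_mem fun j _ => A.mul_mem
    (ev_in ε A hL (fun l => ev_in ε A hL (fun k => hω _) σ) σ') (A.pow_mem hτ _)

include e in
theorem ev_mem (A : Subfield F) (hL : ∀ l : L, algebraMap L F l ∈ A) {x : κ → F}
    (hx : ∀ σ : E →ₐ[K] L, ev ε σ x ∈ A) (k : κ) : x k ∈ A := by
  let _ : Algebra L A := ((algebraMap L F).codRestrict A hL).toAlgebra
  obtain ⟨y, hy, -⟩ := exists_ev (R := A) ε e fun σ => ⟨ev ε σ x, hx σ⟩
  have h1 : (fun k => (y k : F)) = x := by
    apply ev_injective ε e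
    intro σ
    have h2 := ev_map' (L := L) ε A.subtype (fun l => rfl) σ y
    rw [hy] at h2
    exact h2.symm
  rw [← h1]
  exact (y k).2

include e in
theorem Ev2_mem (A : Subfield F) (hL : ∀ l : L, algebraMap L F l ∈ A) {θ : Fin n → F}
    (hθ : Function.Injective θ) (hθA : ∀ i, θ i ∈ A) {ω : κ × κ × Fin n → F}
    (hω : ∀ (σ σ' : E →ₐ[K] L) i, Ev2 ε ω σ σ' (θ i) ∈ A) (z : κ × κ × Fin n) : ω z ∈ A := by
  let _ : Algebra L A := ((algebraMap L F).codRestrict A hL).toAlgebra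
  have hθ' : Function.Injective fun i => (⟨θ i, hθA i⟩ : A) := fun i j hij =>
    hθ (congrArg Subtype.val hij)
  obtain ⟨y, hy⟩ := exists_Ev2 (F := A) ε e hθ' fun σ σ' i => ⟨Ev2 ε ω σ σ' (θ i), hω σ σ' i⟩
  have h1 : (fun z => (y z : F)) = ω := by
    apply Ev2_unique ε e hθ
    intro σ σ' i
    have h2 := Ev2_map ε A.subtype (AlgEquiv.refl : L ≃ₐ[K] L) (fun l => rfl) y σ σ'
      (⟨θ i, hθA i⟩ : A)
    rw [hy] at h2
    exact h2.symm
  rw [← h1]
  exact (y z).2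

include e in
theorem ev_ne [Algebra K F] [IsScalarTower K L F] [Fintype (E →ₐ[K] L)] {x : κ → F}
    (hx : normForm ε x ≠ 0) (σ : E →ₐ[K] L) : ev ε σ x ≠ 0 := by
  intro h
  apply hx
  rw [normForm_eq ε e]
  exact Finset.prod_eq_zero (Finset.mem_univ σ) h

end mem

/-- Elements algebraic over a subfield, as an intermediate field. -/
theorem exists_alg {k F : Type} [Field k] [Field F] [Algebra k F] (A : IntermediateField k F) :
    ∃ Z : IntermediateField k F, (∀ z, z ∈ Z ↔ IsAlgebraic A z) ∧ A ≤ Z ∧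
      (∀ z, IsAlgebraic Z z → z ∈ Z) := by
  refine ⟨(algebraicClosure A F).restrictScalars k, fun z => ?_, ?_, ?_⟩
  · change z ∈ algebraicClosure A F ↔ _
    rw [mem_algebraicClosure_iff]
  · intro z hz
    change z ∈ algebraicClosure A F
    rw [mem_algebraicClosure_iff]
    exact isAlgebraic_algebraMap (⟨z, hz⟩ : A)
  · intro z hz
    change z ∈ algebraicClosure A F
    rw [mem_algebraicClosure_iff]
    have h1 : IsAlgebraic (algebraicClosure A F) z := hz
    exact h1.restrictScalars A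

theorem aeval_mem {k F : Type} [Field k] [Field F] [Algebra k F] (A : IntermediateField k F)
    {x : F} (hx : x ∈ A) (p : k[X]) : aeval x p ∈ A := by
  have h2 := aeval_algebraMap_apply F (⟨x, hx⟩ : A) p
  have h3 : aeval x p = algebraMap A F (aeval (⟨x, hx⟩ : A) p) := h2
  rw [h3]
  exact SetLike.coe_mem _

section

variable {K E κ 𝔽 : Type} [Field K] [CharZero K] [Field E] [Algebra K E] [FiniteDimensional K E]
  [Fintype κ] [DecidableEq κ] {ε : Module.Basis κ K E} {P : K[X]} {n : ℕ} [Field 𝔽] [Algebra K 𝔽]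
  [MulSemiringAction (Equiv.Perm (Fin n)) 𝔽] [SMulCommClass (Equiv.Perm (Fin n)) K 𝔽]
  {t : Fin n → 𝔽} {x : Fin n → κ → 𝔽} (h : PowerField ε P n t x) (k₀ : κ)
  {L : Type} [Field L] [Algebra K L] [Normal K L] [Fintype (E →ₐ[K] L)]
  [DecidableEq (E →ₐ[K] L)] (e : κ ≃ (E →ₐ[K] L))
  {Cf D : Type} [Field Cf] [Algebra K Cf] [Field D] [Algebra Cf D] [Algebra K D]
  [IsScalarTower K Cf D] [Algebra L D] [IsScalarTower K L D]
  (φ : 𝔽 →ₐ[K] D) (X₀ : κ → Cf[X])

/-- the auxiliary points -/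
noncomputable def xo (t : Fin n → 𝔽) (i : Fin n) (k : κ) : D := aeval (φ (t i)) (X₀ k)

variable (ε x) in
/-- the norm one elements -/
noncomputable def y1 (t : Fin n → 𝔽) (σ : E →ₐ[K] L) (i : Fin n) : D :=
  ev ε σ (fun k => φ (x i k)) * (ev ε σ (xo φ X₀ t i))⁻¹

include h in
theorem norm_xi (i : Fin n) : normForm ε (fun k => φ (x i k)) = aeval (φ (t i)) P := by
  have h1 := normForm_map ε (φ : 𝔽 →+* D) (fun c => φ.commutes c) (x i)
  rw [h.equation] at h1
  rw [aeval_algHom_apply]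
  exact h1.symm

theorem norm_xo {f : Cf[X]} (hroot : ∀ i, aeval (φ (t i)) f = 0)
    (hdvd : f ∣ normForm ε X₀ - P.map (algebraMap K Cf)) (i : Fin n) :
    normForm ε (xo φ X₀ t i) = aeval (φ (t i)) P := by
  have h1 := normForm_map ε (aeval (φ (t i)) : Cf[X] →ₐ[Cf] D).toRingHom (fun c => by
    change aeval (φ (t i)) (algebraMap K Cf[X] c) = _
    rw [IsScalarTower.algebraMap_apply K Cf Cf[X], AlgHom.commutes,
      ← IsScalarTower.algebraMap_apply]) X₀
  obtain ⟨g, hg⟩ := hdvd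
  have h2 : aeval (φ (t i)) (normForm ε X₀ - P.map (algebraMap K Cf)) = 0 := by
    rw [hg, map_mul, hroot, zero_mul]
  rw [map_sub, sub_eq_zero, aeval_map_algebraMap] at h2
  rw [← h2]
  exact h1.symm

include h k₀ in
theorem P_ne (hP : P ≠ 0) (i : Fin n) : aeval (φ (t i)) P ≠ 0 := by
  rw [aeval_algHom_apply]
  intro h1
  have h2 : aeval (t i) P = 0 := φ.injective (h1.trans (map_zero φ).symm)
  have h3 : Transcendental K (t i) := (indep_t h k₀).transcendental i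
  exact h3 ⟨P, hP, h2⟩

include h k₀ in
theorem root_t {f : Cf[X]} (hmon : f.Monic) (hdeg : f.natDegree = n)
    (hc : ∀ j : Fin n, φ (uu t x k₀ (Sum.inl j)) = algebraMap Cf D (f.coeff j)) :
    f.map (algebraMap Cf D) = ∏ i, (X - C (φ (t i))) := by
  have h1 : (pt t).map (φ : 𝔽 →+* D) = ∏ i, (X - C (φ (t i))) := by
    rw [pt, Polynomial.map_prod]
    refine Finset.prod_congr rfl fun i _ => ?_
    rw [Polynomial.map_sub, map_X, map_C]
    rfl
  rw [← h1]
  have hmp : (pt t).Monic := monic_prod_of_monic _ _ fun i _ => monic_X_sub_C _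
  have hdp : (pt t).natDegree = n := by
    rw [pt, natDegree_prod_of_monic _ _ fun i _ => monic_X_sub_C _]
    simp
  ext j
  rw [coeff_map, coeff_map]
  by_cases hj : j < n
  · exact (hc ⟨j, hj⟩).symm
  · by_cases hj2 : j = n
    · have h2 := hmon.coeff_natDegree
      have h3 := hmp.coeff_natDegree
      rw [hdeg] at h2
      rw [hdp] at h3
      rw [hj2, h2, h3, map_one, map_one]
    · rw [coeff_eq_zero_of_natDegree_lt (by rw [hdeg]; omega),
        coeff_eq_zero_of_natDegree_lt (by rw [hdp]; omega), map_zero, map_zero]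

theorem root_of {f : Cf[X]} (hf : f.map (algebraMap Cf D) = ∏ i, (X - C (φ (t i)))) (i : Fin n) :
    aeval (φ (t i)) f = 0 := by
  rw [← eval_map_algebraMap, hf, eval_prod]
  exact Finset.prod_eq_zero (Finset.mem_univ i) (by rw [eval_sub, eval_X, eval_C, sub_self])

include h k₀ e in
theorem y1_facts {f : Cf[X]} (hf : f.map (algebraMap Cf D) = ∏ i, (X - C (φ (t i))))
    (hdvd : f ∣ normForm ε X₀ - P.map (algebraMap K Cf)) (hP : P ≠ 0) (i : Fin n) :
    (∀ σ : E →ₐ[K] L, ev ε σ (fun k => φ (x i k)) ≠ 0) ∧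
    (∀ σ : E →ₐ[K] L, ev ε σ (xo φ X₀ t i) ≠ 0) ∧
    (∀ σ : E →ₐ[K] L, y1 ε x φ X₀ t σ i ≠ 0) ∧ ∏ σ : E →ₐ[K] L, y1 ε x φ X₀ t σ i = 1 := by
  have h1 := norm_xi h φ i
  have h2 := norm_xo (ε := ε) (P := P) φ X₀ (root_of φ hf) hdvd i
  have h3 := P_ne h k₀ φ hP i
  have h4 : ∀ σ : E →ₐ[K] L, ev ε σ (fun k => φ (x i k)) ≠ 0 := ev_ne ε e (by rw [h1]; exact h3)
  have h5 : ∀ σ : E →ₐ[K] L, ev ε σ (xo φ X₀ t i) ≠ 0 := ev_ne ε e (by rw [h2]; exact h3)
  refine ⟨h4, h5, fun σ => mul_ne_zero (h4 σ) (inv_ne_zero (h5 σ)), ?_⟩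
  have h6 : ∏ σ : E →ₐ[K] L, y1 ε x φ X₀ t σ i =
      (∏ σ : E →ₐ[K] L, ev ε σ (fun k => φ (x i k))) *
      (∏ σ : E →ₐ[K] L, ev ε σ (xo φ X₀ t i))⁻¹ := by
    rw [← Finset.prod_inv_distrib, ← Finset.prod_mul_distrib]
    rfl
  rw [h6, ← normForm_eq ε e, ← normForm_eq ε e, h1, h2]
  exact mul_inv_cancel₀ h3

end

end Pool.Agent.Zk31.DJ
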