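import Pool.Agent.Zk31.DJ

/-! The core: the field of invariants of a power inside a field of rational functions. -/

set_option autoImplicit false
set_option linter.unusedSectionVars false
set_option linter.unusedVariables false

namespace Pool.Agent.Zk31.DK

open Polynomial IntermediateField Pool.Agent.Zk31.DA Pool.Agent.Zk31.DE Pool.Agent.Zk31.DD
  Pool.Agent.Zk31.DVoc Pool.Agent.Zk31.DF Pool.Agent.Zk31.DG Pool.Agent.Zk31.DH Pool.Agent.Zk31.DI
  Pool.Agent.Zk31.DJ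

/-- the index set of the free variables -/
abbrev JV {Q : Type} (σ₁ : Q) (n : ℕ) : Type := {z : Q × Q // ¬ (z.2 = σ₁ ∧ z.1 ≠ σ₁)} × Fin n

open scoped Classical in
/-- the free variables, extended by 1 -/
noncomputable def V1 {Q Ω : Type} [Field Ω] {n : ℕ} (σ₁ : Q) (V : JV σ₁ n → Ω) (i : Fin n)
    (a b : Q) : Ω := if hh : ¬ (b = σ₁ ∧ a ≠ σ₁) then V (⟨(a, b), hh⟩, i) else 1

theorem V1_ne {Q Ω : Type} [Field Ω] {n : ℕ} (σ₁ : Q) {V : JV σ₁ n → Ω} (hV : ∀ z, V z ≠ 0)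
    (i : Fin n) (a b : Q) : V1 σ₁ V i a b ≠ 0 := by
  rw [V1]
  by_cases hh : ¬ (b = σ₁ ∧ a ≠ σ₁)
  · rw [dif_pos hh]; exact hV _
  · rw [dif_neg hh]; exact one_ne_zero

section

variable {K E κ 𝔽 : Type} [Field K] [CharZero K] [Field E] [Algebra K E] [FiniteDimensional K E]
  [Fintype κ] [DecidableEq κ] {ε : Module.Basis κ K E} {P : K[X]} {n : ℕ} [Field 𝔽] [Algebra K 𝔽]
  [MulSemiringAction (Equiv.Perm (Fin n)) 𝔽] [SMulCommClass (Equiv.Perm (Fin n)) K 𝔽]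
  {t : Fin n → 𝔽} {x : Fin n → κ → 𝔽} (h : PowerField ε P n t x) (k₀ : κ)
  {L : Type} [Field L] [Algebra K L] [Normal K L] [Fintype (E →ₐ[K] L)]
  [DecidableEq (E →ₐ[K] L)] (e : κ ≃ (E →ₐ[K] L)) (σ₁ : E →ₐ[K] L)
  {Cf D Ω : Type} [Field Cf] [Algebra K Cf] [Field D] [Algebra Cf D] [Algebra K D]
  [IsScalarTower K Cf D] [Algebra L D] [IsScalarTower K L D]
  [Field Ω] [Algebra D Ω] [Algebra Cf Ω] [IsScalarTower Cf D Ω] [Algebra K Ω]
  [IsScalarTower K D Ω] [IsScalarTower K Cf Ω] [Algebra L Ω] [IsScalarTower L D Ω]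
  [IsScalarTower K L Ω]
  (φ : 𝔽 →ₐ[K] D) (X₀ : κ → Cf[X]) (V : JV σ₁ n → Ω)

variable (ε x) in
/-- the full system of values -/
noncomputable def U3 (t : Fin n → 𝔽) (σ σ' : E →ₐ[K] L) (i : Fin n) : Ω :=
  UU σ₁ (V1 σ₁ V i) (fun a => algebraMap D Ω (y1 ε x φ X₀ t a i)) σ σ'

theorem U3_free (σ σ' : E →ₐ[K] L) (hh : ¬ (σ' = σ₁ ∧ σ ≠ σ₁)) (i : Fin n) :
    U3 ε x σ₁ φ X₀ V t σ σ' i = V (⟨(σ, σ'), hh⟩, i) := by
  rw [U3, UU, if_neg hh, V1, dif_pos hh]

variable {f : Cf[X]} (hf : f.map (algebraMap Cf D) = ∏ i, (X - C (φ (t i))))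
    (hdvd : f ∣ normForm ε X₀ - P.map (algebraMap K Cf)) (hP : P ≠ 0) (hV : ∀ z, V z ≠ 0)

include h k₀ e hf hdvd hP hV in
theorem yy_U3 (i : Fin n) (σ : E →ₐ[K] L) :
    yy (fun a b => U3 ε x σ₁ φ X₀ V t a b i) σ = algebraMap D Ω (y1 ε x φ X₀ t σ i) := by
  obtain ⟨-, -, h3, h4⟩ := y1_facts h k₀ e φ X₀ hf hdvd hP i
  refine yy_UU σ₁ (V1_ne σ₁ hV i) (fun a => ?_) ?_ σ
  · rw [Ne, map_eq_zero]; exact h3 a
  · rw [← map_prod, h4, map_one]

include h k₀ in
theorem inj_θ : Function.Injective fun i => algebraMap D Ω (φ (t i)) := fun i j hij =>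
  inj_t h k₀ (φ.injective ((algebraMap D Ω).injective hij))

variable (ω : κ × κ × Fin n → Ω)
  (hω : ∀ (σ σ' : E →ₐ[K] L) (i : Fin n), Ev2 ε ω σ σ' (algebraMap D Ω (φ (t i))) =
    U3 ε x σ₁ φ X₀ V t σ σ' i)

include h k₀ e hf hdvd hP hV hω in
/-- The parameters generate up to algebraic extensions. -/
theorem S1 (hD : ∀ z : D, IsAlgebraic
      (adjoin Cf (Set.range fun v : {k : κ // k ≠ k₀} × Fin n => φ (uu t x k₀ (Sum.inr v)))) z)
    (hΩ : ∀ z : Ω, IsAlgebraic (adjoin D (Set.range V)) z) (z : Ω) :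
    IsAlgebraic (adjoin Cf (Set.range ω)) z := by
  obtain ⟨Z, hZ1, hZ2, hZ3⟩ := exists_alg (adjoin Cf (Set.range ω))
  rw [← hZ1]
  have hLalg : ∀ l : L, IsAlgebraic Cf (algebraMap L Ω l) := by
    intro l
    have h1 : IsAlgebraic K (algebraMap L Ω l) := (Algebra.IsAlgebraic.isAlgebraic l).algebraMap
    exact h1.tower_top Cf
  have hLZ : ∀ l : L, algebraMap L Ω l ∈ Z.toSubfield := fun l =>
    hZ3 _ ((hLalg l).tower_top Z)
  have hθalg : ∀ i, IsAlgebraic Cf (φ (t i)) := by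
    intro i
    refine ⟨f, ?_, root_of φ hf i⟩
    intro h0
    rw [h0, Polynomial.map_zero] at hf
    exact (Finset.prod_ne_zero_iff.mpr fun i _ => X_sub_C_ne_zero (φ (t i))) hf.symm
  have hθZ : ∀ i, algebraMap D Ω (φ (t i)) ∈ Z.toSubfield := fun i =>
    hZ3 _ (((hθalg i).algebraMap).tower_top Z)
  have hωZ : ∀ z, ω z ∈ Z.toSubfield := fun z => hZ2 (subset_adjoin _ _ ⟨z, rfl⟩)
  have hUZ : ∀ σ σ' i, U3 ε x σ₁ φ X₀ V t σ σ' i ∈ Z.toSubfield := by
    intro σ σ' i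
    rw [← hω]
    exact Ev2_in ε _ hLZ hωZ (hθZ i) σ σ'
  have hyZ : ∀ (σ : E →ₐ[K] L) i, algebraMap D Ω (y1 ε x φ X₀ t σ i) ∈ Z.toSubfield := by
    intro σ i
    rw [← yy_U3 h k₀ e σ₁ φ X₀ V hf hdvd hP hV]
    exact Z.toSubfield.prod_mem fun a _ => Z.toSubfield.mul_mem (hUZ _ _ _)
      (Z.toSubfield.inv_mem (hUZ _ _ _))
  have hxoZ : ∀ i k, algebraMap D Ω (xo φ X₀ t i k) ∈ Z.toSubfield := by
    intro i k
    obtain ⟨A, hA1, hA2, hA3⟩ := exists_alg (⊥ : IntermediateField Cf D)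
    have h1 : φ (t i) ∈ A := (hA1 _).mpr
      ((hθalg i).tower_top (⊥ : IntermediateField Cf D))
    have h2 : aeval (φ (t i)) (X₀ k) ∈ A := aeval_mem A h1 _
    have h3 : IsAlgebraic (⊥ : IntermediateField Cf D) (xo φ X₀ t i k) := (hA1 _).mp h2
    have h4 := alg_map' (algebraMap D Ω) (⊥ : IntermediateField Cf D) Z (fun a ha => by
      obtain ⟨c, rfl⟩ := ha
      change algebraMap D Ω (algebraMap Cf D c) ∈ Z
      rw [← IsScalarTower.algebraMap_apply]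
      exact Z.algebraMap_mem c) h3
    exact hZ3 _ h4
  have hxiZ : ∀ i k, algebraMap D Ω (φ (x i k)) ∈ Z.toSubfield := by
    intro i
    apply ev_mem ε e Z.toSubfield hLZ (x := fun k => algebraMap D Ω (φ (x i k)))
    intro σ
    obtain ⟨h1, h2, h3, h4⟩ := y1_facts h k₀ e φ X₀ hf hdvd hP i
    have h5 : ev ε σ (fun k => algebraMap D Ω (φ (x i k))) =
        algebraMap D Ω (y1 ε x φ X₀ t σ i) *
          ev ε σ (fun k => algebraMap D Ω (xo φ X₀ t i k)) := by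
      rw [← ev_map' ε (algebraMap D Ω) (fun l => (IsScalarTower.algebraMap_apply L D Ω l).symm),
        ← ev_map' ε (algebraMap D Ω) (fun l => (IsScalarTower.algebraMap_apply L D Ω l).symm),
        ← map_mul, y1, inv_mul_cancel_right₀ (h2 σ)]
    rw [h5]
    exact Z.toSubfield.mul_mem (hyZ σ i) (ev_in ε _ hLZ (hxoZ i) σ)
  have hφZ : ∀ w : 𝔽, algebraMap D Ω (φ w) ∈ Z := by
    intro w
    let j : 𝔽 →ₐ[K] Ω := (IsScalarTower.toAlgHom K D Ω).comp φ
    have h1 : (⊤ : IntermediateField K 𝔽) ≤ (Z.restrictScalars K).comap j := by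
      rw [← h.generates, adjoin_le_iff]
      rintro _ (⟨i, rfl⟩ | ⟨v, rfl⟩)
      · exact hθZ i
      · exact hxiZ v.1 v.2
    exact h1 trivial
  have hDZ : ∀ δ : D, algebraMap D Ω δ ∈ Z := by
    intro δ
    refine hZ3 _ (alg_map' (algebraMap D Ω) _ Z ?_ (hD δ))
    intro a ha
    induction ha using IntermediateField.adjoin_induction with
    | mem a ha => obtain ⟨v, rfl⟩ := ha; exact hφZ _
    | algebraMap c => rw [← IsScalarTower.algebraMap_apply]; exact Z.algebraMap_mem c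
    | add a b _ _ ha hb => rw [map_add]; exact add_mem ha hb
    | inv a _ ha => rw [map_inv₀]; exact inv_mem ha
    | mul a b _ _ ha hb => rw [map_mul]; exact mul_mem ha hb
  have hVZ : ∀ v, V v ∈ Z := by
    rintro ⟨⟨⟨σ, σ'⟩, hh⟩, i⟩
    rw [← U3_free (ε := ε) (x := x) (t := t) σ₁ φ X₀ V σ σ' hh i]
    exact hUZ _ _ _
  refine hZ3 _ (alg_map' (RingHom.id Ω) _ Z ?_ (hΩ z))
  intro a ha
  induction ha using IntermediateField.adjoin_induction with
  | mem a ha => obtain ⟨v, rfl⟩ := ha; exact hVZ _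
  | algebraMap c => exact hDZ c
  | add a b _ _ ha hb => rw [map_add]; exact add_mem ha hb
  | inv a _ ha => rw [map_inv₀]; exact inv_mem ha
  | mul a b _ _ ha hb => rw [map_mul]; exact mul_mem ha hb

include h k₀ e hf hdvd hP in
theorem ev_xi (i : Fin n) (σ : E →ₐ[K] L) : ev ε σ (fun k => algebraMap D Ω (φ (x i k))) =
    algebraMap D Ω (y1 ε x φ X₀ t σ i) *
      ev ε σ (fun k => algebraMap D Ω (xo φ X₀ t i k)) := by
  obtain ⟨h1, h2, h3, h4⟩ := y1_facts h k₀ e φ X₀ hf hdvd hP i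
  rw [← ev_map' ε (algebraMap D Ω) (fun l => (IsScalarTower.algebraMap_apply L D Ω l).symm),
    ← ev_map' ε (algebraMap D Ω) (fun l => (IsScalarTower.algebraMap_apply L D Ω l).symm),
    ← map_mul, y1, inv_mul_cancel_right₀ (h2 σ)]

theorem card_JV {Q : Type} [Fintype Q] [DecidableEq Q] (σ₁ : Q) (n : ℕ) :
    Fintype.card (JV σ₁ n) + (Fintype.card Q - 1) * n = Fintype.card Q * Fintype.card Q * n := by
  have h1 : Fintype.card {z : Q × Q // z.2 = σ₁ ∧ z.1 ≠ σ₁} = Fintype.card Q - 1 := by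
    have h2 : Fintype.card {σ : Q // σ ≠ σ₁} = Fintype.card Q - 1 := by
      rw [Fintype.card_subtype_compl, Fintype.card_subtype_eq]
    rw [← h2]
    exact Fintype.card_congr
      { toFun := fun z => ⟨z.1.1, z.2.2⟩
        invFun := fun σ => ⟨(σ.1, σ₁), rfl, σ.2⟩
        left_inv := fun z => by
          apply Subtype.ext
          exact Prod.ext rfl z.2.1.symm
        right_inv := fun σ => rfl }
  have h3 : Fintype.card {z : Q × Q // ¬ (z.2 = σ₁ ∧ z.1 ≠ σ₁)} =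
      Fintype.card Q * Fintype.card Q - (Fintype.card Q - 1) := by
    rw [Fintype.card_subtype_compl, Fintype.card_prod, h1]
  change Fintype.card ({z : Q × Q // ¬ (z.2 = σ₁ ∧ z.1 ≠ σ₁)} × Fin n) + _ = _
  rw [Fintype.card_prod, h3, Fintype.card_fin, ← add_mul]
  congr 1
  have h4 : Fintype.card Q - 1 ≤ Fintype.card Q * Fintype.card Q := by
    rcases Nat.eq_zero_or_pos (Fintype.card Q) with h5 | h5
    · omega
    · exact (Nat.sub_le _ _).trans (Nat.le_mul_of_pos_right _ h5)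
  omega

include e in
/-- The parameters are algebraically independent. -/
theorem S2 (hη : AlgebraicIndependent Cf
      (fun v : {k : κ // k ≠ k₀} × Fin n => φ (uu t x k₀ (Sum.inr v))))
    (hVi : AlgebraicIndependent D V) (hS1 : ∀ z : Ω, IsAlgebraic (adjoin Cf (Set.range ω)) z) :
    AlgebraicIndependent Cf ω := by
  refine Pool.Agent.Zk31.CA.indep_of_alg (hη.sumElim_comp hVi) ω ?_ hS1
  rw [Cardinal.mk_fintype, Cardinal.mk_fintype, Nat.cast_le]
  have h1 := card_JV σ₁ n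
  have h2 : Fintype.card κ = Fintype.card (E →ₐ[K] L) := Fintype.card_congr e
  have h3 : Fintype.card {k : κ // k ≠ k₀} = Fintype.card κ - 1 := by
    rw [Fintype.card_subtype_compl, Fintype.card_subtype_eq]
  rw [Fintype.card_sum, Fintype.card_prod κ, Fintype.card_prod κ, Fintype.card_prod {k : κ // k ≠ k₀},
    h3, Fintype.card_fin, h2]
  rw [← mul_assoc, ← h1]

include h in
theorem gens_ext (j1 j2 : 𝔽 →ₐ[K] Ω) (h1 : ∀ i, j1 (t i) = j2 (t i))
    (h2 : ∀ i k, j1 (x i k) = j2 (x i k)) (w : 𝔽) : j1 w = j2 w := by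
  have hw : w ∈ adjoin K (Set.range t ∪ Set.range fun z : Fin n × κ => x z.1 z.2) := by
    rw [h.generates]; trivial
  induction hw using IntermediateField.adjoin_induction with
  | mem a ha =>
    rcases ha with ⟨i, rfl⟩ | ⟨v, rfl⟩
    · exact h1 i
    · exact h2 _ _
  | algebraMap c => rw [AlgHom.commutes, AlgHom.commutes]
  | add a b _ _ ha hb => rw [map_add, map_add, ha, hb]
  | inv a _ ha => rw [map_inv₀, map_inv₀, ha]
  | mul a b _ _ ha hb => rw [map_mul, map_mul, ha, hb]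

include h k₀ e hf hdvd hP hV hω in
/-- Automorphisms over the parameters permute the points. -/
theorem S3 (ρ : Ω ≃ₐ[Cf] Ω) (hρ : ∀ z, ρ (ω z) = ω z) :
    ∃ π : Equiv.Perm (Fin n), ∀ w : 𝔽, ρ (algebraMap D Ω (φ w)) = algebraMap D Ω (φ (π • w)) := by
  have hf' : f.map (algebraMap Cf Ω) = ∏ i, (X - C (algebraMap D Ω (φ (t i)))) := by
    rw [IsScalarTower.algebraMap_eq Cf D Ω, ← Polynomial.map_map, hf, Polynomial.map_prod]
    refine Finset.prod_congr rfl fun i _ => ?_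
    rw [Polynomial.map_sub, map_X, map_C]
  obtain ⟨π, γ, h1, h2⟩ := exists_pi_gamma (K := K) (L := L) (inj_θ h k₀ (Ω := Ω) φ) hf' ρ
  have hU : ∀ σ σ' i, ρ (U3 ε x σ₁ φ X₀ V t σ σ' i) =
      U3 ε x σ₁ φ X₀ V t (qq K E L γ σ) (qq K E L γ σ') (π i) := by
    intro σ σ' i
    rw [← hω, ← hω]
    have h3 := Ev2_map ε (ρ : Ω →+* Ω) γ h2 ω σ σ' (algebraMap D Ω (φ (t i)))
    refine h3.trans ?_
    have h4 : (fun z => (ρ : Ω →+* Ω) (ω z)) = ω := funext hρ
    rw [h4]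
    congr 1
    exact h1 i
  have hy : ∀ (σ : E →ₐ[K] L) i, ρ (algebraMap D Ω (y1 ε x φ X₀ t σ i)) =
      algebraMap D Ω (y1 ε x φ X₀ t (qq K E L γ σ) (π i)) := by
    intro σ i
    rw [← yy_U3 h k₀ e σ₁ φ X₀ V hf hdvd hP hV, ← yy_U3 h k₀ e σ₁ φ X₀ V hf hdvd hP hV, yy, yy,
      map_prod]
    refine Eq.trans ?_ (Equiv.prod_comp (qq K E L γ) fun a =>
      U3 ε x σ₁ φ X₀ V t (qq K E L γ σ) a (π i) *
        (U3 ε x σ₁ φ X₀ V t a (qq K E L γ σ) (π i))⁻¹)
    refine Finset.prod_congr rfl fun a _ => ?_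
    rw [map_mul, map_inv₀, hU, hU]
  have hxo : ∀ i k, ρ (algebraMap D Ω (xo φ X₀ t i k)) = algebraMap D Ω (xo φ X₀ t (π i) k) := by
    intro i k
    have h3 : ∀ i, algebraMap D Ω (xo φ X₀ t i k) = aeval (algebraMap D Ω (φ (t i))) (X₀ k) :=
      fun i => (aeval_algebraMap_apply Ω (φ (t i)) (X₀ k)).symm
    rw [h3, h3, ← h1]
    exact (aeval_algHom_apply (ρ : Ω →ₐ[Cf] Ω) _ _).symm
  have hxi : ∀ i k, ρ (algebraMap D Ω (φ (x i k))) = algebraMap D Ω (φ (x (π i) k)) := by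
    intro i
    have h3 : (fun k => ρ (algebraMap D Ω (φ (x i k)))) =
        fun k => algebraMap D Ω (φ (x (π i) k)) := by
      apply ev_injective ε e
      intro σ'
      obtain ⟨σ, rfl⟩ := (qq K E L γ).surjective σ'
      have h4 := ev_map ε (ρ : Ω →+* Ω) γ h2 σ (fun k => algebraMap D Ω (φ (x i k)))
      have h5 := ev_map ε (ρ : Ω →+* Ω) γ h2 σ (fun k => algebraMap D Ω (xo φ X₀ t i k))
      have h6 : (fun k => (ρ : Ω →+* Ω) (algebraMap D Ω (xo φ X₀ t i k))) =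
          fun k => algebraMap D Ω (xo φ X₀ t (π i) k) := funext fun k => hxo i k
      rw [h6] at h5
      refine h4.symm.trans ?_
      rw [ev_xi h k₀ e φ X₀ hf hdvd hP, ev_xi h k₀ e φ X₀ hf hdvd hP, map_mul, h5]
      congr 1
      exact hy σ i
    exact fun k => congrFun h3 k
  refine ⟨π, ?_⟩
  let j1 : 𝔽 →ₐ[K] Ω := ((ρ.restrictScalars K : Ω ≃ₐ[K] Ω) : Ω →ₐ[K] Ω).comp
    ((IsScalarTower.toAlgHom K D Ω).comp φ)
  let j2 : 𝔽 →ₐ[K] Ω := ((IsScalarTower.toAlgHom K D Ω).comp φ).comp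
    (MulSemiringAction.toAlgHom K 𝔽 π)
  refine gens_ext h j1 j2 (fun i => ?_) (fun i k => ?_)
  · change ρ (algebraMap D Ω (φ (t i))) = algebraMap D Ω (φ (π • t i))
    rw [h.perm_t, h1]
  · change ρ (algebraMap D Ω (φ (x i k))) = algebraMap D Ω (φ (π • x i k))
    rw [h.perm_x, hxi]

include h k₀ e hf hdvd hP hV hω in
/-- The field of invariants lies in the field generated by the parameters. -/
theorem S4 [IsAlgClosed Ω] (hS1 : ∀ z : Ω, IsAlgebraic (adjoin Cf (Set.range ω)) z)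
    (b : 𝔽) (hb : ∀ π : Equiv.Perm (Fin n), π • b = b) :
    algebraMap D Ω (φ b) ∈ adjoin Cf (Set.range ω) := by
  have hch : CharZero (adjoin Cf (Set.range ω)) := by
    have h1 : CharZero Cf := charZero_of_injective_algebraMap (algebraMap K Cf).injective
    exact charZero_of_injective_algebraMap (algebraMap Cf _).injective
  have halg : Algebra.IsAlgebraic (adjoin Cf (Set.range ω)) Ω := ⟨hS1⟩
  have hic : IsAlgClosure (adjoin Cf (Set.range ω)) Ω := ⟨inferInstance, inferInstance⟩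
  have hgal : IsGalois (adjoin Cf (Set.range ω)) Ω :=
    { to_isSeparable := inferInstance
      to_normal := IsAlgClosure.normal _ Ω }
  have h1 : algebraMap D Ω (φ b) ∈ Set.range (algebraMap (adjoin Cf (Set.range ω)) Ω) := by
    rw [InfiniteGalois.mem_range_algebraMap_iff_fixed]
    intro τ
    obtain ⟨π, hπ⟩ := S3 h k₀ e σ₁ φ X₀ V hf hdvd hP hV ω hω (τ.restrictScalars Cf) (fun z =>
      τ.commutes ⟨ω z, subset_adjoin _ _ ⟨z, rfl⟩⟩)
    have h2 := hπ b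
    rw [hb] at h2
    exact h2
  obtain ⟨w, hw⟩ := h1
  rw [← hw]
  exact w.2

end

end Pool.Agent.Zk31.DK
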