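import Pool.Agent.Zk31.DK

/-! The core: relative algebraic closedness. -/

set_option autoImplicit false
set_option linter.unusedSectionVars false
set_option linter.unusedVariables false

namespace Pool.Agent.Zk31.DL

open Polynomial IntermediateField Pool.Agent.Zk31.DA Pool.Agent.Zk31.DE Pool.Agent.Zk31.DD
  Pool.Agent.Zk31.DVoc Pool.Agent.Zk31.DF Pool.Agent.Zk31.DG Pool.Agent.Zk31.DH Pool.Agent.Zk31.DI
  Pool.Agent.Zk31.DJ Pool.Agent.Zk31.DK

theorem alg_down {k F F' : Type} [Field k] [Field F] [Algebra k F] [Field F'] [Algebra k F']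
    (j : F →+* F') (A : IntermediateField k F) (B : IntermediateField k F')
    (hBA : ∀ b ∈ B, ∃ a ∈ A, j a = b) {z : F} (hz : IsAlgebraic B (j z)) : IsAlgebraic A z := by
  obtain ⟨q, hq0, hq⟩ := hz
  have e : ∀ y : B, ∃ c : A, j c = y := by
    rintro ⟨b, hb⟩
    obtain ⟨a, ha, h1⟩ := hBA b hb
    exact ⟨⟨a, ha⟩, h1⟩
  choose g hg using e
  let gr : B →+* A :=
    { toFun := g
      map_one' := Subtype.ext (j.injective ((hg 1).trans (map_one j).symm))
      map_mul' := fun a b => Subtype.ext (j.injective ((hg (a * b)).trans (by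
        change ((a : F') * b) = j ((g a : F) * (g b : F))
        rw [map_mul, hg, hg])))
      map_zero' := Subtype.ext (j.injective ((hg 0).trans (map_zero j).symm))
      map_add' := fun a b => Subtype.ext (j.injective ((hg (a + b)).trans (by
        change ((a : F') + b) = j ((g a : F) + (g b : F))
        rw [map_add, hg, hg]))) }
  refine ⟨q.map gr, ?_, ?_⟩
  · rwa [Ne, Polynomial.map_eq_zero]
  · apply j.injective
    rw [map_zero, ← hq, aeval_def, aeval_def, eval₂_map, hom_eval₂]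
    congr 1
    ext y
    exact hg y

/-- A finite Galois extension in an algebraically closed field which contains given elements. -/
theorem exists_galois {K L Cf D : Type} [Field K] [CharZero K] [Field L] [Algebra K L]
    [FiniteDimensional K L] [Field Cf] [Algebra K Cf] [Field D] [IsAlgClosed D] [Algebra Cf D]
    [Algebra K D] [IsScalarTower K Cf D] [Algebra L D] [IsScalarTower K L D] {f : Cf[X]}
    (hf0 : f ≠ 0) {n : ℕ} (θ : Fin n → D) (hθ : ∀ i, aeval (θ i) f = 0) :
    ∃ N : IntermediateField Cf D, FiniteDimensional Cf N ∧ IsGalois Cf N ∧ (∀ i, θ i ∈ N) ∧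
      ∀ l : L, algebraMap L D l ∈ N := by
  have hch : CharZero Cf := charZero_of_injective_algebraMap (algebraMap K Cf).injective
  obtain ⟨α, hα⟩ := Field.exists_primitive_element K L
  let p : Cf[X] := f * (minpoly K α).map (algebraMap K Cf)
  have hp0 : p ≠ 0 := mul_ne_zero hf0 ((Polynomial.map_ne_zero_iff (algebraMap K Cf).injective).mpr
    (minpoly.ne_zero (Algebra.IsIntegral.isIntegral α)))
  let N : IntermediateField Cf D := adjoin Cf (p.rootSet D)
  have hN : p.IsSplittingField Cf N := adjoin_rootSet_isSplittingField (IsAlgClosed.splits _)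
  have hNn : Normal Cf N := Normal.of_isSplittingField p
  have hNf : FiniteDimensional Cf N := Polynomial.IsSplittingField.finiteDimensional N p
  have hmem : ∀ y : D, aeval y p = 0 → y ∈ N := fun y hy =>
    subset_adjoin _ _ ((mem_rootSet.mpr ⟨hp0, hy⟩))
  refine ⟨N, hNf, { to_isSeparable := inferInstance, to_normal := hNn }, fun i => ?_, fun l => ?_⟩
  · apply hmem
    change aeval (θ i) (f * _) = 0
    rw [map_mul, hθ, zero_mul]
  · have hαN : algebraMap L D α ∈ N := by
      apply hmem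
      have h2 : aeval (algebraMap L D α) ((minpoly K α).map (algebraMap K Cf)) = 0 := by
        rw [aeval_map_algebraMap, aeval_algebraMap_apply, minpoly.aeval, map_zero]
      change aeval (algebraMap L D α) (f * (minpoly K α).map (algebraMap K Cf)) = 0
      rw [map_mul, h2, mul_zero]
    have h1 : (⊤ : IntermediateField K L) ≤
        (N.restrictScalars K).comap (IsScalarTower.toAlgHom K L D) := by
      rw [← hα, adjoin_simple_le_iff]
      exact hαN
    exact h1 trivial

section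

variable {K E κ 𝔽 : Type} [Field K] [CharZero K] [Field E] [Algebra K E] [FiniteDimensional K E]
  [Fintype κ] [DecidableEq κ] {ε : Module.Basis κ K E} {P : K[X]} {n : ℕ} [Field 𝔽] [Algebra K 𝔽]
  [MulSemiringAction (Equiv.Perm (Fin n)) 𝔽] [SMulCommClass (Equiv.Perm (Fin n)) K 𝔽]
  {t : Fin n → 𝔽} {x : Fin n → κ → 𝔽} (h : PowerField ε P n t x) (k₀ : κ)
  {L : Type} [Field L] [Algebra K L] [Normal K L] [FiniteDimensional K L] [Fintype (E →ₐ[K] L)]
  [DecidableEq (E →ₐ[K] L)] (e : κ ≃ (E →ₐ[K] L)) (σ₁ : E →ₐ[K] L)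
  {Cf D Ω : Type} [Field Cf] [Algebra K Cf] [Field D] [Algebra Cf D] [Algebra K D]
  [IsScalarTower K Cf D] [Algebra L D] [IsScalarTower K L D]
  [Field Ω] [Algebra D Ω] [Algebra Cf Ω] [IsScalarTower Cf D Ω] [Algebra K Ω]
  [IsScalarTower K D Ω] [IsScalarTower K Cf Ω] [Algebra L Ω] [IsScalarTower L D Ω]
  [IsScalarTower K L Ω] [IsAlgClosed D] [IsAlgClosed Ω]
  (φ : 𝔽 →ₐ[K] D) (X₀ : κ → Cf[X]) (V : JV σ₁ n → Ω)
  {f : Cf[X]} (hf : f.map (algebraMap Cf D) = ∏ i, (X - C (φ (t i))))
    (hdvd : f ∣ normForm ε X₀ - P.map (algebraMap K Cf)) (hP : P ≠ 0) (hV : ∀ z, V z ≠ 0)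
  (ω : κ × κ × Fin n → Ω)
  (hω : ∀ (σ σ' : E →ₐ[K] L) (i : Fin n), Ev2 ε ω σ σ' (algebraMap D Ω (φ (t i))) =
    U3 ε x σ₁ φ X₀ V t σ σ' i)

include h k₀ e hf hdvd hP hV hω in
/-- Relative algebraic closedness. -/
theorem S5
    (hrel : ∀ z : Cf, IsAlgebraic (adjoin K (Set.range fun j : Fin n => f.coeff j)) z →
      z ∈ adjoin K (Set.range fun j : Fin n => f.coeff j))
    (hc : ∀ j : Fin n, φ (uu t x k₀ (Sum.inl j)) = algebraMap Cf D (f.coeff j))
    (hη : AlgebraicIndependent Cf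
      (fun v : {k : κ // k ≠ k₀} × Fin n => φ (uu t x k₀ (Sum.inr v))))
    (hD : ∀ z : D, IsAlgebraic
      (adjoin Cf (Set.range fun v : {k : κ // k ≠ k₀} × Fin n => φ (uu t x k₀ (Sum.inr v)))) z)
    (hVi : AlgebraicIndependent D V)
    (hS1 : ∀ z : Ω, IsAlgebraic (adjoin Cf (Set.range ω)) z) (hS2 : AlgebraicIndependent Cf ω)
    (z : Ω) (hz : z ∈ adjoin Cf (Set.range ω))
    (ha : IsAlgebraic ((FixedPoints.intermediateField (Equiv.Perm (Fin n)) :
      IntermediateField K 𝔽).map ((IsScalarTower.toAlgHom K D Ω).comp φ)) z) :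
    z ∈ (FixedPoints.intermediateField (Equiv.Perm (Fin n)) :
      IntermediateField K 𝔽).map ((IsScalarTower.toAlgHom K D Ω).comp φ) := by
  set B : IntermediateField K 𝔽 := FixedPoints.intermediateField (Equiv.Perm (Fin n)) with hB
  have hf0 : f ≠ 0 := by
    intro h0
    rw [h0, Polynomial.map_zero] at hf
    exact (Finset.prod_ne_zero_iff.mpr fun i _ => X_sub_C_ne_zero (φ (t i))) hf.symm
  obtain ⟨N, hNf, hNg, hθN, hLN⟩ := exists_galois (K := K) (L := L) hf0 (fun i => φ (t i))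
    (root_of φ hf)
  let Q : IntermediateField N D := adjoin N (Set.range fun v : Fin n × κ => φ (x v.1 v.2))
  have hNQ : ∀ y ∈ N, y ∈ Q := fun y hy => Q.algebraMap_mem ⟨y, hy⟩
  have hxQ : ∀ i k, φ (x i k) ∈ Q := fun i k => subset_adjoin _ _ ⟨(i, k), rfl⟩
  have hLQ : ∀ l : L, algebraMap L D l ∈ Q.toSubfield := fun l => hNQ _ (hLN l)
  have hxoQ : ∀ i k, xo φ X₀ t i k ∈ Q := fun i k => hNQ _ (aeval_mem N (hθN i) _)
  have hyQ : ∀ (σ : E →ₐ[K] L) i, y1 ε x φ X₀ t σ i ∈ Q.toSubfield := fun σ i =>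
    Q.toSubfield.mul_mem (ev_in ε _ hLQ (hxQ i) σ)
      (Q.toSubfield.inv_mem (ev_in ε _ hLQ (hxoQ i) σ))
  have hφQ : ∀ w : 𝔽, φ w ∈ Q := by
    intro w
    have hw : w ∈ adjoin K (Set.range t ∪ Set.range fun z : Fin n × κ => x z.1 z.2) := by
      rw [h.generates]; trivial
    induction hw using IntermediateField.adjoin_induction with
    | mem a ha =>
      rcases ha with ⟨i, rfl⟩ | ⟨v, rfl⟩
      · exact hNQ _ (hθN i)
      · exact hxQ _ _
    | algebraMap c =>
      rw [AlgHom.commutes, IsScalarTower.algebraMap_apply K Cf D]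
      exact hNQ _ (N.algebraMap_mem _)
    | add a b _ _ ha hb => rw [map_add]; exact add_mem ha hb
    | inv a _ ha => rw [map_inv₀]; exact inv_mem ha
    | mul a b _ _ ha hb => rw [map_mul]; exact mul_mem ha hb
  have hVQ : AlgebraicIndependent Q V := hVi.restrictScalars (algebraMap Q D).injective
  let A : IntermediateField Q Ω := adjoin Q (Set.range V)
  have hQA : ∀ y ∈ Q, algebraMap D Ω y ∈ A := fun y hy => A.algebraMap_mem ⟨y, hy⟩
  have hLA : ∀ l : L, algebraMap L Ω l ∈ A.toSubfield := fun l => by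
    rw [IsScalarTower.algebraMap_apply L D Ω]
    exact hQA _ (hLQ l)
  have hVA : ∀ i a b, V1 σ₁ V i a b ∈ A.toSubfield := by
    intro i a b
    rw [V1]
    by_cases hh : ¬ (b = σ₁ ∧ a ≠ σ₁)
    · rw [dif_pos hh]; exact subset_adjoin _ _ ⟨_, rfl⟩
    · rw [dif_neg hh]; exact A.toSubfield.one_mem
  have hUA : ∀ σ σ' i, U3 ε x σ₁ φ X₀ V t σ σ' i ∈ A.toSubfield := by
    intro σ σ' i
    rw [U3, UU]
    split_ifs
    · refine A.toSubfield.mul_mem (hVA _ _ _) (A.toSubfield.mul_mem (hQA _ (hyQ σ i)) ?_)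
      exact A.toSubfield.inv_mem (A.toSubfield.prod_mem fun a _ =>
        A.toSubfield.mul_mem (hVA _ _ _) (A.toSubfield.inv_mem (hVA _ _ _)))
    · exact hVA _ _ _
  have hωA : ∀ v, ω v ∈ A.toSubfield := by
    apply Ev2_mem ε e A.toSubfield hLA (inj_θ h k₀ (Ω := Ω) φ) (fun i => hQA _ (hNQ _ (hθN i)))
    intro σ σ' i
    rw [hω]
    exact hUA σ σ' i
  have hzA' : ∀ y ∈ adjoin Cf (Set.range ω), y ∈ A := by
    intro y hy
    induction hy using IntermediateField.adjoin_induction with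
    | mem a h1 => obtain ⟨v, rfl⟩ := h1; exact hωA v
    | algebraMap c =>
      rw [IsScalarTower.algebraMap_apply Cf D Ω]
      exact hQA _ (hNQ _ (N.algebraMap_mem c))
    | add a b _ _ h1 h2 => exact add_mem h1 h2
    | inv a _ h1 => exact inv_mem h1
    | mul a b _ _ h1 h2 => exact mul_mem h1 h2
  have hzA : z ∈ A := hzA' z hz
  -- `z` is algebraic over `Q`
  have hzQ : IsAlgebraic Q z := by
    have h1 : IsAlgebraic (⊥ : IntermediateField Q Ω) z := by
      refine alg_map' (RingHom.id Ω) _ _ ?_ ha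
      rintro _ ⟨b, hb, rfl⟩
      exact ⟨⟨φ b, hφQ b⟩, rfl⟩
    exact h1.restrictScalars Q
  obtain ⟨w, hw⟩ := Pool.Agent.W333.HP.bc0 Q Ω _ V hVQ z hzA hzQ
  have hwz : algebraMap D Ω (w : D) = z := hw
  -- the compositum of `Cf` and the field of invariants
  let T₁ : IntermediateField K D := (IsScalarTower.toAlgHom K Cf D).fieldRange ⊔ B.map φ
  have hCT : ∀ c : Cf, algebraMap Cf D c ∈ T₁ := fun c =>
    (le_sup_left : (IsScalarTower.toAlgHom K Cf D).fieldRange ≤ T₁) ⟨c, rfl⟩
  have hBT : ∀ b ∈ B, φ b ∈ T₁ := fun b hb => (le_sup_right : B.map φ ≤ T₁) ⟨b, hb, rfl⟩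
  have halgT : ∀ y : D, IsAlgebraic T₁ y := by
    intro y
    refine alg_map' (RingHom.id D) _ T₁ ?_ (hD y)
    intro a h1
    induction h1 using IntermediateField.adjoin_induction with
    | mem a h1 =>
      obtain ⟨v, rfl⟩ := h1
      exact hBT _ fun π => fixed_uu h k₀ π _
    | algebraMap c => exact hCT c
    | add a b _ _ h1 h2 => exact add_mem h1 h2
    | inv a _ h1 => exact inv_mem h1
    | mul a b _ _ h1 h2 => exact mul_mem h1 h2
  have hchC : CharZero Cf := charZero_of_injective_algebraMap (algebraMap K Cf).injective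
  have hchT : CharZero T₁ := charZero_of_injective_algebraMap (algebraMap K T₁).injective
  have halgT' : Algebra.IsAlgebraic T₁ D := ⟨halgT⟩
  have hic : IsAlgClosure T₁ D := ⟨inferInstance, inferInstance⟩
  have hgal : IsGalois T₁ D :=
    { to_isSeparable := inferInstance
      to_normal := IsAlgClosure.normal _ D }
  have hwT : (w : D) ∈ T₁ := by
    have h1 : (w : D) ∈ Set.range (algebraMap T₁ D) := by
      rw [InfiniteGalois.mem_range_algebraMap_iff_fixed]
      intro τ
      let ρC : D ≃ₐ[Cf] D := { τ with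
        commutes' := fun c => τ.commutes ⟨_, hCT c⟩ }
      have hρC : ∀ y, ρC y = τ y := fun y => rfl
      let sN : N ≃ₐ[Cf] N := ρC.restrictNormal N
      have hsN : ∀ y : N, ((sN y : N) : D) = τ y := fun y => ρC.restrictNormal_commutes N y
      have halgR : Algebra.IsAlgebraic (adjoin Cf (Set.range ω)) Ω := ⟨hS1⟩
      obtain ⟨ρ', h2, h3⟩ := Pool.Agent.Zk31.QA.lift_of_disjoint (k := Cf) (L := Cf) (N := N)
        (Ω := Ω) (R := adjoin Cf (Set.range ω)) (fun y hy => by
          obtain ⟨r, hr⟩ := hy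
          have h4 : IsAlgebraic Cf (algebraMap N Ω y) :=
            (Algebra.IsAlgebraic.isAlgebraic y).algebraMap
          obtain ⟨c, hc⟩ := Pool.Agent.W333.HP.bc0 Cf Ω _ ω hS2 (algebraMap N Ω y)
            (by rw [← hr]; exact r.2) h4
          refine ⟨c, ?_⟩
          apply (algebraMap N Ω).injective
          rw [← IsScalarTower.algebraMap_apply]
          exact hc) sN (fun c => sN.commutes c)
      obtain ⟨π, hπ⟩ := S3 h k₀ e σ₁ φ X₀ V hf hdvd hP hV ω hω ρ' (fun v =>
        h2 ⟨ω v, subset_adjoin _ _ ⟨v, rfl⟩⟩)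
      obtain ⟨g, hg⟩ := aut_of_fix (G := Equiv.Perm (Fin n)) (φ : 𝔽 →+* D) (τ : D ≃+* D)
        (fun b hb => τ.commutes ⟨φ b, hBT b hb⟩)
      have hNΩ : ∀ y : N, ρ' (algebraMap D Ω y) = algebraMap D Ω (τ y) := by
        intro y
        rw [← hsN]
        exact h3 y
      have hπg : π = g := by
        apply Equiv.ext
        intro i
        apply inj_θ h k₀ (Ω := Ω) φ
        have h4 := hNΩ ⟨φ (t i), hθN i⟩
        have h5 : τ (φ (t i)) = φ (g • t i) := hg (t i)
        have h6 := hπ (t i)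
        rw [h.perm_t] at h5 h6
        change algebraMap D Ω (φ (t (π i))) = algebraMap D Ω (φ (t (g i)))
        rw [← h5, ← h6]
        exact h4
      have hQΩ : ∀ y ∈ Q, ρ' (algebraMap D Ω y) = algebraMap D Ω (τ y) := by
        intro y hy
        induction hy using IntermediateField.adjoin_induction with
        | mem a h1 =>
          obtain ⟨v, rfl⟩ := h1
          have h5 : τ (φ (x v.1 v.2)) = φ (g • x v.1 v.2) := hg (x v.1 v.2)
          rw [hπ, h5, hπg]
        | algebraMap c => exact hNΩ c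
        | add a b _ _ h1 h2 => rw [map_add, map_add, map_add, map_add, h1, h2]
        | inv a _ h1 => rw [map_inv₀, map_inv₀, map_inv₀, map_inv₀, h1]
        | mul a b _ _ h1 h2 => rw [map_mul, map_mul, map_mul, map_mul, h1, h2]
      have h7 := hQΩ w w.2
      have h8 : ρ' z = z := h2 ⟨z, hz⟩
      rw [hwz, h8, ← hwz] at h7
      exact ((algebraMap D Ω).injective h7).symm
    obtain ⟨y, hy⟩ := h1
    rw [← hy]
    exact y.2
  have hwa : IsAlgebraic (B.map φ) (w : D) := by
    refine alg_down (algebraMap D Ω) (B.map φ)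
      (B.map ((IsScalarTower.toAlgHom K D Ω).comp φ)) ?_ (by rw [hwz]; exact ha)
    rintro _ ⟨b, hb, rfl⟩
    exact ⟨φ b, ⟨b, hb, rfl⟩, rfl⟩
  obtain ⟨b, hb, hbw⟩ := closed_T1 h k₀ f hrel φ hc hη (w : D) hwT hwa
  refine ⟨b, hb, ?_⟩
  rw [← hwz, ← hbw]
  rfl

end

end Pool.Agent.Zk31.DL
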