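import Pool.Agent.Zk31.DA

/-! The function field of a power of the variety `N_{E/K}(x) = P(t)`. -/

set_option autoImplicit false

namespace Pool.Agent.Zk31.DVoc

open Polynomial IntermediateField Pool.Agent.Zk31.DA

/-- Let `E/K` be a finite extension with basis `ε` and `P ∈ K[t]` a nonzero polynomial. Let `X` be the
affine variety `N_{E/K}(x) = P(t)` (in the variables `t` and `x_k`, `k ∈ κ`, where
`N_{E/K}(x) = N_{E/K}(∑ x_k ε_k)` is the norm form); it is geometrically integral, of dimension
`[E : K]`. The structure says that `𝔽` is the function field of `X^n`, that is, that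
`(t_i, x_i)_{i < n}` is a generic point of `X^n` over `K` with `𝔽 = K(t_1, x_1, ..., t_n, x_n)`,
and that the symmetric group `S_n` acts on `𝔽` by the permutations of the `n` points. So the field
of invariants of `S_n` in `𝔽` is the function field of the symmetric power `Sym^n X`. -/
structure PowerField {K E κ 𝔽 : Type} [Field K] [Field E] [Algebra K E] [Fintype κ]
    [DecidableEq κ] (ε : Module.Basis κ K E) (P : K[X]) (n : ℕ) [Field 𝔽] [Algebra K 𝔽]
    [MulSemiringAction (Equiv.Perm (Fin n)) 𝔽] (t : Fin n → 𝔽) (x : Fin n → κ → 𝔽) : Prop where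
  equation : ∀ i, normForm ε (x i) = aeval (t i) P
  generates : adjoin K (Set.range t ∪ Set.range fun z : Fin n × κ => x z.1 z.2) = ⊤
  dimension : Algebra.trdeg K 𝔽 = (n * Module.finrank K E : ℕ)
  perm_t : ∀ (π : Equiv.Perm (Fin n)) (i : Fin n), π • t i = t (π i)
  perm_x : ∀ (π : Equiv.Perm (Fin n)) (i : Fin n) (k : κ), π • x i k = x (π i) k

end Pool.Agent.Zk31.DVoc
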