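import Mathlib

/-! Derivations and the polynomial with the roots `X_i`. -/

set_option autoImplicit false
set_option linter.unusedSectionVars false

namespace Pool.Agent.Zk31.EA

open Polynomial

section poly

variable {L ι : Type} [Field L] [DecidableEq ι]

/-- the product of `X - X_i` over a finite set -/
noncomputable def pe (L : Type) {ι : Type} [Field L] (s : Finset ι) : (MvPolynomial ι L)[X] :=
  ∏ i ∈ s, (X - C (MvPolynomial.X i))

theorem pe_monic (s : Finset ι) : (pe L s).Monic ∧ (pe L s).natDegree = s.card := by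
  refine ⟨monic_prod_of_monic _ _ fun i _ => monic_X_sub_C _, ?_⟩
  rw [pe, natDegree_prod_of_monic _ _ fun i _ => monic_X_sub_C _]
  simp

theorem coeff_step (p : (MvPolynomial ι L)[X]) (i : ι) (j : ℕ) :
    ((X - C (MvPolynomial.X i)) * p).coeff j =
      (if j = 0 then 0 else p.coeff (j - 1)) - MvPolynomial.X i * p.coeff j := by
  rw [sub_mul, coeff_sub, coeff_C_mul]
  congr 1
  rcases j with _ | j
  · simp
  · simp

theorem pderiv_pe_notMem (s : Finset ι) (i : ι) (hi : i ∉ s) (j : ℕ) :
    MvPolynomial.pderiv i ((pe L s).coeff j) = 0 := by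
  classical
  induction s using Finset.induction_on generalizing j with
  | empty =>
    rw [pe, Finset.prod_empty, coeff_one]
    split_ifs
    · exact MvPolynomial.pderiv_one
    · exact map_zero _
  | insert a s ha ih =>
    have hia : i ≠ a := fun h => hi (by rw [h]; exact Finset.mem_insert_self _ _)
    have his : i ∉ s := fun h => hi (Finset.mem_insert_of_mem h)
    have h1 : pe L (insert a s) = (X - C (MvPolynomial.X a)) * pe L s := by
      rw [pe, Finset.prod_insert ha]; rfl
    rw [h1, coeff_step, map_sub, MvPolynomial.pderiv_mul, ih his,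
      MvPolynomial.pderiv_X_of_ne (Ne.symm hia)]
    split_ifs
    · simp
    · rw [ih his]; simp

theorem pderiv_pe_mem (s : Finset ι) (i : ι) (hi : i ∈ s) (j : ℕ) :
    MvPolynomial.pderiv i ((pe L s).coeff j) = - (pe L (s.erase i)).coeff j := by
  have h1 : pe L s = (X - C (MvPolynomial.X i)) * pe L (s.erase i) := by
    rw [pe, ← Finset.mul_prod_erase s _ hi]; rfl
  have h2 := pderiv_pe_notMem (L := L) (s.erase i) i (Finset.notMem_erase i s)
  rw [h1, coeff_step, map_sub, MvPolynomial.pderiv_mul, h2, MvPolynomial.pderiv_X_self]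
  split_ifs
  · simp
  · rw [h2]; simp

variable [Fintype ι]

/-- the value of the derivative at a root -/
noncomputable def gg (L : Type) [Field L] {ι : Type} [DecidableEq ι] [Fintype ι] (i : ι) :
    MvPolynomial ι L :=
  ∏ l ∈ Finset.univ.erase i, (MvPolynomial.X i - MvPolynomial.X l)

theorem X_sub_ne {i l : ι} (h : i ≠ l) : (MvPolynomial.X i - MvPolynomial.X l : MvPolynomial ι L) ≠ 0 := by
  intro h1
  rw [sub_eq_zero] at h1
  exact h (MvPolynomial.X_injective h1)

theorem gg_ne (i : ι) : gg L i ≠ 0 :=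
  Finset.prod_ne_zero_iff.mpr fun l hl => X_sub_ne (Ne.symm (Finset.ne_of_mem_erase hl))

variable {E : Type} [Field E] (φ : MvPolynomial ι L →+* E) (hφ : Function.Injective φ)

include hφ in
/-- Lagrange interpolation. -/
theorem lagrange (F : (MvPolynomial ι L)[X]) (hF : F.degree < (Fintype.card ι : WithBot ℕ)) (j : ℕ) :
    φ (F.coeff j) = ∑ i, φ (F.eval (MvPolynomial.X i)) * (φ (gg L i))⁻¹ *
      φ ((pe L (Finset.univ.erase i)).coeff j) := by
  have hinj : Set.InjOn (fun i : ι => φ (MvPolynomial.X i)) (Finset.univ : Finset ι) := by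
    intro a _ b _ hab
    exact MvPolynomial.X_injective (hφ hab)
  have h1 : (F.map φ).degree < ((Finset.univ : Finset ι).card : WithBot ℕ) := by
    rw [Finset.card_univ]
    exact lt_of_le_of_lt degree_map_le hF
  have h2 := Lagrange.eq_interpolate hinj h1
  have h3 := congrArg (fun p : E[X] => p.coeff j) h2
  simp only [coeff_map] at h3
  rw [h3, Lagrange.interpolate_apply, finset_sum_coeff]
  refine Finset.sum_congr rfl fun i _ => ?_
  have h4 : Lagrange.basis Finset.univ (fun i : ι => φ (MvPolynomial.X i)) i =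
      C ((φ (gg L i))⁻¹) * (pe L (Finset.univ.erase i)).map φ := by
    rw [Lagrange.basis, pe, Polynomial.map_prod, gg, map_prod, ← Finset.prod_inv_distrib, map_prod,
      ← Finset.prod_mul_distrib]
    refine Finset.prod_congr rfl fun l _ => ?_
    rw [Lagrange.basisDivisor, Polynomial.map_sub, map_X, map_C, map_sub]
  rw [h4, coeff_C_mul, coeff_C_mul, coeff_map, eval_map, ← Polynomial.eval₂_hom, mul_assoc]

end poly

section tangent

variable {L ι RW E : Type} [Field L] [DecidableEq ι] [Fintype ι] [CommRing RW] [Algebra L RW]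
  [Field E] [Algebra L E] (φ : MvPolynomial ι L →ₐ[L] E) (hφ : Function.Injective φ)
  (ψ : RW →ₐ[L] MvPolynomial ι L) (D : RW → RW) (hD0 : ∀ a : L, D (algebraMap L RW a) = 0)
  (hDa : ∀ x y, D (x + y) = D x + D y) (hDm : ∀ x y, D (x * y) = x * D y + y * D x)
  (c : Fin (Fintype.card ι) → RW) (hc : ∀ j, ψ (c j) = (pe L Finset.univ).coeff j)

/-- the image of the derivative of the generic polynomial -/
noncomputable def FF : (MvPolynomial ι L)[X] :=
  ∑ j : Fin (Fintype.card ι), C (ψ (D (c j))) * X ^ (j : ℕ)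

theorem FF_degree : (FF ψ D c).degree < (Fintype.card ι : WithBot ℕ) := by
  rw [FF, ← mem_degreeLT]
  refine Submodule.sum_mem _ fun i _ => ?_
  rw [mem_degreeLT]
  refine lt_of_le_of_lt (degree_C_mul_X_pow_le _ _) ?_
  exact_mod_cast i.2

theorem FF_coeff (j : Fin (Fintype.card ι)) : (FF ψ D c).coeff j = ψ (D (c j)) := by
  rw [FF, finset_sum_coeff, Finset.sum_eq_single j]
  · simp
  · intro b _ hb
    rw [coeff_C_mul_X_pow, if_neg (fun h => hb (Fin.ext h.symm))]
  · intro h; exact absurd (Finset.mem_univ _) h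

/-- the difference of the two derivations -/
noncomputable def Del (x : RW) : E :=
  φ (ψ (D x)) + ∑ i, φ ((FF ψ D c).eval (MvPolynomial.X i)) * (φ (gg L i))⁻¹ *
    φ (MvPolynomial.pderiv i (ψ x))

include hDa in
theorem Del_add (x y : RW) : Del φ ψ D c (x + y) = Del φ ψ D c x + Del φ ψ D c y := by
  simp only [Del, hDa, map_add, mul_add, Finset.sum_add_distrib]
  ring

include hDm in
theorem Del_mul (x y : RW) : Del φ ψ D c (x * y) =
    φ (ψ x) * Del φ ψ D c y + φ (ψ y) * Del φ ψ D c x := by
  simp only [Del, hDm, map_add, map_mul, MvPolynomial.pderiv_mul, mul_add, Finset.mul_sum,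
    Finset.sum_add_distrib]
  have h1 : ∑ i, φ ((FF ψ D c).eval (MvPolynomial.X i)) * (φ (gg L i))⁻¹ *
      (φ (MvPolynomial.pderiv i (ψ x)) * φ (ψ y)) = ∑ i, φ (ψ y) *
      (φ ((FF ψ D c).eval (MvPolynomial.X i)) * (φ (gg L i))⁻¹ *
        φ (MvPolynomial.pderiv i (ψ x))) := Finset.sum_congr rfl fun i _ => by ring
  have h2 : ∑ i, φ ((FF ψ D c).eval (MvPolynomial.X i)) * (φ (gg L i))⁻¹ *
      (φ (ψ x) * φ (MvPolynomial.pderiv i (ψ y))) = ∑ i, φ (ψ x) *
      (φ ((FF ψ D c).eval (MvPolynomial.X i)) * (φ (gg L i))⁻¹ *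
        φ (MvPolynomial.pderiv i (ψ y))) := Finset.sum_congr rfl fun i _ => by ring
  rw [h1, h2]
  ring

include hD0 in
theorem Del_L (a : L) : Del φ ψ D c (algebraMap L RW a) = 0 := by
  simp only [Del, hD0, map_zero, AlgHom.commutes, zero_add]
  refine Finset.sum_eq_zero fun i _ => ?_
  rw [MvPolynomial.algebraMap_eq, MvPolynomial.pderiv_C, map_zero, mul_zero]

include hφ hc in
theorem Del_c (j : Fin (Fintype.card ι)) : Del φ ψ D c (c j) = 0 := by
  rw [Del, hc, ← FF_coeff, ← AlgHom.coe_toRingHom φ, lagrange (φ : MvPolynomial ι L →+* E) hφ _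
    (FF_degree ψ D c), ← Finset.sum_add_distrib]
  refine Finset.sum_eq_zero fun i _ => ?_
  rw [pderiv_pe_mem Finset.univ i (Finset.mem_univ i), map_neg]
  ring

variable {A : Type} [CommRing A] [Algebra A RW]

include hDa hDm in
theorem Del_aeval (hA : ∀ a : A, Del φ ψ D c (algebraMap A RW a) = 0) (Z : RW) (P : A[X]) :
    Del φ ψ D c (aeval Z P) = φ (ψ (aeval Z (derivative P))) * Del φ ψ D c Z := by
  induction P using Polynomial.induction_on' with
  | add p q hp hq => rw [map_add, Del_add φ ψ D hDa, hp, hq, derivative_add, map_add, map_add, map_add,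
      add_mul]
  | monomial n a =>
    rw [aeval_monomial, derivative_monomial, aeval_monomial, Del_mul φ ψ D hDm, hA, mul_zero, add_zero,
      map_mul (algebraMap A RW)]
    have h0 : Del φ ψ D c 0 = 0 := by
      have h1 := hA 0
      rwa [map_zero] at h1
    have h1' : Del φ ψ D c 1 = 0 := by
      have h1 := hA 1
      rwa [map_one] at h1
    have h2 : Del φ ψ D c (Z ^ n) = φ (ψ ((n : RW) * Z ^ (n - 1))) * Del φ ψ D c Z := by
      induction n with
      | zero => rw [pow_zero, h1']; simp
      | succ n ih =>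
        rw [pow_succ, Del_mul φ ψ D hDm, ih]
        rcases n with _ | n
        · simp
        · simp only [Nat.add_sub_cancel]
          push_cast
          simp only [map_mul, map_add, map_pow, map_natCast, map_one]
          ring
    rw [h2, map_natCast]
    simp only [map_mul, map_pow, map_natCast]
    ring

end tangent

end Pool.Agent.Zk31.EA
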