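import Pool.Agent.Zk31.EA

/-! The condition at a pair of roots. -/

set_option autoImplicit false
set_option linter.unusedSectionVars false

namespace Pool.Agent.Zk31.EB

open Polynomial Pool.Agent.Zk31.EA

section alg

variable {A S T : Type} [CommRing A] [IsDomain A] [CharZero A] [CommRing S] [IsDomain S]
  [Algebra A S] [CommRing T]

theorem exists_sep (hinj : Function.Injective (algebraMap A S)) (Z : S) (hZ : IsAlgebraic A Z) :
    ∃ P : A[X], aeval Z P = 0 ∧ aeval Z (derivative P) ≠ 0 := by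
  classical
  have hex : ∃ n : ℕ, ∃ P : A[X], P ≠ 0 ∧ aeval Z P = 0 ∧ P.natDegree = n := by
    obtain ⟨P, h1, h2⟩ := hZ
    exact ⟨_, P, h1, h2, rfl⟩
  obtain ⟨P, h1, h2, h3⟩ := Nat.find_spec hex
  refine ⟨P, h2, fun h4 => ?_⟩
  have hpos : 0 < P.natDegree := by
    rw [Nat.pos_iff_ne_zero]
    intro h5
    rw [eq_C_of_natDegree_eq_zero h5, aeval_C] at h2
    rw [← map_zero (algebraMap A S)] at h2
    apply h1
    rw [eq_C_of_natDegree_eq_zero h5, hinj h2, C_0]
  have h5 : derivative P ≠ 0 := by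
    intro h6
    have h7 := derivative_eq_zero.mp h6
    omega
  have h6 : (derivative P).natDegree < P.natDegree := natDegree_derivative_lt hpos.ne'
  rw [h3] at h6
  exact Nat.find_min hex h6 ⟨_, h5, h4, rfl⟩

omit [CharZero A] in
/-- A homomorphism injective on `A` does not kill nonzero algebraic elements. -/
theorem psi_ne (ψ : S →+* T) (hψ : Function.Injective (ψ.comp (algebraMap A S))) (Z : S)
    (hZ : IsAlgebraic A Z) (h0 : Z ≠ 0) : ψ Z ≠ 0 := by
  intro h1
  obtain ⟨g, hg0, hg⟩ := hZ.exists_nonzero_coeff_and_aeval_eq_zero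
    (mem_nonZeroDivisors_of_ne_zero h0)
  apply hg0
  apply hψ
  have h5 := congrArg ψ hg
  rw [map_zero, aeval_def, hom_eval₂, h1, eval₂_at_zero] at h5
  rw [map_zero]
  exact h5

end alg

section tangent

variable {L ι RW E : Type} [Field L] [CharZero L] [DecidableEq ι] [Fintype ι] [CommRing RW]
  [IsDomain RW] [Algebra L RW] [Field E] [Algebra L E] (φ : MvPolynomial ι L →ₐ[L] E)
  (hφ : Function.Injective φ) (ψ : RW →ₐ[L] MvPolynomial ι L) (D : RW → RW)
  (hD0 : ∀ a : L, D (algebraMap L RW a) = 0)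
  (hDa : ∀ x y, D (x + y) = D x + D y) (hDm : ∀ x y, D (x * y) = x * D y + y * D x)
  (c : Fin (Fintype.card ι) → RW) (hc : ∀ j, ψ (c j) = (pe L Finset.univ).coeff j)
  [Algebra (MvPolynomial (Fin (Fintype.card ι)) L) RW]
  (halg : ∀ p : MvPolynomial (Fin (Fintype.card ι)) L, algebraMap _ RW p = MvPolynomial.aeval c p)
  (hinj : Function.Injective fun p : MvPolynomial (Fin (Fintype.card ι)) L =>
    ψ (MvPolynomial.aeval c p))

include hφ hD0 hDa hDm hc halg in
theorem Del_A (p : MvPolynomial (Fin (Fintype.card ι)) L) :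
    Del φ ψ D c (algebraMap _ RW p) = 0 := by
  rw [halg]
  induction p using MvPolynomial.induction_on with
  | C a => rw [MvPolynomial.aeval_C, Del_L φ ψ D hD0]
  | add p q hp hq => rw [map_add, Del_add φ ψ D hDa, hp, hq, add_zero]
  | mul_X p j hp =>
    rw [map_mul, Del_mul φ ψ D hDm, hp, MvPolynomial.aeval_X, Del_c φ hφ ψ D c hc, mul_zero, mul_zero,
      add_zero]

include hφ hD0 hDa hDm hc halg hinj in
theorem Del_Z (Z : RW) (hZ : IsIntegral (MvPolynomial (Fin (Fintype.card ι)) L) Z) :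
    Del φ ψ D c Z = 0 := by
  have hinj' : Function.Injective ((ψ : RW →+* MvPolynomial ι L).comp
      (algebraMap (MvPolynomial (Fin (Fintype.card ι)) L) RW)) := by
    intro x y hxy
    apply hinj
    change ψ (algebraMap _ RW x) = ψ (algebraMap _ RW y) at hxy
    rw [halg, halg] at hxy
    exact hxy
  have hinjS : Function.Injective (algebraMap (MvPolynomial (Fin (Fintype.card ι)) L) RW) := by
    intro x y hxy
    exact hinj' (congrArg (ψ : RW →+* MvPolynomial ι L) hxy)
  obtain ⟨P, h1, h2⟩ := exists_sep hinjS Z hZ.isAlgebraic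
  have h3 : IsAlgebraic (MvPolynomial (Fin (Fintype.card ι)) L) (aeval Z (derivative P)) := by
    have h4 : aeval Z (derivative P) ∈ Algebra.adjoin (MvPolynomial (Fin (Fintype.card ι)) L) {Z} :=
      aeval_mem_adjoin_singleton _ _
    have h5 : Algebra.adjoin (MvPolynomial (Fin (Fintype.card ι)) L) {Z} ≤
        integralClosure (MvPolynomial (Fin (Fintype.card ι)) L) RW := by
      rw [Algebra.adjoin_le_iff]
      rintro _ rfl
      exact hZ
    exact (h5 h4 : IsIntegral _ _).isAlgebraic
  have h4 := psi_ne (ψ : RW →+* MvPolynomial ι L) hinj' _ h3 h2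
  have h5 := Del_aeval φ ψ D hDa hDm c (Del_A φ hφ ψ D hD0 hDa hDm c hc halg) Z P
  have h0 : Del φ ψ D c 0 = 0 := by
    have h1 := Del_A φ hφ ψ D hD0 hDa hDm c hc halg 0
    rwa [map_zero] at h1
  rw [h1, h0] at h5
  rcases mul_eq_zero.mp h5.symm with h6 | h6
  · exact absurd ((map_eq_zero_iff φ hφ).mp h6) h4
  · exact h6

end tangent

section pair

variable {L ι : Type} [Field L] [DecidableEq ι]

/-- the specialisation `X_j ↦ X_i` -/
noncomputable def pij (L : Type) [Field L] (i j : ι) : MvPolynomial ι L →ₐ[L] MvPolynomial ι L :=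
  MvPolynomial.aeval fun l => if l = j then MvPolynomial.X i else MvPolynomial.X l

theorem pij_j (i j : ι) : pij L i j (MvPolynomial.X j) = MvPolynomial.X i := by
  rw [pij, MvPolynomial.aeval_X, if_pos rfl]

theorem pij_ne (i j : ι) {l : ι} (hl : l ≠ j) : pij L i j (MvPolynomial.X l) = MvPolynomial.X l := by
  rw [pij, MvPolynomial.aeval_X, if_neg hl]

variable [Fintype ι]

/-- a partial product -/
noncomputable def gh (L : Type) {ι : Type} [Field L] [DecidableEq ι] [Fintype ι] (i j a : ι) :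
    MvPolynomial ι L :=
  ∏ l ∈ (Finset.univ.erase i).erase j, (MvPolynomial.X a - MvPolynomial.X l)

theorem gg_i {i j : ι} (hij : i ≠ j) :
    gg L i = (MvPolynomial.X i - MvPolynomial.X j) * gh L i j i := by
  exact (Finset.mul_prod_erase (Finset.univ.erase i)
    (fun l => (MvPolynomial.X i - MvPolynomial.X l : MvPolynomial ι L))
    (Finset.mem_erase.mpr ⟨Ne.symm hij, Finset.mem_univ _⟩)).symm

theorem gg_j {i j : ι} (hij : i ≠ j) :
    gg L j = (MvPolynomial.X j - MvPolynomial.X i) * gh L i j j := by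
  rw [gg, gh, Finset.erase_right_comm]
  exact (Finset.mul_prod_erase (Finset.univ.erase j)
    (fun l => (MvPolynomial.X j - MvPolynomial.X l : MvPolynomial ι L))
    (Finset.mem_erase.mpr ⟨hij, Finset.mem_univ _⟩)).symm

/-- The pair condition. -/
theorem pair {i j : ι} (hij : i ≠ j) {E : Type} [Field E] (φ : MvPolynomial ι L →+* E)
    (hφ : Function.Injective φ) (h : ι → MvPolynomial ι L) (x : MvPolynomial ι L)
    (hx : φ x = ∑ l, φ (h l) * (φ (gg L l))⁻¹) : pij L i j (h i) = pij L i j (h j) := by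
  set S := (Finset.univ.erase i).erase j with hS
  have hiS : i ∉ S := fun h => Finset.ne_of_mem_erase (Finset.mem_of_mem_erase h) rfl
  have hjS : j ∉ S := fun h => Finset.ne_of_mem_erase h rfl
  have hsum : ∀ f : ι → E, ∑ l, f l = f i + (f j + ∑ l ∈ S, f l) := by
    intro f
    rw [hS, Finset.add_sum_erase _ _ (Finset.mem_erase.mpr ⟨Ne.symm hij, Finset.mem_univ _⟩),
      Finset.add_sum_erase _ _ (Finset.mem_univ i)]
  let Q : MvPolynomial ι L := ∏ l ∈ S, gg L l
  have hQ : ∀ l, l ∈ S → φ Q * (φ (gg L l))⁻¹ = φ (∏ l' ∈ S.erase l, gg L l') := by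
    intro l hl
    change φ (∏ l ∈ S, gg L l) * _ = _
    rw [← Finset.mul_prod_erase S _ hl, map_mul, mul_comm (φ (gg L l)), mul_inv_cancel_right₀]
    rw [Ne, map_eq_zero_iff φ hφ]
    exact gg_ne l
  have hne : φ (MvPolynomial.X i - MvPolynomial.X j) ≠ 0 := by
    rw [Ne, map_eq_zero_iff φ hφ]; exact X_sub_ne hij
  have hghi : gh L i j i ≠ 0 := by
    intro h0
    exact gg_ne (L := L) i (by rw [gg_i hij, h0, mul_zero])
  have hghj : gh L i j j ≠ 0 := by
    intro h0
    exact gg_ne (L := L) j (by rw [gg_j hij, h0, mul_zero])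
  have hghi' : φ (gh L i j i) ≠ 0 := by rwa [Ne, map_eq_zero_iff φ hφ]
  have hghj' : φ (gh L i j j) ≠ 0 := by rwa [Ne, map_eq_zero_iff φ hφ]
  -- the identity without denominators
  have hid : (MvPolynomial.X i - MvPolynomial.X j) * (gh L i j i * gh L i j j * Q * x) =
      h i * gh L i j j * Q - h j * gh L i j i * Q +
      (MvPolynomial.X i - MvPolynomial.X j) * (gh L i j i * gh L i j j *
        ∑ l ∈ S, h l * ∏ l' ∈ S.erase l, gg L l') := by
    apply hφ
    have h1 : φ (∑ l ∈ S, h l * ∏ l' ∈ S.erase l, gg L l') =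
        φ Q * ∑ l ∈ S, φ (h l) * (φ (gg L l))⁻¹ := by
      rw [map_sum, Finset.mul_sum]
      refine Finset.sum_congr rfl fun l hl => ?_
      rw [map_mul, ← hQ l hl]
      ring
    simp only [map_add, map_sub, map_mul, hx, hsum] at h1 ⊢
    rw [h1, gg_i hij, gg_j hij]
    simp only [map_sub, map_mul] at hne ⊢
    have hne2 : φ (MvPolynomial.X j) - φ (MvPolynomial.X i) ≠ 0 := by
      intro h2
      apply hne
      rw [← neg_sub, h2, neg_zero]
    field_simp
    ring
  -- apply the specialisation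
  have h1 := congrArg (pij L i j) hid
  have h2 : pij L i j (MvPolynomial.X i - MvPolynomial.X j) = 0 := by
    rw [map_sub, pij_j, pij_ne i j hij, sub_self]
  rw [map_mul, h2, zero_mul, map_add, map_mul (pij L i j) (MvPolynomial.X i - MvPolynomial.X j), h2,
    zero_mul, add_zero, map_sub, map_mul, map_mul, map_mul, map_mul] at h1
  have h3 : pij L i j (gh L i j j) = gh L i j i := by
    rw [gh, map_prod, gh]
    refine Finset.prod_congr rfl fun l hl => ?_
    rw [map_sub, pij_j, pij_ne i j (fun h => hjS (by rw [← h]; exact hl))]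
  have h4 : pij L i j (gh L i j i) = gh L i j i := by
    rw [gh, map_prod]
    refine Finset.prod_congr rfl fun l hl => ?_
    rw [map_sub, pij_ne i j hij, pij_ne i j (fun h => hjS (by rw [← h]; exact hl))]
  have h5 : pij L i j Q ≠ 0 := by
    change pij L i j (∏ l ∈ S, gg L l) ≠ 0
    rw [map_prod, Finset.prod_ne_zero_iff]
    intro l hl
    rw [gg, map_prod, Finset.prod_ne_zero_iff]
    intro l' hl'
    have hlj : l ≠ j := fun h => hjS (by rw [← h]; exact hl)
    have hli : l ≠ i := fun h => hiS (by rw [← h]; exact hl)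
    rw [map_sub, pij_ne i j hlj]
    by_cases h6 : l' = j
    · rw [h6, pij_j]; exact X_sub_ne hli
    · rw [pij_ne i j h6]; exact X_sub_ne (Ne.symm (Finset.ne_of_mem_erase hl'))
  rw [h3, h4] at h1
  have h6 : (pij L i j (h i) - pij L i j (h j)) * (gh L i j i * pij L i j Q) = 0 := by
    rw [h1]; ring
  rcases mul_eq_zero.mp h6 with h7 | h7
  · exact sub_eq_zero.mp h7
  · exact absurd h7 (mul_ne_zero hghi h5)

theorem pij_eval (i j : ι) (F : (MvPolynomial ι L)[X]) (l l' : ι)
    (h : pij L i j (MvPolynomial.X l) = pij L i j (MvPolynomial.X l')) :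
    pij L i j (F.eval (MvPolynomial.X l)) = pij L i j (F.eval (MvPolynomial.X l')) := by
  have h1 : ∀ l, pij L i j (F.eval (MvPolynomial.X l)) =
      (F.map (pij L i j : MvPolynomial ι L →+* MvPolynomial ι L)).eval
        (pij L i j (MvPolynomial.X l)) := by
    intro l
    rw [eval_map]
    exact (hom_eval₂ F (RingHom.id _) (pij L i j : MvPolynomial ι L →+* MvPolynomial ι L) _)
  rw [h1, h1, h]

end pair

section final

variable {L ι RW E : Type} [Field L] [CharZero L] [DecidableEq ι] [Fintype ι] [CommRing RW]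
  [IsDomain RW] [Algebra L RW] [Field E] [Algebra L E] (φ : MvPolynomial ι L →ₐ[L] E)
  (hφ : Function.Injective φ) (ψ : RW →ₐ[L] MvPolynomial ι L) (D : RW → RW)
  (hD0 : ∀ a : L, D (algebraMap L RW a) = 0)
  (hDa : ∀ x y, D (x + y) = D x + D y) (hDm : ∀ x y, D (x * y) = x * D y + y * D x)
  (c : Fin (Fintype.card ι) → RW) (hc : ∀ j, ψ (c j) = (pe L Finset.univ).coeff j)
  [Algebra (MvPolynomial (Fin (Fintype.card ι)) L) RW]
  (halg : ∀ p : MvPolynomial (Fin (Fintype.card ι)) L, algebraMap _ RW p = MvPolynomial.aeval c p)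
  (hinj : Function.Injective fun p : MvPolynomial (Fin (Fintype.card ι)) L =>
    ψ (MvPolynomial.aeval c p))

include hφ hD0 hDa hDm hc halg hinj in
/-- **The condition at a pair of roots.** -/
theorem pair_main {i j : ι} (hij : i ≠ j)
    (hF : pij L i j ((FF ψ D c).eval (MvPolynomial.X i)) ≠ 0) (Z : RW)
    (hZ : IsIntegral (MvPolynomial (Fin (Fintype.card ι)) L) Z) :
    pij L i j (MvPolynomial.pderiv i (ψ Z)) = pij L i j (MvPolynomial.pderiv j (ψ Z)) := by
  have h1 := Del_Z φ hφ ψ D hD0 hDa hDm c hc halg hinj Z hZ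
  have h2 := pair (L := L) hij (φ : MvPolynomial ι L →+* E) hφ
    (fun l => (FF ψ D c).eval (MvPolynomial.X l) * MvPolynomial.pderiv l (ψ Z)) (- ψ (D Z)) (by
      change φ (- ψ (D Z)) = _
      rw [map_neg, neg_eq_iff_add_eq_zero]
      rw [Del] at h1
      rw [← h1]
      congr 1
      refine Finset.sum_congr rfl fun l _ => ?_
      change φ (_ * _) * (φ (gg L l))⁻¹ = _
      rw [map_mul]; ring)
  rw [map_mul, map_mul, pij_eval i j (FF ψ D c) j i (by rw [pij_j, pij_ne i j hij])] at h2
  exact mul_left_cancel₀ hF h2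

end final

end Pool.Agent.Zk31.EB
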