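import Pool.Agent.Zk31.EB
import Pool.Agent.Zk31.DI
import Pool.Agent.Zk31.CG

/-! The integral elements: lifting invariant polynomials. -/

set_option autoImplicit false
set_option linter.unusedSectionVars false

namespace Pool.Agent.Zk31.EC

open Polynomial IntermediateField Pool.Agent.Zk31.EA Pool.Agent.Zk31.EB
  Pool.Agent.Zk31.CA Pool.Agent.Zk31.CB Pool.Agent.Zk31.CC

section

variable {L ι : Type} [Field L] [CharZero L] [Fintype ι] [DecidableEq ι] {RW : Type} [CommRing RW]
  [IsDomain RW] [IsIntegrallyClosed RW] [Algebra L RW]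
  (ψ : RW →ₐ[L] MvPolynomial ι L) (c : Fin (Fintype.card ι) → RW)
  (hc : ∀ j, ψ (c j) = (pe L Finset.univ).coeff j)
  [Algebra (MvPolynomial (Fin (Fintype.card ι)) L) RW]
  (halg : ∀ p : MvPolynomial (Fin (Fintype.card ι)) L, algebraMap _ RW p = MvPolynomial.aeval c p)
  (hinj : Function.Injective fun p : MvPolynomial (Fin (Fintype.card ι)) L =>
    ψ (MvPolynomial.aeval c p))

/-- the composite map -/
noncomputable def aR : MvPolynomial (Fin (Fintype.card ι)) L →+* MvPolynomial ι L :=
  (ψ : RW →+* MvPolynomial ι L).comp (algebraMap (MvPolynomial (Fin (Fintype.card ι)) L) RW)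

include halg hinj in
theorem aR_inj : Function.Injective (aR ψ) := by
  intro x y hxy
  apply hinj
  change ψ (algebraMap _ RW x) = ψ (algebraMap _ RW y) at hxy
  rw [halg, halg] at hxy
  exact hxy

include hc halg in
theorem int_all (y : MvPolynomial ι L) : (aR ψ).IsIntegralElem y := by
  induction y using MvPolynomial.induction_on with
  | C a =>
    have h1 : (aR ψ) (MvPolynomial.C a) = MvPolynomial.C a := by
      change ψ (algebraMap _ RW (MvPolynomial.C a)) = _
      rw [halg, MvPolynomial.aeval_C, AlgHom.commutes]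
      rfl
    rw [← h1]
    exact (aR ψ).isIntegralElem_map
  | add p q hp hq => exact RingHom.IsIntegralElem.add _ hp hq
  | mul_X p i hp =>
    refine RingHom.IsIntegralElem.mul _ hp ?_
    let G : (MvPolynomial (Fin (Fintype.card ι)) L)[X] :=
      X ^ (Fintype.card ι) + ∑ j : Fin (Fintype.card ι), C (MvPolynomial.X j) * X ^ (j : ℕ)
    have h1 : (∑ j : Fin (Fintype.card ι), C (MvPolynomial.X j :
        MvPolynomial (Fin (Fintype.card ι)) L) * X ^ (j : ℕ)).degree <
        ((Fintype.card ι : ℕ) : WithBot ℕ) := by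
      rw [← mem_degreeLT]
      refine Submodule.sum_mem _ fun i _ => ?_
      rw [mem_degreeLT]
      refine lt_of_le_of_lt (degree_C_mul_X_pow_le _ _) ?_
      exact_mod_cast i.2
    refine ⟨G, monic_X_pow_add h1, ?_⟩
    have h2 : G.map (aR ψ) = pe L Finset.univ := by
      obtain ⟨h3, h4⟩ := pe_monic (L := L) (Finset.univ : Finset ι)
      rw [Finset.card_univ] at h4
      rw [h3.as_sum, h4, Polynomial.map_add, Polynomial.map_pow, map_X, Polynomial.map_sum,
        Finset.sum_range]
      congr 1
      refine Finset.sum_congr rfl fun j _ => ?_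
      rw [Polynomial.map_mul, map_C, Polynomial.map_pow, map_X]
      congr 2
      change ψ (algebraMap _ RW (MvPolynomial.X j)) = _
      rw [halg, MvPolynomial.aeval_X, hc]
    rw [← eval_map, h2, pe, eval_prod]
    exact Finset.prod_eq_zero (Finset.mem_univ i) (by simp)

/-- homogenization -/
theorem homog {A F : Type} [CommRing A] [Field F] (φ : A →+* F) (G : A[X]) (p q : F) (hq : q ≠ 0) :
    ∑ i ∈ Finset.range (G.natDegree + 1), φ (G.coeff i) * p ^ i * q ^ (G.natDegree - i) =
      q ^ G.natDegree * eval₂ φ (p / q) G := by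
  rw [eval₂_eq_sum_range, Finset.mul_sum]
  refine Finset.sum_congr rfl fun i hi => ?_
  have h1 : i ≤ G.natDegree := Nat.lt_succ_iff.mp (Finset.mem_range.mp hi)
  obtain ⟨k, hk⟩ := Nat.exists_eq_add_of_le h1
  rw [hk, Nat.add_sub_cancel_left, div_pow, pow_add]
  field_simp

include hc halg hinj in
theorem lift_int (y : MvPolynomial ι L) (P Q : RW)
    (hP : IsIntegral (MvPolynomial (Fin (Fintype.card ι)) L) P)
    (hQ : IsIntegral (MvPolynomial (Fin (Fintype.card ι)) L) Q) (hQ0 : ψ Q ≠ 0)
    (h : y * ψ Q = ψ P) :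
    ∃ Y : RW, IsIntegral (MvPolynomial (Fin (Fintype.card ι)) L) Y ∧ ψ Y = y := by
  obtain ⟨G, hG, hy⟩ := int_all ψ c hc halg y
  set A := MvPolynomial (Fin (Fintype.card ι)) L with hA
  let T : RW := ∑ i ∈ Finset.range (G.natDegree + 1),
    algebraMap A RW (G.coeff i) * P ^ i * Q ^ (G.natDegree - i)
  have hT : IsIntegral A T :=
    IsIntegral.sum _ fun i _ => (isIntegral_algebraMap.mul (hP.pow _)).mul (hQ.pow _)
  let W := FractionRing (MvPolynomial ι L)
  have hiW : Function.Injective (algebraMap (MvPolynomial ι L) W) := IsFractionRing.injective _ _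
  have hψT : ψ T = 0 := by
    apply hiW
    change algebraMap _ W (ψ (∑ i ∈ Finset.range (G.natDegree + 1),
      algebraMap A RW (G.coeff i) * P ^ i * Q ^ (G.natDegree - i))) = _
    have h1 := homog ((algebraMap (MvPolynomial ι L) W).comp (aR ψ)) G
      (algebraMap _ W (ψ P)) (algebraMap _ W (ψ Q)) (by
        rw [Ne, map_eq_zero_iff _ hiW]; exact hQ0)
    have h2 : algebraMap _ W (ψ P) / algebraMap _ W (ψ Q) = algebraMap _ W y := by
      rw [← h, map_mul, mul_div_assoc, div_self, mul_one]
      rw [Ne, map_eq_zero_iff _ hiW]; exact hQ0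
    rw [h2, ← Polynomial.hom_eval₂, hy, map_zero, mul_zero] at h1
    rw [map_zero, ← h1, map_sum, map_sum]
    refine Finset.sum_congr rfl fun i _ => ?_
    simp only [map_mul, map_pow]
    rfl
  have hT0 : T = 0 := by
    by_contra hne
    exact psi_ne (ψ : RW →+* MvPolynomial ι L) (aR_inj ψ c halg hinj) T hT.isAlgebraic hne hψT
  have hQne : Q ≠ 0 := by rintro rfl; exact hQ0 (map_zero ψ)
  let V := FractionRing RW
  have hiV : Function.Injective (algebraMap RW V) := IsFractionRing.injective _ _
  have hroot : eval₂ ((algebraMap RW V).comp (algebraMap A RW))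
      (algebraMap RW V P / algebraMap RW V Q) G = 0 := by
    have h1 := homog ((algebraMap RW V).comp (algebraMap A RW)) G
      (algebraMap _ V P) (algebraMap _ V Q) (by rw [Ne, map_eq_zero_iff _ hiV]; exact hQne)
    have h2 : algebraMap RW V T = 0 := by rw [hT0, map_zero]
    have h3 : algebraMap RW V T = ∑ i ∈ Finset.range (G.natDegree + 1),
        ((algebraMap RW V).comp (algebraMap A RW)) (G.coeff i) * algebraMap _ V P ^ i *
          algebraMap _ V Q ^ (G.natDegree - i) := by
      change algebraMap RW V (∑ i ∈ Finset.range (G.natDegree + 1),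
        algebraMap A RW (G.coeff i) * P ^ i * Q ^ (G.natDegree - i)) = _
      rw [map_sum]
      refine Finset.sum_congr rfl fun i _ => ?_
      simp only [map_mul, map_pow]
      rfl
    rw [← h3, h2] at h1
    rcases mul_eq_zero.mp h1.symm with h4 | h4
    · exact absurd h4 (pow_ne_zero _ (by rw [Ne, map_eq_zero_iff _ hiV]; exact hQne))
    · exact h4
  have hintV : IsIntegral RW (algebraMap RW V P / algebraMap RW V Q) := by
    refine ⟨G.map (algebraMap A RW), hG.map _, ?_⟩
    rw [eval₂_map]
    exact hroot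
  obtain ⟨Y, hY⟩ := IsIntegrallyClosed.isIntegral_iff.1 hintV
  have hQY : Q * Y = P := by
    apply hiV
    rw [map_mul, hY, mul_div_cancel₀]
    rw [Ne, map_eq_zero_iff _ hiV]; exact hQne
  refine ⟨Y, ⟨G, hG, ?_⟩, ?_⟩
  · apply hiV
    rw [map_zero, Polynomial.hom_eval₂, hY]
    exact hroot
  · apply mul_right_cancel₀ hQ0
    rw [h, ← hQY, map_mul, mul_comm]

end

end Pool.Agent.Zk31.EC
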