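import Pool.Agent.Zk31.EC

/-! Galois theory: invariant polynomials come from integral elements. -/

set_option autoImplicit false
set_option linter.unusedSectionVars false

namespace Pool.Agent.Zk31.ED

open Polynomial IntermediateField Pool.Agent.Zk31.EA Pool.Agent.Zk31.EB Pool.Agent.Zk31.EC
  Pool.Agent.Zk31.CA Pool.Agent.Zk31.CB Pool.Agent.Zk31.CC

section

variable {L ι : Type} [Field L] [CharZero L] [Fintype ι] [DecidableEq ι] {RW : Type} [CommRing RW]
  [IsDomain RW] [IsIntegrallyClosed RW] [Algebra L RW]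
  (ψ : RW →ₐ[L] MvPolynomial ι L) (c : Fin (Fintype.card ι) → RW)
  (hc : ∀ j, ψ (c j) = (pe L Finset.univ).coeff j)
  [Algebra (MvPolynomial (Fin (Fintype.card ι)) L) RW]
  (halg : ∀ p : MvPolynomial (Fin (Fintype.card ι)) L, algebraMap _ RW p = MvPolynomial.aeval c p)
  (hinj : Function.Injective fun p : MvPolynomial (Fin (Fintype.card ι)) L =>
    ψ (MvPolynomial.aeval c p))

/-- the stabilizer -/
def St (ψ : RW →ₐ[L] MvPolynomial ι L) : Subgroup (Equiv.Perm ι) where
  carrier := {σ | ∀ w : RW, IsIntegral (MvPolynomial (Fin (Fintype.card ι)) L) w →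
    MvPolynomial.rename σ (ψ w) = ψ w}
  one_mem' := fun w _ => MvPolynomial.rename_id_apply _
  mul_mem' := fun {a b} ha hb w hw => by
    have h1 : ((a * b : Equiv.Perm ι) : ι → ι) = a ∘ b := rfl
    rw [h1, ← MvPolynomial.rename_rename, hb w hw, ha w hw]
  inv_mem' := fun {a} ha w hw => by
    have h1 := congrArg (MvPolynomial.rename ((a⁻¹ : Equiv.Perm ι) : ι → ι)) (ha w hw)
    rw [MvPolynomial.rename_rename] at h1
    have h2 : ((a⁻¹ : Equiv.Perm ι) : ι → ι) ∘ a = id := by
      funext x
      exact a.symm_apply_apply x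
    rw [h2, MvPolynomial.rename_id_apply] at h1
    exact h1.symm

include hc halg hinj in
/-- **Invariants of the stabilizer come from integral elements.** -/
theorem galois (hcard : 0 < Fintype.card ι) (y : MvPolynomial ι L)
    (hy : ∀ σ ∈ St ψ, MvPolynomial.rename σ y = y) :
    ∃ Y : RW, IsIntegral (MvPolynomial (Fin (Fintype.card ι)) L) Y ∧ ψ Y = y := by
  classical
  obtain ⟨R, _, _, _, _, r, h, hind, hgen, hr, hh⟩ :=
    Pool.Agent.Zk31.CG.exists_perm_field L ι
  let φ : MvPolynomial ι L →ₐ[L] R := MvPolynomial.aeval r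
  have hri : AlgebraicIndependent L r := hind.comp some (Option.some_injective _)
  have hφ : Function.Injective φ := hri
  have hequiv : ∀ (σ : Equiv.Perm ι) (p : MvPolynomial ι L),
      σ • φ p = φ (MvPolynomial.rename σ p) := by
    intro σ p
    have h1 : (act (R := R) L σ).comp φ = φ.comp (MvPolynomial.rename σ) := by
      apply MvPolynomial.algHom_ext
      intro i
      change σ • φ (MvPolynomial.X i) = φ (MvPolynomial.rename σ (MvPolynomial.X i))
      rw [MvPolynomial.rename_X]
      change σ • MvPolynomial.aeval r (MvPolynomial.X i) = MvPolynomial.aeval r (MvPolynomial.X (σ i))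
      rw [MvPolynomial.aeval_X, MvPolynomial.aeval_X, hr]
    exact congrArg (fun f : MvPolynomial ι L →ₐ[L] R => f p) h1
  have hd : (0 : L[X]).natDegree < Fintype.card ι := by rw [natDegree_zero]; exact hcard
  have hfB : fB r h (0 : L[X]) = (pe L Finset.univ).map (φ : MvPolynomial ι L →+* R) := by
    rw [fB, Polynomial.map_zero, mul_zero, add_zero, pe, Polynomial.map_prod]
    refine Finset.prod_congr rfl fun i _ => ?_
    rw [Polynomial.map_sub, map_X, map_C]
    congr 2
    exact (MvPolynomial.aeval_X r i).symm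
  let S : Set R := {x | ∃ w : RW, IsIntegral (MvPolynomial (Fin (Fintype.card ι)) L) w ∧
    x = φ (ψ w)}
  let M0 : IntermediateField L R := adjoin L S
  have hcint : ∀ j, IsIntegral (MvPolynomial (Fin (Fintype.card ι)) L) (c j) := by
    intro j
    have h1 : c j = algebraMap (MvPolynomial (Fin (Fintype.card ι)) L) RW (MvPolynomial.X j) := by
      rw [halg, MvPolynomial.aeval_X]
    rw [h1]
    exact isIntegral_algebraMap
  have hABM : AB r h (0 : L[X]) ≤ M0 := by
    rw [AB_eq r h (0 : L[X]) hd, adjoin_le_iff]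
    rintro _ ⟨j, rfl⟩
    apply subset_adjoin
    refine ⟨c j, hcint j, ?_⟩
    change (fB r h (0 : L[X])).coeff j = _
    rw [hfB, coeff_map, hc]
    rfl
  -- everything is algebraic over `AB`
  have hrLam : ∀ i, r i ∈ Lam r h (0 : L[X]) := by
    intro i
    rw [mem_Lam]
    obtain ⟨p, hp⟩ := exists_fB r h (0 : L[X]) (le_refl (AB r h (0 : L[X])))
    have hmon := (monic_fB r h (0 : L[X]) hd).1
    refine ⟨p, ?_, ?_⟩
    · rintro rfl
      rw [Polynomial.map_zero] at hp
      exact hmon.ne_zero hp.symm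
    · rw [← Polynomial.eval_map_algebraMap, hp, fB, Polynomial.map_zero, mul_zero, add_zero, eval_prod]
      exact Finset.prod_eq_zero (Finset.mem_univ i) (by simp)
  have hφLam : ∀ p, φ p ∈ Lam r h (0 : L[X]) := by
    intro p
    induction p using MvPolynomial.induction_on with
    | C a =>
      have h1 : φ (MvPolynomial.C a) = algebraMap L R a := MvPolynomial.aeval_C r a
      rw [h1]
      exact (Lam r h (0 : L[X])).algebraMap_mem a
    | add p q hp hq => rw [map_add]; exact add_mem hp hq
    | mul_X p i hp =>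
      have h1 : φ (MvPolynomial.X i) = r i := MvPolynomial.aeval_X r i
      rw [map_mul, h1]
      exact mul_mem hp (hrLam i)
  have hM0 : M0 ≤ Lam r h (0 : L[X]) := by
    change adjoin L S ≤ _
    rw [adjoin_le_iff]
    rintro _ ⟨w, -, rfl⟩
    exact hφLam _
  have htr : Transcendental M0 h := by
    intro h1
    apply transcendental_Lam r h (0 : L[X]) hd hind hgen
    exact Pool.Agent.Zk31.DI.alg_map' (RingHom.id R) M0 (Lam r h (0 : L[X]))
      (fun a ha => hM0 ha) h1 |> fun h2 => h2
  -- Galois theory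
  let MM : IntermediateField M0 R := adjoin M0 (Set.range fun _ : Unit => h)
  have hhM : h ∈ MM := subset_adjoin M0 (Set.range fun _ : Unit => h) ⟨(), rfl⟩
  have hMMle : ∀ x ∈ M0, x ∈ MM.restrictScalars L := fun x hx =>
    IntermediateField.algebraMap_mem MM (⟨x, hx⟩ : M0)
  have h4 : φ y ∈ MM.restrictScalars L := by
    refine mem_of_fixed r h (0 : L[X]) hind hgen hr hh (M := MM.restrictScalars L)
      (fun x hx => hMMle x (hABM hx)) hhM (φ y) (fun σ hσ => ?_)
    rw [hequiv, hy]
    intro w hw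
    apply hφ
    rw [← hequiv]
    exact hσ _ (hMMle _ (subset_adjoin L S ⟨w, hw, rfl⟩))
  have h5 : IsAlgebraic M0 (φ y) := by
    have h6 := (mem_Lam r h (0 : L[X])).mp (hφLam y)
    exact Pool.Agent.Zk31.DI.alg_map' (RingHom.id R) (AB r h (0 : L[X])) M0
      (fun a ha => hABM ha) h6
  obtain ⟨w, hw⟩ := Pool.Agent.W333.HP.bc0 M0 R Unit (fun _ => h)
    (algebraicIndependent_unique_type_iff.mpr htr) (φ y) h4 h5
  have h6 : φ y ∈ adjoin L S := by
    rw [← hw]; exact w.2
  rw [mem_adjoin_iff_div] at h6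
  obtain ⟨a, ha, b, hb, hab⟩ := h6
  have hsub : ∀ x ∈ Algebra.adjoin L S, ∃ w : RW,
      IsIntegral (MvPolynomial (Fin (Fintype.card ι)) L) w ∧ x = φ (ψ w) := by
    intro x hx
    induction hx using Algebra.adjoin_induction with
    | mem x hx => exact hx
    | algebraMap a =>
      refine ⟨algebraMap L RW a, ?_, ?_⟩
      · have h7 : algebraMap L RW a =
            algebraMap (MvPolynomial (Fin (Fintype.card ι)) L) RW (MvPolynomial.C a) := by
          rw [halg, MvPolynomial.aeval_C]
        rw [h7]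
        exact isIntegral_algebraMap
      · rw [AlgHom.commutes, AlgHom.commutes]
    | add x y _ _ hx hy =>
      obtain ⟨w, h7, rfl⟩ := hx
      obtain ⟨w', h8, rfl⟩ := hy
      exact ⟨w + w', h7.add h8, by rw [map_add, map_add]⟩
    | mul x y _ _ hx hy =>
      obtain ⟨w, h7, rfl⟩ := hx
      obtain ⟨w', h8, rfl⟩ := hy
      exact ⟨w * w', h7.mul h8, by rw [map_mul, map_mul]⟩
  obtain ⟨P, hP, rfl⟩ := hsub a ha
  obtain ⟨Q, hQ, rfl⟩ := hsub b hb
  by_cases hQ0 : ψ Q = 0
  · refine ⟨0, isIntegral_zero, ?_⟩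
    rw [hQ0, map_zero, div_zero] at hab
    rw [map_zero]
    exact (hφ (hab.trans (map_zero φ).symm)).symm
  · refine lift_int ψ c hc halg hinj y P Q hP hQ hQ0 ?_
    apply hφ
    have h7 : φ (ψ Q) ≠ 0 := by rw [Ne, map_eq_zero_iff φ hφ]; exact hQ0
    rw [map_mul, hab, div_mul_cancel₀ _ h7]

end

end Pool.Agent.Zk31.ED
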