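import Pool.Agent.Zk31.ED

/-! Integral elements are symmetric. -/

set_option autoImplicit false
set_option linter.unusedSectionVars false

namespace Pool.Agent.Zk31.EE

open Polynomial IntermediateField Pool.Agent.Zk31.EA Pool.Agent.Zk31.EB Pool.Agent.Zk31.EC
  Pool.Agent.Zk31.ED

/-- the index set: two blocks -/
abbrev II (m : ℕ) : Type := Fin m ⊕ Fin m

section group

variable {m : ℕ} (H : Subgroup (Equiv.Perm (II m)))
  (hl : ∀ i j : Fin m, Equiv.swap (Sum.inl i : II m) (Sum.inl j) ∈ H)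
  (hr : ∀ i j : Fin m, Equiv.swap (Sum.inr i : II m) (Sum.inr j) ∈ H)

theorem conj_mem {σ : Equiv.Perm (II m)} (hσ : σ ∈ H) {a b : II m} (h : Equiv.swap a b ∈ H) :
    Equiv.swap (σ a) (σ b) ∈ H := by
  rw [Equiv.swap_apply_apply]
  exact H.mul_mem (H.mul_mem hσ h) (H.inv_mem hσ)

include hl hr in
theorem eq_top {i j : Fin m} (h : Equiv.swap (Sum.inl i : II m) (Sum.inr j) ∈ H) : H = ⊤ := by
  have h1 : ∀ i' j' : Fin m, Equiv.swap (Sum.inl i' : II m) (Sum.inr j') ∈ H := by
    intro i' j'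
    have h2 := conj_mem H (hl i i') h
    rw [Equiv.swap_apply_left, Equiv.swap_apply_of_ne_of_ne Sum.inr_ne_inl Sum.inr_ne_inl] at h2
    have h3 := conj_mem H (hr j j') h2
    rw [Equiv.swap_apply_left, Equiv.swap_apply_of_ne_of_ne Sum.inl_ne_inr Sum.inl_ne_inr] at h3
    exact h3
  rw [eq_top_iff, ← Equiv.Perm.closure_isSwap, Subgroup.closure_le]
  rintro _ ⟨x, y, -, rfl⟩
  rcases x with x | x <;> rcases y with y | y
  · exact hl x y
  · exact h1 x y
  · rw [Equiv.swap_comm]; exact h1 y x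
  · exact hr x y

/-- the sign of the block -/
def sg (L : Type) [Field L] {m : ℕ} (z : II m) : L := Sum.elim (fun _ => 1) (fun _ => -1) z

include hl hr in
theorem sign_of (L : Type) [Field L] [CharZero L] (hm : 0 < m)
    (h : ∀ i j : Fin m, Equiv.swap (Sum.inl i : II m) (Sum.inr j) ∉ H) {σ : Equiv.Perm (II m)}
    (hσ : σ ∈ H) : ∃ ε : L, ε * ε = 1 ∧ ∀ z : II m, sg L (σ z) = ε * sg L z := by
  have h0 : ∀ a b : II m, Equiv.swap a b ∈ H → sg L a = sg L b := by
    intro a b hab
    rcases a with a | a <;> rcases b with b | b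
    · rfl
    · exact absurd hab (h a b)
    · rw [Equiv.swap_comm] at hab; exact absurd hab (h b a)
    · rfl
  have h1 : ∀ i i' : Fin m, sg L (σ (Sum.inl i)) = sg L (σ (Sum.inl i')) := fun i i' =>
    h0 _ _ (conj_mem H hσ (hl i i'))
  have h2 : ∀ i i' : Fin m, sg L (σ (Sum.inr i)) = sg L (σ (Sum.inr i')) := fun i i' =>
    h0 _ _ (conj_mem H hσ (hr i i'))
  have hsq : ∀ z : II m, sg L z * sg L z = 1 := by
    intro z
    rcases z with z | z
    · change (1 : L) * 1 = 1; ring
    · change (-1 : L) * (-1) = 1; ring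
  have hpm : ∀ z : II m, sg L z = 1 ∨ sg L z = -1 := by
    intro z
    rcases z with z | z
    · left; rfl
    · right; rfl
  let i₀ : Fin m := ⟨0, hm⟩
  have h2ne : (1 : L) ≠ -1 := by
    intro h3
    have h4 : (2 : L) = 0 := by
      calc (2 : L) = 1 + 1 := by norm_num
        _ = -1 + 1 := by rw [← h3]
        _ = 0 := by ring
    exact two_ne_zero h4
  have h3 : sg L (σ (Sum.inl i₀)) = - sg L (σ (Sum.inr i₀)) := by
    by_contra hne
    have h4 : ∀ z, sg L (σ z) = sg L (σ (Sum.inl i₀)) := by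
      intro z
      rcases z with z | z
      · exact h1 _ _
      · rw [h2 z i₀]
        rcases hpm (σ (Sum.inl i₀)) with h5 | h5 <;> rcases hpm (σ (Sum.inr i₀)) with h6 | h6
        · rw [h5, h6]
        · exfalso; apply hne; rw [h5, h6]; ring
        · exfalso; apply hne; rw [h5, h6]
        · rw [h5, h6]
    have h5 := h4 (σ.symm (Sum.inl i₀))
    have h6 := h4 (σ.symm (Sum.inr i₀))
    rw [Equiv.apply_symm_apply] at h5 h6
    exact h2ne (h5.trans h6.symm)
  refine ⟨sg L (σ (Sum.inl i₀)), hsq _, fun z => ?_⟩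
  rcases z with z | z
  · rw [h1 z i₀]
    change _ = _ * (1 : L)
    rw [mul_one]
  · rw [h2 z i₀, h3]
    change _ = _ * (-1 : L)
    ring

end group

section delta

variable (L : Type) [Field L] [CharZero L] (m : ℕ)

/-- the difference of the sums of the two blocks -/
noncomputable def dl : MvPolynomial (II m) L := ∑ z, MvPolynomial.C (sg L z) * MvPolynomial.X z

variable {L m}

theorem rename_dl {σ : Equiv.Perm (II m)} {ε : L} (hε : ε * ε = 1)
    (h : ∀ z : II m, sg L (σ z) = ε * sg L z) :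
    MvPolynomial.rename σ (dl L m ^ 2) = dl L m ^ 2 := by
  have h1 : MvPolynomial.rename σ (dl L m) = MvPolynomial.C ε * dl L m := by
    rw [dl, map_sum, Finset.mul_sum, ← Equiv.sum_comp σ
      (fun z => MvPolynomial.C ε * (MvPolynomial.C (sg L z) * MvPolynomial.X z))]
    refine Finset.sum_congr rfl fun z _ => ?_
    rw [map_mul, MvPolynomial.rename_C, MvPolynomial.rename_X, h, ← mul_assoc, ← MvPolynomial.C_mul,
      ← mul_assoc, hε, one_mul]
  rw [map_pow, h1, mul_pow, ← MvPolynomial.C_pow, pow_two ε, hε, MvPolynomial.C_1, one_mul]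

theorem pderiv_dl (z : II m) : MvPolynomial.pderiv z (dl L m) = MvPolynomial.C (sg L z) := by
  classical
  rw [dl, map_sum, Finset.sum_eq_single z]
  · rw [MvPolynomial.pderiv_C_mul, MvPolynomial.pderiv_X_self, mul_one]
  · intro b _ hb
    rw [MvPolynomial.pderiv_C_mul, MvPolynomial.pderiv_X_of_ne hb, mul_zero]
  · intro h; exact absurd (Finset.mem_univ _) h

theorem pij_dl (i j i' : Fin m) (hi : i' ≠ i) : pij L (Sum.inl i : II m) (Sum.inr j) (dl L m) ≠ 0 := by
  intro h
  have h1 := congrArg (MvPolynomial.eval fun l : II m => if l = Sum.inl i' then (1 : L) else 0) h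
  rw [map_zero, dl, map_sum, map_sum, Finset.sum_eq_single (Sum.inl i' : II m)] at h1
  · rw [map_mul, pij_ne _ _ Sum.inl_ne_inr, map_mul] at h1
    have h2 : pij L (Sum.inl i : II m) (Sum.inr j) (MvPolynomial.C (sg L (Sum.inl i' : II m))) =
        MvPolynomial.C (sg L (Sum.inl i' : II m)) := AlgHom.commutes _ _
    rw [h2, MvPolynomial.eval_C, MvPolynomial.eval_X, if_pos rfl, mul_one] at h1
    exact one_ne_zero h1
  · intro z _ hz
    rw [map_mul, map_mul]
    by_cases hz2 : z = Sum.inr j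
    · rw [hz2, pij_j, MvPolynomial.eval_X, if_neg (fun h => hi (Sum.inl_injective h).symm), mul_zero]
    · rw [pij_ne _ _ hz2, MvPolynomial.eval_X, if_neg hz, mul_zero]
  · intro h; exact absurd (Finset.mem_univ _) h

end delta

section

variable {L : Type} [Field L] [CharZero L] {m : ℕ} {RW : Type} [CommRing RW]
  [IsDomain RW] [IsIntegrallyClosed RW] [Algebra L RW]
  (ψ : RW →ₐ[L] MvPolynomial (II m) L) (D : RW → RW)
  (hD0 : ∀ a : L, D (algebraMap L RW a) = 0)
  (hDa : ∀ x y, D (x + y) = D x + D y) (hDm : ∀ x y, D (x * y) = x * D y + y * D x)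
  (c : Fin (Fintype.card (II m)) → RW)
  (hc : ∀ j, ψ (c j) = (pe L Finset.univ).coeff j)
  [Algebra (MvPolynomial (Fin (Fintype.card (II m))) L) RW]
  (halg : ∀ p : MvPolynomial (Fin (Fintype.card (II m))) L,
    algebraMap _ RW p = MvPolynomial.aeval c p)
  (hinj : Function.Injective fun p : MvPolynomial (Fin (Fintype.card (II m))) L =>
    ψ (MvPolynomial.aeval c p))
  (hinvl : ∀ (w : RW) (i j : Fin m),
    MvPolynomial.rename (Equiv.swap (Sum.inl i : II m) (Sum.inl j)) (ψ w) = ψ w)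
  (hinvr : ∀ (w : RW) (i j : Fin m),
    MvPolynomial.rename (Equiv.swap (Sum.inr i : II m) (Sum.inr j)) (ψ w) = ψ w)

include hD0 hDa hDm hc halg hinj hinvl hinvr in
/-- **Integral elements are symmetric.** -/
theorem sym (i j i' : Fin m) (hi : i' ≠ i)
    (hF : pij L (Sum.inl i : II m) (Sum.inr j)
      ((FF ψ D c).eval (MvPolynomial.X (Sum.inl i))) ≠ 0) (Z : RW)
    (hZ : IsIntegral (MvPolynomial (Fin (Fintype.card (II m))) L) Z) (σ : Equiv.Perm (II m)) :
    MvPolynomial.rename σ (ψ Z) = ψ Z := by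
  have hm : 0 < m := lt_of_le_of_lt (Nat.zero_le _) i.2
  have hcard : 0 < Fintype.card (II m) := Fintype.card_pos_iff.mpr ⟨Sum.inl i⟩
  have hl : ∀ i j : Fin m, Equiv.swap (Sum.inl i : II m) (Sum.inl j) ∈ St ψ :=
    fun i j w _ => hinvl w i j
  have hr : ∀ i j : Fin m, Equiv.swap (Sum.inr i : II m) (Sum.inr j) ∈ St ψ :=
    fun i j w _ => hinvr w i j
  by_cases hex : ∃ i j : Fin m, Equiv.swap (Sum.inl i : II m) (Sum.inr j) ∈ St ψ
  · obtain ⟨i₁, j₁, h1⟩ := hex
    have h2 := eq_top (St ψ) hl hr h1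
    have h3 : σ ∈ St ψ := by rw [h2]; trivial
    exact h3 Z hZ
  · exfalso
    push Not at hex
    obtain ⟨Y, hY, hψY⟩ := galois ψ c hc halg hinj hcard (dl L m ^ 2) (fun τ hτ => by
      obtain ⟨ε, h1, h2⟩ := sign_of (St ψ) hl hr L hm hex hτ
      exact rename_dl h1 h2)
    let E := FractionRing (MvPolynomial (II m) L)
    have h1 := pair_main (IsScalarTower.toAlgHom L (MvPolynomial (II m) L) E)
      (IsFractionRing.injective _ E) ψ D hD0 hDa hDm c hc halg hinj
      (i := Sum.inl i) (j := Sum.inr j) Sum.inl_ne_inr hF Y hY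
    rw [hψY, MvPolynomial.pderiv_pow, MvPolynomial.pderiv_pow, pderiv_dl, pderiv_dl] at h1
    have h2 : ∀ a : L, pij L (Sum.inl i : II m) (Sum.inr j) (MvPolynomial.C a) = MvPolynomial.C a :=
      fun a => AlgHom.commutes _ _
    have h3 : sg L (Sum.inl i : II m) = 1 := rfl
    have h4 : sg L (Sum.inr j : II m) = -1 := rfl
    rw [h3, h4] at h1
    simp only [map_mul, map_pow, map_natCast, h2] at h1
    rw [MvPolynomial.C_neg, MvPolynomial.C_1] at h1
    apply pij_dl (L := L) i j i' hi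
    have h5 : (4 : MvPolynomial (II m) L) *
        pij L (Sum.inl i : II m) (Sum.inr j) (dl L m) = 0 := by
      have h6 : (2 - 1 : ℕ) = 1 := rfl
      rw [h6, pow_one] at h1
      push_cast at h1
      linear_combination h1
    rcases mul_eq_zero.mp h5 with h6 | h6
    · have h7 : (4 : MvPolynomial (II m) L) = MvPolynomial.C (4 : L) :=
        (map_ofNat (MvPolynomial.C : L →+* MvPolynomial (II m) L) 4).symm
      rw [h7, MvPolynomial.C_eq_zero] at h6
      exact absurd h6 (by norm_num)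
    · exact h6

end

end Pool.Agent.Zk31.EE
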