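import Pool.Agent.Zk31.EE

/-! Closedness over the big field. -/

set_option autoImplicit false
set_option linter.unusedSectionVars false

namespace Pool.Agent.Zk31.EF

open Polynomial IntermediateField Pool.Agent.Zk31.EA Pool.Agent.Zk31.EB Pool.Agent.Zk31.EC
  Pool.Agent.Zk31.ED Pool.Agent.Zk31.EE Pool.Agent.Zk31.CA

open scoped IntermediateField.algebraAdjoinAdjoin

section

variable {L ι : Type} [Field L] [CharZero L] [Fintype ι] [DecidableEq ι]

theorem indep_pe (hcard : 0 < Fintype.card ι) :
    AlgebraicIndependent L (fun j : Fin (Fintype.card ι) => (pe L (Finset.univ : Finset ι)).coeff j) := by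
  obtain ⟨R, _, _, _, _, r, h, hind, hgen, hr, hh⟩ :=
    Pool.Agent.Zk31.CG.exists_perm_field L ι
  let φ : MvPolynomial ι L →ₐ[L] R := MvPolynomial.aeval r
  have hd : (0 : L[X]).natDegree < Fintype.card ι := by rw [natDegree_zero]; exact hcard
  have hfB : fB r h (0 : L[X]) = (pe L Finset.univ).map (φ : MvPolynomial ι L →+* R) := by
    rw [fB, Polynomial.map_zero, mul_zero, add_zero, pe, Polynomial.map_prod]
    refine Finset.prod_congr rfl fun i _ => ?_
    rw [Polynomial.map_sub, map_X, map_C]
    congr 2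
    exact (MvPolynomial.aeval_X r i).symm
  have h1 := (indep_coeff r h (0 : L[X]) hd hind hgen).comp some (Option.some_injective _)
  refine AlgebraicIndependent.of_comp φ ?_
  convert h1 using 1
  funext j
  change φ ((pe L (Finset.univ : Finset ι)).coeff j) = (fB r h (0 : L[X])).coeff j
  rw [hfB, coeff_map]
  rfl

theorem coeff_esymm {k : ℕ} (hk : k ≤ Fintype.card ι) : (pe L (Finset.univ : Finset ι)).coeff k =
    (-1) ^ (Fintype.card ι - k) * MvPolynomial.esymm ι L (Fintype.card ι - k) := by
  have h1 : pe L (Finset.univ : Finset ι) =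
      (((Finset.univ : Finset ι).val.map (MvPolynomial.X : ι → MvPolynomial ι L)).map
        fun t => X - C t).prod := by
    rw [pe, Multiset.map_map]
    rfl
  have h2 : Multiset.card ((Finset.univ : Finset ι).val.map
      (MvPolynomial.X : ι → MvPolynomial ι L)) = Fintype.card ι := by
    rw [Multiset.card_map]
    rfl
  rw [h1, Multiset.prod_X_sub_C_coeff _ (by rw [h2]; exact hk), h2,
    MvPolynomial.esymm_eq_multiset_esymm]

/-- Symmetric polynomials are polynomials in the coefficients. -/
theorem exists_q (z : MvPolynomial ι L) (hz : ∀ σ : Equiv.Perm ι, MvPolynomial.rename σ z = z) :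
    ∃ q : MvPolynomial (Fin (Fintype.card ι)) L,
      MvPolynomial.aeval (fun j : Fin (Fintype.card ι) =>
        (pe L (Finset.univ : Finset ι)).coeff j) q = z := by
  obtain ⟨p, hp⟩ := MvPolynomial.esymmAlgHom_surjective (σ := ι) L (n := Fintype.card ι) le_rfl
    ⟨z, hz⟩
  have hp' : MvPolynomial.aeval (fun i : Fin (Fintype.card ι) =>
      MvPolynomial.esymm ι L (i + 1)) p = z := by
    rw [← MvPolynomial.esymmAlgHom_apply, hp]
  refine ⟨MvPolynomial.aeval (fun i : Fin (Fintype.card ι) =>
    MvPolynomial.C ((-1 : L) ^ ((i : ℕ) + 1)) * MvPolynomial.X (Fin.rev i)) p, ?_⟩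
  rw [← hp', ← AlgHom.comp_apply]
  congr 1
  apply MvPolynomial.algHom_ext
  intro i
  rw [AlgHom.comp_apply, MvPolynomial.aeval_X, MvPolynomial.aeval_X, map_mul, MvPolynomial.aeval_X]
  have h1 : ((Fin.rev i : Fin (Fintype.card ι)) : ℕ) = Fintype.card ι - ((i : ℕ) + 1) :=
    Fin.val_rev i
  rw [h1, coeff_esymm (Nat.sub_le _ _), Nat.sub_sub_self i.2, ← mul_assoc]
  have h2 : MvPolynomial.aeval (fun j : Fin (Fintype.card ι) =>
      (pe L (Finset.univ : Finset ι)).coeff j) (MvPolynomial.C ((-1 : L) ^ ((i : ℕ) + 1))) =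
      (-1 : MvPolynomial ι L) ^ ((i : ℕ) + 1) := by
    rw [MvPolynomial.aeval_C, map_pow, map_neg, map_one]
  rw [h2, ← mul_pow]
  simp

end

/-- A version of `CD.spec`. -/
theorem spec' {L RW W T : Type} [Field L] [CommRing RW] [IsDomain RW] [IsIntegrallyClosed RW]
    [Algebra L RW] [Field W] [Algebra RW W] [IsFractionRing RW W] [Algebra L W]
    [IsScalarTower L RW W] [CommRing T] [Algebra L T] (ψ : RW →ₐ[L] T) {n : ℕ} (c : Fin n → RW)
    (h1 : AlgebraicIndependent L (fun i => ψ (c i)))
    (h2 : ∀ w : RW, (MvPolynomial.aeval c : MvPolynomial (Fin n) L →ₐ[L] RW).toRingHom.IsIntegralElem w →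
      ∃ q : MvPolynomial (Fin n) L, ψ (MvPolynomial.aeval c q) = ψ w) (z : W)
    (hz : IsAlgebraic (adjoin L (Set.range fun i => algebraMap RW W (c i))) z) :
    z ∈ adjoin L (Set.range fun i => algebraMap RW W (c i)) := by
  classical
  let P := MvPolynomial (Fin n) L
  let aRW : P →ₐ[L] RW := MvPolynomial.aeval c
  let aR : P →ₐ[L] T := ψ.comp aRW
  have haR' : aR = MvPolynomial.aeval (fun i => ψ (c i)) := by
    apply MvPolynomial.algHom_ext
    intro i
    simp [aR, aRW]
  have haR : Function.Injective aR := by rw [haR']; exact h1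
  have haRW : Function.Injective aRW := fun x y hxy => haR (congrArg ψ hxy)
  have hinjW : Function.Injective (algebraMap RW W) := IsFractionRing.injective RW W
  let aW : P →ₐ[L] W := (IsScalarTower.toAlgHom L RW W).comp aRW
  have haW' : aW = MvPolynomial.aeval (fun i => algebraMap RW W (c i)) := by
    apply MvPolynomial.algHom_ext
    intro i
    simp [aW, aRW]
  have haW : AlgebraicIndependent L (fun i => algebraMap RW W (c i)) := by
    change Function.Injective (MvPolynomial.aeval (fun i => algebraMap RW W (c i)))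
    rw [← haW']
    exact hinjW.comp haRW
  let _ : Algebra P RW := aRW.toRingHom.toAlgebra
  let _ : Algebra P W := aW.toRingHom.toAlgebra
  have ht1 : IsScalarTower P RW W := IsScalarTower.of_algebraMap_eq fun _ => rfl
  -- the range of `P`
  have hrange : ∀ p : P, algebraMap P W p ∈ adjoin L (Set.range fun i => algebraMap RW W (c i)) := by
    intro p
    apply IntermediateField.algebra_adjoin_le_adjoin
    rw [Algebra.adjoin_range_eq_range_aeval, ← haW']
    exact ⟨p, rfl⟩
  -- `z` is algebraic over `P`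
  have hzP : IsAlgebraic P z := by
    have h3 : IsAlgebraic (Algebra.adjoin L (Set.range fun i => algebraMap RW W (c i))) z :=
      (IsFractionRing.isAlgebraic_iff (Algebra.adjoin L (Set.range fun i => algebraMap RW W (c i)))
        (adjoin L (Set.range fun i => algebraMap RW W (c i))) W).mpr hz
    obtain ⟨p, hp0, hp⟩ := h3
    let e := haW.aevalEquiv
    refine ⟨p.map (e.symm : _ →+* P), ?_, ?_⟩
    · rw [Ne, Polynomial.map_eq_zero_iff e.symm.injective]
      exact hp0
    · rw [aeval_def, eval₂_map]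
      have hcomp : (algebraMap P W).comp (e.symm : _ →+* P) = algebraMap (Algebra.adjoin L
          (Set.range fun i => algebraMap RW W (c i))) W := by
        ext y
        obtain ⟨q, rfl⟩ := e.surjective y
        change aW (e.symm (e q)) = _
        rw [AlgEquiv.symm_apply_apply, haW']
        exact (haW.algebraMap_aevalEquiv q).symm
      rw [hcomp]
      exact hp
  obtain ⟨y, hy0, hy⟩ := hzP.exists_integral_multiple
  have hy1 : IsIntegral RW (y • z) := hy.tower_top
  obtain ⟨w, hw⟩ := IsIntegrallyClosed.isIntegral_iff.1 hy1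
  have hwP : IsIntegral P w := by
    rw [← isIntegral_algebraMap_iff (B := W) hinjW, hw]
    exact hy
  obtain ⟨q, hq⟩ := h2 w hwP
  -- `w` comes from `P`
  have hwq : w = aRW q := by
    by_contra hne
    have h3 : w - aRW q ≠ 0 := sub_ne_zero.mpr hne
    have h4 : IsAlgebraic P (w - aRW q) :=
      (hwP.sub (isIntegral_algebraMap (R := P) (A := RW) (x := q))).isAlgebraic
    have h5 := psi_ne (A := P) (ψ : RW →+* T) haR _ h4 h3
    apply h5
    change ψ (w - aRW q) = 0
    rw [map_sub, ← hq]
    exact sub_self _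
  have h3 : z = algebraMap P W q * (algebraMap P W y)⁻¹ := by
    have hy' : algebraMap P W y ≠ 0 := by
      have h4 : Function.Injective (algebraMap P W) := hinjW.comp haRW
      rw [Ne, map_eq_zero_iff _ h4]
      exact hy0
    rw [eq_mul_inv_iff_mul_eq₀ hy', mul_comm, ← Algebra.smul_def, ← hw, hwq]
    rfl
  rw [h3]
  exact mul_mem (hrange q) (inv_mem (hrange y))

section

variable {L : Type} [Field L] [CharZero L] {m : ℕ} {RW : Type} [CommRing RW]
  [IsDomain RW] [IsIntegrallyClosed RW] [Algebra L RW]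
  (ψ : RW →ₐ[L] MvPolynomial (II m) L) (D : RW → RW)
  (hD0 : ∀ a : L, D (algebraMap L RW a) = 0)
  (hDa : ∀ x y, D (x + y) = D x + D y) (hDm : ∀ x y, D (x * y) = x * D y + y * D x)
  (c : Fin (Fintype.card (II m)) → RW)
  (hc : ∀ j, ψ (c j) = (pe L Finset.univ).coeff j)
  (hinvl : ∀ (w : RW) (i j : Fin m),
    MvPolynomial.rename (Equiv.swap (Sum.inl i : II m) (Sum.inl j)) (ψ w) = ψ w)
  (hinvr : ∀ (w : RW) (i j : Fin m),
    MvPolynomial.rename (Equiv.swap (Sum.inr i : II m) (Sum.inr j)) (ψ w) = ψ w)
  (W : Type) [Field W] [Algebra RW W] [IsFractionRing RW W] [Algebra L W] [IsScalarTower L RW W]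

include hD0 hDa hDm hc hinvl hinvr in
/-- **Closedness.** -/
theorem mainL (i j i' : Fin m) (hi : i' ≠ i)
    (hF : pij L (Sum.inl i : II m) (Sum.inr j)
      ((FF ψ D c).eval (MvPolynomial.X (Sum.inl i))) ≠ 0) :
    AlgebraicIndependent L (fun j => algebraMap RW W (c j)) ∧
    ∀ z : W, IsAlgebraic (adjoin L (Set.range fun j => algebraMap RW W (c j))) z →
      z ∈ adjoin L (Set.range fun j => algebraMap RW W (c j)) := by
  have hcard : 0 < Fintype.card (II m) := Fintype.card_pos_iff.mpr ⟨Sum.inl i⟩
  have h0 : (fun j => ψ (c j)) = fun j : Fin (Fintype.card (II m)) =>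
      (pe L (Finset.univ : Finset (II m))).coeff j := funext hc
  have h1 : AlgebraicIndependent L (fun j => ψ (c j)) := by rw [h0]; exact indep_pe hcard
  have hcomp : ∀ p : MvPolynomial (Fin (Fintype.card (II m))) L,
      ψ (MvPolynomial.aeval c p) = MvPolynomial.aeval (fun j => ψ (c j)) p := by
    intro p
    have h2 : ψ.comp (MvPolynomial.aeval c) = MvPolynomial.aeval (fun j => ψ (c j)) := by
      apply MvPolynomial.algHom_ext
      intro i
      rw [AlgHom.comp_apply, MvPolynomial.aeval_X, MvPolynomial.aeval_X]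
    exact congrArg (fun f : MvPolynomial (Fin (Fintype.card (II m))) L →ₐ[L]
      MvPolynomial (II m) L => f p) h2
  have hinj : Function.Injective fun p : MvPolynomial (Fin (Fintype.card (II m))) L =>
      ψ (MvPolynomial.aeval c p) := by
    intro p q hpq
    have hpq' : ψ (MvPolynomial.aeval c p) = ψ (MvPolynomial.aeval c q) := hpq
    rw [hcomp, hcomp] at hpq'
    exact h1 hpq'
  have h3 : AlgebraicIndependent L c := AlgebraicIndependent.of_comp ψ h1
  refine ⟨h3.map' (f := IsScalarTower.toAlgHom L RW W) (IsFractionRing.injective _ W), ?_⟩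
  intro z hz
  refine spec' (W := W) ψ c h1 ?_ z hz
  intro w hw
  let _ : Algebra (MvPolynomial (Fin (Fintype.card (II m))) L) RW :=
    (MvPolynomial.aeval c : MvPolynomial (Fin (Fintype.card (II m))) L →ₐ[L] RW).toRingHom.toAlgebra
  have h4 := sym ψ D hD0 hDa hDm c hc (fun _ => rfl) hinj hinvl hinvr i j i' hi hF w hw
  obtain ⟨q, hq⟩ := exists_q (ψ w) h4
  refine ⟨q, ?_⟩
  rw [hcomp, h0]
  exact hq

end

end Pool.Agent.Zk31.EF
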