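import Pool.Agent.Zk31.EF

/-! The section: polynomials `s_k` with `s_0² + βγ s_1² + γα s_2² + αβ s_3² = ∏ (X - r_i)`. -/

set_option autoImplicit false
set_option linter.unusedSectionVars false

namespace Pool.Agent.Zk31.EG

open Polynomial Pool.Agent.Zk31.EA Pool.Agent.Zk31.EB Pool.Agent.Zk31.EE

/-- the polynomial ring in the roots -/
abbrev R2 (L : Type) [Field L] (m : ℕ) : Type := MvPolynomial (II m) L

section

variable (L : Type) [Field L] [CharZero L] (m : ℕ)

/-- the first factor -/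
noncomputable def u2 : (R2 L m)[X] := ∏ i : Fin m, (X - C (MvPolynomial.X (Sum.inl i)))

/-- the second factor -/
noncomputable def v2 : (R2 L m)[X] := ∏ i : Fin m, (X - C (MvPolynomial.X (Sum.inr i)))

/-- half the difference -/
noncomputable def Y2 : (R2 L m)[X] := C (MvPolynomial.C (1 / 2 : L)) * (u2 L m - v2 L m)

/-- half the sum -/
noncomputable def S2 : (R2 L m)[X] := C (MvPolynomial.C (1 / 2 : L)) * (u2 L m + v2 L m)

theorem pe_eq : pe L (Finset.univ : Finset (II m)) = u2 L m * v2 L m := by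
  rw [pe, Fintype.prod_sum_type]; rfl

theorem u2_monic : (u2 L m).Monic ∧ (u2 L m).natDegree = m := by
  refine ⟨monic_prod_of_monic _ _ fun i _ => monic_X_sub_C _, ?_⟩
  rw [u2, natDegree_prod_of_monic _ _ fun i _ => monic_X_sub_C _]
  simp

theorem v2_monic : (v2 L m).Monic ∧ (v2 L m).natDegree = m := by
  refine ⟨monic_prod_of_monic _ _ fun i _ => monic_X_sub_C _, ?_⟩
  rw [v2, natDegree_prod_of_monic _ _ fun i _ => monic_X_sub_C _]
  simp

theorem coeff_u2 : (u2 L m).coeff m = 1 := by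
  have h := (u2_monic L m).1.coeff_natDegree
  rwa [(u2_monic L m).2] at h

theorem coeff_v2 : (v2 L m).coeff m = 1 := by
  have h := (v2_monic L m).1.coeff_natDegree
  rwa [(v2_monic L m).2] at h

theorem half_two : (C (MvPolynomial.C (1 / 2 : L)) : (R2 L m)[X]) * 2 = 1 := by
  have h1 : (2 : (R2 L m)[X]) = C (MvPolynomial.C (2 : L)) := by
    rw [map_ofNat, map_ofNat]
  rw [h1, ← C_mul, ← MvPolynomial.C_mul]
  norm_num

theorem sq_sub : S2 L m ^ 2 - Y2 L m ^ 2 = u2 L m * v2 L m := by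
  have h := half_two L m
  rw [S2, Y2]
  have h2 : (C (MvPolynomial.C (1 / 2 : L)) : (R2 L m)[X]) ^ 2 * 4 = 1 := by
    calc (C (MvPolynomial.C (1 / 2 : L)) : (R2 L m)[X]) ^ 2 * 4 =
        (C (MvPolynomial.C (1 / 2 : L)) * 2) ^ 2 := by ring
      _ = 1 := by rw [h, one_pow]
  linear_combination (u2 L m * v2 L m) * h2

theorem Y2_natDegree (hm : 0 < m) : (Y2 L m).natDegree ≤ m - 1 := by
  rw [natDegree_le_iff_coeff_eq_zero]
  intro N hN
  rw [Y2, coeff_C_mul, coeff_sub]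
  rcases Nat.lt_or_ge m N with h | h
  · rw [coeff_eq_zero_of_natDegree_lt (by rw [(u2_monic L m).2]; exact h),
      coeff_eq_zero_of_natDegree_lt (by rw [(v2_monic L m).2]; exact h), sub_zero, mul_zero]
  · have h1 : N = m := by omega
    rw [h1, coeff_u2, coeff_v2, sub_self, mul_zero]

theorem S2_coeff (N : ℕ) (hN : m ≤ N) : (S2 L m).coeff N = if N = m then 1 else 0 := by
  rw [S2, coeff_C_mul, coeff_add]
  rcases Nat.lt_or_ge m N with h | h
  · rw [coeff_eq_zero_of_natDegree_lt (by rw [(u2_monic L m).2]; exact h),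
      coeff_eq_zero_of_natDegree_lt (by rw [(v2_monic L m).2]; exact h), add_zero, mul_zero,
      if_neg (by omega)]
  · have h1 : N = m := by omega
    rw [h1, coeff_u2, coeff_v2, if_pos rfl]
    have h2 : (1 : R2 L m) + 1 = MvPolynomial.C (2 : L) := by rw [map_ofNat]; norm_num
    rw [h2, ← MvPolynomial.C_mul]
    norm_num

variable {L}

/-- polynomials over `L` as polynomials over the polynomial ring -/
noncomputable def jj (p : L[X]) : (R2 L m)[X] := p.map (algebraMap L (R2 L m))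

theorem jj_mul (p q : L[X]) : jj m (p * q) = jj m p * jj m q := Polynomial.map_mul _
theorem jj_add (p q : L[X]) : jj m (p + q) = jj m p + jj m q := Polynomial.map_add _
theorem jj_sub (p q : L[X]) : jj m (p - q) = jj m p - jj m q := Polynomial.map_sub _
theorem jj_neg (p : L[X]) : jj m (-p) = - jj m p := Polynomial.map_neg _
theorem jj_one : jj m (1 : L[X]) = 1 := Polynomial.map_one _
theorem jj_zero : jj m (0 : L[X]) = 0 := Polynomial.map_zero _

theorem algMap_inj : Function.Injective (algebraMap L (R2 L m)) := MvPolynomial.C_injective _ _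

theorem jj_natDegree (p : L[X]) : (jj m p).natDegree = p.natDegree :=
  natDegree_map_eq_of_injective (algMap_inj m) p

theorem jj_ne {p : L[X]} (hp : p ≠ 0) : jj m p ≠ 0 := by
  rwa [jj, Ne, Polynomial.map_eq_zero_iff (algMap_inj m)]

variable (ν₁ n₁ : L[X])

/-- the monic multiple -/
noncomputable def n1' : L[X] := C (n₁.leadingCoeff⁻¹) * n₁

/-- the quotient -/
noncomputable def g2 : (R2 L m)[X] :=
  1 - C (MvPolynomial.C n₁.leadingCoeff⁻¹) * ((Y2 L m * jj m ν₁) /ₘ jj m (n1' n₁))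

/-- a coordinate of the section -/
noncomputable def sk (ν n : L[X]) : (R2 L m)[X] := Y2 L m * jj m ν + g2 m ν₁ n₁ * jj m n

theorem n1'_monic (hn : n₁ ≠ 0) : (n1' n₁).Monic ∧ (n1' n₁).natDegree = n₁.natDegree := by
  have h1 : n₁.leadingCoeff ≠ 0 := leadingCoeff_ne_zero.mpr hn
  refine ⟨?_, ?_⟩
  · rw [n1', Monic, leadingCoeff_mul, leadingCoeff_C, inv_mul_cancel₀ h1]
  · rw [n1', natDegree_C_mul (inv_ne_zero h1)]

theorem s1_eq (hn : n₁ ≠ 0) : sk m ν₁ n₁ ν₁ n₁ =
    (Y2 L m * jj m ν₁) %ₘ jj m (n1' n₁) + jj m n₁ := by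
  have h1 : (jj m (n1' n₁)).Monic := (n1'_monic n₁ hn).1.map _
  rw [modByMonic_eq_sub_mul_div, sk, g2]
  have h2 : jj m (n1' n₁) = C (MvPolynomial.C n₁.leadingCoeff⁻¹) * jj m n₁ := by
    rw [n1', jj_mul]
    congr 1
    rw [jj, map_C]; rfl
  rw [h2]
  ring

theorem s1_natDegree (hn : n₁ ≠ 0) : (sk m ν₁ n₁ ν₁ n₁).natDegree ≤ n₁.natDegree := by
  obtain ⟨h1, h2⟩ := n1'_monic n₁ hn
  rw [s1_eq m ν₁ n₁ hn]
  refine (natDegree_add_le _ _).trans (max_le ?_ (jj_natDegree m n₁).le)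
  have h3 := degree_modByMonic_lt (Y2 L m * jj m ν₁) (h1.map (algebraMap L (R2 L m)))
  have h4 := natDegree_modByMonic_le (Y2 L m * jj m ν₁) (h1.map (algebraMap L (R2 L m)))
  refine h4.trans ?_
  change (jj m (n1' n₁)).natDegree ≤ _
  rw [jj_natDegree, h2]

/-- The degree of the other coordinates. -/
theorem sk_degree (hm : 0 < m) (hn : n₁ ≠ 0) (ν n c : L[X]) (W : ℕ)
    (hid : ν * n₁ - ν₁ * n = c) (hc : c = 0 ∨ 2 * c.natDegree + W ≤ 2 * n₁.natDegree)
    (hnW : 2 * n.natDegree + W < 2 * m) :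
    sk m ν₁ n₁ ν n = 0 ∨ 2 * (sk m ν₁ n₁ ν n).natDegree + W < 2 * m := by
  by_cases h0 : sk m ν₁ n₁ ν n = 0
  · left; exact h0
  right
  have h1 : jj m n₁ * sk m ν₁ n₁ ν n = Y2 L m * jj m c + jj m n * sk m ν₁ n₁ ν₁ n₁ := by
    rw [← hid, jj_sub, jj_mul, jj_mul, sk, sk]; ring
  have h2 : (jj m n₁ * sk m ν₁ n₁ ν n).natDegree = n₁.natDegree + (sk m ν₁ n₁ ν n).natDegree := by
    rw [natDegree_mul (jj_ne m hn) h0, jj_natDegree]
  have h3 : (jj m n * sk m ν₁ n₁ ν₁ n₁).natDegree ≤ n.natDegree + n₁.natDegree := by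
    refine natDegree_mul_le.trans (add_le_add (jj_natDegree m n).le (s1_natDegree m ν₁ n₁ hn))
  rcases hc with hc | hc
  · rw [h1, hc, jj_zero, mul_zero, zero_add] at h2
    omega
  · have h4 : (Y2 L m * jj m c).natDegree ≤ (m - 1) + c.natDegree := by
      refine natDegree_mul_le.trans (add_le_add (Y2_natDegree L m hm) (jj_natDegree m c).le)
    have h5 : (jj m n₁ * sk m ν₁ n₁ ν n).natDegree ≤
        max ((m - 1) + c.natDegree) (n.natDegree + n₁.natDegree) := by
      rw [h1]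
      exact (natDegree_add_le _ _).trans (max_le_max h4 h3)
    rw [h2] at h5
    rcases le_max_iff.mp h5 with h6 | h6 <;> omega

theorem s1_degree (hn : n₁ ≠ 0) (W : ℕ) (hnW : 2 * n₁.natDegree + W < 2 * m) :
    2 * (sk m ν₁ n₁ ν₁ n₁).natDegree + W < 2 * m := by
  have h1 := s1_natDegree m ν₁ n₁ hn
  omega

/-- The norm. -/
theorem norm_sk (al be ga x y z A1 A2 A3 : L[X]) (hiso : al * x ^ 2 + be * y ^ 2 + ga * z ^ 2 = 0)
    (huni : al * x * A1 + be * y * A2 + ga * z * A3 = 1) :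
    S2 L m ^ 2 + jj m (be * ga) * sk m ν₁ n₁ (y * A3 - z * A2) (al * x) ^ 2 +
      jj m (ga * al) * sk m ν₁ n₁ (z * A1 - x * A3) (be * y) ^ 2 +
      jj m (al * be) * sk m ν₁ n₁ (x * A2 - y * A1) (ga * z) ^ 2 = pe L Finset.univ := by
  have h1 := congrArg (jj m) hiso
  have h2 := congrArg (jj m) huni
  simp only [jj_add, jj_mul, jj_one, jj_zero, pow_two] at h1 h2
  rw [pe_eq, ← sq_sub]
  simp only [sk, jj_mul, jj_sub, pow_two]
  set a := jj m al
  set b := jj m be
  set c := jj m ga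
  set x' := jj m x
  set y' := jj m y
  set z' := jj m z
  set P := jj m A1
  set Q := jj m A2
  set T := jj m A3
  set Y := Y2 L m
  set g := g2 m ν₁ n₁
  have h3 : b * c * (y' * T - z' * Q) ^ 2 + c * a * (z' * P - x' * T) ^ 2 +
      a * b * (x' * Q - y' * P) ^ 2 = -1 := by
    have h4 : b * c * (y' * T - z' * Q) ^ 2 + c * a * (z' * P - x' * T) ^ 2 +
        a * b * (x' * Q - y' * P) ^ 2 = (a * (x' * x') + b * (y' * y') + c * (z' * z')) *
        (a * P ^ 2 + b * Q ^ 2 + c * T ^ 2) - (a * x' * P + b * y' * Q + c * z' * T) ^ 2 := by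
      ring
    rw [h4, h1, h2]; ring
  linear_combination Y ^ 2 * h3 + g ^ 2 * (a * b * c) * h1

end

end Pool.Agent.Zk31.EG
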