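import Pool.Agent.Zk31.EG

/-! The generic family. -/

set_option autoImplicit false
set_option linter.unusedSectionVars false
set_option linter.unusedVariables false

namespace Pool.Agent.Zk31.EH

open Polynomial Pool.Agent.Zk31.EA Pool.Agent.Zk31.EB Pool.Agent.Zk31.EE Pool.Agent.Zk31.EG

section mc

variable {A : Type} [CommRing A] (D : A → A) (hD0 : D 0 = 0) (hDa : ∀ x y, D (x + y) = D x + D y)
  (hDm : ∀ x y, D (x * y) = x * D y + y * D x)

/-- the coefficientwise derivative -/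
noncomputable def mc (p : A[X]) : A[X] :=
  ∑ i ∈ Finset.range (p.natDegree + 1), C (D (p.coeff i)) * X ^ i

include hD0 in
theorem mc_coeff (p : A[X]) (j : ℕ) : (mc D p).coeff j = D (p.coeff j) := by
  rw [mc, finsetSum_coeff]
  by_cases hj : j < p.natDegree + 1
  · rw [Finset.sum_eq_single j]
    · simp
    · intro b _ hb
      rw [coeff_C_mul_X_pow, if_neg (Ne.symm hb)]
    · intro h; exact absurd (Finset.mem_range.mpr hj) h
  · rw [coeff_eq_zero_of_natDegree_lt (by omega), hD0]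
    refine Finset.sum_eq_zero fun b hb => ?_
    rw [coeff_C_mul_X_pow, if_neg]
    intro h
    rw [h] at hj
    exact hj (Finset.mem_range.mp hb)

include hD0 hDa in
theorem mc_add (p q : A[X]) : mc D (p + q) = mc D p + mc D q := by
  ext j
  rw [mc_coeff D hD0, coeff_add, coeff_add, hDa, mc_coeff D hD0, mc_coeff D hD0]

include hD0 hDa hDm in
theorem mc_mul (p q : A[X]) : mc D (p * q) = p * mc D q + q * mc D p := by
  ext j
  let Dh : A →+ A := { toFun := D, map_zero' := hD0, map_add' := hDa }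
  have h1 : D ((p * q).coeff j) = ∑ x ∈ Finset.HasAntidiagonal.antidiagonal j, D (p.coeff x.1 * q.coeff x.2) := by
    rw [coeff_mul]
    exact map_sum Dh _ _
  rw [mc_coeff D hD0, h1, mul_comm q, coeff_add, coeff_mul, coeff_mul, ← Finset.sum_add_distrib]
  refine Finset.sum_congr rfl fun x _ => ?_
  rw [hDm, mc_coeff D hD0, mc_coeff D hD0, mul_comm (q.coeff x.2)]

include hD0 hDa hDm in
theorem mc_sq (p : A[X]) : mc D (p ^ 2) = 2 * p * mc D p := by
  rw [pow_two, mc_mul D hD0 hDa hDm]; ring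

theorem mc_zero (hD0 : D 0 = 0) {p : A[X]} (h : ∀ j, D (p.coeff j) = 0) : mc D p = 0 := by
  ext j
  rw [mc_coeff D hD0, h, coeff_zero]

end mc

/-- the variables -/
abbrev V4 (m d₁ d₂ d₃ : ℕ) : Type := Fin m ⊕ (Fin d₁ ⊕ (Fin d₂ ⊕ Fin d₃))

section fam

variable (k : Type) [Field k] (m d₁ d₂ d₃ : ℕ)

/-- a generic polynomial -/
noncomputable def gp {m d₁ d₂ d₃ d : ℕ} (e : Fin d → V4 m d₁ d₂ d₃) :
    (MvPolynomial (V4 m d₁ d₂ d₃) k)[X] :=
  ∑ l : Fin d, C (MvPolynomial.X (e l)) * X ^ (l : ℕ)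

/-- the generic vector -/
noncomputable def X0 : (MvPolynomial (V4 m d₁ d₂ d₃) k)[X] := X ^ m + gp k Sum.inl
/-- the generic vector -/
noncomputable def X1 : (MvPolynomial (V4 m d₁ d₂ d₃) k)[X] := gp k (Sum.inr ∘ Sum.inl)
/-- the generic vector -/
noncomputable def X2 : (MvPolynomial (V4 m d₁ d₂ d₃) k)[X] := gp k (Sum.inr ∘ Sum.inr ∘ Sum.inl)
/-- the generic vector -/
noncomputable def X3 : (MvPolynomial (V4 m d₁ d₂ d₃) k)[X] := gp k (Sum.inr ∘ Sum.inr ∘ Sum.inr)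

variable {k m d₁ d₂ d₃}

/-- polynomials over `k` -/
noncomputable def jk (p : k[X]) : (MvPolynomial (V4 m d₁ d₂ d₃) k)[X] :=
  p.map (algebraMap k (MvPolynomial (V4 m d₁ d₂ d₃) k))

variable (m d₁ d₂ d₃) in
/-- the generic norm -/
noncomputable def ff (al be ga : k[X]) : (MvPolynomial (V4 m d₁ d₂ d₃) k)[X] :=
  X0 k m d₁ d₂ d₃ ^ 2 + jk (be * ga) * X1 k m d₁ d₂ d₃ ^ 2 +
    jk (ga * al) * X2 k m d₁ d₂ d₃ ^ 2 + jk (al * be) * X3 k m d₁ d₂ d₃ ^ 2

theorem gp_coeff {d : ℕ} (e : Fin d → V4 m d₁ d₂ d₃) (j : ℕ) :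
    (gp k e).coeff j = if h : j < d then MvPolynomial.X (e ⟨j, h⟩) else 0 := by
  rw [gp, finsetSum_coeff]
  by_cases h : j < d
  · rw [dif_pos h, Finset.sum_eq_single ⟨j, h⟩]
    · simp
    · intro b _ hb
      rw [coeff_C_mul_X_pow, if_neg]
      intro h2
      exact hb (Fin.ext h2.symm)
    · intro h2; exact absurd (Finset.mem_univ _) h2
  · rw [dif_neg h]
    refine Finset.sum_eq_zero fun b _ => ?_
    rw [coeff_C_mul_X_pow, if_neg]
    intro h2
    apply h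
    rw [h2]
    exact b.2

theorem gp_degree {d : ℕ} (e : Fin d → V4 m d₁ d₂ d₃) :
    (gp k e).degree < ((d : ℕ) : WithBot ℕ) := by
  rw [degree_lt_iff_coeff_zero]
  intro j hj
  rw [gp_coeff, dif_neg (by omega)]

theorem X0_monic : (X0 k m d₁ d₂ d₃).Monic ∧ (X0 k m d₁ d₂ d₃).natDegree = m := by
  have h1 := gp_degree (k := k) (Sum.inl : Fin m → V4 m d₁ d₂ d₃)
  refine ⟨monic_X_pow_add h1, ?_⟩
  rw [X0, natDegree_add_eq_left_of_degree_lt, natDegree_X_pow]
  rw [degree_X_pow]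
  exact h1

theorem term_degree {d : ℕ} (e : Fin d → V4 m d₁ d₂ d₃) (p : k[X])
    (hd : ∀ l, l < d → 2 * l + p.natDegree < 2 * m) (hm : 0 < m) :
    (jk p * gp k e ^ 2 : (MvPolynomial (V4 m d₁ d₂ d₃) k)[X]).degree <
      ((2 * m : ℕ) : WithBot ℕ) := by
  rcases Nat.eq_zero_or_pos d with h0 | h0
  · have h1 : gp k e = 0 := by
      rw [gp]
      subst h0
      simp
    rw [h1]
    simp
    exact WithBot.bot_lt_iff_ne_bot.mpr (by
      rw [show ((2 : WithBot ℕ) * (m : WithBot ℕ)) = ((2 * m : ℕ) : WithBot ℕ) by push_cast; rfl]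
      exact WithBot.coe_ne_bot)
  · refine lt_of_le_of_lt degree_le_natDegree ?_
    have h1 : (jk p * gp k e ^ 2 : (MvPolynomial (V4 m d₁ d₂ d₃) k)[X]).natDegree ≤
        p.natDegree + 2 * (d - 1) := by
      refine natDegree_mul_le.trans (add_le_add natDegree_map_le ?_)
      rw [natDegree_pow]
      refine Nat.mul_le_mul le_rfl ?_
      have h2 := gp_degree (k := k) e
      by_cases h3 : gp k e = 0
      · rw [h3, natDegree_zero]; exact Nat.zero_le _
      · have h4 : (gp k e).natDegree < d := (natDegree_lt_iff_degree_lt h3).mpr h2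
        omega
    have h2 := hd (d - 1) (by omega)
    have h3 : (jk p * gp k e ^ 2 : (MvPolynomial (V4 m d₁ d₂ d₃) k)[X]).natDegree < 2 * m := by
      omega
    exact_mod_cast h3

variable {al be ga : k[X]} (hm : 0 < m) (h1 : ∀ l, l < d₁ → 2 * l + (be * ga).natDegree < 2 * m)
  (h2 : ∀ l, l < d₂ → 2 * l + (ga * al).natDegree < 2 * m)
  (h3 : ∀ l, l < d₃ → 2 * l + (al * be).natDegree < 2 * m)

include hm h1 h2 h3 in
theorem ff_monic : (ff m d₁ d₂ d₃ al be ga).Monic ∧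
    (ff m d₁ d₂ d₃ al be ga).natDegree = 2 * m := by
  obtain ⟨h5, h6⟩ := X0_monic (k := k) (m := m) (d₁ := d₁) (d₂ := d₂) (d₃ := d₃)
  have h7 : (X0 k m d₁ d₂ d₃ ^ 2).Monic := h5.pow 2
  have h8 : (X0 k m d₁ d₂ d₃ ^ 2).natDegree = 2 * m := by rw [h5.natDegree_pow, h6]
  have h9 : (X0 k m d₁ d₂ d₃ ^ 2).degree = ((2 * m : ℕ) : WithBot ℕ) := by
    rw [degree_eq_natDegree h7.ne_zero, h8]
  have h10 : (jk (be * ga) * X1 k m d₁ d₂ d₃ ^ 2 + jk (ga * al) * X2 k m d₁ d₂ d₃ ^ 2 +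
      jk (al * be) * X3 k m d₁ d₂ d₃ ^ 2).degree < (X0 k m d₁ d₂ d₃ ^ 2).degree := by
    rw [h9]
    refine lt_of_le_of_lt (degree_add_le _ _) (max_lt (lt_of_le_of_lt (degree_add_le _ _)
      (max_lt ?_ ?_)) ?_)
    · exact term_degree _ _ h1 hm
    · exact term_degree _ _ h2 hm
    · exact term_degree _ _ h3 hm
  have h11 : ff m d₁ d₂ d₃ al be ga = X0 k m d₁ d₂ d₃ ^ 2 + (jk (be * ga) * X1 k m d₁ d₂ d₃ ^ 2 +
      jk (ga * al) * X2 k m d₁ d₂ d₃ ^ 2 + jk (al * be) * X3 k m d₁ d₂ d₃ ^ 2) := by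
    rw [ff]; ring
  rw [h11]
  exact ⟨h7.add_of_left h10, by rw [natDegree_add_eq_left_of_degree_lt h10, h8]⟩

end fam

end Pool.Agent.Zk31.EH
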