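import Pool.Agent.Zk31.EH

/-! Closedness of the generic family over the big field. -/

set_option autoImplicit false
set_option linter.unusedSectionVars false
set_option linter.unusedVariables false

namespace Pool.Agent.Zk31.EI

open Polynomial IntermediateField Pool.Agent.Zk31.EA Pool.Agent.Zk31.EB Pool.Agent.Zk31.EE
  Pool.Agent.Zk31.EG Pool.Agent.Zk31.EH

section psi

variable {L : Type} [Field L] [CharZero L] {m d₁ d₂ d₃ : ℕ} (s₀ s₁ s₂ s₃ : (R2 L m)[X])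

variable (d₁ d₂ d₃) in
/-- the specialisation -/
noncomputable def psi : MvPolynomial (V4 m d₁ d₂ d₃) L →ₐ[L] R2 L m :=
  MvPolynomial.aeval (Sum.elim (fun l => s₀.coeff l) (Sum.elim (fun l => s₁.coeff l)
    (Sum.elim (fun l => s₂.coeff l) (fun l => s₃.coeff l))))

theorem map_gp {d : ℕ} (e : Fin d → V4 m d₁ d₂ d₃) (s : (R2 L m)[X])
    (he : ∀ l, psi d₁ d₂ d₃ s₀ s₁ s₂ s₃ (MvPolynomial.X (e l)) = s.coeff l)
    (hs : ∀ N, d ≤ N → s.coeff N = 0) :
    (gp L e).map (psi d₁ d₂ d₃ s₀ s₁ s₂ s₃ : MvPolynomial (V4 m d₁ d₂ d₃) L →+* R2 L m) = s := by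
  ext1 j
  rw [coeff_map, gp_coeff]
  by_cases h : j < d
  · rw [dif_pos h]; exact he ⟨j, h⟩
  · rw [dif_neg h, map_zero, hs j (by omega)]

theorem map_X0 (hs : ∀ N, m ≤ N → s₀.coeff N = if N = m then 1 else 0) :
    (X0 L m d₁ d₂ d₃).map (psi d₁ d₂ d₃ s₀ s₁ s₂ s₃ : MvPolynomial (V4 m d₁ d₂ d₃) L →+* R2 L m) = s₀ := by
  ext1 j
  rw [coeff_map, X0, coeff_add, gp_coeff, coeff_X_pow]
  by_cases h : j < m
  · rw [dif_pos h, if_neg (by omega), zero_add]
    exact MvPolynomial.aeval_X _ _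
  · rw [dif_neg h, add_zero, hs j (by omega)]
    split_ifs
    · exact map_one _
    · exact map_zero _

theorem map_X1 (hs : ∀ N, d₁ ≤ N → s₁.coeff N = 0) :
    (X1 L m d₁ d₂ d₃).map (psi d₁ d₂ d₃ s₀ s₁ s₂ s₃ : MvPolynomial (V4 m d₁ d₂ d₃) L →+* R2 L m) = s₁ :=
  map_gp _ _ _ _ _ _ (fun l => MvPolynomial.aeval_X _ _) hs

theorem map_X2 (hs : ∀ N, d₂ ≤ N → s₂.coeff N = 0) :
    (X2 L m d₁ d₂ d₃).map (psi d₁ d₂ d₃ s₀ s₁ s₂ s₃ : MvPolynomial (V4 m d₁ d₂ d₃) L →+* R2 L m) = s₂ :=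
  map_gp _ _ _ _ _ _ (fun l => MvPolynomial.aeval_X _ _) hs

theorem map_X3 (hs : ∀ N, d₃ ≤ N → s₃.coeff N = 0) :
    (X3 L m d₁ d₂ d₃).map (psi d₁ d₂ d₃ s₀ s₁ s₂ s₃ : MvPolynomial (V4 m d₁ d₂ d₃) L →+* R2 L m) = s₃ :=
  map_gp _ _ _ _ _ _ (fun l => MvPolynomial.aeval_X _ _) hs

theorem map_jk (p : L[X]) :
    (jk p).map (psi d₁ d₂ d₃ s₀ s₁ s₂ s₃ : MvPolynomial (V4 m d₁ d₂ d₃) L →+* R2 L m) = jj m p := by
  rw [jk, Polynomial.map_map, jj]
  congr 1
  exact (psi d₁ d₂ d₃ s₀ s₁ s₂ s₃).comp_algebraMap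

theorem map_ff (al be ga : L[X]) (h0 : ∀ N, m ≤ N → s₀.coeff N = if N = m then 1 else 0)
    (h1 : ∀ N, d₁ ≤ N → s₁.coeff N = 0) (h2 : ∀ N, d₂ ≤ N → s₂.coeff N = 0)
    (h3 : ∀ N, d₃ ≤ N → s₃.coeff N = 0) :
    (ff m d₁ d₂ d₃ al be ga).map
      (psi d₁ d₂ d₃ s₀ s₁ s₂ s₃ : MvPolynomial (V4 m d₁ d₂ d₃) L →+* R2 L m) =
    s₀ ^ 2 + jj m (be * ga) * s₁ ^ 2 + jj m (ga * al) * s₂ ^ 2 + jj m (al * be) * s₃ ^ 2 := by
  rw [ff, Polynomial.map_add, Polynomial.map_add, Polynomial.map_add, Polynomial.map_mul,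
    Polynomial.map_mul, Polynomial.map_mul, Polynomial.map_pow, Polynomial.map_pow,
    Polynomial.map_pow, Polynomial.map_pow, map_X0 _ _ _ _ h0, map_X1 _ _ _ _ h1,
    map_X2 _ _ _ _ h2, map_X3 _ _ _ _ h3, map_jk, map_jk, map_jk]

theorem map_der (p : L[X]) (h1 : ∀ N, d₁ ≤ N → s₁.coeff N = 0) :
    (jk p * (2 * X1 L m d₁ d₂ d₃)).map
      (psi d₁ d₂ d₃ s₀ s₁ s₂ s₃ : MvPolynomial (V4 m d₁ d₂ d₃) L →+* R2 L m) =
    jj m p * (2 * s₁) := by
  rw [Polynomial.map_mul, Polynomial.map_mul, map_X1 _ _ _ _ h1, map_jk, Polynomial.map_ofNat]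

/-- Invariance. -/
theorem psi_inv (ρ : R2 L m →ₐ[L] R2 L m) (h0 : s₀.map (ρ : R2 L m →+* R2 L m) = s₀)
    (h1 : s₁.map (ρ : R2 L m →+* R2 L m) = s₁) (h2 : s₂.map (ρ : R2 L m →+* R2 L m) = s₂)
    (h3 : s₃.map (ρ : R2 L m →+* R2 L m) = s₃) (w : MvPolynomial (V4 m d₁ d₂ d₃) L) :
    ρ (psi d₁ d₂ d₃ s₀ s₁ s₂ s₃ w) = psi d₁ d₂ d₃ s₀ s₁ s₂ s₃ w := by
  have hco : ∀ (s : (R2 L m)[X]) (j : ℕ), s.map (ρ : R2 L m →+* R2 L m) = s →
      ρ (s.coeff j) = s.coeff j := by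
    intro s j hs
    conv_rhs => rw [← hs]
    rw [coeff_map]
    rfl
  have h4 : ρ.comp (psi d₁ d₂ d₃ s₀ s₁ s₂ s₃ : MvPolynomial (V4 m d₁ d₂ d₃) L →ₐ[L] R2 L m) =
      psi d₁ d₂ d₃ s₀ s₁ s₂ s₃ := by
    apply MvPolynomial.algHom_ext
    intro v
    rw [AlgHom.comp_apply, psi, MvPolynomial.aeval_X]
    rcases v with l | l | l | l
    · exact hco s₀ l h0
    · exact hco s₁ l h1
    · exact hco s₂ l h2
    · exact hco s₃ l h3
  exact congrArg (fun f : MvPolynomial (V4 m d₁ d₂ d₃) L →ₐ[L] R2 L m => f w) h4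

end psi

section sec

variable {L : Type} [Field L] [CharZero L] (m : ℕ)

theorem map_u (ρ : R2 L m →ₐ[L] R2 L m) {σ : Equiv.Perm (Fin m)}
    (h : ∀ i, ρ (MvPolynomial.X (Sum.inl i)) = MvPolynomial.X (Sum.inl (σ i))) :
    (u2 L m).map (ρ : R2 L m →+* R2 L m) = u2 L m := by
  rw [u2, Polynomial.map_prod, ← Equiv.prod_comp σ
    (fun i : Fin m => (X - C (MvPolynomial.X (Sum.inl i)) : (R2 L m)[X]))]
  refine Finset.prod_congr rfl fun i _ => ?_
  rw [Polynomial.map_sub, map_X, map_C]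
  congr 2
  exact h i

theorem map_v (ρ : R2 L m →ₐ[L] R2 L m) {σ : Equiv.Perm (Fin m)}
    (h : ∀ i, ρ (MvPolynomial.X (Sum.inr i)) = MvPolynomial.X (Sum.inr (σ i))) :
    (v2 L m).map (ρ : R2 L m →+* R2 L m) = v2 L m := by
  rw [v2, Polynomial.map_prod, ← Equiv.prod_comp σ
    (fun i : Fin m => (X - C (MvPolynomial.X (Sum.inr i)) : (R2 L m)[X]))]
  refine Finset.prod_congr rfl fun i _ => ?_
  rw [Polynomial.map_sub, map_X, map_C]
  congr 2
  exact h i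

theorem map_Y (ρ : R2 L m →ₐ[L] R2 L m) (hu : (u2 L m).map (ρ : R2 L m →+* R2 L m) = u2 L m)
    (hv : (v2 L m).map (ρ : R2 L m →+* R2 L m) = v2 L m) :
    (Y2 L m).map (ρ : R2 L m →+* R2 L m) = Y2 L m ∧
    (S2 L m).map (ρ : R2 L m →+* R2 L m) = S2 L m := by
  have h1 : (ρ : R2 L m →+* R2 L m) (MvPolynomial.C (1 / 2 : L)) = MvPolynomial.C (1 / 2 : L) :=
    ρ.commutes _
  constructor
  · rw [Y2, Polynomial.map_mul, Polynomial.map_sub, hu, hv, map_C, h1]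
  · rw [S2, Polynomial.map_mul, Polynomial.map_add, hu, hv, map_C, h1]

theorem map_jj (ρ : R2 L m →ₐ[L] R2 L m) (p : L[X]) :
    (jj m p).map (ρ : R2 L m →+* R2 L m) = jj m p := by
  rw [jj, Polynomial.map_map]
  congr 1
  exact ρ.comp_algebraMap

theorem map_sk (ρ : R2 L m →ₐ[L] R2 L m) (hY : (Y2 L m).map (ρ : R2 L m →+* R2 L m) = Y2 L m)
    (ν₁ n₁ ν n : L[X]) (hn : n₁ ≠ 0) :
    (sk m ν₁ n₁ ν n).map (ρ : R2 L m →+* R2 L m) = sk m ν₁ n₁ ν n := by
  have h1 : (jj m (n1' n₁)).Monic := (n1'_monic n₁ hn).1.map _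
  have h2 : (ρ : R2 L m →+* R2 L m) (MvPolynomial.C (n₁.leadingCoeff⁻¹)) =
    MvPolynomial.C (n₁.leadingCoeff⁻¹) := ρ.commutes _
  have h3 : (g2 m ν₁ n₁).map (ρ : R2 L m →+* R2 L m) = g2 m ν₁ n₁ := by
    rw [g2, Polynomial.map_sub, Polynomial.map_one, Polynomial.map_mul, map_C, h2,
      Polynomial.map_divByMonic _ h1, Polynomial.map_mul, hY, map_jj, map_jj]
  rw [sk, Polynomial.map_add, Polynomial.map_mul, Polynomial.map_mul, hY, h3, map_jj, map_jj]

theorem eval_jj (ρ : R2 L m →ₐ[L] R2 L m) (p : L[X]) (z w : II m)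
    (h : ρ (MvPolynomial.X z) = MvPolynomial.X w) (hp : p ≠ 0) :
    ρ ((jj m p).eval (MvPolynomial.X z)) ≠ 0 := by
  have h1 : (jj m p).eval (MvPolynomial.X z) = aeval (MvPolynomial.X z : R2 L m) p := by
    rw [jj, eval_map_algebraMap]
  rw [h1, ← aeval_algHom_apply, h]
  intro h2
  have h3 : Transcendental L (MvPolynomial.X w : R2 L m) :=
    (MvPolynomial.algebraicIndependent_X (II m) L).transcendental w
  exact h3 ⟨p, hp, h2⟩

/-- the quotient does not vanish -/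
theorem g2_ne (ν₁ n₁ : L[X]) (hn : n₁ ≠ 0) (i j : Fin m) :
    pij L (Sum.inl i : II m) (Sum.inr j) ((g2 m ν₁ n₁).eval (MvPolynomial.X (Sum.inl i))) ≠ 0 := by
  let ε : R2 L m →+* L := MvPolynomial.eval 0
  intro h0
  have h1 := congrArg ε h0
  rw [map_zero] at h1
  have h2 : ∀ p : R2 L m, ε (pij L (Sum.inl i : II m) (Sum.inr j) p) = ε p := by
    intro p
    have h3 : (MvPolynomial.aeval (0 : II m → L)).comp (pij L (Sum.inl i : II m) (Sum.inr j)) =
        (MvPolynomial.aeval (0 : II m → L)) := by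
      apply MvPolynomial.algHom_ext
      intro l
      rw [AlgHom.comp_apply, MvPolynomial.aeval_X]
      by_cases hl : l = Sum.inr j
      · rw [hl, pij_j, MvPolynomial.aeval_X]; rfl
      · rw [pij_ne _ _ hl, MvPolynomial.aeval_X]
    exact congrArg (fun f : R2 L m →ₐ[L] L => f p) h3
  rw [h2] at h1
  have h3 : ε ((g2 m ν₁ n₁).eval (MvPolynomial.X (Sum.inl i))) =
      ((g2 m ν₁ n₁).map ε).eval (ε (MvPolynomial.X (Sum.inl i))) := by
    rw [eval_map]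
    exact hom_eval₂ (g2 m ν₁ n₁) (RingHom.id _) ε _
  have h4 : (jj m (n1' n₁)).Monic := (n1'_monic n₁ hn).1.map _
  have h5 : (Y2 L m).map ε = 0 := by
    have h6 : ∀ z : II m, ε (MvPolynomial.X z) = 0 := fun z => MvPolynomial.eval_X z
    rw [Y2, Polynomial.map_mul, Polynomial.map_sub, u2, v2, Polynomial.map_prod, Polynomial.map_prod]
    simp only [Polynomial.map_sub, map_X, map_C, h6, sub_self, mul_zero]
  have h6 : (g2 m ν₁ n₁).map ε = 1 := by
    rw [g2, Polynomial.map_sub, Polynomial.map_one, Polynomial.map_mul,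
      Polynomial.map_divByMonic _ h4, Polynomial.map_mul, h5, zero_mul, zero_divByMonic, mul_zero,
      sub_zero]
  rw [h3, h6, eval_one] at h1
  exact one_ne_zero h1

theorem eval_Y (i j : Fin m) :
    pij L (Sum.inl i : II m) (Sum.inr j) ((Y2 L m).eval (MvPolynomial.X (Sum.inl i))) = 0 := by
  have h1 : (u2 L m).eval (MvPolynomial.X (Sum.inl i)) = 0 := by
    rw [u2, eval_prod]
    exact Finset.prod_eq_zero (Finset.mem_univ i) (by simp)
  have h2 : pij L (Sum.inl i : II m) (Sum.inr j) ((v2 L m).eval (MvPolynomial.X (Sum.inl i))) = 0 := by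
    rw [v2, eval_prod, map_prod]
    refine Finset.prod_eq_zero (Finset.mem_univ j) ?_
    rw [eval_sub, eval_X, eval_C, map_sub, pij_j, pij_ne _ _ Sum.inl_ne_inr, sub_self]
  rw [Y2, eval_mul, eval_sub, h1, zero_sub, map_mul, map_neg, h2, neg_zero, mul_zero]

end sec

section main

variable {L : Type} [Field L] [CharZero L] {m d₁ d₂ d₃ : ℕ}
  (al be ga x y z A1 A2 A3 : L[X]) (hiso : al * x ^ 2 + be * y ^ 2 + ga * z ^ 2 = 0)
  (huni : al * x * A1 + be * y * A2 + ga * z * A3 = 1) (hal : al ≠ 0) (hbe : be ≠ 0)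
  (hga : ga ≠ 0) (hx : x ≠ 0)
  (hy2 : y = 0 ∨ 2 * y.natDegree + be.natDegree ≤ 2 * x.natDegree + al.natDegree)
  (hz2 : z = 0 ∨ 2 * z.natDegree + ga.natDegree ≤ 2 * x.natDegree + al.natDegree)
  (hm : 2 * (al.natDegree + x.natDegree) + be.natDegree + ga.natDegree < 2 * m) (hm2 : 2 ≤ m)
  (hd₁ : ∀ l, l < d₁ ↔ 2 * l + (be * ga).natDegree < 2 * m)
  (hd₂ : ∀ l, l < d₂ ↔ 2 * l + (ga * al).natDegree < 2 * m)
  (hd₃ : ∀ l, l < d₃ ↔ 2 * l + (al * be).natDegree < 2 * m)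
  (W : Type) [Field W] [Algebra (MvPolynomial (V4 m d₁ d₂ d₃) L) W]
  [IsFractionRing (MvPolynomial (V4 m d₁ d₂ d₃) L) W] [Algebra L W]
  [IsScalarTower L (MvPolynomial (V4 m d₁ d₂ d₃) L) W]

theorem coeff_van {s : (R2 L m)[X]} {d Wt : ℕ} (hd : ∀ l, l < d ↔ 2 * l + Wt < 2 * m)
    (h : s = 0 ∨ 2 * s.natDegree + Wt < 2 * m) (N : ℕ) (hN : d ≤ N) : s.coeff N = 0 := by
  rcases h with h | h
  · rw [h, coeff_zero]
  · apply coeff_eq_zero_of_natDegree_lt
    by_contra h2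
    have h3 : ¬ (2 * N + Wt < 2 * m) := fun h4 => by
      have := (hd N).mpr h4
      omega
    omega

include hiso huni hal hbe hga hx hy2 hz2 hm hm2 hd₁ hd₂ hd₃ in
/-- **The generic family over the big field.** -/
theorem closedL : AlgebraicIndependent L (fun j : Fin (Fintype.card (II m)) =>
      algebraMap (MvPolynomial (V4 m d₁ d₂ d₃) L) W ((ff m d₁ d₂ d₃ al be ga).coeff j)) ∧
    ∀ w : W, IsAlgebraic (adjoin L (Set.range fun j : Fin (Fintype.card (II m)) =>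
      algebraMap (MvPolynomial (V4 m d₁ d₂ d₃) L) W ((ff m d₁ d₂ d₃ al be ga).coeff j))) w →
      w ∈ adjoin L (Set.range fun j : Fin (Fintype.card (II m)) =>
      algebraMap (MvPolynomial (V4 m d₁ d₂ d₃) L) W ((ff m d₁ d₂ d₃ al be ga).coeff j)) := by
  classical
  have hm0 : 0 < m := by omega
  have hn : al * x ≠ 0 := mul_ne_zero hal hx
  have hndeg : (al * x).natDegree = al.natDegree + x.natDegree := natDegree_mul hal hx
  have hW1 : (be * ga).natDegree = be.natDegree + ga.natDegree := natDegree_mul hbe hga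
  have hW2 : (ga * al).natDegree = ga.natDegree + al.natDegree := natDegree_mul hga hal
  have hW3 : (al * be).natDegree = al.natDegree + be.natDegree := natDegree_mul hal hbe
  set ν₁ := y * A3 - z * A2 with hν₁
  let s₁ := sk m ν₁ (al * x) ν₁ (al * x)
  let s₂ := sk m ν₁ (al * x) (z * A1 - x * A3) (be * y)
  let s₃ := sk m ν₁ (al * x) (x * A2 - y * A1) (ga * z)
  have hs₁ : 2 * s₁.natDegree + (be * ga).natDegree < 2 * m :=
    s1_degree m ν₁ (al * x) hn _ (by rw [hndeg, hW1]; omega)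
  have hs₂ : s₂ = 0 ∨ 2 * s₂.natDegree + (ga * al).natDegree < 2 * m := by
    refine sk_degree m ν₁ (al * x) hm0 hn _ _ z _ ?_ ?_ ?_
    · rw [hν₁]; linear_combination z * huni - A3 * hiso
    · rcases hz2 with h | h
      · left; exact h
      · right; rw [hndeg, hW2]; omega
    · rcases hy2 with h | h
      · rw [h, mul_zero, natDegree_zero, hW2]; omega
      · by_cases h0 : y = 0
        · rw [h0, mul_zero, natDegree_zero, hW2]; omega
        · rw [natDegree_mul hbe h0, hW2]; omega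
  have hs₃ : s₃ = 0 ∨ 2 * s₃.natDegree + (al * be).natDegree < 2 * m := by
    refine sk_degree m ν₁ (al * x) hm0 hn _ _ (-y) _ ?_ ?_ ?_
    · rw [hν₁]; linear_combination (-y) * huni + A2 * hiso
    · rcases hy2 with h | h
      · left; rw [h, neg_zero]
      · right; rw [natDegree_neg, hndeg, hW3]; omega
    · rcases hz2 with h | h
      · rw [h, mul_zero, natDegree_zero, hW3]; omega
      · by_cases h0 : z = 0
        · rw [h0, mul_zero, natDegree_zero, hW3]; omega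
        · rw [natDegree_mul hga h0, hW3]; omega
  let s₀ := S2 L m
  let ψ : MvPolynomial (V4 m d₁ d₂ d₃) L →ₐ[L] R2 L m := psi d₁ d₂ d₃ s₀ s₁ s₂ s₃
  have hff : (ff m d₁ d₂ d₃ al be ga).map (ψ : MvPolynomial (V4 m d₁ d₂ d₃) L →+* R2 L m) =
      pe L Finset.univ :=
    (map_ff s₀ s₁ s₂ s₃ al be ga (fun N hN => S2_coeff L m N hN) (coeff_van hd₁ (Or.inr hs₁))
      (coeff_van hd₂ hs₂) (coeff_van hd₃ hs₃)).trans
      (norm_sk m ν₁ (al * x) al be ga x y z A1 A2 A3 hiso huni)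
  have hd1pos : 0 < d₁ := (hd₁ 0).mpr (by rw [hW1]; omega)
  let v₀ : V4 m d₁ d₂ d₃ := Sum.inr (Sum.inl ⟨0, hd1pos⟩)
  let D : MvPolynomial (V4 m d₁ d₂ d₃) L → MvPolynomial (V4 m d₁ d₂ d₃) L :=
    fun p => MvPolynomial.pderiv v₀ p
  have hD0 : ∀ a : L, D (algebraMap L _ a) = 0 := fun a => MvPolynomial.pderiv_C
  have hDz : D 0 = 0 := map_zero _
  have hDa : ∀ x y, D (x + y) = D x + D y := fun x y => map_add _ x y
  have hDm : ∀ x y, D (x * y) = x * D y + y * D x := fun x y => by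
    change MvPolynomial.pderiv v₀ (x * y) = _
    rw [MvPolynomial.pderiv_mul]
    change MvPolynomial.pderiv v₀ x * y + x * MvPolynomial.pderiv v₀ y =
      x * MvPolynomial.pderiv v₀ y + y * MvPolynomial.pderiv v₀ x
    ring
  let c : Fin (Fintype.card (II m)) → MvPolynomial (V4 m d₁ d₂ d₃) L :=
    fun j => (ff m d₁ d₂ d₃ al be ga).coeff j
  have hc : ∀ j, ψ (c j) = (pe L Finset.univ).coeff j := by
    intro j
    rw [← hff, coeff_map]
    rfl
  -- the derivative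
  have hmcgp : ∀ {d : ℕ} (e : Fin d → V4 m d₁ d₂ d₃), (∀ l, e l ≠ v₀) → mc D (gp L e) = 0 := by
    intro d e he
    apply mc_zero D hDz
    intro j
    rw [gp_coeff]
    split_ifs with h
    · exact MvPolynomial.pderiv_X_of_ne (he _)
    · exact hDz
  have hmcX0 : mc D (X0 L m d₁ d₂ d₃) = 0 := by
    rw [X0, mc_add D hDz hDa, hmcgp _ (fun l => Sum.inl_ne_inr), add_zero]
    apply mc_zero D hDz
    intro j
    rw [coeff_X_pow]
    split_ifs
    · exact MvPolynomial.pderiv_one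
    · exact hDz
  have hmcX1 : mc D (X1 L m d₁ d₂ d₃) = 1 := by
    ext1 j
    rw [mc_coeff D hDz, X1, gp_coeff, coeff_one]
    split_ifs with h h5 h5
    · have h6 : (Sum.inr ∘ Sum.inl) (⟨j, h⟩ : Fin d₁) = v₀ := by
        change Sum.inr (Sum.inl _) = Sum.inr (Sum.inl _)
        congr 2
        exact Fin.ext h5
      rw [h6]
      exact MvPolynomial.pderiv_X_self _
    · refine MvPolynomial.pderiv_X_of_ne ?_
      intro h6
      apply h5
      have h7 : (Sum.inr (Sum.inl ⟨j, h⟩) : V4 m d₁ d₂ d₃) = Sum.inr (Sum.inl ⟨0, hd1pos⟩) := h6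
      have h8 := Sum.inl_injective (Sum.inr_injective h7)
      exact congrArg Fin.val h8
    · exact absurd (by rw [h5]; exact hd1pos) h
    · exact hDz
  have hmcX2 : mc D (X2 L m d₁ d₂ d₃) = 0 := hmcgp _ (fun l h => by
    have h7 : (Sum.inr (Sum.inr (Sum.inl l)) : V4 m d₁ d₂ d₃) = Sum.inr (Sum.inl ⟨0, hd1pos⟩) := h
    exact Sum.inr_ne_inl (Sum.inr_injective h7))
  have hmcX3 : mc D (X3 L m d₁ d₂ d₃) = 0 := hmcgp _ (fun l h => by
    have h7 : (Sum.inr (Sum.inr (Sum.inr l)) : V4 m d₁ d₂ d₃) = Sum.inr (Sum.inl ⟨0, hd1pos⟩) := h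
    exact Sum.inr_ne_inl (Sum.inr_injective h7))
  have hmcjk : ∀ p : L[X], mc D (jk p : (MvPolynomial (V4 m d₁ d₂ d₃) L)[X]) = 0 := by
    intro p
    apply mc_zero D hDz
    intro j
    rw [jk, coeff_map]
    exact hD0 _
  have hmcff : mc D (ff m d₁ d₂ d₃ al be ga) = jk (be * ga) * (2 * X1 L m d₁ d₂ d₃) := by
    rw [ff]
    simp only [mc_add D hDz hDa, mc_mul D hDz hDa hDm, mc_sq D hDz hDa hDm, hmcX0, hmcX1, hmcX2,
      hmcX3, hmcjk]
    ring
  obtain ⟨hmon, hdeg⟩ := ff_monic (k := L) (al := al) (be := be) (ga := ga) hm0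
    (fun l hl => (hd₁ l).mp hl) (fun l hl => (hd₂ l).mp hl) (fun l hl => (hd₃ l).mp hl)
  have hcard : Fintype.card (II m) = 2 * m := by
    rw [Fintype.card_sum, Fintype.card_fin]; ring
  have hFF : FF ψ D c = (mc D (ff m d₁ d₂ d₃ al be ga)).map
      (ψ : MvPolynomial (V4 m d₁ d₂ d₃) L →+* R2 L m) := by
    ext1 j
    rw [coeff_map, mc_coeff D hDz]
    by_cases hj : j < Fintype.card (II m)
    · exact FF_coeff ψ D c ⟨j, hj⟩
    · have h5 := FF_degree ψ D c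
      rw [degree_lt_iff_coeff_zero] at h5
      rw [h5 j (by omega)]
      rcases Nat.lt_or_ge (2 * m) j with h6 | h6
      · rw [coeff_eq_zero_of_natDegree_lt (by rw [hdeg]; exact h6), hDz, map_zero]
      · have h7 : j = 2 * m := by omega
        have h8 : (ff m d₁ d₂ d₃ al be ga).coeff (2 * m) = 1 := by
          have h9 := hmon.coeff_natDegree
          rwa [hdeg] at h9
        rw [h7, h8]
        have h9 : D 1 = 0 := MvPolynomial.pderiv_one
        rw [h9, map_zero]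
  let i₀ : Fin m := ⟨0, hm0⟩
  let i₁ : Fin m := ⟨1, by omega⟩
  have hi : i₁ ≠ i₀ := fun h => by simpa [i₀, i₁] using congrArg Fin.val h
  have hρ : pij L (Sum.inl i₀ : II m) (Sum.inr i₀) (MvPolynomial.X (Sum.inl i₀)) =
      MvPolynomial.X (Sum.inl i₀) := pij_ne _ _ Sum.inl_ne_inr
  have hF : pij L (Sum.inl i₀ : II m) (Sum.inr i₀)
      ((FF ψ D c).eval (MvPolynomial.X (Sum.inl i₀))) ≠ 0 := by
    have h5 : (FF ψ D c) = jj m (be * ga) * (2 * s₁) := by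
      rw [hFF, hmcff]
      exact map_der s₀ s₁ s₂ s₃ (be * ga) (coeff_van hd₁ (Or.inr hs₁))
    rw [h5, eval_mul, map_mul, eval_mul, map_mul]
    refine mul_ne_zero (eval_jj m _ _ _ _ hρ (mul_ne_zero hbe hga)) (mul_ne_zero ?_ ?_)
    · have h6 : (2 : (R2 L m)[X]).eval (MvPolynomial.X (Sum.inl i₀)) =
          MvPolynomial.C (2 : L) := by
        rw [eval_ofNat, map_ofNat]
      rw [h6]
      have h7 : pij L (Sum.inl i₀ : II m) (Sum.inr i₀) (MvPolynomial.C (2 : L)) =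
        MvPolynomial.C (2 : L) := AlgHom.commutes _ _
      rw [h7, Ne, MvPolynomial.C_eq_zero]
      norm_num
    · change pij L (Sum.inl i₀ : II m) (Sum.inr i₀)
        ((Y2 L m * jj m ν₁ + g2 m ν₁ (al * x) * jj m (al * x)).eval
          (MvPolynomial.X (Sum.inl i₀))) ≠ 0
      rw [eval_add, eval_mul, eval_mul, map_add, map_mul, map_mul, eval_Y, zero_mul, zero_add]
      exact mul_ne_zero (g2_ne m _ _ hn _ _) (eval_jj m _ _ _ _ hρ hn)
  have hrho : ∀ (ρ : R2 L m →ₐ[L] R2 L m),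
      (u2 L m).map (ρ : R2 L m →+* R2 L m) = u2 L m →
      (v2 L m).map (ρ : R2 L m →+* R2 L m) = v2 L m → ∀ w, ρ (ψ w) = ψ w := by
    intro ρ hu hv w
    obtain ⟨hY, hS⟩ := map_Y m ρ hu hv
    exact psi_inv s₀ s₁ s₂ s₃ ρ hS (map_sk m ρ hY _ _ _ _ hn) (map_sk m ρ hY _ _ _ _ hn)
      (map_sk m ρ hY _ _ _ _ hn) w
  refine Pool.Agent.Zk31.EF.mainL ψ D hD0 hDa hDm c hc ?_ ?_ W i₀ i₀ i₁ hi hF
  · intro w i j
    refine hrho (MvPolynomial.rename _) ?_ ?_ w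
    · refine map_u m _ (σ := Equiv.swap i j) fun l => ?_
      rw [MvPolynomial.rename_X]
      congr 1
      exact (Function.Injective.swap_apply Sum.inl_injective i j l)
    · refine map_v m _ (σ := 1) fun l => ?_
      rw [MvPolynomial.rename_X]
      congr 1
  · intro w i j
    refine hrho (MvPolynomial.rename _) ?_ ?_ w
    · refine map_u m _ (σ := 1) fun l => ?_
      rw [MvPolynomial.rename_X]
      congr 1
    · refine map_v m _ (σ := Equiv.swap i j) fun l => ?_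
      rw [MvPolynomial.rename_X]
      congr 1
      exact (Function.Injective.swap_apply Sum.inr_injective i j l)

end main

end Pool.Agent.Zk31.EI
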