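import Mathlib

/-! Tsen's theorem for conics over `k(t)`, following `Pool.Agent.H928R2.PenTsen`. -/

set_option autoImplicit false

namespace Pool.Agent.Zk31.ET

open Polynomial

variable {k : Type*} [Field k] [IsAlgClosed k] [CharZero k]

theorem conic_poly : ∀ (n : ℕ) (a b : k[X]), a.natDegree + b.natDegree ≤ n →
    ∃ x y z : k[X], (x ≠ 0 ∨ y ≠ 0 ∨ z ≠ 0) ∧ x ^ 2 = a * y ^ 2 + b * z ^ 2 := by
  classical
  intro n
  induction n using Nat.strong_induction_on with
  | _ n ih =>
  -- the case of a constant coefficient
  have hconst : ∀ (a b : k[X]), a.natDegree = 0 →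
      ∃ x y z : k[X], (x ≠ 0 ∨ y ≠ 0 ∨ z ≠ 0) ∧ x ^ 2 = a * y ^ 2 + b * z ^ 2 := by
    intro a b ha
    obtain ⟨e, he⟩ := IsAlgClosed.exists_pow_nat_eq (a.coeff 0) (n := 2) two_pos
    refine ⟨C e, 1, 0, Or.inr (Or.inl one_ne_zero), ?_⟩
    rw [← C_pow, he, ← eq_C_of_natDegree_eq_zero ha]
    ring
  -- the ordered case
  have hmain : ∀ (a b : k[X]), a.natDegree + b.natDegree ≤ n → a.natDegree ≤ b.natDegree →
      ∃ x y z : k[X], (x ≠ 0 ∨ y ≠ 0 ∨ z ≠ 0) ∧ x ^ 2 = a * y ^ 2 + b * z ^ 2 := by
    intro a b hab hle
    by_cases ha0 : a.natDegree = 0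
    · exact hconst a b ha0
    have hb1 : 1 ≤ b.natDegree := by omega
    have hb0 : b ≠ 0 := by
      rintro rfl
      simp at hb1
    by_cases hsq : Squarefree b
    · -- the roots of b
      set S : Finset k := b.roots.toFinset with hS
      have hsplit : b.Splits := IsAlgClosed.splits b
      have hnodup : b.roots.Nodup := by
        have hsep : b.Separable := (PerfectField.separable_iff_squarefree).2 hsq
        exact nodup_roots hsep
      have hcard : S.card = b.natDegree := by
        rw [hS, Multiset.toFinset_card_of_nodup hnodup, ← hsplit.natDegree_eq_card_roots]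
      choose r hr using fun β : k => IsAlgClosed.exists_pow_nat_eq (a.eval β) (n := 2) two_pos
      set s : k[X] := Lagrange.interpolate S id r with hs
      have hinj : Set.InjOn (id : k → k) (S : Set k) := Function.injective_id.injOn
      have hsdeg : s.natDegree < b.natDegree := by
        rw [← hcard]
        have h1 := Lagrange.degree_interpolate_lt r hinj
        have h2 : s.degree < (S.card : WithBot ℕ) := h1
        rw [Polynomial.degree_lt_iff_coeff_zero] at h2
        by_contra hcon
        push Not at hcon
        have h3 := h2 s.natDegree hcon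
        have h4 : s = 0 := leadingCoeff_eq_zero.1 h3
        rw [h4, natDegree_zero] at hcon
        omega
      have hseval : ∀ β ∈ S, s.eval β = r β := by
        intro β hβ
        exact Lagrange.eval_interpolate_at_node r hinj hβ
      by_cases hz : s ^ 2 - a = 0
      · refine ⟨s, 1, 0, Or.inr (Or.inl one_ne_zero), ?_⟩
        linear_combination hz
      have hdvd : b ∣ s ^ 2 - a := by
        rw [IsAlgClosed.dvd_iff_roots_le_roots hb0 hz, Multiset.le_iff_subset hnodup]
        intro β hβ
        rw [mem_roots hz, IsRoot.def, eval_sub, eval_pow, hseval β (Multiset.mem_toFinset.2 hβ), hr]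
        ring
      obtain ⟨b', hb'⟩ := hdvd
      have hb'0 : b' ≠ 0 := by
        rintro rfl
        apply hz
        rw [hb', mul_zero]
      have hdeg : (s ^ 2 - a).natDegree = b.natDegree + b'.natDegree := by
        rw [hb', natDegree_mul hb0 hb'0]
      have hdeg2 : (s ^ 2 - a).natDegree ≤ max (2 * s.natDegree) a.natDegree := by
        refine (natDegree_sub_le _ _).trans ?_
        rw [natDegree_pow]
      have hlt : b'.natDegree < b.natDegree := by
        have h3 : max (2 * s.natDegree) a.natDegree < 2 * b.natDegree := by
          rw [max_lt_iff]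
          constructor <;> omega
        omega
      obtain ⟨x, y, z, hne, hxyz⟩ := ih (a.natDegree + b'.natDegree) (by omega) a b' le_rfl
      refine ⟨s * x + a * y, x + s * y, b' * z, ?_, ?_⟩
      · by_contra hcon
        push Not at hcon
        obtain ⟨h1, h2, h3⟩ := hcon
        have hz0 : z = 0 := by
          rcases mul_eq_zero.1 h3 with h | h
          · exact absurd h hb'0
          · exact h
        have hx0 : x = - (s * y) := by linear_combination h2
        have hy : (s ^ 2 - a) * y = 0 := by
          rw [hx0] at h1
          linear_combination -h1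
        have hy0 : y = 0 := by
          rcases mul_eq_zero.1 hy with h | h
          · exact absurd h hz
          · exact h
        rw [hy0, mul_zero, neg_zero] at hx0
        rcases hne with h | h | h
        · exact h hx0
        · exact h hy0
        · exact h hz0
      · linear_combination (s ^ 2 - a) * hxyz + b' * z ^ 2 * hb'
    · -- not squarefree
      unfold Squarefree at hsq
      push Not at hsq
      obtain ⟨c, ⟨b'', hb''⟩, hc⟩ := hsq
      have hc0 : c ≠ 0 := by
        rintro rfl
        apply hb0
        rw [hb'']; ring
      have hb''0 : b'' ≠ 0 := by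
        rintro rfl
        apply hb0
        rw [hb'', mul_zero]
      have hcdeg : 1 ≤ c.natDegree := by
        by_contra hcon
        have h0 : c.natDegree = 0 := by omega
        apply hc
        rw [eq_C_of_natDegree_eq_zero h0]
        rw [isUnit_C]
        apply isUnit_iff_ne_zero.2
        intro h1
        apply hc0
        rw [eq_C_of_natDegree_eq_zero h0, h1, C_0]
      have hdeg : b.natDegree = c.natDegree + c.natDegree + b''.natDegree := by
        rw [hb'', natDegree_mul (mul_ne_zero hc0 hc0) hb''0, natDegree_mul hc0 hc0]
      obtain ⟨x, y, z, hne, hxyz⟩ := ih (a.natDegree + b''.natDegree) (by omega) a b'' le_rfl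
      refine ⟨c * x, c * y, z, ?_, ?_⟩
      · rcases hne with h | h | h
        · exact Or.inl (mul_ne_zero hc0 h)
        · exact Or.inr (Or.inl (mul_ne_zero hc0 h))
        · exact Or.inr (Or.inr h)
      · rw [hb'']
        linear_combination c ^ 2 * hxyz
  intro a b hab
  rcases le_total a.natDegree b.natDegree with h | h
  · exact hmain a b hab h
  · obtain ⟨x, y, z, hne, hxyz⟩ := hmain b a (by omega) h
    refine ⟨x, z, y, ?_, ?_⟩
    · rcases hne with h | h | h
      · exact Or.inl h
      · exact Or.inr (Or.inr h)
      · exact Or.inr (Or.inl h)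
    · rw [hxyz]; ring


end Pool.Agent.Zk31.ET
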