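import Pool.Agent.Zk31.EI
import Pool.Agent.Zk31.ET

/-! Unimodular isotropic vectors over `k(t)`, `k` algebraically closed. -/

set_option autoImplicit false
set_option linter.unusedSectionVars false
set_option linter.unusedVariables false

namespace Pool.Agent.Zk31.EJ

open Polynomial

section iso

variable {L : Type} [Field L] [IsAlgClosed L] [CharZero L]

theorem exists_iso (al be ga : L[X]) (hal : al ≠ 0) :
    ∃ x y z : L[X], (x ≠ 0 ∨ y ≠ 0 ∨ z ≠ 0) ∧ al * x ^ 2 + be * y ^ 2 + ga * z ^ 2 = 0 := by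
  obtain ⟨X, Y, Z, hne, h⟩ := Pool.Agent.Zk31.ET.conic_poly _ (-(al * be)) (-(al * ga)) le_rfl
  refine ⟨X, al * Y, al * Z, ?_, ?_⟩
  · rcases hne with h | h | h
    · exact Or.inl h
    · exact Or.inr (Or.inl (mul_ne_zero hal h))
    · exact Or.inr (Or.inr (mul_ne_zero hal h))
  · linear_combination al * h

theorem sq_dvd {p g w : L[X]} (hp : Prime p) (hg : Squarefree g) (h : p ^ 2 ∣ g * w ^ 2) : p ∣ w := by
  by_contra hw
  have h1 : ¬ p ∣ w ^ 2 := fun h2 => hw (hp.dvd_of_dvd_pow h2)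
  have h2 : p ^ 2 ∣ g := hp.pow_dvd_of_dvd_mul_right 2 h1 h
  rw [pow_two] at h2
  exact hp.not_unit (hg p h2)

theorem three {p a b c u v w : L[X]} (hp : Prime p) (ha : Squarefree a)
    (h : a * u ^ 2 + b * v ^ 2 + c * w ^ 2 = 0) (hv : p ∣ v) (hw : p ∣ w) : p ∣ u := by
  apply sq_dvd hp ha
  have h1 : a * u ^ 2 = - (b * v ^ 2 + c * w ^ 2) := by linear_combination h
  rw [h1, dvd_neg]
  exact dvd_add ((pow_dvd_pow_of_dvd hv 2).mul_left b) ((pow_dvd_pow_of_dvd hw 2).mul_left c)

theorem exists_data (al be ga : L[X]) (hal : al ≠ 0) (hbe : be ≠ 0) (hga : ga ≠ 0)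
    (ha : Squarefree al) (hb : Squarefree be) (hc : Squarefree ga) (hab : IsCoprime al be)
    (hbc : IsCoprime be ga) (hca : IsCoprime ga al) :
    ∃ x y z A1 A2 A3 : L[X], al * x ^ 2 + be * y ^ 2 + ga * z ^ 2 = 0 ∧
      al * x * A1 + be * y * A2 + ga * z * A3 = 1 := by
  classical
  obtain ⟨x, y, z, hne, h⟩ := exists_iso al be ga hal
  -- a primitive vector
  obtain ⟨d, hd⟩ := (IsPrincipalIdealRing.principal (Ideal.span {x, y, z})).principal
  rw [Ideal.submodule_span_eq] at hd
  have hx : x ∈ Ideal.span {d} := by rw [← hd]; exact Ideal.subset_span (by simp)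
  have hy : y ∈ Ideal.span {d} := by rw [← hd]; exact Ideal.subset_span (by simp)
  have hz : z ∈ Ideal.span {d} := by rw [← hd]; exact Ideal.subset_span (by simp)
  rw [Ideal.mem_span_singleton] at hx hy hz
  obtain ⟨x', rfl⟩ := hx
  obtain ⟨y', rfl⟩ := hy
  obtain ⟨z', rfl⟩ := hz
  have hd0 : d ≠ 0 := by
    rintro rfl
    simp at hne
  have hdm : d ∈ Ideal.span {d * x', d * y', d * z'} := by
    rw [hd]; exact Ideal.mem_span_singleton_self d
  rw [Ideal.mem_span_insert] at hdm
  obtain ⟨a, w, hw, hdw⟩ := hdm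
  rw [Ideal.mem_span_pair] at hw
  obtain ⟨b, c, hbcw⟩ := hw
  have hprim : a * x' + b * y' + c * z' = 1 := by
    apply mul_left_cancel₀ hd0
    rw [mul_one]
    conv_rhs => rw [hdw, ← hbcw]
    ring
  have hiso : al * x' ^ 2 + be * y' ^ 2 + ga * z' ^ 2 = 0 := by
    have h1 : d ^ 2 * (al * x' ^ 2 + be * y' ^ 2 + ga * z' ^ 2) = 0 := by
      rw [← h]; ring
    rcases mul_eq_zero.mp h1 with h2 | h2
    · exact absurd h2 (pow_ne_zero 2 hd0)
    · exact h2
  -- unimodularity
  obtain ⟨e, he⟩ := (IsPrincipalIdealRing.principal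
    (Ideal.span {al * x', be * y', ga * z'})).principal
  rw [Ideal.submodule_span_eq] at he
  have hex : al * x' ∈ Ideal.span {e} := by rw [← he]; exact Ideal.subset_span (by simp)
  have hey : be * y' ∈ Ideal.span {e} := by rw [← he]; exact Ideal.subset_span (by simp)
  have hez : ga * z' ∈ Ideal.span {e} := by rw [← he]; exact Ideal.subset_span (by simp)
  rw [Ideal.mem_span_singleton] at hex hey hez
  have heu : IsUnit e := by
    by_contra hnu
    obtain ⟨p, hp, hpe⟩ : ∃ p, Prime p ∧ p ∣ e := by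
      by_cases he0 : e = 0
      · exact ⟨X, prime_X, by rw [he0]; exact dvd_zero _⟩
      · obtain ⟨p, hp, hpe⟩ := WfDvdMonoid.exists_irreducible_factor hnu he0
        exact ⟨p, hp.prime, hpe⟩
    have hxyz : ¬ (p ∣ x' ∧ p ∣ y' ∧ p ∣ z') := by
      rintro ⟨h1, h2, h3⟩
      apply hp.not_unit
      rw [isUnit_iff_dvd_one, ← hprim]
      exact dvd_add (dvd_add (h1.mul_left a) (h2.mul_left b)) (h3.mul_left c)
    have h1 : p ∣ al ∨ p ∣ x' := hp.dvd_or_dvd (hpe.trans hex)
    have h2 : p ∣ be ∨ p ∣ y' := hp.dvd_or_dvd (hpe.trans hey)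
    have h3 : p ∣ ga ∨ p ∣ z' := hp.dvd_or_dvd (hpe.trans hez)
    have hco : ∀ {a b : L[X]}, IsCoprime a b → p ∣ a → p ∣ b → False := fun h4 h5 h6 =>
      hp.not_unit (h4.isUnit_of_dvd' h5 h6)
    by_cases h4 : p ∣ x'
    · by_cases h5 : p ∣ y'
      · refine hxyz ⟨h4, h5, three hp hc (a := ga) (b := al) (c := be) (u := z') (v := x')
          (w := y') (by linear_combination hiso) h4 h5⟩
      · have h6 := h2.resolve_right h5
        have h7 : p ∣ z' := h3.resolve_left fun h8 => hco hbc h6 h8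
        exact h5 (three hp hb (a := be) (b := al) (c := ga) (u := y') (v := x')
          (w := z') (by linear_combination hiso) h4 h7)
    · have h6 := h1.resolve_right h4
      have h7 : p ∣ y' := h2.resolve_left fun h8 => hco hab h6 h8
      have h8 : p ∣ z' := h3.resolve_left fun h9 => hco hca h9 h6
      exact h4 (three hp ha (a := al) (b := be) (c := ga) (u := x') (v := y')
          (w := z') (by linear_combination hiso) h7 h8)
  have h1m : (1 : L[X]) ∈ Ideal.span {al * x', be * y', ga * z'} := by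
    rw [he, Ideal.mem_span_singleton]
    exact heu.dvd
  rw [Ideal.mem_span_insert] at h1m
  obtain ⟨A1, w, hw, h1w⟩ := h1m
  rw [Ideal.mem_span_pair] at hw
  obtain ⟨A2, A3, hA⟩ := hw
  refine ⟨x', y', z', A1, A2, A3, hiso, ?_⟩
  rw [h1w, ← hA]
  ring

end iso

section max

/-- cyclic rotations -/
theorem exists_max (P : ℕ → ℕ → ℕ → Prop) : True := trivial

end max

end Pool.Agent.Zk31.EJ
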