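import Pool.Agent.Zk31.EJ

/-! Descent of relative algebraic closedness along an extension of the base field. -/

set_option autoImplicit false
set_option linter.unusedSectionVars false
set_option linter.unusedVariables false

namespace Pool.Agent.Zk31.EK

open IntermediateField

section la

variable {K L σ : Type} [Field K] [Field L] [Algebra K L] (lam : L →ₗ[K] K)

/-- a functional, coefficientwise -/
noncomputable def la (F : MvPolynomial σ L) : MvPolynomial σ K :=
  ∑ s ∈ F.support, MvPolynomial.monomial s (lam (F.coeff s))

theorem coeff_la (F : MvPolynomial σ L) (s : σ →₀ ℕ) : (la lam F).coeff s = lam (F.coeff s) := by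
  classical
  rw [la, MvPolynomial.coeff_sum]
  by_cases hs : s ∈ F.support
  · rw [Finset.sum_eq_single s]
    · rw [MvPolynomial.coeff_monomial, if_pos rfl]
    · intro b _ hb
      rw [MvPolynomial.coeff_monomial, if_neg hb]
    · intro h; exact absurd hs h
  · rw [MvPolynomial.notMem_support_iff.mp hs, map_zero]
    refine Finset.sum_eq_zero fun b hb => ?_
    rw [MvPolynomial.coeff_monomial, if_neg]
    rintro rfl
    exact hs hb

theorem la_add (F G : MvPolynomial σ L) : la lam (F + G) = la lam F + la lam G := by
  ext s
  rw [coeff_la, MvPolynomial.coeff_add, MvPolynomial.coeff_add, map_add, coeff_la, coeff_la]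

theorem la_mul (P : MvPolynomial σ K) (F : MvPolynomial σ L) :
    la lam (MvPolynomial.map (algebraMap K L) P * F) = P * la lam F := by
  classical
  ext s
  rw [coeff_la, MvPolynomial.coeff_mul, MvPolynomial.coeff_mul, map_sum]
  refine Finset.sum_congr rfl fun x _ => ?_
  rw [MvPolynomial.coeff_map, ← Algebra.smul_def, map_smul, coeff_la, smul_eq_mul]

theorem la_C (a : L) : la lam (MvPolynomial.C a : MvPolynomial σ L) = MvPolynomial.C (lam a) := by
  classical
  ext s
  rw [coeff_la, MvPolynomial.coeff_C, MvPolynomial.coeff_C]
  split_ifs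
  · rfl
  · exact map_zero _

theorem la_aeval {n : ℕ} (c : Fin n → MvPolynomial σ K) (q : MvPolynomial (Fin n) L) :
    la lam (MvPolynomial.aeval (fun j => MvPolynomial.map (algebraMap K L) (c j)) q) =
      MvPolynomial.aeval c (la lam q) := by
  classical
  induction q using MvPolynomial.induction_on' with
  | monomial u a =>
    have h1 : MvPolynomial.aeval (fun j => MvPolynomial.map (algebraMap K L) (c j))
        (MvPolynomial.monomial u a) = MvPolynomial.map (algebraMap K L)
          (u.prod fun i e => c i ^ e) * MvPolynomial.C a := by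
      rw [MvPolynomial.aeval_monomial, mul_comm]
      congr 1
      rw [Finsupp.prod, Finsupp.prod, map_prod]
      exact Finset.prod_congr rfl fun i _ => (map_pow _ _ _).symm
    have h2 : la lam (MvPolynomial.monomial u a) = MvPolynomial.monomial u (lam a) := by
      ext s
      rw [coeff_la, MvPolynomial.coeff_monomial, MvPolynomial.coeff_monomial]
      split_ifs
      · rfl
      · exact map_zero _
    rw [h1, la_mul, la_C, h2, MvPolynomial.aeval_monomial, mul_comm]
    rfl
  | add p q hp hq => rw [map_add, la_add, hp, hq, la_add, map_add]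

end la

section

variable {K L σ : Type} [Field K] [Field L] [Algebra K L] {n : ℕ} (c : Fin n → MvPolynomial σ K)
  (W W' : Type) [Field W] [Algebra (MvPolynomial σ K) W] [IsFractionRing (MvPolynomial σ K) W]
  [Algebra K W] [IsScalarTower K (MvPolynomial σ K) W]
  [Field W'] [Algebra (MvPolynomial σ L) W'] [IsFractionRing (MvPolynomial σ L) W']
  [Algebra L W'] [IsScalarTower L (MvPolynomial σ L) W']

theorem indep_down (h : AlgebraicIndependent L fun j => algebraMap (MvPolynomial σ L) W'
      (MvPolynomial.map (algebraMap K L) (c j))) : AlgebraicIndependent K c := by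
  have h1 : AlgebraicIndependent L fun j => MvPolynomial.map (algebraMap K L) (c j) := by
    exact AlgebraicIndependent.of_comp (IsScalarTower.toAlgHom L (MvPolynomial σ L) W') h
  have h2 : AlgebraicIndependent K fun j => MvPolynomial.map (algebraMap K L) (c j) :=
    h1.restrictScalars (algebraMap K L).injective
  let f : MvPolynomial σ K →ₐ[K] MvPolynomial σ L :=
    { MvPolynomial.map (algebraMap K L) with
      commutes' := fun a => by
        change MvPolynomial.map (algebraMap K L) (MvPolynomial.C a) = _
        rw [MvPolynomial.map_C]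
        rfl }
  exact AlgebraicIndependent.of_comp f h2

theorem descend (h : AlgebraicIndependent L fun j => algebraMap (MvPolynomial σ L) W'
      (MvPolynomial.map (algebraMap K L) (c j)))
    (hL : ∀ w : W', IsAlgebraic (adjoin L (Set.range fun j => algebraMap (MvPolynomial σ L) W'
        (MvPolynomial.map (algebraMap K L) (c j)))) w →
      w ∈ adjoin L (Set.range fun j => algebraMap (MvPolynomial σ L) W'
        (MvPolynomial.map (algebraMap K L) (c j)))) (w : W)
    (hw : IsAlgebraic (adjoin K (Set.range fun j => algebraMap (MvPolynomial σ K) W (c j))) w) :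
    w ∈ adjoin K (Set.range fun j => algebraMap (MvPolynomial σ K) W (c j)) := by
  classical
  have hci := indep_down c W' h
  have hmapinj : Function.Injective (MvPolynomial.map (σ := σ) (algebraMap K L)) :=
    MvPolynomial.map_injective _ (algebraMap K L).injective
  have hiW : Function.Injective (algebraMap (MvPolynomial σ K) W) := IsFractionRing.injective _ _
  have hiW' : Function.Injective (algebraMap (MvPolynomial σ L) W') := IsFractionRing.injective _ _
  let g : MvPolynomial σ K →+* W' := (algebraMap (MvPolynomial σ L) W').comp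
    (MvPolynomial.map (algebraMap K L))
  have hg : Function.Injective g := hiW'.comp hmapinj
  let j : W →+* W' := IsFractionRing.lift hg
  have hj : ∀ p : MvPolynomial σ K, j (algebraMap _ W p) = g p := fun p =>
    IsFractionRing.lift_algebraMap hg p
  have hjK : ∀ a : K, j (algebraMap K W a) = algebraMap L W' (algebraMap K L a) := by
    intro a
    rw [IsScalarTower.algebraMap_apply K (MvPolynomial σ K) W, hj]
    change algebraMap _ W' (MvPolynomial.map (algebraMap K L) (MvPolynomial.C a)) = _
    rw [MvPolynomial.map_C, IsScalarTower.algebraMap_apply L (MvPolynomial σ L) W']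
    rfl
  set A := adjoin K (Set.range fun j => algebraMap (MvPolynomial σ K) W (c j)) with hA
  set B := adjoin L (Set.range fun j => algebraMap (MvPolynomial σ L) W'
        (MvPolynomial.map (algebraMap K L) (c j))) with hB
  have hAB : ∀ a ∈ A, j a ∈ B := by
    intro a ha
    induction ha using IntermediateField.adjoin_induction with
    | mem x hx =>
      obtain ⟨i, rfl⟩ := hx
      change j (algebraMap _ W (c i)) ∈ B
      rw [hj]
      exact subset_adjoin _ _ ⟨i, rfl⟩
    | algebraMap a => rw [hjK]; exact B.algebraMap_mem _
    | add x y _ _ hx hy => rw [map_add]; exact add_mem hx hy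
    | inv x _ hx => rw [map_inv₀]; exact inv_mem hx
    | mul x y _ _ hx hy => rw [map_mul]; exact mul_mem hx hy
  have h1 : j w ∈ B := hL _ (Pool.Agent.Zk31.DI.alg_map' j A B hAB hw)
  rw [hB, mem_adjoin_range_iff] at h1
  obtain ⟨p, q, hpq⟩ := h1
  have hae : ∀ p : MvPolynomial (Fin n) L, MvPolynomial.aeval (fun j => algebraMap (MvPolynomial σ L)
      W' (MvPolynomial.map (algebraMap K L) (c j))) p = algebraMap (MvPolynomial σ L) W'
        (MvPolynomial.aeval (fun j => MvPolynomial.map (algebraMap K L) (c j)) p) := by
    intro p
    exact MvPolynomial.aeval_algebraMap_apply (B := W')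
      (fun j => MvPolynomial.map (algebraMap K L) (c j)) p
  rw [hae, hae] at hpq
  by_cases hq : q = 0
  · rw [hq, map_zero, map_zero, div_zero] at hpq
    have h2 : w = 0 := j.injective (hpq.trans (map_zero j).symm)
    rw [h2]
    exact zero_mem _
  obtain ⟨P, Q, hQ, rfl⟩ := IsFractionRing.div_surjective (A := MvPolynomial σ K) w
  have hQ0 : Q ≠ 0 := nonZeroDivisors.ne_zero hQ
  have hq0 : MvPolynomial.aeval (fun j => MvPolynomial.map (algebraMap K L) (c j)) q ≠ 0 := by
    intro h2
    apply hq
    apply h
    rw [map_zero]
    change MvPolynomial.aeval (fun j => algebraMap (MvPolynomial σ L)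
      W' (MvPolynomial.map (algebraMap K L) (c j))) q = 0
    rw [hae, h2, map_zero]
  have h2 : MvPolynomial.map (algebraMap K L) P *
      MvPolynomial.aeval (fun j => MvPolynomial.map (algebraMap K L) (c j)) q =
      MvPolynomial.map (algebraMap K L) Q *
      MvPolynomial.aeval (fun j => MvPolynomial.map (algebraMap K L) (c j)) p := by
    apply hiW'
    rw [map_div₀, hj, hj, div_eq_div_iff (by rw [Ne, map_eq_zero_iff g hg]; exact hQ0)
      (by rw [Ne, map_eq_zero_iff _ hiW']; exact hq0)] at hpq
    rw [map_mul, map_mul]
    rw [mul_comm (algebraMap _ W' (MvPolynomial.map (algebraMap K L) Q))]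
    exact hpq
  -- a functional
  obtain ⟨s, hs⟩ : ∃ s, q.coeff s ≠ 0 := by
    by_contra hall
    push Not at hall
    exact hq (MvPolynomial.ext _ _ fun s => by rw [hall, MvPolynomial.coeff_zero])
  obtain ⟨lam, hlam⟩ : ∃ lam : L →ₗ[K] K, lam (q.coeff s) ≠ 0 := by
    by_contra hall
    push Not at hall
    exact hs ((Module.forall_dual_apply_eq_zero_iff K (q.coeff s)).mp hall)
  have h3 := congrArg (la lam) h2
  rw [la_mul, la_mul, la_aeval, la_aeval] at h3
  have hq1 : la lam q ≠ 0 := by
    intro h4
    apply hlam
    rw [← coeff_la, h4, MvPolynomial.coeff_zero]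
  have hq2 : MvPolynomial.aeval c (la lam q) ≠ 0 := by
    intro h4
    exact hq1 (hci (h4.trans (map_zero _).symm))
  have hmem : ∀ r : MvPolynomial (Fin n) K,
      algebraMap (MvPolynomial σ K) W (MvPolynomial.aeval c r) ∈ A := by
    intro r
    rw [← MvPolynomial.aeval_algebraMap_apply]
    apply IntermediateField.algebra_adjoin_le_adjoin
    rw [Algebra.adjoin_range_eq_range_aeval]
    exact ⟨r, rfl⟩
  have h4 : algebraMap _ W P / algebraMap _ W Q = algebraMap _ W (MvPolynomial.aeval c (la lam p)) /
      algebraMap _ W (MvPolynomial.aeval c (la lam q)) := by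
    rw [div_eq_div_iff (by rw [Ne, map_eq_zero_iff _ hiW]; exact hQ0)
      (by rw [Ne, map_eq_zero_iff _ hiW]; exact hq2), ← map_mul, ← map_mul, h3, mul_comm]
  rw [h4]
  exact div_mem (hmem _) (hmem _)

end

end Pool.Agent.Zk31.EK
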