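import Pool.Agent.Zk31.EK

/-! The generic family over the base field. -/

set_option autoImplicit false
set_option linter.unusedSectionVars false
set_option linter.unusedVariables false

namespace Pool.Agent.Zk31.EL

open Polynomial IntermediateField Pool.Agent.Zk31.EE Pool.Agent.Zk31.EG Pool.Agent.Zk31.EH

section

variable (K : Type) [Field K] [CharZero K]

/-- the number of coefficients -/
def dd (m W : ℕ) : ℕ := (2 * m - W + 1) / 2

theorem dd_iff (m W l : ℕ) : l < dd m W ↔ 2 * l + W < 2 * m := by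
  rw [dd]; omega

variable {K}

/-- the variables of the family -/
abbrev VF (m : ℕ) (al be ga : K[X]) : Type :=
  V4 m (dd m (be * ga).natDegree) (dd m (ga * al).natDegree) (dd m (al * be).natDegree)

/-- the generic norm -/
noncomputable def fK (m : ℕ) (al be ga : K[X]) : (MvPolynomial (VF m al be ga) K)[X] :=
  ff m _ _ _ al be ga

/-- the conclusion -/
def Good (m : ℕ) (al be ga : K[X]) : Prop :=
  ∀ n : ℕ, n = 2 * m →
    AlgebraicIndependent K (fun j : Fin n => (fK m al be ga).coeff j) ∧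
    ∀ w : FractionRing (MvPolynomial (VF m al be ga) K),
      IsAlgebraic (adjoin K (Set.range fun j : Fin n => algebraMap _
        (FractionRing (MvPolynomial (VF m al be ga) K)) ((fK m al be ga).coeff j))) w →
      w ∈ adjoin K (Set.range fun j : Fin n => algebraMap _
        (FractionRing (MvPolynomial (VF m al be ga) K)) ((fK m al be ga).coeff j))

theorem map_ff {L : Type} [Field L] [Algebra K L] (m d₁ d₂ d₃ : ℕ) (al be ga : K[X]) :
    (ff m d₁ d₂ d₃ al be ga).map (MvPolynomial.map (algebraMap K L)) =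
      ff m d₁ d₂ d₃ (al.map (algebraMap K L)) (be.map (algebraMap K L))
        (ga.map (algebraMap K L)) := by
  have hgp : ∀ {d : ℕ} (e : Fin d → V4 m d₁ d₂ d₃),
      (gp K e).map (MvPolynomial.map (algebraMap K L)) = gp L e := by
    intro d e
    rw [gp, Polynomial.map_sum, gp]
    refine Finset.sum_congr rfl fun l _ => ?_
    rw [Polynomial.map_mul, map_C, MvPolynomial.map_X, Polynomial.map_pow, map_X]
  have hjk : ∀ p : K[X], (jk p : (MvPolynomial (V4 m d₁ d₂ d₃) K)[X]).map
      (MvPolynomial.map (algebraMap K L)) = jk (p.map (algebraMap K L)) := by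
    intro p
    rw [jk, jk, Polynomial.map_map, Polynomial.map_map]
    congr 1
    ext1 a
    change MvPolynomial.map (algebraMap K L) (MvPolynomial.C a) = _
    rw [MvPolynomial.map_C]
    rfl
  simp only [ff, Polynomial.map_add, Polynomial.map_mul, Polynomial.map_pow, hjk, X0, X1, X2, X3,
    hgp, map_X]

theorem good_of {L : Type} [Field L] [CharZero L] [Algebra K L] (al be ga : K[X])
    (hal : al ≠ 0) (hbe : be ≠ 0) (hga : ga ≠ 0) (x y z A1 A2 A3 : L[X])
    (hiso : al.map (algebraMap K L) * x ^ 2 + be.map (algebraMap K L) * y ^ 2 +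
      ga.map (algebraMap K L) * z ^ 2 = 0)
    (huni : al.map (algebraMap K L) * x * A1 + be.map (algebraMap K L) * y * A2 +
      ga.map (algebraMap K L) * z * A3 = 1) (hx : x ≠ 0)
    (hy2 : y = 0 ∨ 2 * y.natDegree + be.natDegree ≤ 2 * x.natDegree + al.natDegree)
    (hz2 : z = 0 ∨ 2 * z.natDegree + ga.natDegree ≤ 2 * x.natDegree + al.natDegree)
    (m : ℕ) (hm : 2 * (al.natDegree + x.natDegree) + be.natDegree + ga.natDegree < 2 * m)
    (hm2 : 2 ≤ m) : Good m al be ga := by
  have hinj := (algebraMap K L).injective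
  have hcard : Fintype.card (II m) = 2 * m := by
    rw [Fintype.card_sum, Fintype.card_fin]; ring
  let V := VF m al be ga
  let W' := FractionRing (MvPolynomial V L)
  have h1 := Pool.Agent.Zk31.EI.closedL (L := L) (m := m) (d₁ := dd m (be * ga).natDegree)
    (d₂ := dd m (ga * al).natDegree) (d₃ := dd m (al * be).natDegree)
    (al.map (algebraMap K L)) (be.map (algebraMap K L)) (ga.map (algebraMap K L)) x y z A1 A2 A3
    hiso huni ((Polynomial.map_ne_zero_iff hinj).mpr hal) ((Polynomial.map_ne_zero_iff hinj).mpr hbe)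
    ((Polynomial.map_ne_zero_iff hinj).mpr hga) hx
    (by rw [natDegree_map, natDegree_map]; exact hy2)
    (by rw [natDegree_map, natDegree_map]; exact hz2)
    (by rw [natDegree_map, natDegree_map, natDegree_map]; exact hm) hm2
    (fun l => by rw [← Polynomial.map_mul, natDegree_map]; exact dd_iff _ _ _)
    (fun l => by rw [← Polynomial.map_mul, natDegree_map]; exact dd_iff _ _ _)
    (fun l => by rw [← Polynomial.map_mul, natDegree_map]; exact dd_iff _ _ _) W'
  have hco : ∀ j : ℕ, (ff m (dd m (be * ga).natDegree) (dd m (ga * al).natDegree)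
      (dd m (al * be).natDegree) (al.map (algebraMap K L)) (be.map (algebraMap K L))
      (ga.map (algebraMap K L))).coeff j =
      MvPolynomial.map (algebraMap K L) ((fK m al be ga).coeff j) := by
    intro j
    rw [← map_ff, coeff_map]
    rfl
  have hfam : (fun j : Fin (Fintype.card (II m)) => algebraMap (MvPolynomial V L) W'
      ((ff m (dd m (be * ga).natDegree) (dd m (ga * al).natDegree)
      (dd m (al * be).natDegree) (al.map (algebraMap K L)) (be.map (algebraMap K L))
      (ga.map (algebraMap K L))).coeff j)) = fun j : Fin (Fintype.card (II m)) =>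
      algebraMap (MvPolynomial V L) W'
        (MvPolynomial.map (algebraMap K L) ((fK m al be ga).coeff j)) :=
    funext fun j => congrArg (algebraMap (MvPolynomial V L) W') (hco j)
  rw [hfam] at h1
  intro n hn
  have hn' : n = Fintype.card (II m) := hn.trans hcard.symm
  subst hn'
  refine ⟨Pool.Agent.Zk31.EK.indep_down
    (fun j : Fin (Fintype.card (II m)) => (fK m al be ga).coeff j) W' h1.1, ?_⟩
  intro w hw
  exact Pool.Agent.Zk31.EK.descend (fun j : Fin (Fintype.card (II m)) => (fK m al be ga).coeff j)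
    _ W' h1.1 h1.2 w hw

end

/-- **The generic family over the base field.** -/
theorem family (K : Type) [Field K] [CharZero K] (al be ga : K[X]) (hal : al ≠ 0) (hbe : be ≠ 0)
    (hga : ga ≠ 0) (ha : Squarefree al) (hb : Squarefree be) (hc : Squarefree ga)
    (hab : IsCoprime al be) (hbc : IsCoprime be ga) (hca : IsCoprime ga al) :
    ∃ M : ℕ, (∀ m, M ≤ m → Good m al be ga) ∨ (∀ m, M ≤ m → Good m be ga al) ∨
      (∀ m, M ≤ m → Good m ga al be) := by
  let L := AlgebraicClosure K
  have hinj := (algebraMap K L).injective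
  have hsq : ∀ {p : K[X]}, Squarefree p → Squarefree (p.map (algebraMap K L)) := fun h =>
    ((PerfectField.separable_iff_squarefree.mpr h).map).squarefree
  obtain ⟨x, y, z, A1, A2, A3, hiso, huni⟩ := Pool.Agent.Zk31.EJ.exists_data (L := L)
    (al.map (algebraMap K L)) (be.map (algebraMap K L)) (ga.map (algebraMap K L))
    ((Polynomial.map_ne_zero_iff hinj).mpr hal) ((Polynomial.map_ne_zero_iff hinj).mpr hbe)
    ((Polynomial.map_ne_zero_iff hinj).mpr hga) (hsq ha) (hsq hb) (hsq hc)
    (hab.map (mapRingHom (algebraMap K L))) (hbc.map (mapRingHom (algebraMap K L)))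
    (hca.map (mapRingHom (algebraMap K L)))
  have hne : ¬ (x = 0 ∧ y = 0 ∧ z = 0) := by
    rintro ⟨rfl, rfl, rfl⟩
    simp at huni
  classical
  let wx : ℕ := if x = 0 then 0 else 2 * x.natDegree + al.natDegree + 1
  let wy : ℕ := if y = 0 then 0 else 2 * y.natDegree + be.natDegree + 1
  let wz : ℕ := if z = 0 then 0 else 2 * z.natDegree + ga.natDegree + 1
  have hwx : (x = 0 ∧ wx = 0) ∨ (x ≠ 0 ∧ wx = 2 * x.natDegree + al.natDegree + 1) := by
    by_cases h : x = 0
    · left; exact ⟨h, if_pos h⟩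
    · right; exact ⟨h, if_neg h⟩
  have hwy : (y = 0 ∧ wy = 0) ∨ (y ≠ 0 ∧ wy = 2 * y.natDegree + be.natDegree + 1) := by
    by_cases h : y = 0
    · left; exact ⟨h, if_pos h⟩
    · right; exact ⟨h, if_neg h⟩
  have hwz : (z = 0 ∧ wz = 0) ∨ (z ≠ 0 ∧ wz = 2 * z.natDegree + ga.natDegree + 1) := by
    by_cases h : z = 0
    · left; exact ⟨h, if_pos h⟩
    · right; exact ⟨h, if_neg h⟩
  have hpos : 0 < wx ∨ 0 < wy ∨ 0 < wz := by
    rcases hwx with ⟨h1, h1'⟩ | ⟨h1, h1'⟩
    · rcases hwy with ⟨h2, h2'⟩ | ⟨h2, h2'⟩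
      · rcases hwz with ⟨h3, h3'⟩ | ⟨h3, h3'⟩
        · exact absurd ⟨h1, h2, h3⟩ hne
        · omega
      · omega
    · omega
  have hcase : (wy ≤ wx ∧ wz ≤ wx) ∨ (wz ≤ wy ∧ wx ≤ wy) ∨ (wx ≤ wz ∧ wy ≤ wz) := by omega
  refine ⟨2 * (al.natDegree + x.natDegree) + 2 * (be.natDegree + y.natDegree) +
    2 * (ga.natDegree + z.natDegree) + 2, ?_⟩
  rcases hcase with ⟨h1, h2⟩ | ⟨h1, h2⟩ | ⟨h1, h2⟩
  · left
    intro m hm
    refine good_of al be ga hal hbe hga x y z A1 A2 A3 hiso huni ?_ ?_ ?_ m (by omega) (by omega)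
    · rcases hwx with ⟨h3, h4⟩ | ⟨h3, h4⟩
      · omega
      · exact h3
    · rcases hwy with ⟨h3, h4⟩ | ⟨h3, h4⟩
      · left; exact h3
      · right; rcases hwx with ⟨h5, h6⟩ | ⟨h5, h6⟩ <;> omega
    · rcases hwz with ⟨h3, h4⟩ | ⟨h3, h4⟩
      · left; exact h3
      · right; rcases hwx with ⟨h5, h6⟩ | ⟨h5, h6⟩ <;> omega
  · right; left
    intro m hm
    refine good_of be ga al hbe hga hal y z x A2 A3 A1 (by linear_combination hiso)
      (by linear_combination huni) ?_ ?_ ?_ m (by omega) (by omega)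
    · rcases hwy with ⟨h3, h4⟩ | ⟨h3, h4⟩
      · omega
      · exact h3
    · rcases hwz with ⟨h3, h4⟩ | ⟨h3, h4⟩
      · left; exact h3
      · right; rcases hwy with ⟨h5, h6⟩ | ⟨h5, h6⟩ <;> omega
    · rcases hwx with ⟨h3, h4⟩ | ⟨h3, h4⟩
      · left; exact h3
      · right; rcases hwy with ⟨h5, h6⟩ | ⟨h5, h6⟩ <;> omega
  · right; right
    intro m hm
    refine good_of ga al be hga hal hbe z x y A3 A1 A2 (by linear_combination hiso)
      (by linear_combination huni) ?_ ?_ ?_ m (by omega) (by omega)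
    · rcases hwz with ⟨h3, h4⟩ | ⟨h3, h4⟩
      · omega
      · exact h3
    · rcases hwx with ⟨h3, h4⟩ | ⟨h3, h4⟩
      · left; exact h3
      · right; rcases hwz with ⟨h5, h6⟩ | ⟨h5, h6⟩ <;> omega
    · rcases hwy with ⟨h3, h4⟩ | ⟨h3, h4⟩
      · left; exact h3
      · right; rcases hwz with ⟨h5, h6⟩ | ⟨h5, h6⟩ <;> omega

end Pool.Agent.Zk31.EL
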