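import Pool.Agent.Zk31.EL

/-! Irreducibility of generic polynomials. -/

set_option autoImplicit false
set_option linter.unusedSectionVars false
set_option linter.unusedVariables false

namespace Pool.Agent.Zk31.EM

open Polynomial IntermediateField

/-- the generic polynomial -/
noncomputable def Gn (K : Type) [Field K] (n : ℕ) : (MvPolynomial (Fin n) K)[X] :=
  X ^ n + ∑ j : Fin n, C (MvPolynomial.X j) * X ^ (j : ℕ)

section

variable (K : Type) [Field K] (n : ℕ)

theorem tail_degree : (∑ j : Fin n, C (MvPolynomial.X j : MvPolynomial (Fin n) K) *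
    X ^ (j : ℕ)).degree < ((n : ℕ) : WithBot ℕ) := by
  rw [← mem_degreeLT]
  refine Submodule.sum_mem _ fun i _ => ?_
  rw [mem_degreeLT]
  refine lt_of_le_of_lt (degree_C_mul_X_pow_le _ _) ?_
  exact_mod_cast i.2

theorem Gn_monic : (Gn K n).Monic ∧ (Gn K n).natDegree = n := by
  refine ⟨monic_X_pow_add (tail_degree K n), ?_⟩
  rw [Gn, natDegree_add_eq_left_of_degree_lt, natDegree_X_pow]
  rw [degree_X_pow]
  exact tail_degree K n

/-- Eisenstein -/
theorem eis (hn : 0 < n) : Irreducible (X ^ n + C (X : K[X]) : K[X][X]) := by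
  have hdeg : (X ^ n + C (X : K[X]) : K[X][X]).natDegree = n := natDegree_X_pow_add_C
  have hmon : (X ^ n + C (X : K[X]) : K[X][X]).Monic := monic_X_pow_add_C _ hn.ne'
  refine irreducible_of_eisenstein_criterion (P := Ideal.span {(X : K[X])}) ?_ ?_ ?_ ?_ ?_ ?_
  · rw [Ideal.span_singleton_prime X_ne_zero]
    exact prime_X
  · rw [hmon.leadingCoeff, Ideal.mem_span_singleton]
    intro h
    exact prime_X.not_unit (isUnit_of_dvd_one h)
  · intro j hj
    rw [degree_eq_natDegree hmon.ne_zero, hdeg] at hj
    have hj' : j < n := by exact_mod_cast hj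
    rw [coeff_add, coeff_X_pow, if_neg (by omega), zero_add, coeff_C]
    split_ifs
    · exact Ideal.mem_span_singleton_self _
    · exact Ideal.zero_mem _
  · rw [degree_eq_natDegree hmon.ne_zero, hdeg]
    exact_mod_cast hn
  · rw [coeff_add, coeff_X_pow, if_neg (by omega), zero_add, coeff_C, if_pos rfl,
      Ideal.span_singleton_pow, Ideal.mem_span_singleton]
    intro h
    obtain ⟨q, hq⟩ := h
    have h1 : (X : K[X]) * 1 = X * (X * q) := by rw [mul_one]; linear_combination hq
    have h2 := mul_left_cancel₀ X_ne_zero h1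
    exact prime_X.not_unit (IsUnit.of_mul_eq_one q h2.symm)
  · exact hmon.isPrimitive

theorem Gn_irr (hn : 0 < n) : Irreducible (Gn K n) := by
  let φ : MvPolynomial (Fin n) K →ₐ[K] K[X] :=
    MvPolynomial.aeval fun j => if (j : ℕ) = 0 then X else 0
  refine Monic.irreducible_of_irreducible_map (φ : MvPolynomial (Fin n) K →+* K[X]) _
    (Gn_monic K n).1 ?_
  have h1 : (Gn K n).map (φ : MvPolynomial (Fin n) K →+* K[X]) = X ^ n + C (X : K[X]) := by
    rw [Gn, Polynomial.map_add, Polynomial.map_pow, map_X, Polynomial.map_sum]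
    congr 1
    rw [Finset.sum_eq_single ⟨0, hn⟩]
    · rw [Polynomial.map_mul, map_C, Polynomial.map_pow, map_X, pow_zero, mul_one]
      congr 1
      exact (MvPolynomial.aeval_X _ _).trans (if_pos rfl)
    · intro b _ hb
      rw [Polynomial.map_mul, map_C, Polynomial.map_pow, map_X]
      have h2 : (φ : MvPolynomial (Fin n) K →+* K[X]) (MvPolynomial.X b) = 0 :=
        (MvPolynomial.aeval_X _ _).trans (if_neg fun h => hb (Fin.ext h))
      rw [h2, C_0, zero_mul]
    · intro h; exact absurd (Finset.mem_univ _) h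
  rw [h1]
  exact eis K n hn

end

/-- Irreducible polynomials stay irreducible over an extension in which the field is algebraically
closed. -/
theorem irr_up {E F : Type} [Field E] [Field F] [Algebra E F]
    (hcl : ∀ w : F, IsAlgebraic E w → ∃ e : E, algebraMap E F e = w) (g : E[X]) (hg : g.Monic)
    (hirr : Irreducible g) : Irreducible (g.map (algebraMap E F)) := by
  have hgm : (g.map (algebraMap E F)).Monic := hg.map _
  rw [Polynomial.Monic.irreducible_iff_natDegree hgm]
  have hinj := (algebraMap E F).injective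
  refine ⟨?_, ?_⟩
  · intro h
    have h1 : g = 1 := by
      apply Polynomial.map_injective _ hinj
      rw [h, Polynomial.map_one]
    exact hirr.not_isUnit (by rw [h1]; exact isUnit_one)
  · intro a b ha hb hab
    have hlift : ∀ c : F[X], c.Monic → c ∣ g.map (algebraMap E F) → ∃ d : E[X],
        d.map (algebraMap E F) = c := by
      intro c hc hd
      have h1 := integralClosure.mem_lifts_of_monic_of_dvd_map F hg hc hd
      rw [lifts_iff_coeff_lifts] at h1
      have h2 : c ∈ lifts (algebraMap E F) := by
        rw [lifts_iff_coeff_lifts]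
        intro j
        obtain ⟨w, hw⟩ := h1 j
        obtain ⟨e, he⟩ := hcl w (w.2 : IsIntegral E (w : F)).isAlgebraic
        exact ⟨e, he.trans hw⟩
      exact (mem_lifts _).mp h2
    obtain ⟨a', rfl⟩ := hlift a ha ⟨b, hab.symm⟩
    obtain ⟨b', rfl⟩ := hlift b hb ⟨_, by rw [mul_comm]; exact hab.symm⟩
    rw [← Polynomial.map_mul] at hab
    have h1 : a' * b' = g := Polynomial.map_injective _ hinj hab
    rcases hirr.isUnit_or_isUnit h1.symm with h2 | h2
    · left; rw [natDegree_map]; exact natDegree_eq_zero_of_isUnit h2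
    · right; rw [natDegree_map]; exact natDegree_eq_zero_of_isUnit h2

/-- A monic polynomial with algebraically independent coefficients which generate an algebraically
closed subfield is irreducible. -/
theorem irr {K F : Type} [Field K] [Field F] [Algebra K F] {n : ℕ} (hn : 0 < n) (f : F[X])
    (hmon : f.Monic) (hdeg : f.natDegree = n)
    (hci : AlgebraicIndependent K (fun j : Fin n => f.coeff j))
    (hcl : ∀ z : F, IsAlgebraic (adjoin K (Set.range fun j : Fin n => f.coeff j)) z →
      z ∈ adjoin K (Set.range fun j : Fin n => f.coeff j)) : Irreducible f := by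
  let E := FractionRing (MvPolynomial (Fin n) K)
  let A := adjoin K (Set.range fun j : Fin n => f.coeff j)
  let φ : MvPolynomial (Fin n) K →+* F :=
    (MvPolynomial.aeval (fun j : Fin n => f.coeff j) : MvPolynomial (Fin n) K →ₐ[K] F).toRingHom
  have hφ : Function.Injective φ := hci
  let _ : Algebra E F := (IsFractionRing.lift hφ).toAlgebra
  have hEφ : ∀ p : MvPolynomial (Fin n) K, algebraMap E F (algebraMap _ E p) = φ p := fun p =>
    IsFractionRing.lift_algebraMap hφ p
  have hg : ((Gn K n).map (algebraMap (MvPolynomial (Fin n) K) E)).map (algebraMap E F) = f := by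
    rw [Polynomial.map_map, hmon.as_sum, hdeg, Gn, Polynomial.map_add, Polynomial.map_pow, map_X,
      Polynomial.map_sum, Finset.sum_range]
    congr 1
    refine Finset.sum_congr rfl fun j _ => ?_
    rw [Polynomial.map_mul, map_C, Polynomial.map_pow, map_X]
    congr 2
    exact (hEφ _).trans (MvPolynomial.aeval_X _ _)
  have hE : ∀ a ∈ A, ∃ e : E, algebraMap E F e = a := by
    intro a ha
    induction ha using IntermediateField.adjoin_induction with
    | mem x hx =>
      obtain ⟨j, rfl⟩ := hx
      exact ⟨algebraMap _ E (MvPolynomial.X j), (hEφ _).trans (MvPolynomial.aeval_X _ _)⟩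
    | algebraMap c =>
      exact ⟨algebraMap _ E (MvPolynomial.C c), (hEφ _).trans (MvPolynomial.aeval_C _ _)⟩
    | add x y _ _ hx hy =>
      obtain ⟨a, rfl⟩ := hx
      obtain ⟨b, rfl⟩ := hy
      exact ⟨a + b, map_add _ _ _⟩
    | inv x _ hx =>
      obtain ⟨a, rfl⟩ := hx
      exact ⟨a⁻¹, map_inv₀ _ _⟩
    | mul x y _ _ hx hy =>
      obtain ⟨a, rfl⟩ := hx
      obtain ⟨b, rfl⟩ := hy
      exact ⟨a * b, map_mul _ _ _⟩
  have hφA : ∀ p, φ p ∈ A := by
    intro p
    apply IntermediateField.algebra_adjoin_le_adjoin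
    rw [Algebra.adjoin_range_eq_range_aeval]
    exact ⟨p, rfl⟩
  have hEA : ∀ e : E, algebraMap E F e ∈ A := by
    intro e
    obtain ⟨P, Q, hQ, rfl⟩ := IsFractionRing.div_surjective (A := MvPolynomial (Fin n) K) e
    rw [map_div₀, hEφ, hEφ]
    exact div_mem (hφA _) (hφA _)
  have hmonE : ((Gn K n).map (algebraMap (MvPolynomial (Fin n) K) E)).Monic :=
    (Gn_monic K n).1.map _
  rw [← hg]
  refine irr_up ?_ _ hmonE ?_
  · intro w hw
    apply hE
    apply hcl
    obtain ⟨q, hq0, hq⟩ := hw
    let g : E →+* A := (algebraMap E F).codRestrict _ hEA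
    refine ⟨q.map g, ?_, ?_⟩
    · rwa [Ne, Polynomial.map_eq_zero]
    · rw [aeval_def, eval₂_map]
      exact hq
  · exact ((Gn_monic K n).1.irreducible_iff_irreducible_map_fraction_map).mp (Gn_irr K n hn)

end Pool.Agent.Zk31.EM
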