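import Mathlib

/-! Conics and the even Clifford algebra; normalization of conics over polynomial rings. -/

set_option autoImplicit false
set_option linter.unusedSectionVars false
set_option linter.unusedVariables false

namespace Pool.Agent.Zk31.EN

open Polynomial

section fld

variable {F : Type} [Field F]

theorem z1 {α β γ x0 x1 x2 x3 : F} (ha : α ≠ 0) (hb : β ≠ 0) (hc : γ ≠ 0)
    (h : x0 ^ 2 + β * γ * x1 ^ 2 + γ * α * x2 ^ 2 + α * β * x3 ^ 2 = 0)
    (hne : ¬ (x0 = 0 ∧ x1 = 0 ∧ x2 = 0 ∧ x3 = 0)) :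
    ∃ X Y Z : F, ¬ (X = 0 ∧ Y = 0 ∧ Z = 0) ∧ α * X ^ 2 + β * Y ^ 2 + γ * Z ^ 2 = 0 := by
  obtain ⟨y, hy⟩ : ∃ y, x3 = γ * y := ⟨x3 / γ, by field_simp⟩
  subst hy
  -- `x₂² + βγ y²`
  by_cases hQ : x2 ^ 2 + β * γ * y ^ 2 = 0
  · have h1 : x0 ^ 2 + β * γ * x1 ^ 2 = 0 := by linear_combination h - γ * α * hQ
    have key : ∃ w : F, w ^ 2 = - (β * γ) := by
      by_cases hy : y = 0
      · subst hy
        have hx2 : x2 = 0 := by
          have : x2 ^ 2 = 0 := by linear_combination hQ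
          exact pow_eq_zero_iff (two_ne_zero) |>.mp this
        have hx1 : x1 ≠ 0 := by
          intro h2
          subst h2
          have : x0 ^ 2 = 0 := by linear_combination h1
          exact hne ⟨pow_eq_zero_iff (two_ne_zero) |>.mp this, rfl, hx2, by ring⟩
        refine ⟨x0 / x1, ?_⟩
        rw [div_pow, div_eq_iff (pow_ne_zero 2 hx1)]
        linear_combination h1
      · refine ⟨x2 / y, ?_⟩
        rw [div_pow, div_eq_iff (pow_ne_zero 2 hy)]
        linear_combination hQ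
    obtain ⟨w, hw⟩ := key
    refine ⟨0, γ, w, fun h2 => hc h2.2.1, ?_⟩
    linear_combination γ * hw
  · set Q := x2 ^ 2 + β * γ * y ^ 2 with hQdef
    refine ⟨1, (x1 * x2 - x0 * y) / Q, (x0 * x2 + β * γ * x1 * y) / Q / γ,
      fun h2 => one_ne_zero h2.1, ?_⟩
    have h3 : x0 ^ 2 + β * γ * x1 ^ 2 = - (γ * α) * Q := by
      rw [hQdef]; linear_combination h
    have h4 : (x0 * x2 + β * γ * x1 * y) ^ 2 + β * γ * (x1 * x2 - x0 * y) ^ 2 =
        (x0 ^ 2 + β * γ * x1 ^ 2) * Q := by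
      rw [hQdef]; ring
    rw [h3] at h4
    field_simp
    linear_combination h4

theorem z3 (h2 : (2 : F) ≠ 0) {a b x y z : F} (ha : a ≠ 0) (hb : b ≠ 0)
    (h : a * x ^ 2 + b * y ^ 2 = z ^ 2) (hne : ¬ (x = 0 ∧ y = 0 ∧ z = 0)) :
    ∃ X Y : F, a * X ^ 2 + b * Y ^ 2 = 1 := by
  by_cases hz : z = 0
  · subst hz
    have hx : x ≠ 0 := by
      intro h3
      subst h3
      have h4 : b * y ^ 2 = 0 := by linear_combination h
      rcases mul_eq_zero.mp h4 with h5 | h5
      · exact hb h5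
      · exact hne ⟨rfl, pow_eq_zero_iff (two_ne_zero) |>.mp h5, rfl⟩
    have hy : y ≠ 0 := by
      intro h3
      subst h3
      have h4 : a * x ^ 2 = 0 := by linear_combination h
      rcases mul_eq_zero.mp h4 with h5 | h5
      · exact ha h5
      · exact hx (pow_eq_zero_iff (two_ne_zero) |>.mp h5)
    have h5 : b = - (a * (x / y) ^ 2) := by
      field_simp
      linear_combination h
    have hw : x / y ≠ 0 := div_ne_zero hx hy
    refine ⟨(a + 1) / (2 * a), (1 - a) / (2 * a * (x / y)), ?_⟩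
    rw [h5]
    generalize x / y = w at hw
    field_simp
    ring
  · refine ⟨x / z, y / z, ?_⟩
    field_simp
    exact h

end fld

section poly

variable {K : Type} [Field K]

/-- squarefree part -/
theorem sqfree_part : ∀ (N : ℕ) (p : K[X]), p.natDegree ≤ N → p ≠ 0 →
    ∃ s h : K[X], Squarefree s ∧ s ≠ 0 ∧ h ≠ 0 ∧ p = s * h ^ 2 := by
  intro N
  induction N with
  | zero =>
    intro p hp hp0
    refine ⟨p, 1, ?_, hp0, one_ne_zero, by ring⟩
    have h1 : IsUnit p := by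
      rw [Polynomial.isUnit_iff_degree_eq_zero, degree_eq_natDegree hp0]
      simp only [Nat.le_zero] at hp
      rw [hp]; rfl
    exact h1.squarefree
  | succ N ih =>
    intro p hp hp0
    by_cases hsq : Squarefree p
    · exact ⟨p, 1, hsq, hp0, one_ne_zero, by ring⟩
    · rw [Squarefree] at hsq
      push Not at hsq
      obtain ⟨x, hx, hxu⟩ := hsq
      obtain ⟨q, hq⟩ := hx
      have hx0 : x ≠ 0 := by
        intro h; rw [h] at hq; simp at hq; exact hp0 hq
      have hq0 : q ≠ 0 := by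
        intro h; rw [h, mul_zero] at hq; exact hp0 hq
      have hxd : 0 < x.natDegree := by
        rw [Nat.pos_iff_ne_zero]
        intro h
        apply hxu
        rw [Polynomial.isUnit_iff_degree_eq_zero, degree_eq_natDegree hx0, h]; rfl
      have hdeg : p.natDegree = x.natDegree + x.natDegree + q.natDegree := by
        rw [hq, natDegree_mul (mul_ne_zero hx0 hx0) hq0, natDegree_mul hx0 hx0]
      obtain ⟨s, h, hs, hs0, hh0, hqs⟩ := ih q (by omega) hq0
      refine ⟨s, x * h, hs, hs0, mul_ne_zero hx0 hh0, ?_⟩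
      rw [hq, hqs]; ring

/-- normalization of a conic -/
theorem norm_data (a b : K[X]) (ha : a ≠ 0) (hb : b ≠ 0) :
    ∃ al be ga h0 h1 : K[X], al ≠ 0 ∧ be ≠ 0 ∧ ga ≠ 0 ∧ Squarefree al ∧ Squarefree be ∧
      Squarefree ga ∧ IsCoprime al be ∧ IsCoprime be ga ∧ IsCoprime ga al ∧ h0 ≠ 0 ∧ h1 ≠ 0 ∧
      a = - (ga * al * h0 ^ 2) ∧ b = - (ga * be * h1 ^ 2) := by
  classical
  obtain ⟨s, h0, hs, hs0, hh0, has⟩ := sqfree_part a.natDegree a le_rfl ha
  obtain ⟨r, h1, hr, hr0, hh1, hbr⟩ := sqfree_part b.natDegree b le_rfl hb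
  let g := EuclideanDomain.gcd s r
  have hg0 : g ≠ 0 := by
    intro h
    have := EuclideanDomain.gcd_eq_zero_iff.mp h
    exact hs0 this.1
  obtain ⟨al, hal⟩ := EuclideanDomain.gcd_dvd_left s r
  obtain ⟨be, hbe⟩ := EuclideanDomain.gcd_dvd_right s r
  change s = g * al at hal
  change r = g * be at hbe
  have hal0 : al ≠ 0 := by intro h; rw [h, mul_zero] at hal; exact hs0 hal
  have hbe0 : be ≠ 0 := by intro h; rw [h, mul_zero] at hbe; exact hr0 hbe
  have hco : IsCoprime al be := by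
    have h2 := EuclideanDomain.gcd_eq_gcd_ab s r
    change g = _ at h2
    refine ⟨EuclideanDomain.gcdA s r, EuclideanDomain.gcdB s r, ?_⟩
    apply mul_left_cancel₀ hg0
    rw [hal, hbe] at h2
    rw [hal, hbe]
    linear_combination -h2
  have hsq1 : Squarefree (g * al) := hal ▸ hs
  have hsq2 : Squarefree (g * be) := hbe ▸ hr
  rw [squarefree_mul_iff] at hsq1 hsq2
  refine ⟨al, be, -g, h0, h1, hal0, hbe0, neg_ne_zero.mpr hg0, hsq1.2.2, hsq2.2.2, ?_, hco,
    ?_, ?_, hh0, hh1, ?_, ?_⟩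
  · exact (Associated.neg_left (Associated.refl g)).symm.squarefree_iff.mp hsq1.2.1
  · exact (hsq2.1.isCoprime.neg_left).symm
  · exact hsq1.1.isCoprime.neg_left
  · rw [has, hal]; ring
  · rw [hbr, hbe]; ring

/-- from the normalized conic to the given conic -/
theorem back {F : Type} [Field F] (h2 : (2 : F) ≠ 0) (φ : K[X] →+* F)
    (hφ : Function.Injective φ) {a b al be ga h0 h1 : K[X]} (ha : a ≠ 0) (hb : b ≠ 0)
    (hga : ga ≠ 0) (hh0 : h0 ≠ 0) (hh1 : h1 ≠ 0) (ha' : a = - (ga * al * h0 ^ 2))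
    (hb' : b = - (ga * be * h1 ^ 2)) {X Y Z : F} (hne : ¬ (X = 0 ∧ Y = 0 ∧ Z = 0))
    (h : φ al * X ^ 2 + φ be * Y ^ 2 + φ ga * Z ^ 2 = 0) :
    ∃ X' Y' : F, φ a * X' ^ 2 + φ b * Y' ^ 2 = 1 := by
  have e : ∀ {p : K[X]}, p ≠ 0 → φ p ≠ 0 := fun hp => (map_ne_zero_iff φ hφ).mpr hp
  have g0 := e hh0
  have g1 := e hh1
  have gg := e hga
  refine z3 h2 (x := X / φ h0) (y := Y / φ h1) (z := φ ga * Z) (e ha) (e hb) ?_ ?_
  · rw [ha', hb']
    simp only [map_neg, map_mul, map_pow]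
    field_simp
    linear_combination - h
  · rintro ⟨h3, h4, h5⟩
    apply hne
    refine ⟨?_, ?_, ?_⟩
    · rcases div_eq_zero_iff.mp h3 with h6 | h6
      · exact h6
      · exact absurd h6 g0
    · rcases div_eq_zero_iff.mp h4 with h6 | h6
      · exact h6
      · exact absurd h6 g1
    · rcases mul_eq_zero.mp h5 with h6 | h6
      · exact absurd h6 gg
      · exact h6

end poly

end Pool.Agent.Zk31.EN
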