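import Pool.Agent.Zk31.EM
import Pool.Agent.Zk31.EN
import Pool.Agent.Zk31.DM

/-! The generic polynomial of even degree over which the conic has a point. -/

set_option autoImplicit false
set_option linter.unusedSectionVars false
set_option linter.unusedVariables false

namespace Pool.Agent.Zk31.EO

open Polynomial IntermediateField Pool.Agent.Zk31.EH Pool.Agent.Zk31.EL Pool.Agent.Zk31.EM
  Pool.Agent.Zk31.EN Pool.Agent.TH178.HI

theorem pure_top (K V : Type) [Field K] [Finite V] :
    Pure (⊤ : IntermediateField K (FractionRing (MvPolynomial V K))) := by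
  let R := MvPolynomial V K
  let F := FractionRing R
  refine ⟨V, inferInstance, fun v => algebraMap R F (MvPolynomial.X v), ?_, ?_⟩
  · exact (MvPolynomial.algebraicIndependent_X V K).map'
      (f := IsScalarTower.toAlgHom K R F) (IsFractionRing.injective R F)
  · rw [eq_top_iff]
    intro y _
    have hmem : ∀ a : R, algebraMap R F a ∈
        adjoin K (Set.range fun v => algebraMap R F (MvPolynomial.X v)) := by
      intro a
      induction a using MvPolynomial.induction_on with
      | C c => exact IntermediateField.algebraMap_mem _ c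
      | add p q hp hq => rw [map_add]; exact add_mem hp hq
      | mul_X p g hp =>
        rw [map_mul]
        exact mul_mem hp (subset_adjoin _ _ ⟨g, rfl⟩)
    obtain ⟨a, d, -, rfl⟩ := IsFractionRing.div_surjective (A := R) (K := F) y
    exact IntermediateField.div_mem _ (hmem a) (hmem d)

theorem inj_root {K F : Type} [Field K] [Field F] [Algebra K F] {n : ℕ} (hn : 0 < n) (f : F[X])
    (hmon : f.Monic) (hci : AlgebraicIndependent K (fun j : Fin n => f.coeff j)) (p : K[X])
    (hp : p ≠ 0) : ¬ f ∣ p.map (algebraMap K F) := by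
  intro hd
  have hq : (p * C p.leadingCoeff⁻¹).Monic := monic_mul_leadingCoeff_inv hp
  have hd' : f ∣ (p * C p.leadingCoeff⁻¹).map (algebraMap K F) := by
    rw [Polynomial.map_mul]; exact hd.mul_right _
  have h1 := integralClosure.mem_lifts_of_monic_of_dvd_map F hq hmon hd'
  rw [lifts_iff_coeff_lifts] at h1
  obtain ⟨w, hw⟩ := h1 0
  have h2 := hci.transcendental ⟨0, hn⟩
  apply h2
  change IsAlgebraic K (f.coeff 0)
  rw [← hw]
  exact (w.2 : IsIntegral K (w : F)).isAlgebraic

theorem ml1 {K : Type} [Field K] [CharZero K] (a b al be ga : K[X]) (m : ℕ) (hm : 0 < m)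
    (hgood : Good m al be ga)
    (H : ∀ (F : Type) [Field F] [CharZero F] (φ : K[X] →+* F), Function.Injective φ →
      ∀ x0 x1 x2 x3 : F, x0 ≠ 0 → x0 ^ 2 + φ (be * ga) * x1 ^ 2 + φ (ga * al) * x2 ^ 2 +
        φ (al * be) * x3 ^ 2 = 0 → ∃ X' Y' : F, φ a * X' ^ 2 + φ b * Y' ^ 2 = 1)
    (n : ℕ) (hn : n = 2 * m) :
    ∃ (Cf : Type) (_ : Field Cf) (_ : Algebra K Cf) (f X₀ Y₀ : Cf[X]),
      Pure (⊤ : IntermediateField K Cf) ∧ f.Monic ∧ f.natDegree = n ∧
      AlgebraicIndependent K (fun j : Fin n => f.coeff j) ∧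
      (∀ z : Cf, IsAlgebraic (adjoin K (Set.range fun j : Fin n => f.coeff j)) z →
        z ∈ adjoin K (Set.range fun j : Fin n => f.coeff j)) ∧
      f ∣ a.map (algebraMap K Cf) * X₀ ^ 2 + b.map (algebraMap K Cf) * Y₀ ^ 2 - 1 := by
  let R := MvPolynomial (VF m al be ga) K
  let Cf := FractionRing R
  let g : R →+* Cf := algebraMap R Cf
  let f : Cf[X] := (fK m al be ga).map g
  have hff := ff_monic (k := K) (m := m) (al := al) (be := be) (ga := ga) hm
    (fun l => (dd_iff m (be * ga).natDegree l).mp) (fun l => (dd_iff m (ga * al).natDegree l).mp)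
    (fun l => (dd_iff m (al * be).natDegree l).mp)
  have hmon : f.Monic := hff.1.map g
  have hdeg : f.natDegree = n := by
    rw [hn, ← hff.2]; exact hff.1.natDegree_map g
  obtain ⟨hg1, hg2⟩ := hgood n hn
  have hco : (fun j : Fin n => f.coeff j) = fun j : Fin n => algebraMap R Cf
      ((fK m al be ga).coeff j) := funext fun j => coeff_map g j
  have hci : AlgebraicIndependent K (fun j : Fin n => f.coeff j) := by
    rw [hco]
    exact hg1.map' (f := IsScalarTower.toAlgHom K R Cf) (IsFractionRing.injective R Cf)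
  have hcl : ∀ z : Cf, IsAlgebraic (adjoin K (Set.range fun j : Fin n => f.coeff j)) z →
      z ∈ adjoin K (Set.range fun j : Fin n => f.coeff j) := by
    rw [hco]; exact hg2
  have hn0 : 0 < n := by omega
  have hirr : Irreducible f := irr hn0 f hmon hdeg hci hcl
  refine ⟨Cf, inferInstance, inferInstance, f, ?_⟩
  have : Fact (Irreducible f) := ⟨hirr⟩
  have hch : CharZero Cf := charZero_of_injective_algebraMap (algebraMap K Cf).injective
  have hch2 : CharZero (AdjoinRoot f) :=
    charZero_of_injective_algebraMap (algebraMap Cf (AdjoinRoot f)).injective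
  let φ : K[X] →+* AdjoinRoot f := (AdjoinRoot.mk f).comp (mapRingHom (algebraMap K Cf))
  have hφ : Function.Injective φ := by
    rw [injective_iff_map_eq_zero]
    intro p hp
    by_contra hp0
    exact inj_root hn0 f hmon hci p hp0 (AdjoinRoot.mk_eq_zero.mp hp)
  let ψ : R[X] →+* AdjoinRoot f := (AdjoinRoot.mk f).comp (mapRingHom g)
  have hψj : ∀ p : K[X], ψ (jk p) = φ p := by
    intro p
    change AdjoinRoot.mk f ((p.map (algebraMap K R)).map g) = AdjoinRoot.mk f (p.map _)
    rw [Polynomial.map_map]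
    congr 2
  have hψf : ψ (fK m al be ga) = 0 := AdjoinRoot.mk_self
  have hx0 : ψ (X0 K m _ _ _) ≠ 0 := by
    intro h0
    have hX := X0_monic (k := K) (m := m) (d₁ := dd m (be * ga).natDegree)
      (d₂ := dd m (ga * al).natDegree) (d₃ := dd m (al * be).natDegree)
    have h1 := AdjoinRoot.mk_eq_zero.mp h0
    have h2 : ((X0 K m (dd m (be * ga).natDegree) (dd m (ga * al).natDegree)
      (dd m (al * be).natDegree)).map g).Monic := hX.1.map g
    refine hmon.not_dvd_of_natDegree_lt h2.ne_zero ?_ h1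
    rw [hdeg, hn]
    refine lt_of_eq_of_lt (hX.1.natDegree_map g) ?_
    rw [hX.2]; omega
  obtain ⟨X', Y', hXY⟩ := H (AdjoinRoot f) φ hφ _ _ _ _ hx0 (by
    have h1 := hψf
    rw [fK, ff] at h1
    simp only [map_add, map_mul ψ (jk _), map_pow ψ, hψj] at h1
    exact h1)
  obtain ⟨X₀, rfl⟩ := AdjoinRoot.mk_surjective X'
  obtain ⟨Y₀, rfl⟩ := AdjoinRoot.mk_surjective Y'
  refine ⟨X₀, Y₀, pure_top K _, hmon, hdeg, hci, hcl, ?_⟩
  rw [← AdjoinRoot.mk_eq_zero, map_sub, map_add, map_mul, map_mul, map_pow, map_pow, map_one,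
    sub_eq_zero]
  exact hXY

/-- **Main lemma.** For every conic over `K(t)` there is, in every large even degree, a generic
polynomial over whose root field the conic has a point. -/
theorem ml (K : Type) [Field K] [CharZero K] (a b : K[X]) (ha : a ≠ 0) (hb : b ≠ 0) :
    ∃ M : ℕ, ∀ n : ℕ, M ≤ n → Even n →
    ∃ (Cf : Type) (_ : Field Cf) (_ : Algebra K Cf) (f X₀ Y₀ : Cf[X]),
      Pure (⊤ : IntermediateField K Cf) ∧ f.Monic ∧ f.natDegree = n ∧
      AlgebraicIndependent K (fun j : Fin n => f.coeff j) ∧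
      (∀ z : Cf, IsAlgebraic (adjoin K (Set.range fun j : Fin n => f.coeff j)) z →
        z ∈ adjoin K (Set.range fun j : Fin n => f.coeff j)) ∧
      f ∣ a.map (algebraMap K Cf) * X₀ ^ 2 + b.map (algebraMap K Cf) * Y₀ ^ 2 - 1 := by
  obtain ⟨al, be, ga, h0, h1, hal, hbe, hga, sa, sb, sc, cab, cbc, cca, hh0, hh1, hae, hbe'⟩ :=
    norm_data a b ha hb
  obtain ⟨M, hM⟩ := family K al be ga hal hbe hga sa sb sc cab cbc cca
  refine ⟨2 * M + 2, fun n hn he => ?_⟩
  obtain ⟨m, hm⟩ := he
  have hm' : n = 2 * m := by omega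
  have key : ∀ (F : Type) [Field F] [CharZero F] (φ : K[X] →+* F), Function.Injective φ →
      ∀ X Y Z : F, ¬ (X = 0 ∧ Y = 0 ∧ Z = 0) → φ al * X ^ 2 + φ be * Y ^ 2 + φ ga * Z ^ 2 = 0 →
      ∃ X' Y' : F, φ a * X' ^ 2 + φ b * Y' ^ 2 = 1 := fun F _ _ φ hφ X Y Z hne h =>
    back two_ne_zero φ hφ ha hb hga hh0 hh1 hae hbe' hne h
  have e : ∀ {F : Type} [Field F] (φ : K[X] →+* F), Function.Injective φ → ∀ {p : K[X]},
      p ≠ 0 → φ p ≠ 0 := fun φ hφ _ hp => (map_ne_zero_iff φ hφ).mpr hp
  rcases hM with hM | hM | hM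
  · refine ml1 a b al be ga m (by omega) (hM m (by omega)) ?_ n hm'
    intro F _ _ φ hφ x0 x1 x2 x3 hx h
    rw [map_mul, map_mul, map_mul] at h
    obtain ⟨X, Y, Z, hne, hX⟩ := z1 (e φ hφ hal) (e φ hφ hbe) (e φ hφ hga) h
      (fun h => hx h.1)
    exact key F φ hφ X Y Z hne hX
  · refine ml1 a b be ga al m (by omega) (hM m (by omega)) ?_ n hm'
    intro F _ _ φ hφ x0 x1 x2 x3 hx h
    rw [map_mul, map_mul, map_mul] at h
    obtain ⟨X, Y, Z, hne, hX⟩ := z1 (e φ hφ hbe) (e φ hφ hga) (e φ hφ hal) h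
      (fun h => hx h.1)
    exact key F φ hφ Z X Y (fun h => hne ⟨h.2.1, h.2.2, h.1⟩) (by linear_combination hX)
  · refine ml1 a b ga al be m (by omega) (hM m (by omega)) ?_ n hm'
    intro F _ _ φ hφ x0 x1 x2 x3 hx h
    rw [map_mul, map_mul, map_mul] at h
    obtain ⟨X, Y, Z, hne, hX⟩ := z1 (e φ hφ hga) (e φ hφ hal) (e φ hφ hbe) h
      (fun h => hx h.1)
    exact key F φ hφ Y Z X (fun h => hne ⟨h.2.2, h.1, h.2.1⟩) (by linear_combination hX)

end Pool.Agent.Zk31.EO
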