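import Pool.Agent.Zk31.EVoc
import Pool.Agent.Zk31.DF

/-! The transcendence basis of invariants of the function field of a power of a quadric bundle. -/

set_option autoImplicit false
set_option linter.unusedSectionVars false

namespace Pool.Agent.Zk31.EP

open Polynomial IntermediateField Pool.Agent.Zk31.EVoc Pool.Agent.Zk31.CA
  Pool.Agent.Zk31.DE Pool.Agent.Zk31.DF

section

variable {K κ 𝔽 : Type} [Field K] [CharZero K]
  [Fintype κ] [DecidableEq κ] {a : κ → K[X]} {n : ℕ} [Field 𝔽] [Algebra K 𝔽]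
  [MulSemiringAction (Equiv.Perm (Fin n)) 𝔽] [SMulCommClass (Equiv.Perm (Fin n)) K 𝔽]
  {t : Fin n → 𝔽} {x : Fin n → κ → 𝔽} (h : BundlePower a n t x) (ha : ∀ k, a k ≠ 0) (k₀ : κ)

include h

theorem alg_of_gens' (kk : Fin n → κ) (hkk : ∀ i, aeval (t i) (a (kk i)) ≠ 0)
    (B : IntermediateField K 𝔽) (ht : ∀ i, IsAlgebraic B (t i))
    (hx : ∀ i k, k ≠ kk i → IsAlgebraic B (x i k)) (z : 𝔽) : IsAlgebraic B z := by
  let D : IntermediateField K 𝔽 := (algebraicClosure B 𝔽).restrictScalars K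
  have hD : ∀ y : 𝔽, y ∈ D ↔ IsAlgebraic B y := fun y => by
    change y ∈ algebraicClosure B 𝔽 ↔ _
    rw [mem_algebraicClosure_iff]
  have hDD : ∀ y : 𝔽, IsAlgebraic D y → y ∈ D := by
    intro y hy
    rw [hD]
    have h1 : IsAlgebraic (algebraicClosure B 𝔽) y := hy
    exact h1.restrictScalars B
  have hae : ∀ (i : Fin n) (p : K[X]), aeval (t i) p ∈ D := by
    intro i p
    have h1 : aeval (t i) p = aeval (⟨t i, (hD _).mpr (ht i)⟩ : D) p :=
      aeval_algebraMap_apply 𝔽 (⟨t i, (hD _).mpr (ht i)⟩ : D) p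
    rw [h1]
    exact SetLike.coe_mem _
  have hk₀ : ∀ i, x i (kk i) ∈ D := by
    intro i
    apply hDD
    refine IsAlgebraic.of_pow (n := 2) (by norm_num) ?_
    have h1 := h.equation i
    rw [← Finset.add_sum_erase _ _ (Finset.mem_univ (kk i))] at h1
    have h2 : x i (kk i) ^ 2 = (1 - ∑ k ∈ Finset.univ.erase (kk i),
        aeval (t i) (a k) * x i k ^ 2) * (aeval (t i) (a (kk i)))⁻¹ := by
      rw [eq_mul_inv_iff_mul_eq₀ (hkk i)]
      linear_combination h1
    have h3 : x i (kk i) ^ 2 ∈ D := by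
      rw [h2]
      refine mul_mem (sub_mem (one_mem _) (sum_mem fun k hk => ?_)) (inv_mem (hae i _))
      exact mul_mem (hae i _) (pow_mem ((hD _).mpr (hx i k (Finset.mem_erase.mp hk).1)) 2)
    exact isAlgebraic_algebraMap (⟨_, h3⟩ : D)
  have htop : (⊤ : IntermediateField K 𝔽) ≤ D := by
    rw [← h.generates, adjoin_le_iff]
    rintro y (⟨i, rfl⟩ | ⟨⟨i, k⟩, rfl⟩)
    · exact (hD _).mpr (ht i)
    · by_cases hk : k = kk i
      · subst hk; exact hk₀ i
      · exact (hD _).mpr (hx i k hk)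
  exact (hD z).mp (htop trivial)

theorem indep_of_card {ι : Type} [Finite ι] (u : ι → 𝔽)
    (hcard : Nat.card ι = n * Fintype.card κ)
    (halg : ∀ z : 𝔽, IsAlgebraic (adjoin K (Set.range u)) z) : AlgebraicIndependent K u := by
  obtain ⟨β, b, hb⟩ := exists_isTranscendenceBasis' K 𝔽
  refine indep_of_alg hb.1 u ?_ halg
  rw [hb.cardinalMk_eq_trdeg, h.dimension, ← hcard]
  exact (Nat.cast_card (α := ι)).symm.le

omit h [CharZero K] [MulSemiringAction (Equiv.Perm (Fin n)) 𝔽]
  [SMulCommClass (Equiv.Perm (Fin n)) K 𝔽] in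
theorem card_idx : Nat.card (Fin n ⊕ ({k : κ // k ≠ k₀} × Fin n)) = n * Fintype.card κ := by
  rw [Nat.card_eq_fintype_card, Fintype.card_sum, Fintype.card_prod, Fintype.card_fin]
  have h1 : Fintype.card {k : κ // k ≠ k₀} = Fintype.card κ - 1 := by
    rw [Fintype.card_subtype_compl, Fintype.card_subtype_eq]
  have h2 : 0 < Fintype.card κ := Fintype.card_pos_iff.mpr ⟨k₀⟩
  rw [h1]
  obtain ⟨c, hc⟩ : ∃ c, Fintype.card κ = c + 1 := ⟨Fintype.card κ - 1, by omega⟩
  rw [hc]
  simp only [Nat.add_sub_cancel]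
  ring

theorem indep_t : AlgebraicIndependent K t := by
  have h0 : ∀ i, ∃ k, aeval (t i) (a k) ≠ 0 := by
    intro i
    by_contra hcon
    push Not at hcon
    have h1 := h.equation i
    rw [Finset.sum_eq_zero fun k _ => by rw [hcon k, zero_mul]] at h1
    exact zero_ne_one h1
  choose kk hkk using h0
  let s : Fin n ⊕ ((i : Fin n) × {k : κ // k ≠ kk i}) → 𝔽 := Sum.elim t fun z => x z.1 z.2
  have h1 : AlgebraicIndependent K s := by
    refine indep_of_card h s ?_ ?_
    · rw [Nat.card_eq_fintype_card, Fintype.card_sum, Fintype.card_sigma, Fintype.card_fin]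
      have h1 : ∀ i, Fintype.card {k : κ // k ≠ kk i} = Fintype.card κ - 1 := by
        intro i
        rw [Fintype.card_subtype_compl, Fintype.card_subtype_eq]
      simp only [h1, Finset.sum_const, Finset.card_univ, Fintype.card_fin, smul_eq_mul]
      rcases Nat.eq_zero_or_pos n with hn | hn
      · subst hn; simp
      · have h2 : 0 < Fintype.card κ := Fintype.card_pos_iff.mpr ⟨kk ⟨0, hn⟩⟩
        obtain ⟨c, hc⟩ : ∃ c, Fintype.card κ = c + 1 := ⟨Fintype.card κ - 1, by omega⟩
        rw [hc]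
        simp only [Nat.add_sub_cancel]
        ring
    · refine alg_of_gens' h kk hkk _ (fun i => ?_) fun i k hk => ?_
      · exact isAlgebraic_algebraMap (⟨t i, subset_adjoin _ _ ⟨Sum.inl i, rfl⟩⟩ :
          adjoin K (Set.range s))
      · exact isAlgebraic_algebraMap (⟨x i k, subset_adjoin _ _ ⟨Sum.inr ⟨i, ⟨k, hk⟩⟩, rfl⟩⟩ :
          adjoin K (Set.range s))
  exact h1.comp Sum.inl Sum.inl_injective

theorem inj_t : Function.Injective t := (indep_t h).injective

include ha in
theorem aeval_ne (i : Fin n) (k : κ) : aeval (t i) (a k) ≠ 0 := by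
  intro h1
  exact (indep_t h).transcendental i ⟨a k, ha k, h1⟩

include ha in
theorem alg_of_gens (B : IntermediateField K 𝔽) (ht : ∀ i, IsAlgebraic B (t i))
    (hx : ∀ i k, k ≠ k₀ → IsAlgebraic B (x i k)) (z : 𝔽) : IsAlgebraic B z :=
  alg_of_gens' h (fun _ => k₀) (fun i => aeval_ne h ha i k₀) B ht hx z

include ha in
theorem alg_uu (z : 𝔽) : IsAlgebraic (adjoin K (Set.range (uu t x k₀))) z := by
  set B := adjoin K (Set.range (uu t x k₀)) with hB
  have hmon : (pt t).Monic := monic_prod_of_monic _ _ fun i _ => monic_X_sub_C _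
  have hdeg : (pt t).natDegree = n := by
    rw [pt, natDegree_prod_of_monic _ _ fun i _ => monic_X_sub_C _]
    simp
  have ht : ∀ i, IsAlgebraic B (t i) := by
    intro i
    have h1 : pt t ∈ lifts (algebraMap B 𝔽) := by
      rw [lifts_iff_coeff_lifts]
      intro j
      by_cases hj : j < n
      · exact ⟨⟨_, subset_adjoin _ _ ⟨Sum.inl ⟨j, hj⟩, rfl⟩⟩, rfl⟩
      · by_cases hj2 : j = n
        · refine ⟨1, ?_⟩
          have h2 : (pt t).coeff n = 1 := by
            have h3 := hmon.coeff_natDegree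
            rwa [hdeg] at h3
          rw [map_one, hj2, h2]
        · refine ⟨0, ?_⟩
          rw [map_zero, coeff_eq_zero_of_natDegree_lt]
          rw [hdeg]; omega
    obtain ⟨q, hq⟩ := (mem_lifts _).mp h1
    refine ⟨q, ?_, ?_⟩
    · intro h2
      rw [h2, Polynomial.map_zero] at hq
      exact hmon.ne_zero hq.symm
    · rw [aeval_def, ← eval_map, hq, pt, eval_prod]
      exact Finset.prod_eq_zero (Finset.mem_univ i) (by rw [eval_sub, eval_X, eval_C, sub_self])
  refine alg_of_gens h ha k₀ B ht (fun i k hk => ?_) z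
  rw [← co_spec (inj_t h) (fun i => x i k) i]
  have h1 : ∀ j : Fin n, IsAlgebraic B (co t (fun i => x i k) j * t i ^ (j : ℕ)) := by
    intro j
    refine IsAlgebraic.mul ?_ ((ht i).pow _)
    exact isAlgebraic_algebraMap (⟨_, subset_adjoin _ _ ⟨Sum.inr (⟨k, hk⟩, j), rfl⟩⟩ : B)
  exact Finset.sum_induction _ (IsAlgebraic B) (fun _ _ ha hb => ha.add hb) isAlgebraic_zero
    fun j _ => h1 j

include ha in
theorem indep_uu : AlgebraicIndependent K (uu t x k₀) :=
  indep_of_card h _ (card_idx k₀) (alg_uu h ha k₀)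

theorem fixed_uu (π : Equiv.Perm (Fin n)) (v : Fin n ⊕ ({k : κ // k ≠ k₀} × Fin n)) :
    π • uu t x k₀ v = uu t x k₀ v := by
  let φ : 𝔽 →+* 𝔽 := MulSemiringAction.toRingHom (Equiv.Perm (Fin n)) 𝔽 π
  rcases v with j | ⟨k, j⟩
  · have h1 : (pt t).map φ = pt t := by
      rw [pt, Polynomial.map_prod, ← Equiv.prod_comp π (fun i => X - C (t i))]
      refine Finset.prod_congr rfl fun i _ => ?_
      rw [Polynomial.map_sub, map_X, map_C]
      congr 2
      exact h.perm_t π i
    have h2 := congrArg (fun p : 𝔽[X] => p.coeff j) h1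
    simp only [coeff_map] at h2
    exact h2
  · have h1 := co_map φ (inj_t h) (fun i => x i k) j
    have h2 : (fun i => φ (t i)) = fun i => t (π i) := funext fun i => h.perm_t π i
    have h3 : (fun i => φ (x i k)) = fun i => x (π i) k := funext fun i => h.perm_x π i k
    rw [h2, h3, co_perm (inj_t h) (fun i => x i k) π] at h1
    exact h1

end

end Pool.Agent.Zk31.EP
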