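import Pool.Agent.Zk31.EQ
import Pool.Agent.Zk31.DL

/-! The parametrization of the fibres of a quadric bundle over the generic polynomial. -/

set_option autoImplicit false
set_option linter.unusedSectionVars false
set_option linter.unusedVariables false

namespace Pool.Agent.Zk31.ER

open Polynomial IntermediateField Pool.Agent.Zk31.EVoc Pool.Agent.Zk31.DE Pool.Agent.Zk31.EP
  Pool.Agent.Zk31.EQ
open Pool.Agent.Zk31.DF (uu pt)
open Pool.Agent.Zk31.DJ (exists_alg aeval_mem root_of)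

theorem co_mem {F : Type} [Field F] {n : ℕ} (A : Subfield F) {t v : Fin n → F}
    (ht : Function.Injective t) (htA : ∀ i, t i ∈ A) (hvA : ∀ i, v i ∈ A) (j : Fin n) :
    co t v j ∈ A := by
  have ht' : Function.Injective fun i => (⟨t i, htA i⟩ : A) := fun i j hij =>
    ht (congrArg Subtype.val hij)
  have h1 := co_map A.subtype ht' (fun i => (⟨v i, hvA i⟩ : A)) j
  have h2 : co t v j = A.subtype (co (fun i => (⟨t i, htA i⟩ : A)) (fun i => ⟨v i, hvA i⟩) j) :=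
    h1.symm
  rw [h2]
  exact SetLike.coe_mem _

section

variable {K κ 𝔽 : Type} [Field K] [CharZero K]
  [Fintype κ] [DecidableEq κ] {a : κ → K[X]} {n : ℕ} [Field 𝔽] [Algebra K 𝔽]
  [MulSemiringAction (Equiv.Perm (Fin n)) 𝔽] [SMulCommClass (Equiv.Perm (Fin n)) K 𝔽]
  {t : Fin n → 𝔽} {x : Fin n → κ → 𝔽} (h : BundlePower a n t x) (ha : ∀ k, a k ≠ 0) (k₀ k₁ : κ)
  (hk : k₁ ≠ k₀) {Cf D : Type} [Field Cf] [Algebra K Cf] [Field D] [Algebra Cf D] [Algebra K D]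
  [IsScalarTower K Cf D] (φ : 𝔽 →ₐ[K] D) (X₀ Y₀ : Cf[X])

variable (a t) in
/-- the values of the coefficients -/
noncomputable def av (k : κ) (i : Fin n) : D := aeval (φ (t i)) (a k)

variable (a t x) in
/-- first coordinate after the rotation -/
noncomputable def q0 (i : Fin n) : D :=
  av a t φ k₀ i * aeval (φ (t i)) X₀ * φ (x i k₀) + av a t φ k₁ i * aeval (φ (t i)) Y₀ * φ (x i k₁)

variable (t x) in
/-- second coordinate after the rotation -/
noncomputable def q1 (i : Fin n) : D :=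
  aeval (φ (t i)) X₀ * φ (x i k₁) - aeval (φ (t i)) Y₀ * φ (x i k₀)

variable (a t x) in
/-- the stereographic coordinates -/
noncomputable def uv (i : Fin n) (k : κ) : D :=
  (if k = k₁ then q1 t x k₀ k₁ φ X₀ Y₀ i else φ (x i k)) * (1 + q0 a t x k₀ k₁ φ X₀ Y₀ i)⁻¹

variable (a t x) in
/-- the parameters -/
noncomputable def ze (z : {k : κ // k ≠ k₀} × Fin n) : D :=
  co (fun i => φ (t i)) (fun i => uv a t x k₀ k₁ φ X₀ Y₀ i z.1) z.2

variable (a t x) in
/-- the rest of the quadratic form -/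
noncomputable def RR (i : Fin n) : D :=
  ∑ k ∈ (Finset.univ.erase k₀).erase k₁, av a t φ k i * φ (x i k) ^ 2

/-- the value of the form at the stereographic coordinates -/
noncomputable def SS (A : κ → D) (u : κ → D) : D :=
  A k₀ * A k₁ * u k₁ ^ 2 + ∑ k ∈ (Finset.univ.erase k₀).erase k₁, A k * u k ^ 2

include h ha in
theorem av_ne (k : κ) (i : Fin n) : av a t φ k i ≠ 0 := by
  rw [av, aeval_algHom_apply]
  intro h1
  exact aeval_ne h ha i k (φ.injective (h1.trans (map_zero φ).symm))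

theorem point {f : Cf[X]} (hf : f.map (algebraMap Cf D) = ∏ i, (X - C (φ (t i))))
    (hdvd : f ∣ (a k₀).map (algebraMap K Cf) * X₀ ^ 2 + (a k₁).map (algebraMap K Cf) * Y₀ ^ 2 - 1)
    (i : Fin n) :
    av a t φ k₀ i * aeval (φ (t i)) X₀ ^ 2 + av a t φ k₁ i * aeval (φ (t i)) Y₀ ^ 2 = 1 := by
  obtain ⟨g, hg⟩ := hdvd
  have h2 : aeval (φ (t i)) ((a k₀).map (algebraMap K Cf) * X₀ ^ 2 +
      (a k₁).map (algebraMap K Cf) * Y₀ ^ 2 - 1) = 0 := by
    rw [hg, map_mul, root_of φ hf, zero_mul]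
  rw [map_sub, sub_eq_zero, map_add, map_mul, map_mul, map_pow, map_pow, map_one,
    aeval_map_algebraMap, aeval_map_algebraMap] at h2
  exact h2

include h hk in
theorem eqn (i : Fin n) : av a t φ k₀ i * φ (x i k₀) ^ 2 + av a t φ k₁ i * φ (x i k₁) ^ 2 +
    RR a t x k₀ k₁ φ i = 1 := by
  have h1 := congrArg φ (h.equation i)
  rw [map_sum, map_one, ← Finset.add_sum_erase _ _ (Finset.mem_univ k₀),
    ← Finset.add_sum_erase _ _ (Finset.mem_erase.mpr ⟨hk, Finset.mem_univ k₁⟩), ← add_assoc] at h1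
  have h2 : ∀ k, φ (aeval (t i) (a k) * x i k ^ 2) = av a t φ k i * φ (x i k) ^ 2 := by
    intro k
    rw [map_mul, map_pow, av, aeval_algHom_apply]
  simp only [h2] at h1
  exact h1

theorem xx_indep (hη : AlgebraicIndependent Cf
      (fun v : {k : κ // k ≠ k₀} × Fin n => φ (uu t x k₀ (Sum.inr v))))
    (hD : ∀ z : D, IsAlgebraic
      (adjoin Cf (Set.range fun v : {k : κ // k ≠ k₀} × Fin n => φ (uu t x k₀ (Sum.inr v)))) z)
    (hti : Function.Injective t)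
    {f : Cf[X]} (hf : f.map (algebraMap Cf D) = ∏ i, (X - C (φ (t i)))) :
    AlgebraicIndependent Cf (fun v : {k : κ // k ≠ k₀} × Fin n => φ (x v.2 v.1)) := by
  refine Pool.Agent.Zk31.CA.indep_of_alg hη _ le_rfl ?_
  obtain ⟨Z, hZ1, hZ2, hZ3⟩ := exists_alg (adjoin Cf (Set.range fun v : {k : κ // k ≠ k₀} × Fin n =>
    φ (x v.2 v.1)))
  intro z
  rw [← hZ1]
  have hθalg : ∀ i, IsAlgebraic Cf (φ (t i)) := by
    intro i
    refine ⟨f, ?_, root_of φ hf i⟩
    intro h0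
    rw [h0, Polynomial.map_zero] at hf
    exact (Finset.prod_ne_zero_iff.mpr fun i _ => X_sub_C_ne_zero (φ (t i))) hf.symm
  have hθZ : ∀ i, φ (t i) ∈ Z := fun i => hZ3 _ ((hθalg i).tower_top Z)
  have hxZ : ∀ v : {k : κ // k ≠ k₀} × Fin n, φ (x v.2 v.1) ∈ Z := fun v =>
    hZ2 (subset_adjoin _ _ ⟨v, rfl⟩)
  have huZ : ∀ v : {k : κ // k ≠ k₀} × Fin n, φ (uu t x k₀ (Sum.inr v)) ∈ Z := by
    rintro ⟨k, j⟩
    have h1 := co_map (φ : 𝔽 →+* D) hti (fun i => x i k) j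
    have h2 : φ (uu t x k₀ (Sum.inr (k, j))) =
        co (fun i => φ (t i)) (fun i => φ (x i k)) j := h1
    rw [h2]
    exact co_mem Z.toSubfield (φ.injective.comp hti) hθZ (fun i => hxZ (k, i)) j
  refine hZ3 _ (Pool.Agent.Zk31.DI.alg_map' (RingHom.id D) _ Z ?_ (hD z))
  intro a ha
  induction ha using IntermediateField.adjoin_induction with
  | mem a ha => obtain ⟨v, rfl⟩ := ha; exact huZ _
  | algebraMap c => exact Z.algebraMap_mem c
  | add a b _ _ ha hb => rw [map_add]; exact add_mem ha hb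
  | inv a _ ha => rw [map_inv₀]; exact inv_mem ha
  | mul a b _ _ ha hb => rw [map_mul]; exact mul_mem ha hb

include h ha hk in
theorem q0_ne (hη : AlgebraicIndependent Cf
      (fun v : {k : κ // k ≠ k₀} × Fin n => φ (uu t x k₀ (Sum.inr v))))
    (hD : ∀ z : D, IsAlgebraic
      (adjoin Cf (Set.range fun v : {k : κ // k ≠ k₀} × Fin n => φ (uu t x k₀ (Sum.inr v)))) z)
    {f : Cf[X]} (hf : f.map (algebraMap Cf D) = ∏ i, (X - C (φ (t i))))
    (hdvd : f ∣ (a k₀).map (algebraMap K Cf) * X₀ ^ 2 + (a k₁).map (algebraMap K Cf) * Y₀ ^ 2 - 1)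
    (i : Fin n) : 1 + q0 a t x k₀ k₁ φ X₀ Y₀ i ≠ 0 := by
  intro h0
  have hxx := xx_indep (x := x) k₀ φ hη hD (inj_t h) hf
  let xx : {k : κ // k ≠ k₀} × Fin n → D := fun v => φ (x v.2 v.1)
  let v₁ : {k : κ // k ≠ k₀} × Fin n := (⟨k₁, hk⟩, i)
  have htr := AlgebraicIndependent.transcendental_adjoin (s := {v₁}ᶜ) (i := v₁) hxx (by simp)
  apply htr
  rw [← IntermediateField.isAlgebraic_adjoin_iff]
  obtain ⟨Z, hZ1, hZ2, hZ3⟩ := exists_alg (adjoin Cf (xx '' {v₁}ᶜ))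
  refine (hZ1 _).mp ?_
  have hθalg : ∀ i, IsAlgebraic Cf (φ (t i)) := by
    intro i
    refine ⟨f, ?_, root_of φ hf i⟩
    intro h0
    rw [h0, Polynomial.map_zero] at hf
    exact (Finset.prod_ne_zero_iff.mpr fun i _ => X_sub_C_ne_zero (φ (t i))) hf.symm
  have hθZ : φ (t i) ∈ Z := hZ3 _ ((hθalg i).tower_top Z)
  have hXZ : aeval (φ (t i)) X₀ ∈ Z := aeval_mem Z hθZ _
  have hYZ : aeval (φ (t i)) Y₀ ∈ Z := aeval_mem Z hθZ _
  have haZ : ∀ k, av a t φ k i ∈ Z := by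
    intro k
    rw [av, ← aeval_map_algebraMap Cf]
    exact aeval_mem Z hθZ _
  have hRZ : RR a t x k₀ k₁ φ i ∈ Z := by
    refine sum_mem fun k hk' => mul_mem (haZ k) (pow_mem (hZ2 ?_) 2)
    obtain ⟨h1, h2⟩ := Finset.mem_erase.mp hk'
    obtain ⟨h3, -⟩ := Finset.mem_erase.mp h2
    refine subset_adjoin _ _ ⟨(⟨k, h3⟩, i), ?_, rfl⟩
    intro h4
    apply h1
    exact congrArg (fun v : {k : κ // k ≠ k₀} × Fin n => (v.1 : κ)) h4
  have h1 := point (a := a) (t := t) k₀ k₁ φ X₀ Y₀ hf hdvd i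
  have h2 := eqn h k₀ k₁ hk φ i
  have hb := av_ne h ha φ k₁ i
  rw [q0] at h0
  set al := av a t φ k₀ i
  set be := av a t φ k₁ i
  set Xx := aeval (φ (t i)) X₀
  set Yy := aeval (φ (t i)) Y₀
  set R := RR a t x k₀ k₁ φ i
  set x0 := φ (x i k₀)
  set y := φ (x i k₁)
  have h3 : (y + Yy) ^ 2 = Yy ^ 2 - (1 - al * Xx ^ 2 * (1 - R)) * be⁻¹ := by
    rw [eq_sub_iff_add_eq, ← eq_sub_iff_add_eq', mul_inv_eq_iff_eq_mul₀ hb]
    -- `be y² + 2 be Y y + 1 - al X² (1 - R) = 0`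
    linear_combination (al * Xx ^ 2) * h2 - (be * y ^ 2) * h1 -
      (al * Xx * x0 - be * Yy * y - 1) * h0
  have h4 : (y + Yy) ^ 2 ∈ Z := by
    rw [h3]
    exact sub_mem (pow_mem hYZ 2) (mul_mem (sub_mem (one_mem _) (mul_mem (mul_mem (haZ k₀)
      (pow_mem hXZ 2)) (sub_mem (one_mem _) hRZ))) (inv_mem (haZ k₁)))
  have h5 : y + Yy ∈ Z := by
    apply hZ3
    refine IsAlgebraic.of_pow (n := 2) (by norm_num) ?_
    exact isAlgebraic_algebraMap (⟨_, h4⟩ : Z)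
  have h6 : y = (y + Yy) - Yy := by ring
  change y ∈ Z
  rw [h6]
  exact sub_mem h5 hYZ

end

end Pool.Agent.Zk31.ER
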