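import Pool.Agent.Zk31.ER

/-! The core for quadric bundles. -/

set_option autoImplicit false
set_option linter.unusedSectionVars false
set_option linter.unusedVariables false

namespace Pool.Agent.Zk31.ES

open Polynomial IntermediateField Pool.Agent.Zk31.EVoc Pool.Agent.Zk31.DE Pool.Agent.Zk31.EP
  Pool.Agent.Zk31.EQ Pool.Agent.Zk31.ER
open Pool.Agent.Zk31.DF (uu pt)
open Pool.Agent.Zk31.DI (alg_map' aut_of_fix exists_pi_gamma)
open Pool.Agent.Zk31.DJ (exists_alg aeval_mem root_of)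

section form

variable {κ D D' : Type} [Fintype κ] [DecidableEq κ] [Field D] [Field D'] (k₀ k₁ : κ)

/-- the point with given stereographic coordinates -/
noncomputable def XX (A : κ → D) (Xx Yy : D) (u : κ → D) (k : κ) : D :=
  if k = k₀ then Xx * (2 * (1 + SS k₀ k₁ A u)⁻¹ - 1) -
      A k₁ * Yy * (u k₁ * (2 * (1 + SS k₀ k₁ A u)⁻¹))
  else if k = k₁ then Yy * (2 * (1 + SS k₀ k₁ A u)⁻¹ - 1) +
      A k₀ * Xx * (u k₁ * (2 * (1 + SS k₀ k₁ A u)⁻¹))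
  else u k * (2 * (1 + SS k₀ k₁ A u)⁻¹)

theorem SS_map (ρ : D →+* D') (A u : κ → D) :
    ρ (SS k₀ k₁ A u) = SS k₀ k₁ (fun k => ρ (A k)) (fun k => ρ (u k)) := by
  rw [SS, SS, map_add, map_mul, map_mul, map_pow, map_sum]
  congr 1
  exact Finset.sum_congr rfl fun k _ => by rw [map_mul, map_pow]

theorem XX_map (ρ : D →+* D') (A : κ → D) (Xx Yy : D) (u : κ → D) (k : κ) :
    ρ (XX k₀ k₁ A Xx Yy u k) =
      XX k₀ k₁ (fun k => ρ (A k)) (ρ Xx) (ρ Yy) (fun k => ρ (u k)) k := by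
  rw [XX, XX]
  split_ifs
  · simp only [map_sub, map_mul, map_inv₀, map_add, map_one, map_ofNat, SS_map k₀ k₁ ρ]
  · simp only [map_sub, map_mul, map_inv₀, map_add, map_one, map_ofNat, SS_map k₀ k₁ ρ]
  · simp only [map_sub, map_mul, map_inv₀, map_add, map_one, map_ofNat, SS_map k₀ k₁ ρ]

theorem XX_congr (hk : k₁ ≠ k₀) (A : κ → D) (Xx Yy : D) {u u' : κ → D}
    (h : ∀ k, k ≠ k₀ → u k = u' k) (k : κ) : XX k₀ k₁ A Xx Yy u k = XX k₀ k₁ A Xx Yy u' k := by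
  have h1 : SS k₀ k₁ A u = SS k₀ k₁ A u' := by
    rw [SS, SS, h k₁ hk]
    congr 1
    refine Finset.sum_congr rfl fun k hk' => ?_
    obtain ⟨-, h2⟩ := Finset.mem_erase.mp hk'
    rw [h k (Finset.mem_erase.mp h2).1]
  rw [XX, XX, h1, h k₁ hk]
  split_ifs with h3 h4
  · rfl
  · rfl
  · rw [h k h3]

theorem XX_in (hk : k₁ ≠ k₀) (Z : Subfield D) {A : κ → D} (hA : ∀ k, A k ∈ Z) {Xx Yy : D}
    (hX : Xx ∈ Z) (hY : Yy ∈ Z) {u : κ → D} (hu : ∀ k, k ≠ k₀ → u k ∈ Z) (k : κ) :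
    XX k₀ k₁ A Xx Yy u k ∈ Z := by
  have h2 : (2 : D) ∈ Z := by
    have h3 : (2 : D) = 1 + 1 := by norm_num
    rw [h3]; exact Z.add_mem Z.one_mem Z.one_mem
  have hS : SS k₀ k₁ A u ∈ Z := by
    refine Z.add_mem (Z.mul_mem (Z.mul_mem (hA _) (hA _)) (Z.pow_mem (hu k₁ hk) 2))
      (Z.sum_mem fun k hk' => Z.mul_mem (hA _) (Z.pow_mem (hu k ?_) 2))
    obtain ⟨-, h2⟩ := Finset.mem_erase.mp hk'
    exact (Finset.mem_erase.mp h2).1
  have hW : (2 : D) * (1 + SS k₀ k₁ A u)⁻¹ ∈ Z :=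
    Z.mul_mem h2 (Z.inv_mem (Z.add_mem Z.one_mem hS))
  rw [XX]
  split_ifs with h3 h4
  · exact Z.sub_mem (Z.mul_mem hX (Z.sub_mem hW Z.one_mem))
      (Z.mul_mem (Z.mul_mem (hA _) hY) (Z.mul_mem (hu k₁ hk) hW))
  · exact Z.add_mem (Z.mul_mem hY (Z.sub_mem hW Z.one_mem))
      (Z.mul_mem (Z.mul_mem (hA _) hX) (Z.mul_mem (hu k₁ hk) hW))
  · exact Z.mul_mem (hu k h3) hW

end form

section

variable {K κ 𝔽 : Type} [Field K] [CharZero K]
  [Fintype κ] [DecidableEq κ] {a : κ → K[X]} {n : ℕ} [Field 𝔽] [Algebra K 𝔽]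
  [MulSemiringAction (Equiv.Perm (Fin n)) 𝔽] [SMulCommClass (Equiv.Perm (Fin n)) K 𝔽]
  {t : Fin n → 𝔽} {x : Fin n → κ → 𝔽} (h : BundlePower a n t x) (ha : ∀ k, a k ≠ 0) (k₀ k₁ : κ)
  (hk : k₁ ≠ k₀) {Cf D : Type} [Field Cf] [Algebra K Cf] [Field D] [Algebra Cf D] [Algebra K D]
  [IsScalarTower K Cf D] (φ : 𝔽 →ₐ[K] D) (X₀ Y₀ : Cf[X])
  (hη : AlgebraicIndependent Cf
      (fun v : {k : κ // k ≠ k₀} × Fin n => φ (uu t x k₀ (Sum.inr v))))
  (hD : ∀ z : D, IsAlgebraic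
      (adjoin Cf (Set.range fun v : {k : κ // k ≠ k₀} × Fin n => φ (uu t x k₀ (Sum.inr v)))) z)
  {f : Cf[X]} (hf : f.map (algebraMap Cf D) = ∏ i, (X - C (φ (t i))))
  (hdvd : f ∣ (a k₀).map (algebraMap K Cf) * X₀ ^ 2 + (a k₁).map (algebraMap K Cf) * Y₀ ^ 2 - 1)

include h ha hk hη hD hf hdvd

theorem SS_uv (i : Fin n) : (1 + SS k₀ k₁ (fun k => av a t φ k i)
    (uv a t x k₀ k₁ φ X₀ Y₀ i)) * (1 + q0 a t x k₀ k₁ φ X₀ Y₀ i) = 2 := by
  have hW := q0_ne h ha k₀ k₁ hk φ X₀ Y₀ hη hD hf hdvd i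
  have h1 := point (a := a) (t := t) k₀ k₁ φ X₀ Y₀ hf hdvd i
  have h2 := eqn h k₀ k₁ hk φ i
  have h3 : SS k₀ k₁ (fun k => av a t φ k i) (uv a t x k₀ k₁ φ X₀ Y₀ i) =
      (av a t φ k₀ i * av a t φ k₁ i * q1 t x k₀ k₁ φ X₀ Y₀ i ^ 2 + RR a t x k₀ k₁ φ i) *
        ((1 + q0 a t x k₀ k₁ φ X₀ Y₀ i)⁻¹) ^ 2 := by
    rw [SS, add_mul, RR, Finset.sum_mul]
    congr 1
    · rw [uv, if_pos rfl]; ring
    · refine Finset.sum_congr rfl fun k hk' => ?_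
      rw [uv, if_neg (Finset.mem_erase.mp hk').1]; ring
  have hR : av a t φ k₀ i * av a t φ k₁ i * q1 t x k₀ k₁ φ X₀ Y₀ i ^ 2 + RR a t x k₀ k₁ φ i =
      (2 - (1 + q0 a t x k₀ k₁ φ X₀ Y₀ i)) * (1 + q0 a t x k₀ k₁ φ X₀ Y₀ i) := by
    rw [q0, q1]
    linear_combination h2 + (av a t φ k₀ i * φ (x i k₀) ^ 2 + av a t φ k₁ i * φ (x i k₁) ^ 2) * h1
  rw [h3, hR]
  generalize 1 + q0 a t x k₀ k₁ φ X₀ Y₀ i = W at hW
  field_simp
  ring

theorem x_formula (i : Fin n) (k : κ) : φ (x i k) = XX k₀ k₁ (fun k => av a t φ k i)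
    (aeval (φ (t i)) X₀) (aeval (φ (t i)) Y₀) (uv a t x k₀ k₁ φ X₀ Y₀ i) k := by
  have hch : CharZero D := charZero_of_injective_algebraMap (algebraMap K D).injective
  have hW := q0_ne h ha k₀ k₁ hk φ X₀ Y₀ hη hD hf hdvd i
  have h1 := point (a := a) (t := t) k₀ k₁ φ X₀ Y₀ hf hdvd i
  have h2 := SS_uv h ha k₀ k₁ hk φ X₀ Y₀ hη hD hf hdvd i
  have h3 : 1 + SS k₀ k₁ (fun k => av a t φ k i) (uv a t x k₀ k₁ φ X₀ Y₀ i) ≠ 0 := by
    intro h4
    rw [h4, zero_mul] at h2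
    exact two_ne_zero h2.symm
  have h4 : 2 * (1 + SS k₀ k₁ (fun k => av a t φ k i) (uv a t x k₀ k₁ φ X₀ Y₀ i))⁻¹ =
      1 + q0 a t x k₀ k₁ φ X₀ Y₀ i := by
    rw [← h2, mul_comm, ← mul_assoc, inv_mul_cancel₀ h3, one_mul]
  have h5 : uv a t x k₀ k₁ φ X₀ Y₀ i k₁ * (1 + q0 a t x k₀ k₁ φ X₀ Y₀ i) =
      q1 t x k₀ k₁ φ X₀ Y₀ i := by
    rw [uv, if_pos rfl, inv_mul_cancel_right₀ hW]
  rw [XX, h4, h5]
  split_ifs with h6 h7
  · rw [h6, q0, q1]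
    linear_combination (- φ (x i k₀)) * h1
  · rw [h7, q0, q1]
    linear_combination (- φ (x i k₁)) * h1
  · rw [uv, if_neg h7, inv_mul_cancel_right₀ hW]

/-- The parameters generate up to algebraic extensions. -/
theorem S1 (z : D) :
    IsAlgebraic (adjoin Cf (Set.range (ze a t x k₀ k₁ φ X₀ Y₀))) z := by
  obtain ⟨Z, hZ1, hZ2, hZ3⟩ := exists_alg (adjoin Cf (Set.range (ze a t x k₀ k₁ φ X₀ Y₀)))
  rw [← hZ1]
  have hti := φ.injective.comp (inj_t h)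
  have hθalg : ∀ i, IsAlgebraic Cf (φ (t i)) := by
    intro i
    refine ⟨f, ?_, root_of φ hf i⟩
    intro h0
    rw [h0, Polynomial.map_zero] at hf
    exact (Finset.prod_ne_zero_iff.mpr fun i _ => X_sub_C_ne_zero (φ (t i))) hf.symm
  have hθZ : ∀ i, φ (t i) ∈ Z := fun i => hZ3 _ ((hθalg i).tower_top Z)
  have hζZ : ∀ z, ze a t x k₀ k₁ φ X₀ Y₀ z ∈ Z := fun z => hZ2 (subset_adjoin _ _ ⟨z, rfl⟩)
  have haZ : ∀ k i, av a t φ k i ∈ Z := by
    intro k i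
    rw [av, ← aeval_map_algebraMap Cf]
    exact aeval_mem Z (hθZ i) _
  have huZ : ∀ i k, k ≠ k₀ → uv a t x k₀ k₁ φ X₀ Y₀ i k ∈ Z := by
    intro i k hk'
    have h1 := co_spec hti (fun i => uv a t x k₀ k₁ φ X₀ Y₀ i k) i
    rw [← h1]
    exact sum_mem fun j _ => mul_mem (hζZ (⟨k, hk'⟩, j)) (pow_mem (hθZ i) _)
  have hxZ : ∀ i k, φ (x i k) ∈ Z := by
    intro i k
    rw [x_formula h ha k₀ k₁ hk φ X₀ Y₀ hη hD hf hdvd]
    exact XX_in k₀ k₁ hk Z.toSubfield (fun k => haZ k i) (aeval_mem Z (hθZ i) _)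
      (aeval_mem Z (hθZ i) _) (huZ i) k
  have hφZ : ∀ w : 𝔽, φ w ∈ Z := by
    intro w
    have h1 : (⊤ : IntermediateField K 𝔽) ≤ (Z.restrictScalars K).comap φ := by
      rw [← h.generates, adjoin_le_iff]
      rintro _ (⟨i, rfl⟩ | ⟨v, rfl⟩)
      · exact hθZ i
      · exact hxZ v.1 v.2
    exact h1 trivial
  refine hZ3 _ (alg_map' (RingHom.id D) _ Z ?_ (hD z))
  intro a ha
  induction ha using IntermediateField.adjoin_induction with
  | mem a ha => obtain ⟨v, rfl⟩ := ha; exact hφZ _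
  | algebraMap c => exact Z.algebraMap_mem c
  | add a b _ _ ha hb => rw [map_add]; exact add_mem ha hb
  | inv a _ ha => rw [map_inv₀]; exact inv_mem ha
  | mul a b _ _ ha hb => rw [map_mul]; exact mul_mem ha hb

/-- The parameters are algebraically independent. -/
theorem S2 : AlgebraicIndependent Cf (ze a t x k₀ k₁ φ X₀ Y₀) :=
  Pool.Agent.Zk31.CA.indep_of_alg hη _ le_rfl (S1 h ha k₀ k₁ hk φ X₀ Y₀ hη hD hf hdvd)

omit ha hk hη hD hf hdvd in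
theorem gens_ext {Ω : Type} [Field Ω] [Algebra K Ω] (j1 j2 : 𝔽 →ₐ[K] Ω)
    (h1 : ∀ i, j1 (t i) = j2 (t i))
    (h2 : ∀ i k, j1 (x i k) = j2 (x i k)) (w : 𝔽) : j1 w = j2 w := by
  have hw : w ∈ adjoin K (Set.range t ∪ Set.range fun z : Fin n × κ => x z.1 z.2) := by
    rw [h.generates]; trivial
  induction hw using IntermediateField.adjoin_induction with
  | mem a ha =>
    rcases ha with ⟨i, rfl⟩ | ⟨v, rfl⟩
    · exact h1 i
    · exact h2 _ _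
  | algebraMap c => rw [AlgHom.commutes, AlgHom.commutes]
  | add a b _ _ ha hb => rw [map_add, map_add, ha, hb]
  | inv a _ ha => rw [map_inv₀, map_inv₀, ha]
  | mul a b _ _ ha hb => rw [map_mul, map_mul, ha, hb]

omit h ha hk hη hD hf hdvd in
theorem av_map (ρ : D ≃ₐ[Cf] D) {i j : Fin n} (hij : ρ (φ (t i)) = φ (t j)) (k : κ) :
    ρ (av a t φ k i) = av a t φ k j := by
  have e : ∀ i, av a t φ k i = aeval (φ (t i)) ((a k).map (algebraMap K Cf)) := fun i =>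
    (aeval_map_algebraMap Cf _ _).symm
  rw [e, e, ← hij]
  exact (aeval_algHom_apply (ρ : D →ₐ[Cf] D) _ _).symm

omit h ha hk hη hD hf hdvd in
theorem ae_map (ρ : D ≃ₐ[Cf] D) {i j : Fin n} (hij : ρ (φ (t i)) = φ (t j)) (p : Cf[X]) :
    ρ (aeval (φ (t i)) p) = aeval (φ (t j)) p := by
  rw [← hij]
  exact (aeval_algHom_apply (ρ : D →ₐ[Cf] D) _ _).symm

/-- Automorphisms over the parameters permute the points. -/
theorem S3 (ρ : D ≃ₐ[Cf] D)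
    (hρ : ∀ z, ρ (ze a t x k₀ k₁ φ X₀ Y₀ z) = ze a t x k₀ k₁ φ X₀ Y₀ z) :
    ∃ π : Equiv.Perm (Fin n), ∀ w : 𝔽, ρ (φ w) = φ (π • w) := by
  have hti := φ.injective.comp (inj_t h)
  obtain ⟨π, γ, h1, -⟩ := exists_pi_gamma (K := K) (L := K) (θ := fun i => φ (t i)) hti hf ρ
  have hu : ∀ i k, k ≠ k₀ → ρ (uv a t x k₀ k₁ φ X₀ Y₀ i k) = uv a t x k₀ k₁ φ X₀ Y₀ (π i) k := by
    intro i k hk'
    have h2 := co_spec hti (fun i => uv a t x k₀ k₁ φ X₀ Y₀ i k) i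
    have h3 := co_spec hti (fun i => uv a t x k₀ k₁ φ X₀ Y₀ i k) (π i)
    rw [← h2, ← h3, map_sum]
    refine Finset.sum_congr rfl fun j _ => ?_
    rw [map_mul, map_pow]
    exact congrArg₂ (· * ·) (hρ (⟨k, hk'⟩, j)) (congrArg (· ^ (j : ℕ)) (h1 i))
  have hxi : ∀ i k, ρ (φ (x i k)) = φ (x (π i) k) := by
    intro i k
    rw [x_formula h ha k₀ k₁ hk φ X₀ Y₀ hη hD hf hdvd i, x_formula h ha k₀ k₁ hk φ X₀ Y₀ hη hD hf
      hdvd (π i)]
    refine (XX_map k₀ k₁ (ρ : D →+* D) _ _ _ _ k).trans ?_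
    have h2 : (fun k => (ρ : D →+* D) (av a t φ k i)) = fun k => av a t φ k (π i) :=
      funext fun k => av_map φ ρ (h1 i) k
    have h3 : (ρ : D →+* D) (aeval (φ (t i)) X₀) = aeval (φ (t (π i))) X₀ := ae_map φ ρ (h1 i) _
    have h4 : (ρ : D →+* D) (aeval (φ (t i)) Y₀) = aeval (φ (t (π i))) Y₀ := ae_map φ ρ (h1 i) _
    rw [h2, h3, h4]
    exact XX_congr k₀ k₁ hk _ _ _ (fun k hk' => hu i k hk') k
  refine ⟨π, ?_⟩
  let j1 : 𝔽 →ₐ[K] D := ((ρ.restrictScalars K : D ≃ₐ[K] D) : D →ₐ[K] D).comp φ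
  let j2 : 𝔽 →ₐ[K] D := φ.comp (MulSemiringAction.toAlgHom K 𝔽 π)
  refine gens_ext h j1 j2 (fun i => ?_) (fun i k => ?_)
  · change ρ (φ (t i)) = φ (π • t i)
    rw [h.perm_t, h1]
  · change ρ (φ (x i k)) = φ (π • x i k)
    rw [h.perm_x, hxi]

/-- The field of invariants lies in the field generated by the parameters. -/
theorem S4 [IsAlgClosed D] (b : 𝔽) (hb : ∀ π : Equiv.Perm (Fin n), π • b = b) :
    φ b ∈ adjoin Cf (Set.range (ze a t x k₀ k₁ φ X₀ Y₀)) := by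
  have hS1 := S1 h ha k₀ k₁ hk φ X₀ Y₀ hη hD hf hdvd
  have hch : CharZero (adjoin Cf (Set.range (ze a t x k₀ k₁ φ X₀ Y₀))) := by
    have h1 : CharZero Cf := charZero_of_injective_algebraMap (algebraMap K Cf).injective
    exact charZero_of_injective_algebraMap (algebraMap Cf _).injective
  have halg : Algebra.IsAlgebraic (adjoin Cf (Set.range (ze a t x k₀ k₁ φ X₀ Y₀))) D := ⟨hS1⟩
  have hic : IsAlgClosure (adjoin Cf (Set.range (ze a t x k₀ k₁ φ X₀ Y₀))) D :=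
    ⟨inferInstance, inferInstance⟩
  have hgal : IsGalois (adjoin Cf (Set.range (ze a t x k₀ k₁ φ X₀ Y₀))) D :=
    { to_isSeparable := inferInstance
      to_normal := IsAlgClosure.normal _ D }
  have h1 : φ b ∈ Set.range
      (algebraMap (adjoin Cf (Set.range (ze a t x k₀ k₁ φ X₀ Y₀))) D) := by
    rw [InfiniteGalois.mem_range_algebraMap_iff_fixed]
    intro τ
    obtain ⟨π, hπ⟩ := S3 h ha k₀ k₁ hk φ X₀ Y₀ hη hD hf hdvd (τ.restrictScalars Cf) (fun z =>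
      τ.commutes ⟨ze a t x k₀ k₁ φ X₀ Y₀ z, subset_adjoin _ _ ⟨z, rfl⟩⟩)
    have h2 := hπ b
    rw [hb] at h2
    exact h2
  obtain ⟨w, hw⟩ := h1
  rw [← hw]
  exact w.2

omit ha hk hη hD hf hdvd in
/-- Automorphisms over `Cf` and the invariants fix the parameters. -/
theorem fix_ze (ρ : D ≃ₐ[Cf] D) (π : Equiv.Perm (Fin n)) (hπ : ∀ w : 𝔽, ρ (φ w) = φ (π • w))
    (z : {k : κ // k ≠ k₀} × Fin n) :
    ρ (ze a t x k₀ k₁ φ X₀ Y₀ z) = ze a t x k₀ k₁ φ X₀ Y₀ z := by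
  have hti : Function.Injective fun i => φ (t i) := φ.injective.comp (inj_t h)
  have h1 : ∀ i, ρ (φ (t i)) = φ (t (π i)) := fun i => by rw [hπ, h.perm_t]
  have h2 : ∀ i k, ρ (φ (x i k)) = φ (x (π i) k) := fun i k => by rw [hπ, h.perm_x]
  have h3 : ∀ i, ρ (q0 a t x k₀ k₁ φ X₀ Y₀ i) = q0 a t x k₀ k₁ φ X₀ Y₀ (π i) := by
    intro i
    rw [q0, q0, map_add, map_mul, map_mul, map_mul, map_mul, av_map φ ρ (h1 i),
      av_map φ ρ (h1 i), ae_map φ ρ (h1 i), ae_map φ ρ (h1 i), h2, h2]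
  have h4 : ∀ i, ρ (q1 t x k₀ k₁ φ X₀ Y₀ i) = q1 t x k₀ k₁ φ X₀ Y₀ (π i) := by
    intro i
    rw [q1, q1, map_sub, map_mul, map_mul, ae_map φ ρ (h1 i), ae_map φ ρ (h1 i), h2, h2]
  have h5 : ∀ i k, ρ (uv a t x k₀ k₁ φ X₀ Y₀ i k) = uv a t x k₀ k₁ φ X₀ Y₀ (π i) k := by
    intro i k
    rw [uv, uv, map_mul, map_inv₀, map_add, map_one, h3]
    congr 1
    split_ifs
    · exact h4 i
    · exact h2 i k
  have h6 := co_map (ρ : D →+* D) hti (fun i => uv a t x k₀ k₁ φ X₀ Y₀ i z.1) z.2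
  have h7 := co_perm hti (fun i => uv a t x k₀ k₁ φ X₀ Y₀ i z.1) π
  refine h6.trans ?_
  have h8 : (fun i => (ρ : D →+* D) (φ (t i))) = fun i => φ (t (π i)) := funext h1
  have h9 : (fun i => (ρ : D →+* D) (uv a t x k₀ k₁ φ X₀ Y₀ i z.1)) =
      fun i => uv a t x k₀ k₁ φ X₀ Y₀ (π i) z.1 := funext fun i => h5 i _
  rw [h8, h9]
  exact congrFun h7 z.2

/-- The parameters lie in the compositum of `Cf` and the invariants. -/
theorem S5a [IsAlgClosed D] (z : D) (hz : z ∈ adjoin Cf (Set.range (ze a t x k₀ k₁ φ X₀ Y₀))) :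
    z ∈ (IsScalarTower.toAlgHom K Cf D).fieldRange ⊔
      (FixedPoints.intermediateField (Equiv.Perm (Fin n)) : IntermediateField K 𝔽).map φ := by
  set B : IntermediateField K 𝔽 := FixedPoints.intermediateField (Equiv.Perm (Fin n)) with hB
  let M : IntermediateField K D := (IsScalarTower.toAlgHom K Cf D).fieldRange ⊔ B.map φ
  have hCM : ∀ c : Cf, algebraMap Cf D c ∈ M := fun c =>
    (le_sup_left : _ ≤ M) ⟨c, rfl⟩
  have hBM : ∀ b ∈ B, φ b ∈ M := fun b hb => (le_sup_right : _ ≤ M) ⟨b, hb, rfl⟩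
  let _ : Algebra Cf M := ((algebraMap Cf D).codRestrict M.toSubfield hCM).toAlgebra
  have htow : IsScalarTower Cf M D := IsScalarTower.of_algebraMap_eq fun c => rfl
  have halg : ∀ z : D, IsAlgebraic M z := by
    intro z
    refine alg_map' (RingHom.id D) _ M ?_ (hD z)
    intro a ha
    induction ha using IntermediateField.adjoin_induction with
    | mem a ha => obtain ⟨v, rfl⟩ := ha; exact hBM _ fun π => fixed_uu h k₀ π (Sum.inr v)
    | algebraMap c => exact hCM c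
    | add a b _ _ ha hb => rw [map_add]; exact add_mem ha hb
    | inv a _ ha => rw [map_inv₀]; exact inv_mem ha
    | mul a b _ _ ha hb => rw [map_mul]; exact mul_mem ha hb
  have halg' : Algebra.IsAlgebraic M D := ⟨halg⟩
  have hic : IsAlgClosure M D := ⟨inferInstance, inferInstance⟩
  have hgal : IsGalois M D :=
    { to_isSeparable := inferInstance
      to_normal := IsAlgClosure.normal _ D }
  have hζM : ∀ v, ze a t x k₀ k₁ φ X₀ Y₀ v ∈ M := by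
    intro v
    have h1 : ze a t x k₀ k₁ φ X₀ Y₀ v ∈ Set.range (algebraMap M D) := by
      rw [InfiniteGalois.mem_range_algebraMap_iff_fixed]
      intro τ
      obtain ⟨π, hπ⟩ := aut_of_fix (G := Equiv.Perm (Fin n)) (φ : 𝔽 →+* D) (τ : D ≃+* D)
        (fun b hb => τ.commutes ⟨φ b, hBM b hb⟩)
      exact fix_ze h k₀ k₁ φ X₀ Y₀ (τ.restrictScalars Cf) π hπ v
    obtain ⟨w, hw⟩ := h1
    rw [← hw]
    exact w.2
  change z ∈ M
  induction hz using IntermediateField.adjoin_induction with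
  | mem a ha => obtain ⟨v, rfl⟩ := ha; exact hζM _
  | algebraMap c => exact hCM c
  | add a b _ _ ha hb => exact add_mem ha hb
  | inv a _ ha => exact inv_mem ha
  | mul a b _ _ ha hb => exact mul_mem ha hb

end

end Pool.Agent.Zk31.ES
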