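import Pool.Agent.Zk31.EO
import Pool.Agent.Zk31.ES

/-! Assembly: the function field of a symmetric power of a quadric bundle is realizable. -/

set_option autoImplicit false
set_option linter.unusedSectionVars false
set_option linter.unusedVariables false

namespace Pool.Agent.Zk31.EU

open Polynomial IntermediateField Pool.Agent.Zk31.EVoc Pool.Agent.Zk31.DE Pool.Agent.Zk31.EP
  Pool.Agent.Zk31.EQ Pool.Agent.Zk31.ER Pool.Agent.Zk31.ES Pool.Agent.TH178.HI
open Pool.Agent.Zk31.DF (uu pt exists_emb)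
open Pool.Agent.Zk31.DM (exists_big)

theorem root_t {K 𝔽 D Cf : Type} [Field K] [Field 𝔽] [Algebra K 𝔽] {n : ℕ} {t : Fin n → 𝔽}
    [Field D] [Algebra K D] [Field Cf] [Algebra Cf D] (φ : 𝔽 →ₐ[K] D) {f : Cf[X]} (hmon : f.Monic)
    (hdeg : f.natDegree = n)
    (hc : ∀ j : Fin n, φ ((pt t).coeff j) = algebraMap Cf D (f.coeff j)) :
    f.map (algebraMap Cf D) = ∏ i, (X - C (φ (t i))) := by
  have h1 : (pt t).map (φ : 𝔽 →+* D) = ∏ i, (X - C (φ (t i))) := by
    rw [pt, Polynomial.map_prod]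
    refine Finset.prod_congr rfl fun i _ => ?_
    rw [Polynomial.map_sub, map_X, map_C]
    rfl
  rw [← h1]
  have hmp : (pt t).Monic := monic_prod_of_monic _ _ fun i _ => monic_X_sub_C _
  have hdp : (pt t).natDegree = n := by
    rw [pt, natDegree_prod_of_monic _ _ fun i _ => monic_X_sub_C _]
    simp
  ext j
  rw [coeff_map, coeff_map]
  by_cases hj : j < n
  · exact (hc ⟨j, hj⟩).symm
  · by_cases hj2 : j = n
    · have h2 := hmon.coeff_natDegree
      have h3 := hmp.coeff_natDegree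
      rw [hdeg] at h2
      rw [hdp] at h3
      rw [hj2, h2, h3, map_one, map_one]
    · rw [coeff_eq_zero_of_natDegree_lt (by rw [hdeg]; omega),
        coeff_eq_zero_of_natDegree_lt (by rw [hdp]; omega), map_zero, map_zero]

theorem realizable1 {K κ 𝔽 : Type} [Field K] [CharZero K] [Fintype κ] [DecidableEq κ]
    {a : κ → K[X]} {n : ℕ} [Field 𝔽] [Algebra K 𝔽] [MulSemiringAction (Equiv.Perm (Fin n)) 𝔽]
    [SMulCommClass (Equiv.Perm (Fin n)) K 𝔽] {t : Fin n → 𝔽} {x : Fin n → κ → 𝔽}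
    (h : BundlePower a n t x) (ha : ∀ k, a k ≠ 0) (k₀ k₁ : κ) (hk : k₁ ≠ k₀)
    (Cf : Type) [Field Cf] [Algebra K Cf] (f X₀ Y₀ : Cf[X])
    (hpure : Pure (⊤ : IntermediateField K Cf)) (hmon : f.Monic) (hdeg : f.natDegree = n)
    (hci : AlgebraicIndependent K (fun j : Fin n => f.coeff j))
    (hrel : ∀ z : Cf, IsAlgebraic (adjoin K (Set.range fun j : Fin n => f.coeff j)) z →
      z ∈ adjoin K (Set.range fun j : Fin n => f.coeff j))
    (hdvd : f ∣ (a k₀).map (algebraMap K Cf) * X₀ ^ 2 +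
      (a k₁).map (algebraMap K Cf) * Y₀ ^ 2 - 1) :
    Realizable K (FixedPoints.intermediateField (Equiv.Perm (Fin n)) : IntermediateField K 𝔽) := by
  classical
  obtain ⟨D, _, _, _, v, hv, hvD⟩ := exists_big Cf ({k : κ // k ≠ k₀} × Fin n)
  let _ : Algebra K D := ((algebraMap Cf D).comp (algebraMap K Cf)).toAlgebra
  have ht1 : IsScalarTower K Cf D := IsScalarTower.of_algebraMap_eq fun c => rfl
  let vv : Fin n ⊕ ({k : κ // k ≠ k₀} × Fin n) → D :=
    Sum.elim (fun j => algebraMap Cf D (f.coeff j)) v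
  have hvv : AlgebraicIndependent K vv := by
    have h1 := hci.sumElim_comp hv
    have h2 := h1.comp (Equiv.sumComm _ _) (Equiv.injective _)
    have h3 : (Sum.elim v (algebraMap Cf D ∘ fun j : Fin n => f.coeff j)) ∘
        (Equiv.sumComm (Fin n) ({k : κ // k ≠ k₀} × Fin n)) = vv := by
      funext z
      rcases z with j | z <;> rfl
    rw [← h3]
    exact h2
  obtain ⟨φ, hφ⟩ := exists_emb (uu t x k₀) (indep_uu h ha k₀) (alg_uu h ha k₀) vv hvv
  have hc : ∀ j : Fin n, φ (uu t x k₀ (Sum.inl j)) = algebraMap Cf D (f.coeff j) := fun j =>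
    hφ (Sum.inl j)
  have hφv : (fun z : {k : κ // k ≠ k₀} × Fin n => φ (uu t x k₀ (Sum.inr z))) = v :=
    funext fun z => hφ (Sum.inr z)
  have hη : AlgebraicIndependent Cf
      (fun z : {k : κ // k ≠ k₀} × Fin n => φ (uu t x k₀ (Sum.inr z))) := by rw [hφv]; exact hv
  have hD : ∀ z : D, IsAlgebraic (adjoin Cf
      (Set.range fun z : {k : κ // k ≠ k₀} × Fin n => φ (uu t x k₀ (Sum.inr z)))) z := by
    rw [hφv]; exact hvD
  have hf : f.map (algebraMap Cf D) = ∏ i, (X - C (φ (t i))) := root_t φ hmon hdeg hc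
  have hS2 := S2 h ha k₀ k₁ hk φ X₀ Y₀ hη hD hf hdvd
  set ζ := ze a t x k₀ k₁ φ X₀ Y₀ with hζ
  let B : IntermediateField K 𝔽 := FixedPoints.intermediateField (Equiv.Perm (Fin n))
  let T : IntermediateField K D := (adjoin Cf (Set.range ζ)).restrictScalars K
  have hT : Pure T := by
    obtain ⟨ι, hι, ξ, hξ1, hξ2⟩ := hpure
    refine ⟨({k : κ // k ≠ k₀} × Fin n) ⊕ ι, inferInstance, Sum.elim ζ (algebraMap Cf D ∘ ξ),
      hξ1.sumElim_comp hS2, ?_⟩
    apply le_antisymm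
    · rw [adjoin_le_iff]
      rintro _ ⟨z | i, rfl⟩
      · exact subset_adjoin Cf _ ⟨z, rfl⟩
      · exact (adjoin Cf (Set.range ζ)).algebraMap_mem (ξ i)
    · have hC : ∀ c : Cf, algebraMap Cf D c ∈
          adjoin K (Set.range (Sum.elim ζ (algebraMap Cf D ∘ ξ))) := by
        intro c
        have h1 : (⊤ : IntermediateField K Cf) ≤
            (adjoin K (Set.range (Sum.elim ζ (algebraMap Cf D ∘ ξ)))).comap
              (IsScalarTower.toAlgHom K Cf D) := by
          rw [← hξ2, adjoin_le_iff]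
          rintro _ ⟨i, rfl⟩
          exact subset_adjoin _ _ ⟨Sum.inr i, rfl⟩
        exact h1 trivial
      intro y hy
      have hy' : y ∈ adjoin Cf (Set.range ζ) := hy
      induction hy' using IntermediateField.adjoin_induction with
      | mem a h1 => obtain ⟨z, rfl⟩ := h1; exact subset_adjoin _ _ ⟨Sum.inl z, rfl⟩
      | algebraMap c => exact hC c
      | add a b h3 h4 h1 h2 => exact add_mem (h1 h3) (h2 h4)
      | inv a h3 h1 => exact inv_mem (h1 h3)
      | mul a b h3 h4 h1 h2 => exact mul_mem (h1 h3) (h2 h4)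
  have hfr : (φ.comp B.val).fieldRange = B.map φ := by
    ext y
    constructor
    · rintro ⟨b, rfl⟩
      exact ⟨b, b.2, rfl⟩
    · rintro ⟨b, hb, rfl⟩
      exact ⟨⟨b, hb⟩, rfl⟩
  refine ⟨D, inferInstance, inferInstance, T, φ.comp B.val, hT, ?_, ?_⟩
  · rw [hfr]
    rintro _ ⟨b, hb, rfl⟩
    exact S4 h ha k₀ k₁ hk φ X₀ Y₀ hη hD hf hdvd b hb
  · rw [hfr]
    intro z hz hal
    exact closed_T1 h ha k₀ f hrel φ hc hη z
      (S5a h ha k₀ k₁ hk φ X₀ Y₀ hη hD hf hdvd z hz) hal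

/-- **Symmetric powers of quadric bundles, even degrees.** -/
theorem realizable (K κ : Type) [Field K] [CharZero K] [Fintype κ] [DecidableEq κ]
    (a : κ → K[X]) (ha : ∀ k, a k ≠ 0) (hκ : 2 ≤ Fintype.card κ) :
    ∃ M : ℕ, ∀ n : ℕ, M ≤ n → Even n → ∀ (𝔽 : Type) [Field 𝔽] [Algebra K 𝔽]
      [MulSemiringAction (Equiv.Perm (Fin n)) 𝔽] [SMulCommClass (Equiv.Perm (Fin n)) K 𝔽]
      (t : Fin n → 𝔽) (x : Fin n → κ → 𝔽), BundlePower a n t x →
      Realizable K
        (FixedPoints.intermediateField (Equiv.Perm (Fin n)) : IntermediateField K 𝔽) := by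
  obtain ⟨k₁, k₀, hk⟩ := Fintype.exists_pair_of_one_lt_card (α := κ) (by omega)
  obtain ⟨M, hM⟩ := Pool.Agent.Zk31.EO.ml K (a k₀) (a k₁) (ha k₀) (ha k₁)
  refine ⟨M, ?_⟩
  intro n hn he 𝔽 _ _ _ _ t x h
  obtain ⟨Cf, _, _, f, X₀, Y₀, hpure, hmon, hdeg, hci, hrel, hdvd⟩ := hM n hn he
  exact realizable1 h ha k₀ k₁ hk Cf f X₀ Y₀ hpure hmon hdeg hci hrel hdvd

end Pool.Agent.Zk31.EU
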