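import Mathlib

/-! The function field of a power of a quadric bundle over the line. -/

set_option autoImplicit false

namespace Pool.Agent.Zk31.EVoc

open Polynomial IntermediateField

/-- Let `a_k ∈ K[t]`, `k ∈ κ`, be nonzero polynomials, `κ` finite with at least two elements, and let
`X` be the affine variety `∑ a_k(t) x_k ^ 2 = 1` (in the variables `t` and `x_k`, `k ∈ κ`); if
the characteristic of `K` is not `2`, it is geometrically integral, of dimension `|κ|`. By the
projection to `t` it is a bundle of quadrics over the line (a bundle of conics if `|κ| = 2`). The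
structure says that `𝔽` is the function field of `X^n`, that is, that `(t_i, x_i)_{i < n}` is a
generic point of `X^n` over `K` with `𝔽 = K(t_1, x_1, ..., t_n, x_n)`, and that the symmetric group
`S_n` acts on `𝔽` by the permutations of the `n` points. So the field of invariants of `S_n` in `𝔽`
is the function field of the symmetric power `Sym^n X`. -/
structure BundlePower {K κ 𝔽 : Type} [Field K] [Fintype κ] (a : κ → K[X]) (n : ℕ) [Field 𝔽]
    [Algebra K 𝔽] [MulSemiringAction (Equiv.Perm (Fin n)) 𝔽] (t : Fin n → 𝔽)
    (x : Fin n → κ → 𝔽) : Prop where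
  equation : ∀ i, ∑ k, aeval (t i) (a k) * x i k ^ 2 = 1
  generates : adjoin K (Set.range t ∪ Set.range fun z : Fin n × κ => x z.1 z.2) = ⊤
  dimension : Algebra.trdeg K 𝔽 = (n * Fintype.card κ : ℕ)
  perm_t : ∀ (π : Equiv.Perm (Fin n)) (i : Fin n), π • t i = t (π i)
  perm_x : ∀ (π : Equiv.Perm (Fin n)) (i : Fin n) (k : κ), π • x i k = x (π i) k

end Pool.Agent.Zk31.EVoc
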