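import Pool.Agent.Zk31.FA
import Pool.Agent.Zk31.EI

/-! The section with two blocks of different sizes. -/

set_option autoImplicit false
set_option linter.unusedSectionVars false

namespace Pool.Agent.Zk31.FB

open Polynomial Pool.Agent.Zk31.EA Pool.Agent.Zk31.EB Pool.Agent.Zk31.FA
open Pool.Agent.Zk31.EG (n1' n1'_monic)

/-- the polynomial ring in the roots -/
abbrev R2 (L : Type) [Field L] (p q : ℕ) : Type := MvPolynomial (II p q) L

section

variable (L : Type) [Field L] [CharZero L] (p q : ℕ)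

/-- the first factor -/
noncomputable def u2 : (R2 L p q)[X] := ∏ i : Fin p, (X - C (MvPolynomial.X (Sum.inl i)))

/-- the second factor -/
noncomputable def v2 : (R2 L p q)[X] := ∏ i : Fin q, (X - C (MvPolynomial.X (Sum.inr i)))

theorem pe_eq : pe L (Finset.univ : Finset (II p q)) = u2 L p q * v2 L p q := by
  rw [pe, Fintype.prod_sum_type]; rfl

theorem u2_monic : (u2 L p q).Monic ∧ (u2 L p q).natDegree = p := by
  refine ⟨monic_prod_of_monic _ _ fun i _ => monic_X_sub_C _, ?_⟩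
  rw [u2, natDegree_prod_of_monic _ _ fun i _ => monic_X_sub_C _]
  simp

theorem v2_monic : (v2 L p q).Monic ∧ (v2 L p q).natDegree = q := by
  refine ⟨monic_prod_of_monic _ _ fun i _ => monic_X_sub_C _, ?_⟩
  rw [v2, natDegree_prod_of_monic _ _ fun i _ => monic_X_sub_C _]
  simp

variable {L}

/-- polynomials over `L` as polynomials over the polynomial ring -/
noncomputable def jj (r : L[X]) : (R2 L p q)[X] := r.map (algebraMap L (R2 L p q))

theorem jj_mul (r s : L[X]) : jj p q (r * s) = jj p q r * jj p q s := Polynomial.map_mul _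
theorem jj_add (r s : L[X]) : jj p q (r + s) = jj p q r + jj p q s := Polynomial.map_add _
theorem jj_sub (r s : L[X]) : jj p q (r - s) = jj p q r - jj p q s := Polynomial.map_sub _
theorem jj_neg (r : L[X]) : jj p q (-r) = - jj p q r := Polynomial.map_neg _
theorem jj_one : jj p q (1 : L[X]) = 1 := Polynomial.map_one _
theorem jj_zero : jj p q (0 : L[X]) = 0 := Polynomial.map_zero _
theorem jj_two : jj p q (2 : L[X]) = 2 := Polynomial.map_ofNat _ _

theorem jj_dvd {r s : L[X]} (h : r ∣ s) : jj p q r ∣ jj p q s := by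
  obtain ⟨w, rfl⟩ := h
  rw [jj_mul]; exact dvd_mul_right _ _

theorem algMap_inj : Function.Injective (algebraMap L (R2 L p q)) := MvPolynomial.C_injective _ _

theorem jj_natDegree (r : L[X]) : (jj p q r).natDegree = r.natDegree :=
  natDegree_map_eq_of_injective (algMap_inj p q) r

theorem jj_ne {r : L[X]} (hr : r ≠ 0) : jj p q r ≠ 0 := by
  rwa [jj, Ne, Polynomial.map_eq_zero_iff (algMap_inj p q)]

theorem jj_monic {r : L[X]} (hr : r.Monic) : (jj p q r).Monic := hr.map _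

variable (f₁ f₂ : L[X])

/-- the first factor -/
noncomputable def UU : (R2 L p q)[X] := jj p q f₁ * u2 L p q
/-- the second factor -/
noncomputable def VV : (R2 L p q)[X] := jj p q f₂ * v2 L p q

/-- half the difference -/
noncomputable def Y2 : (R2 L p q)[X] :=
  C (MvPolynomial.C (1 / 2 : L)) * (UU p q f₁ - VV p q f₂)

/-- half the sum -/
noncomputable def S2 : (R2 L p q)[X] :=
  C (MvPolynomial.C (1 / 2 : L)) * (UU p q f₁ + VV p q f₂)

theorem half_two : (C (MvPolynomial.C (1 / 2 : L)) : (R2 L p q)[X]) * 2 = 1 := by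
  have h1 : (2 : (R2 L p q)[X]) = C (MvPolynomial.C (2 : L)) := by
    rw [map_ofNat, map_ofNat]
  rw [h1, ← C_mul, ← MvPolynomial.C_mul]
  norm_num

theorem sq_sub : S2 p q f₁ f₂ ^ 2 - Y2 p q f₁ f₂ ^ 2 = UU p q f₁ * VV p q f₂ := by
  have h := half_two (L := L) p q
  rw [S2, Y2]
  have h2 : (C (MvPolynomial.C (1 / 2 : L)) : (R2 L p q)[X]) ^ 2 * 4 = 1 := by
    calc (C (MvPolynomial.C (1 / 2 : L)) : (R2 L p q)[X]) ^ 2 * 4 =
        (C (MvPolynomial.C (1 / 2 : L)) * 2) ^ 2 := by ring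
      _ = 1 := by rw [h, one_pow]
  linear_combination (UU p q f₁ * VV p q f₂) * h2

theorem two_S : 2 * S2 p q f₁ f₂ = UU p q f₁ + VV p q f₂ := by
  rw [S2]
  linear_combination (UU p q f₁ + VV p q f₂) * half_two (L := L) p q

theorem two_Y : 2 * Y2 p q f₁ f₂ = UU p q f₁ - VV p q f₂ := by
  rw [Y2]
  linear_combination (UU p q f₁ - VV p q f₂) * half_two (L := L) p q

variable {f₁ f₂} (h₁ : f₁.Monic) (h₂ : f₂.Monic) (m : ℕ) (hp : p + f₁.natDegree = m)
  (hq : q + f₂.natDegree = m)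

include h₁ hp in
theorem UU_monic : (UU p q f₁).Monic ∧ (UU p q f₁).natDegree = m := by
  obtain ⟨h3, h4⟩ := u2_monic L p q
  have h5 := jj_monic p q h₁
  refine ⟨h5.mul h3, ?_⟩
  rw [UU, h5.natDegree_mul h3, h4, jj_natDegree]; omega

include h₂ hq in
theorem VV_monic : (VV p q f₂).Monic ∧ (VV p q f₂).natDegree = m := by
  obtain ⟨h3, h4⟩ := v2_monic L p q
  have h5 := jj_monic p q h₂
  refine ⟨h5.mul h3, ?_⟩
  rw [VV, h5.natDegree_mul h3, h4, jj_natDegree]; omega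

include h₁ h₂ hp hq

theorem coeff_UV : (UU p q f₁).coeff m = 1 ∧ (VV p q f₂).coeff m = 1 := by
  have h3 := (UU_monic p q h₁ m hp).1.coeff_natDegree
  have h4 := (VV_monic p q h₂ m hq).1.coeff_natDegree
  rw [(UU_monic p q h₁ m hp).2] at h3
  rw [(VV_monic p q h₂ m hq).2] at h4
  exact ⟨h3, h4⟩

theorem Y2_natDegree (hm : 0 < m) : (Y2 p q f₁ f₂).natDegree ≤ m - 1 := by
  rw [natDegree_le_iff_coeff_eq_zero]
  intro N hN
  rw [Y2, coeff_C_mul, coeff_sub]
  rcases Nat.lt_or_ge m N with h | h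
  · rw [coeff_eq_zero_of_natDegree_lt (by rw [(UU_monic p q h₁ m hp).2]; exact h),
      coeff_eq_zero_of_natDegree_lt (by rw [(VV_monic p q h₂ m hq).2]; exact h), sub_zero, mul_zero]
  · have h1 : N = m := by omega
    rw [h1, (coeff_UV p q h₁ h₂ m hp hq).1, (coeff_UV p q h₁ h₂ m hp hq).2, sub_self, mul_zero]

theorem S2_monic (hm : 0 < m) : (S2 p q f₁ f₂).Monic ∧ (S2 p q f₁ f₂).natDegree = m := by
  have h3 : S2 p q f₁ f₂ = UU p q f₁ - Y2 p q f₁ f₂ := by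
    have h := half_two (L := L) p q
    rw [S2, Y2]
    linear_combination (UU p q f₁) * h
  obtain ⟨h4, h5⟩ := UU_monic p q h₁ m hp
  have h6 := Y2_natDegree p q h₁ h₂ m hp hq hm
  have h7 : (Y2 p q f₁ f₂).degree < (UU p q f₁).degree := by
    rw [degree_eq_natDegree h4.ne_zero, h5]
    refine lt_of_le_of_lt degree_le_natDegree ?_
    have : (Y2 p q f₁ f₂).natDegree < m := by omega
    exact_mod_cast this
  refine ⟨?_, ?_⟩
  · rw [h3]; exact h4.sub_of_left h7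
  · rw [h3, natDegree_sub_eq_left_of_natDegree_lt]
    · exact h5
    · rw [h5]; omega

omit h₁ h₂ hp hq

variable (f₁ f₂) (kp : L[X]) (c₀ : L) (ν₁ n₁ : L[X])

/-- the quotient -/
noncomputable def hh : (R2 L p q)[X] :=
  C (MvPolynomial.C (f₂ * n₁).leadingCoeff⁻¹) *
    ((Y2 p q f₁ f₂ * jj p q ν₁ + jj p q kp * UU p q f₁ * jj p q n₁) /ₘ jj p q (n1' (f₂ * n₁)))

/-- the coefficient -/
noncomputable def g2 : (R2 L p q)[X] :=
  jj p q kp * UU p q f₁ + jj p q f₂ * (C (MvPolynomial.C c₀) - hh p q f₁ f₂ kp ν₁ n₁)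

/-- a coordinate of the section -/
noncomputable def sk (ν n : L[X]) : (R2 L p q)[X] :=
  Y2 p q f₁ f₂ * jj p q ν + g2 p q f₁ f₂ kp c₀ ν₁ n₁ * jj p q n

variable {f₁ f₂}

theorem s1_eq (hn : f₂ * n₁ ≠ 0) : sk p q f₁ f₂ kp c₀ ν₁ n₁ ν₁ n₁ =
    (Y2 p q f₁ f₂ * jj p q ν₁ + jj p q kp * UU p q f₁ * jj p q n₁) %ₘ jj p q (n1' (f₂ * n₁)) +
      C (MvPolynomial.C c₀) * jj p q (f₂ * n₁) := by
  have h1 : (jj p q (n1' (f₂ * n₁))).Monic := (n1'_monic (f₂ * n₁) hn).1.map _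
  rw [modByMonic_eq_sub_mul_div, sk, g2, hh]
  have h2 : jj p q (n1' (f₂ * n₁)) = C (MvPolynomial.C (f₂ * n₁).leadingCoeff⁻¹) *
      jj p q (f₂ * n₁) := by
    rw [n1', jj_mul]
    congr 1
    rw [jj, map_C]; rfl
  have h3 : jj p q (f₂ * n₁) = jj p q f₂ * jj p q n₁ := jj_mul p q _ _
  rw [h2, h3]
  ring

theorem s1_natDegree (hn : f₂ * n₁ ≠ 0) :
    (sk p q f₁ f₂ kp c₀ ν₁ n₁ ν₁ n₁).natDegree ≤ (f₂ * n₁).natDegree := by
  obtain ⟨h1, h2⟩ := n1'_monic (f₂ * n₁) hn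
  rw [s1_eq p q kp c₀ ν₁ n₁ hn]
  refine (natDegree_add_le _ _).trans (max_le ?_ ?_)
  · have h4 := natDegree_modByMonic_le
      (Y2 p q f₁ f₂ * jj p q ν₁ + jj p q kp * UU p q f₁ * jj p q n₁)
      (h1.map (algebraMap L (R2 L p q)))
    refine h4.trans ?_
    change (jj p q (n1' (f₂ * n₁))).natDegree ≤ _
    rw [jj_natDegree, h2]
  · refine natDegree_mul_le.trans ?_
    rw [natDegree_C, zero_add, jj_natDegree]

include h₁ h₂ hp hq in
/-- The degree of the other coordinates. -/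
theorem sk_degree (hm : 0 < m) (hf : f₂ ≠ 0) (hn : n₁ ≠ 0) (ν n c : L[X]) (W : ℕ)
    (hid : ν * n₁ - ν₁ * n = c) (hc : c = 0 ∨ 2 * c.natDegree + W ≤ 2 * n₁.natDegree)
    (hnW : 2 * (n.natDegree + f₂.natDegree) + W < 2 * m) :
    sk p q f₁ f₂ kp c₀ ν₁ n₁ ν n = 0 ∨
      2 * (sk p q f₁ f₂ kp c₀ ν₁ n₁ ν n).natDegree + W < 2 * m := by
  by_cases h0 : sk p q f₁ f₂ kp c₀ ν₁ n₁ ν n = 0
  · left; exact h0
  right
  have h1 : jj p q n₁ * sk p q f₁ f₂ kp c₀ ν₁ n₁ ν n =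
      Y2 p q f₁ f₂ * jj p q c + jj p q n * sk p q f₁ f₂ kp c₀ ν₁ n₁ ν₁ n₁ := by
    rw [← hid, jj_sub, jj_mul, jj_mul, sk, sk]; ring
  have h2 : (jj p q n₁ * sk p q f₁ f₂ kp c₀ ν₁ n₁ ν n).natDegree =
      n₁.natDegree + (sk p q f₁ f₂ kp c₀ ν₁ n₁ ν n).natDegree := by
    rw [natDegree_mul (jj_ne p q hn) h0, jj_natDegree]
  have h3 : (jj p q n * sk p q f₁ f₂ kp c₀ ν₁ n₁ ν₁ n₁).natDegree ≤
      n.natDegree + (f₂.natDegree + n₁.natDegree) := by
    refine natDegree_mul_le.trans (add_le_add (jj_natDegree p q n).le ?_)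
    rw [← natDegree_mul hf hn]
    exact s1_natDegree p q kp c₀ ν₁ n₁ (mul_ne_zero hf hn)
  rcases hc with hc | hc
  · rw [h1, hc, jj_zero, mul_zero, zero_add] at h2
    omega
  · have h4 : (Y2 p q f₁ f₂ * jj p q c).natDegree ≤ (m - 1) + c.natDegree := by
      refine natDegree_mul_le.trans (add_le_add (Y2_natDegree p q h₁ h₂ m hp hq hm)
        (jj_natDegree p q c).le)
    have h5 : (jj p q n₁ * sk p q f₁ f₂ kp c₀ ν₁ n₁ ν n).natDegree ≤
        max ((m - 1) + c.natDegree) (n.natDegree + (f₂.natDegree + n₁.natDegree)) := by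
      rw [h1]
      exact (natDegree_add_le _ _).trans (max_le_max h4 h3)
    rw [h2] at h5
    rcases le_max_iff.mp h5 with h6 | h6 <;> omega

theorem s1_degree (hn : f₂ * n₁ ≠ 0) (W : ℕ) (hnW : 2 * (f₂ * n₁).natDegree + W < 2 * m) :
    2 * (sk p q f₁ f₂ kp c₀ ν₁ n₁ ν₁ n₁).natDegree + W < 2 * m := by
  have h1 := s1_natDegree p q (f₁ := f₁) kp c₀ ν₁ n₁ hn
  omega

/-- The norm. -/
theorem norm_sk (al be ga x y z A1 A2 A3 : L[X]) (hiso : al * x ^ 2 + be * y ^ 2 + ga * z ^ 2 = 0)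
    (huni : al * x * A1 + be * y * A2 + ga * z * A3 = 1) :
    S2 p q f₁ f₂ ^ 2 +
      jj p q (be * ga) * sk p q f₁ f₂ kp c₀ ν₁ n₁ (y * A3 - z * A2) (al * x) ^ 2 +
      jj p q (ga * al) * sk p q f₁ f₂ kp c₀ ν₁ n₁ (z * A1 - x * A3) (be * y) ^ 2 +
      jj p q (al * be) * sk p q f₁ f₂ kp c₀ ν₁ n₁ (x * A2 - y * A1) (ga * z) ^ 2 =
      UU p q f₁ * VV p q f₂ := by
  have h1 := congrArg (jj p q) hiso
  have h2 := congrArg (jj p q) huni
  simp only [jj_add, jj_mul, jj_one, jj_zero, pow_two] at h1 h2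
  rw [← sq_sub]
  simp only [sk, jj_mul, jj_sub, pow_two]
  set a := jj p q al
  set b := jj p q be
  set c := jj p q ga
  set x' := jj p q x
  set y' := jj p q y
  set z' := jj p q z
  set P := jj p q A1
  set Q := jj p q A2
  set T := jj p q A3
  set Y := Y2 p q f₁ f₂
  set g := g2 p q f₁ f₂ kp c₀ ν₁ n₁
  have h3 : b * c * (y' * T - z' * Q) ^ 2 + c * a * (z' * P - x' * T) ^ 2 +
      a * b * (x' * Q - y' * P) ^ 2 = -1 := by
    have h4 : b * c * (y' * T - z' * Q) ^ 2 + c * a * (z' * P - x' * T) ^ 2 +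
        a * b * (x' * Q - y' * P) ^ 2 = (a * (x' * x') + b * (y' * y') + c * (z' * z')) *
        (a * P ^ 2 + b * Q ^ 2 + c * T ^ 2) - (a * x' * P + b * y' * Q + c * z' * T) ^ 2 := by
      ring
    rw [h4, h1, h2]; ring
  linear_combination Y ^ 2 * h3 + g ^ 2 * (a * b * c) * h1

end

end Pool.Agent.Zk31.FB
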