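import Pool.Agent.Zk31.FB

/-! Membership of the section in the lattice. -/

set_option autoImplicit false
set_option linter.unusedSectionVars false

namespace Pool.Agent.Zk31.FC

open Polynomial Pool.Agent.Zk31.FB

section alg

variable {L : Type} [Field L] [CharZero L] (al be ga x y z A1 A2 A3 r s : L[X])

/-- the bilinear form of the two isotropic vectors -/
noncomputable def b0 : L[X] := al * x + be * r * y + ga * s * z
/-- a determinant -/
noncomputable def dl0 : L[X] := (y * A3 - z * A2) + r * (z * A1 - x * A3) + s * (x * A2 - y * A1)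
/-- a coefficient -/
noncomputable def ep : L[X] := ga * s * (z * A1 - x * A3) - be * r * (x * A2 - y * A1)
/-- a coefficient -/
noncomputable def om : L[X] := be * ga * (s * y - r * z)

variable {al be ga x y z A1 A2 A3 r s}

theorem exists_split (hiso : al * x ^ 2 + be * y ^ 2 + ga * z ^ 2 = 0) {f : L[X]} (hf : f.Monic)
    (hsq : Squarefree f) (hca : IsCoprime f al) (hcb : IsCoprime f be) (hcg : IsCoprime f ga)
    (hP : f ∣ al + be * r ^ 2 + ga * s ^ 2) :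
    ∃ f₁ f₂ kp : L[X], f₁.Monic ∧ f₂.Monic ∧ f = f₁ * f₂ ∧ IsCoprime f₁ f₂ ∧
      f₁ ∣ y - x * r ∧ f₁ ∣ z - x * s ∧ IsCoprime (b0 al be ga x y z r s) f₂ ∧
      f₂ ∣ 2 * kp * b0 al be ga x y z r s + dl0 x y z A1 A2 A3 r s := by
  classical
  set b := b0 al be ga x y z r s with hb
  let d := EuclideanDomain.gcd f b
  have hd0 : d ≠ 0 := by
    intro h
    exact hf.ne_zero (EuclideanDomain.gcd_eq_zero_iff.mp h).1
  have hlc : d.leadingCoeff⁻¹ ≠ 0 := inv_ne_zero (leadingCoeff_ne_zero.mpr hd0)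
  let f₁ := d * C d.leadingCoeff⁻¹
  have hf₁ : f₁.Monic := monic_mul_leadingCoeff_inv hd0
  have hu : IsUnit (C d.leadingCoeff⁻¹) := isUnit_C.mpr (isUnit_iff_ne_zero.mpr hlc)
  have hf₁d : ∀ w, f₁ ∣ w ↔ d ∣ w := fun w => hu.mul_right_dvd
  have hdf₁ : ∀ w, w ∣ d → w ∣ f₁ := fun w hw => hw.mul_right _
  obtain ⟨f₂, hf₂⟩ := (hf₁d f).mpr (EuclideanDomain.gcd_dvd_left f b)
  have hb₁ : f₁ ∣ b := (hf₁d b).mpr (EuclideanDomain.gcd_dvd_right f b)
  have hm₂ : f₂.Monic := hf₁.of_mul_monic_left (hf₂ ▸ hf)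
  have hsq2 : Squarefree (f₁ * f₂) := hf₂ ▸ hsq
  have hco : IsCoprime f₁ f₂ := (squarefree_mul_iff.mp hsq2).1.isCoprime
  have hrad : IsRadical f₁ := (squarefree_mul_iff.mp hsq2).2.1.isRadical
  have hfP : f₁ ∣ al + be * r ^ 2 + ga * s ^ 2 := (hf₂ ▸ dvd_mul_right f₁ f₂ : f₁ ∣ f).trans hP
  have hfa : IsCoprime f₁ al := IsCoprime.of_mul_left_left (hf₂ ▸ hca)
  have hfb : IsCoprime f₁ be := IsCoprime.of_mul_left_left (hf₂ ▸ hcb)
  have hfg : IsCoprime f₁ ga := IsCoprime.of_mul_left_left (hf₂ ▸ hcg)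
  have hcob : IsCoprime b f₂ := by
    refine isCoprime_of_prime_dvd (fun h => hm₂.ne_zero h.2) ?_
    intro p hp h1 h2
    have h3 : p ∣ f := by rw [hf₂]; exact h2.mul_left _
    have h4 : p ∣ f₁ := hdf₁ p (EuclideanDomain.dvd_gcd h3 h1)
    exact hp.not_isUnit (hco.isUnit_of_dvd' h4 h2)
  have hE2 : f₁ ∣ b - x * (al + be * r ^ 2 + ga * s ^ 2) := dvd_sub hb₁ (hfP.mul_left _)
  have hE1 : f₁ ∣ 0 - 2 * x * b + x ^ 2 * (al + be * r ^ 2 + ga * s ^ 2) :=
    dvd_add (dvd_sub (dvd_zero _) (hb₁.mul_left _)) (hfP.mul_left _)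
  have hz : f₁ ∣ z - x * s := by
    apply hrad 2
    refine (hfa.mul_right hfg).dvd_of_dvd_mul_left ?_
    have h1 : al * ga * (z - x * s) ^ 2 =
        (al + be * r ^ 2 + ga * s ^ 2) * (ga * (z - x * s) ^ 2) -
        (0 - 2 * x * b + x ^ 2 * (al + be * r ^ 2 + ga * s ^ 2)) * (be * r ^ 2) +
        (b - x * (al + be * r ^ 2 + ga * s ^ 2)) *
          ((b - x * (al + be * r ^ 2 + ga * s ^ 2)) - 2 * ga * s * (z - x * s)) := by
      rw [hb, b0]
      linear_combination (-(be * r ^ 2)) * hiso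
    rw [h1]
    exact dvd_add (dvd_sub (hfP.mul_right _) (hE1.mul_right _)) (hE2.mul_right _)
  have hy : f₁ ∣ y - x * r := by
    apply hrad 2
    refine hfb.dvd_of_dvd_mul_left ?_
    have h1 : be * (y - x * r) ^ 2 =
        (0 - 2 * x * b + x ^ 2 * (al + be * r ^ 2 + ga * s ^ 2)) -
        (z - x * s) * (ga * (z - x * s)) := by
      rw [hb, b0]
      linear_combination hiso
    rw [h1]
    exact dvd_sub hE1 (hz.mul_right _)
  obtain ⟨u, v, huv⟩ := id hcob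
  refine ⟨f₁, f₂, C (1 / 2) * (- dl0 x y z A1 A2 A3 r s * u), hf₁, hm₂, hf₂, hco, hy, hz, hcob,
    ?_⟩
  have h2 : (2 : L[X]) * C (1 / 2) = 1 := by
    have h3 : (2 : L[X]) = C (2 : L) := (map_ofNat C 2).symm
    rw [h3, ← C_mul]; norm_num
  refine ⟨dl0 x y z A1 A2 A3 r s * v, ?_⟩
  linear_combination (- dl0 x y z A1 A2 A3 r s * u * b) * h2 - (dl0 x y z A1 A2 A3 r s) * huv

theorem dvd_dl {f₁ : L[X]} (hy : f₁ ∣ y - x * r) (hz : f₁ ∣ z - x * s) :
    f₁ ∣ dl0 x y z A1 A2 A3 r s := by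
  have h1 : dl0 x y z A1 A2 A3 r s = (y - x * r) * (A3 - s * A1) + (z - x * s) * (r * A1 - A2) := by
    rw [dl0]; ring
  rw [h1]
  exact dvd_add (hy.mul_right _) (hz.mul_right _)

theorem dvd_b0 {f₁ : L[X]} (hy : f₁ ∣ y - x * r) (hz : f₁ ∣ z - x * s)
    (hP : f₁ ∣ al + be * r ^ 2 + ga * s ^ 2) : f₁ ∣ b0 al be ga x y z r s := by
  have h1 : b0 al be ga x y z r s = (al + be * r ^ 2 + ga * s ^ 2) * x + (y - x * r) * (be * r) +
      (z - x * s) * (ga * s) := by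
    rw [b0]; ring
  rw [h1]
  exact dvd_add (dvd_add (hP.mul_right _) (hy.mul_right _)) (hz.mul_right _)

theorem dvd_om {f₁ : L[X]} (hy : f₁ ∣ y - x * r) (hz : f₁ ∣ z - x * s) :
    f₁ ∣ om be ga y z r s := by
  have h1 : om be ga y z r s = (y - x * r) * (be * ga * s) - (z - x * s) * (be * ga * r) := by
    rw [om]; ring
  rw [h1]
  exact dvd_sub (hy.mul_right _) (hz.mul_right _)

theorem dvd_ep {f₁ : L[X]} (huni : al * x * A1 + be * y * A2 + ga * z * A3 = 1)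
    (hy : f₁ ∣ y - x * r) (hz : f₁ ∣ z - x * s)
    (hP : f₁ ∣ al + be * r ^ 2 + ga * s ^ 2) : f₁ ∣ 1 + ep be ga x y z A1 A2 A3 r s := by
  have h1 : 1 + ep be ga x y z A1 A2 A3 r s = b0 al be ga x y z r s * A1 +
      (y - x * r) * (be * A2) + (z - x * s) * (ga * A3) := by
    rw [ep, b0]; linear_combination -huni
  rw [h1]
  exact dvd_add (dvd_add ((dvd_b0 hy hz hP).mul_right _) (hy.mul_right _)) (hz.mul_right _)

theorem dvd_last {f₂ kp : L[X]} (hiso : al * x ^ 2 + be * y ^ 2 + ga * z ^ 2 = 0)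
    (huni : al * x * A1 + be * y * A2 + ga * z * A3 = 1)
    (hP : f₂ ∣ al + be * r ^ 2 + ga * s ^ 2) (hco : IsCoprime (b0 al be ga x y z r s) f₂)
    (hk : f₂ ∣ 2 * kp * b0 al be ga x y z r s + dl0 x y z A1 A2 A3 r s) :
    f₂ ∣ 1 - ep be ga x y z A1 A2 A3 r s - 2 * kp * om be ga y z r s := by
  refine hco.symm.dvd_of_dvd_mul_left ?_
  have h1 : b0 al be ga x y z r s *
      (1 - ep be ga x y z A1 A2 A3 r s - 2 * kp * om be ga y z r s) =
      (al + be * r ^ 2 + ga * s ^ 2) * x -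
        (2 * kp * b0 al be ga x y z r s + dl0 x y z A1 A2 A3 r s) * om be ga y z r s := by
    rw [b0, ep, om, dl0]
    linear_combination (al * A1 - A1 * (al + be * r ^ 2 + ga * s ^ 2) + be * r * A2 +
      ga * s * A3) * hiso + (x * (al + be * r ^ 2 + ga * s ^ 2) -
      (al * x + be * r * y + ga * s * z)) * huni
  rw [h1]
  exact dvd_sub (hP.mul_right _) (hk.mul_right _)

end alg

section mem

variable {L : Type} [Field L] [CharZero L] (p q : ℕ) {al be ga x y z A1 A2 A3 r s : L[X]}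
  {f₁ f₂ kp : L[X]} (c₀ : L) (ν₁ n₁ : L[X])
  (hiso : al * x ^ 2 + be * y ^ 2 + ga * z ^ 2 = 0)
  (huni : al * x * A1 + be * y * A2 + ga * z * A3 = 1)
  (hP : f₁ * f₂ ∣ al + be * r ^ 2 + ga * s ^ 2) (hcop : IsCoprime f₁ f₂)
  (hy : f₁ ∣ y - x * r) (hz : f₁ ∣ z - x * s) (hco : IsCoprime (b0 al be ga x y z r s) f₂)
  (hk : f₂ ∣ 2 * kp * b0 al be ga x y z r s + dl0 x y z A1 A2 A3 r s)

theorem two_unit {T g : (R2 L p q)[X]} (h : g ∣ 2 * T) : g ∣ T := by
  have h1 : T = (2 * T) * C (MvPolynomial.C (1 / 2 : L)) := by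
    linear_combination (- T) * half_two (L := L) p q
  rw [h1]
  exact h.mul_right _

include hcop in
theorem both {T : (R2 L p q)[X]} (h1 : jj p q f₁ ∣ 2 * T) (h2 : jj p q f₂ ∣ 2 * T) :
    jj p q (f₁ * f₂) ∣ T := by
  apply two_unit
  rw [jj_mul]
  exact (hcop.map (mapRingHom (algebraMap L (R2 L p q)))).mul_dvd h1 h2

include hP hcop hy hz hk in
theorem mem1 : jj p q (f₁ * f₂) ∣
    sk p q f₁ f₂ kp c₀ ν₁ n₁ (y * A3 - z * A2) (al * x) +
      jj p q r * sk p q f₁ f₂ kp c₀ ν₁ n₁ (z * A1 - x * A3) (be * y) +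
      jj p q s * sk p q f₁ f₂ kp c₀ ν₁ n₁ (x * A2 - y * A1) (ga * z) := by
  have hP1 : f₁ ∣ al + be * r ^ 2 + ga * s ^ 2 := (dvd_mul_right _ _).trans hP
  have e : 2 * (sk p q f₁ f₂ kp c₀ ν₁ n₁ (y * A3 - z * A2) (al * x) +
      jj p q r * sk p q f₁ f₂ kp c₀ ν₁ n₁ (z * A1 - x * A3) (be * y) +
      jj p q s * sk p q f₁ f₂ kp c₀ ν₁ n₁ (x * A2 - y * A1) (ga * z)) =
      UU p q f₁ * jj p q (2 * kp * b0 al be ga x y z r s + dl0 x y z A1 A2 A3 r s) -
      VV p q f₂ * jj p q (dl0 x y z A1 A2 A3 r s) +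
      jj p q f₂ * (2 * (C (MvPolynomial.C c₀) - hh p q f₁ f₂ kp ν₁ n₁)) *
        jj p q (b0 al be ga x y z r s) := by
    have h2 := two_Y p q f₁ f₂
    simp only [sk, g2, b0, dl0, jj_add, jj_mul, jj_sub, jj_two]
    linear_combination ((jj p q y * jj p q A3 - jj p q z * jj p q A2) +
      jj p q r * (jj p q z * jj p q A1 - jj p q x * jj p q A3) +
      jj p q s * (jj p q x * jj p q A2 - jj p q y * jj p q A1)) * h2
  apply both p q hcop
  · rw [e]
    refine dvd_add (dvd_sub ?_ ?_) ?_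
    · exact (dvd_mul_right _ _ : jj p q f₁ ∣ UU p q f₁).mul_right _
    · exact (jj_dvd p q (dvd_dl hy hz)).mul_left _
    · exact (jj_dvd p q (dvd_b0 hy hz hP1)).mul_left _
  · rw [e]
    refine dvd_add (dvd_sub ?_ ?_) ?_
    · exact (jj_dvd p q hk).mul_left _
    · exact (dvd_mul_right _ _ : jj p q f₂ ∣ VV p q f₂).mul_right _
    · exact (dvd_mul_right _ _ : jj p q f₂ ∣ jj p q f₂ * _).mul_right _

include hiso huni hP hcop hy hz hco hk in
theorem mem0 : jj p q (f₁ * f₂) ∣ S2 p q f₁ f₂ -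
    jj p q (ga * s) * sk p q f₁ f₂ kp c₀ ν₁ n₁ (z * A1 - x * A3) (be * y) +
      jj p q (be * r) * sk p q f₁ f₂ kp c₀ ν₁ n₁ (x * A2 - y * A1) (ga * z) := by
  have hP1 : f₁ ∣ al + be * r ^ 2 + ga * s ^ 2 := (dvd_mul_right _ _).trans hP
  have hP2 : f₂ ∣ al + be * r ^ 2 + ga * s ^ 2 := (dvd_mul_left _ _).trans hP
  have e : 2 * (S2 p q f₁ f₂ -
      jj p q (ga * s) * sk p q f₁ f₂ kp c₀ ν₁ n₁ (z * A1 - x * A3) (be * y) +
      jj p q (be * r) * sk p q f₁ f₂ kp c₀ ν₁ n₁ (x * A2 - y * A1) (ga * z)) =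
      UU p q f₁ * jj p q (1 - ep be ga x y z A1 A2 A3 r s - 2 * kp * om be ga y z r s) +
      VV p q f₂ * jj p q (1 + ep be ga x y z A1 A2 A3 r s) -
      jj p q f₂ * (2 * (C (MvPolynomial.C c₀) - hh p q f₁ f₂ kp ν₁ n₁)) *
        jj p q (om be ga y z r s) := by
    have h2 := two_Y p q f₁ f₂
    have h3 := two_S p q f₁ f₂
    simp only [sk, g2, ep, om, jj_add, jj_mul, jj_sub, jj_two, jj_one]
    linear_combination h3 - (jj p q ga * jj p q s * (jj p q z * jj p q A1 - jj p q x * jj p q A3) -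
      jj p q be * jj p q r * (jj p q x * jj p q A2 - jj p q y * jj p q A1)) * h2
  apply both p q hcop
  · rw [e]
    refine dvd_sub (dvd_add ?_ ?_) ?_
    · exact (dvd_mul_right _ _ : jj p q f₁ ∣ UU p q f₁).mul_right _
    · exact (jj_dvd p q (dvd_ep huni hy hz hP1)).mul_left _
    · exact (jj_dvd p q (dvd_om hy hz)).mul_left _
  · rw [e]
    refine dvd_sub (dvd_add ?_ ?_) ?_
    · exact (jj_dvd p q (dvd_last hiso huni hP2 hco hk)).mul_left _
    · exact (dvd_mul_right _ _ : jj p q f₂ ∣ VV p q f₂).mul_right _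
    · exact (dvd_mul_right _ _ : jj p q f₂ ∣ jj p q f₂ * _).mul_right _

end mem

end Pool.Agent.Zk31.FC
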