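import Pool.Agent.Zk31.FC

/-! The generic family in a lattice. -/

set_option autoImplicit false
set_option linter.unusedSectionVars false
set_option linter.unusedVariables false

namespace Pool.Agent.Zk31.FD

open Polynomial Pool.Agent.Zk31.EA Pool.Agent.Zk31.EB
open Pool.Agent.Zk31.EH (V4 gp X0 X1 X2 X3 jk gp_coeff gp_degree X0_monic mc mc_coeff mc_add
  mc_mul mc_sq mc_zero)

section fam

variable {k : Type} [Field k]

theorem jk_mul {m d₁ d₂ d₃ : ℕ} (p q : k[X]) : (jk (p * q) : (MvPolynomial (V4 m d₁ d₂ d₃) k)[X]) =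
    jk p * jk q := Polynomial.map_mul _
theorem jk_add {m d₁ d₂ d₃ : ℕ} (p q : k[X]) : (jk (p + q) : (MvPolynomial (V4 m d₁ d₂ d₃) k)[X]) =
    jk p + jk q := Polynomial.map_add _

variable (m d₁ d₂ d₃ : ℕ)

/-- the remainder for the first coordinate -/
noncomputable def Q0 (be ga r s : k[X]) : (MvPolynomial (V4 m d₁ d₂ d₃) k)[X] :=
  jk (ga * s) * X2 k m d₁ d₂ d₃ - jk (be * r) * X3 k m d₁ d₂ d₃
/-- the remainder for the second coordinate -/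
noncomputable def Q1 (r s : k[X]) : (MvPolynomial (V4 m d₁ d₂ d₃) k)[X] :=
  - (jk r * X2 k m d₁ d₂ d₃) - jk s * X3 k m d₁ d₂ d₃

/-- the first coordinate -/
noncomputable def Z0 (be ga r s f' : k[X]) : (MvPolynomial (V4 m d₁ d₂ d₃) k)[X] :=
  Q0 m d₁ d₂ d₃ be ga r s %ₘ jk f' + jk f' * X0 k m d₁ d₂ d₃
/-- the second coordinate -/
noncomputable def Z1 (r s f' : k[X]) : (MvPolynomial (V4 m d₁ d₂ d₃) k)[X] :=
  Q1 m d₁ d₂ d₃ r s %ₘ jk f' + jk f' * X1 k m d₁ d₂ d₃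

/-- the norm -/
noncomputable def NN (al be ga r s f' : k[X]) : (MvPolynomial (V4 m d₁ d₂ d₃) k)[X] :=
  Z0 m d₁ d₂ d₃ be ga r s f' ^ 2 + jk (be * ga) * Z1 m d₁ d₂ d₃ r s f' ^ 2 +
    jk (ga * al) * X2 k m d₁ d₂ d₃ ^ 2 + jk (al * be) * X3 k m d₁ d₂ d₃ ^ 2

/-- the generic polynomial -/
noncomputable def FO (al be ga r s f' : k[X]) : (MvPolynomial (V4 m d₁ d₂ d₃) k)[X] :=
  NN m d₁ d₂ d₃ al be ga r s f' /ₘ jk f'

variable {m d₁ d₂ d₃} {al be ga r s f' : k[X]} (hf : f'.Monic)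

theorem jk_monic (hf : f'.Monic) : (jk f' : (MvPolynomial (V4 m d₁ d₂ d₃) k)[X]).Monic := hf.map _

theorem jk_natDegree (p : k[X]) : (jk p : (MvPolynomial (V4 m d₁ d₂ d₃) k)[X]).natDegree =
    p.natDegree := natDegree_map_eq_of_injective (MvPolynomial.C_injective _ _) p

theorem NN_dvd (hP : f' ∣ al + be * r ^ 2 + ga * s ^ 2) :
    jk f' ∣ NN m d₁ d₂ d₃ al be ga r s f' := by
  have h0 : Z0 m d₁ d₂ d₃ be ga r s f' = Q0 m d₁ d₂ d₃ be ga r s + jk f' *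
      (X0 k m d₁ d₂ d₃ - Q0 m d₁ d₂ d₃ be ga r s /ₘ jk f') := by
    rw [Z0, modByMonic_eq_sub_mul_div]; ring
  have h1 : Z1 m d₁ d₂ d₃ r s f' = Q1 m d₁ d₂ d₃ r s + jk f' *
      (X1 k m d₁ d₂ d₃ - Q1 m d₁ d₂ d₃ r s /ₘ jk f') := by
    rw [Z1, modByMonic_eq_sub_mul_div]; ring
  have h2 : (jk f' : (MvPolynomial (V4 m d₁ d₂ d₃) k)[X]) ∣
      jk al + jk be * jk r ^ 2 + jk ga * jk s ^ 2 := by
    obtain ⟨w, hw⟩ := hP
    refine ⟨jk w, ?_⟩
    rw [← jk_mul, ← hw, jk_add, jk_add, jk_mul, jk_mul, pow_two, pow_two, pow_two, pow_two,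
      jk_mul, jk_mul]
  rw [NN, h0, h1, Q0, Q1]
  simp only [jk_mul]
  generalize X0 k m d₁ d₂ d₃ - _ = W0
  generalize X1 k m d₁ d₂ d₃ - _ = W1
  have e : (jk ga * jk s * X2 k m d₁ d₂ d₃ - jk be * jk r * X3 k m d₁ d₂ d₃ + jk f' * W0) ^ 2 +
      jk be * jk ga * (-(jk r * X2 k m d₁ d₂ d₃) - jk s * X3 k m d₁ d₂ d₃ + jk f' * W1) ^ 2 +
      jk ga * jk al * X2 k m d₁ d₂ d₃ ^ 2 + jk al * jk be * X3 k m d₁ d₂ d₃ ^ 2 =
      (jk al + jk be * jk r ^ 2 + jk ga * jk s ^ 2) *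
        (jk ga * X2 k m d₁ d₂ d₃ ^ 2 + jk be * X3 k m d₁ d₂ d₃ ^ 2) +
      jk f' * (2 * W0 * (jk ga * jk s * X2 k m d₁ d₂ d₃ - jk be * jk r * X3 k m d₁ d₂ d₃) +
        jk f' * W0 ^ 2 + jk be * jk ga * (2 * W1 *
        (-(jk r * X2 k m d₁ d₂ d₃) - jk s * X3 k m d₁ d₂ d₃) + jk f' * W1 ^ 2)) := by ring
  rw [e]
  exact dvd_add (h2.mul_right _) (dvd_mul_right _ _)

include hf in
theorem FO_mul (hP : f' ∣ al + be * r ^ 2 + ga * s ^ 2) :
    jk f' * FO m d₁ d₂ d₃ al be ga r s f' = NN m d₁ d₂ d₃ al be ga r s f' := by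
  have h1 := (modByMonic_eq_zero_iff_dvd (jk_monic (m := m) (d₁ := d₁) (d₂ := d₂) (d₃ := d₃)
    hf)).mpr (NN_dvd hP)
  have h2 := modByMonic_add_div (NN m d₁ d₂ d₃ al be ga r s f') (jk f')
  rw [h1, zero_add] at h2
  exact h2

include hf in
theorem Z0_monic : (Z0 m d₁ d₂ d₃ be ga r s f').Monic ∧
    (Z0 m d₁ d₂ d₃ be ga r s f').natDegree = m + f'.natDegree := by
  obtain ⟨h5, h6⟩ := X0_monic (k := k) (m := m) (d₁ := d₁) (d₂ := d₂) (d₃ := d₃)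
  have hg := jk_monic (m := m) (d₁ := d₁) (d₂ := d₂) (d₃ := d₃) hf
  have h7 : (jk f' * X0 k m d₁ d₂ d₃).Monic := hg.mul h5
  have h8 : (jk f' * X0 k m d₁ d₂ d₃).natDegree = m + f'.natDegree := by
    rw [hg.natDegree_mul h5, h6, jk_natDegree]; omega
  have h9 : (Q0 m d₁ d₂ d₃ be ga r s %ₘ jk f').degree < (jk f' * X0 k m d₁ d₂ d₃).degree := by
    refine lt_of_lt_of_le (degree_modByMonic_lt _ hg) ?_
    rw [degree_eq_natDegree hg.ne_zero, degree_eq_natDegree h7.ne_zero, h8, jk_natDegree]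
    exact_mod_cast (by omega)
  refine ⟨?_, ?_⟩
  · rw [Z0, add_comm]; exact h7.add_of_left h9
  · rw [Z0, add_comm, natDegree_add_eq_left_of_degree_lt h9, h8]

include hf in
theorem Z1_deg (W M : ℕ) (h0 : 2 * f'.natDegree + W < 2 * M)
    (h1 : ∀ l, l < d₁ → 2 * (l + f'.natDegree) + W < 2 * M) :
    2 * (Z1 m d₁ d₂ d₃ r s f').natDegree + W < 2 * M := by
  have hg := jk_monic (m := m) (d₁ := d₁) (d₂ := d₂) (d₃ := d₃) hf
  have h2 : (Q1 m d₁ d₂ d₃ r s %ₘ jk f').natDegree ≤ f'.natDegree := by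
    refine (natDegree_modByMonic_le _ hg).trans ?_
    rw [jk_natDegree]
  have h3 : (Z1 m d₁ d₂ d₃ r s f').natDegree ≤ max f'.natDegree
      (jk f' * X1 k m d₁ d₂ d₃).natDegree := (natDegree_add_le _ _).trans (max_le_max h2 le_rfl)
  rcases Nat.eq_zero_or_pos d₁ with h4 | h4
  · have h5 : X1 k m d₁ d₂ d₃ = 0 := by
      rw [X1, gp]; subst h4; simp
    rw [h5, mul_zero, natDegree_zero] at h3
    have h6 : max f'.natDegree 0 = f'.natDegree := max_eq_left (Nat.zero_le _)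
    rw [h6] at h3
    omega
  · have h5 : (X1 k m d₁ d₂ d₃).natDegree ≤ d₁ - 1 := by
      by_cases h6 : X1 k m d₁ d₂ d₃ = 0
      · rw [h6, natDegree_zero]; exact Nat.zero_le _
      · have h7 := gp_degree (k := k) (Sum.inr ∘ Sum.inl : Fin d₁ → V4 m d₁ d₂ d₃)
        have h8 := (natDegree_lt_iff_degree_lt h6).mpr h7
        omega
    have h6 : (jk f' * X1 k m d₁ d₂ d₃).natDegree ≤ f'.natDegree + (d₁ - 1) := by
      refine natDegree_mul_le.trans (add_le_add ?_ h5)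
      rw [jk_natDegree]
    have h7 := h1 (d₁ - 1) (by omega)
    rcases le_max_iff.mp h3 with h8 | h8 <;> omega

include hf in
theorem NN_monic (M : ℕ) (hM : M = m + f'.natDegree) (hM0 : 0 < M)
    (h0 : 2 * f'.natDegree + (be * ga).natDegree < 2 * M)
    (h1 : ∀ l, l < d₁ → 2 * (l + f'.natDegree) + (be * ga).natDegree < 2 * M)
    (h2 : ∀ l, l < d₂ → 2 * l + (ga * al).natDegree < 2 * M)
    (h3 : ∀ l, l < d₃ → 2 * l + (al * be).natDegree < 2 * M) :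
    (NN m d₁ d₂ d₃ al be ga r s f').Monic ∧
      (NN m d₁ d₂ d₃ al be ga r s f').natDegree = 2 * M := by
  obtain ⟨h5, h6⟩ := Z0_monic (m := m) (d₁ := d₁) (d₂ := d₂) (d₃ := d₃) (be := be) (ga := ga)
    (r := r) (s := s) hf
  have h7 : (Z0 m d₁ d₂ d₃ be ga r s f' ^ 2).Monic := h5.pow 2
  have h8 : (Z0 m d₁ d₂ d₃ be ga r s f' ^ 2).natDegree = 2 * M := by rw [h5.natDegree_pow, h6, hM]
  have h9 : (Z0 m d₁ d₂ d₃ be ga r s f' ^ 2).degree = ((2 * M : ℕ) : WithBot ℕ) := by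
    rw [degree_eq_natDegree h7.ne_zero, h8]
  have gen : ∀ (p : k[X]) (Z : (MvPolynomial (V4 m d₁ d₂ d₃) k)[X]),
      2 * Z.natDegree + p.natDegree < 2 * M →
      (jk p * Z ^ 2 : (MvPolynomial (V4 m d₁ d₂ d₃) k)[X]).degree <
        ((2 * M : ℕ) : WithBot ℕ) := by
    intro p Z hZ
    refine lt_of_le_of_lt degree_le_natDegree ?_
    have h1 : (jk p * Z ^ 2 : (MvPolynomial (V4 m d₁ d₂ d₃) k)[X]).natDegree ≤
        p.natDegree + 2 * Z.natDegree := by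
      refine natDegree_mul_le.trans (add_le_add natDegree_map_le ?_)
      rw [natDegree_pow]
    have h2 : (jk p * Z ^ 2 : (MvPolynomial (V4 m d₁ d₂ d₃) k)[X]).natDegree < 2 * M := by omega
    exact_mod_cast h2
  have gen2 : ∀ {d : ℕ} (e : Fin d → V4 m d₁ d₂ d₃) (p : k[X]),
      (∀ l, l < d → 2 * l + p.natDegree < 2 * M) →
      (jk p * gp k e ^ 2 : (MvPolynomial (V4 m d₁ d₂ d₃) k)[X]).degree <
        ((2 * M : ℕ) : WithBot ℕ) := by
    intro d e p hd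
    by_cases h0 : gp k e = 0
    · rw [h0, zero_pow two_ne_zero, mul_zero, degree_zero]
      exact WithBot.bot_lt_coe _
    · apply gen
      have h4 : (gp k e).natDegree < d := (natDegree_lt_iff_degree_lt h0).mpr (gp_degree e)
      have h5 := hd (d - 1) (by omega)
      omega
  have h10 : (jk (be * ga) * Z1 m d₁ d₂ d₃ r s f' ^ 2 + jk (ga * al) * X2 k m d₁ d₂ d₃ ^ 2 +
      jk (al * be) * X3 k m d₁ d₂ d₃ ^ 2).degree < (Z0 m d₁ d₂ d₃ be ga r s f' ^ 2).degree := by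
    rw [h9]
    refine lt_of_le_of_lt (degree_add_le _ _) (max_lt (lt_of_le_of_lt (degree_add_le _ _)
      (max_lt ?_ ?_)) ?_)
    · exact gen _ _ (Z1_deg hf _ M h0 h1)
    · exact gen2 _ _ h2
    · exact gen2 _ _ h3
  have h11 : NN m d₁ d₂ d₃ al be ga r s f' = Z0 m d₁ d₂ d₃ be ga r s f' ^ 2 +
      (jk (be * ga) * Z1 m d₁ d₂ d₃ r s f' ^ 2 + jk (ga * al) * X2 k m d₁ d₂ d₃ ^ 2 +
      jk (al * be) * X3 k m d₁ d₂ d₃ ^ 2) := by
    rw [NN]; ring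
  rw [h11]
  exact ⟨h7.add_of_left h10, by rw [natDegree_add_eq_left_of_degree_lt h10, h8]⟩

include hf in
theorem FO_monic (hP : f' ∣ al + be * r ^ 2 + ga * s ^ 2) (M : ℕ) (hM : M = m + f'.natDegree)
    (hM0 : 0 < M)
    (h0 : 2 * f'.natDegree + (be * ga).natDegree < 2 * M)
    (h1 : ∀ l, l < d₁ → 2 * (l + f'.natDegree) + (be * ga).natDegree < 2 * M)
    (h2 : ∀ l, l < d₂ → 2 * l + (ga * al).natDegree < 2 * M)
    (h3 : ∀ l, l < d₃ → 2 * l + (al * be).natDegree < 2 * M) :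
    (FO m d₁ d₂ d₃ al be ga r s f').Monic ∧
      (FO m d₁ d₂ d₃ al be ga r s f').natDegree + f'.natDegree = 2 * M := by
  obtain ⟨h5, h6⟩ := NN_monic (r := r) (s := s) hf M hM hM0 h0 h1 h2 h3
  have h7 := FO_mul (m := m) (d₁ := d₁) (d₂ := d₂) (d₃ := d₃) hf hP
  have hg := jk_monic (m := m) (d₁ := d₁) (d₂ := d₂) (d₃ := d₃) hf
  have h8 : (FO m d₁ d₂ d₃ al be ga r s f').Monic := hg.of_mul_monic_left (h7 ▸ h5)
  refine ⟨h8, ?_⟩
  have h9 := hg.natDegree_mul h8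
  rw [h7, h6, jk_natDegree] at h9
  omega

end fam

section der

variable {k : Type} [Field k] {m d₁ d₂ d₃ : ℕ}
  (D : MvPolynomial (V4 m d₁ d₂ d₃) k → MvPolynomial (V4 m d₁ d₂ d₃) k)
  (hDz : D 0 = 0) (hDa : ∀ x y, D (x + y) = D x + D y) (hDm : ∀ x y, D (x * y) = x * D y + y * D x)

include hDz in
theorem mc_degree (p : (MvPolynomial (V4 m d₁ d₂ d₃) k)[X]) : (mc D p).degree ≤ p.degree := by
  rw [degree_le_iff_coeff_zero]
  intro j hj
  rw [mc_coeff D hDz, coeff_eq_zero_of_degree_lt hj, hDz]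

include hDz hDa hDm in
theorem mc_mod (p g : (MvPolynomial (V4 m d₁ d₂ d₃) k)[X]) (hg : g.Monic) (hDg : mc D g = 0)
    (hp : mc D p = 0) : mc D (p %ₘ g) = 0 := by
  have h1 := modByMonic_add_div p g
  have h2 := congrArg (mc D) h1
  rw [mc_add D hDz hDa, mc_mul D hDz hDa hDm, hDg, mul_zero, add_zero, hp] at h2
  have h3 : (mc D (p %ₘ g)).degree < g.degree :=
    lt_of_le_of_lt (mc_degree D hDz _) (degree_modByMonic_lt _ hg)
  have h4 : g ∣ mc D (p %ₘ g) := ⟨- mc D (p /ₘ g), by linear_combination h2⟩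
  exact eq_zero_of_dvd_of_degree_lt h4 h3

end der

end Pool.Agent.Zk31.FD
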