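import Pool.Agent.Zk31.FD

/-! Closedness of the generic family in a lattice over the big field. -/

set_option autoImplicit false
set_option linter.unusedSectionVars false
set_option linter.unusedVariables false

namespace Pool.Agent.Zk31.FE

open Polynomial IntermediateField Pool.Agent.Zk31.EA Pool.Agent.Zk31.EB
open Pool.Agent.Zk31.EH (V4 gp X0 X1 X2 X3 jk gp_coeff gp_degree X0_monic mc mc_coeff mc_add
  mc_mul mc_sq mc_zero)
open Pool.Agent.Zk31.FA Pool.Agent.Zk31.FB Pool.Agent.Zk31.FC Pool.Agent.Zk31.FD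
open Pool.Agent.Zk31.EG (n1' n1'_monic)

section psi

variable {L : Type} [Field L] {T : Type} [CommRing T] [Algebra L T] {m d₁ d₂ d₃ : ℕ}
  (s₀ s₁ s₂ s₃ : T[X])

variable (L m d₁ d₂ d₃) in
/-- the specialisation -/
noncomputable def psi : MvPolynomial (V4 m d₁ d₂ d₃) L →ₐ[L] T :=
  MvPolynomial.aeval (Sum.elim (fun l => s₀.coeff l) (Sum.elim (fun l => s₁.coeff l)
    (Sum.elim (fun l => s₂.coeff l) (fun l => s₃.coeff l))))

theorem map_gp {d : ℕ} (e : Fin d → V4 m d₁ d₂ d₃) (s : T[X])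
    (he : ∀ l, psi L m d₁ d₂ d₃ s₀ s₁ s₂ s₃ (MvPolynomial.X (e l)) = s.coeff l)
    (hs : ∀ N, d ≤ N → s.coeff N = 0) :
    (gp L e).map (psi L m d₁ d₂ d₃ s₀ s₁ s₂ s₃ : MvPolynomial (V4 m d₁ d₂ d₃) L →+* T) = s := by
  ext1 j
  rw [coeff_map, gp_coeff]
  by_cases h : j < d
  · rw [dif_pos h]; exact he ⟨j, h⟩
  · rw [dif_neg h, map_zero, hs j (by omega)]

theorem map_X0 (hs : ∀ N, m ≤ N → s₀.coeff N = if N = m then 1 else 0) :
    (X0 L m d₁ d₂ d₃).map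
      (psi L m d₁ d₂ d₃ s₀ s₁ s₂ s₃ : MvPolynomial (V4 m d₁ d₂ d₃) L →+* T) = s₀ := by
  ext1 j
  rw [coeff_map, X0, coeff_add, gp_coeff, coeff_X_pow]
  by_cases h : j < m
  · rw [dif_pos h, if_neg (by omega), zero_add]
    exact MvPolynomial.aeval_X _ _
  · rw [dif_neg h, add_zero, hs j (by omega)]
    split_ifs
    · exact map_one _
    · exact map_zero _

theorem map_X1 (hs : ∀ N, d₁ ≤ N → s₁.coeff N = 0) :
    (X1 L m d₁ d₂ d₃).map
      (psi L m d₁ d₂ d₃ s₀ s₁ s₂ s₃ : MvPolynomial (V4 m d₁ d₂ d₃) L →+* T) = s₁ :=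
  map_gp _ _ _ _ _ _ (fun l => MvPolynomial.aeval_X _ _) hs

theorem map_X2 (hs : ∀ N, d₂ ≤ N → s₂.coeff N = 0) :
    (X2 L m d₁ d₂ d₃).map
      (psi L m d₁ d₂ d₃ s₀ s₁ s₂ s₃ : MvPolynomial (V4 m d₁ d₂ d₃) L →+* T) = s₂ :=
  map_gp _ _ _ _ _ _ (fun l => MvPolynomial.aeval_X _ _) hs

theorem map_X3 (hs : ∀ N, d₃ ≤ N → s₃.coeff N = 0) :
    (X3 L m d₁ d₂ d₃).map
      (psi L m d₁ d₂ d₃ s₀ s₁ s₂ s₃ : MvPolynomial (V4 m d₁ d₂ d₃) L →+* T) = s₃ :=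
  map_gp _ _ _ _ _ _ (fun l => MvPolynomial.aeval_X _ _) hs

theorem map_jk (p : L[X]) :
    (jk p).map (psi L m d₁ d₂ d₃ s₀ s₁ s₂ s₃ : MvPolynomial (V4 m d₁ d₂ d₃) L →+* T) =
      p.map (algebraMap L T) := by
  rw [jk, Polynomial.map_map]
  congr 1
  exact (psi L m d₁ d₂ d₃ s₀ s₁ s₂ s₃).comp_algebraMap

variable {al be ga r s f' : L[X]} (hf : f'.Monic) (S₀ S₁ : T[X])
  (hd0 : f'.map (algebraMap L T) ∣
    S₀ - (ga * s).map (algebraMap L T) * s₂ + (be * r).map (algebraMap L T) * s₃)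
  (hd1 : f'.map (algebraMap L T) ∣
    S₁ + r.map (algebraMap L T) * s₂ + s.map (algebraMap L T) * s₃)
  (h0 : ∀ N, m ≤ N → (S₀ /ₘ f'.map (algebraMap L T)).coeff N = if N = m then 1 else 0)
  (h1 : ∀ N, d₁ ≤ N → (S₁ /ₘ f'.map (algebraMap L T)).coeff N = 0)
  (h2 : ∀ N, d₂ ≤ N → s₂.coeff N = 0) (h3 : ∀ N, d₃ ≤ N → s₃.coeff N = 0)

include hf hd0 h0 h2 h3 in
theorem map_Z0 : (Z0 m d₁ d₂ d₃ be ga r s f').map (psi L m d₁ d₂ d₃ (S₀ /ₘ f'.map (algebraMap L T))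
    (S₁ /ₘ f'.map (algebraMap L T)) s₂ s₃ : MvPolynomial (V4 m d₁ d₂ d₃) L →+* T) = S₀ := by
  have hg : (f'.map (algebraMap L T)).Monic := hf.map _
  rw [Z0, Polynomial.map_add, Polynomial.map_modByMonic _ (jk_monic hf), Polynomial.map_mul,
    map_X0 _ _ _ _ h0, map_jk, Q0, Polynomial.map_sub, Polynomial.map_mul, Polynomial.map_mul,
    map_jk, map_jk, map_X2 _ _ _ _ h2, map_X3 _ _ _ _ h3]
  have e : ((ga * s).map (algebraMap L T) * s₂ - (be * r).map (algebraMap L T) * s₃) %ₘ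
      f'.map (algebraMap L T) = S₀ %ₘ f'.map (algebraMap L T) := by
    refine modByMonic_eq_of_dvd_sub hg ?_
    have h4 : (ga * s).map (algebraMap L T) * s₂ - (be * r).map (algebraMap L T) * s₃ - S₀ =
      -(S₀ - (ga * s).map (algebraMap L T) * s₂ + (be * r).map (algebraMap L T) * s₃) := by ring
    rw [h4, dvd_neg]
    exact hd0
  rw [e, modByMonic_add_div]

include hf hd1 h1 h2 h3 in
theorem map_Z1 : (Z1 m d₁ d₂ d₃ r s f').map (psi L m d₁ d₂ d₃ (S₀ /ₘ f'.map (algebraMap L T))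
    (S₁ /ₘ f'.map (algebraMap L T)) s₂ s₃ : MvPolynomial (V4 m d₁ d₂ d₃) L →+* T) = S₁ := by
  have hg : (f'.map (algebraMap L T)).Monic := hf.map _
  rw [Z1, Polynomial.map_add, Polynomial.map_modByMonic _ (jk_monic hf), Polynomial.map_mul,
    map_X1 _ _ _ _ h1, map_jk, Q1, Polynomial.map_sub, Polynomial.map_neg, Polynomial.map_mul,
    Polynomial.map_mul, map_jk, map_jk, map_X2 _ _ _ _ h2, map_X3 _ _ _ _ h3]
  have e : (-(r.map (algebraMap L T) * s₂) - s.map (algebraMap L T) * s₃) %ₘ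
      f'.map (algebraMap L T) = S₁ %ₘ f'.map (algebraMap L T) := by
    refine modByMonic_eq_of_dvd_sub hg ?_
    have h4 : -(r.map (algebraMap L T) * s₂) - s.map (algebraMap L T) * s₃ - S₁ =
      -(S₁ + r.map (algebraMap L T) * s₂ + s.map (algebraMap L T) * s₃) := by ring
    rw [h4, dvd_neg]
    exact hd1
  rw [e, modByMonic_add_div]

include hf hd0 hd1 h0 h1 h2 h3 in
theorem map_NN : (NN m d₁ d₂ d₃ al be ga r s f').map
    (psi L m d₁ d₂ d₃ (S₀ /ₘ f'.map (algebraMap L T))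
    (S₁ /ₘ f'.map (algebraMap L T)) s₂ s₃ : MvPolynomial (V4 m d₁ d₂ d₃) L →+* T) =
    S₀ ^ 2 + (be * ga).map (algebraMap L T) * S₁ ^ 2 + (ga * al).map (algebraMap L T) * s₂ ^ 2 +
      (al * be).map (algebraMap L T) * s₃ ^ 2 := by
  rw [NN, Polynomial.map_add, Polynomial.map_add, Polynomial.map_add, Polynomial.map_pow,
    Polynomial.map_mul, Polynomial.map_mul, Polynomial.map_mul, Polynomial.map_pow,
    Polynomial.map_pow, Polynomial.map_pow, map_Z0 s₂ s₃ hf S₀ S₁ hd0 h0 h2 h3,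
    map_Z1 s₂ s₃ hf S₀ S₁ hd1 h1 h2 h3, map_X2 _ _ _ _ h2, map_X3 _ _ _ _ h3, map_jk, map_jk,
    map_jk]

/-- Invariance. -/
theorem psi_inv (s₀ s₁ s₂ s₃ : T[X]) (ρ : T →ₐ[L] T) (h0 : s₀.map (ρ : T →+* T) = s₀)
    (h1 : s₁.map (ρ : T →+* T) = s₁) (h2 : s₂.map (ρ : T →+* T) = s₂)
    (h3 : s₃.map (ρ : T →+* T) = s₃) (w : MvPolynomial (V4 m d₁ d₂ d₃) L) :
    ρ (psi L m d₁ d₂ d₃ s₀ s₁ s₂ s₃ w) = psi L m d₁ d₂ d₃ s₀ s₁ s₂ s₃ w := by
  have hco : ∀ (s : T[X]) (j : ℕ), s.map (ρ : T →+* T) = s →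
      ρ (s.coeff j) = s.coeff j := by
    intro s j hs
    conv_rhs => rw [← hs]
    rw [coeff_map]
    rfl
  have h4 : ρ.comp (psi L m d₁ d₂ d₃ s₀ s₁ s₂ s₃ : MvPolynomial (V4 m d₁ d₂ d₃) L →ₐ[L] T) =
      psi L m d₁ d₂ d₃ s₀ s₁ s₂ s₃ := by
    apply MvPolynomial.algHom_ext
    intro v
    rw [AlgHom.comp_apply, psi, MvPolynomial.aeval_X]
    rcases v with l | l | l | l
    · exact hco s₀ l h0
    · exact hco s₁ l h1
    · exact hco s₂ l h2
    · exact hco s₃ l h3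
  exact congrArg (fun f : MvPolynomial (V4 m d₁ d₂ d₃) L →ₐ[L] T => f w) h4

end psi

section sec

variable {L : Type} [Field L] [CharZero L] (p q : ℕ)

theorem map_u (ρ : R2 L p q →ₐ[L] R2 L p q) {σ : Equiv.Perm (Fin p)}
    (h : ∀ i, ρ (MvPolynomial.X (Sum.inl i)) = MvPolynomial.X (Sum.inl (σ i))) :
    (u2 L p q).map (ρ : R2 L p q →+* R2 L p q) = u2 L p q := by
  rw [u2, Polynomial.map_prod, ← Equiv.prod_comp σ
    (fun i : Fin p => (X - C (MvPolynomial.X (Sum.inl i)) : (R2 L p q)[X]))]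
  refine Finset.prod_congr rfl fun i _ => ?_
  rw [Polynomial.map_sub, map_X, map_C]
  congr 2
  exact h i

theorem map_v (ρ : R2 L p q →ₐ[L] R2 L p q) {σ : Equiv.Perm (Fin q)}
    (h : ∀ i, ρ (MvPolynomial.X (Sum.inr i)) = MvPolynomial.X (Sum.inr (σ i))) :
    (v2 L p q).map (ρ : R2 L p q →+* R2 L p q) = v2 L p q := by
  rw [v2, Polynomial.map_prod, ← Equiv.prod_comp σ
    (fun i : Fin q => (X - C (MvPolynomial.X (Sum.inr i)) : (R2 L p q)[X]))]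
  refine Finset.prod_congr rfl fun i _ => ?_
  rw [Polynomial.map_sub, map_X, map_C]
  congr 2
  exact h i

theorem map_jj (ρ : R2 L p q →ₐ[L] R2 L p q) (r : L[X]) :
    (jj p q r).map (ρ : R2 L p q →+* R2 L p q) = jj p q r := by
  rw [jj, Polynomial.map_map]
  congr 1
  exact ρ.comp_algebraMap

variable (f₁ f₂ : L[X])

theorem map_Y (ρ : R2 L p q →ₐ[L] R2 L p q)
    (hu : (u2 L p q).map (ρ : R2 L p q →+* R2 L p q) = u2 L p q)
    (hv : (v2 L p q).map (ρ : R2 L p q →+* R2 L p q) = v2 L p q) :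
    (Y2 p q f₁ f₂).map (ρ : R2 L p q →+* R2 L p q) = Y2 p q f₁ f₂ ∧
    (S2 p q f₁ f₂).map (ρ : R2 L p q →+* R2 L p q) = S2 p q f₁ f₂ ∧
    (UU p q f₁).map (ρ : R2 L p q →+* R2 L p q) = UU p q f₁ := by
  have h1 : (ρ : R2 L p q →+* R2 L p q) (MvPolynomial.C (1 / 2 : L)) =
    MvPolynomial.C (1 / 2 : L) := ρ.commutes _
  have hU : (UU p q f₁).map (ρ : R2 L p q →+* R2 L p q) = UU p q f₁ := by
    rw [UU, Polynomial.map_mul, map_jj, hu]
  have hV : (VV p q f₂).map (ρ : R2 L p q →+* R2 L p q) = VV p q f₂ := by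
    rw [VV, Polynomial.map_mul, map_jj, hv]
  refine ⟨?_, ?_, hU⟩
  · rw [Y2, Polynomial.map_mul, Polynomial.map_sub, hU, hV, map_C, h1]
  · rw [S2, Polynomial.map_mul, Polynomial.map_add, hU, hV, map_C, h1]

variable {f₁ f₂}

theorem map_sk (ρ : R2 L p q →ₐ[L] R2 L p q)
    (hY : (Y2 p q f₁ f₂).map (ρ : R2 L p q →+* R2 L p q) = Y2 p q f₁ f₂)
    (hU : (UU p q f₁).map (ρ : R2 L p q →+* R2 L p q) = UU p q f₁)
    (kp : L[X]) (c₀ : L) (ν₁ n₁ ν n : L[X]) (hn : f₂ * n₁ ≠ 0) :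
    (sk p q f₁ f₂ kp c₀ ν₁ n₁ ν n).map (ρ : R2 L p q →+* R2 L p q) =
      sk p q f₁ f₂ kp c₀ ν₁ n₁ ν n := by
  have h1 : (jj p q (n1' (f₂ * n₁))).Monic := (n1'_monic (f₂ * n₁) hn).1.map _
  have h2 : ∀ a : L, (ρ : R2 L p q →+* R2 L p q) (MvPolynomial.C a) =
    MvPolynomial.C a := fun a => ρ.commutes _
  rw [sk, g2, hh]
  simp only [Polynomial.map_sub, Polynomial.map_mul, Polynomial.map_add, map_C, h2,
    Polynomial.map_divByMonic _ h1, hY, hU, map_jj]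

theorem eval_jj (ρ : R2 L p q →ₐ[L] R2 L p q) (r : L[X]) (z w : II p q)
    (h : ρ (MvPolynomial.X z) = MvPolynomial.X w) (hr : r ≠ 0) :
    ρ ((jj p q r).eval (MvPolynomial.X z)) ≠ 0 := by
  have h1 : (jj p q r).eval (MvPolynomial.X z) = aeval (MvPolynomial.X z : R2 L p q) r := by
    rw [jj, eval_map_algebraMap]
  rw [h1, ← aeval_algHom_apply, h]
  intro h2
  have h3 : Transcendental L (MvPolynomial.X w : R2 L p q) :=
    (MvPolynomial.algebraicIndependent_X (II p q) L).transcendental w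
  exact h3 ⟨r, hr, h2⟩

theorem eval_U (i : Fin p) : (UU p q f₁).eval (MvPolynomial.X (Sum.inl i)) = 0 := by
  rw [UU, eval_mul, u2, eval_prod, Finset.prod_eq_zero (Finset.mem_univ i) (by simp), mul_zero]

theorem eval_V (i : Fin p) (j : Fin q) :
    pij L (Sum.inl i : II p q) (Sum.inr j) ((VV p q f₂).eval (MvPolynomial.X (Sum.inl i))) = 0 := by
  have h2 : pij L (Sum.inl i : II p q) (Sum.inr j)
      ((v2 L p q).eval (MvPolynomial.X (Sum.inl i))) = 0 := by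
    rw [v2, eval_prod, map_prod]
    refine Finset.prod_eq_zero (Finset.mem_univ j) ?_
    rw [eval_sub, eval_X, eval_C, map_sub, pij_j, pij_ne _ _ Sum.inl_ne_inr, sub_self]
  rw [VV, eval_mul, map_mul, h2, mul_zero]

theorem eval_Y (i : Fin p) (j : Fin q) :
    pij L (Sum.inl i : II p q) (Sum.inr j)
      ((Y2 p q f₁ f₂).eval (MvPolynomial.X (Sum.inl i))) = 0 := by
  rw [Y2, eval_mul, eval_sub, eval_U, zero_sub, map_mul, map_neg, eval_V, neg_zero, mul_zero]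

/-- For a suitable constant the quotient does not vanish. -/
theorem exists_c (kp : L[X]) (ν₁ n₁ : L[X]) (hf₂ : f₂ ≠ 0) (i : Fin p) (j : Fin q) :
    ∃ c₀ : L, pij L (Sum.inl i : II p q) (Sum.inr j)
      ((g2 p q f₁ f₂ kp c₀ ν₁ n₁).eval (MvPolynomial.X (Sum.inl i))) ≠ 0 := by
  have hρ : pij L (Sum.inl i : II p q) (Sum.inr j) (MvPolynomial.X (Sum.inl i)) =
      MvPolynomial.X (Sum.inl i) := pij_ne _ _ Sum.inl_ne_inr
  have key : ∀ c₀ : L, pij L (Sum.inl i : II p q) (Sum.inr j)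
      ((g2 p q f₁ f₂ kp c₀ ν₁ n₁).eval (MvPolynomial.X (Sum.inl i))) =
      pij L (Sum.inl i : II p q) (Sum.inr j) ((jj p q f₂).eval (MvPolynomial.X (Sum.inl i))) *
      (MvPolynomial.C c₀ - pij L (Sum.inl i : II p q) (Sum.inr j)
        ((hh p q f₁ f₂ kp ν₁ n₁).eval (MvPolynomial.X (Sum.inl i)))) := by
    intro c₀
    rw [g2, eval_add, eval_mul, eval_mul, eval_U, mul_zero, zero_add, eval_sub, eval_C, map_mul,
      map_sub]
    congr 2
    exact AlgHom.commutes _ _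
  by_contra hall
  push Not at hall
  have h1 := hall 0
  have h2 := hall 1
  rw [key] at h1 h2
  have h3 := eval_jj p q (pij L (Sum.inl i : II p q) (Sum.inr j)) f₂ _ _ hρ hf₂
  have h4 := (mul_eq_zero.mp h1).resolve_left h3
  have h5 := (mul_eq_zero.mp h2).resolve_left h3
  rw [MvPolynomial.C_0] at h4
  rw [MvPolynomial.C_1] at h5
  have h6 : (1 : R2 L p q) = 0 := by linear_combination h5 - h4
  exact one_ne_zero h6

end sec

end Pool.Agent.Zk31.FE
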