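import Pool.Agent.Zk31.FE

/-! Closedness of the generic family in a lattice over the big field. -/

set_option autoImplicit false
set_option linter.unusedSectionVars false
set_option linter.unusedVariables false

namespace Pool.Agent.Zk31.FG

open Polynomial IntermediateField Pool.Agent.Zk31.EA Pool.Agent.Zk31.EB
open Pool.Agent.Zk31.EH (V4 gp X0 X1 X2 X3 jk gp_coeff gp_degree X0_monic mc mc_coeff mc_add
  mc_mul mc_sq mc_zero)
open Pool.Agent.Zk31.FA Pool.Agent.Zk31.FB Pool.Agent.Zk31.FC Pool.Agent.Zk31.FD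
  Pool.Agent.Zk31.FE
open Pool.Agent.Zk31.EG (n1' n1'_monic)

section div

variable {T : Type} [CommRing T] [IsDomain T] {g S : T[X]} (hg : g.Monic)

include hg in
theorem div_van {e d W M : ℕ} (he : g.natDegree = e) (hd : ∀ l, l < d ↔ 2 * (l + e) + W < 2 * M)
    (h : 2 * S.natDegree + W < 2 * M) (N : ℕ) (hN : d ≤ N) : (S /ₘ g).coeff N = 0 := by
  by_cases h1 : S.natDegree < e
  · rw [(divByMonic_eq_zero_iff hg).mpr, coeff_zero]
    exact degree_lt_degree (by rw [he]; exact h1)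
  · apply coeff_eq_zero_of_natDegree_lt
    rw [natDegree_divByMonic S hg, he]
    by_contra h2
    have h3 : ¬ (2 * (N + e) + W < 2 * M) := fun h4 => by
      have := (hd N).mpr h4
      omega
    omega

include hg in
theorem div_monic {e m : ℕ} (he : g.natDegree = e) (hS : S.Monic) (hdS : S.natDegree = m + e)
    (N : ℕ) (hN : m ≤ N) : (S /ₘ g).coeff N = if N = m then 1 else 0 := by
  have h1 : (S /ₘ g).natDegree = m := by
    rw [natDegree_divByMonic S hg, he, hdS]; omega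
  have h2 : (S /ₘ g).leadingCoeff = 1 := by
    rw [leadingCoeff_divByMonic_of_monic hg]
    · exact hS
    · rw [degree_eq_natDegree hg.ne_zero, degree_eq_natDegree hS.ne_zero, he, hdS]
      exact_mod_cast Nat.le_add_left e m
  split_ifs with h3
  · rw [h3, ← h2, leadingCoeff, h1]
  · apply coeff_eq_zero_of_natDegree_lt
    rw [h1]; omega

end div

theorem coeff_van {T : Type} [CommRing T] {s : T[X]} {d Wt M : ℕ}
    (hd : ∀ l, l < d ↔ 2 * l + Wt < 2 * M)
    (h : s = 0 ∨ 2 * s.natDegree + Wt < 2 * M) (N : ℕ) (hN : d ≤ N) : s.coeff N = 0 := by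
  rcases h with h | h
  · rw [h, coeff_zero]
  · apply coeff_eq_zero_of_natDegree_lt
    by_contra h2
    have h3 : ¬ (2 * N + Wt < 2 * M) := fun h4 => by
      have := (hd N).mpr h4
      omega
    omega

section main

variable {L : Type} [Field L] [CharZero L] {m d₁ d₂ d₃ : ℕ}
  (al be ga x y z A1 A2 A3 r s f' : L[X]) (hiso : al * x ^ 2 + be * y ^ 2 + ga * z ^ 2 = 0)
  (huni : al * x * A1 + be * y * A2 + ga * z * A3 = 1) (hal : al ≠ 0) (hbe : be ≠ 0)
  (hga : ga ≠ 0) (hx : x ≠ 0)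
  (hy2 : y = 0 ∨ 2 * y.natDegree + be.natDegree ≤ 2 * x.natDegree + al.natDegree)
  (hz2 : z = 0 ∨ 2 * z.natDegree + ga.natDegree ≤ 2 * x.natDegree + al.natDegree)
  (hf : f'.Monic) (hsq : Squarefree f') (hca : IsCoprime f' al) (hcb : IsCoprime f' be)
  (hcg : IsCoprime f' ga) (hP : f' ∣ al + be * r ^ 2 + ga * s ^ 2) (M : ℕ)
  (hM : M = m + f'.natDegree)
  (hm : 2 * (al.natDegree + x.natDegree + f'.natDegree) + be.natDegree + ga.natDegree < 2 * M)
  (hm2 : 2 ≤ m)
  (hd₁ : ∀ l, l < d₁ ↔ 2 * (l + f'.natDegree) + (be * ga).natDegree < 2 * M)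
  (hd₂ : ∀ l, l < d₂ ↔ 2 * l + (ga * al).natDegree < 2 * M)
  (hd₃ : ∀ l, l < d₃ ↔ 2 * l + (al * be).natDegree < 2 * M)
  (W : Type) [Field W] [Algebra (MvPolynomial (V4 m d₁ d₂ d₃) L) W]
  [IsFractionRing (MvPolynomial (V4 m d₁ d₂ d₃) L) W] [Algebra L W]
  [IsScalarTower L (MvPolynomial (V4 m d₁ d₂ d₃) L) W]

include hiso huni hal hbe hga hx hy2 hz2 hf hsq hca hcb hcg hP hM hm hm2 hd₁ hd₂ hd₃ in
/-- **The generic family in a lattice over the big field.** -/
theorem closedO (n : ℕ) (hn : n + f'.natDegree = 2 * M) :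
    AlgebraicIndependent L (fun j : Fin n =>
      algebraMap (MvPolynomial (V4 m d₁ d₂ d₃) L) W ((FO m d₁ d₂ d₃ al be ga r s f').coeff j)) ∧
    ∀ w : W, IsAlgebraic (adjoin L (Set.range fun j : Fin n =>
      algebraMap (MvPolynomial (V4 m d₁ d₂ d₃) L) W
        ((FO m d₁ d₂ d₃ al be ga r s f').coeff j))) w →
      w ∈ adjoin L (Set.range fun j : Fin n =>
      algebraMap (MvPolynomial (V4 m d₁ d₂ d₃) L) W
        ((FO m d₁ d₂ d₃ al be ga r s f').coeff j)) := by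
  classical
  obtain ⟨f₁, f₂, kp, hf₁, hf₂, hff, hcop, hyr, hzs, hco, hk⟩ := exists_split
    (A1 := A1) (A2 := A2) (A3 := A3) hiso hf hsq hca hcb hcg hP
  have hdeg : f'.natDegree = f₁.natDegree + f₂.natDegree := by rw [hff, hf₁.natDegree_mul hf₂]
  let p : ℕ := M - f₁.natDegree
  let q : ℕ := M - f₂.natDegree
  have hp : p + f₁.natDegree = M := by omega
  have hq : q + f₂.natDegree = M := by omega
  have hcard : n = Fintype.card (II p q) := by
    rw [Fintype.card_sum, Fintype.card_fin, Fintype.card_fin]; omega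
  subst hcard
  have hP' : f₁ * f₂ ∣ al + be * r ^ 2 + ga * s ^ 2 := hff ▸ hP
  have hM0 : 0 < M := by omega
  have hn : al * x ≠ 0 := mul_ne_zero hal hx
  have hfn : f₂ * (al * x) ≠ 0 := mul_ne_zero hf₂.ne_zero hn
  have hndeg : (al * x).natDegree = al.natDegree + x.natDegree := natDegree_mul hal hx
  have hfndeg : (f₂ * (al * x)).natDegree = f₂.natDegree + (al.natDegree + x.natDegree) := by
    rw [natDegree_mul hf₂.ne_zero hn, hndeg]
  have hW1 : (be * ga).natDegree = be.natDegree + ga.natDegree := natDegree_mul hbe hga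
  have hW2 : (ga * al).natDegree = ga.natDegree + al.natDegree := natDegree_mul hga hal
  have hW3 : (al * be).natDegree = al.natDegree + be.natDegree := natDegree_mul hal hbe
  set ν₁ := y * A3 - z * A2 with hν₁
  let i₀ : Fin p := ⟨0, by omega⟩
  let i₁ : Fin p := ⟨1, by omega⟩
  let j₀ : Fin q := ⟨0, by omega⟩
  obtain ⟨c₀, hc₀⟩ := exists_c p q (f₁ := f₁) kp ν₁ (al * x) hf₂.ne_zero i₀ j₀
  let s₁ := sk p q f₁ f₂ kp c₀ ν₁ (al * x) ν₁ (al * x)
  let s₂ := sk p q f₁ f₂ kp c₀ ν₁ (al * x) (z * A1 - x * A3) (be * y)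
  let s₃ := sk p q f₁ f₂ kp c₀ ν₁ (al * x) (x * A2 - y * A1) (ga * z)
  have hs₁ : 2 * s₁.natDegree + (be * ga).natDegree < 2 * M :=
    s1_degree p q M kp c₀ ν₁ (al * x) hfn _ (by rw [hfndeg, hW1]; omega)
  have hs₂ : s₂ = 0 ∨ 2 * s₂.natDegree + (ga * al).natDegree < 2 * M := by
    refine sk_degree p q hf₁ hf₂ M hp hq kp c₀ ν₁ (al * x) hM0 hf₂.ne_zero hn _ _ z _ ?_ ?_ ?_
    · rw [hν₁]; linear_combination z * huni - A3 * hiso
    · rcases hz2 with h | h
      · left; exact h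
      · right; rw [hndeg, hW2]; omega
    · rcases hy2 with h | h
      · rw [h, mul_zero, natDegree_zero, hW2]; omega
      · by_cases h0 : y = 0
        · rw [h0, mul_zero, natDegree_zero, hW2]; omega
        · rw [natDegree_mul hbe h0, hW2]; omega
  have hs₃ : s₃ = 0 ∨ 2 * s₃.natDegree + (al * be).natDegree < 2 * M := by
    refine sk_degree p q hf₁ hf₂ M hp hq kp c₀ ν₁ (al * x) hM0 hf₂.ne_zero hn _ _ (-y) _ ?_ ?_ ?_
    · rw [hν₁]; linear_combination (-y) * huni + A2 * hiso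
    · rcases hy2 with h | h
      · left; rw [h, neg_zero]
      · right; rw [natDegree_neg, hndeg, hW3]; omega
    · rcases hz2 with h | h
      · rw [h, mul_zero, natDegree_zero, hW3]; omega
      · by_cases h0 : z = 0
        · rw [h0, mul_zero, natDegree_zero, hW3]; omega
        · rw [natDegree_mul hga h0, hW3]; omega
  let s₀ := S2 p q f₁ f₂
  obtain ⟨hs₀m, hs₀d⟩ := S2_monic p q hf₁ hf₂ M hp hq hM0
  have hgm : (f'.map (algebraMap L (R2 L p q))).Monic := hf.map _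
  have hgd : (f'.map (algebraMap L (R2 L p q))).natDegree = f'.natDegree := jj_natDegree p q f'
  have hgg : f'.map (algebraMap L (R2 L p q)) = jj p q (f₁ * f₂) := by rw [← hff]; rfl
  have c0 := div_monic hgm hgd hs₀m (by rw [hs₀d]; exact hM)
  have c1 := div_van hgm hgd hd₁ hs₁
  have c2 := coeff_van hd₂ hs₂
  have c3 := coeff_van hd₃ hs₃
  have hd0 : f'.map (algebraMap L (R2 L p q)) ∣ s₀ - (ga * s).map (algebraMap L (R2 L p q)) * s₂ +
      (be * r).map (algebraMap L (R2 L p q)) * s₃ := by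
    rw [hgg]
    exact mem0 p q c₀ ν₁ (al * x) hiso huni hP' hcop hyr hzs hco hk
  have hd1 : f'.map (algebraMap L (R2 L p q)) ∣ s₁ + r.map (algebraMap L (R2 L p q)) * s₂ +
      s.map (algebraMap L (R2 L p q)) * s₃ := by
    rw [hgg]
    exact mem1 p q c₀ ν₁ (al * x) hP' hcop hyr hzs hk
  let ψ : MvPolynomial (V4 m d₁ d₂ d₃) L →ₐ[L] R2 L p q :=
    psi L m d₁ d₂ d₃ (s₀ /ₘ f'.map (algebraMap L (R2 L p q)))
      (s₁ /ₘ f'.map (algebraMap L (R2 L p q))) s₂ s₃
  have hNN := map_NN (al := al) s₂ s₃ hf s₀ s₁ hd0 hd1 c0 c1 c2 c3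
  have hZ1 := map_Z1 (m := m) s₂ s₃ hf s₀ s₁ hd1 c1 c2 c3
  change (NN m d₁ d₂ d₃ al be ga r s f').map (ψ : MvPolynomial (V4 m d₁ d₂ d₃) L →+* R2 L p q) = _
    at hNN
  change (Z1 m d₁ d₂ d₃ r s f').map (ψ : MvPolynomial (V4 m d₁ d₂ d₃) L →+* R2 L p q) = _ at hZ1
  have hjkψ : ∀ w : L[X], (jk w).map (ψ : MvPolynomial (V4 m d₁ d₂ d₃) L →+* R2 L p q) =
      jj p q w := fun w => map_jk _ _ _ _ w
  have hFOm := FO_mul (m := m) (d₁ := d₁) (d₂ := d₂) (d₃ := d₃) hf hP
  have hFO : (FO m d₁ d₂ d₃ al be ga r s f').map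
      (ψ : MvPolynomial (V4 m d₁ d₂ d₃) L →+* R2 L p q) = pe L Finset.univ := by
    have h1 := congrArg
      (Polynomial.map (ψ : MvPolynomial (V4 m d₁ d₂ d₃) L →+* R2 L p q)) hFOm
    rw [Polynomial.map_mul, hNN, hjkψ] at h1
    have h2 := norm_sk p q (f₁ := f₁) (f₂ := f₂) kp c₀ ν₁ (al * x) al be ga x y z A1 A2 A3
      hiso huni
    have h3 : jj p q f' * (FO m d₁ d₂ d₃ al be ga r s f').map
      (ψ : MvPolynomial (V4 m d₁ d₂ d₃) L →+* R2 L p q) = jj p q f' * pe L Finset.univ := by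
      rw [h1]
      refine h2.trans ?_
      rw [pe_eq, UU, VV, hff, jj_mul]; ring
    exact mul_left_cancel₀ (jj_ne p q hf.ne_zero) h3
  have hd1pos : 0 < d₁ := (hd₁ 0).mpr (by rw [hW1]; omega)
  let v₀ : V4 m d₁ d₂ d₃ := Sum.inr (Sum.inl ⟨0, hd1pos⟩)
  let D : MvPolynomial (V4 m d₁ d₂ d₃) L → MvPolynomial (V4 m d₁ d₂ d₃) L :=
    fun p => MvPolynomial.pderiv v₀ p
  have hD0 : ∀ a : L, D (algebraMap L _ a) = 0 := fun a => MvPolynomial.pderiv_C
  have hDz : D 0 = 0 := map_zero _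
  have hDa : ∀ x y, D (x + y) = D x + D y := fun x y => map_add _ x y
  have hDm : ∀ x y, D (x * y) = x * D y + y * D x := fun x y => by
    change MvPolynomial.pderiv v₀ (x * y) = _
    rw [MvPolynomial.pderiv_mul]
    change MvPolynomial.pderiv v₀ x * y + x * MvPolynomial.pderiv v₀ y =
      x * MvPolynomial.pderiv v₀ y + y * MvPolynomial.pderiv v₀ x
    ring
  let c : Fin (Fintype.card (II p q)) → MvPolynomial (V4 m d₁ d₂ d₃) L :=
    fun j => (FO m d₁ d₂ d₃ al be ga r s f').coeff j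
  have hc : ∀ j, ψ (c j) = (pe L Finset.univ).coeff j := by
    intro j
    rw [← hFO, coeff_map]
    rfl
  -- the derivative
  have hmcgp : ∀ {d : ℕ} (e : Fin d → V4 m d₁ d₂ d₃), (∀ l, e l ≠ v₀) → mc D (gp L e) = 0 := by
    intro d e he
    apply mc_zero D hDz
    intro j
    rw [gp_coeff]
    split_ifs with h
    · exact MvPolynomial.pderiv_X_of_ne (he _)
    · exact hDz
  have hmcX0 : mc D (X0 L m d₁ d₂ d₃) = 0 := by
    rw [X0, mc_add D hDz hDa, hmcgp _ (fun l => Sum.inl_ne_inr), add_zero]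
    apply mc_zero D hDz
    intro j
    rw [coeff_X_pow]
    split_ifs
    · exact MvPolynomial.pderiv_one
    · exact hDz
  have hmcX1 : mc D (X1 L m d₁ d₂ d₃) = 1 := by
    ext1 j
    rw [mc_coeff D hDz, X1, gp_coeff, coeff_one]
    split_ifs with h h5 h5
    · have h6 : (Sum.inr ∘ Sum.inl) (⟨j, h⟩ : Fin d₁) = v₀ := by
        change Sum.inr (Sum.inl _) = Sum.inr (Sum.inl _)
        congr 2
        exact Fin.ext h5
      rw [h6]
      exact MvPolynomial.pderiv_X_self _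
    · refine MvPolynomial.pderiv_X_of_ne ?_
      intro h6
      apply h5
      have h7 : (Sum.inr (Sum.inl ⟨j, h⟩) : V4 m d₁ d₂ d₃) = Sum.inr (Sum.inl ⟨0, hd1pos⟩) := h6
      have h8 := Sum.inl_injective (Sum.inr_injective h7)
      exact congrArg Fin.val h8
    · exact absurd (by rw [h5]; exact hd1pos) h
    · exact hDz
  have hmcX2 : mc D (X2 L m d₁ d₂ d₃) = 0 := hmcgp _ (fun l h => by
    have h7 : (Sum.inr (Sum.inr (Sum.inl l)) : V4 m d₁ d₂ d₃) = Sum.inr (Sum.inl ⟨0, hd1pos⟩) := h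
    exact Sum.inr_ne_inl (Sum.inr_injective h7))
  have hmcX3 : mc D (X3 L m d₁ d₂ d₃) = 0 := hmcgp _ (fun l h => by
    have h7 : (Sum.inr (Sum.inr (Sum.inr l)) : V4 m d₁ d₂ d₃) = Sum.inr (Sum.inl ⟨0, hd1pos⟩) := h
    exact Sum.inr_ne_inl (Sum.inr_injective h7))
  have hmcjk : ∀ p : L[X], mc D (jk p : (MvPolynomial (V4 m d₁ d₂ d₃) L)[X]) = 0 := by
    intro p
    apply mc_zero D hDz
    intro j
    rw [jk, coeff_map]
    exact hD0 _
  have hmcneg : ∀ p : (MvPolynomial (V4 m d₁ d₂ d₃) L)[X], mc D p = 0 → mc D (-p) = 0 := by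
    intro p hp0
    have h1 := mc_add D hDz hDa p (-p)
    rw [add_neg_cancel, hp0, zero_add] at h1
    rw [← h1]
    exact mc_zero D hDz fun j => by rw [coeff_zero]; exact hDz
  have hmulz : ∀ (w : L[X]) (p : (MvPolynomial (V4 m d₁ d₂ d₃) L)[X]), mc D p = 0 →
      mc D (jk w * p) = 0 := by
    intro w p hp0
    rw [mc_mul D hDz hDa hDm, hp0, hmcjk, mul_zero, mul_zero, add_zero]
  have hmcZ0 : mc D (Z0 m d₁ d₂ d₃ be ga r s f') = 0 := by
    rw [Z0, mc_add D hDz hDa, hmulz _ _ hmcX0, add_zero]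
    refine mc_mod D hDz hDa hDm _ _ (jk_monic hf) (hmcjk _) ?_
    rw [Q0, sub_eq_add_neg, mc_add D hDz hDa, hmulz _ _ hmcX2, zero_add]
    exact hmcneg _ (hmulz _ _ hmcX3)
  have hmcZ1 : mc D (Z1 m d₁ d₂ d₃ r s f') = jk f' := by
    rw [Z1, mc_add D hDz hDa, mc_mul D hDz hDa hDm, hmcX1, hmcjk, mul_one, mul_zero, add_zero]
    rw [mc_mod D hDz hDa hDm _ _ (jk_monic hf) (hmcjk _), zero_add]
    rw [Q1, sub_eq_add_neg, mc_add D hDz hDa, hmcneg _ (hmulz _ _ hmcX2), zero_add]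
    exact hmcneg _ (hmulz _ _ hmcX3)
  have hmcNN : mc D (NN m d₁ d₂ d₃ al be ga r s f') =
      jk f' * (jk (be * ga) * (2 * Z1 m d₁ d₂ d₃ r s f')) := by
    rw [NN]
    simp only [mc_add D hDz hDa, mc_mul D hDz hDa hDm, mc_sq D hDz hDa hDm, hmcZ0, hmcZ1, hmcX2,
      hmcX3, hmcjk]
    ring
  have hmcFO : mc D (FO m d₁ d₂ d₃ al be ga r s f') =
      jk (be * ga) * (2 * Z1 m d₁ d₂ d₃ r s f') := by
    have h1 := congrArg (mc D) hFOm
    rw [mc_mul D hDz hDa hDm, hmcjk, mul_zero, add_zero, hmcNN] at h1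
    exact mul_left_cancel₀ (jk_monic hf).ne_zero h1
  obtain ⟨hmon, hdegF⟩ := FO_monic (m := m) (d₁ := d₁) (d₂ := d₂) (d₃ := d₃) hf hP M hM hM0
    (by rw [hW1]; omega) (fun l hl => (hd₁ l).mp hl) (fun l hl => (hd₂ l).mp hl)
    (fun l hl => (hd₃ l).mp hl)
  have hdegF' : (FO m d₁ d₂ d₃ al be ga r s f').natDegree = Fintype.card (II p q) := by omega
  have hFF : FF ψ D c = (mc D (FO m d₁ d₂ d₃ al be ga r s f')).map
      (ψ : MvPolynomial (V4 m d₁ d₂ d₃) L →+* R2 L p q) := by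
    ext1 j
    rw [coeff_map, mc_coeff D hDz]
    by_cases hj : j < Fintype.card (II p q)
    · exact FF_coeff ψ D c ⟨j, hj⟩
    · have h5 := FF_degree ψ D c
      rw [degree_lt_iff_coeff_zero] at h5
      rw [h5 j (by omega)]
      rcases Nat.lt_or_ge (Fintype.card (II p q)) j with h6 | h6
      · rw [coeff_eq_zero_of_natDegree_lt (by rw [hdegF']; exact h6), hDz, map_zero]
      · have h7 : j = Fintype.card (II p q) := by omega
        have h8 : (FO m d₁ d₂ d₃ al be ga r s f').coeff (Fintype.card (II p q)) = 1 := by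
          have h9 := hmon.coeff_natDegree
          rwa [hdegF'] at h9
        rw [h7, h8]
        have h9 : D 1 = 0 := MvPolynomial.pderiv_one
        rw [h9, map_zero]
  have hi : i₁ ≠ i₀ := fun h => by simpa [i₀, i₁] using congrArg Fin.val h
  have hρ : pij L (Sum.inl i₀ : II p q) (Sum.inr j₀) (MvPolynomial.X (Sum.inl i₀)) =
      MvPolynomial.X (Sum.inl i₀) := pij_ne _ _ Sum.inl_ne_inr
  have hF : pij L (Sum.inl i₀ : II p q) (Sum.inr j₀)
      ((FF ψ D c).eval (MvPolynomial.X (Sum.inl i₀))) ≠ 0 := by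
    have h5 : (FF ψ D c) = jj p q (be * ga) * (2 * s₁) := by
      rw [hFF, hmcFO, Polynomial.map_mul, Polynomial.map_mul, hjkψ, hZ1, Polynomial.map_ofNat]
    rw [h5, eval_mul, map_mul, eval_mul, map_mul]
    refine mul_ne_zero (eval_jj p q _ _ _ _ hρ (mul_ne_zero hbe hga)) (mul_ne_zero ?_ ?_)
    · have h6 : (2 : (R2 L p q)[X]).eval (MvPolynomial.X (Sum.inl i₀)) =
          MvPolynomial.C (2 : L) := by
        rw [eval_ofNat, map_ofNat]
      rw [h6]
      have h7 : pij L (Sum.inl i₀ : II p q) (Sum.inr j₀) (MvPolynomial.C (2 : L)) =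
        MvPolynomial.C (2 : L) := AlgHom.commutes _ _
      rw [h7, Ne, MvPolynomial.C_eq_zero]
      norm_num
    · change pij L (Sum.inl i₀ : II p q) (Sum.inr j₀)
        ((Y2 p q f₁ f₂ * jj p q ν₁ + g2 p q f₁ f₂ kp c₀ ν₁ (al * x) * jj p q (al * x)).eval
          (MvPolynomial.X (Sum.inl i₀))) ≠ 0
      rw [eval_add, eval_mul, eval_mul, map_add, map_mul, map_mul, eval_Y, zero_mul, zero_add]
      exact mul_ne_zero hc₀ (eval_jj p q _ _ _ _ hρ hn)
  have hrho : ∀ (ρ : R2 L p q →ₐ[L] R2 L p q),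
      (u2 L p q).map (ρ : R2 L p q →+* R2 L p q) = u2 L p q →
      (v2 L p q).map (ρ : R2 L p q →+* R2 L p q) = v2 L p q → ∀ w, ρ (ψ w) = ψ w := by
    intro ρ hu hv w
    obtain ⟨hY, hS, hU⟩ := map_Y p q f₁ f₂ ρ hu hv
    have hgρ : (f'.map (algebraMap L (R2 L p q))).map (ρ : R2 L p q →+* R2 L p q) =
      f'.map (algebraMap L (R2 L p q)) := map_jj p q ρ f'
    refine psi_inv _ _ _ _ ρ ?_ ?_ (map_sk p q ρ hY hU _ _ _ _ _ _ hfn)
      (map_sk p q ρ hY hU _ _ _ _ _ _ hfn) w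
    · rw [Polynomial.map_divByMonic _ hgm, hgρ, hS]
    · rw [Polynomial.map_divByMonic _ hgm, hgρ, map_sk p q ρ hY hU _ _ _ _ _ _ hfn]
  refine mainL ψ D hD0 hDa hDm c hc ?_ ?_ W i₀ i₁ j₀ hi hF
  · intro w i j
    refine hrho (MvPolynomial.rename _) ?_ ?_ w
    · refine map_u p q _ (σ := Equiv.swap i j) fun l => ?_
      rw [MvPolynomial.rename_X]
      congr 1
      exact (Function.Injective.swap_apply Sum.inl_injective i j l)
    · refine map_v p q _ (σ := 1) fun l => ?_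
      rw [MvPolynomial.rename_X]
      congr 1
  · intro w i j
    refine hrho (MvPolynomial.rename _) ?_ ?_ w
    · refine map_u p q _ (σ := 1) fun l => ?_
      rw [MvPolynomial.rename_X]
      congr 1
    · refine map_v p q _ (σ := Equiv.swap i j) fun l => ?_
      rw [MvPolynomial.rename_X]
      congr 1
      exact (Function.Injective.swap_apply Sum.inr_injective i j l)

end main

end Pool.Agent.Zk31.FG
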