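import Pool.Agent.Zk31.FG
import Pool.Agent.Zk31.EO

/-! The generic family in a lattice over the base field. -/

set_option autoImplicit false
set_option linter.unusedSectionVars false
set_option linter.unusedVariables false

namespace Pool.Agent.Zk31.FH

open Polynomial IntermediateField Pool.Agent.Zk31.EH Pool.Agent.Zk31.FD
open Pool.Agent.Zk31.EL (dd dd_iff)

section

variable (K : Type) [Field K] [CharZero K]

variable {K}

/-- the variables of the family -/
abbrev VO (m : ℕ) (al be ga f' : K[X]) : Type :=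
  V4 m (dd (m + f'.natDegree) ((be * ga).natDegree + 2 * f'.natDegree))
    (dd (m + f'.natDegree) (ga * al).natDegree) (dd (m + f'.natDegree) (al * be).natDegree)

/-- the generic norm -/
noncomputable def fO (m : ℕ) (al be ga r s f' : K[X]) : (MvPolynomial (VO m al be ga f') K)[X] :=
  FO m _ _ _ al be ga r s f'

/-- the conclusion -/
def GoodO (m : ℕ) (al be ga r s f' : K[X]) : Prop :=
  ∀ n : ℕ, n = 2 * m + f'.natDegree →
    AlgebraicIndependent K (fun j : Fin n => (fO m al be ga r s f').coeff j) ∧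
    ∀ w : FractionRing (MvPolynomial (VO m al be ga f') K),
      IsAlgebraic (adjoin K (Set.range fun j : Fin n => algebraMap _
        (FractionRing (MvPolynomial (VO m al be ga f') K)) ((fO m al be ga r s f').coeff j))) w →
      w ∈ adjoin K (Set.range fun j : Fin n => algebraMap _
        (FractionRing (MvPolynomial (VO m al be ga f') K)) ((fO m al be ga r s f').coeff j))

theorem map_FO {L : Type} [Field L] [Algebra K L] (m d₁ d₂ d₃ : ℕ) (al be ga r s f' : K[X])
    (hf : f'.Monic) :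
    (FO m d₁ d₂ d₃ al be ga r s f').map (MvPolynomial.map (algebraMap K L)) =
      FO m d₁ d₂ d₃ (al.map (algebraMap K L)) (be.map (algebraMap K L))
        (ga.map (algebraMap K L)) (r.map (algebraMap K L)) (s.map (algebraMap K L))
        (f'.map (algebraMap K L)) := by
  have hgp : ∀ {d : ℕ} (e : Fin d → V4 m d₁ d₂ d₃),
      (gp K e).map (MvPolynomial.map (algebraMap K L)) = gp L e := by
    intro d e
    rw [gp, Polynomial.map_sum, gp]
    refine Finset.sum_congr rfl fun l _ => ?_
    rw [Polynomial.map_mul, map_C, MvPolynomial.map_X, Polynomial.map_pow, map_X]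
  have hjk : ∀ p : K[X], (jk p : (MvPolynomial (V4 m d₁ d₂ d₃) K)[X]).map
      (MvPolynomial.map (algebraMap K L)) = jk (p.map (algebraMap K L)) := by
    intro p
    rw [jk, jk, Polynomial.map_map, Polynomial.map_map]
    congr 1
    ext1 a
    change MvPolynomial.map (algebraMap K L) (MvPolynomial.C a) = _
    rw [MvPolynomial.map_C]
    rfl
  have hm : (jk f' : (MvPolynomial (V4 m d₁ d₂ d₃) K)[X]).Monic := jk_monic hf
  simp only [FO, NN, Z0, Z1, Q0, Q1, Polynomial.map_divByMonic _ hm, Polynomial.map_modByMonic _ hm,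
    Polynomial.map_add, Polynomial.map_sub, Polynomial.map_neg, Polynomial.map_mul,
    Polynomial.map_pow, hjk, X0, X1, X2, X3, hgp, map_X]

theorem good_of {L : Type} [Field L] [CharZero L] [Algebra K L] (al be ga r s f' : K[X])
    (hal : al ≠ 0) (hbe : be ≠ 0) (hga : ga ≠ 0) (hf : f'.Monic) (hirr : Irreducible f')
    (hca : IsCoprime f' al) (hcb : IsCoprime f' be) (hcg : IsCoprime f' ga)
    (hP : f' ∣ al + be * r ^ 2 + ga * s ^ 2) (x y z A1 A2 A3 : L[X])
    (hiso : al.map (algebraMap K L) * x ^ 2 + be.map (algebraMap K L) * y ^ 2 +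
      ga.map (algebraMap K L) * z ^ 2 = 0)
    (huni : al.map (algebraMap K L) * x * A1 + be.map (algebraMap K L) * y * A2 +
      ga.map (algebraMap K L) * z * A3 = 1) (hx : x ≠ 0)
    (hy2 : y = 0 ∨ 2 * y.natDegree + be.natDegree ≤ 2 * x.natDegree + al.natDegree)
    (hz2 : z = 0 ∨ 2 * z.natDegree + ga.natDegree ≤ 2 * x.natDegree + al.natDegree)
    (m : ℕ) (hm : 2 * (al.natDegree + x.natDegree + f'.natDegree) + be.natDegree +
      ga.natDegree < 2 * (m + f'.natDegree))
    (hm2 : 2 ≤ m) : GoodO m al be ga r s f' := by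
  have hinj := (algebraMap K L).injective
  let V := VO m al be ga f'
  let W' := FractionRing (MvPolynomial V L)
  have hcm : ∀ {p q : K[X]}, IsCoprime p q →
      IsCoprime (p.map (algebraMap K L)) (q.map (algebraMap K L)) := fun h =>
    h.map (mapRingHom (algebraMap K L))
  have hPm : f'.map (algebraMap K L) ∣ al.map (algebraMap K L) +
      be.map (algebraMap K L) * r.map (algebraMap K L) ^ 2 +
      ga.map (algebraMap K L) * s.map (algebraMap K L) ^ 2 := by
    obtain ⟨w, hw⟩ := hP
    refine ⟨w.map (algebraMap K L), ?_⟩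
    rw [← Polynomial.map_mul, ← hw, Polynomial.map_add, Polynomial.map_add, Polynomial.map_mul,
      Polynomial.map_mul, Polynomial.map_pow, Polynomial.map_pow]
  intro n hn
  have h1 := Pool.Agent.Zk31.FG.closedO (L := L) (m := m)
    (d₁ := dd (m + f'.natDegree) ((be * ga).natDegree + 2 * f'.natDegree))
    (d₂ := dd (m + f'.natDegree) (ga * al).natDegree)
    (d₃ := dd (m + f'.natDegree) (al * be).natDegree)
    (al.map (algebraMap K L)) (be.map (algebraMap K L)) (ga.map (algebraMap K L)) x y z A1 A2 A3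
    (r.map (algebraMap K L)) (s.map (algebraMap K L)) (f'.map (algebraMap K L))
    hiso huni ((Polynomial.map_ne_zero_iff hinj).mpr hal) ((Polynomial.map_ne_zero_iff hinj).mpr hbe)
    ((Polynomial.map_ne_zero_iff hinj).mpr hga) hx
    (by rw [natDegree_map, natDegree_map]; exact hy2)
    (by rw [natDegree_map, natDegree_map]; exact hz2)
    (hf.map _) (((PerfectField.separable_iff_squarefree.mpr hirr.squarefree).map).squarefree)
    (hcm hca) (hcm hcb) (hcm hcg) hPm (m + f'.natDegree)
    (by rw [natDegree_map])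
    (by rw [natDegree_map, natDegree_map, natDegree_map, natDegree_map]; exact hm) hm2
    (fun l => by
      rw [← Polynomial.map_mul, natDegree_map, natDegree_map, dd_iff]
      constructor <;> intro h <;> omega)
    (fun l => by rw [← Polynomial.map_mul, natDegree_map]; exact dd_iff _ _ _)
    (fun l => by rw [← Polynomial.map_mul, natDegree_map]; exact dd_iff _ _ _) W' n
    (by rw [natDegree_map]; omega)
  have hco : ∀ j : ℕ, (FO m (dd (m + f'.natDegree) ((be * ga).natDegree + 2 * f'.natDegree))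
      (dd (m + f'.natDegree) (ga * al).natDegree) (dd (m + f'.natDegree) (al * be).natDegree)
      (al.map (algebraMap K L)) (be.map (algebraMap K L)) (ga.map (algebraMap K L))
      (r.map (algebraMap K L)) (s.map (algebraMap K L)) (f'.map (algebraMap K L))).coeff j =
      MvPolynomial.map (algebraMap K L) ((fO m al be ga r s f').coeff j) := by
    intro j
    rw [← map_FO _ _ _ _ _ _ _ _ _ _ hf, coeff_map]
    rfl
  have hfam : (fun j : Fin n => algebraMap (MvPolynomial V L) W'
      ((FO m (dd (m + f'.natDegree) ((be * ga).natDegree + 2 * f'.natDegree))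
      (dd (m + f'.natDegree) (ga * al).natDegree) (dd (m + f'.natDegree) (al * be).natDegree)
      (al.map (algebraMap K L)) (be.map (algebraMap K L)) (ga.map (algebraMap K L))
      (r.map (algebraMap K L)) (s.map (algebraMap K L)) (f'.map (algebraMap K L))).coeff j)) =
      fun j : Fin n => algebraMap (MvPolynomial V L) W'
        (MvPolynomial.map (algebraMap K L) ((fO m al be ga r s f').coeff j)) :=
    funext fun j => congrArg (algebraMap (MvPolynomial V L) W') (hco j)
  rw [hfam] at h1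
  refine ⟨Pool.Agent.Zk31.EK.indep_down
    (fun j : Fin n => (fO m al be ga r s f').coeff j) W' h1.1, ?_⟩
  intro w hw
  exact Pool.Agent.Zk31.EK.descend (fun j : Fin n => (fO m al be ga r s f').coeff j)
    _ W' h1.1 h1.2 w hw

end

/-- **The generic family over the base field.** -/
theorem familyO (K : Type) [Field K] [CharZero K] (al be ga : K[X]) (hal : al ≠ 0) (hbe : be ≠ 0)
    (hga : ga ≠ 0) (ha : Squarefree al) (hb : Squarefree be) (hc : Squarefree ga)
    (hab : IsCoprime al be) (hbc : IsCoprime be ga) (hca : IsCoprime ga al)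
    (f' : K[X]) (hf : f'.Monic) (hirr : Irreducible f')
    (hfa : IsCoprime f' al) (hfb : IsCoprime f' be) (hfg : IsCoprime f' ga)
    (r₁ s₁ r₂ s₂ r₃ s₃ : K[X]) (hP₁ : f' ∣ al + be * r₁ ^ 2 + ga * s₁ ^ 2)
    (hP₂ : f' ∣ be + ga * r₂ ^ 2 + al * s₂ ^ 2) (hP₃ : f' ∣ ga + al * r₃ ^ 2 + be * s₃ ^ 2) :
    ∃ M : ℕ, (∀ m, M ≤ m → GoodO m al be ga r₁ s₁ f') ∨ (∀ m, M ≤ m → GoodO m be ga al r₂ s₂ f') ∨
      (∀ m, M ≤ m → GoodO m ga al be r₃ s₃ f') := by
  let L := AlgebraicClosure K
  have hinj := (algebraMap K L).injective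
  have hsq : ∀ {p : K[X]}, Squarefree p → Squarefree (p.map (algebraMap K L)) := fun h =>
    ((PerfectField.separable_iff_squarefree.mpr h).map).squarefree
  obtain ⟨x, y, z, A1, A2, A3, hiso, huni⟩ := Pool.Agent.Zk31.EJ.exists_data (L := L)
    (al.map (algebraMap K L)) (be.map (algebraMap K L)) (ga.map (algebraMap K L))
    ((Polynomial.map_ne_zero_iff hinj).mpr hal) ((Polynomial.map_ne_zero_iff hinj).mpr hbe)
    ((Polynomial.map_ne_zero_iff hinj).mpr hga) (hsq ha) (hsq hb) (hsq hc)
    (hab.map (mapRingHom (algebraMap K L))) (hbc.map (mapRingHom (algebraMap K L)))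
    (hca.map (mapRingHom (algebraMap K L)))
  have hne : ¬ (x = 0 ∧ y = 0 ∧ z = 0) := by
    rintro ⟨rfl, rfl, rfl⟩
    simp at huni
  classical
  let wx : ℕ := if x = 0 then 0 else 2 * x.natDegree + al.natDegree + 1
  let wy : ℕ := if y = 0 then 0 else 2 * y.natDegree + be.natDegree + 1
  let wz : ℕ := if z = 0 then 0 else 2 * z.natDegree + ga.natDegree + 1
  have hwx : (x = 0 ∧ wx = 0) ∨ (x ≠ 0 ∧ wx = 2 * x.natDegree + al.natDegree + 1) := by
    by_cases h : x = 0
    · left; exact ⟨h, if_pos h⟩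
    · right; exact ⟨h, if_neg h⟩
  have hwy : (y = 0 ∧ wy = 0) ∨ (y ≠ 0 ∧ wy = 2 * y.natDegree + be.natDegree + 1) := by
    by_cases h : y = 0
    · left; exact ⟨h, if_pos h⟩
    · right; exact ⟨h, if_neg h⟩
  have hwz : (z = 0 ∧ wz = 0) ∨ (z ≠ 0 ∧ wz = 2 * z.natDegree + ga.natDegree + 1) := by
    by_cases h : z = 0
    · left; exact ⟨h, if_pos h⟩
    · right; exact ⟨h, if_neg h⟩
  have hpos : 0 < wx ∨ 0 < wy ∨ 0 < wz := by
    rcases hwx with ⟨h1, h1'⟩ | ⟨h1, h1'⟩
    · rcases hwy with ⟨h2, h2'⟩ | ⟨h2, h2'⟩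
      · rcases hwz with ⟨h3, h3'⟩ | ⟨h3, h3'⟩
        · exact absurd ⟨h1, h2, h3⟩ hne
        · omega
      · omega
    · omega
  have hcase : (wy ≤ wx ∧ wz ≤ wx) ∨ (wz ≤ wy ∧ wx ≤ wy) ∨ (wx ≤ wz ∧ wy ≤ wz) := by omega
  refine ⟨2 * (al.natDegree + x.natDegree) + 2 * (be.natDegree + y.natDegree) +
    2 * (ga.natDegree + z.natDegree) + 2, ?_⟩
  rcases hcase with ⟨h1, h2⟩ | ⟨h1, h2⟩ | ⟨h1, h2⟩
  · left
    intro m hm
    refine good_of al be ga r₁ s₁ f' hal hbe hga hf hirr hfa hfb hfg hP₁ x y z A1 A2 A3 hiso huni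
      ?_ ?_ ?_ m (by omega) (by omega)
    · rcases hwx with ⟨h3, h4⟩ | ⟨h3, h4⟩
      · omega
      · exact h3
    · rcases hwy with ⟨h3, h4⟩ | ⟨h3, h4⟩
      · left; exact h3
      · right; rcases hwx with ⟨h5, h6⟩ | ⟨h5, h6⟩ <;> omega
    · rcases hwz with ⟨h3, h4⟩ | ⟨h3, h4⟩
      · left; exact h3
      · right; rcases hwx with ⟨h5, h6⟩ | ⟨h5, h6⟩ <;> omega
  · right; left
    intro m hm
    refine good_of be ga al r₂ s₂ f' hbe hga hal hf hirr hfb hfg hfa hP₂ y z x A2 A3 A1
      (by linear_combination hiso)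
      (by linear_combination huni) ?_ ?_ ?_ m (by omega) (by omega)
    · rcases hwy with ⟨h3, h4⟩ | ⟨h3, h4⟩
      · omega
      · exact h3
    · rcases hwz with ⟨h3, h4⟩ | ⟨h3, h4⟩
      · left; exact h3
      · right; rcases hwy with ⟨h5, h6⟩ | ⟨h5, h6⟩ <;> omega
    · rcases hwx with ⟨h3, h4⟩ | ⟨h3, h4⟩
      · left; exact h3
      · right; rcases hwy with ⟨h5, h6⟩ | ⟨h5, h6⟩ <;> omega
  · right; right
    intro m hm
    refine good_of ga al be r₃ s₃ f' hga hal hbe hf hirr hfg hfa hfb hP₃ z x y A3 A1 A2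
      (by linear_combination hiso)
      (by linear_combination huni) ?_ ?_ ?_ m (by omega) (by omega)
    · rcases hwz with ⟨h3, h4⟩ | ⟨h3, h4⟩
      · omega
      · exact h3
    · rcases hwx with ⟨h3, h4⟩ | ⟨h3, h4⟩
      · left; exact h3
      · right; rcases hwz with ⟨h5, h6⟩ | ⟨h5, h6⟩ <;> omega
    · rcases hwy with ⟨h3, h4⟩ | ⟨h3, h4⟩
      · left; exact h3
      · right; rcases hwz with ⟨h5, h6⟩ | ⟨h5, h6⟩ <;> omega

end Pool.Agent.Zk31.FH
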