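import Pool.Agent.Zk31.FH

/-! The generic polynomial of odd degree over which the conic has a point. -/

set_option autoImplicit false
set_option linter.unusedSectionVars false
set_option linter.unusedVariables false

namespace Pool.Agent.Zk31.FI

open Polynomial IntermediateField Pool.Agent.Zk31.EH Pool.Agent.Zk31.FD Pool.Agent.Zk31.FH
  Pool.Agent.Zk31.EM Pool.Agent.Zk31.EN Pool.Agent.Zk31.EO Pool.Agent.TH178.HI
open Pool.Agent.Zk31.EL (dd dd_iff)

/-- Conclusion of the main lemma for the conic `a X² + b Y² = 1`. -/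
def Concl (K : Type) [Field K] (a b : K[X]) (n : ℕ) : Prop :=
    ∃ (Cf : Type) (_ : Field Cf) (_ : Algebra K Cf) (f X₀ Y₀ : Cf[X]),
      Pure (⊤ : IntermediateField K Cf) ∧ f.Monic ∧ f.natDegree = n ∧
      AlgebraicIndependent K (fun j : Fin n => f.coeff j) ∧
      (∀ z : Cf, IsAlgebraic (adjoin K (Set.range fun j : Fin n => f.coeff j)) z →
        z ∈ adjoin K (Set.range fun j : Fin n => f.coeff j)) ∧
      f ∣ a.map (algebraMap K Cf) * X₀ ^ 2 + b.map (algebraMap K Cf) * Y₀ ^ 2 - 1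

theorem ml1O {K : Type} [Field K] [CharZero K] (a b al be ga r s f' : K[X]) (m : ℕ) (hm : 0 < m)
    (hf : f'.Monic) (hP : f' ∣ al + be * r ^ 2 + ga * s ^ 2)
    (hm' : (be * ga).natDegree < 2 * m)
    (hgood : GoodO m al be ga r s f')
    (H : ∀ (F : Type) [Field F] [CharZero F] (φ : K[X] →+* F), Function.Injective φ →
      ∀ x0 x1 x2 x3 : F, x0 ≠ 0 → x0 ^ 2 + φ (be * ga) * x1 ^ 2 + φ (ga * al) * x2 ^ 2 +
        φ (al * be) * x3 ^ 2 = 0 → ∃ X' Y' : F, φ a * X' ^ 2 + φ b * Y' ^ 2 = 1)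
    (n : ℕ) (hn : n = 2 * m + f'.natDegree) : Concl K a b n := by
  let R := MvPolynomial (VO m al be ga f') K
  let Cf := FractionRing R
  let g : R →+* Cf := algebraMap R Cf
  let f : Cf[X] := (fO m al be ga r s f').map g
  have hff := FO_monic (m := m)
    (d₁ := dd (m + f'.natDegree) ((be * ga).natDegree + 2 * f'.natDegree))
    (d₂ := dd (m + f'.natDegree) (ga * al).natDegree)
    (d₃ := dd (m + f'.natDegree) (al * be).natDegree) hf hP (m + f'.natDegree) rfl (by omega)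
    (by omega)
    (fun l hl => by
      have := (dd_iff (m + f'.natDegree) ((be * ga).natDegree + 2 * f'.natDegree) l).mp hl
      omega)
    (fun l => (dd_iff (m + f'.natDegree) (ga * al).natDegree l).mp)
    (fun l => (dd_iff (m + f'.natDegree) (al * be).natDegree l).mp)
  have hmon : f.Monic := hff.1.map g
  have hdeg : f.natDegree = n := by
    have h1 : f.natDegree = (fO m al be ga r s f').natDegree := hff.1.natDegree_map g
    have h2 := hff.2
    change (fO m al be ga r s f').natDegree + _ = _ at h2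
    omega
  obtain ⟨hg1, hg2⟩ := hgood n hn
  have hco : (fun j : Fin n => f.coeff j) = fun j : Fin n => algebraMap R Cf
      ((fO m al be ga r s f').coeff j) := funext fun j => coeff_map g j
  have hci : AlgebraicIndependent K (fun j : Fin n => f.coeff j) := by
    rw [hco]
    exact hg1.map' (f := IsScalarTower.toAlgHom K R Cf) (IsFractionRing.injective R Cf)
  have hcl : ∀ z : Cf, IsAlgebraic (adjoin K (Set.range fun j : Fin n => f.coeff j)) z →
      z ∈ adjoin K (Set.range fun j : Fin n => f.coeff j) := by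
    rw [hco]; exact hg2
  have hn0 : 0 < n := by omega
  have hirr : Irreducible f := irr hn0 f hmon hdeg hci hcl
  refine ⟨Cf, inferInstance, inferInstance, f, ?_⟩
  have : Fact (Irreducible f) := ⟨hirr⟩
  have hch : CharZero Cf := charZero_of_injective_algebraMap (algebraMap K Cf).injective
  have hch2 : CharZero (AdjoinRoot f) :=
    charZero_of_injective_algebraMap (algebraMap Cf (AdjoinRoot f)).injective
  let φ : K[X] →+* AdjoinRoot f := (AdjoinRoot.mk f).comp (mapRingHom (algebraMap K Cf))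
  have hφ : Function.Injective φ := by
    rw [injective_iff_map_eq_zero]
    intro p hp
    by_contra hp0
    exact inj_root hn0 f hmon hci p hp0 (AdjoinRoot.mk_eq_zero.mp hp)
  let ψ : R[X] →+* AdjoinRoot f := (AdjoinRoot.mk f).comp (mapRingHom g)
  have hψj : ∀ p : K[X], ψ (jk p) = φ p := by
    intro p
    change AdjoinRoot.mk f ((p.map (algebraMap K R)).map g) = AdjoinRoot.mk f (p.map _)
    rw [Polynomial.map_map]
    congr 2
  have hψf : ψ (fO m al be ga r s f') = 0 := AdjoinRoot.mk_self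
  have hψN : ψ (NN m _ _ _ al be ga r s f') = 0 := by
    rw [← FO_mul hf hP, map_mul]
    change _ * ψ (fO m al be ga r s f') = 0
    rw [hψf, mul_zero]
  have hx0 : ψ (Z0 m (dd (m + f'.natDegree) ((be * ga).natDegree + 2 * f'.natDegree))
      (dd (m + f'.natDegree) (ga * al).natDegree)
      (dd (m + f'.natDegree) (al * be).natDegree) be ga r s f') ≠ 0 := by
    intro h0
    have hX := Z0_monic (m := m)
      (d₁ := dd (m + f'.natDegree) ((be * ga).natDegree + 2 * f'.natDegree))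
      (d₂ := dd (m + f'.natDegree) (ga * al).natDegree)
      (d₃ := dd (m + f'.natDegree) (al * be).natDegree) (be := be) (ga := ga) (r := r) (s := s) hf
    have h1 := AdjoinRoot.mk_eq_zero.mp h0
    have h2 : ((Z0 m (dd (m + f'.natDegree) ((be * ga).natDegree + 2 * f'.natDegree))
      (dd (m + f'.natDegree) (ga * al).natDegree)
      (dd (m + f'.natDegree) (al * be).natDegree) be ga r s f').map g).Monic := hX.1.map g
    refine hmon.not_dvd_of_natDegree_lt h2.ne_zero ?_ h1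
    rw [hdeg, hn]
    refine lt_of_eq_of_lt (hX.1.natDegree_map g) ?_
    rw [hX.2]; omega
  obtain ⟨X', Y', hXY⟩ := H (AdjoinRoot f) φ hφ _ _ _ _ hx0 (by
    have h1 := hψN
    rw [NN] at h1
    simp only [map_add, map_mul ψ (jk _), map_pow ψ, hψj] at h1
    exact h1)
  obtain ⟨X₀, rfl⟩ := AdjoinRoot.mk_surjective X'
  obtain ⟨Y₀, rfl⟩ := AdjoinRoot.mk_surjective Y'
  refine ⟨X₀, Y₀, pure_top K _, hmon, hdeg, hci, hcl, ?_⟩
  rw [← AdjoinRoot.mk_eq_zero, map_sub, map_add, map_mul, map_mul, map_pow, map_pow, map_one,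
    sub_eq_zero]
  exact hXY

/-- slopes of a point with invertible first coordinate -/
theorem slopes {K : Type} [Field K] {al be ga f' P1 P2 P3 : K[X]} (h1 : IsCoprime P1 f')
    (hP : f' ∣ al * P1 ^ 2 + be * P2 ^ 2 + ga * P3 ^ 2) :
    ∃ r s : K[X], f' ∣ al + be * r ^ 2 + ga * s ^ 2 := by
  obtain ⟨u, v, huv⟩ := h1
  refine ⟨P2 * u, P3 * u, ?_⟩
  have e : al + be * (P2 * u) ^ 2 + ga * (P3 * u) ^ 2 =
      (al * P1 ^ 2 + be * P2 ^ 2 + ga * P3 ^ 2) * u ^ 2 + f' * (al * v * (1 + u * P1)) := by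
    linear_combination (-(al * (1 + u * P1))) * huv
  rw [e]
  exact dvd_add (hP.mul_right _) (dvd_mul_right _ _)

/-- **Main lemma, odd degrees.** -/
theorem mlO (K : Type) [Field K] [CharZero K] (a b al be ga h0 h1 : K[X]) (ha : a ≠ 0)
    (hb : b ≠ 0) (hal : al ≠ 0) (hbe : be ≠ 0) (hga : ga ≠ 0) (sa : Squarefree al)
    (sb : Squarefree be) (sc : Squarefree ga) (cab : IsCoprime al be) (cbc : IsCoprime be ga)
    (cca : IsCoprime ga al) (hh0 : h0 ≠ 0) (hh1 : h1 ≠ 0) (hae : a = -(ga * al * h0 ^ 2))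
    (hbe' : b = -(ga * be * h1 ^ 2)) (f' : K[X]) (hf : f'.Monic) (hirr : Irreducible f')
    (hodd : Odd f'.natDegree) (hfa : IsCoprime f' al) (hfb : IsCoprime f' be)
    (hfg : IsCoprime f' ga) (P1 P2 P3 : K[X]) (hP1 : IsCoprime P1 f') (hP2 : IsCoprime P2 f')
    (hP3 : IsCoprime P3 f') (hP : f' ∣ al * P1 ^ 2 + be * P2 ^ 2 + ga * P3 ^ 2) :
    ∃ M : ℕ, ∀ n : ℕ, M ≤ n → Odd n → Concl K a b n := by
  obtain ⟨r₁, s₁, h1P⟩ := slopes hP1 hP
  obtain ⟨r₂, s₂, h2P⟩ := slopes (al := be) (be := ga) (ga := al) (P2 := P3) (P3 := P1) hP2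
    (by have e : be * P2 ^ 2 + ga * P3 ^ 2 + al * P1 ^ 2 =
          al * P1 ^ 2 + be * P2 ^ 2 + ga * P3 ^ 2 := by ring
        rw [e]; exact hP)
  obtain ⟨r₃, s₃, h3P⟩ := slopes (al := ga) (be := al) (ga := be) (P2 := P1) (P3 := P2) hP3
    (by have e : ga * P3 ^ 2 + al * P1 ^ 2 + be * P2 ^ 2 =
          al * P1 ^ 2 + be * P2 ^ 2 + ga * P3 ^ 2 := by ring
        rw [e]; exact hP)
  obtain ⟨M, hM⟩ := familyO K al be ga hal hbe hga sa sb sc cab cbc cca f' hf hirr hfa hfb hfg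
    r₁ s₁ r₂ s₂ r₃ s₃ h1P h2P h3P
  refine ⟨2 * (M + al.natDegree + be.natDegree + ga.natDegree + 1) + f'.natDegree + 2,
    fun n hn he => ?_⟩
  obtain ⟨c, hc⟩ := he
  obtain ⟨e, he⟩ := hodd
  obtain ⟨m, hm⟩ : ∃ m, n = 2 * m + f'.natDegree := ⟨c - e, by omega⟩
  have key : ∀ (F : Type) [Field F] [CharZero F] (φ : K[X] →+* F), Function.Injective φ →
      ∀ X Y Z : F, ¬ (X = 0 ∧ Y = 0 ∧ Z = 0) → φ al * X ^ 2 + φ be * Y ^ 2 + φ ga * Z ^ 2 = 0 →
      ∃ X' Y' : F, φ a * X' ^ 2 + φ b * Y' ^ 2 = 1 := fun F _ _ φ hφ X Y Z hne h =>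
    back two_ne_zero φ hφ ha hb hga hh0 hh1 hae hbe' hne h
  have e : ∀ {F : Type} [Field F] (φ : K[X] →+* F), Function.Injective φ → ∀ {p : K[X]},
      p ≠ 0 → φ p ≠ 0 := fun φ hφ _ hp => (map_ne_zero_iff φ hφ).mpr hp
  rcases hM with hM | hM | hM
  · refine ml1O a b al be ga r₁ s₁ f' m (by omega) hf h1P ?_ (hM m (by omega)) ?_ n hm
    · rw [natDegree_mul hbe hga]; omega
    intro F _ _ φ hφ x0 x1 x2 x3 hx h
    rw [map_mul, map_mul, map_mul] at h
    obtain ⟨X, Y, Z, hne, hX⟩ := z1 (e φ hφ hal) (e φ hφ hbe) (e φ hφ hga) h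
      (fun h => hx h.1)
    exact key F φ hφ X Y Z hne hX
  · refine ml1O a b be ga al r₂ s₂ f' m (by omega) hf h2P ?_ (hM m (by omega)) ?_ n hm
    · rw [natDegree_mul hga hal]; omega
    intro F _ _ φ hφ x0 x1 x2 x3 hx h
    rw [map_mul, map_mul, map_mul] at h
    obtain ⟨X, Y, Z, hne, hX⟩ := z1 (e φ hφ hbe) (e φ hφ hga) (e φ hφ hal) h
      (fun h => hx h.1)
    exact key F φ hφ Z X Y (fun h => hne ⟨h.2.1, h.2.2, h.1⟩) (by linear_combination hX)
  · refine ml1O a b ga al be r₃ s₃ f' m (by omega) hf h3P ?_ (hM m (by omega)) ?_ n hm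
    · rw [natDegree_mul hal hbe]; omega
    intro F _ _ φ hφ x0 x1 x2 x3 hx h
    rw [map_mul, map_mul, map_mul] at h
    obtain ⟨X, Y, Z, hne, hX⟩ := z1 (e φ hφ hga) (e φ hφ hal) (e φ hφ hbe) h
      (fun h => hx h.1)
    exact key F φ hφ Y Z X (fun h => hne ⟨h.2.2, h.1, h.2.1⟩) (by linear_combination hX)

end Pool.Agent.Zk31.FI
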