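import Pool.Agent.Zk31.FJ

/-! Springer's theorem, and the main lemma for quadric bundles. -/

set_option autoImplicit false
set_option linter.unusedSectionVars false
set_option linter.unusedVariables false

namespace Pool.Agent.Zk31.FK

open Polynomial IntermediateField Pool.Agent.Zk31.FI Pool.Agent.Zk31.FJ Pool.Agent.TH178.HI

section springer

variable {F : Type} [Field F] [CharZero F] {ι : Type} [Fintype ι]

theorem springer_poly (a : ι → F)
    (haniso : ∀ c : ι → F, (∀ i, a i = 0 → c i = 0) → ∑ i, a i * c i ^ 2 = 0 → ∀ i, c i = 0) :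
    ∀ (N : ℕ) (p : F[X]), p.natDegree ≤ N → Irreducible p → Odd p.natDegree →
      ∀ g : ι → F[X], (∀ i, a i = 0 → g i = 0) → p ∣ ∑ i, C (a i) * g i ^ 2 → ∀ i, p ∣ g i := by
  classical
  intro N
  induction N with
  | zero =>
    intro p hp hirr hodd
    obtain ⟨c, hc⟩ := hodd
    omega
  | succ N ih =>
    intro p hp hirr hodd g hg0 hdvd
    by_contra hcon
    push Not at hcon
    obtain ⟨i₁, hi₁⟩ := hcon
    let r : ι → F[X] := fun i => g i % p
    have hr : ∀ i, p ∣ g i - r i := fun i => by
      have h1 : g i - r i = p * (g i / p) := by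
        have := EuclideanDomain.div_add_mod (g i) p
        linear_combination -this
      rw [h1]; exact dvd_mul_right _ _
    have hr0 : ∀ i, a i = 0 → r i = 0 := fun i hi => by
      change g i % p = 0
      rw [hg0 i hi]; exact EuclideanDomain.zero_mod p
    have hrd : ∀ i, r i = 0 ∨ (r i).natDegree < p.natDegree := fun i => by
      by_cases h : r i = 0
      · exact Or.inl h
      · right
        exact natDegree_lt_natDegree h (EuclideanDomain.mod_lt (g i) hirr.ne_zero)
    have hr1 : r i₁ ≠ 0 := by
      intro h
      have := hr i₁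
      rw [h, sub_zero] at this
      exact hi₁ this
    have hdr : p ∣ ∑ i, C (a i) * r i ^ 2 := by
      have e : ∑ i, C (a i) * r i ^ 2 = ∑ i, C (a i) * g i ^ 2 -
          ∑ i, C (a i) * ((g i - r i) * (g i + r i)) := by
        rw [← Finset.sum_sub_distrib]
        exact Finset.sum_congr rfl fun i _ => by ring
      rw [e]
      exact dvd_sub hdvd (Finset.dvd_sum fun i _ => ((hr i).mul_right _).mul_left _)
    -- divide by the greatest common divisor
    obtain ⟨d, hd⟩ := (IsPrincipalIdealRing.principal (Ideal.span (Set.range r))).principal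
    rw [Ideal.submodule_span_eq] at hd
    have hdi : ∀ i, ∃ s, r i = d * s := fun i => by
      have h1 : r i ∈ Ideal.span {d} := by rw [← hd]; exact Ideal.subset_span ⟨i, rfl⟩
      exact Ideal.mem_span_singleton.mp h1
    choose s hs using hdi
    have hd0 : d ≠ 0 := by
      rintro rfl
      exact hr1 (by rw [hs, zero_mul])
    obtain ⟨cc, hcc⟩ : ∃ cc : ι → F[X], ∑ i, cc i * r i = d := by
      have h1 : d ∈ Ideal.span (Set.range r) := by
        rw [hd]; exact Ideal.mem_span_singleton_self d
      exact Ideal.mem_span_range_iff_exists_fun.mp h1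
    have hone : ∑ i, cc i * s i = 1 := by
      apply mul_left_cancel₀ hd0
      rw [mul_one, Finset.mul_sum]
      conv_rhs => rw [← hcc]
      exact Finset.sum_congr rfl fun i _ => by rw [hs i]; ring
    have hs0 : ∀ i, a i = 0 → s i = 0 := fun i hi => by
      have h1 := hr0 i hi
      rw [hs i] at h1
      exact (mul_eq_zero.mp h1).resolve_left hd0
    have hs1 : s i₁ ≠ 0 := fun h => hr1 (by rw [hs, h, mul_zero])
    have hsd : ∀ i, (s i).natDegree < p.natDegree := by
      intro i
      have hp0 : 0 < p.natDegree := hirr.natDegree_pos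
      by_cases h : s i = 0
      · rw [h, natDegree_zero]; exact hp0
      · rcases hrd i with h1 | h1
        · rw [hs i] at h1
          exact absurd ((mul_eq_zero.mp h1).resolve_left hd0) h
        · rw [hs i, natDegree_mul hd0 h] at h1
          omega
    have hpd : ¬ p ∣ d := by
      intro h
      rcases hrd i₁ with h1 | h1
      · exact hr1 h1
      · have h2 : p ∣ r i₁ := by rw [hs]; exact h.mul_right _
        exact absurd (natDegree_le_of_dvd h2 hr1) (by omega)
    set Q := ∑ i, C (a i) * s i ^ 2 with hQ
    have hpQ : p ∣ Q := by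
      have h1 : ∑ i, C (a i) * r i ^ 2 = d ^ 2 * Q := by
        rw [hQ, Finset.mul_sum]
        exact Finset.sum_congr rfl fun i _ => by rw [hs i]; ring
      rw [h1] at hdr
      exact (hirr.prime.dvd_or_dvd hdr).resolve_left fun h2 => hpd (hirr.prime.dvd_of_dvd_pow h2)
    -- the degree of `Q`
    obtain ⟨i₂, hi₂, hmax⟩ := Finset.exists_max_image (Finset.univ.filter fun i => s i ≠ 0)
      (fun i => (s i).natDegree) ⟨i₁, by simp [hs1]⟩
    have hi₂' : s i₂ ≠ 0 := (Finset.mem_filter.mp hi₂).2
    set D := (s i₂).natDegree with hD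
    have hle : ∀ i, (s i).natDegree ≤ D := by
      intro i
      by_cases h : s i = 0
      · rw [h, natDegree_zero]; exact Nat.zero_le _
      · exact hmax i (by simp [h])
    have hcoef : Q.coeff (2 * D) = ∑ i, a i * (s i).coeff D ^ 2 := by
      rw [hQ, finset_sum_coeff]
      refine Finset.sum_congr rfl fun i _ => ?_
      rw [coeff_C_mul, coeff_pow_of_natDegree_le (hle i)]
    have hcoef0 : Q.coeff (2 * D) ≠ 0 := by
      rw [hcoef]
      intro h
      have h1 := haniso (fun i => (s i).coeff D) (fun i hi => by rw [hs0 i hi, coeff_zero]) h i₂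
      exact leadingCoeff_ne_zero.mpr hi₂' h1
    have hQ0 : Q ≠ 0 := by
      intro h
      rw [h, coeff_zero] at hcoef0
      exact hcoef0 rfl
    have hQd : Q.natDegree = 2 * D := by
      apply le_antisymm
      · refine natDegree_sum_le_of_forall_le _ _ fun i _ => ?_
        refine natDegree_mul_le.trans ?_
        rw [natDegree_C, zero_add, natDegree_pow]
        exact Nat.mul_le_mul le_rfl (hle i)
      · exact le_natDegree_of_ne_zero hcoef0
    obtain ⟨h, hh⟩ := hpQ
    have hh0 : h ≠ 0 := by
      rintro rfl
      exact hQ0 (by rw [hh, mul_zero])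
    have hhd : Q.natDegree = p.natDegree + h.natDegree := by
      rw [hh, natDegree_mul hirr.ne_zero hh0]
    have hDp : D < p.natDegree := hsd i₂
    have hho : Odd h.natDegree := by
      obtain ⟨c, hc⟩ := hodd
      exact ⟨D - c - 1, by omega⟩
    obtain ⟨g', hi, hm, ho, hdv⟩ := exists_odd_factor h.natDegree h le_rfl hh0 hho
    have hg'd : g'.natDegree ≤ h.natDegree := natDegree_le_of_dvd hdv hh0
    have h5 := ih g' (by omega) hi ho s hs0 (by
      change g' ∣ Q
      rw [hh]
      exact hdv.mul_left _)
    apply hi.not_isUnit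
    rw [isUnit_iff_dvd_one, ← hone]
    exact Finset.dvd_sum fun i _ => (h5 i).mul_left _

/-- Elements of a simple algebraic extension are values of polynomials. -/
theorem exists_poly {F E : Type} [Field F] [Field E] [Algebra F E] [FiniteDimensional F E] {θ y : E}
    (hy : y ∈ F⟮θ⟯) : ∃ g : F[X], aeval θ g = y := by
  have h1 : y ∈ (F⟮θ⟯).toSubalgebra := hy
  rw [adjoin_simple_toSubalgebra_of_isAlgebraic (Algebra.IsAlgebraic.isAlgebraic θ),
    Algebra.adjoin_singleton_eq_range_aeval] at h1
  exact h1

theorem springer_ext {E : Type} [Field E] [Algebra F E] [FiniteDimensional F E]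
    (hodd : Odd (Module.finrank F E)) (a : ι → F)
    (haniso : ∀ c : ι → F, (∀ i, a i = 0 → c i = 0) → ∑ i, a i * c i ^ 2 = 0 → ∀ i, c i = 0)
    (y : ι → E) (hy0 : ∀ i, a i = 0 → y i = 0)
    (hy : ∑ i, algebraMap F E (a i) * y i ^ 2 = 0) (i : ι) : y i = 0 := by
  obtain ⟨θ, hθ⟩ := Field.exists_primitive_element F E
  have hint : IsIntegral F θ := Algebra.IsIntegral.isIntegral θ
  have hdeg : (minpoly F θ).natDegree = Module.finrank F E := by
    rw [← adjoin.finrank hint, hθ, finrank_top']
  have hg : ∀ i, ∃ g : F[X], aeval θ g = y i := fun i => exists_poly (by rw [hθ]; trivial)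
  choose g hg using hg
  classical
  let g' : ι → F[X] := fun i => if a i = 0 then 0 else g i
  have hg' : ∀ i, aeval θ (g' i) = y i := by
    intro i
    change aeval θ (if a i = 0 then 0 else g i) = y i
    split_ifs with h
    · rw [map_zero, hy0 i h]
    · exact hg i
  have h1 : minpoly F θ ∣ ∑ i, C (a i) * g' i ^ 2 := by
    apply minpoly.dvd
    rw [map_sum, ← hy]
    refine Finset.sum_congr rfl fun i _ => ?_
    rw [map_mul, map_pow, hg', aeval_C]
  have h2 := springer_poly a haniso _ (minpoly F θ) le_rfl (minpoly.irreducible hint)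
    (by rw [hdeg]; exact hodd) g' (fun i hi => if_pos hi) h1 i
  rw [← hg']
  obtain ⟨w, hw⟩ := h2
  rw [hw, map_mul, minpoly.aeval, zero_mul]

/-- **Springer's theorem**, affine form. -/
theorem springer_affine {E : Type} [Field E] [Algebra F E] [FiniteDimensional F E]
    (hodd : Odd (Module.finrank F E)) (a : ι → F) (y : ι → E)
    (hy : ∑ i, algebraMap F E (a i) * y i ^ 2 = 1) : ∃ x : ι → F, ∑ i, a i * x i ^ 2 = 1 := by
  classical
  by_contra hno
  let b : Option ι → F := fun o => o.elim (-1) a
  have haniso : ∀ c : Option ι → F, (∀ i, b i = 0 → c i = 0) → ∑ i, b i * c i ^ 2 = 0 →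
      ∀ i, c i = 0 := by
    intro c hc0 hc
    rw [Fintype.sum_option] at hc
    change (-1 : F) * c none ^ 2 + ∑ i, a i * c (some i) ^ 2 = 0 at hc
    have h1 : c none = 0 := by
      by_contra h
      apply hno
      refine ⟨fun i => c (some i) / c none, ?_⟩
      have e : ∑ i, a i * (c (some i) / c none) ^ 2 =
          (∑ i, a i * c (some i) ^ 2) / c none ^ 2 := by
        rw [Finset.sum_div]
        exact Finset.sum_congr rfl fun i _ => by rw [div_pow]; ring
      rw [e, div_eq_iff (pow_ne_zero 2 h)]
      linear_combination hc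
    intro i
    rcases i with _ | i₁
    · exact h1
    · by_contra h
      have ha : a i₁ ≠ 0 := fun h2 => h (hc0 (some i₁) h2)
      rw [h1] at hc
      apply hno
      let ρ : F := (1 - a i₁) / (2 * a i₁ * c (some i₁))
      refine ⟨fun i => (if i = i₁ then 1 else 0) + ρ * c (some i), ?_⟩
      have e : ∀ i, a i * ((if i = i₁ then 1 else 0) + ρ * c (some i)) ^ 2 =
          (if i = i₁ then a i₁ * (1 + 2 * ρ * c (some i₁)) else 0) +
            ρ ^ 2 * (a i * c (some i) ^ 2) := by
        intro i
        by_cases hi : i = i₁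
        · rw [if_pos hi, if_pos hi, hi]; ring
        · rw [if_neg hi, if_neg hi]; ring
      simp only [e]
      rw [Finset.sum_add_distrib, Finset.sum_ite_eq' Finset.univ i₁, if_pos (Finset.mem_univ _),
        ← Finset.mul_sum]
      have h2 : ∑ i, a i * c (some i) ^ 2 = 0 := by linear_combination hc
      have h3 : a i₁ * (1 + 2 * ρ * c (some i₁)) = 1 := by
        have h20 : (2 : F) ≠ 0 := two_ne_zero
        change a i₁ * (1 + 2 * ((1 - a i₁) / (2 * a i₁ * c (some i₁))) * c (some i₁)) = 1
        field_simp
        ring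
      rw [h2, h3]; ring
  have h1 := springer_ext hodd b haniso (fun o => o.elim 1 fun i => if a i = 0 then 0 else y i)
    (by
      rintro (_ | i) hi
      · exact absurd hi (neg_ne_zero.mpr one_ne_zero)
      · exact if_pos hi)
    (by
      rw [Fintype.sum_option]
      change algebraMap F E (-1) * (1 : E) ^ 2 + ∑ i, algebraMap F E (a i) *
        (if a i = 0 then 0 else y i) ^ 2 = 0
      have e : ∀ i, algebraMap F E (a i) * (if a i = 0 then 0 else y i) ^ 2 =
          algebraMap F E (a i) * y i ^ 2 := by
        intro i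
        split_ifs with h
        · rw [h, map_zero, zero_mul, zero_mul]
        · rfl
      simp only [e]
      rw [hy, map_neg, map_one]; ring) none
  exact one_ne_zero h1

end springer

end Pool.Agent.Zk31.FK
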