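import Pool.Agent.Zk31.FK

/-! The main lemma for quadric bundles. -/

set_option autoImplicit false
set_option linter.unusedSectionVars false
set_option linter.unusedVariables false

namespace Pool.Agent.Zk31.FL

open Polynomial IntermediateField Pool.Agent.Zk31.FI Pool.Agent.Zk31.FJ Pool.Agent.Zk31.FK
  Pool.Agent.TH178.HI

/-- Conclusion of the main lemma for the quadric `∑ a_k x_k² = 1`. -/
def ConclQ (K : Type) [Field K] {κ : Type} [Fintype κ] (a : κ → K[X]) (n : ℕ) : Prop :=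
    ∃ (Cf : Type) (_ : Field Cf) (_ : Algebra K Cf) (f : Cf[X]) (X₀ : κ → Cf[X]),
      Pure (⊤ : IntermediateField K Cf) ∧ f.Monic ∧ f.natDegree = n ∧
      AlgebraicIndependent K (fun j : Fin n => f.coeff j) ∧
      (∀ z : Cf, IsAlgebraic (adjoin K (Set.range fun j : Fin n => f.coeff j)) z →
        z ∈ adjoin K (Set.range fun j : Fin n => f.coeff j)) ∧
      f ∣ ∑ k, (a k).map (algebraMap K Cf) * X₀ k ^ 2 - 1

section

variable {K κ : Type} [Field K] [CharZero K] [Fintype κ] [DecidableEq κ] (a : κ → K[X])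

omit [CharZero K] [DecidableEq κ] in
theorem conclQ_of (w w' : κ → K[X]) (h : ∑ k, a k * (w k * w' k) = 0) (n : ℕ)
    (hC : Concl K (∑ k, a k * w k ^ 2) (∑ k, a k * w' k ^ 2) n) : ConclQ K a n := by
  obtain ⟨Cf, _, _, f, X₀, Y₀, h1, h2, h3, h4, h5, h6⟩ := hC
  refine ⟨Cf, inferInstance, inferInstance, f, fun k => (w k).map (algebraMap K Cf) * X₀ +
    (w' k).map (algebraMap K Cf) * Y₀, h1, h2, h3, h4, h5, ?_⟩
  have e : ∑ k, (a k).map (algebraMap K Cf) * ((w k).map (algebraMap K Cf) * X₀ +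
      (w' k).map (algebraMap K Cf) * Y₀) ^ 2 =
      (∑ k, a k * w k ^ 2).map (algebraMap K Cf) * X₀ ^ 2 +
      (∑ k, a k * w' k ^ 2).map (algebraMap K Cf) * Y₀ ^ 2 +
      (∑ k, a k * (w k * w' k)).map (algebraMap K Cf) * (2 * X₀ * Y₀) := by
    simp only [Polynomial.map_sum, Polynomial.map_mul, Polynomial.map_pow, Finset.sum_mul]
    rw [← Finset.sum_add_distrib, ← Finset.sum_add_distrib]
    exact Finset.sum_congr rfl fun k _ => by ring
  rw [e, h, Polynomial.map_zero, zero_mul, add_zero]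
  exact h6

/-- even degrees -/
theorem mlQ_even (ha : ∀ k, a k ≠ 0) (k₀ k₁ : κ) (hk : k₁ ≠ k₀) :
    ∃ M : ℕ, ∀ n : ℕ, M ≤ n → Even n → ConclQ K a n := by
  obtain ⟨M, hM⟩ := Pool.Agent.Zk31.EO.ml K (a k₀) (a k₁) (ha k₀) (ha k₁)
  refine ⟨M, fun n hn he => ?_⟩
  have h1 : Concl K (a k₀) (a k₁) n := hM n hn he
  refine conclQ_of a (Pi.single k₀ 1) (Pi.single k₁ 1) ?_ n ?_
  · refine Finset.sum_eq_zero fun k _ => ?_
    by_cases h2 : k = k₀
    · have h3 : (Pi.single k₁ 1 : κ → K[X]) k = 0 :=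
        Pi.single_eq_of_ne (by rw [h2]; exact hk.symm) 1
      rw [h3, mul_zero, mul_zero]
    · rw [Pi.single_eq_of_ne h2, zero_mul, mul_zero]
  · have e : ∀ k₂ : κ, ∑ k, a k * (Pi.single k₂ 1 : κ → K[X]) k ^ 2 = a k₂ := by
      intro k₂
      rw [Finset.sum_eq_single k₂]
      · rw [Pi.single_eq_same]; ring
      · intro b _ hb
        rw [Pi.single_eq_of_ne hb]; ring
      · intro h; exact absurd (Finset.mem_univ _) h
    rw [e, e]
    exact h1

/-- adjust a solution modulo `f'` -/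
theorem adjust (ha : ∀ k, a k ≠ 0) (k₀ k₁ : κ) (hk : k₁ ≠ k₀) (f' : K[X]) (hf : f' ≠ 0)
    (w : κ → K[X]) (hw : f' ∣ ∑ k, a k * w k ^ 2 - 1) :
    ∃ v : κ → K[X], f' ∣ ∑ k, a k * v k ^ 2 - 1 ∧ ∑ k, a k * v k ^ 2 - a k₁ * v k₁ ^ 2 ≠ 0 := by
  have hsum : ∀ g : κ → K[X], ∑ k, g k = g k₀ + (g k₁ + ∑ k ∈ (Finset.univ.erase k₀).erase k₁, g k) :=
    fun g => by
      rw [Finset.add_sum_erase _ _ (Finset.mem_erase.mpr ⟨hk, Finset.mem_univ _⟩),
        Finset.add_sum_erase _ _ (Finset.mem_univ k₀)]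
  set R := ∑ k ∈ (Finset.univ.erase k₀).erase k₁, a k * w k ^ 2 with hR
  have hR' : ∀ lam : K, ∑ k ∈ (Finset.univ.erase k₀).erase k₁,
      a k * (Function.update w k₀ (w k₀ + C lam * f')) k ^ 2 = R := by
    intro lam
    refine Finset.sum_congr rfl fun k hk' => ?_
    have h1 : k ≠ k₀ := (Finset.mem_erase.mp (Finset.mem_erase.mp hk').2).1
    rw [Function.update_of_ne h1]
  have hval : ∀ lam : K, ∑ k, a k * (Function.update w k₀ (w k₀ + C lam * f')) k ^ 2 =
      a k₀ * (w k₀ + C lam * f') ^ 2 + (a k₁ * w k₁ ^ 2 + R) := by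
    intro lam
    rw [hsum, hR', Function.update_self, Function.update_of_ne hk]
  have hdv : ∀ lam : K, f' ∣ ∑ k, a k * (Function.update w k₀ (w k₀ + C lam * f')) k ^ 2 - 1 := by
    intro lam
    rw [hval]
    have h1 : ∑ k, a k * w k ^ 2 = a k₀ * w k₀ ^ 2 + (a k₁ * w k₁ ^ 2 + R) := hsum _
    have e : a k₀ * (w k₀ + C lam * f') ^ 2 + (a k₁ * w k₁ ^ 2 + R) - 1 =
        (∑ k, a k * w k ^ 2 - 1) + f' * (a k₀ * (2 * w k₀ * C lam + C lam ^ 2 * f')) := by
      rw [h1]; ring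
    rw [e]
    exact dvd_add hw (dvd_mul_right _ _)
  by_contra hall
  push Not at hall
  have key : ∀ lam : K, a k₀ * (w k₀ + C lam * f') ^ 2 + R = 0 := by
    intro lam
    have h1 := hall _ (hdv lam)
    rw [hval, Function.update_of_ne hk] at h1
    linear_combination h1
  have k0 := key 0
  have k1 := key 1
  have k2 := key (-1)
  rw [C_0] at k0
  rw [C_1] at k1
  rw [C_neg, C_1] at k2
  have h1 : (2 : K[X]) * (a k₀ * f' ^ 2) = 0 := by linear_combination k1 + k2 - 2 * k0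
  have h20 : (2 : K[X]) ≠ 0 := two_ne_zero
  exact mul_ne_zero (ha k₀) (pow_ne_zero 2 hf) ((mul_eq_zero.mp h1).resolve_left h20)

/-- odd degrees -/
theorem mlQ_odd (ha : ∀ k, a k ≠ 0) (k₀ k₁ : κ) (hk : k₁ ≠ k₀) (E : Type) [Field E] [Algebra K E]
    [FiniteDimensional K E] (hodd : Odd (Module.finrank K E)) (τ : E) (y : κ → E)
    (hy : ∑ k, aeval τ (a k) * y k ^ 2 = 1) :
    ∃ M : ℕ, ∀ n : ℕ, M ≤ n → Odd n → ConclQ K a n := by
  have hint : IsIntegral K τ := Algebra.IsIntegral.isIntegral τ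
  let f' := minpoly K τ
  have hf : f'.Monic := minpoly.monic hint
  have hirr : Irreducible f' := minpoly.irreducible hint
  have hfo : Odd f'.natDegree := Odd.of_dvd_nat hodd (minpoly.degree_dvd hint)
  have hmul : Module.finrank K K⟮τ⟯ * Module.finrank K⟮τ⟯ E = Module.finrank K E :=
    Module.finrank_mul_finrank K K⟮τ⟯ E
  have hodd2 : Odd (Module.finrank K⟮τ⟯ E) := by
    rw [← hmul, Nat.odd_mul] at hodd
    exact hodd.2
  have hfin : FiniteDimensional K⟮τ⟯ E := inferInstance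
  let τ₀ : K⟮τ⟯ := AdjoinSimple.gen K τ
  have hA : ∀ k, algebraMap K⟮τ⟯ E (aeval τ₀ (a k)) = aeval τ (a k) := by
    intro k
    rw [← aeval_algebraMap_apply]
    congr 1
  obtain ⟨x, hx⟩ := springer_affine hodd2 (fun k => aeval τ₀ (a k)) y (by
    simp only [hA]; exact hy)
  have hxp : ∀ k, ∃ g : K[X], aeval τ g = (x k : E) := fun k => exists_poly (x k).2
  choose w hw using hxp
  have hdv : f' ∣ ∑ k, a k * w k ^ 2 - 1 := by
    apply minpoly.dvd
    rw [map_sub, map_sum, map_one, sub_eq_zero]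
    have h1 := congrArg (algebraMap K⟮τ⟯ E) hx
    rw [map_sum, map_one] at h1
    rw [← h1]
    refine Finset.sum_congr rfl fun k _ => ?_
    rw [map_mul, map_pow, map_mul, map_pow, hA, hw]
    rfl
  obtain ⟨v, hv1, hv2⟩ := adjust a ha k₀ k₁ hk f' hf.ne_zero w hdv
  set c := ∑ k, a k * v k ^ 2 with hc
  have hc0 : c ≠ 0 := by
    intro h
    rw [h, zero_sub, dvd_neg] at hv1
    exact hirr.not_isUnit (isUnit_of_dvd_one hv1)
  let w' : κ → K[X] := fun k => (if k = k₁ then c else 0) - a k₁ * v k₁ * v k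
  have horth : ∑ k, a k * (v k * w' k) = 0 := by
    have e : ∀ k, a k * (v k * w' k) =
        (if k = k₁ then a k₁ * v k₁ * c else 0) - a k₁ * v k₁ * (a k * v k ^ 2) := by
      intro k
      change a k * (v k * ((if k = k₁ then c else 0) - a k₁ * v k₁ * v k)) = _
      split_ifs with h
      · rw [h]; ring
      · ring
    simp only [e]
    rw [Finset.sum_sub_distrib, Finset.sum_ite_eq' Finset.univ k₁, if_pos (Finset.mem_univ _),
      ← Finset.mul_sum, ← hc]
    ring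
  have hc' : ∑ k, a k * w' k ^ 2 = c * a k₁ * (c - a k₁ * v k₁ ^ 2) := by
    have e : ∀ k, a k * w' k ^ 2 =
        (if k = k₁ then a k₁ * (c ^ 2 - 2 * c * a k₁ * v k₁ * v k₁) else 0) +
          (a k₁ * v k₁) ^ 2 * (a k * v k ^ 2) := by
      intro k
      change a k * ((if k = k₁ then c else 0) - a k₁ * v k₁ * v k) ^ 2 = _
      split_ifs with h
      · rw [h]; ring
      · ring
    simp only [e]
    rw [Finset.sum_add_distrib, Finset.sum_ite_eq' Finset.univ k₁, if_pos (Finset.mem_univ _),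
      ← Finset.mul_sum, ← hc]
    ring
  have hc'0 : ∑ k, a k * w' k ^ 2 ≠ 0 := by
    rw [hc']
    exact mul_ne_zero (mul_ne_zero hc0 (ha k₁)) hv2
  obtain ⟨M, hM⟩ := ml_odd c (∑ k, a k * w' k ^ 2) hc0 hc'0 f' hf hirr hfo hv1
  exact ⟨M, fun n hn ho => conclQ_of a v w' horth n (hM n hn ho)⟩

end

end Pool.Agent.Zk31.FL
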