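import Pool.Agent.Zk31.ES
import Mathlib.RingTheory.AlgebraicIndependent.AlgebraicClosure

/-! The parametrization of the fibres of a quadric bundle by a general point. -/

set_option autoImplicit false
set_option linter.unusedSectionVars false
set_option linter.unusedVariables false

namespace Pool.Agent.Zk31.FM

open Polynomial IntermediateField Pool.Agent.Zk31.EVoc Pool.Agent.Zk31.DE Pool.Agent.Zk31.EP
  Pool.Agent.Zk31.EQ
open Pool.Agent.Zk31.DF (uu pt)
open Pool.Agent.Zk31.DI (alg_map' aut_of_fix exists_pi_gamma)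
open Pool.Agent.Zk31.DJ (exists_alg aeval_mem root_of)
open Pool.Agent.Zk31.ER (av av_ne co_mem xx_indep)
open Pool.Agent.Zk31.ES (gens_ext av_map ae_map)

/-- A quadric contains no affine subspace relation over the base. -/
theorem lin {F D κ : Type} [Field F] [CharZero F] [Field D] [Algebra F D] [Fintype κ]
    [DecidableEq κ] (k₀ k₁ : κ) (hk : k₁ ≠ k₀) (x : κ → D)
    (hx : AlgebraicIndependent F (fun k : {k : κ // k ≠ k₀} => x k)) (A : κ → F)
    (hA : ∀ k, A k ≠ 0) (hq : ∑ k, algebraMap F D (A k) * x k ^ 2 = 1) (l : κ → F) (m : F)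
    (hl : ∑ k, algebraMap F D (l k) * x k + algebraMap F D m = 0) : ∀ k, l k = 0 := by
  have hs : ∀ g : κ → D, ∑ k, g k = g k₀ + ∑ k : {k : κ // k ≠ k₀}, g k := by
    intro g
    rw [← Finset.add_sum_erase _ _ (Finset.mem_univ k₀)]
    congr 1
    refine (Finset.sum_subtype (Finset.univ.erase k₀) (fun k => ?_) g)
    simp
  rw [hs] at hq hl
  let L : MvPolynomial {k : κ // k ≠ k₀} F :=
    ∑ k : {k : κ // k ≠ k₀}, MvPolynomial.C (l k) * MvPolynomial.X k + MvPolynomial.C m
  let Q : MvPolynomial {k : κ // k ≠ k₀} F :=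
    ∑ k : {k : κ // k ≠ k₀}, MvPolynomial.C (A k) * MvPolynomial.X k ^ 2 - 1
  let P : MvPolynomial {k : κ // k ≠ k₀} F :=
    MvPolynomial.C (l k₀ ^ 2) * Q + MvPolynomial.C (A k₀) * L ^ 2
  have hL : MvPolynomial.aeval (fun k : {k : κ // k ≠ k₀} => x k) L =
      ∑ k : {k : κ // k ≠ k₀}, algebraMap F D (l k) * x k + algebraMap F D m := by
    simp only [L, map_add, map_sum, map_mul, MvPolynomial.aeval_X, MvPolynomial.aeval_C]
  have hQ : MvPolynomial.aeval (fun k : {k : κ // k ≠ k₀} => x k) Q =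
      ∑ k : {k : κ // k ≠ k₀}, algebraMap F D (A k) * x k ^ 2 - 1 := by
    simp only [Q, map_sub, map_one, map_sum, map_mul, map_pow, MvPolynomial.aeval_X,
      MvPolynomial.aeval_C]
  have hP : MvPolynomial.aeval (fun k : {k : κ // k ≠ k₀} => x k) P = 0 := by
    simp only [P, map_add, map_mul, map_pow, MvPolynomial.aeval_C]
    rw [hL, hQ]
    linear_combination (algebraMap F D (l k₀) ^ 2) * hq +
      algebraMap F D (A k₀) * (∑ k : {k : κ // k ≠ k₀}, algebraMap F D (l k) * x k +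
        algebraMap F D m - algebraMap F D (l k₀) * x k₀) * hl
  have hP0 : P = 0 := hx (hP.trans (map_zero _).symm)
  have hev : ∀ g : {k : κ // k ≠ k₀} → F, l k₀ ^ 2 * (∑ k : {k : κ // k ≠ k₀}, A k * g k ^ 2 - 1) +
      A k₀ * (∑ k : {k : κ // k ≠ k₀}, l k * g k + m) ^ 2 = 0 := by
    intro g
    have h1 := congrArg (MvPolynomial.eval g) hP0
    simp only [P, Q, L, map_add, map_mul, map_pow, map_sub, map_one, map_sum, MvPolynomial.eval_X,
      MvPolynomial.eval_C, map_zero] at h1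
    exact h1
  let κ₁ : {k : κ // k ≠ k₀} := ⟨k₁, hk⟩
  have hsg : ∀ (B : κ → F) (s : F) (e : ℕ), e ≠ 0 →
      ∑ k : {k : κ // k ≠ k₀}, B k * (Pi.single κ₁ s : {k : κ // k ≠ k₀} → F) k ^ e =
        B k₁ * s ^ e := by
    intro B s e he
    rw [Finset.sum_eq_single κ₁]
    · rw [Pi.single_eq_same]
    · intro b _ hb
      rw [Pi.single_eq_of_ne hb, zero_pow he, mul_zero]
    · intro h; exact absurd (Finset.mem_univ _) h
  have hsg1 : ∀ (B : κ → F) (s : F),
      ∑ k : {k : κ // k ≠ k₀}, B k * (Pi.single κ₁ s : {k : κ // k ≠ k₀} → F) k = B k₁ * s := by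
    intro B s
    have h1 := hsg B s 1 one_ne_zero
    simp only [pow_one] at h1
    exact h1
  have e0 := hev (Pi.single κ₁ 0)
  have e1 := hev (Pi.single κ₁ 1)
  have e2 := hev (Pi.single κ₁ (-1))
  rw [hsg A _ 2 two_ne_zero, hsg1] at e0 e1 e2
  have hl0 : l k₀ = 0 := by
    by_contra h0
    have h2 : (2 : F) ≠ 0 := two_ne_zero
    have h4 : A k₀ * (4 * (l k₁ * m)) = 0 := by linear_combination e1 - e2
    have h5 : l k₁ * m = 0 := by
      have h6 := (mul_eq_zero.mp h4).resolve_left (hA k₀)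
      exact (mul_eq_zero.mp h6).resolve_left (by norm_num)
    have hm : m ≠ 0 := by
      intro hm
      rw [hm] at e0
      apply h0
      have : l k₀ ^ 2 = 0 := by linear_combination -e0
      exact pow_eq_zero_iff two_ne_zero |>.mp this
    have h6 : l k₁ = 0 := (mul_eq_zero.mp h5).resolve_right hm
    rw [h6] at e0 e1
    have h7 : l k₀ ^ 2 * A k₁ = 0 := by linear_combination e1 - e0
    exact mul_ne_zero (pow_ne_zero 2 h0) (hA k₁) h7
  have hL0 : L = 0 := by
    apply hx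
    change MvPolynomial.aeval (fun k : {k : κ // k ≠ k₀} => x k) L =
      MvPolynomial.aeval (fun k : {k : κ // k ≠ k₀} => x k) 0
    rw [hL, map_zero, ← hl, hl0, map_zero, zero_mul, zero_add]
  intro k
  by_cases hk' : k = k₀
  · rw [hk', hl0]
  · have h1 := congrArg (MvPolynomial.eval 0) hL0
    have h2 := congrArg (MvPolynomial.eval (Pi.single ⟨k, hk'⟩ 1)) hL0
    simp only [L, map_add, map_mul, map_sum, MvPolynomial.eval_X, MvPolynomial.eval_C, map_zero,
      Pi.zero_apply, mul_zero, Finset.sum_const_zero, zero_add] at h1 h2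
    rw [h1, add_zero, Finset.sum_eq_single ⟨k, hk'⟩, Pi.single_eq_same, mul_one] at h2
    · exact h2
    · intro b _ hb
      rw [Pi.single_eq_of_ne hb, mul_zero]
    · intro h; exact absurd (Finset.mem_univ _) h

section form

variable {κ D D' : Type} [Fintype κ] [DecidableEq κ] [Field D] [Field D'] (k₀ : κ)

/-- the bilinear form -/
def bb (A c v : κ → D) : D := ∑ k, A k * (c k * v k)

/-- the quadratic form -/
def qq (A v : κ → D) : D := ∑ k, A k * v k ^ 2

/-- extend by `1` -/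
def ex (u : κ → D) (k : κ) : D := if k = k₀ then 1 else u k

/-- the point with given stereographic coordinates -/
noncomputable def XX (A c u : κ → D) (k : κ) : D :=
  2 * bb A c (ex k₀ u) * (qq A (ex k₀ u))⁻¹ * ex k₀ u k - c k

theorem bb_map (ρ : D →+* D') (A c v : κ → D) :
    ρ (bb A c v) = bb (fun k => ρ (A k)) (fun k => ρ (c k)) (fun k => ρ (v k)) := by
  rw [bb, bb, map_sum]
  exact Finset.sum_congr rfl fun k _ => by rw [map_mul, map_mul]

theorem qq_map (ρ : D →+* D') (A v : κ → D) :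
    ρ (qq A v) = qq (fun k => ρ (A k)) (fun k => ρ (v k)) := by
  rw [qq, qq, map_sum]
  exact Finset.sum_congr rfl fun k _ => by rw [map_mul, map_pow]

theorem ex_map (ρ : D →+* D') (u : κ → D) (k : κ) :
    ρ (ex k₀ u k) = ex k₀ (fun k => ρ (u k)) k := by
  rw [ex, ex]
  split_ifs
  · exact map_one ρ
  · rfl

theorem XX_map (ρ : D →+* D') (A c u : κ → D) (k : κ) :
    ρ (XX k₀ A c u k) = XX k₀ (fun k => ρ (A k)) (fun k => ρ (c k)) (fun k => ρ (u k)) k := by
  rw [XX, XX, map_sub, map_mul, map_mul, map_mul, map_inv₀, map_ofNat, bb_map, qq_map, ex_map]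
  simp only [ex_map]

theorem XX_congr (A c : κ → D) {u u' : κ → D}
    (h : ∀ k, k ≠ k₀ → u k = u' k) (k : κ) : XX k₀ A c u k = XX k₀ A c u' k := by
  have h1 : ex k₀ u = ex k₀ u' := by
    funext k
    rw [ex, ex]
    split_ifs with h2
    · rfl
    · exact h k h2
  rw [XX, XX, h1]

theorem XX_in (Z : Subfield D) {A c : κ → D} (hA : ∀ k, A k ∈ Z)
    (hc : ∀ k, c k ∈ Z) {u : κ → D} (hu : ∀ k, k ≠ k₀ → u k ∈ Z) (k : κ) :
    XX k₀ A c u k ∈ Z := by
  have h2 : (2 : D) ∈ Z := by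
    have h3 : (2 : D) = 1 + 1 := by norm_num
    rw [h3]; exact Z.add_mem Z.one_mem Z.one_mem
  have he : ∀ k, ex k₀ u k ∈ Z := by
    intro k
    rw [ex]
    split_ifs with h3
    · exact Z.one_mem
    · exact hu k h3
  refine Z.sub_mem (Z.mul_mem (Z.mul_mem (Z.mul_mem h2 ?_) (Z.inv_mem ?_)) (he k)) (hc k)
  · exact Z.sum_mem fun k _ => Z.mul_mem (hA k) (Z.mul_mem (hc k) (he k))
  · exact Z.sum_mem fun k _ => Z.mul_mem (hA k) (Z.pow_mem (he k) 2)

end form

section

variable {K κ 𝔽 : Type} [Field K] [CharZero K]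
  [Fintype κ] [DecidableEq κ] {a : κ → K[X]} {n : ℕ} [Field 𝔽] [Algebra K 𝔽]
  [MulSemiringAction (Equiv.Perm (Fin n)) 𝔽] [SMulCommClass (Equiv.Perm (Fin n)) K 𝔽]
  {t : Fin n → 𝔽} {x : Fin n → κ → 𝔽} (h : BundlePower a n t x) (ha : ∀ k, a k ≠ 0) (k₀ k₁ : κ)
  (hk : k₁ ≠ k₀) {Cf D : Type} [Field Cf] [Algebra K Cf] [Field D] [Algebra Cf D] [Algebra K D]
  [IsScalarTower K Cf D] (φ : 𝔽 →ₐ[K] D) (X₀ : κ → Cf[X])

variable (t) in
/-- the coordinates of the point -/
noncomputable def cc (i : Fin n) (k : κ) : D := aeval (φ (t i)) (X₀ k)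

variable (t x) in
/-- the denominator -/
noncomputable def w0 (i : Fin n) : D := φ (x i k₀) + cc t φ X₀ i k₀

variable (t x) in
/-- the stereographic coordinates -/
noncomputable def uv (i : Fin n) (k : κ) : D :=
  (φ (x i k) + cc t φ X₀ i k) * (w0 t x k₀ φ X₀ i)⁻¹

variable (t x) in
/-- the parameters -/
noncomputable def ze (z : {k : κ // k ≠ k₀} × Fin n) : D :=
  co (fun i => φ (t i)) (fun i => uv t x k₀ φ X₀ i z.1) z.2

theorem point {f : Cf[X]} (hf : f.map (algebraMap Cf D) = ∏ i, (X - C (φ (t i))))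
    (hdvd : f ∣ ∑ k, (a k).map (algebraMap K Cf) * X₀ k ^ 2 - 1)
    (i : Fin n) : ∑ k, av a t φ k i * cc t φ X₀ i k ^ 2 = 1 := by
  obtain ⟨g, hg⟩ := hdvd
  have h2 : aeval (φ (t i)) (∑ k, (a k).map (algebraMap K Cf) * X₀ k ^ 2 - 1) = 0 := by
    rw [hg, map_mul, root_of φ hf, zero_mul]
  rw [map_sub, sub_eq_zero, map_sum, map_one] at h2
  rw [← h2]
  refine Finset.sum_congr rfl fun k _ => ?_
  rw [map_mul, map_pow, aeval_map_algebraMap]
  rfl

include h in
theorem eqn (i : Fin n) : ∑ k, av a t φ k i * φ (x i k) ^ 2 = 1 := by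
  have h1 := congrArg φ (h.equation i)
  rw [map_sum, map_one] at h1
  rw [← h1]
  refine Finset.sum_congr rfl fun k _ => ?_
  rw [map_mul, map_pow, av, aeval_algHom_apply]

include h ha hk in
theorem lin' (hη : AlgebraicIndependent Cf
      (fun v : {k : κ // k ≠ k₀} × Fin n => φ (uu t x k₀ (Sum.inr v))))
    (hD : ∀ z : D, IsAlgebraic
      (adjoin Cf (Set.range fun v : {k : κ // k ≠ k₀} × Fin n => φ (uu t x k₀ (Sum.inr v)))) z)
    {f : Cf[X]} (hf : f.map (algebraMap Cf D) = ∏ i, (X - C (φ (t i))))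
    (i : Fin n) (l : κ → Cf[X]) (m : Cf[X])
    (hl : ∑ k, aeval (φ (t i)) (l k) * φ (x i k) + aeval (φ (t i)) m = 0) :
    ∀ k, aeval (φ (t i)) (l k) = 0 := by
  have hxx := xx_indep (x := x) k₀ φ hη hD (inj_t h) hf
  have hθalg : IsAlgebraic Cf (φ (t i)) := by
    refine ⟨f, ?_, root_of φ hf i⟩
    intro h0
    rw [h0, Polynomial.map_zero] at hf
    exact (Finset.prod_ne_zero_iff.mpr fun i _ => X_sub_C_ne_zero (φ (t i))) hf.symm
  have hθ : φ (t i) ∈ algebraicClosure Cf D := mem_algebraicClosure_iff.mpr hθalg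
  have hmem : ∀ p : Cf[X], aeval (φ (t i)) p ∈ algebraicClosure Cf D := fun p => aeval_mem _ hθ p
  have hma : ∀ k, av a t φ k i ∈ algebraicClosure Cf D := by
    intro k
    rw [av, ← aeval_map_algebraMap Cf]
    exact hmem _
  have hch : CharZero Cf := charZero_of_injective_algebraMap (algebraMap K Cf).injective
  have hcF : CharZero (algebraicClosure Cf D) :=
    charZero_of_injective_algebraMap (algebraMap Cf (algebraicClosure Cf D)).injective
  have h1 : AlgebraicIndependent (algebraicClosure Cf D)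
      (fun k : {k : κ // k ≠ k₀} => φ (x i k)) := by
    have h2 := AlgebraicIndependent.algebraicClosure hxx
    exact h2.comp (fun k : {k : κ // k ≠ k₀} => (k, i)) (fun k k' hkk => congrArg Prod.fst hkk)
  have h2 := lin k₀ k₁ hk (fun k => φ (x i k)) h1 (fun k => ⟨av a t φ k i, hma k⟩)
    (fun k h0 => av_ne h ha φ k i (congrArg Subtype.val h0)) (eqn h φ i)
    (fun k => ⟨aeval (φ (t i)) (l k), hmem _⟩) ⟨aeval (φ (t i)) m, hmem _⟩ hl
  intro k
  exact congrArg Subtype.val (h2 k)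

section

variable (hη : AlgebraicIndependent Cf
      (fun v : {k : κ // k ≠ k₀} × Fin n => φ (uu t x k₀ (Sum.inr v))))
  (hD : ∀ z : D, IsAlgebraic
      (adjoin Cf (Set.range fun v : {k : κ // k ≠ k₀} × Fin n => φ (uu t x k₀ (Sum.inr v)))) z)
  {f : Cf[X]} (hf : f.map (algebraMap Cf D) = ∏ i, (X - C (φ (t i))))
  (hdvd : f ∣ ∑ k, (a k).map (algebraMap K Cf) * X₀ k ^ 2 - 1)

include h ha hk hη hD hf

theorem w0_ne (i : Fin n) : w0 t x k₀ φ X₀ i ≠ 0 := by
  intro h0
  have h1 := lin' h ha k₀ k₁ hk φ hη hD hf i (Pi.single k₀ 1) (X₀ k₀) ?_ k₀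
  · rw [Pi.single_eq_same, map_one] at h1
    exact one_ne_zero h1
  · rw [Finset.sum_eq_single k₀, Pi.single_eq_same, map_one, one_mul]
    · exact h0
    · intro b _ hb
      rw [Pi.single_eq_of_ne hb, map_zero, zero_mul]
    · intro h; exact absurd (Finset.mem_univ _) h

include hdvd

theorem b_ne (i : Fin n) : 1 + bb (fun k => av a t φ k i) (cc t φ X₀ i) (fun k => φ (x i k)) ≠ 0 := by
  intro h0
  have e : ∀ k, aeval (φ (t i)) ((a k).map (algebraMap K Cf) * X₀ k) =
      av a t φ k i * cc t φ X₀ i k := by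
    intro k
    rw [map_mul, aeval_map_algebraMap]
    rfl
  have h1 := lin' h ha k₀ k₁ hk φ hη hD hf i (fun k => (a k).map (algebraMap K Cf) * X₀ k) 1 ?_
  · simp only [e] at h1
    have h2 := point (a := a) φ X₀ hf hdvd i
    rw [Finset.sum_eq_zero] at h2
    · exact zero_ne_one h2
    · intro k _
      rw [pow_two, ← mul_assoc, h1 k, zero_mul]
  · rw [map_one, ← h0, add_comm]
    congr 1
    rw [bb]
    refine Finset.sum_congr rfl fun k _ => ?_
    rw [e, mul_assoc]

theorem x_formula (i : Fin n) (k : κ) : φ (x i k) = XX k₀ (fun k => av a t φ k i)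
    (cc t φ X₀ i) (uv t x k₀ φ X₀ i) k := by
  have hch : CharZero D := charZero_of_injective_algebraMap (algebraMap K D).injective
  have hW := w0_ne h ha k₀ k₁ hk φ X₀ hη hD hf i
  have hb := b_ne h ha k₀ k₁ hk φ X₀ hη hD hf hdvd i
  have h1 := point (a := a) φ X₀ hf hdvd i
  have h2 := eqn h φ i
  have hex : ex k₀ (uv t x k₀ φ X₀ i) = uv t x k₀ φ X₀ i := by
    funext k
    rw [ex]
    split_ifs with h3
    · rw [h3, uv]
      exact (mul_inv_cancel₀ hW).symm
    · rfl
  set W := w0 t x k₀ φ X₀ i with hWd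
  set b := bb (fun k => av a t φ k i) (cc t φ X₀ i) (fun k => φ (x i k)) with hbd
  have h3 : bb (fun k => av a t φ k i) (cc t φ X₀ i) (uv t x k₀ φ X₀ i) = (1 + b) * W⁻¹ := by
    rw [← h1, hbd, bb, bb, ← Finset.sum_add_distrib, Finset.sum_mul]
    refine Finset.sum_congr rfl fun k _ => ?_
    rw [uv]; ring
  have h4 : qq (fun k => av a t φ k i) (uv t x k₀ φ X₀ i) = 2 * (1 + b) * W⁻¹ ^ 2 := by
    have h5 : 2 * (1 + b) = ∑ k, av a t φ k i * (φ (x i k) + cc t φ X₀ i k) ^ 2 := by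
      have h6 : 2 * (1 + b) = 1 + 1 + 2 * b := by ring
      rw [h6]
      nth_rewrite 1 [← h1]
      rw [← h2, hbd, bb, Finset.mul_sum, ← Finset.sum_add_distrib, ← Finset.sum_add_distrib]
      exact Finset.sum_congr rfl fun k _ => by ring
    rw [h5, qq, Finset.sum_mul]
    refine Finset.sum_congr rfl fun k _ => ?_
    rw [uv]; ring
  rw [XX, hex, h3, h4, uv, ← hWd]
  have h20 : (2 : D) ≠ 0 := two_ne_zero
  field_simp
  ring

end

end

end Pool.Agent.Zk31.FM
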