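import Pool.Agent.Zk31.FM

/-! The core for quadric bundles, with a general point. -/

set_option autoImplicit false
set_option linter.unusedSectionVars false
set_option linter.unusedVariables false

namespace Pool.Agent.Zk31.FN

open Polynomial IntermediateField Pool.Agent.Zk31.EVoc Pool.Agent.Zk31.DE Pool.Agent.Zk31.EP
  Pool.Agent.Zk31.EQ Pool.Agent.Zk31.FM
open Pool.Agent.Zk31.DF (uu pt)
open Pool.Agent.Zk31.DI (alg_map' aut_of_fix exists_pi_gamma)
open Pool.Agent.Zk31.DJ (exists_alg aeval_mem root_of)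
open Pool.Agent.Zk31.ER (av av_ne co_mem xx_indep)
open Pool.Agent.Zk31.ES (gens_ext av_map ae_map)

section

variable {K κ 𝔽 : Type} [Field K] [CharZero K]
  [Fintype κ] [DecidableEq κ] {a : κ → K[X]} {n : ℕ} [Field 𝔽] [Algebra K 𝔽]
  [MulSemiringAction (Equiv.Perm (Fin n)) 𝔽] [SMulCommClass (Equiv.Perm (Fin n)) K 𝔽]
  {t : Fin n → 𝔽} {x : Fin n → κ → 𝔽} (h : BundlePower a n t x) (ha : ∀ k, a k ≠ 0) (k₀ k₁ : κ)
  (hk : k₁ ≠ k₀) {Cf D : Type} [Field Cf] [Algebra K Cf] [Field D] [Algebra Cf D] [Algebra K D]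
  [IsScalarTower K Cf D] (φ : 𝔽 →ₐ[K] D) (X₀ : κ → Cf[X])
  (hη : AlgebraicIndependent Cf
      (fun v : {k : κ // k ≠ k₀} × Fin n => φ (uu t x k₀ (Sum.inr v))))
  (hD : ∀ z : D, IsAlgebraic
      (adjoin Cf (Set.range fun v : {k : κ // k ≠ k₀} × Fin n => φ (uu t x k₀ (Sum.inr v)))) z)
  {f : Cf[X]} (hf : f.map (algebraMap Cf D) = ∏ i, (X - C (φ (t i))))
  (hdvd : f ∣ ∑ k, (a k).map (algebraMap K Cf) * X₀ k ^ 2 - 1)

include h ha hk hη hD hf hdvd

/-- The parameters generate up to algebraic extensions. -/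
theorem S1 (z : D) :
    IsAlgebraic (adjoin Cf (Set.range (ze t x k₀ φ X₀))) z := by
  obtain ⟨Z, hZ1, hZ2, hZ3⟩ := exists_alg (adjoin Cf (Set.range (ze t x k₀ φ X₀)))
  rw [← hZ1]
  have hti := φ.injective.comp (inj_t h)
  have hθalg : ∀ i, IsAlgebraic Cf (φ (t i)) := by
    intro i
    refine ⟨f, ?_, root_of φ hf i⟩
    intro h0
    rw [h0, Polynomial.map_zero] at hf
    exact (Finset.prod_ne_zero_iff.mpr fun i _ => X_sub_C_ne_zero (φ (t i))) hf.symm
  have hθZ : ∀ i, φ (t i) ∈ Z := fun i => hZ3 _ ((hθalg i).tower_top Z)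
  have hζZ : ∀ z, ze t x k₀ φ X₀ z ∈ Z := fun z => hZ2 (subset_adjoin _ _ ⟨z, rfl⟩)
  have haZ : ∀ k i, av a t φ k i ∈ Z := by
    intro k i
    rw [av, ← aeval_map_algebraMap Cf]
    exact aeval_mem Z (hθZ i) _
  have huZ : ∀ i k, k ≠ k₀ → uv t x k₀ φ X₀ i k ∈ Z := by
    intro i k hk'
    have h1 := co_spec hti (fun i => uv t x k₀ φ X₀ i k) i
    rw [← h1]
    exact sum_mem fun j _ => mul_mem (hζZ (⟨k, hk'⟩, j)) (pow_mem (hθZ i) _)
  have hxZ : ∀ i k, φ (x i k) ∈ Z := by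
    intro i k
    rw [x_formula h ha k₀ k₁ hk φ X₀ hη hD hf hdvd]
    exact XX_in k₀ Z.toSubfield (fun k => haZ k i) (fun k => aeval_mem Z (hθZ i) _) (huZ i) k
  have hφZ : ∀ w : 𝔽, φ w ∈ Z := by
    intro w
    have h1 : (⊤ : IntermediateField K 𝔽) ≤ (Z.restrictScalars K).comap φ := by
      rw [← h.generates, adjoin_le_iff]
      rintro _ (⟨i, rfl⟩ | ⟨v, rfl⟩)
      · exact hθZ i
      · exact hxZ v.1 v.2
    exact h1 trivial
  refine hZ3 _ (alg_map' (RingHom.id D) _ Z ?_ (hD z))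
  intro a ha
  induction ha using IntermediateField.adjoin_induction with
  | mem a ha => obtain ⟨v, rfl⟩ := ha; exact hφZ _
  | algebraMap c => exact Z.algebraMap_mem c
  | add a b _ _ ha hb => rw [map_add]; exact add_mem ha hb
  | inv a _ ha => rw [map_inv₀]; exact inv_mem ha
  | mul a b _ _ ha hb => rw [map_mul]; exact mul_mem ha hb

/-- The parameters are algebraically independent. -/
theorem S2 : AlgebraicIndependent Cf (ze t x k₀ φ X₀) :=
  Pool.Agent.Zk31.CA.indep_of_alg hη _ le_rfl (S1 h ha k₀ k₁ hk φ X₀ hη hD hf hdvd)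

/-- Automorphisms over the parameters permute the points. -/
theorem S3 (ρ : D ≃ₐ[Cf] D)
    (hρ : ∀ z, ρ (ze t x k₀ φ X₀ z) = ze t x k₀ φ X₀ z) :
    ∃ π : Equiv.Perm (Fin n), ∀ w : 𝔽, ρ (φ w) = φ (π • w) := by
  have hti := φ.injective.comp (inj_t h)
  obtain ⟨π, γ, h1, -⟩ := exists_pi_gamma (K := K) (L := K) (θ := fun i => φ (t i)) hti hf ρ
  have hu : ∀ i k, k ≠ k₀ → ρ (uv t x k₀ φ X₀ i k) = uv t x k₀ φ X₀ (π i) k := by
    intro i k hk'
    have h2 := co_spec hti (fun i => uv t x k₀ φ X₀ i k) i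
    have h3 := co_spec hti (fun i => uv t x k₀ φ X₀ i k) (π i)
    rw [← h2, ← h3, map_sum]
    refine Finset.sum_congr rfl fun j _ => ?_
    rw [map_mul, map_pow]
    exact congrArg₂ (· * ·) (hρ (⟨k, hk'⟩, j)) (congrArg (· ^ (j : ℕ)) (h1 i))
  have hxi : ∀ i k, ρ (φ (x i k)) = φ (x (π i) k) := by
    intro i k
    rw [x_formula h ha k₀ k₁ hk φ X₀ hη hD hf hdvd i, x_formula h ha k₀ k₁ hk φ X₀ hη hD hf
      hdvd (π i)]
    refine (XX_map k₀ (ρ : D →+* D) _ _ _ k).trans ?_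
    have h2 : (fun k => (ρ : D →+* D) (av a t φ k i)) = fun k => av a t φ k (π i) :=
      funext fun k => av_map φ ρ (h1 i) k
    have h3 : (fun k => (ρ : D →+* D) (cc t φ X₀ i k)) = cc t φ X₀ (π i) :=
      funext fun k => ae_map φ ρ (h1 i) _
    rw [h2, h3]
    exact XX_congr k₀ _ _ (fun k hk' => hu i k hk') k
  refine ⟨π, ?_⟩
  let j1 : 𝔽 →ₐ[K] D := ((ρ.restrictScalars K : D ≃ₐ[K] D) : D →ₐ[K] D).comp φ
  let j2 : 𝔽 →ₐ[K] D := φ.comp (MulSemiringAction.toAlgHom K 𝔽 π)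
  refine gens_ext h j1 j2 (fun i => ?_) (fun i k => ?_)
  · change ρ (φ (t i)) = φ (π • t i)
    rw [h.perm_t, h1]
  · change ρ (φ (x i k)) = φ (π • x i k)
    rw [h.perm_x, hxi]

/-- The field of invariants lies in the field generated by the parameters. -/
theorem S4 [IsAlgClosed D] (b : 𝔽) (hb : ∀ π : Equiv.Perm (Fin n), π • b = b) :
    φ b ∈ adjoin Cf (Set.range (ze t x k₀ φ X₀)) := by
  have hS1 := S1 h ha k₀ k₁ hk φ X₀ hη hD hf hdvd
  have hch : CharZero (adjoin Cf (Set.range (ze t x k₀ φ X₀))) := by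
    have h1 : CharZero Cf := charZero_of_injective_algebraMap (algebraMap K Cf).injective
    exact charZero_of_injective_algebraMap (algebraMap Cf _).injective
  have halg : Algebra.IsAlgebraic (adjoin Cf (Set.range (ze t x k₀ φ X₀))) D := ⟨hS1⟩
  have hic : IsAlgClosure (adjoin Cf (Set.range (ze t x k₀ φ X₀))) D :=
    ⟨inferInstance, inferInstance⟩
  have hgal : IsGalois (adjoin Cf (Set.range (ze t x k₀ φ X₀))) D :=
    { to_isSeparable := inferInstance
      to_normal := IsAlgClosure.normal _ D }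
  have h1 : φ b ∈ Set.range
      (algebraMap (adjoin Cf (Set.range (ze t x k₀ φ X₀))) D) := by
    rw [InfiniteGalois.mem_range_algebraMap_iff_fixed]
    intro τ
    obtain ⟨π, hπ⟩ := S3 h ha k₀ k₁ hk φ X₀ hη hD hf hdvd (τ.restrictScalars Cf) (fun z =>
      τ.commutes ⟨ze t x k₀ φ X₀ z, subset_adjoin _ _ ⟨z, rfl⟩⟩)
    have h2 := hπ b
    rw [hb] at h2
    exact h2
  obtain ⟨w, hw⟩ := h1
  rw [← hw]
  exact w.2

omit ha hk hη hD hf hdvd in
/-- Automorphisms over `Cf` and the invariants fix the parameters. -/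
theorem fix_ze (ρ : D ≃ₐ[Cf] D) (π : Equiv.Perm (Fin n)) (hπ : ∀ w : 𝔽, ρ (φ w) = φ (π • w))
    (z : {k : κ // k ≠ k₀} × Fin n) :
    ρ (ze t x k₀ φ X₀ z) = ze t x k₀ φ X₀ z := by
  have hti : Function.Injective fun i => φ (t i) := φ.injective.comp (inj_t h)
  have h1 : ∀ i, ρ (φ (t i)) = φ (t (π i)) := fun i => by rw [hπ, h.perm_t]
  have h2 : ∀ i k, ρ (φ (x i k)) = φ (x (π i) k) := fun i k => by rw [hπ, h.perm_x]
  have h3 : ∀ i k, ρ (cc t φ X₀ i k) = cc t φ X₀ (π i) k := fun i k => ae_map φ ρ (h1 i) _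
  have h4 : ∀ i, ρ (w0 t x k₀ φ X₀ i) = w0 t x k₀ φ X₀ (π i) := by
    intro i
    rw [w0, w0, map_add, h2, h3]
  have h5 : ∀ i k, ρ (uv t x k₀ φ X₀ i k) = uv t x k₀ φ X₀ (π i) k := by
    intro i k
    rw [uv, uv, map_mul, map_inv₀, map_add, h2, h3, h4]
  have h6 := co_map (ρ : D →+* D) hti (fun i => uv t x k₀ φ X₀ i z.1) z.2
  have h7 := co_perm hti (fun i => uv t x k₀ φ X₀ i z.1) π
  refine h6.trans ?_
  have h8 : (fun i => (ρ : D →+* D) (φ (t i))) = fun i => φ (t (π i)) := funext h1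
  have h9 : (fun i => (ρ : D →+* D) (uv t x k₀ φ X₀ i z.1)) =
      fun i => uv t x k₀ φ X₀ (π i) z.1 := funext fun i => h5 i _
  rw [h8, h9]
  exact congrFun h7 z.2

/-- The parameters lie in the compositum of `Cf` and the invariants. -/
theorem S5a [IsAlgClosed D] (z : D) (hz : z ∈ adjoin Cf (Set.range (ze t x k₀ φ X₀))) :
    z ∈ (IsScalarTower.toAlgHom K Cf D).fieldRange ⊔
      (FixedPoints.intermediateField (Equiv.Perm (Fin n)) : IntermediateField K 𝔽).map φ := by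
  set B : IntermediateField K 𝔽 := FixedPoints.intermediateField (Equiv.Perm (Fin n)) with hB
  let M : IntermediateField K D := (IsScalarTower.toAlgHom K Cf D).fieldRange ⊔ B.map φ
  have hCM : ∀ c : Cf, algebraMap Cf D c ∈ M := fun c =>
    (le_sup_left : _ ≤ M) ⟨c, rfl⟩
  have hBM : ∀ b ∈ B, φ b ∈ M := fun b hb => (le_sup_right : _ ≤ M) ⟨b, hb, rfl⟩
  let _ : Algebra Cf M := ((algebraMap Cf D).codRestrict M.toSubfield hCM).toAlgebra
  have htow : IsScalarTower Cf M D := IsScalarTower.of_algebraMap_eq fun c => rfl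
  have halg : ∀ z : D, IsAlgebraic M z := by
    intro z
    refine alg_map' (RingHom.id D) _ M ?_ (hD z)
    intro a ha
    induction ha using IntermediateField.adjoin_induction with
    | mem a ha => obtain ⟨v, rfl⟩ := ha; exact hBM _ fun π => fixed_uu h k₀ π (Sum.inr v)
    | algebraMap c => exact hCM c
    | add a b _ _ ha hb => rw [map_add]; exact add_mem ha hb
    | inv a _ ha => rw [map_inv₀]; exact inv_mem ha
    | mul a b _ _ ha hb => rw [map_mul]; exact mul_mem ha hb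
  have halg' : Algebra.IsAlgebraic M D := ⟨halg⟩
  have hic : IsAlgClosure M D := ⟨inferInstance, inferInstance⟩
  have hgal : IsGalois M D :=
    { to_isSeparable := inferInstance
      to_normal := IsAlgClosure.normal _ D }
  have hζM : ∀ v, ze t x k₀ φ X₀ v ∈ M := by
    intro v
    have h1 : ze t x k₀ φ X₀ v ∈ Set.range (algebraMap M D) := by
      rw [InfiniteGalois.mem_range_algebraMap_iff_fixed]
      intro τ
      obtain ⟨π, hπ⟩ := aut_of_fix (G := Equiv.Perm (Fin n)) (φ : 𝔽 →+* D) (τ : D ≃+* D)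
        (fun b hb => τ.commutes ⟨φ b, hBM b hb⟩)
      exact fix_ze h k₀ φ X₀ (τ.restrictScalars Cf) π hπ v
    obtain ⟨w, hw⟩ := h1
    rw [← hw]
    exact w.2
  change z ∈ M
  induction hz using IntermediateField.adjoin_induction with
  | mem a ha => obtain ⟨v, rfl⟩ := ha; exact hζM _
  | algebraMap c => exact hCM c
  | add a b _ _ ha hb => exact add_mem ha hb
  | inv a _ ha => exact inv_mem ha
  | mul a b _ _ ha hb => exact mul_mem ha hb

end

end Pool.Agent.Zk31.FN
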