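import Pool.Agent.Zk31.FN
import Pool.Agent.Zk31.EU
import Pool.Agent.Zk31.FL

/-! Assembly: the function field of a symmetric power of a quadric bundle is realizable as soon as
the degree is large and divisible by the index. -/

set_option autoImplicit false
set_option linter.unusedSectionVars false
set_option linter.unusedVariables false

namespace Pool.Agent.Zk31.FO

open Polynomial IntermediateField Pool.Agent.Zk31.EVoc Pool.Agent.Zk31.DE Pool.Agent.Zk31.EP
  Pool.Agent.Zk31.EQ Pool.Agent.Zk31.FM Pool.Agent.Zk31.FN Pool.Agent.Zk31.FL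
  Pool.Agent.TH178.HI
open Pool.Agent.Zk31.DF (uu pt exists_emb)
open Pool.Agent.Zk31.DM (exists_big)
open Pool.Agent.Zk31.EU (root_t)

theorem realizableQ {K κ 𝔽 : Type} [Field K] [CharZero K] [Fintype κ] [DecidableEq κ]
    {a : κ → K[X]} {n : ℕ} [Field 𝔽] [Algebra K 𝔽] [MulSemiringAction (Equiv.Perm (Fin n)) 𝔽]
    [SMulCommClass (Equiv.Perm (Fin n)) K 𝔽] {t : Fin n → 𝔽} {x : Fin n → κ → 𝔽}
    (h : BundlePower a n t x) (ha : ∀ k, a k ≠ 0) (k₀ k₁ : κ) (hk : k₁ ≠ k₀)
    (hC : ConclQ K a n) :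
    Realizable K (FixedPoints.intermediateField (Equiv.Perm (Fin n)) : IntermediateField K 𝔽) := by
  classical
  obtain ⟨Cf, _, _, f, X₀, hpure, hmon, hdeg, hci, hrel, hdvd⟩ := hC
  obtain ⟨D, _, _, _, v, hv, hvD⟩ := exists_big Cf ({k : κ // k ≠ k₀} × Fin n)
  let _ : Algebra K D := ((algebraMap Cf D).comp (algebraMap K Cf)).toAlgebra
  have ht1 : IsScalarTower K Cf D := IsScalarTower.of_algebraMap_eq fun c => rfl
  let vv : Fin n ⊕ ({k : κ // k ≠ k₀} × Fin n) → D :=
    Sum.elim (fun j => algebraMap Cf D (f.coeff j)) v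
  have hvv : AlgebraicIndependent K vv := by
    have h1 := hci.sumElim_comp hv
    have h2 := h1.comp (Equiv.sumComm _ _) (Equiv.injective _)
    have h3 : (Sum.elim v (algebraMap Cf D ∘ fun j : Fin n => f.coeff j)) ∘
        (Equiv.sumComm (Fin n) ({k : κ // k ≠ k₀} × Fin n)) = vv := by
      funext z
      rcases z with j | z <;> rfl
    rw [← h3]
    exact h2
  obtain ⟨φ, hφ⟩ := exists_emb (uu t x k₀) (indep_uu h ha k₀) (alg_uu h ha k₀) vv hvv
  have hc : ∀ j : Fin n, φ (uu t x k₀ (Sum.inl j)) = algebraMap Cf D (f.coeff j) := fun j =>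
    hφ (Sum.inl j)
  have hφv : (fun z : {k : κ // k ≠ k₀} × Fin n => φ (uu t x k₀ (Sum.inr z))) = v :=
    funext fun z => hφ (Sum.inr z)
  have hη : AlgebraicIndependent Cf
      (fun z : {k : κ // k ≠ k₀} × Fin n => φ (uu t x k₀ (Sum.inr z))) := by rw [hφv]; exact hv
  have hD : ∀ z : D, IsAlgebraic (adjoin Cf
      (Set.range fun z : {k : κ // k ≠ k₀} × Fin n => φ (uu t x k₀ (Sum.inr z)))) z := by
    rw [hφv]; exact hvD
  have hf : f.map (algebraMap Cf D) = ∏ i, (X - C (φ (t i))) := root_t φ hmon hdeg hc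
  have hS2 := S2 h ha k₀ k₁ hk φ X₀ hη hD hf hdvd
  set ζ := ze t x k₀ φ X₀ with hζ
  let B : IntermediateField K 𝔽 := FixedPoints.intermediateField (Equiv.Perm (Fin n))
  let T : IntermediateField K D := (adjoin Cf (Set.range ζ)).restrictScalars K
  have hT : Pure T := by
    obtain ⟨ι, hι, ξ, hξ1, hξ2⟩ := hpure
    refine ⟨({k : κ // k ≠ k₀} × Fin n) ⊕ ι, inferInstance, Sum.elim ζ (algebraMap Cf D ∘ ξ),
      hξ1.sumElim_comp hS2, ?_⟩
    apply le_antisymm
    · rw [adjoin_le_iff]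
      rintro _ ⟨z | i, rfl⟩
      · exact subset_adjoin Cf _ ⟨z, rfl⟩
      · exact (adjoin Cf (Set.range ζ)).algebraMap_mem (ξ i)
    · have hC : ∀ c : Cf, algebraMap Cf D c ∈
          adjoin K (Set.range (Sum.elim ζ (algebraMap Cf D ∘ ξ))) := by
        intro c
        have h1 : (⊤ : IntermediateField K Cf) ≤
            (adjoin K (Set.range (Sum.elim ζ (algebraMap Cf D ∘ ξ)))).comap
              (IsScalarTower.toAlgHom K Cf D) := by
          rw [← hξ2, adjoin_le_iff]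
          rintro _ ⟨i, rfl⟩
          exact subset_adjoin _ _ ⟨Sum.inr i, rfl⟩
        exact h1 trivial
      intro y hy
      have hy' : y ∈ adjoin Cf (Set.range ζ) := hy
      induction hy' using IntermediateField.adjoin_induction with
      | mem a h1 => obtain ⟨z, rfl⟩ := h1; exact subset_adjoin _ _ ⟨Sum.inl z, rfl⟩
      | algebraMap c => exact hC c
      | add a b h3 h4 h1 h2 => exact add_mem (h1 h3) (h2 h4)
      | inv a h3 h1 => exact inv_mem (h1 h3)
      | mul a b h3 h4 h1 h2 => exact mul_mem (h1 h3) (h2 h4)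
  have hfr : (φ.comp B.val).fieldRange = B.map φ := by
    ext y
    constructor
    · rintro ⟨b, rfl⟩
      exact ⟨b, b.2, rfl⟩
    · rintro ⟨b, hb, rfl⟩
      exact ⟨⟨b, hb⟩, rfl⟩
  refine ⟨D, inferInstance, inferInstance, T, φ.comp B.val, hT, ?_, ?_⟩
  · rw [hfr]
    rintro _ ⟨b, hb, rfl⟩
    exact S4 h ha k₀ k₁ hk φ X₀ hη hD hf hdvd b hb
  · rw [hfr]
    intro z hz hal
    exact closed_T1 h ha k₀ f hrel φ hc hη z
      (S5a h ha k₀ k₁ hk φ X₀ hη hD hf hdvd z hz) hal

/-- **Symmetric powers of quadric bundles**: all large even degrees, and all large degrees if there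
is a point of odd degree. -/
theorem realizable_all (K κ : Type) [Field K] [CharZero K] [Fintype κ] [DecidableEq κ]
    (a : κ → K[X]) (ha : ∀ k, a k ≠ 0) (hκ : 2 ≤ Fintype.card κ) :
    ∃ M : ℕ, ∀ n : ℕ, M ≤ n → (Even n ∨ ∃ (E : Type) (_ : Field E) (_ : Algebra K E) (τ : E)
        (y : κ → E), FiniteDimensional K E ∧ Odd (Module.finrank K E) ∧
          ∑ k, aeval τ (a k) * y k ^ 2 = 1) →
      ∀ (𝔽 : Type) [Field 𝔽] [Algebra K 𝔽]
      [MulSemiringAction (Equiv.Perm (Fin n)) 𝔽] [SMulCommClass (Equiv.Perm (Fin n)) K 𝔽]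
      (t : Fin n → 𝔽) (x : Fin n → κ → 𝔽), BundlePower a n t x →
      Realizable K
        (FixedPoints.intermediateField (Equiv.Perm (Fin n)) : IntermediateField K 𝔽) := by
  obtain ⟨k₁, k₀, hk⟩ := Fintype.exists_pair_of_one_lt_card (α := κ) (by omega)
  obtain ⟨M, hM⟩ := mlQ_even a ha k₀ k₁ hk
  by_cases hE : ∃ (E : Type) (_ : Field E) (_ : Algebra K E) (τ : E)
        (y : κ → E), FiniteDimensional K E ∧ Odd (Module.finrank K E) ∧
          ∑ k, aeval τ (a k) * y k ^ 2 = 1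
  · obtain ⟨E, _, _, τ, y, hfin, hodd, hy⟩ := hE
    obtain ⟨M', hM'⟩ := mlQ_odd a ha k₀ k₁ hk E hodd τ y hy
    refine ⟨max M M', ?_⟩
    intro n hn _ 𝔽 _ _ _ _ t x h
    rcases Nat.even_or_odd n with he | ho
    · exact realizableQ h ha k₀ k₁ hk (hM n (le_trans (le_max_left _ _) hn) he)
    · exact realizableQ h ha k₀ k₁ hk (hM' n (le_trans (le_max_right _ _) hn) ho)
  · refine ⟨M, ?_⟩
    intro n hn he 𝔽 _ _ _ _ t x h
    exact realizableQ h ha k₀ k₁ hk (hM n hn (he.resolve_right hE))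

end Pool.Agent.Zk31.FO
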