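import Mathlib
import Pool.Agent.Zk31.Fin2
import Pool.Agent.N70.ES.VocWB

/-!
# The index theorem for the nonsplit covers
-/

set_option autoImplicit false
set_option linter.unusedSectionVars false

namespace Pool.Agent.Zk31

open Pool.Agent.H391R2 Pool.Agent.H391R2.T4
open Pool.Agent.TH444.TW (RSK Cls infinite_ratFunc)
open Pool.Agent.N600.NS (IdxDvd Degs)
open Pool.Agent.N70.EP.Voc (RegularSolution ProperSolution WeakSolutionOver IsIndex TwWeak twPr TwPow
  IsSplittingIndex)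
open Pool.Agent.N70.EP (over_of_weak weak_of_over)
open Voc

section reg

variable {K L : Type} [Field K] [CharZero K] [Field L] [Algebra K L] [FiniteDimensional K L]
  [IsGalois K L] {B : Type} [Group B] [Finite B] (a : B →* (L ≃ₐ[K] L))

/-- Central extensions of the alternating group. -/
theorem reg_fib {n h : ℕ} (e : Fin n ≃ II h) {S : Type} [Group S] [Finite S]
    (ρ : S →* Equiv.Perm (Fin n)) (h4 : 4 ∣ h) (h8 : 8 ≤ n) (hc : CExt ρ)
    (hr : RegSol K L (SpW a e) (spPr a e)) :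
    RegSol K L (FibrePower a ρ) (fibPr a ρ) := by
  obtain ⟨q, hq⟩ := cov_univ e h4 (by rwa [Fintype.card_fin]) ρ hc
  have hf : Finite (SpW a e) := finite_SpW a e h4
  have hK : Infinite K := CharZero.infinite K
  have h1 : RSK ℚ (MonoidHom.fst (SpW a e) ρ.ker) := by
    refine (Cls.abelian (K := ℚ) (MonoidHom.fst (SpW a e) ρ.ker) (MonoidHom.inl _ _)
      (fun w => rfl) inferInstance (fun x y hx hy => ?_)).rsk
    refine Prod.ext ?_ ?_
    · change x.1 * y.1 = y.1 * x.1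
      have hx' : x.1 = 1 := hx
      have hy' : y.1 = 1 := hy
      rw [hx', hy']
    · exact Subtype.ext (hc.cent _ x.2.2 _)
  have h2 : RegSol K L (SpW a e × ρ.ker)
      ((spPr a e).comp (MonoidHom.fst (SpW a e) ρ.ker)) := by
    refine Pool.Agent.TH444.TW.reg_comp K L _ _ (spPr a e) _ hr fun M _ _ _ _ γ₁ => ?_
    have hinf := infinite_ratFunc K
    let _ : Algebra ℚ (RatFunc K) :=
      ((algebraMap K (RatFunc K)).comp (Rat.castHom K)).toAlgebra
    exact h1 (RatFunc K) M γ₁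
  refine Pool.Agent.W200.IJ.regSol_quot (L' := L) (fibPr a ρ) _
    (fibQ a e ρ ⟨0, by omega⟩ q hq hc.cent) (fibQ_surj a e ρ h4 _ q hq hc) ?_ ?_ h2
  · intro z
    apply AlgEquiv.ext
    intro x
    have h3 := AlgEquiv.restrictNormal_commutes
      (((spPr a e).comp (MonoidHom.fst (SpW a e) ρ.ker)) z) L x
    exact h3.symm
  · intro τ hτ
    refine ⟨1, map_one _, ?_⟩
    rw [map_one]
    apply AlgEquiv.ext
    intro x
    have h3 := AlgEquiv.restrictNormal_commutes τ L x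
    rw [hτ] at h3
    exact h3

/-- The main theorem over a field. -/
theorem fibR (ha : Function.Surjective a) :
    ∃ r₀ : ℕ, ∀ r ≥ r₀, 2 ∣ r → IdxDvd K L B a r → ∃ k₀ : ℕ, ∀ k ≥ k₀,
      ∀ (S : Type) [Group S] [Finite S] (ρ : S →* Equiv.Perm (Fin (4 * r * (2 * k + 1)))),
        CExt ρ → RegSol K L (FibrePower a ρ) (fibPr a ρ) := by
  obtain ⟨r₀, hr₀⟩ := mainR K L a ha
  refine ⟨max r₀ 2, fun r hr h2r hidx => ?_⟩
  obtain ⟨k₀, hk₀⟩ := hr₀ r (le_trans (le_max_left _ _) hr) h2r hidx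
  refine ⟨k₀, fun k hk S _ _ ρ hρ => ?_⟩
  have hr2 : 2 ≤ r := le_trans (le_max_right _ _) hr
  have hn : 4 * r * (2 * k + 1) = 2 * (2 * r) * (2 * k + 1) := by ring
  have h8 : 8 ≤ 4 * r * (2 * k + 1) := by
    calc 8 = 4 * 2 * 1 := rfl
      _ ≤ 4 * r * (2 * k + 1) := Nat.mul_le_mul (Nat.mul_le_mul le_rfl hr2) (by omega)
  revert ρ h8
  rw [hn]
  intro ρ hρ h8
  have hcard : Fintype.card (Fin (2 * (2 * r) * (2 * k + 1))) =
      Fintype.card (II ((2 * k + 1) * (2 * r))) := by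
    rw [Fintype.card_fin]
    simp only [II, Fintype.card_sum, Fintype.card_fin]
    ring
  have h4 : 4 ∣ (2 * k + 1) * (2 * r) := by
    obtain ⟨q, rfl⟩ := h2r
    exact ⟨(2 * k + 1) * q, by ring⟩
  exact reg_fib a (Fintype.equivOfCardEq hcard) ρ h4 h8 hρ (hk₀ k hk _)

/-- The map to the alternating fibre power. -/
def toTw {n : ℕ} {S : Type} [Group S] (ρ : S →* Equiv.Perm (Fin n))
    (hs : ∀ s, Equiv.Perm.sign (ρ s) = 1) : FibrePower a ρ →* TwPow a 1 n where
  toFun z := ⟨(⟨z.1.1.left, ρ z.1.1.right⟩, z.1.2), z.2, hs _⟩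
  map_one' := by
    refine Subtype.ext (Prod.ext ?_ rfl)
    exact SemidirectProduct.ext rfl (map_one ρ)
  map_mul' z w := by
    refine Subtype.ext (Prod.ext ?_ rfl)
    exact SemidirectProduct.ext rfl (map_mul ρ _ _)

/-- The index theorem. -/
theorem fib_index (ha : Function.Surjective a) :
    ∃ I : ℕ, IsIndex a I ∧
      (∀ (n : ℕ) (S : Type) [Group S] [Finite S] (ρ : S →* Equiv.Perm (Fin n)),
        CentralOverAlt ρ → (WeakSolutionOver (fibPr a ρ) K ∨ RegularSolution (fibPr a ρ)) →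
          I ∣ n) ∧
      AbundantMultiples I (fun n => ∀ (S : Type) [Group S] [Finite S]
        (ρ : S →* Equiv.Perm (Fin n)), CentralOverAlt ρ → RegularSolution (fibPr a ρ)) := by
  obtain ⟨-, I, hI, h1, -⟩ := N70.ES.voc_full K L a ha
  have hw : ∀ (n : ℕ) (S : Type) [Group S] [Finite S] (ρ : S →* Equiv.Perm (Fin n)),
        CentralOverAlt ρ → WeakSolutionOver (fibPr a ρ) K → I ∣ n := by
    intro n S _ _ ρ hρ h
    apply h1 1 n
    obtain ⟨M, i1, i2, i3, i4, i5, i6, i7, i8, s, hs⟩ := h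
    exact ⟨M, i1, i2, i3, i4, i5, i6, i7, i8, (toTw a ρ (cext_of hρ).sgn).comp s, hs⟩
  refine ⟨I, hI, ?_, abundant_of hI.1 ?_⟩
  · rintro n S _ _ ρ hρ (h | h)
    · exact hw n S ρ hρ h
    · have hfin := finite_fib a ρ
      exact hw n S ρ hρ (over_of_weak K L _ (Pool.Agent.N600.NS.weak_of_reg K L _ _ h))
  · obtain ⟨r₀, hr₀⟩ := fibR a ha
    refine ⟨r₀, fun r hr h2 hIr => ?_⟩
    have hidx : IdxDvd K L B a r := by
      intro d hd
      refine ((hI.2 d).2 fun K' _ _ _ h => hd _ ⟨K', _, _, inferInstance, rfl, h⟩).trans hIr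
    obtain ⟨k₀, hk₀⟩ := hr₀ r hr h2 hidx
    exact ⟨k₀, fun k hk S _ _ ρ hρ => hk₀ k hk S ρ (cext_of hρ)⟩

end reg

end Pool.Agent.Zk31
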