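import Mathlib

/-! Twisting a field with a group action by a Galois extension with the same group. -/

set_option autoImplicit false
set_option linter.unusedSectionVars false

namespace Pool.Agent.Zk31.QA

open IntermediateField

/-- Automorphisms of `N` over `k` lift to automorphisms of `Ω`, trivial on a given field `R`, if
they are trivial on the intersection of `N` and `R`. -/
theorem lift_of_disjoint {k L N Ω : Type} [Field k] [Field L] [Field N] [Field Ω] [CharZero k]
    [Algebra k L] [Algebra k N] [Algebra L N] [IsScalarTower k L N] [Algebra k Ω] [Algebra N Ω]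
    [IsScalarTower k N Ω] [FiniteDimensional k N] [IsGalois k N] [IsAlgClosed Ω]
    {R : Type} [Field R] [Algebra k R] [Algebra R Ω] [IsScalarTower k R Ω]
    [Algebra.IsAlgebraic R Ω]
    (hR : ∀ n : N, algebraMap N Ω n ∈ Set.range (algebraMap R Ω) → n ∈ Set.range (algebraMap L N))
    (s : N ≃ₐ[k] N) (hs : ∀ l : L, s (algebraMap L N l) = algebraMap L N l) :
    ∃ σ : Ω ≃ₐ[k] Ω, (∀ r : R, σ (algebraMap R Ω r) = algebraMap R Ω r) ∧
      ∀ n : N, σ (algebraMap N Ω n) = algebraMap N Ω (s n) := by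
  have hcR : CharZero R := charZero_of_injective_algebraMap (algebraMap k R).injective
  have hic : IsAlgClosure R Ω := ⟨inferInstance, inferInstance⟩
  have hgalR : IsGalois R Ω :=
    { to_isSeparable := inferInstance
      to_normal := IsAlgClosure.normal R Ω }
  let H : Subgroup (N ≃ₐ[k] N) :=
    { carrier := {s | ∃ σ : Ω ≃ₐ[k] Ω, (∀ r : R, σ (algebraMap R Ω r) = algebraMap R Ω r) ∧
        ∀ n : N, σ (algebraMap N Ω n) = algebraMap N Ω (s n)}
      one_mem' := ⟨1, fun _ => rfl, fun _ => rfl⟩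
      mul_mem' := by
        rintro a b ⟨σ, h1, h2⟩ ⟨τ, h3, h4⟩
        refine ⟨σ * τ, fun r => ?_, fun n => ?_⟩
        · rw [AlgEquiv.mul_apply, h3, h1]
        · rw [AlgEquiv.mul_apply, h4, h2, AlgEquiv.mul_apply]
      inv_mem' := by
        rintro a ⟨σ, h1, h2⟩
        refine ⟨σ⁻¹, fun r => ?_, fun n => ?_⟩
        · apply σ.injective
          rw [← AlgEquiv.mul_apply, mul_inv_cancel, AlgEquiv.one_apply, h1]
        · apply σ.injective
          rw [← AlgEquiv.mul_apply, mul_inv_cancel, AlgEquiv.one_apply, h2,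
            ← AlgEquiv.mul_apply, mul_inv_cancel, AlgEquiv.one_apply] }
  have h1 : ∀ n ∈ fixedField H, n ∈ Set.range (algebraMap L N) := by
    intro n hn
    apply hR
    rw [InfiniteGalois.mem_range_algebraMap_iff_fixed]
    intro τ
    let τ' : Ω ≃ₐ[k] Ω := τ.restrictScalars k
    have h2 : τ'.restrictNormal N ∈ H :=
      ⟨τ', fun r => τ.commutes r, fun m => (AlgEquiv.restrictNormal_commutes τ' N m).symm⟩
    have h3 := (mem_fixedField_iff H n).1 hn _ h2
    have h4 := AlgEquiv.restrictNormal_commutes τ' N n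
    rw [h3] at h4
    exact h4.symm
  have h2 : s ∈ (fixedField H).fixingSubgroup := by
    rw [IntermediateField.mem_fixingSubgroup_iff]
    intro n hn
    obtain ⟨l, rfl⟩ := h1 n hn
    exact hs l
  rw [fixingSubgroup_fixedField] at h2
  exact h2

section

variable {k F L N Ω B : Type} [Field k] [Field F] [Field L] [Field N] [Field Ω] [CharZero k]
  [Algebra k F] [Algebra k L] [Algebra L F] [IsScalarTower k L F]
  [Algebra k N] [Algebra L N] [IsScalarTower k L N] [FiniteDimensional k N] [IsGalois k N]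
  [Algebra k Ω] [Algebra F Ω] [IsScalarTower k F Ω] [Algebra N Ω] [IsScalarTower k N Ω]
  [Algebra L Ω] [IsScalarTower L F Ω] [IsScalarTower L N Ω]
  [IsAlgClosed Ω] [Algebra.IsAlgebraic F Ω]
  [Group B] [MulSemiringAction B F]

variable (k) in
/-- The automorphisms of `Ω` which act on `N` and on `F` compatibly with `γ`. -/
def DD (γ : (N ≃ₐ[k] N) ≃* B) : Subgroup (Ω ≃ₐ[k] Ω) where
  carrier := {σ | ∃ s : N ≃ₐ[k] N, (∀ n, σ (algebraMap N Ω n) = algebraMap N Ω (s n)) ∧
    ∀ f : F, σ (algebraMap F Ω f) = algebraMap F Ω (γ s • f)}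
  one_mem' := ⟨1, fun _ => rfl, fun f => by rw [map_one, one_smul]; rfl⟩
  mul_mem' := by
    rintro a b ⟨s, h1, h2⟩ ⟨t, h3, h4⟩
    refine ⟨s * t, fun n => ?_, fun f => ?_⟩
    · rw [AlgEquiv.mul_apply, h3, h1, AlgEquiv.mul_apply]
    · rw [AlgEquiv.mul_apply, h4, h2, map_mul, mul_smul]
  inv_mem' := by
    rintro a ⟨s, h1, h2⟩
    refine ⟨s⁻¹, fun n => ?_, fun f => ?_⟩
    · apply a.injective
      rw [← AlgEquiv.mul_apply, mul_inv_cancel, AlgEquiv.one_apply, h1,
        ← AlgEquiv.mul_apply, mul_inv_cancel, AlgEquiv.one_apply]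
    · apply a.injective
      rw [← AlgEquiv.mul_apply, mul_inv_cancel, AlgEquiv.one_apply, h2, map_inv, smul_inv_smul]

variable {γ : (N ≃ₐ[k] N) ≃* B}

variable (F) (Ω) in
/-- Compatible pairs of automorphisms extend to `Ω`. -/
theorem exists_lift_pair [SMulCommClass B k F] (α : B →* (L ≃ₐ[k] L))
    (hα : ∀ (b : B) (l : L), b • algebraMap L F l = algebraMap L F (α b l))
    (hLF : ∀ y : F, IsAlgebraic L y → y ∈ Set.range (algebraMap L F)) (β : B) (s : N ≃ₐ[k] N)
    (hγ : ∀ (l : L), algebraMap L N (α β l) = s (algebraMap L N l)) :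
    ∃ σ : Ω ≃ₐ[k] Ω, (∀ n, σ (algebraMap N Ω n) = algebraMap N Ω (s n)) ∧
      ∀ f : F, σ (algebraMap F Ω f) = algebraMap F Ω (β • f) := by
  have hic : IsAlgClosure F Ω := ⟨inferInstance, inferInstance⟩
  let b : F ≃+* F := MulSemiringAction.toRingEquiv B F β
  let σ₁ : Ω ≃+* Ω := IsAlgClosure.equivOfEquiv Ω Ω b
  have hσ₁ : ∀ f : F, σ₁ (algebraMap F Ω f) = algebraMap F Ω (β • f) := fun f =>
    IsAlgClosure.equivOfEquiv_algebraMap Ω Ω b f
  let σ₀ : Ω ≃ₐ[k] Ω := AlgEquiv.ofRingEquiv (f := σ₁) fun c => by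
    rw [IsScalarTower.algebraMap_apply k F Ω, hσ₁]
    congr 1
    rw [Algebra.algebraMap_eq_smul_one, smul_comm, smul_one]
  have hσ₀ : ∀ f : F, σ₀ (algebraMap F Ω f) = algebraMap F Ω (β • f) := hσ₁
  let s₀ : N ≃ₐ[k] N := σ₀.restrictNormal N
  have hs₀ : ∀ n : N, σ₀ (algebraMap N Ω n) = algebraMap N Ω (s₀ n) := fun n =>
    (AlgEquiv.restrictNormal_commutes σ₀ N n).symm
  have hs₀L : ∀ l : L, s₀ (algebraMap L N l) = s (algebraMap L N l) := by
    intro l
    apply (algebraMap N Ω).injective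
    rw [← hs₀, ← hγ, ← IsScalarTower.algebraMap_apply L N Ω, ← IsScalarTower.algebraMap_apply L N Ω,
      IsScalarTower.algebraMap_apply L F Ω, hσ₀, hα, ← IsScalarTower.algebraMap_apply L F Ω]
  have hdis : ∀ n : N, algebraMap N Ω n ∈ Set.range (algebraMap F Ω) →
      n ∈ Set.range (algebraMap L N) := by
    rintro n ⟨f, hf⟩
    have h1 : IsAlgebraic L f := by
      have h2 : IsAlgebraic k (algebraMap N Ω n) :=
        (Algebra.IsAlgebraic.isAlgebraic (R := k) n).algebraMap
      rw [← hf] at h2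
      have h3 : IsAlgebraic k f :=
        (isAlgebraic_algebraMap_iff (algebraMap F Ω).injective).mp h2
      exact h3.extendScalars (algebraMap k L).injective
    obtain ⟨l, rfl⟩ := hLF f h1
    refine ⟨l, ?_⟩
    apply (algebraMap N Ω).injective
    rw [← hf, ← IsScalarTower.algebraMap_apply L N Ω, ← IsScalarTower.algebraMap_apply L F Ω]
  obtain ⟨τ, hτ1, hτ2⟩ := lift_of_disjoint (k := k) (L := L) (N := N) (Ω := Ω) (R := F) hdis
    (s * s₀⁻¹) (fun l => by
      rw [AlgEquiv.mul_apply]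
      -- `s₀⁻¹` preserves `L`
      obtain ⟨l', hl'⟩ : ∃ l', s₀ (algebraMap L N l') = algebraMap L N l := by
        refine ⟨(α β)⁻¹ l, ?_⟩
        rw [hs₀L, ← hγ, ← AlgEquiv.mul_apply, mul_inv_cancel, AlgEquiv.one_apply]
      rw [← hl', ← AlgEquiv.mul_apply s₀⁻¹, inv_mul_cancel, AlgEquiv.one_apply, ← hs₀L])
  refine ⟨τ * σ₀, fun n => ?_, fun f => ?_⟩
  · rw [AlgEquiv.mul_apply, hs₀, hτ2, AlgEquiv.mul_apply, ← AlgEquiv.mul_apply s₀⁻¹,
      inv_mul_cancel, AlgEquiv.one_apply]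
  · rw [AlgEquiv.mul_apply, hσ₀, hτ1]

variable (F) (Ω) in
/-- Every automorphism of `N` comes from `DD`. -/
theorem exists_lift [SMulCommClass B k F] (α : B →* (L ≃ₐ[k] L))
    (hα : ∀ (b : B) (l : L), b • algebraMap L F l = algebraMap L F (α b l))
    (hγ : ∀ (σ : N ≃ₐ[k] N) (l : L), algebraMap L N (α (γ σ) l) = σ (algebraMap L N l))
    (hLF : ∀ y : F, IsAlgebraic L y → y ∈ Set.range (algebraMap L F)) (s : N ≃ₐ[k] N) :
    ∃ σ : Ω ≃ₐ[k] Ω, (∀ n, σ (algebraMap N Ω n) = algebraMap N Ω (s n)) ∧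
      ∀ f : F, σ (algebraMap F Ω f) = algebraMap F Ω (γ s • f) :=
  exists_lift_pair F Ω α hα hLF (γ s) s (hγ s)

/-- Elements of `F` fixed by `DD` are fixed by `B`. -/
theorem fixed_F [SMulCommClass B k F] (α : B →* (L ≃ₐ[k] L))
    (hα : ∀ (b : B) (l : L), b • algebraMap L F l = algebraMap L F (α b l))
    (hγ : ∀ (σ : N ≃ₐ[k] N) (l : L), algebraMap L N (α (γ σ) l) = σ (algebraMap L N l))
    (hLF : ∀ y : F, IsAlgebraic L y → y ∈ Set.range (algebraMap L F)) (f : F)
    (hf : algebraMap F Ω f ∈ fixedField (DD (F := F) (Ω := Ω) k γ)) (b : B) : b • f = f := by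
  obtain ⟨σ, h1, h2⟩ := exists_lift F Ω α hα hγ hLF (γ.symm b)
  have h3 : σ ∈ DD (F := F) (Ω := Ω) k γ := ⟨_, h1, h2⟩
  have h4 := (mem_fixedField_iff _ _).1 hf σ h3
  rw [h2, γ.apply_symm_apply] at h4
  exact (algebraMap F Ω).injective h4

/-- Elements of the twisted field which generate over `F` a field with few constants belong
to `F`. -/
theorem mem_F_of_disjoint
    (R : IntermediateField F Ω)
    (hR : ∀ n : N, algebraMap N Ω n ∈ R → n ∈ Set.range (algebraMap L N)) (θ : Ω) (hθR : θ ∈ R)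
    (hθ : θ ∈ fixedField (DD (F := F) (Ω := Ω) k γ)) : θ ∈ Set.range (algebraMap F Ω) := by
  have hcF : CharZero F := charZero_of_injective_algebraMap (algebraMap k F).injective
  have hic : IsAlgClosure F Ω := ⟨inferInstance, inferInstance⟩
  have hgalF : IsGalois F Ω :=
    { to_isSeparable := inferInstance
      to_normal := IsAlgClosure.normal F Ω }
  rw [InfiniteGalois.mem_range_algebraMap_iff_fixed]
  intro τ
  let τ₁ : Ω ≃ₐ[k] Ω := τ.restrictScalars k
  let s : N ≃ₐ[k] N := τ₁.restrictNormal N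
  have hs : ∀ n : N, τ₁ (algebraMap N Ω n) = algebraMap N Ω (s n) := fun n =>
    (AlgEquiv.restrictNormal_commutes τ₁ N n).symm
  have hsL : ∀ l : L, s (algebraMap L N l) = algebraMap L N l := by
    intro l
    apply (algebraMap N Ω).injective
    rw [← hs, ← IsScalarTower.algebraMap_apply L N Ω, IsScalarTower.algebraMap_apply L F Ω]
    exact τ.commutes _
  have htow : IsScalarTower k R Ω := IsScalarTower.of_algebraMap_eq fun x => by
    rw [IsScalarTower.algebraMap_apply k F Ω, IsScalarTower.algebraMap_apply k F R]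
    rfl
  obtain ⟨τ', hτ1, hτ2⟩ := lift_of_disjoint (k := k) (L := L) (N := N) (Ω := Ω) (R := R)
    (fun n ⟨r, hr⟩ => hR n (hr ▸ r.2)) s hsL
  have hρ : τ₁ * τ'⁻¹ ∈ DD (F := F) (Ω := Ω) k γ := by
    refine ⟨1, fun n => ?_, fun f => ?_⟩
    · have h1 : τ'⁻¹ (algebraMap N Ω n) = algebraMap N Ω (s⁻¹ n) := by
        apply τ'.injective
        rw [hτ2, ← AlgEquiv.mul_apply s, mul_inv_cancel, AlgEquiv.one_apply, ← AlgEquiv.mul_apply,
          mul_inv_cancel, AlgEquiv.one_apply]
      rw [AlgEquiv.mul_apply, h1, hs, ← AlgEquiv.mul_apply s, mul_inv_cancel]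
    · have h1 : τ'⁻¹ (algebraMap F Ω f) = algebraMap F Ω f := by
        apply τ'.injective
        have h2 := hτ1 (algebraMap F R f)
        rw [← AlgEquiv.mul_apply, mul_inv_cancel, AlgEquiv.one_apply]
        exact h2.symm
      rw [AlgEquiv.mul_apply, h1, map_one, one_smul]
      exact τ.commutes f
  have h1 := (mem_fixedField_iff _ _).1 hθ _ hρ
  have h2 : τ'⁻¹ θ = θ := by
    apply τ'.injective
    have h3 := hτ1 (⟨θ, hθR⟩ : R)
    rw [← AlgEquiv.mul_apply, mul_inv_cancel, AlgEquiv.one_apply]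
    exact h3.symm
  rw [AlgEquiv.mul_apply, h2] at h1
  exact h1

end

end Pool.Agent.Zk31.QA
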