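import Pool.Agent.Zk31.QA
import Pool.Agent.TH178.HI.Pure

/-! The twisted field of a linear action is purely transcendental (Speiser). -/

set_option autoImplicit false
set_option linter.unusedSectionVars false

namespace Pool.Agent.Zk31.QB

open IntermediateField Pool.Agent.TH178.HI Pool.Agent.Zk31.QA

open scoped IntermediateField.algebraAdjoinAdjoin

open scoped Classical in
/-- Dual form of the independence of the automorphisms. -/
theorem exists_dual (k N : Type) [Field k] [Field N] [Algebra k N] [FiniteDimensional k N] :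
    ∃ c : N →₀ N, ∀ s : N ≃ₐ[k] N, (c.sum fun l a => a * s l) = if s = 1 then 1 else 0 := by
  classical
  have hfin : Fintype (N ≃ₐ[k] N) := Fintype.ofFinite _
  let v : N → ((N ≃ₐ[k] N) → N) := fun l s => s l
  have htop : Submodule.span N (Set.range v) = ⊤ := by
    by_contra hne
    obtain ⟨f, hf0, hf⟩ := Submodule.exists_le_ker_of_lt_top _ (lt_top_iff_ne_top.mpr hne)
    apply hf0
    have h1 : LinearIndependent N (fun s : (N ≃ₐ[k] N) => (fun l : N => s l)) := by
      have h2 := (linearIndependent_monoidHom N N).comp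
        (fun s : (N ≃ₐ[k] N) => ((s : N →+* N) : N →* N)) (by
          intro s t hst
          apply AlgEquiv.ext
          intro l
          exact congrArg (fun g : N →* N => g l) hst)
      exact h2
    rw [Fintype.linearIndependent_iff] at h1
    have h3 : ∀ s, f (Pi.single s 1) = 0 := by
      apply h1
      funext l
      have h4 : f (v l) = 0 := hf (Submodule.subset_span ⟨l, rfl⟩)
      rw [Finset.sum_apply]
      rw [pi_eq_sum_univ' (v l), map_sum] at h4
      rw [Pi.zero_apply, ← h4]
      refine Finset.sum_congr rfl fun s _ => ?_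
      rw [map_smul, Pi.smul_apply, smul_eq_mul, smul_eq_mul, mul_comm]
    refine LinearMap.pi_ext' fun s => ?_
    apply LinearMap.ext_ring
    exact h3 s
  have h1 : (Pi.single 1 1 : (N ≃ₐ[k] N) → N) ∈ Submodule.span N (Set.range v) := by
    rw [htop]; trivial
  obtain ⟨c, hc⟩ := Finsupp.mem_span_range_iff_exists_finsupp.mp h1
  refine ⟨c, fun s => ?_⟩
  have h2 := congrFun hc s
  rw [Finsupp.sum, Finset.sum_apply] at h2
  rw [Finsupp.sum]
  calc ∑ a ∈ c.support, c a * s a = ∑ a ∈ c.support, (c a • v a) s := rfl
    _ = _ := h2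
    _ = _ := by rw [Pi.single_apply]

section

variable {k F L N Ω B : Type} [Field k] [Field F] [Field L] [Field N] [Field Ω] [CharZero k]
  [Algebra k F] [Algebra k L] [Algebra L F] [IsScalarTower k L F]
  [Algebra k N] [Algebra L N] [IsScalarTower k L N] [FiniteDimensional k N] [IsGalois k N]
  [Algebra k Ω] [Algebra F Ω] [IsScalarTower k F Ω] [Algebra N Ω] [IsScalarTower k N Ω]
  [Algebra L Ω] [IsScalarTower L F Ω] [IsScalarTower L N Ω]
  [IsAlgClosed Ω] [Algebra.IsAlgebraic F Ω]
  [Group B] [MulSemiringAction B F]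

/-- Two automorphisms which agree on `N` and on `S` agree on `N(S)`. -/
theorem agree {S : Set Ω} {σ τ : Ω ≃ₐ[k] Ω} (h1 : ∀ n : N, σ (algebraMap N Ω n) = τ (algebraMap N Ω n))
    (h2 : ∀ z ∈ S, σ z = τ z) {z : Ω} (hz : z ∈ adjoin N S) : σ z = τ z := by
  induction hz using IntermediateField.adjoin_induction with
  | mem x hx => exact h2 x hx
  | algebraMap n => exact h1 n
  | add x y _ _ hx hy => rw [map_add, map_add, hx, hy]
  | inv x _ hx => rw [map_inv₀, map_inv₀, hx]
  | mul x y _ _ hx hy => rw [map_mul, map_mul, hx, hy]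

variable {ι : Type} [Finite ι]

theorem pure_twist [SMulCommClass B k F] {γ : (N ≃ₐ[k] N) ≃* B} (α : B →* (L ≃ₐ[k] L))
    (hα : ∀ (b : B) (l : L), b • algebraMap L F l = algebraMap L F (α b l))
    (hγ : ∀ (σ : N ≃ₐ[k] N) (l : L), algebraMap L N (α (γ σ) l) = σ (algebraMap L N l))
    (hLF : ∀ y : F, IsAlgebraic L y → y ∈ Set.range (algebraMap L F))
    (x : ι → F) (hx : AlgebraicIndependent k x) (hxt : adjoin L (Set.range x) = ⊤)
    (hst : ∀ (b : B) (i : ι), b • x i ∈ Submodule.span L (Set.range x)) :
    Pure (fixedField (DD (F := F) (Ω := Ω) k γ)) := by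
  classical
  have hfin : Fintype (N ≃ₐ[k] N) := Fintype.ofFinite _
  set T := fixedField (DD (F := F) (Ω := Ω) k γ) with hT
  have hex := exists_lift F Ω α hα hγ hLF
  choose σs hσN hσF using hex
  have hσD : ∀ s, σs s ∈ DD (F := F) (Ω := Ω) k γ := fun s => ⟨s, hσN s, hσF s⟩
  let XX : Set Ω := Set.range fun i => algebraMap F Ω (x i)
  let W : Submodule N Ω := Submodule.span N XX
  let FF : Set Ω := Set.range (algebraMap F Ω)
  -- `F` and `span`
  have hspan : ∀ v ∈ Submodule.span L (Set.range x), algebraMap F Ω v ∈ W := by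
    intro v hv
    induction hv using Submodule.span_induction with
    | mem v hv =>
      obtain ⟨i, rfl⟩ := hv
      exact Submodule.subset_span ⟨i, rfl⟩
    | zero => rw [map_zero]; exact W.zero_mem
    | add u v _ _ hu hv => rw [map_add]; exact W.add_mem hu hv
    | smul l v _ hv =>
      have h1 : algebraMap F Ω (l • v) = (algebraMap L N l) • algebraMap F Ω v := by
        rw [Algebra.smul_def, map_mul, Algebra.smul_def, ← IsScalarTower.algebraMap_apply L F Ω,
          ← IsScalarTower.algebraMap_apply L N Ω]
      rw [h1]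
      exact W.smul_mem _ hv
  have hWF : ∀ w ∈ W, w ∈ adjoin N FF := by
    intro w hw
    induction hw using Submodule.span_induction with
    | mem v hv =>
      obtain ⟨i, rfl⟩ := hv
      exact subset_adjoin _ _ ⟨x i, rfl⟩
    | zero => exact zero_mem _
    | add u v _ _ hu hv => exact add_mem hu hv
    | smul l v _ hv =>
      rw [Algebra.smul_def]
      exact mul_mem (IntermediateField.algebraMap_mem _ l) hv
  have hDW : ∀ σ ∈ DD (F := F) (Ω := Ω) k γ, ∀ w ∈ W, σ w ∈ W := by
    rintro σ ⟨s, h1, h2⟩ w hw
    induction hw using Submodule.span_induction with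
    | mem v hv =>
      obtain ⟨i, rfl⟩ := hv
      change σ (algebraMap F Ω (x i)) ∈ W
      rw [h2]
      exact hspan _ (hst _ i)
    | zero => rw [map_zero]; exact W.zero_mem
    | add u v _ _ hu hv => rw [map_add]; exact W.add_mem hu hv
    | smul n v _ hv =>
      rw [Algebra.smul_def, map_mul, h1, ← Algebra.smul_def]
      exact W.smul_mem _ hv
  -- uniqueness of the action
  have huniq : ∀ (σ τ : Ω ≃ₐ[k] Ω) (s t : N ≃ₐ[k] N), s = t →
      (∀ n, σ (algebraMap N Ω n) = algebraMap N Ω (s n)) →
      (∀ f, σ (algebraMap F Ω f) = algebraMap F Ω (γ s • f)) →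
      (∀ n, τ (algebraMap N Ω n) = algebraMap N Ω (t n)) →
      (∀ f, τ (algebraMap F Ω f) = algebraMap F Ω (γ t • f)) →
      ∀ z ∈ adjoin N FF, σ z = τ z := by
    rintro σ τ s t rfl h1 h2 h3 h4 z hz
    refine agree (fun n => (h1 n).trans (h3 n).symm) ?_ hz
    rintro _ ⟨f, rfl⟩
    exact (h2 f).trans (h4 f).symm
  -- traces
  let tr : Ω → Ω := fun w => ∑ s, σs s w
  have htrT : ∀ w ∈ W, tr w ∈ T := by
    intro w hw
    rw [hT, mem_fixedField_iff]
    rintro σ ⟨t, h1, h2⟩
    change σ (∑ s, σs s w) = ∑ s, σs s w
    rw [map_sum, ← Equiv.sum_comp (Equiv.mulLeft t) (fun s => σs s w)]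
    refine Finset.sum_congr rfl fun s _ => ?_
    have h3 := huniq (σ * σs s) (σs (t * s)) (t * s) (t * s) rfl
      (fun n => by rw [AlgEquiv.mul_apply, hσN, h1, AlgEquiv.mul_apply])
      (fun f => by rw [AlgEquiv.mul_apply, hσF, h2, map_mul, mul_smul])
      (hσN _) (hσF _) w (hWF w hw)
    exact h3
  have htrW : ∀ w ∈ W, tr w ∈ W := fun w hw => W.sum_mem fun s _ => hDW _ (hσD s) w hw
  obtain ⟨c, hc⟩ := exists_dual k N
  have hrec : ∀ w ∈ W, (c.sum fun l a => a • tr (l • w)) = w := by
    intro w hw
    have h1 : ∀ l a : N, a • tr (l • w) = ∑ s, (algebraMap N Ω (a * s l)) * σs s w := by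
      intro l a
      change a • (∑ s, σs s (l • w)) = _
      rw [Finset.smul_sum]
      refine Finset.sum_congr rfl fun s _ => ?_
      rw [Algebra.smul_def, Algebra.smul_def, map_mul, hσN, map_mul, mul_assoc]
    rw [Finsupp.sum]
    simp only [h1]
    rw [Finset.sum_comm]
    have h2 : ∀ s : N ≃ₐ[k] N, ∑ l ∈ c.support, algebraMap N Ω (c l * s l) * σs s w =
        algebraMap N Ω (if s = 1 then 1 else 0) * σs s w := by
      intro s
      rw [← Finset.sum_mul, ← map_sum]
      congr 2
      exact hc s
    simp only [h2]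
    rw [Finset.sum_eq_single (1 : N ≃ₐ[k] N)]
    · rw [if_pos rfl, map_one, one_mul]
      exact huniq (σs 1) 1 1 1 rfl (hσN 1) (hσF 1) (fun n => rfl)
        (fun f => by rw [map_one, one_smul]; rfl) w (hWF w hw)
    · intro s _ hs
      rw [if_neg hs, map_zero, zero_mul]
    · intro h
      exact absurd (Finset.mem_univ _) h
  -- a basis of fixed vectors
  let S : Set Ω := {w | w ∈ W ∧ w ∈ T}
  obtain ⟨b, hbS, hbspan, hbind⟩ := exists_linearIndependent N S
  have hSW : Submodule.span N S = W := by
    apply le_antisymm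
    · rw [Submodule.span_le]
      exact fun w hw => hw.1
    · intro w hw
      rw [← hrec w hw, Finsupp.sum]
      refine Submodule.sum_mem _ fun l _ => Submodule.smul_mem _ _ (Submodule.subset_span ?_)
      exact ⟨htrW _ (W.smul_mem _ hw), htrT _ (W.smul_mem _ hw)⟩
  have hbW : Submodule.span N b = W := hbspan.trans hSW
  have hcard : Cardinal.mk b ≤ Cardinal.mk ι := by
    rw [← rank_span_set hbind, hbW]
    refine (rank_span_le XX).trans ?_
    exact Cardinal.mk_range_le
  have hbfin : Finite b := by
    rw [← Cardinal.lt_aleph0_iff_finite]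
    exact hcard.trans_lt (Cardinal.lt_aleph0_iff_finite.mpr inferInstance)
  -- `F` is contained in `N(b)`
  have hFb : ∀ f : F, algebraMap F Ω f ∈ adjoin N b := by
    intro f
    have h1 : f ∈ adjoin L (Set.range x) := by rw [hxt]; trivial
    induction h1 using IntermediateField.adjoin_induction with
    | mem y hy =>
      obtain ⟨i, rfl⟩ := hy
      have h2 : algebraMap F Ω (x i) ∈ Submodule.span N b := by
        rw [hbW]
        exact Submodule.subset_span ⟨i, rfl⟩
      have h3 : Submodule.span N b ≤ Subalgebra.toSubmodule (adjoin N b).toSubalgebra :=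
        Submodule.span_le.mpr (subset_adjoin N b)
      exact h3 h2
    | algebraMap l =>
      rw [← IsScalarTower.algebraMap_apply L F Ω, IsScalarTower.algebraMap_apply L N Ω]
      exact IntermediateField.algebraMap_mem _ _
    | add u v _ _ hu hv => rw [map_add]; exact add_mem hu hv
    | inv u _ hu => rw [map_inv₀]; exact inv_mem hu
    | mul u v _ _ hu hv => rw [map_mul]; exact mul_mem hu hv
  have hFFb : adjoin N FF ≤ adjoin N b := by
    rw [adjoin_le_iff]
    rintro _ ⟨f, rfl⟩
    exact hFb f
  -- algebraicity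
  have hNalg : ∀ (S : Set Ω) (n : N), algebraMap N Ω n ∈ AC k S := by
    intro S n
    rw [mem_AC]
    have h1 : IsAlgebraic k (algebraMap N Ω n) :=
      (Algebra.IsAlgebraic.isAlgebraic (R := k) n).algebraMap
    exact h1.extendScalars (algebraMap k _).injective
  have hFalg0 : ∀ w ∈ adjoin N b, w ∈ AC k b := by
    intro w h1
    induction h1 using IntermediateField.adjoin_induction with
    | mem y hy => exact subset_AC b hy
    | algebraMap n => exact hNalg b n
    | add u v _ _ hu hv => exact add_mem hu hv
    | inv u _ hu => exact inv_mem hu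
    | mul u v _ _ hu hv => exact mul_mem hu hv
  have hFalg : ∀ f : F, algebraMap F Ω f ∈ AC k b := fun f => hFalg0 _ (hFb f)
  have hcN : CharZero N := charZero_of_injective_algebraMap (algebraMap k N).injective
  have hACtop : AC k b = ⊤ := by
    rw [eq_top_iff]
    rintro z -
    apply AC_closed
    obtain ⟨p, hp0, hp⟩ := Algebra.IsAlgebraic.isAlgebraic (R := F) z
    let j : F →+* AC k b := (algebraMap F Ω).codRestrict (AC k b) hFalg
    refine ⟨p.map j, ?_, ?_⟩
    · rwa [Ne, Polynomial.map_eq_zero]
    · rw [Polynomial.aeval_def, Polynomial.eval₂_map]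
      exact hp
  have hTb : T = adjoin k b := by
    apply le_antisymm
    · intro z hz
      have hcT : CharZero (adjoin k b) :=
        charZero_of_injective_algebraMap (algebraMap k (adjoin k b)).injective
      have halgT : Algebra.IsAlgebraic (adjoin k b) Ω := by
        constructor
        intro c
        have : c ∈ AC k b := by rw [hACtop]; trivial
        exact mem_AC.mp this
      have hic : IsAlgClosure (adjoin k b) Ω := ⟨inferInstance, inferInstance⟩
      have hgalT : IsGalois (adjoin k b) Ω := IsAlgClosure.isGalois _ _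
      -- `z` is in the compositum
      have hzN : z ∈ adjoin N FF := by
        have hc1 : CharZero (adjoin N FF) :=
          charZero_of_injective_algebraMap (algebraMap N (adjoin N FF)).injective
        have halg1 : Algebra.IsAlgebraic (adjoin N FF) Ω := by
          constructor
          intro c
          obtain ⟨p, hp0, hp⟩ := Algebra.IsAlgebraic.isAlgebraic (R := F) c
          let j : F →+* adjoin N FF := (algebraMap F Ω).codRestrict (adjoin N FF)
            (fun f => subset_adjoin N FF ⟨f, rfl⟩)
          refine ⟨p.map j, ?_, ?_⟩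
          · rwa [Ne, Polynomial.map_eq_zero]
          · rw [Polynomial.aeval_def, Polynomial.eval₂_map]
            exact hp
        have hic1 : IsAlgClosure (adjoin N FF) Ω := ⟨inferInstance, inferInstance⟩
        have hgal1 : IsGalois (adjoin N FF) Ω := IsAlgClosure.isGalois _ _
        have h2 : z ∈ Set.range (algebraMap (adjoin N FF) Ω) := by
          rw [InfiniteGalois.mem_range_algebraMap_iff_fixed]
          intro τ
          let τ₁ : Ω ≃ₐ[k] Ω := AlgEquiv.ofRingEquiv (f := τ.toRingEquiv) fun c => by
            have h3 := τ.commutes (algebraMap N (adjoin N FF) (algebraMap k N c))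
            rw [IsScalarTower.algebraMap_apply k N Ω]
            exact h3
          have h3 : τ₁ ∈ DD (F := F) (Ω := Ω) k γ := by
            refine ⟨1, fun n => ?_, fun f => ?_⟩
            · exact τ.commutes (algebraMap N (adjoin N FF) n)
            · rw [map_one, one_smul]
              exact τ.commutes (⟨algebraMap F Ω f, subset_adjoin N FF ⟨f, rfl⟩⟩ : adjoin N FF)
          exact (mem_fixedField_iff _ _).1 hz τ₁ h3
        obtain ⟨w, rfl⟩ := h2
        exact w.2
      have h2 : z ∈ Set.range (algebraMap (adjoin k b) Ω) := by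
        rw [InfiniteGalois.mem_range_algebraMap_iff_fixed]
        intro τ
        let τ₁ : Ω ≃ₐ[k] Ω := τ.restrictScalars k
        let s : N ≃ₐ[k] N := τ₁.restrictNormal N
        have hs : ∀ n : N, τ₁ (algebraMap N Ω n) = algebraMap N Ω (s n) := fun n =>
          (AlgEquiv.restrictNormal_commutes τ₁ N n).symm
        have h3 : τ₁ z = σs s z := by
          refine agree (N := N) (S := b) (fun n => (hs n).trans (hσN s n).symm) ?_ (hFFb hzN)
          intro y hy
          have h4 : τ₁ y = y := τ.commutes (⟨y, subset_adjoin k b hy⟩ : adjoin k b)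
          rw [h4]
          exact ((mem_fixedField_iff _ _).1 (hbS hy).2 (σs s) (hσD s)).symm
        exact h3.trans ((mem_fixedField_iff _ _).1 hz (σs s) (hσD s))
      obtain ⟨w, rfl⟩ := h2
      exact w.2
    · rw [adjoin_le_iff]
      exact fun y hy => (hbS hy).2
  refine ⟨b, hbfin, fun y => (y : Ω), ?_, ?_⟩
  · have hxΩ : AlgebraicIndependent k (fun i => algebraMap F Ω (x i)) :=
      hx.map' (f := IsScalarTower.toAlgHom k F Ω) (algebraMap F Ω).injective
    have h1 : Algebra.IsAlgebraic (adjoin k (Set.range fun y : b => (y : Ω))) Ω := by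
      rw [Subtype.range_coe]
      constructor
      intro c
      have : c ∈ AC k b := by rw [hACtop]; trivial
      exact mem_AC.mp this
    have h2 : Algebra.IsAlgebraic (Algebra.adjoin k (Set.range fun y : b => (y : Ω))) Ω :=
      (IsFractionRing.comap_isAlgebraic_iff (A := Algebra.adjoin k (Set.range fun y : b => (y : Ω)))
        (K := adjoin k (Set.range fun y : b => (y : Ω))) (C := Ω)).mpr h1
    refine (Algebra.IsAlgebraic.isTranscendenceBasis_of_le_trdeg_of_finite k
      (fun y : b => (y : Ω)) ?_).1
    exact hcard.trans hxΩ.cardinalMk_le_trdeg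
  · rw [Subtype.range_coe, hTb]

end

end Pool.Agent.Zk31.QB
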