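import Pool.Agent.Zk31.QC
import Pool.Agent.N75.EP.Pul
import Pool.Agent.TH59.WX.UF
import Pool.Agent.N600.UK.Defs

/-! Disjoint proper solutions from the solutions of the pulled back problems. -/

set_option autoImplicit false
set_option linter.unusedSectionVars false

namespace Pool.Agent.Zk31.QD

open IntermediateField
open Pool.Agent.H391R2.T4 (exists_equiv_of_ker RegSol HilbField)
open Pool.Agent.TH377.IG (FP prFP)
open Pool.Agent.N600.UK (ProperSol)
open Pool.Agent.Zk31.QC (Sols)

/-- All pull-backs of the embedding problem have proper solutions. -/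
def FPSols (k L B : Type) [Field k] [Field L] [Algebra k L] [Normal k L] [Group B]
    (α : B →* (L ≃ₐ[k] L)) : Prop :=
  ∀ (E : Type) [Field E] [Algebra k E] [Algebra L E] [IsScalarTower k L E] [FiniteDimensional k E]
    [IsGalois k E], ProperSol k E (FP α (AlgEquiv.restrictNormalHom (F := k) (K₁ := E) L))
      (prFP α (AlgEquiv.restrictNormalHom (F := k) (K₁ := E) L))

theorem fpsols_of_reg (k L B : Type) [Field k] [Field L] [Algebra k L] [FiniteDimensional k L]
    [IsGalois k L] [Group B] [Finite B] (α : B →* (L ≃ₐ[k] L)) (hK : HilbField k)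
    (h : RegSol k L B α) : FPSols k L B α := by
  intro E _ _ _ _ _ _
  exact Pool.Agent.TH59.WX.hil_of_reg k E _ hK _
    (Pool.Agent.N75.EP.base_change_reg k L B α h E)

/-- The solution field in the algebraic closure cut out by a homomorphism. -/
theorem exists_N (k L B : Type) [Field k] [CharZero k] [Field L] [Algebra k L]
    [FiniteDimensional k L] [IsGalois k L] [Group B] [Finite B] (α : B →* (L ≃ₐ[k] L))
    (F' : Type) [Field F'] [Algebra k F'] [Algebra L F'] [IsScalarTower k L F']
    [FiniteDimensional k F'] [IsGalois k F'] (ρ : (F' ≃ₐ[k] F') →* B)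
    (hρ : Function.Surjective ρ)
    (hρL : ∀ (σ : F' ≃ₐ[k] F') (l : L), σ (algebraMap L F' l) = algebraMap L F' (α (ρ σ) l))
    (iL : F' →ₐ[L] AlgebraicClosure L) :
    ∃ N : IntermediateField L (AlgebraicClosure L), FiniteDimensional k N ∧ IsGalois k N ∧
      (∀ z ∈ N, ∃ w : F', (∀ σ ∈ ρ.ker, σ w = w) ∧ iL w = z) ∧ ∃ γ : (N ≃ₐ[k] N) ≃* B,
        ∀ (σ : N ≃ₐ[k] N) (l : L), σ (algebraMap L N l) = algebraMap L N (α (γ σ) l) := by
  let N₀ : IntermediateField k F' := fixedField ρ.ker
  have hgalN₀ : IsGalois k N₀ := IsGalois.of_fixedField_normal_subgroup ρ.ker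
  have hLN₀ : ∀ l : L, algebraMap L F' l ∈ N₀ := by
    intro l
    rw [mem_fixedField_iff]
    intro σ hσ
    rw [hρL, show ρ σ = 1 from hσ, map_one]
    rfl
  have hker : (AlgEquiv.restrictNormalHom (F := k) (K₁ := F') N₀).ker = ρ.ker := by
    ext σ
    rw [MonoidHom.mem_ker]
    constructor
    · intro h
      have h1 : σ ∈ N₀.fixingSubgroup := by
        rw [IntermediateField.mem_fixingSubgroup_iff]
        intro x hx
        have h2 := AlgEquiv.restrictNormal_commutes σ N₀ (⟨x, hx⟩ : N₀)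
        have h3 : σ.restrictNormal N₀ = 1 := h
        rw [h3] at h2
        exact h2.symm
      rw [IntermediateField.fixingSubgroup_fixedField] at h1
      exact h1
    · intro h
      apply AlgEquiv.ext
      intro x
      apply Subtype.ext
      have h1 := AlgEquiv.restrictNormal_commutes σ N₀ x
      exact h1.trans (x.2 ⟨σ, h⟩)
  obtain ⟨ε₀, hε₀⟩ := exists_equiv_of_ker
    (AlgEquiv.restrictNormalHom (F := k) (K₁ := F') N₀) ρ
    (AlgEquiv.restrictNormalHom_surjective F') hρ hker
  -- the image in the algebraic closure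
  let N₁ : IntermediateField L F' :=
    { N₀.toSubfield with
      algebraMap_mem' := hLN₀ }
  let N : IntermediateField L (AlgebraicClosure L) := N₁.map iL
  let e₁ : N₁ ≃ₐ[L] N := IntermediateField.equivMap N₁ iL
  have he₁ : ∀ w : N₁, ((e₁ w : N) : AlgebraicClosure L) = iL w := fun w => rfl
  let e : N₀ ≃ₐ[k] N := AlgEquiv.ofRingEquiv (f := (e₁ : N₁ ≃+* N)) fun c => by
    apply Subtype.ext
    change iL (algebraMap k F' c) = algebraMap k (AlgebraicClosure L) c
    rw [IsScalarTower.algebraMap_apply k L F', AlgHom.commutes,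
      ← IsScalarTower.algebraMap_apply k L (AlgebraicClosure L)]
  have he : ∀ w : N₀, ((e w : N) : AlgebraicClosure L) = iL w := fun w => rfl
  have heL : ∀ l : L, e ⟨algebraMap L F' l, hLN₀ l⟩ = algebraMap L N l := by
    intro l
    apply Subtype.ext
    rw [he]
    exact iL.commutes l
  have hfin : FiniteDimensional k N := e.toLinearEquiv.finiteDimensional
  have hgalN : IsGalois k N := IsGalois.of_algEquiv e
  refine ⟨N, hfin, hgalN, ?_, (AlgEquiv.autCongr e.symm).trans ε₀, ?_⟩
  · rintro z ⟨w, hw, rfl⟩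
    exact ⟨w, (mem_fixedField_iff _ _).1 hw, rfl⟩
  · intro σ l
    obtain ⟨τ, hτ⟩ := (AlgEquiv.restrictNormalHom_surjective (F := k) (K₁ := N₀) F')
      (AlgEquiv.autCongr e.symm σ)
    have h1 : ((AlgEquiv.autCongr e.symm).trans ε₀) σ = ρ τ := by
      rw [MulEquiv.trans_apply, ← hτ, hε₀]
    rw [h1]
    have h2 : e.symm (σ (e ⟨algebraMap L F' l, hLN₀ l⟩)) =
        ⟨algebraMap L F' (α (ρ τ) l), hLN₀ _⟩ := by
      have h3 : e.symm (σ (e ⟨algebraMap L F' l, hLN₀ l⟩)) =
        (AlgEquiv.autCongr e.symm σ) ⟨algebraMap L F' l, hLN₀ l⟩ := rfl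
      rw [h3, ← hτ]
      apply Subtype.ext
      have h4 := AlgEquiv.restrictNormal_commutes τ N₀ ⟨algebraMap L F' l, hLN₀ l⟩
      refine h4.trans ?_
      exact hρL τ l
    rw [← heL, ← heL, ← h2, e.apply_symm_apply]

theorem sols_of_fpsols (k L B : Type) [Field k] [CharZero k] [Field L] [Algebra k L]
    [FiniteDimensional k L] [IsGalois k L] [Group B] [Finite B] (α : B →* (L ≃ₐ[k] L))
    (h : FPSols k L B α) : Sols k L B α := by
  classical
  intro E hE
  let Ak := AlgebraicClosure L
  have hEk : FiniteDimensional k E := FiniteDimensional.trans k L E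
  have hic : IsAlgClosure k Ak := ⟨inferInstance, Algebra.IsAlgebraic.trans k L Ak⟩
  have hnk : Normal k Ak := IsAlgClosure.normal k Ak
  have htE : IsScalarTower k E Ak := inferInstance
  let E' : IntermediateField k Ak := IntermediateField.normalClosure k E Ak
  have hEE' : ∀ z : Ak, z ∈ E → z ∈ E' := fun z hz =>
    (AlgHom.fieldRange_le_normalClosure (IsScalarTower.toAlgHom k E Ak)) ⟨⟨z, hz⟩, rfl⟩
  have hLE' : ∀ l : L, algebraMap L Ak l ∈ E' := fun l =>
    hEE' _ (IntermediateField.algebraMap_mem E l)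
  let _ : Algebra L E' := ((algebraMap L Ak).codRestrict E' hLE').toAlgebra
  have hLE'map : ∀ l : L, ((algebraMap L E' l : E') : Ak) = algebraMap L Ak l := fun l => rfl
  have hfE' : FiniteDimensional k E' := normalClosure.is_finiteDimensional k E Ak
  have hnE' : Normal k E' := normalClosure.normal k E Ak
  have hgE' : IsGalois k E' := ⟨⟩
  have htow : IsScalarTower k L E' := IsScalarTower.of_algebraMap_eq fun x => by
    apply Subtype.ext
    rw [hLE'map, ← IsScalarTower.algebraMap_apply k L Ak]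
    rfl
  have htowL : IsScalarTower L E' Ak := IsScalarTower.of_algebraMap_eq fun x => rfl
  obtain ⟨F', i1, i2, i3, i4, i5, i6, γ, hγ⟩ := h E'
  let _ : Algebra L F' := ((algebraMap E' F').comp (algebraMap L E')).toAlgebra
  have t1 : IsScalarTower L E' F' := IsScalarTower.of_algebraMap_eq fun x => rfl
  have t2 : IsScalarTower k L F' := IsScalarTower.of_algebraMap_eq fun x => by
    rw [IsScalarTower.algebraMap_apply k E' F', IsScalarTower.algebraMap_apply L E' F',
      ← IsScalarTower.algebraMap_apply k L E']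
  have hE'F' : FiniteDimensional E' F' := Module.Finite.of_restrictScalars_finite k E' F'
  let i : F' →ₐ[E'] Ak := IsAlgClosed.lift
  let iL : F' →ₐ[L] Ak := i.restrictScalars L
  let r := AlgEquiv.restrictNormalHom (F := k) (K₁ := E') L
  let ρ : (F' ≃ₐ[k] F') →* B :=
    ((MonoidHom.fst B (E' ≃ₐ[k] E')).comp (FP α r).subtype).comp γ.toMonoidHom
  have hr : Function.Surjective r := AlgEquiv.restrictNormalHom_surjective E'
  have hρ : Function.Surjective ρ := by
    intro b
    obtain ⟨τ, hτ⟩ := hr (α b)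
    refine ⟨γ.symm ⟨(b, τ), hτ.symm⟩, ?_⟩
    change (γ (γ.symm _)).1.1 = b
    rw [γ.apply_symm_apply]
  -- action on `L`
  have hρL : ∀ (σ : F' ≃ₐ[k] F') (l : L), σ (algebraMap L F' l) = algebraMap L F' (α (ρ σ) l) := by
    intro σ l
    have h1 : α (ρ σ) = r (γ σ).1.2 := (γ σ).2
    have h2 : (γ σ).1.2 = σ.restrictNormal E' := hγ σ
    rw [h1, h2]
    have h3 := AlgEquiv.restrictNormal_commutes σ E' (algebraMap L E' l)
    have h4 := AlgEquiv.restrictNormal_commutes (σ.restrictNormal E') L l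
    rw [← h4] at h3
    exact h3.symm
  obtain ⟨N, hN1, hN2, hN3, γN, hγN⟩ := exists_N k L B α F' ρ hρ hρL iL
  refine ⟨N, ?_, hN1, hN2, γN, hγN⟩
  rw [eq_bot_iff]
  rintro z ⟨hz, hzE⟩
  obtain ⟨w, hwN, rfl⟩ := hN3 z hz
  have hzE' : iL w ∈ E' := hEE' _ hzE
  have hwe : w = algebraMap E' F' ⟨iL w, hzE'⟩ := by
    apply i.injective
    exact (i.commutes ⟨iL w, hzE'⟩).symm
  have hgL : IsGalois L F' := IsGalois.tower_top_of_isGalois k L F'
  have hwL : w ∈ Set.range (algebraMap L F') := by
    rw [InfiniteGalois.mem_range_algebraMap_iff_fixed]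
    intro σ
    let σk : F' ≃ₐ[k] F' := σ.restrictScalars k
    have hσL : α (ρ σk) = 1 := by
      apply AlgEquiv.ext
      intro l
      apply (algebraMap L F').injective
      rw [← hρL]
      exact σ.commutes l
    let σ₁ : F' ≃ₐ[k] F' := γ.symm ⟨(ρ σk, 1), by
      change α (ρ σk) = r 1
      rw [hσL, map_one]⟩
    have hσ₁ : σ₁ w = w := by
      rw [hwe]
      have h1 := AlgEquiv.restrictNormal_commutes σ₁ E' ⟨iL w, hzE'⟩
      have h2 : σ₁.restrictNormal E' = 1 := by
        rw [← hγ]
        change (γ (γ.symm _)).1.2 = 1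
        rw [γ.apply_symm_apply]
      rw [h2] at h1
      exact h1.symm
    have hσ₂ : σk * σ₁⁻¹ ∈ ρ.ker := by
      have h1 : ρ σ₁ = ρ σk := by
        change (γ (γ.symm _)).1.1 = ρ σk
        rw [γ.apply_symm_apply]
      rw [MonoidHom.mem_ker, map_mul, map_inv, h1, mul_inv_cancel]
    have h3 := hwN _ hσ₂
    have h4 : σ₁⁻¹ w = w := by
      apply σ₁.injective
      rw [← AlgEquiv.mul_apply, mul_inv_cancel, AlgEquiv.one_apply, hσ₁]
    rw [AlgEquiv.mul_apply, h4] at h3
    exact h3
  obtain ⟨l, rfl⟩ := hwL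
  rw [IntermediateField.mem_bot]
  exact ⟨l, (iL.commutes l).symm⟩

end Pool.Agent.Zk31.QD
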