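import Pool.Agent.W253.HP.Sch

/-! The Hilbert property of an affine scheme in terms of rings. -/

set_option autoImplicit false
set_option linter.unusedSectionVars false

namespace Pool.Agent.Zk31.QE

open AlgebraicGeometry CategoryTheory W560.HP

/-- The structure morphism of the spectrum of a `k`-algebra. -/
noncomputable def strMap (k A : Type) [Field k] [CommRing A] [Algebra k A] :
    Spec (CommRingCat.of A) ⟶ Spec (CommRingCat.of k) :=
  Spec.map (CommRingCat.ofHom (algebraMap k A))

theorem not_surj {A C : Type} [CommRing A] [IsDomain A] [CommRing C] [IsDomain C] [Algebra A C]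
    [FaithfulSMul A C] [Algebra.IsIntegral A C]
    (hsurj : Surjective (Spec.map (CommRingCat.ofHom (algebraMap A C))))
    (hdeg : ∃ c : C, ∀ a b : A, b ≠ 0 → algebraMap A C b * c ≠ algebraMap A C a) :
    ¬ Function.Surjective ((Spec.map (CommRingCat.ofHom (algebraMap A C))).stalkMap
      (genericPoint (Spec (CommRingCat.of C)))).hom := by
  intro h
  obtain ⟨c, hc⟩ := hdeg
  let X : Scheme.{0} := Spec (CommRingCat.of A)
  let Y : Scheme.{0} := Spec (CommRingCat.of C)
  let π : Y ⟶ X := Spec.map (CommRingCat.ofHom (algebraMap A C))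
  have hπ : Surjective π := hsurj
  let eX := Scheme.ΓSpecIso (CommRingCat.of A)
  let eY := Scheme.ΓSpecIso (CommRingCat.of C)
  have hnat : ∀ a : A, π.appTop.hom (eX.inv.hom a) = eY.inv.hom (algebraMap A C a) := by
    intro a
    have h1 := Scheme.ΓSpecIso_inv_naturality (CommRingCat.ofHom (algebraMap A C))
    exact (congrArg (fun g => g.hom a) h1).symm
  have heX : ∀ y, ∃ a : A, eX.inv.hom a = y := by
    intro y
    refine ⟨eX.hom.hom y, ?_⟩
    have h1 := eX.hom_inv_id
    exact congrArg (fun g => g.hom y) h1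
  have heYi : Function.Injective eY.inv.hom := by
    intro a b hab
    have h1 := eY.inv_hom_id
    have h2 := congrArg (fun g => g.hom a) h1
    have h3 := congrArg (fun g => g.hom b) h1
    have h4 : eY.hom.hom (eY.inv.hom a) = a := h2
    have h5 : eY.hom.hom (eY.inv.hom b) = b := h3
    rw [← h4, ← h5, hab]
  have hx := Pool.Agent.W253.HP.generic_map π
  obtain ⟨hX1, hX2⟩ := Pool.Agent.W253.HP.stalk_frac X ⊤ (isAffineOpen_top X)
    (π (genericPoint Y)) hx trivial
  have hg : ∀ a : Γ(X, ⊤), (π.stalkMap (genericPoint Y)).hom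
      (X.presheaf.germ ⊤ (π (genericPoint Y)) trivial a) =
      Y.presheaf.germ ⊤ (genericPoint Y) trivial (π.appTop.hom a) := fun a =>
    Scheme.Hom.germ_stalkMap_apply π ⊤ (genericPoint Y) trivial a
  obtain ⟨r, hr⟩ := h (Y.presheaf.germ ⊤ (genericPoint Y) trivial (eY.inv.hom c))
  obtain ⟨a, d, hd, h1⟩ := hX2 r
  obtain ⟨a, rfl⟩ := heX a
  obtain ⟨d, rfl⟩ := heX d
  have hd0 : d ≠ 0 := by
    rintro rfl
    exact hd (map_zero _)
  apply hc a d hd0
  apply heYi
  have hinj : Function.Injective (Y.presheaf.germ ⊤ (genericPoint Y) trivial) :=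
    germ_injective_of_isIntegral Y (U := ⊤) (genericPoint Y) trivial
  apply hinj
  have h2 := congrArg (π.stalkMap (genericPoint Y)).hom h1
  rw [map_mul, hg, hg, hnat, hnat] at h2
  have h3 : (π.stalkMap (genericPoint Y)).hom r =
    Y.presheaf.germ ⊤ (genericPoint Y) trivial (eY.inv.hom c) := hr
  rw [h3] at h2
  rw [map_mul, mul_comm, ← h2, map_mul]

/-- The Hilbert property of `Spec A`, for finitely many finite `A`-algebras. -/
theorem hp_affine (k A : Type) [Field k] [CommRing A] [IsDomain A] [Algebra k A]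
    (h : HilbertProperty k (Spec (CommRingCat.of A)) (strMap k A))
    (q : ℕ) (C : Fin q → Type) [∀ i, CommRing (C i)] [∀ i, IsDomain (C i)]
    [∀ i, Algebra A (C i)] [∀ i, Module.Finite A (C i)] [∀ i, FaithfulSMul A (C i)]
    (hdeg : ∀ i, ∃ c : C i, ∀ a b : A, b ≠ 0 →
      algebraMap A (C i) b * c ≠ algebraMap A (C i) a)
    (D : A) (hD : D ≠ 0) :
    ∃ φ : A →ₐ[k] k, φ D ≠ 0 ∧ ∀ i, ¬ ∃ ψ : C i →+* k, ∀ a, ψ (algebraMap A (C i) a) = φ a := by
  let X : Scheme.{0} := Spec (CommRingCat.of A)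
  let Y : Fin q → Scheme.{0} := fun i => Spec (CommRingCat.of (C i))
  let π : ∀ i, Y i ⟶ X := fun i => Spec.map (CommRingCat.ofHom (algebraMap A (C i)))
  have hfin : ∀ i, IsFinite (π i) := fun i => by
    rw [IsFinite.SpecMap_iff]
    change (algebraMap A (C i)).Finite
    rw [RingHom.finite_algebraMap]
    infer_instance
  have hint : ∀ i, Algebra.IsIntegral A (C i) := fun i => inferInstance
  have hsurj : ∀ i, Surjective (π i) := fun i =>
    ⟨Algebra.IsIntegral.comap_surjective (R := A) (S := C i)⟩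
  have hdense := h q Y π (fun i => inferInstance) hfin hsurj
    (fun i => not_surj (hsurj i) (hdeg i))
  rw [dense_iff_inter_open] at hdense
  obtain ⟨x, hxU, s, hs, hxs, hns⟩ := hdense
    {x : X | D ∉ PrimeSpectrum.asIdeal (x : PrimeSpectrum A)}
    (PrimeSpectrum.basicOpen D).isOpen ⟨(⊥ : PrimeSpectrum A), by
      change D ∉ (⊥ : Ideal A)
      simpa using hD⟩
  let φ₀ : A →+* k := (Spec.preimage s).hom
  have hs₀ : Spec.map (CommRingCat.ofHom φ₀) = s := Spec.map_preimage s
  have hφ₀ : φ₀.comp (algebraMap k A) = RingHom.id k := by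
    have h1 : Spec.map (CommRingCat.ofHom (φ₀.comp (algebraMap k A))) =
        Spec.map (CommRingCat.ofHom (RingHom.id k)) := by
      rw [CommRingCat.ofHom_comp, Spec.map_comp, hs₀]
      refine hs.trans ?_
      rw [CommRingCat.ofHom_id, Spec.map_id]
    have h2 := Spec.map_injective h1
    exact congrArg CommRingCat.Hom.hom h2
  let φ : A →ₐ[k] k :=
    { φ₀ with
      commutes' := fun c => congrArg (fun g : k →+* k => g c) hφ₀ }
  refine ⟨φ, ?_, ?_⟩
  · intro h0
    apply hxU
    obtain ⟨y, hy⟩ := hxs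
    rw [← hy, ← hs₀]
    change φ₀ D ∈ PrimeSpectrum.asIdeal (y : PrimeSpectrum k)
    have h1 : φ₀ D = 0 := h0
    rw [h1]
    exact Ideal.zero_mem _
  · rintro i ⟨ψ, hψ⟩
    apply hns i (Spec.map (CommRingCat.ofHom ψ))
    rw [← hs₀]
    change Spec.map (CommRingCat.ofHom ψ) ≫ Spec.map (CommRingCat.ofHom (algebraMap A (C i))) = _
    rw [← Spec.map_comp, ← CommRingCat.ofHom_comp]
    congr 2
    apply RingHom.ext
    exact hψ

end Pool.Agent.Zk31.QE
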