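import Pool.Agent.Zk31.QE

/-! Specialisation of a Galois covering `Spec C → Spec A` at a rational point which comes from the
Hilbert property of `Spec A`. -/

set_option autoImplicit false
set_option linter.unusedSectionVars false

namespace Pool.Agent.Zk31.QF

open Polynomial
open scoped Pointwise
open Pool.Agent.Zk31.QE

variable {k A C G : Type} [Field k] [CharZero k] [CommRing A] [CommRing C] [Algebra A C]
  [Algebra k A] [Algebra k C] [IsScalarTower k A C] [IsDomain A]
  [IsDomain C] [FaithfulSMul A C] [Group G] [Finite G] [MulSemiringAction G C]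
  [Algebra.IsInvariant A C G] [SMulCommClass G A C] [FaithfulSMul G C]

include k A in
theorem exists_moved (Δ : Subgroup G) (hΔ : Δ ≠ ⊤) :
    ∃ θ : C, (∀ g ∈ Δ, g • θ = θ) ∧ ∃ g : G, g • θ ≠ θ := by
  classical
  cases nonempty_fintype G
  by_contra hcon
  push Not at hcon
  apply hΔ
  rw [eq_top_iff]
  rintro g -
  have hroot : ∀ x : C, ∃ h : Δ, g • x = (h : G) • x := by
    intro x
    have h2 : g • (MulSemiringAction.charpoly Δ x) = MulSemiringAction.charpoly Δ x := by
      ext n
      rw [coeff_smul]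
      refine hcon _ (fun h hh => ?_) g
      exact MulSemiringAction.smul_coeff_charpoly (G := Δ) x n ⟨h, hh⟩
    have h3 : (g • (MulSemiringAction.charpoly Δ x)).eval (g • x) = 0 := by
      rw [smul_eval_smul, MulSemiringAction.eval_charpoly, smul_zero]
    rw [h2, MulSemiringAction.charpoly_eq, eval_prod, Finset.prod_eq_zero_iff] at h3
    obtain ⟨h, -, hh⟩ := h3
    rw [eval_sub, eval_X, eval_C, sub_eq_zero] at hh
    exact ⟨h, hh⟩
  let T : G → (C →ₗ[k] C) := fun g =>
    { toFun := fun c => g • c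
      map_add' := fun a b => smul_add g a b
      map_smul' := fun r c => by
        rw [RingHom.id_apply, ← IsScalarTower.algebraMap_smul A r c, smul_comm,
          IsScalarTower.algebraMap_smul] }
  have hcov : ⋃ h : Δ, ((LinearMap.ker (T g - T h) : Submodule k C) : Set C) = Set.univ := by
    rw [Set.eq_univ_iff_forall]
    intro x
    obtain ⟨h, hh⟩ := hroot x
    rw [Set.mem_iUnion]
    refine ⟨h, ?_⟩
    change (T g - T h) x = 0
    rw [LinearMap.sub_apply, sub_eq_zero]
    exact hh
  obtain ⟨h, hh⟩ := Subspace.exists_eq_top_of_iUnion_eq_univ hcov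
  have hgh : g = h := by
    apply FaithfulSMul.eq_of_smul_eq_smul (α := C)
    intro x
    have h1 : x ∈ LinearMap.ker (T g - T h) := by rw [hh]; trivial
    rw [LinearMap.mem_ker, LinearMap.sub_apply, sub_eq_zero] at h1
    exact h1
  rw [hgh]
  exact h.2

theorem exists_spec (h : W560.HP.HilbertProperty k (AlgebraicGeometry.Spec (CommRingCat.of A))
      (strMap k A)) :
    ∃ (Λ : Type) (_ : Field Λ) (_ : Algebra k Λ), FiniteDimensional k Λ ∧ IsGalois k Λ ∧
      ∃ (γ : G ≃* (Λ ≃ₐ[k] Λ)) (Φ : C →ₐ[k] Λ), ∀ (g : G) (c : C), γ g (Φ c) = Φ (g • c) := by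
  classical
  cases nonempty_fintype G
  have hinj : Function.Injective (algebraMap A C) := FaithfulSMul.algebraMap_injective A C
  have hintegral : Algebra.IsIntegral A C := Algebra.IsInvariant.isIntegral A C G
  have h1 : ∀ Δ : {Δ : Subgroup G // Δ ≠ ⊤}, ∃ θ : C, (∀ g ∈ Δ.1, g • θ = θ) ∧
      ∃ g : G, g • θ ≠ θ := fun Δ => exists_moved (k := k) (A := A) Δ.1 Δ.2
  choose θ hθ1 hθ2 using h1
  let _ : Fintype {Δ : Subgroup G // Δ ≠ ⊤} := Fintype.ofFinite _
  let q := Fintype.card {Δ : Subgroup G // Δ ≠ ⊤}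
  let ε : Fin q ≃ {Δ : Subgroup G // Δ ≠ ⊤} := (Fintype.equivFin _).symm
  -- the discriminant like element
  have h2 : ∀ g : G, ∃ x : C, g ≠ 1 → g • x - x ≠ 0 := by
    intro g
    by_cases hg : g = 1
    · exact ⟨0, fun h => absurd hg h⟩
    · by_contra hcon
      push Not at hcon
      apply hg
      apply FaithfulSMul.eq_of_smul_eq_smul (α := C)
      intro x
      rw [one_smul]
      exact sub_eq_zero.1 (hcon x).2
  choose x hx using h2
  let D' : C := ∏ g ∈ Finset.univ.erase (1 : G), (g • x g - x g)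
  have hD' : D' ≠ 0 := Finset.prod_ne_zero_iff.2 fun g hg => hx g (Finset.ne_of_mem_erase hg)
  have h3 : ∃ D : A, algebraMap A C D = ∏ h : G, h • D' := by
    apply Algebra.IsInvariant.isInvariant (G := G)
    intro g
    rw [Finset.smul_prod']
    simp only [smul_smul]
    exact Fintype.prod_bijective (fun h => g * h) (Group.mulLeft_bijective g) _ _ fun _ => rfl
  obtain ⟨D, hD⟩ := h3
  have hD0 : D ≠ 0 := by
    rintro rfl
    rw [map_zero] at hD
    have := Finset.prod_ne_zero_iff.2 (fun (h : G) (_ : h ∈ Finset.univ) =>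
      (smul_ne_zero_iff_ne h).2 hD')
    exact this hD.symm
  -- the covers
  let CC : Fin q → Subalgebra A C := fun i => Algebra.adjoin A {θ (ε i)}
  have hCCfix : ∀ (i : Fin q) (c : CC i) (g : G), g ∈ (ε i).1 → g • (c : C) = c := by
    rintro i ⟨c, hc⟩ g hg
    change g • c = c
    induction hc using Algebra.adjoin_induction with
    | mem y hy =>
      rw [Set.mem_singleton_iff.1 hy]
      exact hθ1 _ g hg
    | algebraMap a => exact smul_algebraMap g a
    | add y z _ _ hy hz => rw [smul_add, hy, hz]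
    | mul y z _ _ hy hz => rw [smul_mul', hy, hz]
  have hCCfin : ∀ i, Module.Finite A (CC i) := fun i => by
    have h4 : IsIntegral A (θ (ε i)) := Algebra.IsIntegral.isIntegral _
    exact ⟨(Submodule.fg_top _).2 h4.fg_adjoin_singleton⟩
  have hCCfaith : ∀ i, FaithfulSMul A (CC i) := fun i => by
    rw [faithfulSMul_iff_algebraMap_injective]
    intro a b hab
    apply hinj
    exact congrArg (Subtype.val) hab
  obtain ⟨φ, hφD, hφns⟩ := hp_affine k A h q (fun i => CC i) (by
    intro i
    refine ⟨⟨θ (ε i), Algebra.subset_adjoin rfl⟩, fun a b hb hab => ?_⟩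
    obtain ⟨g, hg⟩ := hθ2 (ε i)
    apply hg
    have h4 : algebraMap A C b * θ (ε i) = algebraMap A C a := congrArg Subtype.val hab
    have h5 : algebraMap A C b * (g • θ (ε i)) = algebraMap A C a := by
      have h6 := congrArg (fun z => g • z) h4
      simpa only [smul_mul', smul_algebraMap] using h6
    have hb' : algebraMap A C b ≠ 0 := by
      intro h7
      exact hb (hinj (by rw [h7, map_zero]))
    exact mul_left_cancel₀ hb' (h5.trans h4.symm)) D hD0
  have hφsurj : Function.Surjective φ := fun q => ⟨algebraMap k A q, φ.commutes q⟩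
  let P : Ideal A := RingHom.ker φ
  have hPmax : P.IsMaximal := RingHom.ker_isMaximal_of_surjective φ hφsurj
  obtain ⟨Q, hQmax, hQP⟩ := Ideal.exists_maximal_ideal_liesOver_of_isIntegral (S := C) P
  let _ : Field (A ⧸ P) := Ideal.Quotient.field P
  let _ : Field (C ⧸ Q) := Ideal.Quotient.field Q
  let e : k ≃+* A ⧸ P := (RingHom.quotientKerEquivOfSurjective (f := (φ : A →+* k)) hφsurj).symm
  have he : ∀ a : A, e (φ a) = Ideal.Quotient.mk P a := by
    intro a
    exact (RingEquiv.symm_apply_eq (RingHom.quotientKerEquivOfSurjective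
      (f := (φ : A →+* k)) hφsurj)).2 rfl
  have hchar : CharZero (A ⧸ P) := charZero_of_injective_ringHom (f := (e : k →+* A ⧸ P)) e.injective
  have hnormal : Normal (A ⧸ P) (C ⧸ Q) := Ideal.Quotient.normal G P Q
  have hgal : IsGalois (A ⧸ P) (C ⧸ Q) := { __ := hnormal }
  have hfd : Module.Finite (A ⧸ P) (C ⧸ Q) := Ideal.Quotient.finite_of_isInvariant G P Q
  have hsurj := Ideal.Quotient.stabilizerHom_surjective G P Q
  have hφunder : ∀ a : A, algebraMap A C a ∈ Q ↔ φ a = 0 := by
    intro a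
    have h4 : P = Q.under A := hQP.over
    rw [← AlgHom.coe_toRingHom, ← RingHom.mem_ker]
    change _ ↔ a ∈ P
    rw [h4]
    rfl
  -- the stabilizer is everything
  have hstab : MulAction.stabilizer G Q = ⊤ := by
    by_contra hne
    let i : Fin q := ε.symm ⟨MulAction.stabilizer G Q, hne⟩
    have hεi : (ε i).1 = MulAction.stabilizer G Q := by
      rw [show ε i = ⟨MulAction.stabilizer G Q, hne⟩ from ε.apply_symm_apply _]
    have h5 : ∀ c : CC i, Ideal.Quotient.mk Q (c : C) ∈
        (algebraMap (A ⧸ P) (C ⧸ Q)).range := by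
      intro c
      change _ ∈ Set.range _
      rw [IsGalois.mem_range_algebraMap_iff_fixed]
      intro τ
      obtain ⟨g, rfl⟩ := hsurj τ
      change Ideal.Quotient.mk Q ((g : G) • (c : C)) = _
      rw [hCCfix i c g (by rw [hεi]; exact g.2)]
    let j1 : CC i →+* (algebraMap (A ⧸ P) (C ⧸ Q)).range :=
      ((Ideal.Quotient.mk Q).comp (CC i).val.toRingHom).codRestrict _ h5
    let j2 : (A ⧸ P) ≃+* (algebraMap (A ⧸ P) (C ⧸ Q)).range :=
      RingEquiv.ofBijective (algebraMap (A ⧸ P) (C ⧸ Q)).rangeRestrict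
        ⟨fun a b hab => (algebraMap (A ⧸ P) (C ⧸ Q)).injective (congrArg Subtype.val hab),
          RingHom.rangeRestrict_surjective _⟩
    apply hφns i
    refine ⟨((e.symm : (A ⧸ P) →+* k).comp (j2.symm : _ →+* (A ⧸ P))).comp j1, fun a => ?_⟩
    change e.symm (j2.symm (j1 (algebraMap A (CC i) a))) = φ a
    rw [RingEquiv.symm_apply_eq, RingEquiv.symm_apply_eq, he]
    rfl
  -- injectivity
  have hinj' : Function.Injective (Ideal.Quotient.stabilizerHom Q P G) := by
    rw [injective_iff_map_eq_one]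
    intro g hg
    by_contra hne
    have hne' : (g : G) ≠ 1 := fun h => hne (Subtype.ext h)
    have h5 : (g : G) • x g - x g ∈ Q := by
      rw [← Ideal.Quotient.eq]
      have h6 := congrArg (fun τ : (C ⧸ Q) ≃ₐ[A ⧸ P] (C ⧸ Q) => τ (Ideal.Quotient.mk Q (x g))) hg
      exact h6
    have h6 : D' ∈ Q := by
      change (∏ g ∈ Finset.univ.erase (1 : G), (g • x g - x g)) ∈ Q
      rw [← Finset.mul_prod_erase _ _ (Finset.mem_erase.2 ⟨hne', Finset.mem_univ _⟩)]
      exact Q.mul_mem_right _ h5
    have h7 : algebraMap A C D ∈ Q := by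
      rw [hD, ← Finset.mul_prod_erase _ _ (Finset.mem_univ (1 : G)), one_smul]
      exact Q.mul_mem_right _ h6
    exact hφD ((hφunder D).1 h7)
  let E1 : MulAction.stabilizer G Q ≃* ((C ⧸ Q) ≃ₐ[A ⧸ P] (C ⧸ Q)) :=
    MulEquiv.ofBijective _ ⟨hinj', hsurj⟩
  let E0 : G ≃* MulAction.stabilizer G Q :=
    Subgroup.topEquiv.symm.trans (MulEquiv.subgroupCongr hstab.symm)
  have halg : ∀ r : k, algebraMap k (C ⧸ Q) r = algebraMap (A ⧸ P) (C ⧸ Q) (e r) := by
    intro r
    have h4 : e r = Ideal.Quotient.mk P (algebraMap k A r) := by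
      rw [← he, φ.commutes]
      rfl
    rw [h4]
    change Ideal.Quotient.mk Q (algebraMap k C r) = Ideal.Quotient.mk Q (algebraMap A C _)
    rw [← IsScalarTower.algebraMap_apply]
  have hgalk : IsGalois k (C ⧸ Q) := by
    refine IsGalois.of_equiv_equiv (f := e.symm) (g := RingEquiv.refl (C ⧸ Q)) ?_
    apply RingHom.ext
    intro y
    obtain ⟨r, rfl⟩ := e.surjective y
    change algebraMap k (C ⧸ Q) (e.symm (e r)) = algebraMap (A ⧸ P) (C ⧸ Q) (e r)
    rw [e.symm_apply_apply]
    exact halg r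
  let E2 : ((C ⧸ Q) ≃ₐ[A ⧸ P] (C ⧸ Q)) ≃* ((C ⧸ Q) ≃ₐ[k] (C ⧸ Q)) :=
      { toFun := fun τ => AlgEquiv.ofRingEquiv (f := τ.toRingEquiv) (fun r => by
          rw [halg]; exact τ.commutes _)
        invFun := fun τ => AlgEquiv.ofRingEquiv (f := τ.toRingEquiv) (fun y => by
          obtain ⟨r, rfl⟩ := e.surjective y
          rw [← halg]; exact τ.commutes _)
        left_inv := fun τ => by ext; rfl
        right_inv := fun τ => by ext; rfl
        map_mul' := fun τ τ' => by ext; rfl }
  have hfdk : FiniteDimensional k (C ⧸ Q) := by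
    have h4 : Module.finrank k (C ⧸ Q) = Module.finrank (A ⧸ P) (C ⧸ Q) := by
      refine Algebra.finrank_eq_of_equiv_equiv e (RingEquiv.refl (C ⧸ Q)) ?_
      apply RingHom.ext
      intro r
      exact (halg r).symm
    exact Module.finite_of_finrank_pos (h4 ▸ Module.finrank_pos)
  exact ⟨C ⧸ Q, inferInstance, inferInstance, hfdk, hgalk, E0.trans (E1.trans E2),
    Ideal.Quotient.mkₐ k Q, fun g c => rfl⟩

end Pool.Agent.Zk31.QF
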