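import Pool.Agent.Zk31.QD
import Pool.Agent.Zk31.QF

/-! From the Hilbert property of the affine quotient of a semilinear action to proper solutions of
embedding problems. -/

set_option autoImplicit false
set_option linter.unusedSectionVars false

namespace Pool.Agent.Zk31.QG

open IntermediateField
open Pool.Agent.TH377.IG (FP prFP)
open Pool.Agent.N600.UK (ProperSol)
open Pool.Agent.Zk31.QA Pool.Agent.Zk31.QB Pool.Agent.Zk31.QD Pool.Agent.Zk31.QE Pool.Agent.Zk31.QF

variable {k L F B ι : Type} [Field k] [Field L] [Field F] [Algebra k L] [Algebra k F] [Algebra L F]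
  [IsScalarTower k L F] [Group B] [MulSemiringAction B F] [SMulCommClass B k F]

variable (k L B) in
/-- The ring of invariants of the action of `B` on the polynomial ring `L[x]`. -/
def invRing (x : ι → F) : Subalgebra k F :=
  (Algebra.adjoin L (Set.range x)).restrictScalars k ⊓
    (FixedPoints.intermediateField B : IntermediateField k F).toSubalgebra

theorem mem_invRing {x : ι → F} {z : F} :
    z ∈ invRing k L B x ↔ z ∈ Algebra.adjoin L (Set.range x) ∧ ∀ b : B, b • z = z := Iff.rfl

section closed

variable {x : ι → F}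

theorem frac_adjoin (hxt : adjoin L (Set.range x) = ⊤) :
    IsFractionRing (Algebra.adjoin L (Set.range x)) F := by
  refine IsFractionRing.of_field _ _ fun z => ?_
  have h1 : z ∈ adjoin L (Set.range x) := by rw [hxt]; trivial
  rw [mem_adjoin_iff_div] at h1
  obtain ⟨r, hr, s, hs, h⟩ := h1
  exact ⟨⟨r, hr⟩, ⟨s, hs⟩, h⟩

theorem intClosed_adjoin (hx : AlgebraicIndependent L x) :
    IsIntegrallyClosed (Algebra.adjoin L (Set.range x)) := by
  have h1 : IsIntegrallyClosed (MvPolynomial ι L) := inferInstance
  exact IsIntegrallyClosed.of_equiv hx.aevalEquiv.toRingEquiv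

theorem mem_adjoin_of_integral (hx : AlgebraicIndependent L x)
    (hxt : adjoin L (Set.range x) = ⊤) {z : F}
    (hz : IsIntegral (Algebra.adjoin L (Set.range x)) z) : z ∈ Algebra.adjoin L (Set.range x) := by
  have h1 := frac_adjoin hxt
  have h2 := intClosed_adjoin hx
  obtain ⟨y, hy⟩ := IsIntegrallyClosed.isIntegral_iff.mp hz
  rw [← hy]
  exact y.2

end closed

variable [CharZero k] [FiniteDimensional k L] [IsGalois k L] [Finite B] [FaithfulSMul B F]
  [Finite ι]

section aux

variable {E : Type} [Field E] [Algebra k E] [Algebra L E] [IsScalarTower k L E]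
  [FiniteDimensional k E] [IsGalois k E]

theorem fpsols_aux (Ω : Type) [Field Ω]
    [Algebra k Ω] [Algebra F Ω] [IsScalarTower k F Ω] [Algebra E Ω] [IsScalarTower k E Ω]
    [Algebra L Ω] [IsScalarTower L F Ω] [IsScalarTower L E Ω]
    [IsAlgClosed Ω] [Algebra.IsAlgebraic F Ω] (α : B →* (L ≃ₐ[k] L))
    (hα : ∀ (b : B) (l : L), b • algebraMap L F l = algebraMap L F (α b l))
    (x : ι → F) (hx : AlgebraicIndependent L x) (hxt : adjoin L (Set.range x) = ⊤)
    (hst : ∀ (b : B) (i : ι), b • x i ∈ Submodule.span L (Set.range x))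
    (hHP : W560.HP.HilbertProperty k
      (AlgebraicGeometry.Spec (CommRingCat.of (invRing k L B x))) (strMap k (invRing k L B x))) :
    ProperSol k E (FP α (AlgEquiv.restrictNormalHom (F := k) (K₁ := E) L))
      (prFP α (AlgEquiv.restrictNormalHom (F := k) (K₁ := E) L)) := by
  classical
  have hLF : ∀ y : F, IsAlgebraic L y → y ∈ Set.range (algebraMap L F) := fun y hy =>
    Pool.Agent.W333.HP.bc0 L F ι x hx y (by rw [hxt]; trivial) hy
  let r := AlgEquiv.restrictNormalHom (F := k) (K₁ := E) L
  have hr : Function.Surjective r := AlgEquiv.restrictNormalHom_surjective E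
  have hrE : ∀ (t : E ≃ₐ[k] E) (l : L), algebraMap L E (r t l) = t (algebraMap L E l) :=
    fun t l => AlgEquiv.restrictNormal_commutes t L l
  let G := FP α r
  have hex : ∀ g : G, ∃ σ : Ω ≃ₐ[k] Ω, (∀ e : E, σ (algebraMap E Ω e) =
      algebraMap E Ω (g.1.2 e)) ∧ ∀ f : F, σ (algebraMap F Ω f) = algebraMap F Ω (g.1.1 • f) := by
    intro g
    refine exists_lift_pair F Ω α hα hLF g.1.1 g.1.2 fun l => ?_
    rw [show α g.1.1 = r g.1.2 from g.2, hrE]
  choose σs hσE hσF using hex
  let XX : Set Ω := Set.range fun i => algebraMap F Ω (x i)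
  let CE : Subalgebra E Ω := Algebra.adjoin E XX
  have hspan : ∀ v ∈ Submodule.span L (Set.range x), algebraMap F Ω v ∈ CE := by
    intro v hv
    induction hv using Submodule.span_induction with
    | mem v hv =>
      obtain ⟨i, rfl⟩ := hv
      exact Algebra.subset_adjoin ⟨i, rfl⟩
    | zero => rw [map_zero]; exact CE.zero_mem
    | add u v _ _ hu hv => rw [map_add]; exact CE.add_mem hu hv
    | smul l v _ hv =>
      rw [Algebra.smul_def, map_mul, ← IsScalarTower.algebraMap_apply L F Ω,
        IsScalarTower.algebraMap_apply L E Ω]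
      exact CE.mul_mem (CE.algebraMap_mem _) hv
  have hσC : ∀ (g : G), ∀ z ∈ CE, σs g z ∈ CE := by
    intro g z hz
    induction hz using Algebra.adjoin_induction with
    | mem y hy =>
      obtain ⟨i, rfl⟩ := hy
      change σs g (algebraMap F Ω (x i)) ∈ CE
      rw [hσF]
      exact hspan _ (hst _ i)
    | algebraMap e => rw [hσE]; exact CE.algebraMap_mem _
    | add y z _ _ hy hz => rw [map_add]; exact CE.add_mem hy hz
    | mul y z _ _ hy hz => rw [map_mul]; exact CE.mul_mem hy hz
  have hCEle : ∀ z ∈ CE, z ∈ adjoin E XX := fun z hz =>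
    (IntermediateField.algebra_adjoin_le_adjoin E XX) hz
  have huniq : ∀ (σ τ : Ω ≃ₐ[k] Ω), (∀ e : E, σ (algebraMap E Ω e) = τ (algebraMap E Ω e)) →
      (∀ f : F, σ (algebraMap F Ω f) = τ (algebraMap F Ω f)) → ∀ z ∈ CE, σ z = τ z := by
    intro σ τ h1 h2 z hz
    refine agree h1 ?_ (hCEle z hz)
    rintro _ ⟨i, rfl⟩
    exact h2 _
  have hone : ∀ z ∈ CE, σs 1 z = z := huniq (σs 1) 1
    (fun e => by rw [hσE]; rfl) (fun f => by rw [hσF]; exact congrArg _ (one_smul B f))
  have hmul : ∀ (g h : G), ∀ z ∈ CE, σs (g * h) z = σs g (σs h z) := fun g h =>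
    huniq (σs (g * h)) (σs g * σs h)
      (fun e => by rw [AlgEquiv.mul_apply, hσE, hσE, hσE]; rfl)
      (fun f => by rw [AlgEquiv.mul_apply, hσF, hσF, hσF]; exact congrArg _ (mul_smul g.1.1 h.1.1 f))
  let actG : MulSemiringAction G CE :=
    { smul := fun g z => ⟨σs g z, hσC g z z.2⟩
      one_smul := fun z => Subtype.ext (hone z z.2)
      mul_smul := fun g h z => Subtype.ext (hmul g h z z.2)
      smul_zero := fun g => Subtype.ext (map_zero (σs g))
      smul_add := fun g y z => Subtype.ext (map_add (σs g) (y : Ω) z)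
      smul_one := fun g => Subtype.ext (map_one (σs g))
      smul_mul := fun g y z => Subtype.ext (map_mul (σs g) (y : Ω) z) }
  have hact : ∀ (g : G) (z : CE), ((g • z : CE) : Ω) = σs g z := fun g z => rfl
  let A := invRing k L B x
  have hAC : ∀ z ∈ Algebra.adjoin L (Set.range x), algebraMap F Ω z ∈ CE := by
    intro z hz
    induction hz using Algebra.adjoin_induction with
    | mem y hy =>
      obtain ⟨i, rfl⟩ := hy
      exact Algebra.subset_adjoin ⟨i, rfl⟩
    | algebraMap l =>
      rw [← IsScalarTower.algebraMap_apply L F Ω, IsScalarTower.algebraMap_apply L E Ω]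
      exact CE.algebraMap_mem _
    | add y z _ _ hy hz => rw [map_add]; exact CE.add_mem hy hz
    | mul y z _ _ hy hz => rw [map_mul]; exact CE.mul_mem hy hz
  let algAC : Algebra A CE :=
    (((algebraMap F Ω).comp A.val.toRingHom).codRestrict CE fun a =>
      hAC a (mem_invRing.mp a.2).1).toAlgebra
  have halg : ∀ a : A, ((algebraMap A CE a : CE) : Ω) = algebraMap F Ω a := fun a => rfl
  have tower : IsScalarTower k A CE := IsScalarTower.of_algebraMap_eq fun c => by
    apply Subtype.ext
    rw [halg]
    change algebraMap k Ω c = algebraMap F Ω (algebraMap k F c)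
    rw [← IsScalarTower.algebraMap_apply]
  have hAinj : Function.Injective (algebraMap A CE) := by
    intro a b hab
    apply Subtype.ext
    apply (algebraMap F Ω).injective
    exact congrArg (Subtype.val) hab
  have hfaithA : FaithfulSMul A CE := (faithfulSMul_iff_algebraMap_injective A CE).2 hAinj
  have hcomm : SMulCommClass G A CE := ⟨fun g a z => by
    apply Subtype.ext
    rw [Algebra.smul_def, Algebra.smul_def, hact]
    change σs g (algebraMap F Ω a * (z : Ω)) = algebraMap F Ω a * σs g z
    rw [map_mul, hσF, (mem_invRing.mp a.2).2]⟩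
  -- `F` is contained in `E(x)`
  have hFE : ∀ f : F, algebraMap F Ω f ∈ adjoin E XX := by
    intro f
    have h1 : f ∈ adjoin L (Set.range x) := by rw [hxt]; trivial
    induction h1 using IntermediateField.adjoin_induction with
    | mem y hy =>
      obtain ⟨i, rfl⟩ := hy
      exact subset_adjoin _ _ ⟨i, rfl⟩
    | algebraMap l =>
      rw [← IsScalarTower.algebraMap_apply L F Ω, IsScalarTower.algebraMap_apply L E Ω]
      exact IntermediateField.algebraMap_mem _ _
    | add u v _ _ hu hv => rw [map_add]; exact add_mem hu hv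
    | inv u _ hu => rw [map_inv₀]; exact inv_mem hu
    | mul u v _ _ hu hv => rw [map_mul]; exact mul_mem hu hv
  have hfaith : FaithfulSMul G CE := ⟨fun {g h} hgh => by
    have h1 : ∀ e : E, g.1.2 e = h.1.2 e := by
      intro e
      apply (algebraMap E Ω).injective
      rw [← hσE, ← hσE]
      exact congrArg (fun z : CE => (z : Ω)) (hgh (algebraMap E CE e))
    have h2 : ∀ f : F, g.1.1 • f = h.1.1 • f := by
      intro f
      apply (algebraMap F Ω).injective
      rw [← hσF, ← hσF]
      refine agree (N := E) (S := XX) (fun e => by rw [hσE, hσE, h1]) ?_ (hFE f)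
      rintro _ ⟨i, rfl⟩
      exact congrArg (fun z : CE => (z : Ω)) (hgh ⟨_, Algebra.subset_adjoin ⟨i, rfl⟩⟩)
    apply Subtype.ext
    exact Prod.ext (FaithfulSMul.eq_of_smul_eq_smul h2) (AlgEquiv.ext h1)⟩
  have hinv : Algebra.IsInvariant A CE G := ⟨fun c hc => by
    -- `c` is in `F`
    have hcF : CharZero F := charZero_of_injective_algebraMap (algebraMap k F).injective
    have hic : IsAlgClosure F Ω := ⟨inferInstance, inferInstance⟩
    have hgalF : IsGalois F Ω := IsAlgClosure.isGalois _ _
    have h1 : (c : Ω) ∈ Set.range (algebraMap F Ω) := by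
      rw [InfiniteGalois.mem_range_algebraMap_iff_fixed]
      intro τ
      let τ₁ : Ω ≃ₐ[k] Ω := τ.restrictScalars k
      let s : E ≃ₐ[k] E := τ₁.restrictNormal E
      have hs : ∀ e : E, τ₁ (algebraMap E Ω e) = algebraMap E Ω (s e) := fun e =>
        (AlgEquiv.restrictNormal_commutes τ₁ E e).symm
      have hs1 : r s = 1 := by
        apply AlgEquiv.ext
        intro l
        apply (algebraMap L E).injective
        rw [hrE, AlgEquiv.one_apply]
        apply (algebraMap E Ω).injective
        rw [← hs, ← IsScalarTower.algebraMap_apply L E Ω, IsScalarTower.algebraMap_apply L F Ω]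
        exact τ.commutes _
      let g : G := ⟨(1, s), by
        change α 1 = r s
        rw [hs1, map_one]⟩
      have h2 : τ₁ c = σs g c := by
        refine huniq τ₁ (σs g) (fun e => ?_) (fun f => ?_) c c.2
        · rw [hs, hσE]
        · rw [hσF]
          change τ₁ (algebraMap F Ω f) = algebraMap F Ω ((1 : B) • f)
          rw [one_smul]
          exact τ.commutes f
      refine h2.trans ?_
      exact congrArg (fun z : CE => (z : Ω)) (hc g)
    obtain ⟨f, hf⟩ := h1
    have h2 : ∀ b : B, b • f = f := by
      intro b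
      obtain ⟨t, ht⟩ := hr (α b)
      let g : G := ⟨(b, t), ht.symm⟩
      apply (algebraMap F Ω).injective
      have h3 := hσF g f
      rw [← h3, hf]
      exact congrArg (fun z : CE => (z : Ω)) (hc g)
    have h3 : f ∈ Algebra.adjoin L (Set.range x) := by
      apply mem_adjoin_of_integral hx hxt
      let R₀ := Algebra.adjoin L (Set.range x)
      have t1 : IsScalarTower R₀ F Ω := inferInstance
      have t2 : IsScalarTower L R₀ Ω := IsScalarTower.of_algebraMap_eq fun l => by
        rw [IsScalarTower.algebraMap_apply L F Ω]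
        rfl
      have h4 : ∀ z ∈ CE, IsIntegral R₀ z := by
        intro z hz
        induction hz using Algebra.adjoin_induction with
        | mem y hy =>
          obtain ⟨i, rfl⟩ := hy
          exact isIntegral_algebraMap (R := R₀) (A := Ω)
            (x := (⟨x i, Algebra.subset_adjoin ⟨i, rfl⟩⟩ : R₀))
        | algebraMap e =>
          have h5 : IsIntegral k e := Algebra.IsIntegral.isIntegral e
          have h6 : IsIntegral k (algebraMap E Ω e) := h5.algebraMap
          have h7 : IsIntegral L (algebraMap E Ω e) := by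
            have t3 : IsScalarTower k L Ω := IsScalarTower.of_algebraMap_eq fun c => by
              rw [IsScalarTower.algebraMap_apply k E Ω, IsScalarTower.algebraMap_apply L E Ω,
                ← IsScalarTower.algebraMap_apply k L E]
            exact h6.tower_top
          exact h7.tower_top
        | add y z _ _ hy hz => exact hy.add hz
        | mul y z _ _ hy hz => exact hy.mul hz
      have h5 := h4 c c.2
      rw [← hf] at h5
      exact (isIntegral_algebraMap_iff (algebraMap F Ω).injective).mp h5
    exact ⟨⟨f, mem_invRing.mpr ⟨h3, h2⟩⟩, Subtype.ext hf⟩⟩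
  have hfinG : Finite G := inferInstance
  obtain ⟨Λ, i1, i2, i3, i4, γ, Φ, hΦ⟩ := exists_spec (k := k) (A := A) (C := CE) (G := G) hHP
  let _ : Algebra E Λ := (Φ.toRingHom.comp (algebraMap E CE)).toAlgebra
  have halgE : ∀ e : E, algebraMap E Λ e = Φ (algebraMap E CE e) := fun e => rfl
  have tE : IsScalarTower k E Λ := IsScalarTower.of_algebraMap_eq fun c => by
    rw [halgE, ← IsScalarTower.algebraMap_apply k E CE, AlgHom.commutes]
  refine ⟨Λ, i1, i2, inferInstance, tE, i3, i4, γ.symm, fun σ => ?_⟩
  obtain ⟨g, rfl⟩ := γ.surjective σ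
  rw [γ.symm_apply_apply]
  apply AlgEquiv.ext
  intro e
  apply (algebraMap E Λ).injective
  have h1 := AlgEquiv.restrictNormal_commutes (γ g) E e
  rw [h1, halgE, halgE, hΦ]
  congr 1
  apply Subtype.ext
  rw [hact]
  exact (hσE g e).symm

end aux

theorem fpsols_of_hp (α : B →* (L ≃ₐ[k] L))
    (hα : ∀ (b : B) (l : L), b • algebraMap L F l = algebraMap L F (α b l))
    (x : ι → F) (hx : AlgebraicIndependent L x) (hxt : adjoin L (Set.range x) = ⊤)
    (hst : ∀ (b : B) (i : ι), b • x i ∈ Submodule.span L (Set.range x))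
    (hHP : W560.HP.HilbertProperty k
      (AlgebraicGeometry.Spec (CommRingCat.of (invRing k L B x))) (strMap k (invRing k L B x))) :
    FPSols k L B α := by
  intro E _ _ _ _ _ _
  classical
  have hEL : FiniteDimensional L E := Module.Finite.of_restrictScalars_finite k L E
  let jE : E →ₐ[L] AlgebraicClosure F := IsAlgClosed.lift
  let _ : Algebra E (AlgebraicClosure F) := jE.toRingHom.toAlgebra
  have t1 : IsScalarTower L E (AlgebraicClosure F) := IsScalarTower.of_algebraMap_eq fun l =>
    (jE.commutes l).symm
  have t2 : IsScalarTower k E (AlgebraicClosure F) := IsScalarTower.of_algebraMap_eq fun l => by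
    rw [IsScalarTower.algebraMap_apply k L (AlgebraicClosure F),
      IsScalarTower.algebraMap_apply L E (AlgebraicClosure F),
      ← IsScalarTower.algebraMap_apply k L E]
  exact fpsols_aux (E := E) (AlgebraicClosure F) α hα x hx hxt hst hHP

end Pool.Agent.Zk31.QG
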