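import Pool.Agent.Zk31.QD

/-! Fibre powers of an embedding problem. -/

set_option autoImplicit false
set_option linter.unusedSectionVars false

namespace Pool.Agent.Zk31.QI

open IntermediateField
open Pool.Agent.TH377.IG (FP prFP)
open Pool.Agent.N600.UK (ProperSol)
open Pool.Agent.Zk31.QC (Sols)
open Pool.Agent.Zk31.QD

section grp

variable {B Γ : Type} [Group B] [Group Γ]

/-- The `m`-th fibre power of the homomorphism `α : B → Γ`: all `(b_1, ..., b_m; g)` with
`α (b_i) = g` for all `i`. -/
def FibPow (α : B →* Γ) (m : ℕ) : Subgroup ((Fin m → B) × Γ) where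
  carrier := {p | ∀ i, α (p.1 i) = p.2}
  one_mem' := fun _ => map_one α
  mul_mem' := by
    intro a b ha hb i
    change α (a.1 i * b.1 i) = a.2 * b.2
    rw [map_mul, ha, hb]
  inv_mem' := by
    intro a ha i
    change α (a.1 i)⁻¹ = a.2⁻¹
    rw [map_inv, ha]

/-- The projection of the fibre power. -/
def fibPr (α : B →* Γ) (m : ℕ) : FibPow α m →* Γ :=
  (MonoidHom.snd (Fin m → B) Γ).comp (FibPow α m).subtype

end grp

theorem proper_zero (k L B : Type) [Field k] [Field L] [Algebra k L]
    [FiniteDimensional k L] [IsGalois k L] [Group B] (α : B →* (L ≃ₐ[k] L)) :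
    ProperSol k L (FibPow α 0) (fibPr α 0) := by
  let e : (L ≃ₐ[k] L) ≃* FibPow α 0 :=
    { toFun := fun g => ⟨(1, g), fun i => i.elim0⟩
      invFun := fun z => z.1.2
      left_inv := fun g => rfl
      right_inv := fun z => Subtype.ext (Prod.ext (Subsingleton.elim _ _) rfl)
      map_mul' := fun g h => Subtype.ext (Prod.ext (Subsingleton.elim _ _) rfl) }
  refine ⟨L, inferInstance, inferInstance, inferInstance, inferInstance, inferInstance,
    inferInstance, e, fun σ => ?_⟩
  apply AlgEquiv.ext
  intro x
  have h1 := AlgEquiv.restrictNormal_commutes σ L x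
  exact h1.symm

theorem proper_succ (k L B : Type) [Field k] [Field L] [Algebra k L]
    [FiniteDimensional k L] [IsGalois k L] [Group B] (α : B →* (L ≃ₐ[k] L))
    (h : FPSols k L B α) (m : ℕ) (hm : ProperSol k L (FibPow α m) (fibPr α m)) :
    ProperSol k L (FibPow α (m + 1)) (fibPr α (m + 1)) := by
  obtain ⟨E, i1, i2, i3, i4, i5, i6, γ, hγ⟩ := hm
  obtain ⟨F, j1, j2, j3, j4, j5, j6, δ, hδ⟩ := h E
  let r := AlgEquiv.restrictNormalHom (F := k) (K₁ := E) L
  have hγ' : ∀ τ : E ≃ₐ[k] E, (γ τ).1.2 = r τ := hγ
  have hu : ∀ z : FibPow α (m + 1), α (z.1.1 0) =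
      r (γ.symm ⟨(Fin.tail z.1.1, z.1.2), fun i => z.2 i.succ⟩) := by
    intro z
    rw [← hγ', γ.apply_symm_apply]
    exact z.2 0
  let e : FP α r ≃* FibPow α (m + 1) :=
    { toFun := fun z => ⟨(Fin.cons z.1.1 (γ z.1.2).1.1, r z.1.2), by
        intro i
        refine Fin.cases ?_ (fun i => ?_) i
        · exact z.2
        · change α ((γ z.1.2).1.1 i) = r z.1.2
          rw [(γ z.1.2).2 i, hγ']⟩
      invFun := fun z => ⟨(z.1.1 0, γ.symm ⟨(Fin.tail z.1.1, z.1.2), fun i => z.2 i.succ⟩), hu z⟩
      left_inv := fun z => by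
        apply Subtype.ext
        refine Prod.ext rfl ?_
        change γ.symm _ = z.1.2
        rw [MulEquiv.symm_apply_eq]
        apply Subtype.ext
        refine Prod.ext rfl ?_
        exact (hγ' z.1.2).symm
      right_inv := fun z => by
        apply Subtype.ext
        refine Prod.ext ?_ ?_
        · change Fin.cons (z.1.1 0) (γ (γ.symm _)).1.1 = z.1.1
          rw [γ.apply_symm_apply]
          exact Fin.cons_self_tail z.1.1
        · change r (γ.symm _) = z.1.2
          rw [← hγ', γ.apply_symm_apply]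
      map_mul' := fun y z => by
        apply Subtype.ext
        refine Prod.ext ?_ ?_
        · funext i
          refine Fin.cases ?_ (fun i => ?_) i
          · rfl
          · change (γ (y.1.2 * z.1.2)).1.1 i = (γ y.1.2).1.1 i * (γ z.1.2).1.1 i
            rw [map_mul]
            rfl
        · exact map_mul r y.1.2 z.1.2 }
  let _ : Algebra L F := ((algebraMap E F).comp (algebraMap L E)).toAlgebra
  have t1 : IsScalarTower L E F := IsScalarTower.of_algebraMap_eq fun x => rfl
  have t2 : IsScalarTower k L F := IsScalarTower.of_algebraMap_eq fun x => by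
    rw [IsScalarTower.algebraMap_apply k E F, IsScalarTower.algebraMap_apply L E F,
      ← IsScalarTower.algebraMap_apply k L E]
  refine ⟨F, j1, j2, inferInstance, t2, j5, j6, δ.trans e, fun σ => ?_⟩
  change r (δ σ).1.2 = σ.restrictNormal L
  have h1 : (δ σ).1.2 = σ.restrictNormal E := hδ σ
  rw [h1]
  apply AlgEquiv.ext
  intro x
  apply (algebraMap L F).injective
  have h2 := AlgEquiv.restrictNormal_commutes σ E (algebraMap L E x)
  have h3 := AlgEquiv.restrictNormal_commutes (σ.restrictNormal E) L x
  have h4 := AlgEquiv.restrictNormal_commutes σ L x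
  rw [h4, IsScalarTower.algebraMap_apply L E F x, ← h2, ← h3]
  rfl

theorem powers_of_fpsols (k L B : Type) [Field k] [Field L] [Algebra k L]
    [FiniteDimensional k L] [IsGalois k L] [Group B] (α : B →* (L ≃ₐ[k] L))
    (h : FPSols k L B α) (m : ℕ) : ProperSol k L (FibPow α m) (fibPr α m) := by
  induction m with
  | zero => exact proper_zero k L B α
  | succ m ih => exact proper_succ k L B α h m ih

theorem sols_of_powers (k L B : Type) [Field k] [CharZero k] [Field L] [Algebra k L]
    [FiniteDimensional k L] [IsGalois k L] [Group B] [Finite B] (α : B →* (L ≃ₐ[k] L))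
    (h : ∀ m, ProperSol k L (FibPow α m) (fibPr α m)) : Sols k L B α := by
  classical
  intro E hE
  have hcL : CharZero L := charZero_of_injective_algebraMap (algebraMap k L).injective
  have hfin : Finite (IntermediateField L E) :=
    Field.finite_intermediateField_of_exists_primitive_element L E
      (Field.exists_primitive_element L E)
  let m := Nat.card (IntermediateField L E) + 1
  obtain ⟨F', i1, i2, i3, i4, i5, i6, γ, hγ⟩ := h m
  have hLF' : FiniteDimensional L F' := Module.Finite.of_restrictScalars_finite k L F'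
  let iL : F' →ₐ[L] AlgebraicClosure L := IsAlgClosed.lift
  let ρ : Fin m → ((F' ≃ₐ[k] F') →* B) := fun i =>
    (((Pi.evalMonoidHom (fun _ : Fin m => B) i).comp
      (MonoidHom.fst (Fin m → B) (L ≃ₐ[k] L))).comp (FibPow α m).subtype).comp γ.toMonoidHom
  have hρ1 : ∀ i σ, ρ i σ = (γ σ).1.1 i := fun i σ => rfl
  have hρ : ∀ i, Function.Surjective (ρ i) := by
    intro i b
    refine ⟨γ.symm ⟨(fun _ => b, α b), fun _ => rfl⟩, ?_⟩
    rw [hρ1, γ.apply_symm_apply]
  have hρL : ∀ i (σ : F' ≃ₐ[k] F') (l : L),
      σ (algebraMap L F' l) = algebraMap L F' (α (ρ i σ) l) := by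
    intro i σ l
    have h1 : α (ρ i σ) = (γ σ).1.2 := (γ σ).2 i
    have h2 : (γ σ).1.2 = σ.restrictNormal L := hγ σ
    rw [h1, h2]
    exact (AlgEquiv.restrictNormal_commutes σ L l).symm
  have hex := fun i => exists_N k L B α F' (ρ i) (hρ i) (hρL i) iL
  choose N hN1 hN2 hN3 hN4 using hex
  have hgL : IsGalois L F' := IsGalois.tower_top_of_isGalois k L F'
  -- pairwise disjoint
  have hdis : ∀ i j, i ≠ j → ∀ z ∈ N i, z ∈ N j → z ∈ (⊥ : IntermediateField L
      (AlgebraicClosure L)) := by
    intro i j hij z hzi hzj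
    obtain ⟨w, hw, rfl⟩ := hN3 i z hzi
    obtain ⟨w', hw', hww⟩ := hN3 j _ hzj
    obtain rfl := iL.injective hww
    have hwL : w' ∈ Set.range (algebraMap L F') := by
      rw [InfiniteGalois.mem_range_algebraMap_iff_fixed]
      intro σ
      let σk : F' ≃ₐ[k] F' := σ.restrictScalars k
      have hσ2 : (γ σk).1.2 = 1 := by
        have h2 : (γ σk).1.2 = σk.restrictNormal L := hγ σk
        rw [h2]
        apply AlgEquiv.ext
        intro l
        apply (algebraMap L F').injective
        rw [AlgEquiv.restrictNormal_commutes]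
        exact σ.commutes l
      let y : FibPow α m := ⟨(fun a => if a = i then (γ σk).1.1 i else 1, 1), by
        intro a
        change α (if a = i then (γ σk).1.1 i else 1) = 1
        split_ifs
        · rw [← hσ2]
          exact (γ σk).2 i
        · exact map_one α⟩
      let σ₁ := γ.symm y
      have h1 : σ₁ w' = w' := by
        apply hw'
        rw [MonoidHom.mem_ker, hρ1, γ.apply_symm_apply]
        exact if_neg (fun h => hij h.symm)
      have h2 : (σk * σ₁⁻¹) w' = w' := by
        apply hw
        rw [MonoidHom.mem_ker, map_mul, map_inv, hρ1, hρ1, γ.apply_symm_apply]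
        change (γ σk).1.1 i * (if i = i then (γ σk).1.1 i else 1)⁻¹ = 1
        rw [if_pos rfl, mul_inv_cancel]
      have h4 : σ₁⁻¹ w' = w' := by
        apply σ₁.injective
        rw [← AlgEquiv.mul_apply, mul_inv_cancel, AlgEquiv.one_apply, h1]
      rw [AlgEquiv.mul_apply, h4] at h2
      exact h2
    obtain ⟨l, rfl⟩ := hwL
    rw [IntermediateField.mem_bot]
    exact ⟨l, (iL.commutes l).symm⟩
  by_contra hcon
  have hne : ∀ i, N i ⊓ E ≠ ⊥ := fun i h1 => hcon ⟨N i, h1, hN1 i, hN2 i, hN4 i⟩
  let f : Fin m → IntermediateField L E := fun i => (N i).comap E.val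
  have hf : Function.Injective f := by
    intro i j hij
    by_contra hne'
    apply hne i
    rw [eq_bot_iff]
    rintro z ⟨hz, hzE⟩
    refine hdis i j hne' z hz ?_
    have h1 : (⟨z, hzE⟩ : E) ∈ f i := hz
    rw [hij] at h1
    exact h1
  have h1 := Nat.card_le_card_of_injective f hf
  rw [Nat.card_fin] at h1
  exact absurd h1 (by omega)

end Pool.Agent.Zk31.QI
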