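import Mathlib
import Pool.Agent.Zk31.Voc
import Pool.Agent.N70.ES.VocW

/-!
# Vocabulary: steps with nonsplit covers

`Cls ℚ` is the class of homomorphisms of the file `Pool/Agent/TH444/TW/ClsDef.lean`.
-/

set_option autoImplicit false

namespace Pool.Agent.Zk31.Voc

open Pool.Agent.N70.EP.Voc
open Pool.Agent.N70.EQ.Voc (KerClass)

/-- The group `FibrePower α ρ`. -/
def FibGrp {B W S : Type} [Group B] [Group W] [Group S] (α : B →* W) {n : ℕ}
    (ρ : S →* Equiv.Perm (Fin n)) : Type := FibrePower α ρ

instance fibGrpGroup {B W S : Type} [Group B] [Group W] [Group S] (α : B →* W) {n : ℕ}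
    (ρ : S →* Equiv.Perm (Fin n)) : Group (FibGrp α ρ) := (FibrePower α ρ).toGroup

/-- The projection `(x, w) ↦ w` of the group `FibrePower α ρ`. Its kernel is `(ker α) ≀ S`. -/
def fibrePr {B W S : Type} [Group B] [Group W] [Group S] (α : B →* W) {n : ℕ}
    (ρ : S →* Equiv.Perm (Fin n)) : FibGrp α ρ →* W :=
  MonoidHom.mk' (fun z => z.1.2) fun _ _ => rfl

/-- The sets `A₃ α` are large: if `α : B → W` is a surjective homomorphism of finite groups of index
`I`, then `A₃ α` contains almost all `n` divisible by `8` and `4 I` and an explicit family. -/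
def LargeCov (A₃ : ∀ (W B : Type) [Group W] [Group B], (B →* W) → Set ℕ) : Prop :=
  ∀ (W B : Type) [Group W] [Finite W] [Group B] [Finite B] (α : B →* W),
    Function.Surjective α → ∀ I : ℕ, IsSplittingIndex α I →
      AbundantMultiples I (fun n => n ∈ A₃ W B α)

/-- The class of homomorphisms, depending on sets of natural numbers `A₁ α χ`, `A₃ α` for every
homomorphism `α : B → W` and every character `χ : W → {1, -1}` and `A₂ G`, `S₂ G` for every group
`G`. It is the smallest class of homomorphisms of groups which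
* contains the class `Cls ℚ` of the starting results (for example all split epimorphisms with a
  finite abelian kernel),
* contains the projections `twPr α χ n : TwPow α χ n → W` of the alternating fibre powers of a
  homomorphism `α : B → W`, `B` finite, twisted by `χ`, if `n` is in `A₁ α χ`,
* contains the projections `fibrePr α ρ : FibrePower α ρ → W` of the fibre powers of a homomorphism
  `α : B → W`, `B` finite, by every finite central extension `ρ : S → A_n`, if `n` is in `A₃ α`,
* contains all epimorphisms whose kernel is in the class `KerClass A₂ S₂`,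
* is closed under composition, and under quotients (if `p ∘ q` is in the class and `q` is
  surjective, then `p` is in the class). -/
inductive CovStep (A₁ : ∀ (W B : Type) [Group W] [Group B], (B →* W) → (W →* ℤˣ) → Set ℕ)
    (A₂ S₂ : ∀ (G : Type) [Group G], Set ℕ)
    (A₃ : ∀ (W B : Type) [Group W] [Group B], (B →* W) → Set ℕ) :
    ∀ {W W' : Type} [Group W] [Group W'], (W' →* W) → Prop
  | old {W W' : Type} [Group W] [Group W'] (p : W' →* W)
      (h : Pool.Agent.TH444.TW.Cls ℚ p) : CovStep A₁ A₂ S₂ A₃ p
  | alternating {W B : Type} [Group W] [Group B] [Finite B] (α : B →* W) (χ : W →* ℤˣ) (n : ℕ)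
      (hn : n ∈ A₁ W B α χ) : CovStep A₁ A₂ S₂ A₃ (twPr α χ n)
  | cover {W B S : Type} [Group W] [Group B] [Finite B] [Group S] [Finite S] (α : B →* W) (n : ℕ)
      (hn : n ∈ A₃ W B α) (ρ : S →* Equiv.Perm (Fin n)) (hρ : CentralOverAlt ρ) :
      CovStep A₁ A₂ S₂ A₃ (fibrePr α ρ)
  | kernel {W W' : Type} [Group W] [Group W'] (p : W' →* W) (hp : Function.Surjective p)
      (h : KerClass A₂ S₂ p.ker) : CovStep A₁ A₂ S₂ A₃ p
  | comp {W W' W'' : Type} [Group W] [Group W'] [Group W''] (p : W' →* W) (q : W'' →* W')
      (hp : CovStep A₁ A₂ S₂ A₃ p) (hq : CovStep A₁ A₂ S₂ A₃ q) : CovStep A₁ A₂ S₂ A₃ (p.comp q)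
  | quot {W W' W'' : Type} [Group W] [Group W'] [Group W''] (p : W' →* W) (q : W'' →* W')
      (hq : Function.Surjective q) (hpq : CovStep A₁ A₂ S₂ A₃ (p.comp q)) :
      CovStep A₁ A₂ S₂ A₃ p

end Pool.Agent.Zk31.Voc
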