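import Mathlib
import Pool.Agent.Zk31.Voc2
import Pool.Agent.Zk31.Idx

/-!
# Steps and towers
-/

set_option autoImplicit false
set_option linter.unusedSectionVars false

namespace Pool.Agent.Zk31

open Pool.Agent.H391R2 Pool.Agent.H391R2.T4
open Pool.Agent.TH444.TW (RSK finite_of_ker)
open Pool.Agent.N70.EP.Voc
open Pool.Agent.N70.EP (setA rsk_of_good)
open Pool.Agent.N70.EQ (setS kernel_main7)
open Pool.Agent.N70.EO (setC)
open Voc

/-- The sets of degrees. -/
def setD {W B : Type} [Group W] [Group B] (α : B →* W) : Set ℕ :=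
  {n | ∀ (S : Type) [Group S] [Finite S] (ρ : S →* Equiv.Perm (Fin n)), CentralOverAlt ρ →
    RSK ℚ (fibrePr α ρ)}

theorem largeCov : LargeCov (fun _ _ _ _ α => setD α) := by
  intro W B _ _ _ _ α hα I hI
  refine abundant_of hI.1 ?_
  obtain ⟨r₀, hr₀⟩ := fibU α hα
  refine ⟨r₀, fun r hr h2 hIr => ?_⟩
  obtain ⟨k₀, hk₀⟩ := hr₀ r hr h2 (fun d hd => ((hI.2 d).2 hd).trans hIr)
  exact ⟨k₀, fun k hk S _ _ ρ hρ => hk₀ k hk S ρ (cext_of hρ)⟩

theorem covStep_main {W W' : Type} [Group W] [Group W'] {p : W' →* W}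
    (h : CovStep (fun _ _ _ _ α χ => setC α χ) (fun G _ => setA G) (fun G _ => setS G)
      (fun _ _ _ _ α => setD α) p) :
    Finite W → Finite W' ∧ RSK ℚ p := by
  induction h with
  | old p h => exact fun hW => ⟨h.finite, h.rsk⟩
  | @alternating W B _ _ _ α χ n hn =>
    intro hW
    have hf : Finite (Wr B n) := finite_wr B n
    exact ⟨Finite.of_injective Subtype.val Subtype.val_injective, hn⟩
  | @cover W B S _ _ _ _ _ α n hn ρ hρ =>
    intro hW
    exact ⟨finite_fib α ρ, hn S ρ hρ⟩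
  | kernel p hp h =>
    intro hW
    obtain ⟨h3, -, h5⟩ := kernel_main7 (fun G _ => setA G) (fun G _ => setS G)
      (fun _ _ _ h => h) (fun _ _ _ h => h) _ h
    exact ⟨finite_of_ker p, rsk_of_good h5 p hp ⟨MulEquiv.refl _⟩⟩
  | comp p q hp hq ihp ihq =>
    intro hW
    obtain ⟨h1, h2⟩ := ihp hW
    obtain ⟨h3, h4⟩ := ihq h1
    exact ⟨h3, RSK.comp h2 h4⟩
  | quot p q hq hpq ih =>
    intro hW
    obtain ⟨h1, h2⟩ := ih hW
    exact ⟨Finite.of_surjective q hq, RSK.quot q hq (fun x => rfl) h2⟩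

end Pool.Agent.Zk31
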