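import Mathlib
import Pool.Agent.Zk31.Voc2

/-!
# Vocabulary: solutions of the fibre powers of an embedding problem
-/

set_option autoImplicit false

namespace Pool.Agent.Zk31.Voc

open Pool.Agent.N70.EP.Voc

section

variable {K L B : Type} [Field K] [Field L] [Algebra K L] [Normal K L] [Group B]
  (α : B →* (L ≃ₐ[K] L))

/-- The fibre power of the embedding problem `α` by `ρ : S → S_n` has a weak solution over `K`, or a
regular solution over `K(t)`, or a proper solution over `K`. -/
def SomeSolution {n : ℕ} {S : Type} [Group S] (ρ : S →* Equiv.Perm (Fin n)) : Prop :=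
  WeakSolutionOver (fibrePr α ρ) K ∨ RegularSolution (fibrePr α ρ) ∨ ProperSolution (fibrePr α ρ)

/-- If the fibre power of the embedding problem `α` by a finite central extension of `A_n` has some
solution, then `I` divides `n`. -/
def DegreesDivisible (I : ℕ) : Prop :=
  ∀ (n : ℕ) (S : Type) [Group S] [Finite S] (ρ : S →* Equiv.Perm (Fin n)),
    CentralOverAlt ρ → SomeSolution α ρ → I ∣ n

/-- The fibre power of the embedding problem `α` by `ρ` has a regular solution over `K(t)`; if `K` is
Hilbertian or a number field, it has a proper solution over `K`. -/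
def StrongSolution {n : ℕ} {S : Type} [Group S] (ρ : S →* Equiv.Perm (Fin n)) : Prop :=
  RegularSolution (fibrePr α ρ) ∧ (Hilbertian K ∨ NumberField K → ProperSolution (fibrePr α ρ))

/-- The fibre powers of the embedding problem `α` by all finite central extensions of `A_n` have
strong solutions. -/
def CoversSolvable (n : ℕ) : Prop :=
  ∀ (S : Type) [Group S] [Finite S] (ρ : S →* Equiv.Perm (Fin n)), CentralOverAlt ρ →
    StrongSolution α ρ

end

end Pool.Agent.Zk31.Voc
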